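import Pool.Agent.Lib.MP_783f50_lc.Closure

/-! Countable covering, names for conditions of an iterand, one-step extensions. -/

namespace Pool.Agent.Lib.MP_0fa4a2_gt

open Pool.Agent.Lib.MP_2739cb_lc Pool.Agent.Lib.MP_783f50_lc Cardinal Set

universe u

variable {P P' : Type u} [Preorder P] [Preorder P']

/-- Countable covering. -/
class CovC (P : Type u) [Preorder P] : Prop where
  out : ∀ {α : Type u} (D : ℕ → α → P → Prop), (∀ n a p q, q ≤ p → D n a p → D n a q) → ∀ p,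
    (∀ n q, q ≤ p → ∃ r, r ≤ q ∧ ∃ a, D n a r) →
    ∃ q, q ≤ p ∧ ∃ S : Set α, S.Countable ∧ ∀ n r, r ≤ q → ∃ t, t ≤ r ∧ ∃ a ∈ S, D n a t

theorem covC [CovC P] {κ : Type*} [Countable κ] {α : Type u} (D : κ → α → P → Prop)
    (hm : ∀ n a p q, q ≤ p → D n a p → D n a q) (p : P)
    (hd : ∀ n q, q ≤ p → ∃ r, r ≤ q ∧ ∃ a, D n a r) :
    ∃ q, q ≤ p ∧ ∃ S : Set α, S.Countable ∧ ∀ n r, r ≤ q → ∃ t, t ≤ r ∧ ∃ a ∈ S, D n a t := by
  rcases isEmpty_or_nonempty κ with h | h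
  · exact ⟨p, le_rfl, ∅, countable_empty, fun n => h.elim n⟩
  obtain ⟨e, he⟩ := exists_surjective_nat κ
  obtain ⟨q, hq, S, hS, h1⟩ := CovC.out (fun n => D (e n)) (fun n => hm (e n)) p fun n => hd (e n)
  refine ⟨q, hq, S, hS, fun n => ?_⟩
  obtain ⟨m, rfl⟩ := he n
  exact h1 m

/-- `Φ` is densely covered, below `p`, by sets in `I`. -/
def DCov {A : Type u} (I : Set A → Prop) (Φ : A → P → Prop) (p : P) : Prop :=
  ∀ r, r ≤ p → ∃ r', r' ≤ r ∧ ∃ S, I S ∧ ∀ a t, t ≤ r' → Φ a t → a ∈ S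

theorem covU [CovC P] {κ : Type*} [Countable κ] {α : Type u} (Φ : κ → α → P → Prop)
    (hm : ∀ k a p q, q ≤ p → Φ k a p → Φ k a q) (p : P) (h : ∀ k, DCov Set.Countable (Φ k) p) :
    ∃ q, q ≤ p ∧ ∃ S : Set α, S.Countable ∧ ∀ k a t, t ≤ q → Φ k a t → a ∈ S := by
  obtain ⟨q, hq, 𝒮, h1, h2⟩ := covC
    (fun k (S : Set α) r => S.Countable ∧ ∀ a t, t ≤ r → Φ k a t → a ∈ S)
    (fun _ _ _ _ hq h => ⟨h.1, fun a t ht => h.2 a t (ht.trans hq)⟩) p h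
  refine ⟨q, hq, ⋃₀ {S ∈ 𝒮 | S.Countable}, Countable.sUnion (h1.mono fun _ h => h.1)
    fun _ h => h.2, fun k a t ht h3 => ?_⟩
  obtain ⟨w, hw, S, h4, h5, h6⟩ := h2 k t ht
  exact ⟨S, ⟨h4, h5⟩, h6 a w le_rfl (hm _ _ _ _ hw h3)⟩

theorem CovC.iic [CovC P] (p : P) : CovC (Iic p) := by
  refine ⟨fun D hm q hd => ?_⟩
  obtain ⟨r, hr, S, h1, h2⟩ := CovC.out (fun n a (t : P) => ∃ h : t ≤ p, D n a ⟨t, h⟩)
    (fun n a t t' ht ⟨h, h3⟩ => ⟨ht.trans h, hm n a ⟨t, h⟩ ⟨t', ht.trans h⟩ ht h3⟩) q.1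
    fun n t ht => by
      obtain ⟨r, hr, a, h3⟩ := hd n ⟨t, ht.trans q.2⟩ ht
      exact ⟨r.1, hr, a, r.2, h3⟩
  refine ⟨⟨r, hr.trans q.2⟩, hr, S, h1, fun n t ht => ?_⟩
  obtain ⟨w, hw, a, ha, h, h3⟩ := h2 n t.1 ht
  exact ⟨⟨w, h⟩, hw, a, ha, h3⟩

theorem not_cov_om1N' [OrderTop P] [CovC P] : ¬ Cov EM (cls omN) (cls (om1N : Nm P)) := by
  rw [← T_cov]
  intro h
  obtain ⟨p, hp⟩ := h.nonempty
  obtain ⟨s, hs⟩ := cov_seq (om1N : Nm P)
  obtain ⟨q, hq, S, h1, h2⟩ := covU (fun n a t => Nm.FEq (s n) (nw a) t)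
    (fun _ _ _ _ h h1 => h1.mono h) p fun n r _ => by
      by_cases hc : ∃ a t, t ≤ r ∧ Nm.FEq (s n) (nw a) t
      · obtain ⟨a, t, ht, h2⟩ := hc
        exact ⟨t, ht, {a}, countable_singleton a, fun b w hw h3 =>
          nw_inj (h3.symm.trans (h2.mono hw))⟩
      · exact ⟨r, le_rfl, ∅, countable_empty, fun a t ht h2 => hc ⟨a, t, ht, h2⟩⟩
  obtain ⟨a, ha⟩ := exists_notMem_W1 h1
  obtain ⟨r, hr, n, h3⟩ := hs p hp (nw a) q hq (nw_mem a q)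
  exact ha (h2 n a r hr h3.symm)

noncomputable instance modZM' [OrderTop P] [CovC P] : ZM (MP_2739cb_lc.Mod P) where
  mem b a := EM a b
  zfc := M_zfc
  w := cls omN
  w1 := cls om1N
  hw := isOmega_omN
  hw1 := ⟨isOrd_on _, not_cov_om1N', cov_mem_om1N⟩
  clique := M_clique
  cunion := M_cunion

theorem exists_first {ι : Type u} (a : ι → RO P) : ∃ F : ι → RO P,
    (∀ i r, (F i).s r → (a i).s r) ∧ (∀ i j r, (F i).s r → (F j).s r → i = j) ∧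
    ∀ i r, (a i).s r → ∃ t, t ≤ r ∧ ∃ j, (F j).s t := by
  obtain ⟨_, _⟩ := exists_wellFoundedLT ι
  refine ⟨fun i => (a i).and (RO.all fun j : {j // j < i} => (a j.1).not), fun i r h => h.1,
    fun i j r h1 h2 => ?_, fun i r h => ?_⟩
  · rcases lt_trichotomy i j with h | h | h
    · exact absurd h1.1 (h2.2 ⟨i, h⟩ r le_rfl)
    · exact h
    · exact absurd h2.1 (h1.2 ⟨j, h⟩ r le_rfl)
  · obtain ⟨j, ⟨t, ht, h1⟩, h2⟩ := WellFounded.has_min wellFounded_lt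
      {j | ∃ t, t ≤ r ∧ (a j).s t} ⟨i, r, le_rfl, h⟩
    exact ⟨t, ht, j, h1, fun k w hw h3 => h2 k.1 ⟨w, hw.trans ht, h3⟩ k.2⟩

/-- The truth value that `p` is in the generic filter. -/
def bl (p : P) : RO P := RO.dense (· ≤ p)

theorem bl_of_le {p q : P} (h : q ≤ p) : (bl p).s q := fun r hr => ⟨r, le_rfl, hr.trans h⟩

theorem of_bl {p q : P} (h : (bl p).s q) : ∃ r, r ≤ q ∧ r ≤ p := h q le_rfl

/-- A ground-model proposition as a truth value. -/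
def cst (φ : Prop) : RO P := ⟨fun _ => φ, fun _ _ _ h => h, fun p h => let ⟨_, _, h⟩ := h p le_rfl; h⟩

variable {A : Type u} {Γ : A → A → P → Prop} {I : Set A → Prop}

/-- Names for independent sets of the conflict graph `Γ` which are covered by sets in `I`. -/
def Valid (Γ : A → A → P → Prop) (I : Set A → Prop) (W : A → RO P) : Prop :=
  (∀ a b r, (W a).s r → (W b).s r → ¬ Γ a b r) ∧ ∀ p, DCov I (fun a t => (W a).s t) p

theorem Valid.cov {W : A → RO P} (h : Valid Γ I W) (p : P) :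
    ∃ r, r ≤ p ∧ ∃ S, I S ∧ ∀ a t, t ≤ r → (W a).s t → a ∈ S := h.2 p p le_rfl

theorem Valid.chI {J : Set A → Prop} {W : A → RO P} (h : Valid Γ I W) (h1 : ∀ S, I S → J S) :
    Valid Γ J W :=
  ⟨h.1, fun _ r _ => let ⟨t, ht, S, h2, h3⟩ := h.cov r; ⟨t, ht, S, h1 S h2, h3⟩⟩

theorem Valid.bot (h0 : I ∅) : Valid Γ I fun _ => (RO.bot : RO P) :=
  ⟨fun _ _ _ h => h.elim, fun _ r _ => ⟨r, le_rfl, ∅, h0, fun _ _ _ h => h⟩⟩

/-- A name which densely coincides with valid names is valid. -/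
theorem Valid.of_loc {W : A → RO P} (hΓ : ∀ a b p q, q ≤ p → Γ a b p → Γ a b q)
    (h : ∀ p, ∃ r, r ≤ p ∧ ∃ W' : A → RO P, Valid Γ I W' ∧
      ∀ a t, t ≤ r → (W a).s t → (W' a).s t) : Valid Γ I W := by
  refine ⟨fun a b p ha hb hc => ?_, fun _ p _ => ?_⟩
  · obtain ⟨r, hr, W', h1, h2⟩ := h p
    exact h1.1 a b r (h2 a r le_rfl (RO.mono ha hr)) (h2 b r le_rfl (RO.mono hb hr)) (hΓ _ _ _ _ hr hc)
  · obtain ⟨r, hr, W', h1, h2⟩ := h p
    obtain ⟨t, ht, S, h3, h4⟩ := h1.cov r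
    exact ⟨t, ht.trans hr, S, h3, fun a w hw h5 => h4 a w hw (h2 a w (hw.trans ht) h5)⟩

def mixW {ι : Type u} (F : ι → RO P) (W : ι → A → RO P) (a : A) : RO P :=
  RO.ex fun i => (F i).and (W i a)

theorem mixW_iff {ι : Type u} {F : ι → RO P} (hF : ∀ i j r, (F i).s r → (F j).s r → i = j)
    {W : ι → A → RO P} {i : ι} {r : P} (h : (F i).s r) (a : A) :
    (mixW F W a).s r ↔ (W i a).s r := by
  refine ⟨fun h1 => RO.reg fun q hq => ?_, fun h1 => RO.ex_intro i ⟨h, h1⟩⟩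
  obtain ⟨t, ht, j, h2, h3⟩ := h1 q hq
  obtain rfl := hF i j t (RO.mono h (ht.trans hq)) h2
  exact ⟨t, ht, h3⟩

theorem Valid.mix (h0 : I ∅) (hΓ : ∀ a b p q, q ≤ p → Γ a b p → Γ a b q) {ι : Type u}
    {F : ι → RO P} (hF : ∀ i j r, (F i).s r → (F j).s r → i = j) {W : ι → A → RO P}
    (hW : ∀ i, Valid Γ I (W i)) : Valid Γ I (mixW F W) := by
  refine Valid.of_loc hΓ fun p => ?_
  by_cases h : ∃ r, r ≤ p ∧ ∃ i, (F i).s r
  · obtain ⟨r, hr, i, hi⟩ := h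
    exact ⟨r, hr, W i, hW i, fun a t ht => (mixW_iff hF (RO.mono hi ht) a).1⟩
  · refine ⟨p, le_rfl, _, Valid.bot h0, fun a t ht h1 => ?_⟩
    obtain ⟨w, hw, i, h2, -⟩ := h1 t le_rfl
    exact h ⟨w, hw.trans ht, i, h2⟩

/-- Adding, below `z`, a set `s` of atoms to a name. -/
def addW (W : A → RO P) (s : Set A) (z : P) (a : A) : RO P :=
  (W a).or ((cst (a ∈ s)).and (bl z))

theorem addW_left {W : A → RO P} {s : Set A} {z r : P} {a : A} (h : (W a).s r) :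
    (addW W s z a).s r := RO.or_inl h

theorem addW_right {W : A → RO P} {s : Set A} {z r : P} {a : A} (h : a ∈ s) (hr : r ≤ z) :
    (addW W s z a).s r := RO.or_inr ⟨h, bl_of_le hr⟩

theorem of_addW {W : A → RO P} {s : Set A} {z r : P} {a : A} (h : (addW W s z a).s r) :
    ∃ t, t ≤ r ∧ ((W a).s t ∨ (a ∈ s ∧ t ≤ z)) := by
  obtain ⟨t, ht, h1 | ⟨h1, h2⟩⟩ := h r le_rfl
  · exact ⟨t, ht, Or.inl h1⟩
  · obtain ⟨w, hw, h3⟩ := of_bl h2
    exact ⟨w, hw.trans ht, Or.inr ⟨h1, h3⟩⟩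

theorem Valid.add (hU : ∀ S S', I S → I S' → I (S ∪ S'))
    (hΓ : ∀ a b p q, q ≤ p → Γ a b p → Γ a b q) {W : A → RO P} (hW : Valid Γ I W) {s : Set A}
    (hs : I s) {z : P} (h1 : ∀ a ∈ s, ∀ b ∈ s, ∀ r, r ≤ z → ¬ Γ a b r)
    (h2 : ∀ a ∈ s, ∀ b r, r ≤ z → (W b).s r → ¬ Γ a b r ∧ ¬ Γ b a r) :
    Valid Γ I (addW W s z) := by
  refine ⟨fun a b p ha hb hc => ?_, fun _ p _ => ?_⟩
  · obtain ⟨r, hr, h3⟩ := of_addW ha
    obtain ⟨t, ht, h4⟩ := of_addW (RO.mono hb hr)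
    have h5 := hΓ _ _ _ _ (ht.trans hr) hc
    rcases h3 with h3 | h3 <;> rcases h4 with h4 | h4
    · exact hW.1 a b t (RO.mono h3 ht) h4 h5
    · exact (h2 b h4.1 a t h4.2 (RO.mono h3 ht)).2 h5
    · exact (h2 a h3.1 b t (ht.trans h3.2) h4).1 h5
    · exact h1 a h3.1 b h4.1 t h4.2 h5
  · obtain ⟨r, hr, S, h3, h4⟩ := hW.cov p
    refine ⟨r, hr, S ∪ s, hU _ _ h3 hs, fun a t ht h5 => ?_⟩
    obtain ⟨w, hw, h6 | h6⟩ := of_addW h5
    · exact Or.inl (h4 a w (hw.trans ht) h6)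
    · exact Or.inr h6.1

theorem Valid.chain [CovC P] (hΓ : ∀ a b p q, q ≤ p → Γ a b p → Γ a b q) {W : ℕ → A → RO P}
    (hW : ∀ n, Valid Γ Set.Countable (W n)) (c : RO P)
    (h : ∀ n a r, c.s r → (W n a).s r → (W (n + 1) a).s r) :
    Valid Γ Set.Countable fun a => c.and (RO.ex fun n => W n a) := by
  have key : ∀ n m, n ≤ m → ∀ a r, c.s r → (W n a).s r → (W m a).s r := fun n m hnm => by
    induction hnm with
    | refl => exact fun _ _ _ h => h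
    | step _ ih => exact fun a r h1 h2 => h _ a r h1 (ih a r h1 h2)
  refine ⟨fun a b p ha hb hc => ?_, fun _ p _ => ?_⟩
  · obtain ⟨r, hr, n, h1⟩ := ha.2 p le_rfl
    obtain ⟨t, ht, m, h2⟩ := hb.2 r hr
    have h3 := RO.mono ha.1 (ht.trans hr)
    exact (hW (max n m)).1 a b t (key _ _ (le_max_left _ _) a t h3 (RO.mono h1 ht))
      (key _ _ (le_max_right _ _) b t h3 h2) (hΓ _ _ _ _ (ht.trans hr) hc)
  · obtain ⟨q, hq, S, h1, h2⟩ := covU (fun n a t => (W n a).s t) (fun _ _ _ _ h h1 => RO.mono h1 h) p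
      fun n => (hW n).2 p
    refine ⟨q, hq, S, h1, fun a t ht h3 => ?_⟩
    obtain ⟨w, hw, n, h4⟩ := h3.2 t le_rfl
    exact h2 n a w (hw.trans ht) h4

theorem Valid.decide {W : A → RO P} (hW : Valid Γ Set.Finite W) (p : P) :
    ∃ r, r ≤ p ∧ ∃ s : Set A, s.Finite ∧ ∀ a t, t ≤ r → ((W a).s t ↔ a ∈ s) := by
  obtain ⟨r, hr, S, h1, h2⟩ := hW.cov p
  have key : ∀ S : Set A, S.Finite → ∃ t, t ≤ r ∧ ∀ a ∈ S, (W a).s t ∨ (W a).not.s t := by
    intro S hS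
    induction S, hS using Set.Finite.induction_on with
    | empty => exact ⟨r, le_rfl, fun _ h => h.elim⟩
    | @insert b S _ _ ih =>
      obtain ⟨t, ht, h3⟩ := ih
      obtain ⟨w, hw, h4⟩ := RO.decide (W b) t
      refine ⟨w, hw.trans ht, ?_⟩
      rintro a (rfl | ha)
      · exact h4
      · exact (h3 a ha).imp (fun h => RO.mono h hw) fun h => RO.mono h hw
  obtain ⟨t, ht, h3⟩ := key S h1
  refine ⟨t, ht.trans hr, {a ∈ S | (W a).s t}, h1.subset fun _ h => h.1, fun a w hw =>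
    ⟨fun h => ?_, fun h => RO.mono h.2 hw⟩⟩
  have h4 := h2 a w (hw.trans ht) h
  exact ⟨h4, (h3 a h4).resolve_right fun h5 => h5 w hw h⟩

/-- Projections of forcing notions. -/
structure Proj (π : P' → P) : Prop where
  mono : ∀ p q, q ≤ p → π q ≤ π p
  lift : ∀ p z, z ≤ π p → ∃ q, q ≤ p ∧ π q ≤ z

theorem Proj.comp {P'' : Type u} [Preorder P''] {π : P' → P} {ρ : P'' → P'} (h1 : Proj π)
    (h2 : Proj ρ) : Proj fun p => π (ρ p) :=
  ⟨fun _ _ h => h1.mono _ _ (h2.mono _ _ h), fun p z hz => by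
    obtain ⟨q, h3, h4⟩ := h1.lift _ z hz
    obtain ⟨r, h5, h6⟩ := h2.lift p q h3
    exact ⟨r, h5, (h1.mono _ _ h6).trans h4⟩⟩

def Proj.up {π : P' → P} (h : Proj π) (a : RO P) : RO P' where
  s p := a.s (π p)
  mono' _ _ hq ha := RO.mono ha (h.mono _ _ hq)
  reg' p hp := RO.reg fun z hz => by
    obtain ⟨q, h1, h2⟩ := h.lift p z hz
    obtain ⟨r, h3, h4⟩ := hp q h1
    exact ⟨π r, (h.mono _ _ h3).trans h2, h4⟩

/-- `P'` is the two-step iteration of `P` and the poset of independent sets in `I`. -/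
structure Ext1 (P P' : Type u) [Preorder P] [Preorder P'] {A : Type u} (Γ : A → A → P → Prop)
    (I : Set A → Prop) where
  π : P' → P
  V : P' → A → RO P
  le_iff : ∀ p q, p ≤ q ↔ π p ≤ π q ∧ ∀ a r, r ≤ π p → (V q a).s r → (V p a).s r
  valid : ∀ p, Valid Γ I (V p)
  mk' : ∀ z W, Valid Γ I W → ∃ p, π p = z ∧ ∀ a r, (V p a).s r ↔ (W a).s r
  hΓ : ∀ a b p q, q ≤ p → Γ a b p → Γ a b q

namespace Ext1

variable (E : Ext1 P P' Γ I)

theorem proj : Proj E.π := ⟨fun _ _ h => ((E.le_iff _ _).1 h).1, fun p z hz => by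
  obtain ⟨q, h1, h2⟩ := E.mk' z _ (E.valid p)
  exact ⟨q, (E.le_iff _ _).2 ⟨h1 ▸ hz, fun a r _ h => (h2 a r).2 h⟩, h1.le⟩⟩

def chI {J : Set A → Prop} (h : ∀ S, I S ↔ J S) : Ext1 P P' Γ J where
  π := E.π
  V := E.V
  le_iff := E.le_iff
  valid p := (E.valid p).chI fun S => (h S).1
  mk' z W hW := E.mk' z W (hW.chI fun S => (h S).2)
  hΓ := E.hΓ

/-- The condition `p` contains the atom `a`. -/
def has (p : P') (a : A) : Prop := (E.V p a).s (E.π p)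

variable {E}

theorem has.mono {p q : P'} {a : A} (h : E.has p a) (hq : q ≤ p) : E.has q a :=
  ((E.le_iff _ _).1 hq).2 a _ le_rfl (RO.mono h ((E.le_iff _ _).1 hq).1)

theorem has.indep {p : P'} {a b : A} (h1 : E.has p a) (h2 : E.has p b) : ¬ Γ a b (E.π p) :=
  (E.valid p).1 a b _ h1 h2

theorem add (hU : ∀ S S', I S → I S' → I (S ∪ S')) {p : P'} {s : Set A} (hs : I s) {z : P}
    (hz : z ≤ E.π p) (h1 : ∀ a ∈ s, ∀ b ∈ s, ∀ r, r ≤ z → ¬ Γ a b r)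
    (h2 : ∀ a ∈ s, ∀ b r, r ≤ z → (E.V p b).s r → ¬ Γ a b r ∧ ¬ Γ b a r) :
    ∃ q, q ≤ p ∧ E.π q = z ∧ (∀ a ∈ s, E.has q a) ∧
      ∀ a r, (E.V q a).s r ↔ (addW (E.V p) s z a).s r := by
  obtain ⟨q, h3, h4⟩ := E.mk' z _ ((E.valid p).add hU E.hΓ hs h1 h2)
  exact ⟨q, (E.le_iff _ _).2 ⟨h3 ▸ hz, fun a r _ h => (h4 a r).2 (addW_left h)⟩, h3,
    fun a ha => (h4 a _).2 (addW_right ha h3.le), h4⟩

end Ext1

/-- Names for antichains of finite independent sets are densely countably covered. -/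
def CC (Γ : A → A → P → Prop) : Prop :=
  ∀ (ι : Type u) (s : ι → Set A) (acc : ι → RO P), (∀ i, (s i).Finite) →
    (∀ i r, (acc i).s r → ∀ a ∈ s i, ∀ b ∈ s i, ¬ Γ a b r) →
    (∀ i j r, i ≠ j → (acc i).s r → (acc j).s r →
      ∃ t, t ≤ r ∧ ∃ a ∈ s i, ∃ b ∈ s j, Γ a b t ∨ Γ b a t) →
    ∀ p, DCov Set.Countable (fun i t => (acc i).s t) p

theorem Ext1.cover (E : Ext1 P P' Γ Set.Finite) (hC : CC Γ) {α : Type u} (D : α → P' → Prop)
    (hm : ∀ a p q, q ≤ p → D a p → D a q) (p : P')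
    (hd : ∀ q, q ≤ p → ∃ r, r ≤ q ∧ ∃ a, D a r) (z : P) :
    ∃ z', z' ≤ z ∧ ∃ S : Set α, S.Countable ∧
      ∀ r, r ≤ p → E.π r ≤ z' → ∃ t, t ≤ r ∧ ∃ a ∈ S, D a t := by
  let ι := {x : P' × α × Set A // D x.2.1 x.1 ∧ x.2.2.Finite ∧
    ∀ a t, t ≤ E.π x.1 → ((E.V x.1 a).s t ↔ a ∈ x.2.2)}
  obtain ⟨_, _⟩ := exists_wellFoundedLT ι
  let cf : ι → ι → RO P := fun i j =>
    RO.dense fun t => ∃ a ∈ i.1.2.2, ∃ b ∈ j.1.2.2, Γ a b t ∨ Γ b a t
  let F : ∀ i : ι, (∀ j, j < i → RO P) → RO P := fun i rec =>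
    (bl (E.π i.1.1)).and (RO.all fun j : {j // j < i} => (rec j.1 j.2).imp (cf i j.1))
  let acc : ι → RO P := WellFoundedLT.fix F
  have hc : ∀ i, acc i = F i fun j _ => acc j := fun i => WellFoundedLT.fix_eq F i
  have hi : ∀ i : ι, ∀ r, r ≤ E.π i.1.1 → ∀ a ∈ i.1.2.2, ∀ b ∈ i.1.2.2, ¬ Γ a b r :=
    fun i r hr a ha b hb => (E.valid _).1 a b r ((i.2.2.2 a r hr).2 ha) ((i.2.2.2 b r hr).2 hb)
  obtain ⟨z', h1, S, h2, h3⟩ := hC ι (fun i => i.1.2.2) acc (fun i => i.2.2.1)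
    (fun i r h a ha b hb h4 => by
      rw [hc] at h
      obtain ⟨t, ht, h5⟩ := of_bl h.1
      exact hi i t h5 a ha b hb (E.hΓ _ _ _ _ ht h4))
    (fun i j r hij h4 h5 => by
      rcases lt_or_gt_of_ne hij with h | h
      · rw [hc] at h5
        obtain ⟨t, ht, a, ha, b, hb, h6⟩ := h5.2 ⟨i, h⟩ r le_rfl h4 r le_rfl
        exact ⟨t, ht, b, hb, a, ha, h6.symm⟩
      · rw [hc] at h4
        exact h4.2 ⟨j, h⟩ r le_rfl h5 r le_rfl) z z le_rfl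
  refine ⟨z', h1, (fun i : ι => i.1.2.1) '' S, h2.image _, fun r hr h4 => ?_⟩
  obtain ⟨t, ht, a, h5⟩ := hd r hr
  obtain ⟨y, hy, s, h6, h7⟩ := (E.valid t).decide (E.π t)
  obtain ⟨t1, h8, h9⟩ := E.mk' y _ (E.valid t)
  have h10 : t1 ≤ t := (E.le_iff _ _).2 ⟨h8 ▸ hy, fun a r _ h => (h9 a r).2 h⟩
  let i : ι := ⟨(t1, a, s), hm _ _ _ h10 h5, h6, fun a w hw => (h9 a w).trans (h7 a w (h8 ▸ hw))⟩
  obtain ⟨j, w, hw, h11, h12⟩ : ∃ j w, w ≤ E.π t1 ∧ (acc j).s w ∧ (cf i j).not.s w := by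
    by_contra hcon
    push Not at hcon
    refine hcon i _ le_rfl ?_ fun w hw h => ?_
    · rw [hc]
      exact ⟨bl_of_le le_rfl, fun j w hw h => RO.by_contra fun w' hw' =>
        hcon j.1 w' (hw'.trans hw) (RO.mono h hw')⟩
    · obtain ⟨w', hw', a, ha, b, hb, h⟩ := h w le_rfl
      exact h.elim (hi i w' (hw'.trans hw) a ha b hb) (hi i w' (hw'.trans hw) b hb a ha)
  have h13 := h3 j w (hw.trans ((E.proj.mono _ _ (h10.trans ht)).trans h4)) h11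
  rw [hc] at h11
  obtain ⟨w1, h14, h15⟩ := of_bl h11.1
  obtain ⟨q, h16, h17, h18, -⟩ := Ext1.add (E := E) (fun _ _ => Finite.union) j.2.2.1
    (h14.trans hw) (fun a ha b hb r hr => hi j r (hr.trans h15) a ha b hb) fun a ha b r hr hb => by
      have hb' : b ∈ s := (i.2.2.2 b r (hr.trans (h14.trans hw))).1 hb
      exact ⟨fun h => h12 r (hr.trans h14) fun k hk => ⟨k, le_rfl, b, hb', a, ha,
        Or.inr (E.hΓ _ _ _ _ hk h)⟩, fun h => h12 r (hr.trans h14) fun k hk =>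
          ⟨k, le_rfl, b, hb', a, ha, Or.inl (E.hΓ _ _ _ _ hk h)⟩⟩
  refine ⟨q, h16.trans (h10.trans ht), _, ⟨j, h13, rfl⟩, hm _ _ _ ?_ j.2.1⟩
  refine (E.le_iff _ _).2 ⟨h17 ▸ h15, fun a r hr h => RO.mono (h18 a ?_) hr⟩
  exact (j.2.2.2 a r (hr.trans (h17 ▸ h15))).1 h

/-! ### Changing the set of atoms -/

def push {B : Type u} (e : B → A) (Γ : B → B → P → Prop) (x y : A) (r : P) : Prop :=
  ∀ a b, x = e a → y = e b → Γ a b r

omit [Preorder P] in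
theorem push_iff {B : Type u} {e : B → A} (he : Function.Injective e) {Γ : B → B → P → Prop}
    {a b : B} {r : P} : push e Γ (e a) (e b) r ↔ Γ a b r :=
  ⟨fun h => h a b rfl rfl, fun h _ _ h1 h2 => he h1 ▸ he h2 ▸ h⟩

omit [Preorder P] in
theorem range_of_not_push {B : Type u} {e : B → A} {Γ : B → B → P → Prop} {x : A} {r : P}
    (h : ¬ push e Γ x x r) : ∃ a, x = e a := by
  by_contra hc
  exact h fun a _ h1 _ => absurd ⟨a, h1⟩ hc

def Ext1.comap {B : Type u} {e : B → A} (he : Function.Injective e) {Γ : B → B → P → Prop}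
    {J : Set B → Prop} (h1 : ∀ S, I S → J (e ⁻¹' S)) (h2 : ∀ S, J S → I (e '' S))
    (E : Ext1 P P' (push e Γ) I) : Ext1 P P' Γ J where
  π := E.π
  V p a := E.V p (e a)
  le_iff p q := (E.le_iff p q).trans (and_congr_right' ⟨fun h a => h (e a), fun h x r hr hx => by
    obtain ⟨a, rfl⟩ := range_of_not_push ((E.valid q).1 x x r hx hx)
    exact h a r hr hx⟩)
  valid p := ⟨fun a b r ha hb h => (E.valid p).1 _ _ r ha hb ((push_iff he).2 h), fun z r hr => by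
    obtain ⟨t, ht, S, h3, h4⟩ := (E.valid p).2 z r hr
    exact ⟨t, ht, _, h1 S h3, fun a w hw h5 => h4 _ w hw h5⟩⟩
  mk' z W hW := by
    have key : ∀ x r, (RO.ex fun a => (cst (x = e a)).and (W a)).s r →
        ∃ a, x = e a ∧ (W a).s r := fun x r h => by
      obtain ⟨t, -, a, rfl, -⟩ := h r le_rfl
      refine ⟨a, rfl, RO.reg fun q hq => ?_⟩
      obtain ⟨t, ht, b, h3, h4⟩ := h q hq
      exact ⟨t, ht, he h3 ▸ h4⟩
    obtain ⟨p, h3, h4⟩ := E.mk' z (fun x => RO.ex fun a => (cst (x = e a)).and (W a))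
      ⟨fun x y r hx hy h => by
        obtain ⟨a, rfl, ha⟩ := key x r hx
        obtain ⟨b, rfl, hb⟩ := key y r hy
        exact hW.1 a b r ha hb (h a b rfl rfl), fun _ r _ => by
        obtain ⟨t, ht, S, h3, h4⟩ := hW.cov r
        refine ⟨t, ht, _, h2 S h3, fun x w hw hx => ?_⟩
        obtain ⟨a, rfl, ha⟩ := key x w hx
        exact ⟨a, h4 a w hw ha, rfl⟩⟩
    refine ⟨p, h3, fun a r => (h4 _ r).trans ⟨fun h => ?_, fun h => RO.ex_intro a ⟨rfl, h⟩⟩⟩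
    obtain ⟨b, h5, h6⟩ := key _ r h
    exact he h5 ▸ h6
  hΓ a b p q hq h := (push_iff he).1 (E.hΓ _ _ p q hq ((push_iff he).2 h))

theorem CC.push {B : Type u} {e : B → A} (he : Function.Injective e) {Γ : B → B → P → Prop}
    (h : CC Γ) : CC (push e Γ) := by
  intro ι s acc h1 h2 h3
  refine h ι (fun i => e ⁻¹' s i) acc (fun i => (h1 i).preimage he.injOn)
    (fun i r h a ha b hb h4 => h2 i r h _ ha _ hb ((push_iff he).2 h4)) fun i j r hij h4 h5 => ?_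
  obtain ⟨t, ht, x, hx, y, hy, h6⟩ := h3 i j r hij h4 h5
  obtain ⟨a, rfl⟩ := range_of_not_push (h2 i r h4 x hx x hx)
  obtain ⟨b, rfl⟩ := range_of_not_push (h2 j r h5 y hy y hy)
  exact ⟨t, ht, a, hx, b, hy, h6.imp (push_iff he).1 (push_iff he).1⟩

theorem CC.of_countable [CovC P] [Countable A] : CC Γ := by
  intro ι s acc h1 h2 h3 _ p _
  have : Countable {s : Set A // s.Finite} := (Set.Countable.ofPred_finite (α := A)).to_subtype
  obtain ⟨q, hq, S, h4, h5⟩ := covU (fun (k : {s : Set A // s.Finite}) i t => (acc i).s t ∧ s i = k)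
    (fun _ _ _ _ h h1 => ⟨RO.mono h1.1 h, h1.2⟩) p fun k r _ => by
      by_cases hc : ∃ i t, t ≤ r ∧ (acc i).s t ∧ s i = k
      · obtain ⟨i, t, ht, h4, h5⟩ := hc
        refine ⟨t, ht, {i}, countable_singleton i, fun j w hw h6 => ?_⟩
        by_contra h7
        obtain ⟨w', hw', a, ha, b, hb, h8⟩ := h3 j i w h7 h6.1 (RO.mono h4 hw)
        rw [h6.2, ← h5] at ha
        exact h8.elim (h2 i w' (RO.mono h4 (hw'.trans hw)) a ha b hb)
          (h2 i w' (RO.mono h4 (hw'.trans hw)) b hb a ha)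
      · exact ⟨r, le_rfl, ∅, countable_empty, fun i t ht h => hc ⟨i, t, ht, h⟩⟩
  exact ⟨q, hq, S, h4, fun i t ht h => h5 ⟨_, h1 i⟩ i t ht ⟨h, rfl⟩⟩

end Pool.Agent.Lib.MP_0fa4a2_gt
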