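import Pool.Agent.Lib.MP_0fa4a2_gt.Spec

/-! Three steps (a Cohen real, a countably closed step, a specializing step) destroy the Baire
property of a splitting tree. -/

namespace Pool.Agent.Lib.MP_0fa4a2_gt

open Pool.Agent.Lib.MP_2739cb_lc Pool.Agent.Lib.MP_783f50_lc Cardinal Set

universe u

variable {P0 P1 P2 P3 : Type u} [Preorder P0] [Preorder P1] [Preorder P2] [Preorder P3]
  {J : Type u}

structure TreeN (R : J → J → RO P0) : Prop where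
  tr : ∀ a b c r, (R a b).s r → (R b c).s r → (R a c).s r
  tree : ∀ a b c r, (R a c).s r → (R b c).s r → ∃ t, t ≤ r ∧ ((R a b).s t ∨ (R b a).s t)

def BaireN (R : J → J → RO P0) (z : P0) : Prop :=
  ∀ O : ℕ → J → RO P0, ∀ r, r ≤ z →
    (∀ n a b t, t ≤ r → (O n a).s t → (R a b).s t → (O n b).s t) →
    (∀ n a t, t ≤ r → ∃ w, w ≤ t ∧ ∃ b, (R a b).s w ∧ (O n b).s w) →
    ∀ a, ∃ w, w ≤ r ∧ ∃ b, (R a b).s w ∧ ∀ n, (O n b).s w

/-- Below `z`, `R` names a nonempty splitting tree with the Baire property. -/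
structure Dat (R : J → J → RO P0) (z : P0) : Prop extends TreeN R where
  ne : Nonempty J
  all : ∀ a, (R a a).s z
  split : ∀ a r, r ≤ z → ∃ t, t ≤ r ∧ ∃ b c, (R a b).s t ∧ (R a c).s t ∧ (R b c).not.s t ∧
    (R c b).not.s t
  baire : BaireN R z

theorem Dat.proj {π : P1 → P0} (hπ : Proj π) (hs : ∀ z, ∃ p, π p ≤ z ∧ z ≤ π p) {J' : Type u}
    {φ : J' → J} (hφ : Function.Surjective φ) {R : J → J → RO P1} {R' : J' → J' → RO P0}
    (h : ∀ a b r, (R' a b).s (π r) ↔ (R (φ a) (φ b)).s r) {q : P1} (d : Dat R q) :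
    Dat R' (π q) := by
  refine ⟨⟨fun a b c r h1 h2 => ?_, fun a b c r h1 h2 => ?_⟩, ?_, fun a => (h _ _ _).2 (d.all _),
    fun a r hr => ?_, fun O r hr h1 h2 a => ?_⟩
  · obtain ⟨p, h3, h4⟩ := hs r
    exact RO.mono ((h _ _ _).2 (d.tr _ _ _ p ((h _ _ _).1 (RO.mono h1 h3))
      ((h _ _ _).1 (RO.mono h2 h3)))) h4
  · obtain ⟨p, h3, -⟩ := hs r
    obtain ⟨t, h4, h5⟩ := d.tree _ _ _ p ((h _ _ _).1 (RO.mono h1 h3)) ((h _ _ _).1 (RO.mono h2 h3))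
    exact ⟨π t, (hπ.mono _ _ h4).trans h3, h5.imp (h _ _ _).2 (h _ _ _).2⟩
  · obtain ⟨a⟩ := d.ne
    exact ⟨(hφ a).choose⟩
  · obtain ⟨p, h1, h2⟩ := hπ.lift q r hr
    obtain ⟨t, h3, b, c, h4, h5, h6, h7⟩ := d.split (φ a) p h1
    obtain ⟨b, rfl⟩ := hφ b
    obtain ⟨c, rfl⟩ := hφ c
    have k : ∀ b c, (R (φ b) (φ c)).not.s t → (R' b c).not.s (π t) := fun b c h6 w hw h8 => by
      obtain ⟨t', h9, h10⟩ := hπ.lift t w hw
      exact h6 t' h9 ((h _ _ _).1 (RO.mono h8 h10))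
    exact ⟨π t, (hπ.mono _ _ h3).trans h2, b, c, (h _ _ _).2 h4, (h _ _ _).2 h5, k _ _ h6, k _ _ h7⟩
  · obtain ⟨p, h3, h4⟩ := hπ.lift q r hr
    choose ψ hψ using hφ
    have k : ∀ a b r, (R' (ψ a) (ψ b)).s (π r) ↔ (R a b).s r := fun a b r => by
      rw [h, hψ, hψ]
    obtain ⟨w, h5, b, h6, h7⟩ := d.baire (fun n a => hπ.up (O n (ψ a))) p h3
      (fun n a b t ht h5 h6 => h1 n _ _ _ ((hπ.mono _ _ ht).trans h4) h5 ((k _ _ _).2 h6))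
      (fun n a t ht => by
        obtain ⟨w, h5, b, h6, h7⟩ := h2 n (ψ a) _ ((hπ.mono _ _ ht).trans h4)
        obtain ⟨t', h8, h9⟩ := hπ.lift t w h5
        refine ⟨t', h8, φ b, hψ a ▸ (h _ _ _).1 (RO.mono h6 h9), h1 n b _ _
          (h9.trans (h5.trans ((hπ.mono _ _ ht).trans h4))) (RO.mono h7 h9) ((h _ _ _).2 ?_)⟩
        rw [hψ]
        exact RO.mono (d.all _) (h8.trans (ht.trans h3))) (φ a)
    exact ⟨π w, (hπ.mono _ _ h5).trans h4, ψ b, (h _ _ _).2 ((hψ b).symm ▸ h6), h7⟩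

def Ch (R : J → J → RO P0) : Type u := {c : J → RO P0 //
  ∀ a b r, (c a).s r → (c b).s r → ∃ t, t ≤ r ∧ ((R a b).s t ∨ (R b a).s t)}

def ΓC (x y : ULift.{u} ℕ × Bool) (_ : P0) : Prop := x.1 = y.1 ∧ x.2 ≠ y.2

def ΓL (R : J → J → RO P0) (π : P1 → P0) (x y : W1.{u} × (J ⊕ Ch R)) (r : P1) : Prop :=
  (∃ a b, x.2 = .inl a ∧ y.2 = .inl b ∧ x.1 = y.1 ∧ a ≠ b) ∨
    ∃ a b, x.2 = .inl a ∧ y.2 = .inr b ∧ y.1 < x.1 ∧ (b.1 a).s (π r)

section Approx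

variable {A : Type u} {Γ : A → A → P1 → Prop} (E0 : Ext1 P0 P1 ΓC Set.Finite)
  (E1 : Ext1 P1 P2 Γ Set.Countable)

def Dec (y : P1) (s : Set (ULift.{u} ℕ × Bool)) : Prop :=
  ∀ a t, t ≤ E0.π y → ((E0.V y a).s t ↔ a ∈ s)

theorem dec_cut {y : P1} {z : P0} (hz : z ≤ E0.π y) {s : Set (ULift.{u} ℕ × Bool)}
    (h : ∀ a t, t ≤ z → ((E0.V y a).s t ↔ a ∈ s)) : ∃ y', y' ≤ y ∧ E0.π y' = z ∧ Dec E0 y' s := by
  obtain ⟨y', h1, h2⟩ := E0.mk' z _ (E0.valid y)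
  exact ⟨y', (E0.le_iff _ _).2 ⟨h1 ▸ hz, fun a r _ h => (h2 a r).2 h⟩, h1,
    fun a t ht => (h2 a t).trans (h a t (h1 ▸ ht))⟩

theorem dec_dense {y : P1} {z : P0} (hz : z ≤ E0.π y) :
    ∃ y', y' ≤ y ∧ E0.π y' ≤ z ∧ ∃ s, s.Finite ∧ Dec E0 y' s := by
  obtain ⟨w, hw, s, h1, h2⟩ := (E0.valid y).decide z
  obtain ⟨y', h3, h4, h5⟩ := dec_cut E0 (hw.trans hz) h2
  exact ⟨y', h3, h4 ▸ hw, s, h1, h5⟩

theorem valid_uni {W W' : A → RO P1} (hΓ : ∀ a b p q, q ≤ p → Γ a b p → Γ a b q)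
    (h1 : Valid Γ Set.Countable W) (h2 : Valid Γ Set.Countable W') {y : P1}
    (h : ∀ x r, r ≤ y → (W x).s r → (W' x).s r) :
    Valid Γ Set.Countable fun x => (W x).or ((W' x).and (bl y)) := by
  refine Valid.of_loc hΓ fun p => ?_
  by_cases h3 : ∃ r, r ≤ p ∧ r ≤ y
  · obtain ⟨r, h3, h4⟩ := h3
    refine ⟨r, h3, W', h2, fun a t ht h5 => RO.reg fun w hw => ?_⟩
    obtain ⟨w', h6, h7⟩ := h5 w hw
    exact ⟨w', h6, h7.elim (h a w' (h6.trans (hw.trans (ht.trans h4)))) And.left⟩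
  · refine ⟨p, le_rfl, W, h1, fun a t ht h5 => RO.reg fun w hw => ?_⟩
    obtain ⟨w', h6, h7⟩ := h5 w hw
    refine ⟨w', h6, h7.resolve_right fun h8 => ?_⟩
    obtain ⟨w1, h9, h10⟩ := of_bl h8.2
    exact h3 ⟨w1, h9.trans (h6.trans (hw.trans ht)), h10⟩

def Bad (b : J → P2 → Prop) (s : Set (ULift.{u} ℕ × Bool)) (z : P0) (a : J) (W : A → RO P1) :
    Prop :=
  ∀ c, E0.π (E1.π c) ≤ z → Dec E0 (E1.π c) s → (∀ x r, r ≤ E1.π c → (W x).s r → (E1.V c x).s r) →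
    (∃ c', c' ≤ c ∧ b a c') ∧ ∃ c', c' ≤ c ∧ ∀ c'', c'' ≤ c' → ¬ b a c''

variable {E0 E1}

theorem Bad.mono {b : J → P2 → Prop} {s : Set (ULift.{u} ℕ × Bool)} {z z' : P0} {a : J}
    {W W' : A → RO P1} (h : Bad E0 E1 b s z a W) (hz : z' ≤ z)
    (hW : ∀ x r, E0.π r ≤ z' → (W x).s r → (W' x).s r) : Bad E0 E1 b s z' a W' :=
  fun c h1 h2 h3 => h c (h1.trans hz) h2 fun x r hr h4 =>
    h3 x r hr (hW x r ((E0.proj.mono _ _ hr).trans h1) h4)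

variable (E0 E1)

theorem approx [CovC P0] [CovC P1] {R : J → J → RO P0} (hR : TreeN R) {b : J → P2 → Prop}
    (bm : ∀ a p q, q ≤ p → b a p → b a q)
    (bd : ∀ a t c, b t c → (R a t).s (E0.π (E1.π c)) → b a c) (r : P2)
    (bc : ∀ a a' c, c ≤ r → b a c → b a' c → ∃ c', c' ≤ c ∧
      ((R a a').s (E0.π (E1.π c')) ∨ (R a' a).s (E0.π (E1.π c')))) :
    ∃ c, c ≤ r ∧ ∃ B : Set (Ch R), B.Countable ∧ ∀ t c', c' ≤ c → b t c' →
      ∃ c'', c'' ≤ c' ∧ ∃ β ∈ B, (β.1 t).s (E0.π (E1.π c'')) := by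
  by_contra hc
  push Not at hc
  have p0 := E0.proj
  have p1 := E1.proj
  have p2 := p0.comp p1
  obtain ⟨y0, h1, -, s0, -, h2⟩ := dec_dense E0 (le_refl (E0.π (E1.π r)))
  have mk2 : ∀ y, y ≤ y0 → ∀ W, Valid Γ Set.Countable W → (∀ x t, (E1.V r x).s t → (W x).s t) →
      ∃ c, c ≤ r ∧ E1.π c = y ∧ ∀ x t, (E1.V c x).s t ↔ (W x).s t := fun y h3 W h4 h5 => by
    obtain ⟨c, h6, h7⟩ := E1.mk' y W h4
    exact ⟨c, (E1.le_iff _ _).2 ⟨h6 ▸ h3.trans h1, fun x t _ h => (h7 x t).2 (h5 x t h)⟩, h6, h7⟩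
  have step1 : ∀ y s, y ≤ y0 → Dec E0 y s → ∀ W, Valid Γ Set.Countable W →
      (∀ x t, (E1.V r x).s t → (W x).s t) → ∃ z, z ≤ E0.π y ∧ ∃ a W', Valid Γ Set.Countable W' ∧
        (∀ x t, (W x).s t → (W' x).s t) ∧ Bad E0 E1 b s z a W' := by
    intro y s h3 h4 W h5 h6
    obtain ⟨c, h7, rfl, h8⟩ := mk2 y h3 W h5 h6
    let b0 : J → RO P0 := fun a => RO.dense fun z => ∃ c', c' ≤ c ∧ z ≤ E0.π (E1.π c') ∧ b a c'
    obtain ⟨a, a', z1, h9, h10, h11⟩ : ∃ a a' z, (b0 a).s z ∧ (b0 a').s z ∧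
        ∀ t, t ≤ z → ¬ ((R a a').s t ∨ (R a' a).s t) := by
      by_contra h9
      push Not at h9
      obtain ⟨t, c', h10, h11, h12⟩ := hc c h7 {⟨b0, h9⟩} (countable_singleton _)
      exact h12 c' le_rfl _ rfl fun z hz => ⟨z, le_rfl, c', h10, hz, h11⟩
    obtain ⟨z2, h12, c0, h13, h14, h15⟩ := h9 z1 le_rfl
    obtain ⟨z3, h16, c1, h17, h18, h19⟩ := h10 z2 h12
    obtain ⟨y1, h20, h21, s1, h22, h23⟩ := dec_dense E0 (h16.trans h14)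
    obtain ⟨y2, h24, h25, s2, h26, h27⟩ := dec_dense E0 (h21.trans h18)
    obtain ⟨k, hk⟩ := ((h22.union h26).image Prod.fst).exists_notMem
    have ad : ∀ y s (v : Bool), Dec E0 y s → s ⊆ s1 ∪ s2 → E0.π y2 ≤ E0.π y →
        ∃ y', y' ≤ y ∧ E0.π y' = E0.π y2 ∧ E0.has y' (k, v) := fun y s v h1 h2 h3 => by
      obtain ⟨q, h4, h5, h6, -⟩ := Ext1.add (E := E0) (fun _ _ => Finite.union)
        (finite_singleton (k, v)) h3 (by rintro _ rfl _ rfl _ _ h; exact h.2 rfl) (by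
          rintro _ rfl x t ht hx
          have : x.1 ≠ k := fun h => hk ⟨x, h2 ((h1 x t (ht.trans h3)).1 hx), h⟩
          exact ⟨fun h => this h.1.symm, fun h => this h.1⟩)
      exact ⟨q, h4, h5, h6 _ rfl⟩
    obtain ⟨y3, h28, h29, h30⟩ := ad y1 s1 true h23 subset_union_left h25
    obtain ⟨y4, h31, h32, h33⟩ := ad y2 s2 false h27 subset_union_right le_rfl
    have sub : ∀ c0, c0 ≤ c → ∀ x t, t ≤ E1.π c0 → (W x).s t → (E1.V c0 x).s t :=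
      fun c0 h x t ht h1 => ((E1.le_iff _ _).1 h).2 x t ht ((h8 x t).2 h1)
    have v1 := valid_uni E1.hΓ h5 (E1.valid c0) fun x t ht => sub c0 h13 x t (ht.trans (h28.trans h20))
    have v2 := valid_uni E1.hΓ v1 (E1.valid c1) (y := y4) fun x t ht h => RO.reg fun w hw => by
      obtain ⟨w1, h34, h35 | h35⟩ := h w hw
      · exact ⟨w1, h34, sub c1 h17 x w1 (h34.trans (hw.trans (ht.trans (h31.trans h24)))) h35⟩
      · obtain ⟨w2, h36, h37⟩ := of_bl h35.2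
        exact absurd ⟨rfl, by simp⟩ ((h30.mono h37).indep
          (h33.mono (h36.trans (h34.trans (hw.trans ht)))))
    have h34 := h25.trans (h21.trans h16)
    refine ⟨E0.π y2, h34.trans (h14.trans (p2.mono _ _ h13)), a, _, v2,
      fun x t h => RO.or_inl (RO.or_inl h), fun d h35 h36 h37 => ?_⟩
    have side : ∀ c0 y', c0 ≤ c → y' ≤ E1.π c0 → E0.π y' = E0.π y2 →
        (∀ x t, t ≤ y' → t ≤ E1.π d → (E1.V c0 x).s t → (E1.V d x).s t) →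
        ∃ d', d' ≤ d ∧ d' ≤ c0 := fun c0 y' h1 h2 h3 h5 => by
      obtain ⟨w, h6, h7⟩ := p0.lift y' _ (h3 ▸ h35)
      have h8 : w ≤ E1.π d := (E0.le_iff _ _).2 ⟨h7, fun x t ht h =>
        ((E0.le_iff _ _).1 (h6.trans (h2.trans (p1.mono _ _ h1)))).2 x t ht ((h4 x t (ht.trans
          (p0.mono _ _ (h6.trans (h2.trans (p1.mono _ _ h1)))))).2 ((h36 x t (ht.trans h7)).1 h))⟩
      obtain ⟨d', h9, h10⟩ := p1.lift d w h8
      exact ⟨d', h9, (E1.le_iff _ _).2 ⟨h10.trans (h6.trans h2), fun x t ht h =>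
        ((E1.le_iff _ _).1 h9).2 x t ht (h5 x t (ht.trans (h10.trans h6))
          (ht.trans (h10.trans h8)) h)⟩⟩
    obtain ⟨d0, h38, h39⟩ := side c0 y3 h13 (h28.trans h20) h29 fun x t h1 h2 h3 =>
      h37 x t h2 (RO.or_inl (RO.or_inr ⟨h3, bl_of_le h1⟩))
    obtain ⟨d1, h40, h41⟩ := side c1 y4 h17 (h31.trans h24) h32 fun x t h1 h2 h3 =>
      h37 x t h2 (RO.or_inr ⟨h3, bl_of_le h1⟩)
    refine ⟨⟨d0, h38, bm _ _ _ h39 h15⟩, d1, h40, fun d2 h42 h43 => ?_⟩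
    obtain ⟨d3, h44, h45⟩ := bc a a' d2 (h42.trans (h41.trans (h17.trans h7))) h43
      (bm _ _ _ (h42.trans h41) h19)
    exact h11 _ ((p2.mono _ _ (h44.trans (h42.trans h40))).trans (h35.trans (h34.trans h12))) h45
  have step2 : ∀ s (W : {W // Valid Γ Set.Countable W ∧ ∀ x t, (E1.V r x).s t → (W x).s t}),
      ∃ W' : {W // Valid Γ Set.Countable W ∧ ∀ x t, (E1.V r x).s t → (W x).s t},
        (∀ x t, (W.1 x).s t → (W'.1 x).s t) ∧ ∀ y, y ≤ y0 → Dec E0 y s →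
          ∃ z, z ≤ E0.π y ∧ ∃ a, Bad E0 E1 b s z a W'.1 := by
    rintro s ⟨W, h5, h6⟩
    let ι := {x : P0 × J × (A → RO P1) // Valid Γ Set.Countable x.2.2 ∧
      (∀ a t, (W a).s t → (x.2.2 a).s t) ∧ Bad E0 E1 b s x.1 x.2.1 x.2.2}
    obtain ⟨F, f1, f2, f3⟩ := exists_first fun i : ι => bl i.1.1
    have f4 : ∀ i j r, (p0.up (F i)).s r → (p0.up (F j)).s r → i = j := fun i j r => f2 i j _
    refine ⟨⟨fun x => (W x).or (mixW (fun i => p0.up (F i)) (fun i => i.1.2.2) x),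
      Valid.of_loc E1.hΓ fun p => ?_, fun x t h => RO.or_inl (h6 x t h)⟩,
      fun x t h => RO.or_inl h, fun y h7 h8 => ?_⟩
    · by_cases h : ∃ w, w ≤ p ∧ ∃ i, (p0.up (F i)).s w
      · obtain ⟨w, h7, i, h8⟩ := h
        refine ⟨w, h7, _, i.2.1, fun x t ht h => RO.reg fun w1 h9 => ?_⟩
        obtain ⟨w2, h10, h11⟩ := h w1 h9
        exact ⟨w2, h10, h11.elim (i.2.2.1 x w2)
          (mixW_iff f4 (RO.mono h8 (h10.trans (h9.trans ht))) x).1⟩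
      · refine ⟨p, le_rfl, W, h5, fun x t ht h7 => RO.reg fun w1 h9 => ?_⟩
        obtain ⟨w2, h10, h11⟩ := h7 w1 h9
        refine ⟨w2, h10, h11.resolve_right fun h12 => ?_⟩
        obtain ⟨w3, h13, i, h14, -⟩ := h12 w2 le_rfl
        exact h ⟨w3, h13.trans (h10.trans (h9.trans ht)), i, h14⟩
    · obtain ⟨z, h9, a, W', h10⟩ := step1 y s h7 h8 W h5 h6
      obtain ⟨z1, h11, j, h12⟩ := f3 ⟨(z, a, W'), h10⟩ z (bl_of_le le_rfl)
      obtain ⟨z2, h13, h14⟩ := of_bl (f1 _ _ h12)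
      exact ⟨z2, h13.trans (h11.trans h9), _, j.2.2.2.mono h14 fun x t ht h =>
        RO.or_inr ((mixW_iff f4 (i := j) (r := t) ((F j).mono' _ _ (ht.trans h13) h12) x).2 h)⟩
  choose G g1 g2 using step2
  have : Countable {s : Set (ULift.{u} ℕ × Bool) // s.Finite} :=
    Set.Countable.ofPred_finite.to_subtype
  obtain ⟨e, he⟩ := @exists_surjective_nat {s : Set (ULift.{u} ℕ × Bool) // s.Finite}
    ⟨⟨∅, finite_empty⟩⟩ _
  let W : ℕ → {W // Valid Γ Set.Countable W ∧ ∀ x t, (E1.V r x).s t → (W x).s t} := fun n =>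
    Nat.rec ⟨_, E1.valid r, fun _ _ h => h⟩ (fun n W => G (e n) W) n
  have v := Valid.chain E1.hΓ (fun n => (W n).2.1) (cst True) fun n a t _ => g1 _ _ a t
  obtain ⟨a0, -⟩ := hc r le_rfl ∅ countable_empty
  obtain ⟨z1, h3, S, h4, h5⟩ := covC (fun n a z => (∃ y, y ≤ y0 ∧ Dec E0 y (e n) ∧ z ≤ E0.π y ∧
      Bad E0 E1 b (e n) z a fun x => (cst True).and (RO.ex fun n => (W n).1 x)) ∨
      ∀ y, y ≤ y0 → Dec E0 y (e n) → ¬ E0.π y ≤ z)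
    (fun n a z z' h h3 => h3.imp (fun ⟨y, h4, h5, h6, h7⟩ => ⟨y, h4, h5, h.trans h6,
      h7.mono h fun _ _ _ h => h⟩) fun h4 y h5 h6 h7 => h4 y h5 h6 (h7.trans h)) (E0.π y0)
    fun n z _ => by
      by_cases h : ∃ y, y ≤ y0 ∧ Dec E0 y (e n) ∧ E0.π y ≤ z
      · obtain ⟨y, h3, h4, h5⟩ := h
        obtain ⟨z', h6, a, h7⟩ := g2 (e n) (W n) y h3 h4
        exact ⟨z', h6.trans h5, a, Or.inl ⟨y, h3, h4, h6, h7.mono le_rfl fun x t _ h =>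
          ⟨trivial, RO.ex_intro (n + 1) h⟩⟩⟩
      · exact ⟨z, le_rfl, a0, Or.inr fun y h3 h4 h5 => h ⟨y, h3, h4, h5⟩⟩
  obtain ⟨y1, h6, h7⟩ := p0.lift y0 z1 h3
  obtain ⟨c1, h8, rfl, h9⟩ := mk2 y1 h6 _ v fun x t h => ⟨trivial, RO.ex_intro 0 h⟩
  obtain ⟨t, c2, h10, h11, h12⟩ := hc c1 h8 ((fun a => ⟨fun a' => R a' a,
    fun _ _ _ => hR.tree _ _ _ _⟩) '' S) (h4.image _)
  obtain ⟨y3, h13, -, s, h14, h15⟩ := dec_dense E0 (le_refl (E0.π (E1.π c2)))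
  obtain ⟨n, hn⟩ := he ⟨s, h14⟩
  obtain rfl : (e n).1 = s := congrArg Subtype.val hn
  have h16 := h13.trans (p1.mono _ _ h10)
  obtain ⟨z4, h17, a, h18, h19⟩ := h5 n _ ((p0.mono _ _ h16).trans h7)
  obtain ⟨z5, h20, h21⟩ := RO.decide (R a t) z4
  obtain ⟨y4, h22, h23, h24⟩ := dec_cut E0 (h20.trans h17) fun a t ht =>
    h15 a t (ht.trans (h20.trans h17))
  obtain ⟨y, -, -, -, h25⟩ := h19.resolve_right fun h => h y4 (h22.trans (h16.trans h6)) h24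
    (h23 ▸ h20)
  obtain ⟨c3, rfl, h26⟩ := E1.mk' y4 _ (E1.valid c2)
  have h27 : c3 ≤ c2 := (E1.le_iff _ _).2 ⟨h22.trans h13, fun x t _ h => (h26 x t).2 h⟩
  obtain ⟨⟨c4, h28, h29⟩, c5, h30, h31⟩ := h25 c3 (h23 ▸ h20) h24 fun x t ht h =>
    ((E1.le_iff _ _).1 (h27.trans h10)).2 x t ht ((h9 x t).2 h)
  rcases h21 with h21 | h21
  · exact h31 c5 le_rfl (bd a t c5 (bm _ _ _ (h30.trans h27) h11)
      (RO.mono h21 (h23 ▸ p2.mono _ _ h30)))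
  · obtain ⟨c6, h32, h33⟩ := bc a t c4 (h28.trans (h27.trans (h10.trans h8))) h29
      (bm _ _ _ (h28.trans h27) h11)
    exact h33.elim (h21 _ (h23 ▸ p2.mono _ _ (h32.trans h28)))
      (h12 c6 (h32.trans (h28.trans h27)) _ ⟨a, h18, rfl⟩)

end Approx

variable {R : J → J → RO P0} (E0 : Ext1 P0 P1 ΓC Set.Finite)
  (E1 : Ext1 P1 P2 (ΓL R E0.π) Set.Countable)

def pre (ξ η : W1.{u}) (c : P2) : Prop :=
  ∃ a b, E1.has c (ξ, .inl a) ∧ E1.has c (η, .inl b) ∧ (R a b).s (E0.π (E1.π c))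

theorem pre_mono (a b : W1.{u}) (p q : P2) (h : q ≤ p) : pre E0 E1 a b p → pre E0 E1 a b q :=
  fun ⟨x, y, h1, h2, h3⟩ => ⟨x, y, h1.mono h, h2.mono h,
    RO.mono h3 ((E0.proj.comp E1.proj).mono _ _ h)⟩

variable {E0 E1} in
theorem has_fn {c : P2} {ξ : W1.{u}} {a b : J} (h1 : E1.has c (ξ, .inl a))
    (h2 : E1.has c (ξ, .inl b)) : a = b := by
  by_contra h
  exact h1.indep h2 (Or.inl ⟨a, b, rfl, rfl, rfl, h⟩)

theorem pre_tree (hR : TreeN R) (a b c : W1.{u}) (r : P2) (h1 : pre E0 E1 a c r)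
    (h2 : pre E0 E1 b c r) : ∃ t, t ≤ r ∧ (pre E0 E1 a b t ∨ pre E0 E1 b a t) := by
  obtain ⟨x, y, h3, h4, h5⟩ := h1
  obtain ⟨x', y', h6, h7, h8⟩ := h2
  obtain rfl := has_fn h4 h7
  obtain ⟨z, h9, h10⟩ := hR.tree _ _ _ _ h5 h8
  obtain ⟨t, h11, h12⟩ := (E0.proj.comp E1.proj).lift r z h9
  exact ⟨t, h11, h10.imp (fun h => ⟨x, x', h3.mono h11, h6.mono h11, RO.mono h h12⟩)
    fun h => ⟨x', x, h6.mono h11, h3.mono h11, RO.mono h h12⟩⟩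

theorem noChain [CovC P0] [CovC P1] (hR : TreeN R) : NoChain (pre E0 E1) := by
  intro c hc p h
  have p2 := E0.proj.comp E1.proj
  obtain ⟨r, h1, B, h2, h3⟩ := approx E0 E1 hR (b := fun a t => ∃ ξ a', c ξ t ∧
      E1.has t (ξ, .inl a') ∧ (R a a').s (E0.π (E1.π t)))
    (fun a p q hq ⟨ξ, a', h1, h2, h3⟩ => ⟨ξ, a', hc _ _ _ hq h1, h2.mono hq,
      RO.mono h3 (p2.mono _ _ hq)⟩)
    (fun a t c ⟨ξ, a', h1, h2, h3⟩ h4 => ⟨ξ, a', h1, h2, hR.tr _ _ _ _ h4 h3⟩) p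
    fun a a' t ht ⟨ξ, b, h1, h2, h3⟩ ⟨η, b', h4, h5, h6⟩ => by
      obtain ⟨w, h7, h8⟩ := h ξ η t ht h1 h4
      obtain ⟨d, h9, h10⟩ : ∃ d, (R a d).s (E0.π (E1.π w)) ∧ (R a' d).s (E0.π (E1.π w)) := by
        rcases h8 with ⟨x, y, h8, h9, h10⟩ | ⟨x, y, h8, h9, h10⟩
        · obtain rfl := has_fn h8 (h2.mono h7)
          obtain rfl := has_fn h9 (h5.mono h7)
          exact ⟨_, hR.tr _ _ _ _ (RO.mono h3 (p2.mono _ _ h7)) h10, RO.mono h6 (p2.mono _ _ h7)⟩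
        · obtain rfl := has_fn h8 (h5.mono h7)
          obtain rfl := has_fn h9 (h2.mono h7)
          exact ⟨_, RO.mono h3 (p2.mono _ _ h7), hR.tr _ _ _ _ (RO.mono h6 (p2.mono _ _ h7)) h10⟩
      obtain ⟨z, h11, h12⟩ := hR.tree _ _ _ _ h9 h10
      obtain ⟨w', h13, h14⟩ := p2.lift w z h11
      exact ⟨w', h13.trans h7, h12.imp (fun h => RO.mono h h14) fun h => RO.mono h h14⟩
  obtain ⟨z, h4, S, h5, h6⟩ := (E1.valid r).cov (E1.π r)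
  obtain ⟨η, h7⟩ := exists_gt_W1 (h5.image Prod.fst)
  obtain ⟨q, h8, -, h9, -⟩ := Ext1.add (E := E1) (fun _ _ => Countable.union)
    (h2.image fun β => (η, Sum.inr β)) h4 (by
      rintro _ ⟨β, -, rfl⟩ _ ⟨β', -, rfl⟩ _ _ (⟨_, _, h, _⟩ | ⟨_, _, h, _⟩) <;> cases h) (by
      rintro _ ⟨β, -, rfl⟩ x t ht hx
      refine ⟨?_, ?_⟩
      · rintro (⟨_, _, h, _⟩ | ⟨_, _, h, _⟩) <;> cases h
      · rintro (⟨_, _, _, h, _⟩ | ⟨_, _, _, _, h, _⟩)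
        · cases h
        · exact lt_asymm h (h7 _ ⟨x, h6 x t ht hx, rfl⟩))
  refine ⟨q, h8.trans h1, Iic η, countable_Iic η, fun ξ t h10 h11 => mem_Iic.2 (not_lt.1 fun h12 => ?_)⟩
  obtain ⟨w, h13, h14⟩ := h ξ ξ t (h10.trans (h8.trans h1)) h11 h11
  obtain ⟨a, b, h15, h16, h17⟩ := h14.elim id id
  obtain ⟨w', h18, β, h19, h20⟩ := h3 a w (h13.trans (h10.trans h8))
    ⟨ξ, b, hc _ _ _ h13 h11, h16, h17⟩
  exact (h15.mono h18).indep ((h9 _ ⟨β, h19, rfl⟩).mono (h18.trans (h13.trans h10)))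
    (Or.inr ⟨a, β, rfl, rfl, h12, h20⟩)

theorem u_dense {z : P0} (d : Dat R z) (c : P2) (hc : E0.π (E1.π c) ≤ z) (t : J) :
    ∃ c', c' ≤ c ∧ ∃ ξ a, E1.has c' (ξ, .inl a) ∧ (R t a).s (E0.π (E1.π c')) := by
  obtain ⟨y, h1, S, h2, h3⟩ := (E1.valid c).cov (E1.π c)
  obtain ⟨ξ, h4⟩ := exists_notMem_W1 (h2.image Prod.fst)
  obtain ⟨e, he⟩ := (((h2.image Prod.snd).preimage Sum.inr_injective).insert
    (⟨fun _ => RO.bot, fun _ _ _ h => h.elim⟩ : Ch R)).exists_eq_range (insert_nonempty _ _)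
  have h5 := (E0.proj.mono _ _ h1).trans hc
  obtain ⟨w, h6, a, h7, h8⟩ := d.baire (fun n a => RO.all fun b => (R a b).imp ((e n).1 b).not)
    (E0.π y) h5 (fun n a b t _ h h' x w hw h6 => h x w hw (d.tr _ _ _ _ (RO.mono h' hw) h6))
    (fun n a t ht => by
      obtain ⟨w, h6, b, b', h7, h8, h9, h10⟩ := d.split a t (ht.trans h5)
      by_cases h : ∃ w', w' ≤ w ∧ ∃ x, (R b x).s w' ∧ ((e n).1 x).s w'
      · obtain ⟨w', h11, x, h12, h13⟩ := h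
        refine ⟨w', h11.trans h6, b', RO.mono h8 h11, fun x' w1 h14 h15 w2 h16 h17 => ?_⟩
        have h18 := h16.trans h14
        obtain ⟨w3, h19, h20⟩ := (e n).2 x x' w2 (RO.mono h13 h18) h17
        obtain ⟨v, h21, h22⟩ : ∃ v, (R b v).s w3 ∧ (R b' v).s w3 := h20.elim
          (fun h => ⟨x', d.tr _ _ _ _ (RO.mono h12 (h19.trans h18)) h, RO.mono h15 (h19.trans h16)⟩)
          fun h => ⟨x, RO.mono h12 (h19.trans h18), d.tr _ _ _ _ (RO.mono h15 (h19.trans h16)) h⟩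
        obtain ⟨w4, h23, h24⟩ := d.tree _ _ _ _ h21 h22
        have h25 := h23.trans (h19.trans (h18.trans h11))
        exact h24.elim (h9 w4 h25) (h10 w4 h25)
      · exact ⟨w, h6, b, h7, fun x w1 h11 h12 w2 h13 h14 =>
          h ⟨w2, h13.trans h11, x, RO.mono h12 h13, h14⟩⟩) t
  obtain ⟨y', h9, h10⟩ := E0.proj.lift y w h6
  obtain ⟨q, h11, h12, h13, -⟩ := Ext1.add (E := E1) (fun _ _ => Countable.union)
    (countable_singleton (ξ, Sum.inl a)) (h9.trans h1) (by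
      rintro _ rfl _ rfl _ _ (⟨_, _, h, h', _, h1⟩ | ⟨_, _, _, h, _⟩)
      · cases h; cases h'; exact h1 rfl
      · cases h) (by
      rintro _ rfl x r hr hx
      have h11 := h3 x r (hr.trans h9) hx
      refine ⟨?_, ?_⟩
      · rintro (⟨_, _, _, _, h, _⟩ | ⟨_, β, h, h', _, h12⟩)
        · exact h4 ⟨x, h11, h.symm⟩
        · cases h
          obtain ⟨n, rfl⟩ : β ∈ range e := he ▸ Or.inr ⟨x, h11, h'⟩
          have h13 := (E0.proj.mono _ _ hr).trans h10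
          exact h8 n a _ h13 (RO.mono (d.all a) (h13.trans (h6.trans h5))) _ le_rfl h12
      · rintro (⟨_, _, _, _, h, _⟩ | ⟨_, β, _, h, _⟩)
        · exact h4 ⟨x, h11, h⟩
        · cases h)
  exact ⟨q, h11, ξ, a, h13 _ rfl, RO.mono h7 (h12 ▸ h10)⟩

theorem kill (E2 : Ext1 P2 P3 (ΓS (pre E0 E1)) Set.Finite) {p : P3}
    (d : Dat R (E0.π (E1.π (E2.π p))))
    (hB : BaireN (fun a b => ((E0.proj.comp E1.proj).comp E2.proj).up (R a b)) p) : False := by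
  have p3 := (E0.proj.comp E1.proj).comp E2.proj
  obtain ⟨a0⟩ := d.ne
  have hm : ∀ n ξ a t p q, q ≤ p → E2.has p (ξ, n) ∧ E1.has (E2.π p) (ξ, .inl a) ∧
      (R t a).s (E0.π (E1.π (E2.π p))) → E2.has q (ξ, n) ∧ E1.has (E2.π q) (ξ, .inl a) ∧
      (R t a).s (E0.π (E1.π (E2.π q))) := fun n ξ a t p q hq h =>
    ⟨h.1.mono hq, h.2.1.mono (E2.proj.mono _ _ hq), RO.mono h.2.2 (p3.mono _ _ hq)⟩
  obtain ⟨w, h1, t, -, h2⟩ := hB (fun n t => (RO.dense fun r => ∃ ξ a, E2.has r (ξ, n) ∧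
      E1.has (E2.π r) (ξ, .inl a) ∧ (R t a).s (E0.π (E1.π (E2.π r)))).not) p le_rfl
    (fun n a b t _ h1 h2 w hw h3 => h1 w hw fun r hr => by
      obtain ⟨r', h4, ξ, x, h5, h6, h7⟩ := h3 r hr
      exact ⟨r', h4, ξ, x, h5, h6, d.tr _ _ _ _ (RO.mono h2 (p3.mono _ _
        (h4.trans (hr.trans hw)))) h7⟩)
    (fun n t r hr => by
      by_cases h : ∃ r', r' ≤ r ∧ ∃ ξ a, E2.has r' (ξ, n) ∧ E1.has (E2.π r') (ξ, .inl a) ∧
        (R t a).s (E0.π (E1.π (E2.π r')))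
      · obtain ⟨r1, h1, ξ, a, h2⟩ := h
        obtain ⟨z, h3, b, c, h4, h5, h6, -⟩ := d.split a _ (p3.mono _ _ (h1.trans hr))
        obtain ⟨r2, h7, h8⟩ := p3.lift r1 z h3
        refine ⟨r2, h7.trans h1, b, d.tr _ _ _ _ (hm _ _ _ _ _ _ h7 h2).2.2 (RO.mono h4 h8),
          fun w hw h9 => ?_⟩
        obtain ⟨w', h10, η, a', h11, h12, h13⟩ := h9 w le_rfl
        obtain ⟨h14, h15, -⟩ := hm _ _ _ _ _ _ (h10.trans (hw.trans h7)) h2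
        have h16 := (p3.mono _ _ (h10.trans hw)).trans h8
        obtain rfl : ξ = η := by
          by_contra h17
          exact h14.indep h11 ⟨rfl, h17, a, a', h15, h12, d.tr _ _ _ _ (RO.mono h4 h16) h13⟩
        obtain rfl := has_fn h15 h12
        exact h6 _ h16 (d.tr _ _ _ _ h13 (RO.mono h5 h16))
      · refine ⟨r, le_rfl, t, (R t t).mono' _ _ (p3.mono _ _ hr) (d.all t), fun w hw h1 => ?_⟩
        obtain ⟨w', h2, h3⟩ := h1 w le_rfl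
        exact h ⟨w', h2.trans hw, h3⟩) a0
  obtain ⟨c, h3, ξ, a, h4, h5⟩ := u_dense E0 E1 d (E2.π w) (p3.mono _ _ h1) t
  obtain ⟨y, h6, S, h7, h8⟩ := (E2.valid w).cov c
  obtain ⟨n, h9⟩ := (h7.image Prod.snd).exists_notMem
  obtain ⟨q, h10, h11, h12, -⟩ := Ext1.add (E := E2) (fun _ _ => Finite.union)
    (finite_singleton (ξ, n)) (h6.trans h3) (by rintro _ rfl _ rfl _ _ h; exact h.2.1 rfl) (by
      rintro _ rfl x r hr hx
      exact ⟨fun h => h9 ⟨x, h8 x r hr hx, h.1.symm⟩, fun h => h9 ⟨x, h8 x r hr hx, h.1⟩⟩)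
  exact h2 n q h10 fun r hr => ⟨r, le_rfl, ξ, a, hm _ _ _ _ _ _ hr ⟨h12 _ rfl,
    h4.mono (h11 ▸ h6), RO.mono h5 ((E0.proj.comp E1.proj).mono _ _ (h11 ▸ h6))⟩⟩

end Pool.Agent.Lib.MP_0fa4a2_gt
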