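import Pool.Agent.Lib.MP_0fa4a2_gt.Fuse
import Pool.Agent.Lib.MP_0fa4a2_gt.Kill

/-! The iteration after which no small splitting tree has the Baire property. -/

namespace Pool.Agent.Lib.MP_0fa4a2_gt

open Pool.Agent.Lib.MP_2739cb_lc Pool.Agent.Lib.MP_783f50_lc Cardinal Set

universe u

theorem mk_RO_le (P : Type u) [Preorder P] : #(RO P) ≤ 2 ^ #P := by
  rw [← mk_set]
  refine mk_le_of_injective (f := fun a : RO P => {p | a.s p}) ?_
  rintro ⟨a, _, _⟩ ⟨b, _, _⟩ h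
  obtain rfl : a = b := h
  rfl

open Classical in
noncomputable def emb (C A : Type u) [Nonempty C] : A → C :=
  if h : Nonempty (A ↪ C) then h.some else fun _ => Classical.arbitrary C

theorem emb_inj {C A : Type u} [Nonempty C] (h : #A ≤ #C) : Function.Injective (emb C A) := by
  rw [emb, dif_pos ((Cardinal.le_def _ _).1 h)]
  exact Function.Embedding.injective _

namespace Setup

variable {Λ C : Type u} [LinearOrder Λ] [WellFoundedLT Λ] (σ : Setup Λ C)

theorem rs_rs {L L1 L2 : Set Λ} (h : L2 ⊆ L1) (p : σ.Pos L) : rs L2 (rs L1 p) = rs L2 p :=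
  Subtype.ext (σ.ext fun _ _ _ => Cd.mem_res.trans ((and_congr_left' Cd.mem_res).trans
    (Iff.trans ⟨fun h => ⟨h.1.1, h.2⟩, fun h1 => ⟨⟨h1.1, h h1.2⟩, h1.2⟩⟩ Cd.mem_res.symm)))

theorem rs_surj {L : Set Λ} (hL : IsLowerSet L) (z : σ.Pos L) :
    ∃ p : σ.Pos univ, rs L p ≤ z ∧ z ≤ rs L p :=
  ⟨⟨z.1, S_mono z.2 (subset_univ _)⟩, res_le hL Subset.rfl _, le_res hL _ _⟩

theorem Γ_eq {β : Λ} {B : Type u} {e : B → C} (he : Function.Injective e) (hB : #B < σ.k)
    {Γ : B → B → σ.Pos (Iio β) → Prop} (hm : ∀ a b p q, q ≤ p → Γ a b p → Γ a b q)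
    (hc : σ.fin β → CC Γ) (h : σ.Γ0 β = push e Γ) : σ.Γ β = push e Γ := by
  have : σ.Ok β (push e Γ) := ⟨fun a b p q hq h x y h1 h2 => hm _ _ _ _ hq (h x y h1 h2),
    fun h => (hc h).push he, lt_of_le_of_lt ((mk_le_mk_of_subset (t := range e) fun a h =>
      (range_of_not_push h.choose_spec).imp fun _ => Eq.symm).trans mk_range_le) hB⟩
  funext a b r
  simp [Setup.Γ, Gd, h, this]

noncomputable def ext2 {β : Λ} {L : Set Λ} (hL : L = Iic β) {Γ : C → C → σ.Pos (Iio β) → Prop}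
    (h : σ.Γ β = Γ) : Ext1 (σ.Pos (Iio β)) (σ.Pos L) Γ (σ.Id β) where
  π := rs (Iio β)
  V p := V p β
  le_iff := by subst hL; exact (σ.ext1 β).le_iff
  valid := by subst hL h; exact (σ.ext1 β).valid
  mk' := by subst hL h; exact (σ.ext1 β).mk'
  hΓ := by subst h; exact (σ.ext1 β).hΓ

end Setup

section Concrete

variable {C : Type u} [LinearOrder C] [Nonempty C] (c : Cd (C ×ₗ Fin 3) C) (X : Set (C × C × C))

def JX : Type u := {a : C // ∃ r, (a, a, r) ∈ X}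

def RX (S : C → Prop) (o : PO C) (a b : JX X) : RO (PosOf S o) :=
  RO.dense fun r => ∃ r0, (a.1, b.1, r0) ∈ X ∧ o.le r.1 r0

def lf {S : C → Prop} {o : PO C} (a : RO (PosOf S o)) (r : C) : Prop := ∃ h : S r, a.s ⟨r, h⟩

abbrev st (i : C) (j : Fin 3) : C ×ₗ Fin 3 := toLex (i, j)

def StF (i : C) (S : C → Prop) (o : PO C) : Fin 3 → C → C → C → Prop
  | 0 => push (emb C _) ΓC
  | 1 => push (emb C (W1.{u} × (JX X ⊕ Ch (RX X S o)))) fun x y r =>
      (∃ a b, x.2 = .inl a ∧ y.2 = .inl b ∧ x.1 = y.1 ∧ a ≠ b) ∨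
      ∃ a b, x.2 = .inl a ∧ y.2 = .inr b ∧ y.1 < x.1 ∧ lf (b.1 a) (c.res (Iio (st i 0)) r)
  | 2 => push (emb C (W1.{u} × ℕ)) fun x y r => x.2 = y.2 ∧ x.1 ≠ y.1 ∧ ∃ a b,
      c.mem r (st i 1) (emb C (W1.{u} × (JX X ⊕ Ch (RX X S o))) (x.1, .inl a))
        (c.res (Iio (st i 1)) r) ∧
      c.mem r (st i 1) (emb C (W1.{u} × (JX X ⊕ Ch (RX X S o))) (y.1, .inl b))
        (c.res (Iio (st i 1)) r) ∧
      lf (RX X S o a b) (c.res (Iio (st i 0)) (c.res (Iio (st i 1)) r))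

noncomputable def setup (bk : C → Set (C × C × C)) : Setup (C ×ₗ Fin 3) C where
  toCd := c
  fin β := (ofLex β).2 ≠ 1
  lo β := st (ofLex β).1 0
  lo_le _ := Prod.Lex.le_iff.2 (Or.inr ⟨rfl, Fin.zero_le _⟩)
  St β S o _ _ := StF c (bk (ofLex β).1) (ofLex β).1 S o (ofLex β).2

omit [Nonempty C] in
theorem st_succ (i : C) {j j' : Fin 3} (h : j'.1 = j.1 + 1) : Iio (st i j') = Iic (st i j) := by
  ext ⟨a, k⟩
  change toLex (a, k) < toLex (i, j') ↔ toLex (a, k) ≤ toLex (i, j)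
  rw [Prod.Lex.toLex_lt_toLex, Prod.Lex.toLex_le_toLex]
  refine or_congr_right (and_congr_right' ?_)
  simp only [Fin.lt_def, Fin.le_def]
  omega

variable [WellFoundedLT C] {c} {bk : C → Set (C × C × C)}

open Setup in
theorem no_dat (hC : c.k ≤ #C) (hb : ∀ X : Set (C × C × C), #X < c.k → ∀ i0, ∃ i, i0 < i ∧ bk i = X) {J : Type u}
    (hJ : #J < c.k) {R : J → J → RO ((setup c bk).Pos univ)} {q : (setup c bk).Pos univ}
    (d : Dat R q) : False := by
  let σ := setup c bk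
  choose S s1 s2 s3 using fun x : J × J => smallPre (σ := σ)
    (fun r => (R x.1 x.2).s r ∨ (R x.1 x.2).not.s r) ⊤ fun q _ => RO.decide _ q
  have he := emb_inj (hJ.le.trans hC)
  have h1 : #(J × J) < c.k := by simpa using mul_lt_of_lt c.reg.1 hJ hJ
  let X := ⋃ x : J × J, (fun r : σ.Pos univ => (emb C J x.1, emb C J x.2, r.1)) ''
    {r ∈ S x | (R x.1 x.2).s r}
  have hX : #X < c.k := (card_iUnion_lt_iff_forall_of_isRegular c.reg h1).2 fun x =>
    mk_image_le.trans_lt ((mk_le_mk_of_subset (sep_subset _ _)).trans_lt (s1 x))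
  obtain ⟨β, hβ⟩ := c.bdd (S := ⋃ x, ⋃ r ∈ S x, c.supp r.1)
    ((card_iUnion_lt_iff_forall_of_isRegular c.reg h1).2 fun x =>
      (card_biUnion_lt_iff_forall_of_isRegular c.reg (s1 x)).2 fun r _ =>
        c.ctbl_lt (S_iff.1 r.2).2.1)
  obtain ⟨i, hi, hbk⟩ := hb X hX (ofLex β).1
  have h2 : ∀ x, ∀ r ∈ S x, c.supp r.1 ⊆ Iio (st i 0) := fun x r hr γ hγ =>
    (hβ γ (mem_iUnion.2 ⟨x, mem_biUnion hr hγ⟩)).trans (Prod.Lex.lt_iff.2 (Or.inl hi))
  have h3 : ∀ a b r, (R a b).s r → ∃ t, t ≤ r ∧ ∃ w ∈ S (a, b), (R a b).s w ∧ t ≤ w :=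
    fun a b r h => by
      obtain ⟨w, h3, t, h4, h5⟩ := s3 (a, b) r le_top
      exact ⟨t, h4, w, h3, (s2 _ w h3).1.resolve_right fun h6 => h6 t h5 (RO.mono h h4), h5⟩
  have h4 : ∀ x : JX (bk i), ∃ a, emb C J a = x.1 := fun x => by
    obtain ⟨r, hr⟩ := x.2
    obtain ⟨y, w, -, h⟩ := mem_iUnion.1 (hbk.subset hr)
    exact ⟨y.1, congrArg Prod.fst h⟩
  choose φ hφ using h4
  have h5 : Function.Surjective φ := fun a => by
    obtain ⟨-, -, w, h5, h6, -⟩ := h3 a a q (d.all a)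
    exact ⟨⟨_, w.1, hbk.superset (mem_iUnion.2 ⟨(a, a), w, ⟨h5, h6⟩, rfl⟩)⟩, he (hφ _)⟩
  let R0 := RX (bk i) (σ.S (Iio (st i 0))) (σ.O (Iio (st i 0)))
  have l0 := isLowerSet_Iio (st i 0)
  have p0 := proj (σ := σ) isLowerSet_univ l0 (subset_univ _)
  have h6 : ∀ x y r, (R0 x y).s (rs _ r) ↔ (R (φ x) (φ y)).s r := fun x y r => by
    constructor
    · refine fun h => RO.reg fun t ht => ?_
      obtain ⟨z, h6, r0, h7, h8⟩ := h _ (p0.mono _ _ ht)
      obtain ⟨⟨a, b⟩, w, h9, h10⟩ := mem_iUnion.1 (hbk.subset h7)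
      obtain rfl : φ x = a := he ((hφ x).trans (congrArg Prod.fst h10).symm)
      obtain rfl : φ y = b := he ((hφ y).trans (congrArg (·.2.1) h10).symm)
      obtain rfl : w.1 = r0 := congrArg (·.2.2) h10
      obtain ⟨t', h11, h12⟩ := p0.lift t z h6
      exact ⟨t', h11, RO.mono h9.2 (le_of_supp isLowerSet_univ l0 (h2 _ w h9.1)
        (le_tr ((rs_le l0).1 h12) h8))⟩
    · intro h z hz
      obtain ⟨t, h6, h7⟩ := p0.lift r z hz
      obtain ⟨t', h8, w, h9, h10, h11⟩ := h3 _ _ t (RO.mono h h6)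
      refine ⟨rs _ t', (p0.mono _ _ h8).trans h7, w.1, hbk.superset (mem_iUnion.2
        ⟨(φ x, φ y), w, ⟨h9, h10⟩, by simp [hφ]⟩),
        le_tr (res_le l0 Subset.rfl _) (le_mono (subset_univ _) h11)⟩
  have d0 : Dat R0 (rs _ q) := d.proj p0 (σ.rs_surj l0) h5 h6
  have hJ' : #(JX (bk i)) < c.k := (mk_le_of_injective (f := φ) fun x y h =>
    Subtype.ext (by rw [← hφ, h, hφ])).trans_lt hJ
  have b0 : #(ULift.{u} ℕ × Bool) < c.k := mk_le_aleph0.trans_lt (aleph0_lt_aleph_one.trans c.unc)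
  have w1 : #W1.{u} < c.k := by simpa using c.unc
  have b1 : #(W1.{u} × (JX (bk i) ⊕ Ch R0)) < c.k := by
    have : #(Ch R0) < c.k := by
      refine (mk_subtype_le _).trans_lt ?_
      rw [mk_pi, prod_const']
      refine (power_le_power_right (mk_RO_le _)).trans_lt ?_
      rw [← power_mul]
      exact c.sl _ (mul_lt_of_lt c.reg.1 (small_Iio (σ := σ) _) hJ')
    simpa using mul_lt_of_lt c.reg.1 w1 (add_lt_of_lt c.reg.1 hJ' this)
  have b2 : #(W1.{u} × ℕ) < c.k := by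
    simpa using mul_lt_of_lt c.reg.1 w1 (aleph0_lt_aleph_one.trans c.unc)
  have := Setup.covC (σ := σ) l0
  have := Setup.covC (σ := σ) (isLowerSet_Iio (st i 1))
  have := Setup.covC (σ := σ) (isLowerSet_Iio (st i 2))
  have e0 := emb_inj (b0.le.trans hC)
  have e1 := emb_inj (b1.le.trans hC)
  have e2 := emb_inj (b2.le.trans hC)
  let E0 : Ext1 _ _ ΓC Set.Finite := (σ.ext2 (st_succ i (j := 0) (j' := 1) rfl)
    (σ.Γ_eq e0 b0 (fun _ _ _ _ _ h => h) (fun _ => CC.of_countable) rfl)).comap e0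
    (fun S h => (h.2 (by simp [σ, setup])).preimage e0.injOn)
    fun S h => ⟨(h.image _).countable, fun _ => h.image _⟩
  let E1 : Ext1 _ _ (ΓL R0 E0.π) Set.Countable := (σ.ext2 (st_succ i (j := 1) (j' := 2) rfl)
    (σ.Γ_eq e1 b1 (fun _ _ _ _ hq h => h.imp id fun ⟨a, b, h1, h2, h3, h4⟩ =>
      ⟨a, b, h1, h2, h3, RO.mono h4 (E0.proj.mono _ _ hq)⟩) (fun h => absurd rfl h) (by
        funext x y r
        refine propext (forall₄_congr fun a b _ _ => or_congr_right (exists₂_congr fun _ _ =>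
          and_congr_right' (and_congr_right' (and_congr_right' ?_))))
        exact ⟨fun h => h.2, fun h => ⟨_, h⟩⟩))).comap e1
    (fun S h => h.1.preimage e1) fun S h => ⟨h.image _, fun h => absurd rfl h⟩
  let E2 : Ext1 _ _ (ΓS (pre E0 E1)) Set.Finite := (σ.ext2 (β := st i 2) rfl
    (σ.Γ_eq e2 b2 (fun _ _ _ _ hq h => ⟨h.1, h.2.1, pre_mono _ _ _ _ _ _ hq h.2.2⟩)
      (fun _ => spec_cc (pre_mono E0 E1) (pre_tree E0 E1 d0.toTreeN) (noChain E0 E1 d0.toTreeN)) (by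
        funext x y r
        refine propext (forall₄_congr fun a b _ _ => and_congr_right' (and_congr_right'
          (exists₂_congr fun _ _ => and_congr_right' (and_congr_right' ?_))))
        exact ⟨fun h => h.2, fun h => ⟨_, h⟩⟩))).comap e2
    (fun S h => (h.2 (by simp [σ, setup])).preimage e2.injOn)
    fun S h => ⟨(h.image _).countable, fun _ => h.image _⟩
  have h7 : ∀ r : σ.Pos univ, E0.π (E1.π (E2.π (rs (Iic (st i 2)) r))) = rs _ r := fun r => by
    change rs _ (rs _ (rs _ (rs _ r))) = _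
    rw [rs_rs _ Iio_subset_Iic_self, rs_rs, rs_rs] <;>
    exact Iio_subset_Iio (Prod.Lex.le_iff.2 (Or.inr ⟨rfl, by simp⟩))
  refine kill E0 E1 E2 (p := rs _ q) (h7 q ▸ d0) (d.proj (proj isLowerSet_univ (isLowerSet_Iic _)
    (subset_univ _)) (σ.rs_surj (isLowerSet_Iic _)) h5 fun a b r => ?_).baire
  exact (congrArg (R0 a b).s (h7 r)).to_iff.trans (h6 a b r)

end Concrete

/-- The properties of the first forcing. -/
structure First (k : Cardinal.{u}) (Q : Type u) [Preorder Q] : Prop where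
  reg : k.IsRegular
  unc : ℵ₁ < k
  card : #Q ≤ k
  cov : CovC Q
  pre : SmallPre k Q
  kill : ∀ {J : Type u}, #J < k → ∀ {R : J → J → RO Q} {q : Q}, ¬ Dat R q

theorem exists_first_forcing {k : Cardinal.{u}} (hk : k.IsInaccessible) :
    ∃ (Q : Type u) (_ : Preorder Q) (_ : OrderTop Q), First k Q := by
  let C := k.ord.ToType
  have hC : #C = k := by simp [C]
  have h0 := hk.1.le
  have hu : ℵ₁ < k := aleph_one_le_continuum.trans_lt (hk.3 hk.1)
  have : Nonempty C := by rw [← mk_ne_zero_iff, hC]; exact (aleph0_pos.trans hk.1).ne'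
  have hΛ : #(C ×ₗ Fin 3) = k := by
    change #(C × Fin 3) = k
    simpa [hC] using mul_eq_left h0 ((natCast_lt_aleph0 (n := 3)).le.trans h0) (by simp)
  have hs : ∀ A : Type u, #A = k → #{X : Set A // #X < k} = k := fun A hA => by
    have := mk_subset_mk_lt_cof (α := A) (hA ▸ hk.3)
    rwa [hA, hk.isRegular.cof_ord] at this
  have hio : ∀ i : C, #(Iic i) < k := fun i => by
    rw [← Iio_insert]
    exact mk_insert_le.trans_lt (add_lt_of_lt h0 (by simpa [hC] using mk_Iio_lt i (by simp [C]))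
      (one_lt_aleph0.trans hk.1))
  obtain ⟨cd⟩ := Cardinal.eq.1 (hC.trans (hs ((C ×ₗ Fin 3) × C × C)
    (by simp [hΛ, hC, mul_eq_self h0])).symm)
  let c : Cd (C ×ₗ Fin 3) C := ⟨k, cd, hk.isRegular, hu, fun _ h => hk.3 h, fun β => by
    refine (mk_le_of_injective (f := fun x : Iio β => ((⟨(ofLex x.1).1, ?_⟩, (ofLex x.1).2) :
      Iic (ofLex β).1 × Fin 3)) fun x y h => ?_).trans_lt ?_
    · exact (Prod.Lex.lt_iff.1 x.2).elim le_of_lt fun h => h.1.le
    · exact Subtype.ext (ofLex.injective (Prod.ext (congrArg (·.1.1) h) (congrArg (·.2) h)))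
    · simpa using mul_lt_of_lt h0 (hio _) ((natCast_lt_aleph0 (n := 3)).trans_le h0), hΛ.ge⟩
  obtain ⟨g⟩ : Nonempty (C ≃ {X : Set (C × C × C) // #X < k} × C) := Cardinal.eq.1 (by
    simp [hs (C × C × C) (by simp [hC, mul_eq_self h0]), hC, mul_eq_self h0])
  refine ⟨(setup c fun i => (g i).1.1).Pos univ, inferInstance, inferInstance, hk.isRegular, hu,
    (mk_subtype_le _).trans hC.le, Setup.covC isLowerSet_univ, Setup.smallPre,
    fun hJ _ _ => no_dat hC.ge (fun X hX i0 => ?_) hJ⟩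
  by_contra hc
  refine absurd (mk_le_of_injective (f := fun j : C => (⟨g.symm (⟨X, hX⟩, j), mem_Iic.2 (not_lt.1
    fun h => hc ⟨_, h, by simp⟩)⟩ : Iic i0)) fun a b h => ?_) (not_le.2 ((hio i0).trans_eq hC.symm))
  simpa using Subtype.mk.inj h

end Pool.Agent.Lib.MP_0fa4a2_gt
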