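import Pool.Agent.Lib.MP_783f50_lc.Defs

/-! The topological notions of the problem, read inside a structure `(M, E)`. -/

namespace Pool.Agent.Lib.MP_0fa4a2_gt

open Pool.Agent.Lib.MP_2739cb_lc

universe v

variable {M : Type v} (E : M → M → Prop)

/-- `τ` is a topology on `X`: a set of subsets of `X` which contains `X` and is closed under
arbitrary unions and under intersections of two members. -/
def IsTop (X τ : M) : Prop :=
  (∀ U, E U τ → Sub E U X) ∧ E X τ ∧
    (∀ F W, Sub E F τ → (∀ z, E z W ↔ ∃ U, E U F ∧ E z U) → E W τ) ∧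
    ∀ U V W, E U τ → E V τ → (∀ z, E z W ↔ E z U ∧ E z V) → E W τ

/-- `F` is a closed subset of `X`. -/
def IsClosedIn (X τ F : M) : Prop := Sub E F X ∧ ∃ U, E U τ ∧ ∀ z, E z U ↔ E z X ∧ ¬ E z F

/-- The `T₁` separation axiom. -/
def IsT1 (X τ : M) : Prop := ∀ x y, E x X → E y X → x ≠ y → ∃ U, E U τ ∧ E x U ∧ ¬ E y U

/-- Disjoint closed sets have disjoint open neighbourhoods. -/
def IsNormalSp (X τ : M) : Prop :=
  ∀ F G, IsClosedIn E X τ F → IsClosedIn E X τ G → (∀ z, E z F → ¬ E z G) →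
    ∃ U V, E U τ ∧ E V τ ∧ Sub E F U ∧ Sub E G V ∧ ∀ z, E z U → ¬ E z V

/-- `F` is the intersection (in `X`) of a countable family of open sets. -/
def IsGdelta (w X τ F : M) : Prop :=
  ∃ G, Sub E G τ ∧ CardLe E G w ∧ ∀ z, E z F ↔ E z X ∧ ∀ U, E U G → E z U

/-- `T₁`, normal, and every closed set is a `G_δ`. -/
def IsPerfectlyNormal (w X τ : M) : Prop :=
  IsT1 E X τ ∧ IsNormalSp E X τ ∧ ∀ F, IsClosedIn E X τ F → IsGdelta E w X τ F

/-- `B` is a base of the topology `τ`. -/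
def IsTopBase (τ B : M) : Prop :=
  Sub E B τ ∧ ∀ U x, E U τ → E x U → ∃ b, E b B ∧ E x b ∧ Sub E b U

/-- The members of `B` containing a given point are totally ordered by inclusion. -/
def IsRankOne (X B : M) : Prop :=
  ∀ p a b, E p X → E a B → E b B → E p a → E p b → Sub E a b ∨ Sub E b a

/-- Every point lies in only countably many members of `B`. -/
def IsPointCountable (w X B : M) : Prop :=
  ∀ p, E p X → ∃ N, CardLe E N w ∧ ∀ b, E b N ↔ E b B ∧ E p b

/-- `ρ (x, y) = r`. -/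
def Val₂ (ρ x y r : M) : Prop := ∃ p, IsPair E p x y ∧ App E ρ p r

/-- `ρ` maps `X × X` to `w + 1` and `d = 2 ^ (-ρ)` (with `2 ^ (-w) = 0`) is an ultrametric on `X`
inducing `τ`: `d (x, y) = 0` iff `x = y`, `d` is symmetric, `d (x, z) ≤ max (d (x, y), d (y, z))`,
and the open sets are those containing a ball `{y | d (x, y) < 2 ^ (-n)}` around each point. -/
def IsUltrametricFor (w X τ ρ : M) : Prop :=
  (∀ x y, E x X → E y X → ∃! r, Val₂ E ρ x y r) ∧
    (∀ x y r, Val₂ E ρ x y r →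
      E x X ∧ E y X ∧ (E r w ∨ r = w) ∧ (r = w ↔ x = y) ∧ Val₂ E ρ y x r) ∧
    (∀ x y z r s t n, Val₂ E ρ x y r → Val₂ E ρ y z s → Val₂ E ρ x z t → E n r → E n s → E n t) ∧
    ∀ U, E U τ ↔ Sub E U X ∧ ∀ x, E x U → ∃ n, E n w ∧ ∀ y r, Val₂ E ρ x y r → E n r → E y U

end Pool.Agent.Lib.MP_0fa4a2_gt
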