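import Pool.Agent.Lib.MP_0fa4a2_gt.Trees

/-! Metrization inside a model of ZFC with the two principles. -/

namespace Pool.Agent.Lib.MP_0fa4a2_gt

open Pool.Agent.Lib.MP_2739cb_lc Pool.Agent.Lib.MP_783f50_lc

set_option synthInstance.maxSize 100000

universe v

variable {M : Type v} [ZM M] {Small : M → Prop} {τ X T : M}

def GoodAt (T t O : M) : Prop :=
  (∀ n a b, n ∈ om M → a ∈ T → b ∈ T → op n a ∈ O → b ⊆ a → op n b ∈ O) ∧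
    (∀ n a, n ∈ om M → a ∈ T → a ⊆ t → ∃ b, b ∈ T ∧ b ⊆ a ∧ op n b ∈ O) ∧
    ∀ a, a ∈ T → a ⊆ t → (∀ n, n ∈ om M → op n a ∈ O) → ∀ x y, x ∈ a → y ∈ a → x = y

instance DP.good {α : Type v} [Ctx M α] (T : M) (s t : α → M) [DF M s] [DF M t] :
    DP M (no_index fun x => GoodAt T (s x) (t x)) :=
  have : DP M fun z : M × M => GoodAt T z.1 z.2 := by unfold GoodAt; infer_instance
  DP.comp (fun z : M × M => GoodAt T z.1 z.2) fun x => (s x, t x)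

theorem good_dense (hA : Ax Small) (h : Cx τ X T) {s : M} (hs : s ∈ T) :
    ∃ t, t ∈ T ∧ t ⊆ s ∧ ∃ O, O ∈ pw (prd (om M) T) ∧ GoodAt T t O := by
  by_contra hc
  refine no_bad hA (h.res hs) ⟨s, mem_bel.2 ⟨hs, sub_refl s⟩⟩ (fun a ha => ?_)
    fun O h1 h2 a ha => ?_
  · obtain ⟨h1, h2⟩ := mem_bel.1 ha
    obtain ⟨x, y, hx, hy, h3⟩ : ∃ x y, x ∈ a ∧ y ∈ a ∧ x ≠ y := by
      by_contra h3
      push Not at h3
      exact hc ⟨a, h1, h2, _, mem_pw.2 (sub_refl _), fun n _ b hn _ hb _ _ => op_mem_prd.2 ⟨hn, hb⟩,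
        fun n b hn hb _ => ⟨b, hb, sub_refl b, op_mem_prd.2 ⟨hn, hb⟩⟩,
        fun b _ h4 _ x y hx hy => h3 x y (h4 x hx) (h4 y hy)⟩
    obtain ⟨b, h4, h5, h6⟩ := (h.res h1).t1 x y hx hy h3
    obtain ⟨c, h7, h8, h9⟩ := (h.res h1).t1 y x hy hx h3.symm
    rw [mem_bel] at h4 h7
    exact ⟨b, c, mem_bel.2 ⟨h4.1, sub_trans h4.2 h2⟩, mem_bel.2 ⟨h7.1, sub_trans h7.2 h2⟩, h4.2,
      h7.2, fun h10 => h6 (h10 y h8), fun h10 => h9 (h10 x h5)⟩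
  · obtain ⟨O', h3, h4⟩ := exists_rel (om M) T fun n b => b ⊆ s ∧ op n b ∈ O
    by_contra h5
    refine hc ⟨a, (mem_bel.1 ha).1, (mem_bel.1 ha).2, O', mem_pw.2 h3,
      fun n b c hn hb hc h6 h7 => ?_, fun n b hn hb h6 => ?_, fun b hb h6 h7 => absurd
        ⟨b, mem_bel.2 ⟨hb, sub_trans h6 (mem_bel.1 ha).2⟩, h6,
          fun n hn => ((h4 _ _).1 (h7 n hn)).2.2.2⟩ h5⟩
    · have h8 := ((h4 _ _).1 h6).2.2
      exact (h4 _ _).2 ⟨hn, hc, sub_trans h7 h8.1, h1 n b c hn (mem_bel.2 ⟨hb, h8.1⟩)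
        (mem_bel.2 ⟨hc, sub_trans h7 h8.1⟩) h8.2 h7⟩
    · obtain ⟨c, h7, h8, h9⟩ := h2 n b hn (mem_bel.2 ⟨hb, sub_trans h6 (mem_bel.1 ha).2⟩)
      exact ⟨c, (mem_bel.1 h7).1, h8, (h4 _ _).2 ⟨hn, (mem_bel.1 h7).1, (mem_bel.1 h7).2, h9⟩⟩

theorem good_global (hA : Ax Small) (h : Cx τ X T) : ∃ O, GoodAt T X O := by
  obtain ⟨S, hS⟩ := exists_sep T fun t => ∃ O, O ∈ pw (prd (om M) T) ∧ GoodAt T t O
  obtain ⟨g, hg⟩ := choice S (pw (prd (om M) T)) (fun t O => GoodAt T t O)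
    fun t ht => ((hS t).1 ht).2
  obtain ⟨C, c1, c2, c3⟩ := exists_clique S fun a b => ∀ x, x ∈ a → x ∈ b → a = b
  obtain ⟨O, -, hO⟩ := exists_rel (om M) T fun n a => ∃ t, t ∈ C ∧ a ⊆ t ∧ op n a ∈ app g t
  refine ⟨O, fun n a b hn ha hb h1 h2 => ?_, fun n a hn ha _ => ?_, fun a ha _ h1 => ?_⟩
  · obtain ⟨t, h3, h4, h5⟩ := ((hO _ _).1 h1).2.2
    exact (hO _ _).2 ⟨hn, hb, t, h3, sub_trans h2 h4, (hg t (c1 t h3)).2.1 n a b hn ha hb h5 h2⟩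
  · obtain ⟨s, h1, h2, h3⟩ := good_dense hA h ha
    obtain ⟨t, x, h4, h5, h6⟩ : ∃ t x, t ∈ C ∧ x ∈ s ∧ x ∈ t := by
      by_contra hc
      obtain ⟨x, hx⟩ := h.ne s h1
      exact hc ⟨s, x, c3 s ((hS s).2 ⟨h1, h3⟩) (fun _ _ _ => rfl) fun b hb =>
        ⟨fun y h4 h5 => absurd ⟨b, y, hb, h4, h5⟩ hc, fun y h4 h5 => absurd ⟨b, y, hb, h5, h4⟩ hc⟩,
        hx, hx⟩
    obtain ⟨c, h7, -, h8, h9⟩ := h.min h1 ((hS t).1 (c1 t h4)).1 h5 h6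
    obtain ⟨b, h10, h11, h12⟩ := (hg t (c1 t h4)).2.2.1 n c hn h7 h9
    exact ⟨b, h10, sub_trans h11 (sub_trans h8 h2),
      (hO _ _).2 ⟨hn, h10, t, h4, sub_trans h11 h9, h12⟩⟩
  · obtain ⟨t, h2, h3, -⟩ := ((hO _ _).1 (h1 _ empty_mem_om)).2.2
    obtain ⟨x, hx⟩ := h.ne a ha
    refine (hg t (c1 t h2)).2.2.2 a ha h3 fun n hn => ?_
    obtain ⟨s, h4, h5, h6⟩ := ((hO _ _).1 (h1 n hn)).2.2
    exact c2 s t h4 h2 x (h5 x hx) (h3 x hx) ▸ h6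

theorem ctbl_two {I : M} (V : M) (H : M → M) [DF M H] (F : M → M → M)
    [DF M fun z : M × M => F z.1 z.2] (hI : Ctbl I) (h : ∀ i, i ∈ I → Ctbl (H i)) :
    ∃ W : M, Ctbl W ∧ ∀ z, z ∈ W ↔ z ∈ V ∧ ∃ i, i ∈ I ∧ ∃ G, G ∈ H i ∧ z = F i G := by
  have : DF M fun z : (M × M) × M => H z.1.1 := DF.comp H _
  have : DF M fun z : (M × M) × M => H z.1.2 := DF.comp H _
  have : DF M fun z : (M × M) × M => F z.1.1 z.2 :=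
    DF.comp (fun z : M × M => F z.1 z.2) fun z : (M × M) × M => (z.1.1, z.2)
  have : DF M fun z : (M × M) × M => F z.1.2 z.2 :=
    DF.comp (fun z : M × M => F z.1 z.2) fun z : (M × M) × M => (z.1.2, z.2)
  obtain ⟨W, hW⟩ := exists_sep V fun z => ∃ i, i ∈ I ∧ ∃ G, G ∈ H i ∧ z = F i G
  refine ⟨W, hI.cover' (fun i => sep V fun z => ∃ G, G ∈ H i ∧ z = F i G) (fun i hi => ?_)
    fun z hz => ?_, hW⟩
  · have : DF M (F i) := DF.comp (fun z : M × M => F z.1 z.2) fun z : M => (i, z)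
    have : DF M fun z : M × M => F i z.2 := DF.comp (F i) _
    exact (h i hi).img (F i) fun z hz => (mem_sep.1 hz).2
  · obtain ⟨h1, i, h2, h3⟩ := (hW z).1 hz
    have : DF M (F i) := DF.comp (fun z : M × M => F z.1 z.2) fun z : M => (i, z)
    have : DF M fun z : M × M => F i z.2 := DF.comp (F i) _
    exact ⟨i, h2, mem_sep.2 ⟨h1, h3⟩⟩

/-- A countable set of families which locally determine the topology. -/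
def SB (T W : M) : Prop := Ctbl W ∧ W ⊆ pw T ∧ ∀ x t, t ∈ T → x ∈ t →
  ∃ A, A ∈ W ∧ (∃ c, c ∈ A ∧ x ∈ c) ∧ ∀ c, c ∈ A → x ∈ c → c ⊆ t

theorem Cx.gd' (h : Cx τ X T) : ∃ g : M, ∀ A, A ⊆ T → app g A ⊆ τ ∧ Ctbl (app g A) ∧
    ∀ x, x ∈ X → ((∀ a, a ∈ A → x ∉ a) ↔ ∀ G, G ∈ app g A → x ∈ G) := by
  obtain ⟨g, hg⟩ := choice (pw T) (pw τ) (fun A F => Ctbl F ∧
    ∀ x, x ∈ X → ((∀ a, a ∈ A → x ∉ a) ↔ ∀ G, G ∈ F → x ∈ G)) fun A hA =>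
      let ⟨F, h1, h2⟩ := h.gd A (mem_pw.1 hA); ⟨F, mem_pw.2 h1, h2⟩
  exact ⟨g, fun A hA => ⟨mem_pw.1 (hg A (mem_pw.2 hA)).1, (hg A (mem_pw.2 hA)).2⟩⟩

theorem exists_sb (h : Cx τ X T) {O : M} (hO : GoodAt T X O) : ∃ W, SB T W := by
  obtain ⟨g, hg⟩ := h.gd'
  obtain ⟨f, -, hf⟩ := exists_lam (om M) fun n => sep T fun a => op n a ∈ O
  have f1 : ∀ n, n ∈ om M → ∀ a, a ∈ app f n ↔ a ∈ T ∧ op n a ∈ O := fun n hn a => by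
    rw [hf n hn, mem_sep]
  have f2 : ∀ n, n ∈ om M → app f n ⊆ T := fun n hn a ha => ((f1 n hn a).1 ha).1
  obtain ⟨W1, h1, h2⟩ := ctbl_two (pw T) (fun n => app g (app f n))
    (fun _ G => sep T fun t => t ⊆ G) ctbl_om fun n hn => (hg _ (f2 n hn)).2.1
  obtain ⟨W2, h3⟩ := exists_img (om M) fun n => app f n
  obtain ⟨S, hS⟩ := exists_sep T fun a => ∀ x y, x ∈ a → y ∈ a → x = y
  refine ⟨W1 ∪ (W2 ∪ {S}), h1.union ((ctbl_om.img _ fun z hz => (h3 z).1 hz).union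
    (ctbl_single S)), fun A hA => ?_, fun x t ht hx => ?_⟩
  · simp only [mem_union, mem_single, h2, h3] at hA
    rcases hA with hA | ⟨n, hn, rfl⟩ | rfl
    · exact hA.1
    · exact mem_pw.2 (f2 n hn)
    · exact mem_pw.2 fun a ha => ((hS a).1 ha).1
  simp only [mem_union, mem_single, h2, h3]
  by_cases h4 : ∃ n, n ∈ om M ∧ ∀ a, a ∈ app f n → x ∉ a
  · obtain ⟨n, hn, h4⟩ := h4
    obtain ⟨b, h5, h6, h7⟩ := hO.2.1 n t hn ht (h.sub t ht)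
    obtain ⟨z, hz⟩ := h.ne b h5
    have h8 := mt ((hg _ (f2 n hn)).2.2 z (h.sub b h5 z hz)).2
      fun h8 => h8 b ((f1 n hn b).2 ⟨h5, h7⟩) hz
    push Not at h8
    obtain ⟨G, h8, h9⟩ := h8
    have h10 := h.sub t ht x hx
    obtain ⟨c, h11, h12, h13⟩ := h.op G x ((hg _ (f2 n hn)).1 G h8) h10
      (((hg _ (f2 n hn)).2.2 x h10).1 h4 G h8)
    exact ⟨_, Or.inl ⟨mem_pw.2 fun a ha => (mem_sep.1 ha).1, n, hn, G, h8, rfl⟩,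
      ⟨c, mem_sep.2 ⟨h11, h13⟩, h12⟩, fun e he h14 => (h.cmp e t x (mem_sep.1 he).1 ht h14
        hx).resolve_right fun h15 => h9 ((mem_sep.1 he).2 z (h15 z (h6 z hz)))⟩
  push Not at h4
  by_cases h5 : ∃ n, n ∈ om M ∧ ∀ c, c ∈ app f n → x ∈ c → c ⊆ t
  · obtain ⟨n, hn, h5⟩ := h5
    exact ⟨_, Or.inr (Or.inl ⟨n, hn, rfl⟩), h4 n hn, h5⟩
  push Not at h5
  refine ⟨S, Or.inr (Or.inr rfl), ⟨t, (hS t).2 ⟨ht, hO.2.2 t ht (h.sub t ht) fun n hn => ?_⟩, hx⟩,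
    fun c hc h6 y hy => ((hS c).1 hc).2 x y h6 hy ▸ hx⟩
  obtain ⟨c, h6, h7, h8⟩ := h5 n hn
  rw [f1 n hn] at h6
  exact hO.1 n c t hn h6.1 ht h6.2 ((h.cmp c t x h6.1 ht h7 hx).resolve_left h8)

theorem exists_sb' (h : Cx τ X T) {W : M} (hW : SB T W) : ∃ W, SB T W ∧ ∀ A x, A ∈ W → x ∈ X →
    (∀ c, c ∈ A → x ∉ c) → ∃ t, t ∈ T ∧ x ∈ t ∧ ∀ y, y ∈ t → ∀ c, c ∈ A → y ∉ c := by
  obtain ⟨g, hg⟩ := h.gd'
  have w1 : ∀ A, A ∈ W → A ⊆ T := fun A hA => mem_pw.1 (hW.2.1 A hA)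
  obtain ⟨W1, h1, h2⟩ := ctbl_two (pw T) (fun A => app g A)
    (fun A G => sep A fun t => ¬ t ⊆ G) hW.1 fun A hA => (hg _ (w1 A hA)).2.1
  refine ⟨W1, ⟨h1, fun A hA => ((h2 A).1 hA).1, fun x t ht hx => ?_⟩, fun A x hA hx h3 => ?_⟩
  · obtain ⟨A, h3, ⟨c, h4, h5⟩, h6⟩ := hW.2.2 x t ht hx
    have h8 := mt ((hg _ (w1 A h3)).2.2 x (h.sub t ht x hx)).2 fun h8 => h8 c h4 h5
    push Not at h8
    obtain ⟨G, h8, h9⟩ := h8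
    exact ⟨_, (h2 _).2 ⟨mem_pw.2 fun a ha => w1 A h3 a (mem_sep.1 ha).1, A, h3, G, h8, rfl⟩,
      ⟨c, mem_sep.2 ⟨h4, fun h10 => h9 (h10 x h5)⟩, h5⟩, fun e he => h6 e (mem_sep.1 he).1⟩
  · obtain ⟨-, B, h4, G, h5, rfl⟩ := (h2 A).1 hA
    have h6 : x ∈ G := by
      by_contra h6
      exact h6 (((hg _ (w1 B h4)).2.2 x hx).1 (fun c hc h7 =>
        h3 c (mem_sep.2 ⟨hc, fun h8 => h6 (h8 x h7)⟩) h7) G h5)
    obtain ⟨t, h7, h8, h9⟩ := h.op G x ((hg _ (w1 B h4)).1 G h5) hx h6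
    exact ⟨t, h7, h8, fun y hy c hc h10 => (h.cmp t c y h7 (w1 B h4 c (mem_sep.1 hc).1) hy
      h10).elim (fun h11 => h3 c hc (h11 x h8)) fun h11 => (mem_sep.1 hc).2 (sub_trans h11 h9)⟩

def Eqv (A x y : M) : Prop :=
  (∃ c, c ∈ A ∧ x ∈ c ∧ y ∈ c) ∨ ((∀ c, c ∈ A → x ∉ c) ∧ ∀ c, c ∈ A → y ∉ c)

instance DP.eqv {α : Type v} [Ctx M α] (s t u : α → M) [DF M s] [DF M t] [DF M u] :
    DP M (no_index fun x => Eqv (s x) (t x) (u x)) :=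
  have : DP M fun z : (M × M) × M => Eqv z.1.1 z.1.2 z.2 := by unfold Eqv; infer_instance
  DP.comp (fun z : (M × M) × M => Eqv z.1.1 z.1.2 z.2) fun x => ((s x, t x), u x)

theorem Eqv.refl (A x : M) : Eqv A x x := by
  by_cases h : ∃ c, c ∈ A ∧ x ∈ c
  · exact Or.inl (h.imp fun _ h => ⟨h.1, h.2, h.2⟩)
  · exact Or.inr ⟨fun c h1 h2 => h ⟨c, h1, h2⟩, fun c h1 h2 => h ⟨c, h1, h2⟩⟩

theorem Eqv.symm {A x y : M} (h : Eqv A x y) : Eqv A y x :=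
  h.imp (fun ⟨c, h1, h2, h3⟩ => ⟨c, h1, h3, h2⟩) And.symm

theorem Eqv.trans (h : Cx τ X T) {A x y z : M} (hA : A ⊆ T) (h1 : Eqv A x y) (h2 : Eqv A y z) :
    Eqv A x z := by
  rcases h1 with ⟨c, h1, h3, h4⟩ | h1 <;> rcases h2 with ⟨d, h2, h5, h6⟩ | h2
  · exact Or.inl ((h.cmp c d y (hA c h1) (hA d h2) h4 h5).elim (fun h7 => ⟨d, h2, h7 x h3, h6⟩)
      fun h7 => ⟨c, h1, h3, h7 z h6⟩)
  · exact absurd h4 (h2.1 c h1)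
  · exact absurd h5 (h1.2 d h2)
  · exact Or.inr ⟨h1.1, h2.2⟩

theorem exists_metric (hA : Ax Small) (h : Cx τ X T) (hτ : IsTop (EE M) X τ) (hT : T ⊆ τ) :
    ∃ ρ, IsUltrametricFor (EE M) (om M) X τ ρ := by
  obtain ⟨O, hO⟩ := good_global hA h
  obtain ⟨W0, h0⟩ := exists_sb h hO
  obtain ⟨W, ⟨⟨f, h1⟩, h2, h3⟩, h4⟩ := exists_sb' h h0
  let R : M → M → M → Prop := fun n x y => ∀ m, m ∈ suc n → app f m ∈ W → Eqv (app f m) x y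
  have : DP M fun z : (((M × M) × M) × M) × M => R z.2 z.1.1.2 z.1.2 := by
    unfold R; infer_instance
  obtain ⟨ρ, -, hρ⟩ := exists_rel (prd X X) (pw (om M)) fun p r => ∃ x y, p = op x y ∧
    ∀ n, n ∈ r ↔ n ∈ om M ∧ R n x y
  have k0 : ∀ x y r, Val₂ (EE M) ρ x y r ↔ x ∈ X ∧ y ∈ X ∧ ∀ n, n ∈ r ↔ n ∈ om M ∧ R n x y :=
    fun x y r => by
      simp only [Val₂, isPair_iff, exists_eq_left, app_iff, hρ, op_mem_prd, op_inj, mem_pw]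
      exact ⟨fun ⟨h5, _, _, _, ⟨rfl, rfl⟩, h6⟩ => ⟨h5.1, h5.2, h6⟩, fun ⟨h5, h6, h7⟩ =>
        ⟨⟨h5, h6⟩, fun n hn => ((h7 n).1 hn).1, x, y, ⟨rfl, rfl⟩, h7⟩⟩
  have k1 : ∀ x t, t ∈ T → x ∈ t → ∃ n, n ∈ om M ∧ ∀ y, R n x y → y ∈ t := fun x t ht hx => by
    obtain ⟨A, h5, ⟨c, h6, h7⟩, h8⟩ := h3 x t ht hx
    obtain ⟨n, hn, rfl⟩ := h1 A h5
    refine ⟨n, hn, fun y hy => ?_⟩
    obtain ⟨d, h9, h10, h11⟩ := (hy n (self_mem_suc n) h5).resolve_right fun h9 => h9.1 c h6 h7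
    exact h8 d h9 h10 y h11
  have k2 : ∀ x, x ∈ X → ∀ n, n ∈ om M → ∃ t, t ∈ T ∧ x ∈ t ∧ ∀ y, y ∈ t →
      ∀ m, m ∈ n → app f m ∈ W → Eqv (app f m) x y := fun x hx => by
    refine nat_induction _ ?_ fun n _ ih => ?_
    · obtain ⟨t, h5, h6, -⟩ := h.op X x hτ.2.1 hx hx
      exact ⟨t, h5, h6, fun _ _ m hm => absurd hm (not_mem_empty m)⟩
    obtain ⟨t, h5, h6, h7⟩ := ih
    obtain ⟨s, h8, h9, h10⟩ : ∃ s, s ∈ T ∧ x ∈ s ∧ ∀ y, y ∈ s → app f n ∈ W →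
        Eqv (app f n) x y := by
      by_cases h8 : app f n ∈ W
      swap
      · exact ⟨t, h5, h6, fun _ _ h9 => absurd h9 h8⟩
      by_cases h9 : ∃ c, c ∈ app f n ∧ x ∈ c
      · obtain ⟨c, h9, h10⟩ := h9
        exact ⟨c, mem_pw.1 (h2 _ h8) c h9, h10, fun y hy _ => Or.inl ⟨c, h9, h10, hy⟩⟩
      · push Not at h9
        obtain ⟨s, h10, h11, h12⟩ := h4 _ x h8 hx h9
        exact ⟨s, h10, h11, fun y hy _ => Or.inr ⟨h9, h12 y hy⟩⟩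
    obtain ⟨c, h11, h12, h13, h14⟩ := h.min h5 h8 h6 h9
    refine ⟨c, h11, h12, fun y hy m hm => ?_⟩
    rcases mem_suc.1 hm with hm | rfl
    · exact h7 y (h13 y hy) m hm
    · exact h10 y (h14 y hy)
  refine ⟨ρ, fun x y hx hy => ?_, fun x y r h5 => ?_, fun x y z r s t n h5 h6 h7 h8 h9 => ?_,
    fun U => ⟨fun hU => ⟨hτ.1 U hU, fun x hx => ?_⟩, fun ⟨h5, h6⟩ => ?_⟩⟩
  · have : DP M fun n => R n x y := by unfold R; infer_instance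
    exact ⟨sep (om M) fun n => R n x y, (k0 _ _ _).2 ⟨hx, hy, fun n => mem_sep⟩,
      fun r hr => zext fun n => (((k0 _ _ _).1 hr).2.2 n).trans
        (mem_sep (P := fun n => R n x y)).symm⟩
  · obtain ⟨hx, hy, h6⟩ := (k0 _ _ _).1 h5
    have h7 : r ⊆ om M := fun n hn => ((h6 n).1 hn).1
    refine ⟨hx, hy, (Od.sub ⟨fun n hn m hm => (h6 m).2 ⟨od_om.trans (h7 n hn) hm, fun j hj =>
      ((h6 n).1 hn).2 j (mem_suc.2 (Or.inl ?_))⟩, fun a b ha hb => od_om.tri (h7 a ha) (h7 b hb)⟩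
      od_om h7).symm, ⟨fun h8 => ?_, fun h8 => sub_antisymm h7 fun n hn =>
        (h6 n).2 ⟨hn, fun m _ _ => h8 ▸ Eqv.refl _ x⟩⟩, (k0 _ _ _).2 ⟨hy, hx, fun n => (h6 n).trans
        (and_congr_right' ⟨fun h8 m h9 h10 => (h8 m h9 h10).symm,
          fun h8 m h9 h10 => (h8 m h9 h10).symm⟩)⟩⟩
    · rcases mem_suc.1 hj with hj | rfl
      · exact (od_om.mem (h7 n hn)).trans hm hj
      · exact hm
    · by_contra h9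
      obtain ⟨t, h10, h11, h12⟩ := h.t1 x y hx hy h9
      obtain ⟨n, hn, h13⟩ := k1 x t h10 h11
      exact h12 (h13 y ((h6 n).1 (h8 ▸ hn)).2)
  · have h10 := (((k0 _ _ _).1 h5).2.2 n).1 h8
    have h11 := (((k0 _ _ _).1 h6).2.2 n).1 h9
    exact (((k0 _ _ _).1 h7).2.2 n).2 ⟨h10.1, fun m hm h12 =>
      (h10.2 m hm h12).trans h (mem_pw.1 (h2 _ h12)) (h11.2 m hm h12)⟩
  · obtain ⟨t, h5, h6, h7⟩ := h.op U x hU (hτ.1 U hU x hx) hx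
    obtain ⟨n, hn, h8⟩ := k1 x t h5 h6
    exact ⟨n, hn, fun y r h9 h10 => h7 y (h8 y ((((k0 _ _ _).1 h9).2.2 n).1 h10).2)⟩
  · refine hτ.2.2.1 (bel T U) U (fun t ht => hT t (mem_bel.1 ht).1) fun x =>
      ⟨fun hx => ?_, fun ⟨t, h7, h8⟩ => (mem_bel.1 h7).2 x h8⟩
    obtain ⟨n, hn, h7⟩ := h6 x hx
    obtain ⟨t, h8, h9, h10⟩ := k2 x (h5 x hx) _ (suc_mem_om hn)
    have : ∀ y, DP M fun n => R n x y := fun y => by unfold R; infer_instance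
    exact ⟨t, mem_bel.2 ⟨h8, fun y hy => h7 y _ ((k0 _ _ _).2 ⟨h5 x hx, h.sub t h8 y hy,
      fun n => mem_sep⟩) (mem_sep.2 ⟨hn, h10 y hy⟩)⟩, h9⟩

noncomputable def uu (B x C : M) : M := sU (sep B fun b => x ∈ b ∧ b ⊆ C)

theorem mem_uu {B x C z : M} : z ∈ uu B x C ↔ ∃ b, b ∈ B ∧ x ∈ b ∧ b ⊆ C ∧ z ∈ b := by
  simp [uu, and_assoc]

theorem main_internal (hA : Ax Small) (h1 : IsTop (EE M) X τ)
    (h2 : IsPerfectlyNormal (EE M) (om M) X τ) (h3 : ∃ B, IsTopBase (EE M) τ B ∧ IsRankOne (EE M) X B)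
    (h4 : ∃ B, IsTopBase (EE M) τ B ∧ IsPointCountable (EE M) (om M) X B) :
    ∃ ρ, IsUltrametricFor (EE M) (om M) X τ ρ := by
  obtain ⟨B, b1, b2⟩ := h3
  obtain ⟨P, p1, p2⟩ := h4
  have : DF M fun z : (M × M) × M => uu B z.1.2 z.2 := by unfold uu; infer_instance
  obtain ⟨T, hT⟩ := exists_sep τ fun t => ∃ x C, C ∈ P ∧ x ∈ C ∧ t = uu B x C
  have b3 : ∀ p a b, a ∈ B → b ∈ B → p ∈ a → p ∈ b → a ⊆ b ∨ b ⊆ a := fun p a b ha =>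
    fun hb h5 => b2 p a b (h1.1 a (b1.1 a ha) p h5) ha hb h5
  have k1 : ∀ x C z, z ∈ uu B x C → uu B x C ⊆ uu B z C ∧ x ∈ uu B z C := fun x C z hz => by
    obtain ⟨b, h5, h6, h7, h8⟩ := mem_uu.1 hz
    refine ⟨fun y hy => ?_, mem_uu.2 ⟨b, h5, h8, h7, h6⟩⟩
    obtain ⟨c, h9, h10, h11, h12⟩ := mem_uu.1 hy
    exact mem_uu.2 ((b3 x b c h5 h9 h6 h10).elim (fun h13 => ⟨c, h9, h13 z h8, h11, h12⟩)
      fun h13 => ⟨b, h5, h8, h7, h13 y h12⟩)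
  have k2 : ∀ t x, t ∈ T → x ∈ t → ∃ C, C ∈ P ∧ x ∈ C ∧ t = uu B x C := fun t x ht hx => by
    obtain ⟨-, y, C, h5, -, rfl⟩ := (hT t).1 ht
    obtain ⟨b, -, -, h6, h7⟩ := mem_uu.1 hx
    exact ⟨C, h5, h6 x h7, sub_antisymm (k1 y C x hx).1 (k1 x C y (k1 y C x hx).2).1⟩
  have k3 : ∀ x C, C ∈ P → x ∈ C → x ∈ uu B x C := fun x C h5 h6 =>
    let ⟨b, h7, h8, h9⟩ := b1.2 C x (p1.1 C h5) h6; mem_uu.2 ⟨b, h7, h8, h9, h8⟩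
  have k4 : ∀ G x, G ∈ τ → x ∈ G → ∃ t, t ∈ T ∧ x ∈ t ∧ t ⊆ G := fun G x h5 h6 => by
    obtain ⟨C, h7, h8, h9⟩ := p1.2 G x h5 h6
    exact ⟨_, (hT _).2 ⟨h1.2.2.1 _ _ (fun b hb => b1.1 b (mem_sep.1 hb).1) fun z => mem_sU,
      x, C, h7, h8, rfl⟩, k3 x C h7 h8, fun z hz =>
      let ⟨b, _, _, h10, h11⟩ := mem_uu.1 hz; h9 z (h10 z h11)⟩
  have k5 : T ⊆ τ := fun t ht => ((hT t).1 ht).1
  refine exists_metric hA ⟨fun t ht => ?_, fun t ht => h1.1 t (k5 t ht),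
    fun a b x ha hb h5 h6 => ?_, fun x y hx hy h5 => ?_, fun x => ?_,
    fun G x h5 _ => k4 G x h5, fun A h5 => ?_⟩ h1 k5
  · obtain ⟨-, y, C, h5, h6, rfl⟩ := (hT t).1 ht
    exact ⟨y, k3 y C h5 h6⟩
  · obtain ⟨C, -, -, rfl⟩ := k2 a x ha h5
    obtain ⟨D, -, -, rfl⟩ := k2 b x hb h6
    by_contra hc
    simp only [sub_def, not_or, not_forall, mem_uu] at hc
    obtain ⟨⟨y, ⟨c, h7, h8, h9, h10⟩, h11⟩, z, ⟨d, h12, h13, h14, h15⟩, h16⟩ := hc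
    rcases b3 x c d h7 h12 h8 h13 with h17 | h17
    · exact h11 ⟨d, h12, h13, h14, h17 y h10⟩
    · exact h16 ⟨c, h7, h8, h9, h17 z h15⟩
  · obtain ⟨U, h6, h7, h8⟩ := h2.1 x y hx hy h5
    obtain ⟨t, h9, h10, h11⟩ := k4 U x h6 h7
    exact ⟨t, h9, h10, fun h12 => h8 (h11 y h12)⟩
  · by_cases hx : x ∈ X
    · obtain ⟨N, h5, h6⟩ := p2 x hx
      have : DF M fun C => uu B x C := by unfold uu; infer_instance
      exact (ctbl_of_cardLe h5).img (fun C => uu B x C) fun t ht =>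
        let ⟨C, h7, h8, h9⟩ := k2 t x (mem_sep.1 ht).1 (mem_sep.1 ht).2
        ⟨C, (h6 C).2 ⟨h7, h8⟩, h9⟩
    · exact ctbl_om.mono fun t ht =>
        absurd (h1.1 t (k5 t (mem_sep.1 ht).1) x (mem_sep.1 ht).2) hx
  · obtain ⟨F, h6, h7, h8⟩ := h2.2.2 (X \ sU A) ⟨fun z hz => (mem_diff.1 hz).1, sU A,
      h1.2.2.1 A _ (fun a ha => k5 a (h5 a ha)) fun z => mem_sU, fun z => ⟨fun hz =>
        ⟨let ⟨a, h6, h7⟩ := mem_sU.1 hz; h1.1 a (k5 a (h5 a h6)) z h7,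
          fun h6 => (mem_diff.1 h6).2 hz⟩, fun hz => not_not.1 fun h6 => hz.2 (mem_diff.2 ⟨hz.1, h6⟩)⟩⟩
    exact ⟨F, h6, ctbl_of_cardLe h7, fun x hx => ⟨fun h9 => ((h8 x).1 (mem_diff.2 ⟨hx, fun h10 =>
      let ⟨a, h11, h12⟩ := mem_sU.1 h10; h9 a h11 h12⟩)).2, fun h9 a h10 h11 =>
        (mem_diff.1 ((h8 x).2 ⟨hx, h9⟩)).2 (mem_sU.2 ⟨a, h10, h11⟩)⟩⟩

end Pool.Agent.Lib.MP_0fa4a2_gt
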