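import Pool.Agent.Lib.MP_0fa4a2_gt.Large
import Pool.Agent.Lib.MP_0fa4a2_gt.Metric

/-! The two principles hold in the final model. -/

namespace Pool.Agent.Lib.MP_0fa4a2_gt

open Pool.Agent.Lib.MP_2739cb_lc Pool.Agent.Lib.MP_783f50_lc Nm Cardinal Set

set_option synthInstance.maxSize 100000

universe u v

section General

variable {P : Type u} [Preorder P]

def smallR (k : Cardinal.{u}) (Z : Nm P) : RO P := RO.dense fun p => ∃ ι : Type u, #ι < k ∧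
  ∃ C : ι → Nm P, ∀ z r, r ≤ p → FMem z Z r → ∃ t, t ≤ r ∧ ∃ i, FEq z (C i) t

instance (k : Cardinal.{u}) : MP_2739cb_lc.Ext (smallR k : Nm P → RO P) :=
  ⟨fun _ _ _ e h q hq => let ⟨r, hr, ι, h1, C, h2⟩ := h q hq
    ⟨r, hr, ι, h1, C, fun z t ht hz =>
      h2 z t ht (hz.subst_right (e.mono (ht.trans (hr.trans hq))).symm)⟩⟩

theorem small_intro {k : Cardinal.{u}} {Z : Nm P} {p : P} {ι : Type u} (h : #ι < k)
    (C : ι → Nm P) (h1 : ∀ z r, r ≤ p → FMem z Z r → ∃ t, t ≤ r ∧ ∃ i, FEq z (C i) t) :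
    (smallR k Z).s p := fun q hq => ⟨q, le_rfl, ι, h, C, fun z r hr => h1 z r (hr.trans hq)⟩

structure Sp {I : Type u} (V : Nm P) (B : I → Nm P) (p : P) : Prop where
  mem : ∀ i, FMem (B i) V p
  sp : ∀ z r, r ≤ p → FMem z V r → ∃ t, t ≤ r ∧ ∃ i, FEq z (B i) t

theorem exists_sp {I : Type u} {V : Nm P} {C : I → Nm P} {p : P}
    (h0 : (RO.ex fun a => RO.mem a V).s p)
    (h : ∀ z r, r ≤ p → FMem z V r → ∃ t, t ≤ r ∧ ∃ i, FEq z (C i) t) :
    Nonempty I ∧ ∃ B : I → Nm P, Sp V B p := by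
  choose B hB using fun i => max_principle fun z => RO.and (RO.mem z V)
    (RO.imp (RO.mem (C i) V) (RO.eq (C i) z))
  have h1 := fun i => hB i p fun q hq => by
    obtain ⟨r, h1, h2 | h2⟩ := RO.decide (RO.mem (C i) V) q
    · exact ⟨r, h1, _, h2, fun _ _ _ => FEq.refl _ _⟩
    · obtain ⟨t, h3, a, h4⟩ := h0 r (h1.trans hq)
      exact ⟨t, h3.trans h1, a, h4, fun w hw h5 => absurd h5 (h2 w (hw.trans h3))⟩
  obtain ⟨q, hq, a, ha⟩ := h0 p le_rfl
  obtain ⟨-, -, i, -⟩ := h a q hq ha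
  refine ⟨⟨i⟩, B, fun i => (h1 i).1, fun z r hr hz => ?_⟩
  obtain ⟨t, h2, i, h3⟩ := h z r hr hz
  exact ⟨t, h2, i, h3.trans ((h1 i).2 t (h2.trans hr) ((hz.mono h2).subst_left h3))⟩

theorem sub_eq {a b a' b' : Nm P} {p : P} (h : (subR a b).s p) (h1 : FEq a a' p)
    (h2 : FEq b b' p) : (subR a' b').s p := fun z q hq hz =>
  FMem.subst_right (h z q hq (FMem.subst_right hz (h1.mono hq).symm)) (h2.mono hq)

theorem sub_rfl (a : Nm P) (p : P) : (subR a a).s p := fun _ _ _ h => h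

theorem app_eq' {f a b a' b' : Nm P} {p : P} (h : (appR f a b).s p) (h1 : FEq a a' p)
    (h2 : FEq b b' p) : (appR f a' b').s p :=
  Ext.subst (fun b => appR f a' b) h2 (Ext.subst (fun a => appR f a b) h1 h)

def LeB {I : Type u} (B : I → Nm P) (i j : I) : RO P := subR (B j) (B i)

abbrev trR (V : Nm P) : RO P := RO.all fun a => RO.all fun b => RO.all fun c => RO.imp
  (RO.and (RO.mem a V) (RO.and (RO.mem b V) (RO.and (RO.mem c V) (RO.and (subR c a) (subR c b)))))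
  (RO.or (subR a b) (subR b a))

abbrev incR (a b : Nm P) : RO P := RO.and (RO.not (subR b a)) (RO.not (subR a b))

abbrev splitR (V : Nm P) : RO P := RO.all fun a => RO.imp (RO.mem a V) (RO.ex fun b => RO.ex
  fun c => RO.and (RO.mem b V) (RO.and (RO.mem c V) (RO.and (subR b a) (RO.and (subR c a)
    (incR b c)))))

variable {I : Type u} {V : Nm P} {B : I → Nm P} {p : P}

theorem LeB.tr (a b c : I) (r : P) (h1 : (LeB B a b).s r) (h2 : (LeB B b c).s r) :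
    (LeB B a c).s r := fun z q hq hz => h1 z q hq (h2 z q hq hz)

theorem Sp.tree (h : Sp V B p) (h1 : (trR V).s p) (a b c : I) (r : P) (hr : r ≤ p)
    (h2 : (LeB B a c).s r) (h3 : (LeB B b c).s r) :
    ∃ t, t ≤ r ∧ ((LeB B a b).s t ∨ (LeB B b a).s t) :=
  let ⟨t, h4, h5⟩ := h1 _ _ _ r hr ⟨(h.mem a).mono hr, (h.mem b).mono hr, (h.mem c).mono hr, h2, h3⟩
    r le_rfl
  ⟨t, h4, h5.symm⟩

theorem Sp.split (h : Sp V B p) (h1 : (splitR V).s p) (a : I) (r : P) (hr : r ≤ p) :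
    ∃ t, t ≤ r ∧ ∃ b c, (LeB B a b).s t ∧ (LeB B a c).s t ∧ (LeB B b c).not.s t ∧
      (LeB B c b).not.s t := by
  obtain ⟨r1, h2, b, h3⟩ := h1 _ r hr ((h.mem a).mono hr) r le_rfl
  obtain ⟨r2, h4, c, h5, h6, h7, h8, h9⟩ := h3 r1 le_rfl
  have h10 := h4.trans (h2.trans hr)
  obtain ⟨r3, h11, i, h12⟩ := h.sp b r2 h10 h5
  obtain ⟨r4, h13, j, h14⟩ := h.sp c r3 (h11.trans h10) (FMem.mono h6 h11)
  have h15 := h13.trans h11
  exact ⟨r4, h15.trans (h4.trans h2), i, j, sub_eq (RO.mono h7 h15) (h12.mono h13) (FEq.refl _ _),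
    sub_eq (RO.mono h8 h15) h14 (FEq.refl _ _), fun t ht h16 => h9.1 t (ht.trans h15)
      (sub_eq h16 (h14.mono ht).symm (h12.mono (ht.trans h13)).symm), fun t ht h16 =>
      h9.2 t (ht.trans h15) (sub_eq h16 (h12.mono (ht.trans h13)).symm (h14.mono ht).symm)⟩

variable [OrderTop P]

noncomputable abbrev baireR (V : Nm P) : RO P := RO.all fun O => RO.imp (RO.and
  (RO.all fun n => RO.all fun a => RO.all fun b => RO.imp (RO.and (RO.mem n omN) (RO.and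
    (RO.mem a V) (RO.and (RO.mem b V) (RO.and (appR O n a) (subR b a))))) (appR O n b))
  (RO.all fun n => RO.all fun a => RO.imp (RO.and (RO.mem n omN) (RO.mem a V))
    (RO.ex fun b => RO.and (RO.mem b V) (RO.and (subR b a) (appR O n b)))))
  (RO.all fun a => RO.imp (RO.mem a V) (RO.ex fun b => RO.and (RO.mem b V) (RO.and (subR b a)
    (RO.all fun n => RO.imp (RO.mem n omN) (appR O n b)))))

noncomputable abbrev meagerR (D : Nm P) : RO P := RO.ex fun O => RO.and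
  (RO.all fun n => RO.all fun a => RO.all fun b => RO.imp (RO.and (RO.mem n omN) (RO.and
    (appR O n a) (RO.and (subR b a) (RO.mem b D)))) (appR O n b)) (RO.and
  (RO.all fun n => RO.all fun a => RO.imp (RO.and (RO.mem n omN) (RO.mem a D))
    (RO.ex fun b => RO.and (subR b a) (RO.and (RO.mem b D) (appR O n b))))
  (RO.all fun a => RO.imp (RO.mem a D) (RO.not
    (RO.all fun n => RO.imp (RO.mem n omN) (appR O n a)))))

theorem on_omN (n : ℕ) (p : P) : FMem (on n) omN p := on_mem (Ordinal.natCast_lt_omega0 n) p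

theorem Sp.baire (h : Sp V B p) (h1 : (baireR V).s p) : BaireN (LeB B) p := by
  intro O r hr h2 h3 a
  let N := relNm {t : (ULift.{u} ℕ × I) × P // (O t.1.1.down t.1.2).s t.2}
    (fun t => on t.1.1.1.down) (fun t => B t.1.1.2) fun t => t.1.2
  have k1 : ∀ n a t, (O n a).s t → (appR N (on n) (B a)).s t := fun n a t ht =>
    app_relNm (ι := {t : (ULift.{u} ℕ × I) × P // (O t.1.1.down t.1.2).s t.2})
      ⟨((⟨n⟩, a), t), ht⟩ le_rfl
  have k2 : ∀ (n : ℕ) a b t, t ≤ r → (appR N (on n) a).s t → (subR (B b) a).s t → (O n b).s t :=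
    fun n a b t ht h4 h5 => RO.reg fun w hw => by
      obtain ⟨w1, h6, i, h7, h8, h9⟩ := of_app_relNm h4 w hw
      obtain rfl : n = i.1.1.1.down := by exact_mod_cast on_inj h8
      exact ⟨w1, h6, h2 _ _ _ w1 (h6.trans (hw.trans ht)) (RO.mono i.2 h7)
        (sub_eq (RO.mono h5 (h6.trans hw)) (FEq.refl _ _) h9)⟩
  obtain ⟨t, h4, b, h5, h6, h7⟩ := h1 N r hr ⟨fun n a b t ht ⟨h4, _, h5, h6, h7⟩ =>
    RO.reg fun w hw => by
      obtain ⟨w1, h8, m, h9⟩ := mem_omN h4 w hw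
      obtain ⟨w2, h10, j, h11⟩ := h.sp b w1 (h8.trans (hw.trans (ht.trans hr)))
        (FMem.mono h5 (h8.trans hw))
      have h12 := h10.trans (h8.trans hw)
      exact ⟨w2, h10.trans h8, app_eq' (k1 m j w2 (k2 m a j w2 (h12.trans ht)
        (app_eq' (RO.mono h6 h12) (h9.mono h10) (FEq.refl _ _))
        (sub_eq (RO.mono h7 h12) h11 (FEq.refl _ _)))) (h9.mono h10).symm h11.symm⟩,
    fun n a t ht ⟨h4, h5⟩ w hw => by
      obtain ⟨w1, h8, m, h9⟩ := mem_omN h4 w hw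
      obtain ⟨w2, h10, i, h11⟩ := h.sp a w1 (h8.trans (hw.trans (ht.trans hr)))
        (FMem.mono h5 (h8.trans hw))
      have h12 := h10.trans (h8.trans (hw.trans ht))
      obtain ⟨w3, h13, j, h14, h15⟩ := h3 m i w2 h12
      exact ⟨w3, h13.trans (h10.trans h8), B j, (h.mem j).mono (h13.trans (h12.trans hr)),
        sub_eq h14 (FEq.refl _ _) (h11.mono h13).symm,
        app_eq' (k1 m j w3 h15) (h9.mono (h13.trans h10)).symm (FEq.refl _ _)⟩⟩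
    (B a) r le_rfl ((h.mem a).mono hr) r le_rfl
  obtain ⟨w, h8, j, h9⟩ := h.sp b t (h4.trans hr) h5
  exact ⟨w, h8.trans h4, j, sub_eq (RO.mono h6 h8) h9 (FEq.refl _ _), fun n => k2 n b j w
    (h8.trans h4) (h7 _ w h8 (on_omN n w)) (sub_eq (sub_rfl b w) h9 (FEq.refl _ _))⟩

theorem Sp.mea (h : Sp V B p) {D : Nm P} {d : I → RO P} {q : P} (hq : q ≤ p)
    (h0 : (subR D V).s q) (h1 : ∀ i r, r ≤ q → (FMem (B i) D r ↔ (d i).s r))
    (h2 : (meagerR D).s q) : ∃ r, r ≤ q ∧ ∃ O, Mea (LeB B) d O r := by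
  obtain ⟨r, hr, O, h3, h4, h5⟩ := h2 q le_rfl
  refine ⟨r, hr, fun n a => appR O (on n) (B a), fun n a b t ht h6 h7 h8 =>
    h3 _ _ _ t ht ⟨on_omN n t, h6, h7, (h1 b t (ht.trans hr)).2 h8⟩, fun n a t ht h6 => ?_,
    fun a t ht h6 h7 => h5 _ t ht ((h1 a t (ht.trans hr)).2 h6) t le_rfl
      fun n w hw h8 => RO.reg fun w1 h9 => ?_⟩
  · obtain ⟨w, h7, b, h8, h9, h10⟩ := h4 _ _ t ht ⟨on_omN n t, (h1 a t (ht.trans hr)).2 h6⟩ t le_rfl
    have h11 := h7.trans (ht.trans hr)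
    obtain ⟨w1, h12, j, h13⟩ := h.sp b w (h11.trans hq) (h0 b w h11 h9)
    exact ⟨w1, h12.trans h7, j, sub_eq (RO.mono h8 h12) h13 (FEq.refl _ _),
      (h1 j w1 (h12.trans h11)).1 ((FMem.mono h9 h12).subst_left h13),
      app_eq' (RO.mono h10 h12) (FEq.refl _ _) h13⟩
  · obtain ⟨w2, h10, m, h11⟩ := mem_omN h8 w1 h9
    exact ⟨w2, h10, app_eq' (RO.mono (h7 m) (h10.trans (h9.trans hw))) h11.symm (FEq.refl _ _)⟩

theorem small_hat {k : Cardinal.{u}} {S : Set I} (hS : #S < k) (p : P) :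
    (smallR k (hat B S)).s p := small_intro hS (fun i => B i) fun _ _ _ hz =>
  let ⟨t, h1, i, h2, h3⟩ := of_mem_hat hz _ le_rfl; ⟨t, h1, ⟨i, h2⟩, h3⟩

theorem Sp.hat (h : Sp V B p) (S : Set I) : (subR (hat B S) V).s p :=
  fun _ _ hr hz => FMem.reg fun t ht =>
    let ⟨w, h1, i, _, h3⟩ := of_mem_hat hz t ht
    ⟨w, h1, ((h.mem i).mono (h1.trans (ht.trans hr))).subst_left h3.symm⟩

def Sm (k : Cardinal.{u}) (z : MP_2739cb_lc.Mod P) : Prop := T (smallR k (rep z))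

theorem T_small (k : Cardinal.{u}) (Z : Nm P) : T (smallR k Z) ↔ Sm k (cls Z) :=
  ⟨T_subst _ (cls_rep _).symm, T_subst _ (cls_rep _)⟩

variable [CovC P]

theorem T_mem' (a b : Nm P) : T (RO.mem a b) ↔ cls a ∈ cls b := T_mem a b

theorem T_sub (a b : Nm P) : T (subR a b) ↔ cls a ⊆ cls b := by
  simp only [T_all, T_imp, T_mem', cls_rep, sub_def]

theorem T_app' (f a b : Nm P) : T (appR f a b) ↔ op (cls a) (cls b) ∈ cls f :=
  (T_app f a b).trans app_iff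

theorem cls_om : cls (omN : Nm P) = om (MP_2739cb_lc.Mod P) := rfl

theorem T_tr (V : Nm P) : T (trR V) ↔ IsTr (cls V) := by
  simp only [↓T_sub, T_all, T_imp, T_and, T_or, T_mem', cls_rep, and_imp, IsTr]

theorem T_split (V : Nm P) : T (splitR V) ↔ Split (cls V) := by
  simp only [↓T_sub, T_all, T_imp, T_and, T_ex, T_not, T_mem', cls_rep, Split]

theorem T_baire (V : Nm P) : T (baireR V) ↔ Baire (cls V) := by
  simp only [↓T_sub, T_all, T_imp, T_and, T_ex, T_app', T_mem', cls_rep, and_imp, Baire, cls_om]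

theorem T_meager (V : Nm P) : T (meagerR V) ↔ Meager (cls V) := by
  simp only [↓T_sub, T_all, T_imp, T_and, T_ex, T_not, T_app', T_mem', cls_rep, and_imp, Meager,
    cls_om]

end General

variable {k : Cardinal.{u}} {Q K : Type u} [Preorder Q] [LinearOrder K] [hF : Fact (First k Q)]

theorem small_cover {ι : Type u} (hι : #ι < k) {α : Type v} (Φ : ι → α → Two k Q K → Prop)
    (hm : ∀ j a p q, q ≤ p → Φ j a p → Φ j a q) (p : Two k Q K)
    (hd : ∀ j q, q ≤ p → ∃ r, r ≤ q ∧ ∃ a, Φ j a r) : ∃ q, q ≤ p ∧ ∃ ι' : Type u, #ι' < k ∧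
      ∃ F : ι' → α, ∀ j r, r ≤ q → ∃ t, t ≤ r ∧ ∃ i, Φ j (F i) t := by
  obtain ⟨g, h1, S, h2⟩ := star_pre hι (fun j c => ∃ a, Φ j a c)
    (fun _ _ _ h ⟨a, ha⟩ => ⟨a, hm _ _ _ _ h ha⟩) p hd
  choose F hF' using fun i : Σ j, S j => ((h2 i.1).2.1 i.2 i.2.2).1
  refine ⟨⟨p.q, g⟩, Two.mk_le le_rfl h1, _, by
    rw [mk_sigma]; exact sum_lt_of_isRegular hF.out.reg hι fun n => (h2 n).1, F, fun j r hr => ?_⟩
  obtain ⟨d, h3, t, h4, h5⟩ := (h2 j).2.2 r.q hr.1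
  exact ⟨_, Two.cut h4, ⟨j, d, h3⟩, hm _ _ ⟨d, g⟩ _ ⟨h5, fun τ w hw => hr.2 τ w (hw.trans h4)⟩
    (hF' ⟨j, d, h3⟩)⟩

theorem Sp.ground {I : Type u} [Nonempty I] {V Z : Nm (Two k Q K)} {B : I → Nm (Two k Q K)}
    {p0 p : Two k Q K} (h : Sp V B p0) (hp : p ≤ p0) (h1 : (smallR k Z).s p) :
    ∃ q, q ≤ p ∧ ∃ S : Set I, #S < k ∧ ∀ z r, r ≤ q → FMem z Z r → FMem z V r →
      ∃ t, t ≤ r ∧ ∃ i ∈ S, FEq z (B i) t := by
  obtain ⟨p1, h2, ι, h3, C, h4⟩ := h1 p le_rfl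
  obtain ⟨q, h5, ι', h6, F, h7⟩ := small_cover h3
    (fun j i c => (RO.imp (RO.mem (C j) V) (RO.eq (C j) (B i))).s c)
    (fun _ _ _ _ h h' => RO.mono h' h) p1 fun j r hr => by
      obtain ⟨t, h5, h6 | h6⟩ := RO.decide (RO.mem (C j) V) r
      · obtain ⟨w, h7, i, h8⟩ := h.sp _ t (h5.trans (hr.trans (h2.trans hp))) h6
        exact ⟨w, h7.trans h5, i, fun w1 h9 _ => h8.mono h9⟩
      · exact ⟨t, h5, Classical.arbitrary I, fun w hw h7 => absurd h7 (h6 w hw)⟩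
  refine ⟨q, h5.trans h2, range F, mk_range_le.trans_lt h6, fun z r hr h8 h9 => ?_⟩
  obtain ⟨t, h10, j, h11⟩ := h4 z r (hr.trans h5) h8
  obtain ⟨w, h12, i, h13⟩ := h7 j t (h10.trans hr)
  exact ⟨w, h12.trans h10, _, ⟨i, rfl⟩, (h11.mono h12).trans (h13 w le_rfl
    ((h9.mono (h12.trans h10)).subst_left (h11.mono h12)))⟩

def down (g : Fn k Q K) (a : RO (Two k Q K)) : RO Q where
  s r := a.s ⟨r, g⟩
  mono' _ _ hq h := RO.mono h (Two.mk_le hq fun _ _ h => h)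
  reg' _ h := RO.reg fun c hc =>
    let ⟨_, h1, h2⟩ := h c.q hc.1
    ⟨_, Two.cut h1, RO.mono h2 ⟨le_rfl, fun τ w hw => hc.2 τ w (hw.trans h1)⟩⟩

theorem no_small {ι : Type u} (hι : #ι < k) [Nonempty ι] {Le : ι → ι → RO (Two k Q K)}
    {p : Two k Q K} (rf : ∀ a, (Le a a).s p)
    (tr : ∀ a b c r, (Le a b).s r → (Le b c).s r → (Le a c).s r)
    (tree : ∀ a b c r, r ≤ p → (Le a c).s r → (Le b c).s r →
      ∃ t, t ≤ r ∧ ((Le a b).s t ∨ (Le b a).s t))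
    (split : ∀ a r, r ≤ p → ∃ t, t ≤ r ∧ ∃ b c, (Le a b).s t ∧ (Le a c).s t ∧ (Le b c).not.s t ∧
      (Le c b).not.s t) (baire : BaireN Le p) : False := by
  obtain ⟨g, h1, h2⟩ := star (ι := ι × ι) (by simpa using mul_lt_of_lt hF.out.reg.1 hι hι)
    (fun a c => (Le a.1 a.2).s c ∨ (Le a.1 a.2).not.s c)
    (fun _ _ _ h h' => h'.imp (fun h' => RO.mono h' h) fun h' => RO.mono h' h) p
    fun a q _ => RO.decide _ q
  have k0 : ∀ {r}, r ≤ p.q → (⟨r, g⟩ : Two k Q K) ≤ p := fun h => Two.mk_le h h1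
  let R : ι → ι → RO Q := fun a b => (down g (Le a b)).and (bl p.q)
  have k1 : ∀ {a b r} {c : Two k Q K}, r ≤ p.q → c ≤ ⟨r, g⟩ → ((R a b).s c.q ↔ (Le a b).s c) :=
    fun {a b r c} hr hc => ⟨fun h => RO.mono h.1 ⟨le_rfl, hc.2⟩, fun h => ⟨RO.reg fun w hw => by
      obtain ⟨t, h3, h4⟩ := h2 (a, b) w (hw.trans (hc.1.trans hr))
      exact ⟨t, h3, h4.resolve_right fun h5 => h5 ⟨t, c.f⟩ ⟨le_rfl, fun τ v hv =>
        hc.2 τ v (hv.trans (h3.trans hw))⟩ (RO.mono h (Two.cut (h3.trans hw)))⟩,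
      bl_of_le (hc.1.trans hr)⟩⟩
  refine hF.out.kill hι (R := R) (q := p.q) ⟨⟨fun a b c r h3 h4 => ⟨tr _ _ _ _ h3.1 h4.1, h3.2⟩,
    fun a b c r h3 h4 => ?_⟩, inferInstance, fun a => ⟨RO.mono (a := Le a a) (rf a) (k0 le_rfl), bl_of_le le_rfl⟩,
    fun a r hr => ?_, fun O r hr h3 h4 a => ?_⟩
  · obtain ⟨t, h5, h6⟩ := of_bl h3.2
    obtain ⟨w, h7, h8⟩ := tree a b c _ (k0 h6) (RO.mono (a := R a c) h3 h5).1
      (RO.mono (a := R b c) h4 h5).1
    exact ⟨w.q, h7.1.trans h5, h8.imp (k1 h6 h7).2 (k1 h6 h7).2⟩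
  · obtain ⟨t, h3, b, c, h4, h5, h6, h7⟩ := split a _ (k0 hr)
    exact ⟨t.q, h3.1, b, c, (k1 hr h3).2 h4, (k1 hr h3).2 h5,
      fun w hw h8 => h6 _ (Two.cut hw) ((k1 hr ((Two.cut hw).trans h3)).1 h8),
      fun w hw h8 => h7 _ (Two.cut hw) ((k1 hr ((Two.cut hw).trans h3)).1 h8)⟩
  · obtain ⟨w, h5, b, h6, h7⟩ := baire (fun n a => Two.proj.up (O n a)) _ (k0 hr)
      (fun n a b t ht h5 h6 => h3 n a b t.q ht.1 h5 ((k1 hr ht).2 h6)) (fun n a t ht => by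
        obtain ⟨w, h5, b, h6, h7⟩ := h4 n a t.q ht.1
        exact ⟨_, Two.cut h5, b, (k1 hr ((Two.cut h5).trans ht)).1 h6, h7⟩) a
    exact ⟨w.q, h5.1, b, (k1 hr h5).2 h6, h7⟩

variable [OrderTop Q]

theorem ax_un (I R U : MP_2739cb_lc.Mod (Two k Q K)) (h1 : Sm k I)
    (h2 : ∀ i, i ∈ I → ∃ S : MP_2739cb_lc.Mod (Two k Q K), Sm k S ∧ ∀ z, op i z ∈ R → z ∈ S)
    (h3 : ∀ z, z ∈ U → ∃ i, i ∈ I ∧ op i z ∈ R) : Sm k U := by
  have H2 : T (RO.all fun i => RO.imp (RO.mem i (rep I)) (RO.ex fun S => RO.and (smallR k S)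
      (RO.all fun z => RO.imp (appR (rep R) i z) (RO.mem z S)))) := by
    simpa only [T_all, T_imp, T_and, T_ex, T_app', T_mem', T_small, cls_rep] using h2
  have H3 : T (RO.all fun z => RO.imp (RO.mem z (rep U))
      (RO.ex fun i => RO.and (RO.mem i (rep I)) (appR (rep R) i z))) := by
    simpa only [T_all, T_imp, T_and, T_ex, T_app', T_mem', cls_rep] using h3
  refine ((T_and _ _).2 ⟨h1, H2⟩).mono₂ H3 fun p ⟨k1, k2⟩ k3 p1 h4 => ?_
  obtain ⟨p2, h5, ι, h6, C, h7⟩ := k1 p1 h4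
  obtain ⟨q, h8, ι', h9, F, h10⟩ := small_cover h6
    (fun j (a : Σ ι : {ι : Type u // #ι < k}, ι.1 → Nm (Two k Q K)) c => ∀ z r, r ≤ c →
      FMem (C j) (rep I) r → (appR (rep R) (C j) z).s r → ∃ t, t ≤ r ∧ ∃ i, FEq z (a.2 i) t)
    (fun _ _ _ _ h h' z r hr => h' z r (hr.trans h)) p2 fun j r hr => by
      obtain ⟨t, h8, h9 | h9⟩ := RO.decide (RO.mem (C j) (rep I)) r
      · obtain ⟨w, h10, S, h11, h12⟩ := k2 _ t (h8.trans (hr.trans (h5.trans h4))) h9 t le_rfl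
        obtain ⟨w1, h13, ι1, h14, C1, h15⟩ := h11 w le_rfl
        exact ⟨w1, h13.trans (h10.trans h8), ⟨⟨ι1, h14⟩, C1⟩, fun z v hv _ h16 =>
          h15 z v hv (h12 z v (hv.trans h13) h16)⟩
      · exact ⟨t, h8, ⟨⟨ι, h6⟩, C⟩, fun z v hv h10 => absurd h10 (h9 v hv)⟩
  refine ⟨q, h8.trans h5, Σ i, (F i).1.1, by
    rw [mk_sigma]; exact sum_lt_of_isRegular hF.out.reg h9 fun i => (F i).1.2,
    fun i => (F i.1).2 i.2, fun z r hr hz => ?_⟩
  obtain ⟨t, h11, i, h12, h13⟩ := k3 z r (hr.trans (h8.trans (h5.trans h4))) hz r le_rfl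
  obtain ⟨t1, h14, j, h15⟩ := h7 i t (h11.trans (hr.trans h8)) h12
  obtain ⟨t2, h16, i', h17⟩ := h10 j t1 (h14.trans (h11.trans hr))
  obtain ⟨t3, h18, l, h19⟩ := h17 z t2 le_rfl
    ((FMem.mono h12 (h16.trans h14)).subst_left (h15.mono h16))
    (app_eq' (RO.mono h13 (h16.trans h14)) (h15.mono h16) (FEq.refl _ _))
  exact ⟨t3, h18.trans (h16.trans (h14.trans h11)), ⟨i', l⟩, h19⟩

theorem ax_kill (V : MP_2739cb_lc.Mod (Two k Q K)) (h1 : Sm k V) (h2 : IsTr V) (h3 : ∃ a, a ∈ V)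
    (h4 : Split V) (h5 : Baire V) : False := by
  have H : T (RO.and (smallR k (rep V)) (RO.and (trR (rep V)) (RO.and
      (RO.ex fun a => RO.mem a (rep V)) (RO.and (splitR (rep V)) (baireR (rep V)))))) := by
    simp only [↓T_tr, ↓T_split, ↓T_baire, T_and, T_ex, T_mem', cls_rep]
    exact ⟨h1, h2, h3, h4, h5⟩
  obtain ⟨p, k1, k2⟩ := H.nonempty
  obtain ⟨q, hq, ι, k3, C, k4⟩ := k1 p le_rfl
  obtain ⟨k5, k6, k7, k8⟩ := RO.mono k2 hq
  obtain ⟨_, B, h⟩ := exists_sp k6 k4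
  exact no_small k3 (fun a => sub_rfl _ _) LeB.tr (h.tree k5) (h.split k7) (h.baire k8)

theorem ax_refl (hm : ∀ (I : Type u) [Nonempty I], Nonempty (Ms k K I))
    (V In Fb : MP_2739cb_lc.Mod (Two k Q K)) (h1 : IsTr V) (h2 : ∃ a, a ∈ V) (h3 : Baire V)
    (h4 : RHyp (Sm k) V In Fb) : False := by
  obtain ⟨V, rfl⟩ := cls_surj V
  obtain ⟨In, rfl⟩ := cls_surj In
  obtain ⟨Fb, rfl⟩ := cls_surj Fb
  have H : T (RO.and (trR V) (RO.and (RO.ex fun a => RO.mem a V) (RO.and (baireR V) (RO.and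
      (RO.all fun y => RO.all fun d => RO.all fun S => RO.imp (RO.and (RO.mem y V) (RO.and
        (RO.mem d V) (RO.and (smallR k S) (RO.and (subR S V) (appR In y d))))) (RO.ex fun w =>
        RO.and (RO.mem w V) (RO.and (subR w d) (RO.all fun v => RO.imp (RO.mem v S)
          (RO.imp (RO.or (appR Fb v y) (incR y v)) (incR w v)))))) (RO.and
      (RO.all fun d => RO.all fun S => RO.imp (RO.and (RO.mem d V) (RO.and (smallR k S)
        (subR S V))) (RO.ex fun v => RO.and (RO.mem v V) (RO.and (subR v d)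
          (RO.all fun y => RO.imp (RO.mem y S) (appR Fb v y))))) (RO.and
      (RO.all fun v => RO.all fun y => RO.imp (RO.and (RO.mem v V) (RO.and (RO.mem y V)
        (appR In y v))) (RO.not (RO.or (appR Fb v y) (incR y v)))) (RO.and
      (RO.all fun y => RO.imp (RO.mem y V) (appR In y y)) (RO.and
      (RO.all fun y => RO.imp (RO.mem y V) (RO.ex fun S => RO.and (smallR k S)
        (RO.all fun d => RO.imp (RO.and (RO.mem d V) (appR In y d)) (RO.mem d S))))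
      (RO.all fun D => RO.imp (RO.and (subR D V) (RO.and
        (RO.all fun d => RO.imp (RO.mem d D) (RO.ex fun y => RO.and (RO.mem y V) (RO.and
          (appR In y d) (RO.all fun e => RO.imp (RO.and (RO.mem e V) (appR In y e))
            (RO.mem e D)))))
        (RO.all fun d => RO.imp (RO.mem d D) (RO.ex fun v => RO.and (RO.mem v V) (RO.and
          (subR v d) (RO.not (RO.mem v D))))))) (meagerR D)))))))))) := by
    have : MP_2739cb_lc.Ext fun y => appR In y y := ⟨fun _ _ _ e h => app_eq' h e e⟩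
    simp only [↓T_tr, ↓T_baire, ↓T_meager, ↓T_sub, T_and, T_ex, T_all, T_imp, T_or, T_not, T_mem',
      T_app', T_small, cls_rep, and_imp]
    exact ⟨h1, h2, h3, h4.h1, h4.h2, h4.h3, h4.h4, h4.h5, h4.h6⟩
  obtain ⟨p0, k1, k2, k3, k4, k5, k6, k7, k8, k9⟩ := H.nonempty
  obtain ⟨_, B, h⟩ := exists_sp (C := V.A) k2 fun z r _ hz =>
    let ⟨t, h5, i, _, h6⟩ := hz r le_rfl; ⟨t, h5, i, h6⟩
  obtain ⟨m⟩ := hm V.ι
  refine refl (m := m) (Le := LeB B) (In := fun y d => appR In (B y) (B d))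
    (Fb := fun v y => appR Fb (B v) (B y)) (p0 := p0) ⟨fun a => sub_rfl _ _, LeB.tr, h.tree k1,
      fun y d S hS p hp h5 => ?_, fun d S hS p hp => ?_, fun v y r hr h5 h6 => k6 _ _ r hr
        ⟨(h.mem v).mono hr, (h.mem y).mono hr, h5⟩ r le_rfl (h6.elim RO.or_inl RO.or_inr),
      fun y => k7 _ p0 le_rfl (h.mem y), fun y p hp => ?_, h.baire k3⟩ fun A p hp _ h5 => ?_
  · obtain ⟨q, h6, w, h7, h8, h9⟩ := k4 _ _ _ p hp ⟨(h.mem y).mono hp, (h.mem d).mono hp,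
      small_hat hS p, RO.mono (h.hat S) hp, h5⟩ p le_rfl
    obtain ⟨r, h10, j, h11⟩ := h.sp w q (h6.trans hp) h7
    exact ⟨r, h10.trans h6, j, sub_eq (RO.mono h8 h10) h11 (FEq.refl _ _), fun v hv t ht h12 =>
      Ext.subst (fun w => incR w (B v)) (h11.mono ht) (h9 _ t (ht.trans h10) (mem_hat hv t) t le_rfl
        (h12.elim RO.or_inl RO.or_inr))⟩
  · obtain ⟨q, h6, w, h7, h8, h9⟩ := k5 _ _ p hp ⟨(h.mem d).mono hp,
      small_hat hS p, RO.mono (h.hat S) hp⟩ p le_rfl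
    obtain ⟨r, h10, j, h11⟩ := h.sp w q (h6.trans hp) h7
    exact ⟨r, h10.trans h6, j, sub_eq (RO.mono h8 h10) h11 (FEq.refl _ _), fun y hy =>
      app_eq' (h9 _ r h10 (mem_hat hy r)) h11 (FEq.refl _ _)⟩
  · obtain ⟨q, h6, S, h7, h8⟩ := k8 _ p hp ((h.mem y).mono hp) p le_rfl
    obtain ⟨r, h9, S', h10, h11⟩ := h.ground (h6.trans hp) h7
    refine ⟨r, h9.trans h6, S', h10, fun d t ht h12 => ?_⟩
    have h13 := (h.mem d).mono (ht.trans (h9.trans (h6.trans hp)))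
    obtain ⟨w, h14, i, h15, h16⟩ := h11 _ t ht (h8 _ t (ht.trans h9) ⟨h13, h12⟩) h13
    exact ⟨w, h14, i, h15, sub_eq (sub_rfl _ w) h16 (FEq.refl _ _),
      app_eq' (RO.mono h12 h14) (FEq.refl _ _) h16⟩
  · let Φ := fun z => RO.ex fun y => (A y).and (appR In (B y) z)
    have e1 : ∀ z r, FMem z (sepNm Φ V) r ↔ FMem z V r ∧ (Φ z).s r := fmem_sepNm Φ V
    have e2 : (subR (sepNm Φ V) V).s p := fun z r _ hz => ((e1 z r).1 hz).1
    refine h.mea hp e2 (fun i r hr => (e1 _ r).trans (and_iff_right ((h.mem i).mono (hr.trans hp))))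
      (k9 _ p hp ⟨e2, fun d r hr hd t ht => ?_, fun d r hr hd t ht => ?_⟩)
    · obtain ⟨w, h6, y, h7, h8⟩ := ((e1 d r).1 hd).2 t ht
      exact ⟨w, h6, B y, (h.mem y).mono (h6.trans (ht.trans (hr.trans hp))), h8,
        fun e v hv h9 => (e1 e v).2 ⟨h9.1, RO.ex_intro y ⟨RO.mono h7 hv, h9.2⟩⟩⟩
    · obtain ⟨h6, h7⟩ := (e1 d t).1 (FMem.mono hd ht)
      obtain ⟨w, h8, i, h9⟩ := h.sp d t (ht.trans (hr.trans hp)) h6
      obtain ⟨w1, h10, v, h11, h12⟩ := h5 i w (h8.trans (ht.trans hr))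
        (Ext.subst Φ h9 (RO.mono h7 h8))
      exact ⟨w1, h10.trans h8, B v, (h.mem v).mono (h10.trans (h8.trans (ht.trans (hr.trans hp)))),
        sub_eq h11 (FEq.refl _ _) (h9.mono h10).symm,
        fun w2 h13 h14 => h12 w2 h13 ((e1 _ w2).1 h14).2⟩

theorem ax (hm : ∀ (I : Type u) [Nonempty I], Nonempty (Ms k K I)) :
    Ax (Sm k : MP_2739cb_lc.Mod (Two k Q K) → Prop) := by
  refine ⟨fun V => ?_, fun z hz => ?_, (T_small k om1N).1 (T.of_forall fun p =>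
    small_intro (by simpa using hF.out.unc) nw fun z r _ hz => mem_om1N hz r le_rfl), ax_un,
    ax_kill, ax_refl hm⟩
  · obtain ⟨S, hS⟩ := M_sep (smallR k) (pw V)
    exact ⟨S, fun z => (hS z).trans (and_congr_left' (mem_pw (a := V) (z := z)))⟩
  · obtain ⟨s, hs⟩ := cov_seq (rep z)
    refine T.mono ((T_cov _).2 (by rw [cls_rep]; exact ctbl_iff_cov.1 hz)) fun p hp =>
      small_intro (ι := ULift.{u} ℕ) (mk_le_aleph0.trans_lt hF.out.w) (fun n => s n.down)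
        fun y r hr hy => ?_
    obtain ⟨t, h1, n, h2⟩ := hs p hp y r hr hy
    exact ⟨t, h1, ⟨n⟩, h2⟩

end Pool.Agent.Lib.MP_0fa4a2_gt
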