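import Pool.Agent.Lib.MP_0fa4a2_gt.Iter

/-! Fusion, countable covering and small predense sets for the iteration. -/

namespace Pool.Agent.Lib.MP_0fa4a2_gt

open Pool.Agent.Lib.MP_2739cb_lc Pool.Agent.Lib.MP_783f50_lc Cardinal Set

universe u

/-- Dense sets have predense subsets of size less than `k`. -/
def SmallPre (k : Cardinal.{u}) (P : Type u) [Preorder P] : Prop :=
  ∀ (D : P → Prop) (p : P), (∀ q, q ≤ p → ∃ r, r ≤ q ∧ D r) →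
    ∃ S : Set P, #S < k ∧ (∀ d ∈ S, D d ∧ d ≤ p) ∧ ∀ q, q ≤ p → ∃ d ∈ S, ∃ t, t ≤ q ∧ t ≤ d

namespace Setup

variable {Λ C : Type u} [LinearOrder Λ] [WellFoundedLT Λ] {σ : Setup Λ C}

def eqAt (σ : Setup Λ C) (β : Λ) (p q : C) : Prop :=
  ∀ a r, σ.S (Iio β) r → σ.le (Iio β) r p → σ.mem p β a r → σ.mem q β a r

omit [WellFoundedLT Λ] in
theorem lower_sub {L : Set Λ} (hL : IsLowerSet L) {γ : Λ} (h : γ ∈ L) : Iio γ ⊆ L :=
  fun _ hδ => hL hδ.le h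

theorem fusion {L : Set Λ} (hL : IsLowerSet L) (hc : ∀ β ∈ L, CovC (σ.Pos (Iio β)))
    (p : ℕ → σ.Pos L) (h : ∀ n, p (n + 1) ≤ p n)
    (hF : ∀ β, σ.fin β → ∀ n, β ∈ σ.supp (p n).1 →
      ∃ m, ∀ k, m ≤ k → σ.eqAt β (p (k + 1)).1 (p k).1) : ∃ q, ∀ n, q ≤ p n := by
  let c : ∀ β, RO (σ.Pos (Iio β)) := fun β => RO.dense fun r => ∀ n, σ.le (Iio β) r.1 (p n).1
  have ha : Antitone p := antitone_nat_of_succ_le h
  obtain ⟨q, hq⟩ := exists_cond L (fun β a => (c β).and (RO.ex fun n => V (p n) β a))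
    (fun β hβ => by
      by_cases h1 : σ.fin β
      · by_cases h2 : ∃ n, β ∈ σ.supp (p n).1
        · obtain ⟨n, h2⟩ := h2
          obtain ⟨m, h3⟩ := hF β h1 n h2
          refine Valid.of_loc (hΓ β) fun r => ⟨r, le_rfl, _, valid_V (p m) β,
            fun a t _ h4 => RO.reg fun w hw => ?_⟩
          obtain ⟨w1, h5, k, h6⟩ := h4.2 w hw
          obtain ⟨w2, h7, h8⟩ := h4.1 w1 (h5.trans hw)
          refine ⟨w2, h7.trans h5, ?_⟩
          have h9 : σ.mem (p k).1 β a w2.1 := RO.mono h6 h7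
          rcases le_total k m with h10 | h10
          · exact (le_iff hL).1 (ha h10) β hβ a _ w2.2 (h8 m) h9
          · clear h6
            induction h10 with
            | refl => exact h9
            | step h11 ih => exact ih (h3 _ h11 a _ w2.2 (h8 _) h9)
        · refine Valid.of_loc (hΓ β) fun r => ⟨r, le_rfl, _, Valid.bot (id_empty β),
            fun a t _ h4 => ?_⟩
          obtain ⟨w, -, k, h6⟩ := h4.2 t le_rfl
          exact h2 ⟨k, a, _, h6⟩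
      · have := hc β hβ
        refine (Valid.chain (hΓ β) (fun n => (valid_V (p n) β).chI fun _ h => h.1) (c β)
          fun n a r h2 h3 => RO.reg fun w hw => ?_).chI fun S hS => ⟨hS, fun h => absurd h h1⟩
        obtain ⟨t, h4, h5⟩ := h2 w hw
        exact ⟨t, h4, (le_iff hL).1 (h n) β hβ a _ t.2 (h5 _) (RO.mono h3 (h4.trans hw))⟩)
    ((countable_iUnion fun n => (S_iff.1 (p n).2).2.1).mono fun β ⟨_, a, r, h1⟩ => by
      obtain ⟨w, -, k, h6⟩ := h1.2 r le_rfl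
      exact mem_iUnion.2 ⟨k, a, _, h6⟩)
  have key : ∀ γ, γ ∈ L → ∀ n, σ.ord γ q.1 (p n).1 := fun γ => by
    induction γ using WellFoundedLT.induction with
    | ind γ ih =>
      refine fun hγ n a r h1 h2 h3 => (hq γ a r).2 ⟨hγ, h1, fun t ht => ⟨t, le_rfl, fun k => ?_⟩,
        RO.ex_intro n h3⟩
      exact le_tr ht (le_tr h2 ((le_iff (isLowerSet_Iio γ)).2 fun δ hδ =>
        ih δ hδ (lower_sub hL hγ hδ) k))
  exact ⟨q, fun n => (le_iff hL).2 fun γ hγ => key γ hγ n⟩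

def Cov1 (σ : Setup Λ C) (L : Set Λ) : Prop :=
  ∀ F : Set Λ, F.Finite → ∀ (α : Type u) (D : α → σ.Pos L → Prop),
    (∀ a p q, q ≤ p → D a p → D a q) → ∀ p, (∀ q, q ≤ p → ∃ r, r ≤ q ∧ ∃ a, D a r) →
    ∃ q, q ≤ p ∧ (∀ β ∈ F, σ.fin β → σ.eqAt β q.1 p.1) ∧
      ∃ S : Set α, S.Countable ∧ ∀ r, r ≤ q → ∃ t, t ≤ r ∧ ∃ a ∈ S, D a t

theorem cov1_step {L : Set Λ} (hL : IsLowerSet L) (ih : ∀ β ∈ L, σ.Cov1 (Iio β)) : σ.Cov1 L := by
  classical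
  intro F hF α D hm p hd
  rcases {β ∈ F | β ∈ L ∧ σ.fin β}.eq_empty_or_nonempty with h0 | h0
  · obtain ⟨q, hq, a, ha⟩ := hd p le_rfl
    refine ⟨q, hq, fun β h1 h2 b r _ _ h3 => ?_, {a}, countable_singleton a,
      fun r hr => ⟨r, le_rfl, a, rfl, hm _ _ _ hr ha⟩⟩
    exact (eq_empty_iff_forall_notMem.1 h0 β ⟨h1, (S_iff.1 q.2).1 ⟨b, r, h3⟩, h2⟩).elim
  obtain ⟨β, ⟨-, hβ, hf⟩, hmax⟩ := exists_max_image _ id (hF.subset (sep_subset _ _)) h0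
  have hL1 := isLowerSet_Iic β
  have hL0 := isLowerSet_Iio β
  have s1 : Iic β ⊆ L := fun _ h => hL h hβ
  have pr := proj (σ := σ) hL hL1 s1
  let E := (σ.ext1 β).chI (J := Set.Finite) fun S => ⟨fun h => h.2 hf, fun h => ⟨h.countable,
    fun _ => h⟩⟩
  let D1 : σ.Pos L × α → σ.Pos (Iic β) → Prop := fun x z => x.1 ≤ p ∧ D x.2 x.1 ∧ z ≤ rs _ x.1
  obtain ⟨y, hy, hyF, 𝒮, h1, h2⟩ := ih β hβ F hF _ (fun (S : Set (σ.Pos L × α)) y => S.Countable ∧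
      ∀ r, r ≤ rs (Iic β) p → rs (Iio β) r ≤ y → ∃ t, t ≤ r ∧ ∃ x ∈ S, D1 x t)
    (fun S y y' h h1 => ⟨h1.1, fun r h2 h3 => h1.2 r h2 (h3.trans h)⟩) (rs _ p) fun z _ =>
      E.cover ((σ.ok_gd β _).2.1 hf) D1 (fun _ _ _ h h1 => ⟨h1.1, h1.2.1, h.trans h1.2.2⟩) _
        (fun q hq => by
          obtain ⟨r, h1, h2⟩ := pr.lift p q hq
          obtain ⟨t, h3, a, h4⟩ := hd r h1
          exact ⟨_, (pr.mono _ _ h3).trans h2, (t, a), h3.trans h1, h4, le_rfl⟩) z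
  let T := {x ∈ ⋃₀ {S ∈ 𝒮 | S.Countable} | x.1 ≤ p ∧ D x.2 x.1}
  have hT : T.Countable :=
    (Countable.sUnion (h1.mono fun _ h => h.1) fun _ h => h.2).mono (sep_subset _ _)
  obtain ⟨G, g1, g2, g3⟩ := exists_first fun i : T => bl (rs (Iic β) i.1.1)
  have s2 : ∀ γ, γ ∉ Iic β → Iic β ⊆ Iio γ := fun γ h δ hδ => lt_of_le_of_lt hδ (not_le.1 h)
  obtain ⟨u, hu⟩ := exists_cond (L \ Iic β) (fun γ => if h : γ ∈ Iic β then fun _ => RO.bot else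
      mixW (fun i : T => (proj (isLowerSet_Iio γ) hL1 (s2 γ h)).up (G i)) fun i => V i.1.1 γ)
    (fun γ h => by
      rw [dif_neg h.2]
      exact Valid.mix (id_empty γ) (hΓ γ) (fun i j r => g2 i j _) fun i => valid_V _ γ)
    ((hT.biUnion fun x _ => (S_iff.1 x.1.2).2.1).mono fun γ ⟨h, a, r, h3⟩ => by
      rw [dif_neg h.2] at h3
      obtain ⟨t, -, i, -, h4⟩ := h3 r le_rfl
      exact mem_biUnion i.2 ⟨a, _, h4⟩)
  have hu' : ∀ γ ∈ L, γ ∉ Iic β → ∀ (i : T) a (r : σ.Pos (Iio γ)), (G i).s (rs _ r) →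
      σ.mem i.1.1.1 γ a r.1 → σ.mem u.1 γ a r.1 := fun γ h3 h4 i a r h5 h6 =>
    (hu γ a r.1).2 ⟨⟨h3, h4⟩, r.2, by rw [dif_neg h4]; exact RO.ex_intro i ⟨h5, h6⟩⟩
  let z : σ.Pos (Iic β) := ⟨σ.glue (Iio β) y.1 (rs (Iic β) p).1, S_glue _ y.2 (rs _ p).2
    (inter_subset_left.trans Iio_subset_Iic_self) sdiff_subset⟩
  have hz : z ≤ rs (Iic β) p := glue_le_right hL1 hL0 (le_tr ((le_rs hL0).1 hy) (le_res hL0 _ _))
  let q : σ.Pos L := ⟨σ.glue (Iic β) z.1 u.1, S_glue _ z.2 u.2 (inter_subset_left.trans s1)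
    (sdiff_subset.trans sdiff_subset)⟩
  have key : ∀ L2, IsLowerSet L2 → Iic β ⊆ L2 → L2 ⊆ L → ∀ r : σ.Pos L2, σ.le L2 r.1 q.1 →
      ∃ t, t ≤ r ∧ ∃ i : T, (G i).s (rs _ t) ∧ σ.le L2 t.1 i.1.1.1 := by
    intro L2 h3 h4 h5 r hr
    have pr2 := proj (σ := σ) h3 hL1 h4
    have h6 : rs (Iic β) r ≤ z :=
      (rs_le hL1).2 (le_tr (le_mono h4 hr) (glue_le_left hL1 Subset.rfl _ _))
    have pr0 := proj (σ := σ) hL1 hL0 Iio_subset_Iic_self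
    obtain ⟨y1, h7, S, h8, h9, h10⟩ := h2 (rs _ (rs (Iic β) r)) ((rs_le hL0).2
      (le_tr (le_mono Iio_subset_Iic_self h6) (glue_le_left hL0 Subset.rfl _ _)))
    obtain ⟨r1, h11, h12⟩ := pr0.lift _ _ h7
    obtain ⟨r2, h13, x, h14, h15⟩ := h10 r1 (h11.trans (h6.trans hz)) h12
    obtain ⟨r3, h16, i, h17⟩ := g3 ⟨x, ⟨S, ⟨h8, h9⟩, h14⟩, h15.1, h15.2.1⟩ r2 (bl_of_le h15.2.2)
    obtain ⟨r4, h18, h19⟩ := of_bl (g1 _ _ h17)
    obtain ⟨t, h20, h21⟩ := pr2.lift r r4 (h18.trans (h16.trans (h13.trans h11)))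
    refine ⟨t, h20, i, RO.mono h17 (h21.trans h18), (le_iff h3).2 fun δ hδ => ?_⟩
    by_cases h22 : δ ∈ Iic β
    · exact (le_iff hL1).1 (le_tr (le_res hL1 _ _) ((le_rs hL1).1 (h21.trans h19))) δ h22
    · intro a w h23 h24 h25
      refine (le_iff h3).1 (le_tr h20 hr) δ hδ a w h23 h24 ((Cd.mem_glue_out h22 a w).2
        (hu' δ (h5 hδ) h22 i a ⟨w, h23⟩ (RO.mono h17 (le_trans ?_ (h21.trans h18))) h25))
      exact (rs_le hL1).2 (le_tr (le_mono (s2 δ h22) h24) (le_res hL1 _ _))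
  have ord1 : ∀ γ, γ ∈ L → σ.ord γ q.1 p.1 := fun γ hγ => by
    by_cases h3 : γ ∈ Iic β
    · exact (le_iff hL1).1 (le_tr (glue_le_left hL1 Subset.rfl _ _) ((le_rs hL1).1 hz)) γ h3
    · refine fun a r h4 h5 h6 => RO.reg (a := V q γ a) (p := ⟨r, h4⟩) fun w hw => ?_
      obtain ⟨t, h7, x, h8, h9⟩ := key _ (isLowerSet_Iio γ) (s2 γ h3) (lower_sub hL hγ) w
        (le_tr hw h5)
      exact ⟨t, h7, (Cd.mem_glue_out h3 a _).2 (hu' γ hγ h3 x a t h8 ((le_iff hL).1 x.2.2.1 γ hγ a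
        _ t.2 h9 (RO.mono (a := V p γ a) (p := ⟨r, h4⟩) h6 (h7.trans hw))))⟩
  refine ⟨q, (le_iff hL).2 ord1, fun δ h3 h4 a r h5 h6 h7 => ?_, Prod.snd '' T, hT.image _,
    fun r hr => ?_⟩
  · have h8 : δ ≤ β := hmax δ ⟨h3, (S_iff.1 q.2).1 ⟨a, r, h7⟩, h4⟩
    have h9 := (Cd.mem_glue_in (L := Iic β) h8 a r).1 h7
    rcases lt_or_eq_of_le h8 with h10 | rfl
    · refine (Cd.mem_res.1 (hyF δ h3 h4 a r h5 (le_tr h6 (le_tr (glue_le_left
        (isLowerSet_Iio δ) ((Iio_subset_Iio h8).trans Iio_subset_Iic_self) _ _) (glue_le_left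
        (isLowerSet_Iio δ) (Iio_subset_Iio h8) _ _))) ?_)).1
      exact (Cd.mem_glue_in (L := Iio β) h10 a r).1 h9
    · exact (Cd.mem_res.1 ((Cd.mem_glue_out (L := Iio δ) (lt_irrefl δ) a r).1 h9)).1
  · obtain ⟨t, h3, x, -, h5⟩ := key L hL s1 Subset.rfl r hr
    exact ⟨t, h3, x.1.2, ⟨x, x.2, rfl⟩, hm _ _ _ h5 x.2.2.2⟩

theorem cov1 {L : Set Λ} (hL : IsLowerSet L) : σ.Cov1 L := by
  refine cov1_step hL fun β h => ?_
  clear h
  induction β using WellFoundedLT.induction with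
  | ind β ih => exact cov1_step (isLowerSet_Iio β) ih

theorem covC_step {L : Set Λ} (hL : IsLowerSet L) (hc : ∀ β ∈ L, CovC (σ.Pos (Iio β))) :
    CovC (σ.Pos L) := by
  refine ⟨fun {α} D hm p hd => ?_⟩
  have h1 : ∀ q : σ.Pos L, ∃ e : ℕ → Set Λ, (∀ n, (e n).Finite) ∧ Monotone e ∧
      ∀ β ∈ σ.supp q.1, ∃ n, β ∈ e n := fun q => by
    rcases (σ.supp q.1).eq_empty_or_nonempty with h | h
    · exact ⟨fun _ => ∅, fun _ => finite_empty, monotone_const, by simp [h]⟩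
    · obtain ⟨f, hf⟩ := (S_iff.1 q.2).2.1.exists_eq_range h
      refine ⟨fun n => f '' Iic n, fun n => (finite_Iic n).image f,
        fun _ _ h => image_mono (Iic_subset_Iic.2 h), fun β hβ => ?_⟩
      obtain ⟨n, rfl⟩ := hf ▸ hβ
      exact ⟨n, n, le_refl n, rfl⟩
  choose e he1 he2 he3 using h1
  choose f hf1 hf2 S hS1 hS2 using fun n (F : Set Λ) (hF : F.Finite) (q : {q // q ≤ p}) =>
    cov1 (σ := σ) hL F hF α (D n) (hm n) q.1 fun r hr => hd n r (hr.trans q.2)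
  let x : ℕ → {q // q ≤ p} × {G : ℕ → Set Λ // ∀ n, (G n).Finite} := fun n => Nat.rec
    (⟨p, le_rfl⟩, ⟨e p, he1 p⟩) (fun n y => (⟨f n _ (y.2.2 n) y.1, (hf1 _ _ _ _).trans y.1.2⟩,
      ⟨fun j => y.2.1 j ∪ e (f n _ (y.2.2 n) y.1) j, fun j => (y.2.2 j).union (he1 _ j)⟩)) n
  have h2 : ∀ n j, e (x n).1.1 j ⊆ (x n).2.1 j := fun n j => by
    cases n
    · exact Subset.rfl
    · exact subset_union_right
  have h3 : ∀ j, Monotone fun n => (x n).2.1 j := fun j =>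
    monotone_nat_of_le_succ fun n => subset_union_left
  obtain ⟨q, hq⟩ := fusion hL hc (fun n => (x n).1.1) (fun n => hf1 _ _ _ _) fun β h4 n h5 => by
    obtain ⟨j, hj⟩ := he3 _ β h5
    exact ⟨max n j, fun k hk => hf2 k _ ((x k).2.2 k) (x k).1 β (h3 k ((le_max_left _ _).trans hk)
      (h2 n k (he2 _ ((le_max_right _ _).trans hk) hj))) h4⟩
  refine ⟨q, hq 0, ⋃ n, S n _ ((x n).2.2 n) (x n).1, countable_iUnion fun n => hS1 _ _ _ _,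
    fun n r hr => ?_⟩
  obtain ⟨t, ht, a, h4, h5⟩ := hS2 n _ ((x n).2.2 n) (x n).1 r (hr.trans (hq (n + 1)))
  exact ⟨t, ht, a, mem_iUnion.2 ⟨n, h4⟩, h5⟩

theorem covC {L : Set Λ} (hL : IsLowerSet L) : CovC (σ.Pos L) := by
  refine covC_step hL fun β h => ?_
  clear h
  induction β using WellFoundedLT.induction with
  | ind β ih => exact covC_step (isLowerSet_Iio β) ih

theorem smallPre : SmallPre σ.k (σ.Pos univ) := by
  intro D p hd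
  have h0 : ∀ L : Set Λ, #L < σ.k → #{q : σ.Pos univ | σ.supp q.1 ⊆ L} < σ.k := fun L hL =>
    lt_of_le_of_lt (mk_le_of_injective (f := fun q => ⟨q.1.1, S_mono q.1.2 q.2⟩) fun a b h =>
      Subtype.ext (Subtype.ext (Subtype.mk.inj h))) (small_S hL)
  have : Nonempty (σ.Pos univ) := ⟨p⟩
  choose! d hd1 hd2 using hd
  choose b hb using fun (S : Set Λ) (h : #S < σ.k) => σ.bdd h
  have h1 : ∀ (ξ : W1.{u}) (g : ∀ η, η < ξ → Λ), #(σ.supp p.1 ∪ ⋃ η : Iio ξ,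
      ⋃ q ∈ {q : σ.Pos univ | σ.supp q.1 ⊆ Iio (g η.1 η.2)},
        insert (g η.1 η.2) (σ.supp (d q).1) : Set Λ) < σ.k := fun ξ g =>
    σ.union_lt (σ.ctbl_lt (S_iff.1 p.2).2.1) ((card_iUnion_lt_iff_forall_of_isRegular σ.reg
      (σ.ctbl_lt (countable_Iio ξ))).2 fun η => (card_biUnion_lt_iff_forall_of_isRegular σ.reg
        (h0 _ (σ.io _))).2 fun q _ => σ.ctbl_lt ((S_iff.1 (d q).2).2.1.insert _))
  let g : W1.{u} → Λ := WellFoundedLT.fix fun ξ g => b _ (h1 ξ g)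
  have hg : ∀ ξ, g ξ = b _ (h1 ξ fun η _ => g η) := fun ξ => WellFoundedLT.fix_eq _ ξ
  have h2 : ∀ η ξ, η < ξ → ∀ q : σ.Pos univ, σ.supp q.1 ⊆ Iio (g η) →
      insert (g η) (σ.supp (d q).1) ⊆ Iio (g ξ) := fun η ξ h q hq a ha => by
    rw [hg]
    exact hb _ _ a (Or.inr (mem_iUnion.2 ⟨⟨η, h⟩, mem_biUnion hq ha⟩))
  have h3 : ∀ η ξ, η < ξ → g η < g ξ := fun η ξ h => h2 η ξ h ⟨σ.top, S_top _⟩
    (fun _ ⟨_, _, h⟩ => (Cd.not_mem_top h).elim) (mem_insert _ _)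
  let L := ⋃ ξ, Iio (g ξ)
  have hL : IsLowerSet L := isLowerSet_iUnion fun ξ => isLowerSet_Iio _
  have h4 : #L < σ.k := (card_iUnion_lt_iff_forall_of_isRegular σ.reg
    (by simpa using σ.unc)).2 fun ξ => σ.io _
  refine ⟨d '' {q | σ.supp q.1 ⊆ L ∧ q ≤ p}, mk_image_le.trans_lt ((mk_le_mk_of_subset
    fun _ h => h.1).trans_lt (h0 L h4)), ?_, fun q hq => ?_⟩
  · rintro _ ⟨q, hq, rfl⟩
    exact ⟨hd2 q hq.2, (hd1 q hq.2).trans hq.2⟩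
  have h5 := S_res L q.2
  let q0 : σ.Pos univ := ⟨σ.res L q.1, S_mono h5 (subset_univ _)⟩
  obtain ⟨ξ0, -⟩ := exists_notMem_W1.{u} countable_empty
  have h6 : q0 ≤ p := le_of_supp isLowerSet_univ hL (fun a ha => mem_iUnion.2 ⟨ξ0, by
    rw [hg]; exact hb _ _ a (Or.inl ha)⟩) (le_tr (res_le hL Subset.rfl _) (le_mono (subset_univ _) hq))
  choose c hc using fun a : σ.supp q0.1 => mem_iUnion.1 ((S_iff.1 h5).1 a.2)
  have := (S_iff.1 h5).2.1.to_subtype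
  obtain ⟨η, hη⟩ := exists_gt_W1 (countable_range c)
  obtain ⟨ξ, hξ⟩ := exists_gt_W1 (countable_singleton η)
  have h7 : σ.supp (d q0).1 ⊆ L := fun a ha => mem_iUnion.2 ⟨ξ, h2 η ξ (hξ η rfl) q0
    (fun a ha => (hc ⟨a, ha⟩).trans (h3 _ _ (hη _ ⟨_, rfl⟩))) (Or.inr ha)⟩
  refine ⟨d q0, ⟨q0, ⟨(S_iff.1 h5).1, h6⟩, rfl⟩, ⟨σ.glue L (d q0).1 q.1, S_glue L (d q0).2 q.2
    (subset_univ _) (subset_univ _)⟩, glue_le_right isLowerSet_univ hL (le_tr (le_mono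
      (subset_univ _) (hd1 q0 h6)) (res_le hL Subset.rfl _)),
    le_of_supp isLowerSet_univ hL h7 (glue_le_left hL Subset.rfl _ _)⟩

noncomputable instance : OrderTop (σ.Pos univ) where
  top := ⟨σ.top, S_top _⟩
  le_top p := le_top' isLowerSet_univ p.1

end Setup

end Pool.Agent.Lib.MP_0fa4a2_gt
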