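import Pool.Agent.Lib.MP_0fa4a2_gt.Base

/-! Countable support iterations of posets of independent sets. -/

namespace Pool.Agent.Lib.MP_0fa4a2_gt

open Pool.Agent.Lib.MP_2739cb_lc Pool.Agent.Lib.MP_783f50_lc Cardinal Set

universe u

structure PO (C : Type u) where
  le : C → C → Prop
  rf : ∀ p, le p p
  tr : ∀ p q r, le p q → le q r → le p r

def PosOf {C : Type u} (S : C → Prop) (_ : PO C) : Type u := {p // S p}

instance {C : Type u} (S : C → Prop) (o : PO C) : Preorder (PosOf S o) where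
  le p q := o.le p.1 q.1
  le_refl p := o.rf p.1
  le_trans p q r := o.tr p.1 q.1 r.1

/-- An inaccessible cardinal, an index order of that type and a coding of small sets. -/
structure Cd (Λ C : Type u) [LinearOrder Λ] where
  k : Cardinal.{u}
  cd : C ≃ {X : Set (Λ × C × C) // #X < k}
  reg : k.IsRegular
  unc : ℵ₁ < k
  sl : ∀ μ, μ < k → 2 ^ μ < k
  io : ∀ β : Λ, #(Iio β) < k
  big : k ≤ #Λ

variable {Λ C : Type u} [LinearOrder Λ]

namespace Cd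

variable (c : Cd Λ C)

def mem (p : C) (β : Λ) (a r : C) : Prop := (β, a, r) ∈ (c.cd p).1

def mk' (X : Set (Λ × C × C)) (h : #X < c.k) : C := c.cd.symm ⟨X, h⟩

theorem mem_mk' {X : Set (Λ × C × C)} {h : #X < c.k} {β : Λ} {a r : C} :
    c.mem (c.mk' X h) β a r ↔ (β, a, r) ∈ X := by simp [mem, mk']

theorem ext {p q : C} (h : ∀ β a r, c.mem p β a r ↔ c.mem q β a r) : p = q :=
  c.cd.injective (Subtype.ext (Set.ext fun t => h t.1 t.2.1 t.2.2))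

theorem ctbl_lt {α : Type u} {S : Set α} (h : S.Countable) : #S < c.k :=
  (le_aleph0_iff_set_countable.2 h).trans_lt (aleph0_lt_aleph_one.trans c.unc)

theorem union_lt {α : Type u} {S T : Set α} (h1 : #S < c.k) (h2 : #T < c.k) :
    #(S ∪ T : Set α) < c.k := (mk_union_le _ _).trans_lt (add_lt_of_lt c.reg.1 h1 h2)

theorem ic (β : Λ) : #(Iic β) < c.k := by
  rw [← Iio_union_right]; exact c.union_lt (c.io β) (c.ctbl_lt (countable_singleton β))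

theorem exists_notMem {S : Set Λ} (h : #S < c.k) : ∃ β, β ∉ S := by
  by_contra hc
  push Not at hc
  rw [eq_univ_of_forall hc, mk_univ] at h
  exact absurd c.big (not_le.2 h)

theorem bdd {S : Set Λ} (h : #S < c.k) : ∃ β, ∀ a ∈ S, a < β := by
  obtain ⟨β, hβ⟩ := c.exists_notMem (S := ⋃ a ∈ S, Iic a)
    ((card_biUnion_lt_iff_forall_of_isRegular c.reg h).2 fun a _ => c.ic a)
  exact ⟨β, fun a ha => not_le.1 fun h1 => hβ (mem_biUnion ha h1)⟩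

/-- `z` on `L` and `p` elsewhere. -/
def glue (L : Set Λ) (z p : C) : C :=
  c.mk' ({t ∈ (c.cd z).1 | t.1 ∈ L} ∪ {t ∈ (c.cd p).1 | t.1 ∉ L})
    (c.union_lt ((mk_le_mk_of_subset (sep_subset _ _)).trans_lt (c.cd z).2)
      ((mk_le_mk_of_subset (sep_subset _ _)).trans_lt (c.cd p).2))

def top : C := c.mk' ∅ (c.ctbl_lt countable_empty)

def res (L : Set Λ) (p : C) : C := c.glue L p c.top

variable {c}

theorem not_mem_top {β : Λ} {a r : C} : ¬ c.mem c.top β a r := c.mem_mk'.1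

theorem mem_glue {L : Set Λ} {z p : C} {β : Λ} {a r : C} : c.mem (c.glue L z p) β a r ↔
    (c.mem z β a r ∧ β ∈ L) ∨ (c.mem p β a r ∧ β ∉ L) := c.mem_mk'

theorem mem_glue_in {L : Set Λ} {z p : C} {β : Λ} (h : β ∈ L) (a r : C) :
    c.mem (c.glue L z p) β a r ↔ c.mem z β a r := by simp [mem_glue, h]

theorem mem_glue_out {L : Set Λ} {z p : C} {β : Λ} (h : β ∉ L) (a r : C) :
    c.mem (c.glue L z p) β a r ↔ c.mem p β a r := by simp [mem_glue, h]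

theorem mem_res {L : Set Λ} {p : C} {β : Λ} {a r : C} :
    c.mem (c.res L p) β a r ↔ c.mem p β a r ∧ β ∈ L := by simp [res, mem_glue, not_mem_top]

def supp (c : Cd Λ C) (p : C) : Set Λ := {β | ∃ a r, c.mem p β a r}

end Cd

/-- The data of an iteration: which stages have finite conditions, and the conflict graphs. -/
structure Setup (Λ C : Type u) [LinearOrder Λ] extends Cd Λ C where
  fin : Λ → Prop
  lo : Λ → Λ
  lo_le : ∀ β, lo β ≤ β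
  St : Λ → (C → Prop) → PO C → (C → Prop) → PO C → C → C → C → Prop

namespace Setup

variable (σ : Setup Λ C)

def Id (β : Λ) (S : Set C) : Prop := S.Countable ∧ (σ.fin β → S.Finite)

def Ok {P : Type u} [Preorder P] (β : Λ) (Γ : C → C → P → Prop) : Prop :=
  (∀ a b p q, q ≤ p → Γ a b p → Γ a b q) ∧ (σ.fin β → CC Γ) ∧ #{a | ∃ r, ¬ Γ a a r} < σ.k

def Gd {P : Type u} [Preorder P] (β : Λ) (Γ : C → C → P → Prop) (a b : C) (r : P) : Prop :=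
  σ.Ok β Γ → Γ a b r

theorem ok_gd {P : Type u} [Preorder P] (β : Λ) (Γ : C → C → P → Prop) : σ.Ok β (σ.Gd β Γ) := by
  by_cases h : σ.Ok β Γ
  · have : σ.Gd β Γ = Γ := by funext a b r; simp [Gd, h]
    rwa [this]
  refine ⟨fun a b p q _ _ h1 => absurd h1 h, fun _ ι s acc _ h2 h3 _ r _ => ?_, ?_⟩
  · by_cases hc : ∃ i t, t ≤ r ∧ (acc i).s t
    · obtain ⟨i, t, ht, h4⟩ := hc
      refine ⟨t, ht, {i}, countable_singleton i, fun j w hw h6 => ?_⟩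
      by_contra h7
      obtain ⟨w', -, a, ha, -⟩ := h3 j i w h7 h6 (RO.mono h4 hw)
      exact h2 j w h6 a ha a ha fun h1 => absurd h1 h
    · exact ⟨r, le_rfl, ∅, countable_empty, fun i t ht h => hc ⟨i, t, ht, h⟩⟩
  · refine σ.ctbl_lt (countable_empty.mono ?_)
    rintro a ⟨r, hr⟩
    exact hr fun h1 => absurd h1 h

def leL (g : Λ → PO C × (C → Prop)) (L : Set Λ) : PO C where
  le p q := ∀ γ ∈ L, (g γ).1.le p q
  rf p γ _ := (g γ).1.rf p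
  tr p q r h1 h2 γ h := (g γ).1.tr p q r (h1 γ h) (h2 γ h)

def SL (g : Λ → PO C × (C → Prop)) (L : Set Λ) (p : C) : Prop :=
  σ.supp p ⊆ L ∧ (σ.supp p).Countable ∧ ∀ γ ∈ L, (g γ).2 p

def stepF (β : Λ) (S : C → Prop) (o : PO C) (Γ : C → C → C → Prop) : PO C × (C → Prop) :=
  (⟨fun p q => o.le p q ∧ ∀ a r, S r → o.le r p → σ.mem q β a r → σ.mem p β a r,
    fun p => ⟨o.rf p, fun _ _ _ _ h => h⟩, fun _ _ _ h1 h2 => ⟨o.tr _ _ _ h1.1 h2.1,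
      fun a t ht h3 h4 => h1.2 a t ht h3 (h2.2 a t ht (o.tr _ _ _ h3 h1.1) h4)⟩⟩,
   fun p => ∃ W : C → RO (PosOf S o), Valid (σ.Gd β fun a b r => Γ a b r.1) (σ.Id β) W ∧
     ∀ a r, σ.mem p β a r ↔ ∃ h : S r, (W a).s ⟨r, h⟩)

def FF (β : Λ) (g : Λ → PO C × (C → Prop)) : PO C × (C → Prop) :=
  σ.stepF β (σ.SL g (Iio β)) (leL g (Iio β)) (σ.St β (σ.SL g (Iio (σ.lo β)))
    (leL g (Iio (σ.lo β))) (σ.SL g (Iio β)) (leL g (Iio β)))

theorem FF_congr (β : Λ) {g g' : Λ → PO C × (C → Prop)} (h : ∀ γ, γ < β → g γ = g' γ) :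
    σ.FF β g = σ.FF β g' := by
  have key : ∀ L, L ⊆ Iio β → σ.SL g L = σ.SL g' L ∧ leL g L = leL g' L := fun L hL => by
    constructor
    · funext p
      exact propext (and_congr_right' (and_congr_right' (forall₂_congr fun γ hγ => by
        rw [h γ (hL hγ)])))
    · unfold leL
      congr 1
      funext p q
      exact propext (forall₂_congr fun γ hγ => by rw [h γ (hL hγ)])
  have h1 := key _ Subset.rfl
  have h2 := key _ (Iio_subset_Iio (σ.lo_le β))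
  unfold FF
  rw [h1.1, h1.2, h2.1, h2.2]

variable [WellFoundedLT Λ]

noncomputable def gg : Λ → PO C × (C → Prop) := WellFoundedLT.fix fun β rec =>
  σ.FF β fun γ => if h : γ < β then rec γ h else
    (⟨fun _ _ => True, fun _ => trivial, fun _ _ _ _ _ => trivial⟩, fun _ => True)

theorem gg_eq (β : Λ) : σ.gg β = σ.FF β σ.gg := by
  rw [gg, WellFoundedLT.fix_eq]
  exact σ.FF_congr β fun γ h => dif_pos h

abbrev S (L : Set Λ) : C → Prop := σ.SL σ.gg L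

noncomputable abbrev O (L : Set Λ) : PO C := leL σ.gg L

abbrev Pos (L : Set Λ) : Type u := PosOf (σ.S L) (σ.O L)

abbrev le (L : Set Λ) : C → C → Prop := (σ.O L).le

def Γ0 (β : Λ) (a b : C) (r : σ.Pos (Iio β)) : Prop :=
  σ.St β (σ.S (Iio (σ.lo β))) (σ.O (Iio (σ.lo β))) (σ.S (Iio β)) (σ.O (Iio β)) a b r.1

def Γ (β : Λ) : C → C → σ.Pos (Iio β) → Prop := σ.Gd β (σ.Γ0 β)

def ord (β : Λ) (p q : C) : Prop :=
  ∀ a r, σ.S (Iio β) r → σ.le (Iio β) r p → σ.mem q β a r → σ.mem p β a r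

def val (β : Λ) (p : C) : Prop := ∃ W : C → RO (σ.Pos (Iio β)), Valid (σ.Γ β) (σ.Id β) W ∧
  ∀ a r, σ.mem p β a r ↔ ∃ h : σ.S (Iio β) r, (W a).s ⟨r, h⟩

variable {σ}

omit [WellFoundedLT Λ] in
theorem id_empty (β : Λ) : σ.Id β ∅ := ⟨countable_empty, fun _ => finite_empty⟩

theorem hΓ (β : Λ) : ∀ a b p q, q ≤ p → σ.Γ β a b p → σ.Γ β a b q := (σ.ok_gd β _).1

theorem le_iff {L : Set Λ} (hL : IsLowerSet L) {p q : C} :
    σ.le L p q ↔ ∀ γ ∈ L, σ.ord γ p q := by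
  have h0 : ∀ γ, (σ.gg γ).1.le p q ↔ σ.le (Iio γ) p q ∧ σ.ord γ p q := fun γ => by
    rw [gg_eq]; rfl
  refine ⟨fun h γ hγ => ((h0 γ).1 (h γ hγ)).2, fun h γ => ?_⟩
  induction γ using WellFoundedLT.induction with
  | ind γ ih => exact fun hγ => (h0 γ).2 ⟨fun δ hδ => ih δ hδ (hL hδ.le hγ), h γ hγ⟩

theorem le_mono {L L' : Set Λ} (h : L' ⊆ L) {p q : C} (h1 : σ.le L p q) : σ.le L' p q :=
  fun γ hγ => h1 γ (h hγ)

theorem le_tr {L : Set Λ} {p q r : C} (h1 : σ.le L p q) (h2 : σ.le L q r) : σ.le L p r :=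
  (σ.O L).tr _ _ _ h1 h2

theorem le_of_sub {L : Set Λ} (hL : IsLowerSet L) {p q : C}
    (h : ∀ γ ∈ L, ∀ a r, σ.mem q γ a r → σ.mem p γ a r) : σ.le L p q :=
  (le_iff hL).2 fun γ hγ a r _ _ => h γ hγ a r

theorem val_congr {β : Λ} {p q : C} (h : ∀ a r, σ.mem q β a r ↔ σ.mem p β a r)
    (h1 : σ.val β p) : σ.val β q :=
  let ⟨W, h2, h3⟩ := h1; ⟨W, h2, fun a r => (h a r).trans (h3 a r)⟩

theorem val_empty {β : Λ} {p : C} (h : β ∉ σ.supp p) : σ.val β p :=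
  ⟨_, Valid.bot (id_empty β), fun a r => ⟨fun h1 => absurd ⟨a, r, h1⟩ h, fun ⟨_, h1⟩ => h1.elim⟩⟩

theorem S_iff {L : Set Λ} {p : C} :
    σ.S L p ↔ σ.supp p ⊆ L ∧ (σ.supp p).Countable ∧ ∀ γ, σ.val γ p := by
  have h0 : ∀ γ, (σ.gg γ).2 p ↔ σ.val γ p := fun γ => by rw [gg_eq]; rfl
  refine and_congr_right fun h => and_congr_right' ⟨fun h1 γ => ?_, fun h1 γ _ => (h0 γ).2 (h1 γ)⟩
  by_cases h2 : γ ∈ L
  · exact (h0 γ).1 (h1 γ h2)
  · exact val_empty fun h3 => h2 (h h3)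

theorem S_mono {L L' : Set Λ} {p : C} (h : σ.S L p) (h1 : σ.supp p ⊆ L') : σ.S L' p :=
  S_iff.2 ⟨h1, (S_iff.1 h).2⟩

theorem S_top (L : Set Λ) : σ.S L σ.top :=
  have : σ.supp σ.top = ∅ := eq_empty_of_forall_notMem fun _ ⟨_, _, h⟩ => Cd.not_mem_top h
  S_iff.2 ⟨by simp [this], by simp [this], fun _ => val_empty (by simp [this])⟩

theorem S_glue {L L1 L2 : Set Λ} (L' : Set Λ) {z p : C} (h1 : σ.S L1 z) (h2 : σ.S L2 p)
    (h3 : L1 ∩ L' ⊆ L) (h4 : L2 \ L' ⊆ L) : σ.S L (σ.glue L' z p) := by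
  rw [S_iff] at h1 h2 ⊢
  refine ⟨fun β ⟨a, r, h⟩ => ?_, (h1.2.1.union h2.2.1).mono fun β ⟨a, r, h⟩ => ?_, fun γ => ?_⟩
  · exact (Cd.mem_glue.1 h).elim (fun h => h3 ⟨h1.1 ⟨a, r, h.1⟩, h.2⟩)
      fun h => h4 ⟨h2.1 ⟨a, r, h.1⟩, h.2⟩
  · exact (Cd.mem_glue.1 h).imp (fun h => ⟨a, r, h.1⟩) fun h => ⟨a, r, h.1⟩
  · by_cases h : γ ∈ L'
    · exact val_congr (Cd.mem_glue_in h) (h1.2.2 γ)
    · exact val_congr (Cd.mem_glue_out h) (h2.2.2 γ)

theorem S_res {L : Set Λ} (L' : Set Λ) {p : C} (h : σ.S L p) : σ.S L' (σ.res L' p) :=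
  S_glue L' h (S_top ∅) inter_subset_right fun _ h => h.1.elim

theorem le_top' {L : Set Λ} (hL : IsLowerSet L) (p : C) : σ.le L p σ.top :=
  le_of_sub hL fun _ _ _ _ h => (Cd.not_mem_top h).elim

theorem le_res {L : Set Λ} (hL : IsLowerSet L) (L' : Set Λ) (p : C) : σ.le L p (σ.res L' p) :=
  le_of_sub hL fun _ _ _ _ h => (Cd.mem_res.1 h).1

theorem glue_le_left {L L' : Set Λ} (hL : IsLowerSet L) (h : L ⊆ L') (z p : C) :
    σ.le L (σ.glue L' z p) z :=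
  le_of_sub hL fun _ hγ a r => (Cd.mem_glue_in (h hγ) a r).2

theorem res_le {L L' : Set Λ} (hL : IsLowerSet L) (h : L ⊆ L') (p : C) :
    σ.le L (σ.res L' p) p := glue_le_left hL h _ _

theorem glue_le_right {L L' : Set Λ} (hL : IsLowerSet L) (hL' : IsLowerSet L') {z p : C}
    (h : σ.le L' z p) : σ.le L (σ.glue L' z p) p := by
  refine (le_iff hL).2 fun γ _ a r h1 h2 h3 => ?_
  by_cases h4 : γ ∈ L'
  · exact (Cd.mem_glue_in h4 a r).2 ((le_iff hL').1 h γ h4 a r h1 (le_tr h2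
      (glue_le_left (isLowerSet_Iio γ) (fun δ hδ => hL' hδ.le h4) _ _)) h3)
  · exact (Cd.mem_glue_out h4 a r).2 h3

/-- A condition supported in `L'` only sees the coordinates in `L'`. -/
theorem le_of_supp {L L' : Set Λ} (hL : IsLowerSet L) (hL' : IsLowerSet L') {p q : C}
    (h : σ.supp q ⊆ L') (h1 : σ.le L' p q) : σ.le L p q :=
  (le_iff hL).2 fun γ _ a r h2 h3 h4 => (le_iff hL').1 h1 γ (h ⟨a, r, h4⟩) a r h2 h3 h4

def rs {L : Set Λ} (L' : Set Λ) (p : σ.Pos L) : σ.Pos L' := ⟨σ.res L' p.1, S_res L' p.2⟩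

theorem le_rs {L L' : Set Λ} (hL' : IsLowerSet L') {z : σ.Pos L'} {p : σ.Pos L} :
    z ≤ rs L' p ↔ σ.le L' z.1 p.1 :=
  ⟨fun h => le_tr h (res_le hL' Subset.rfl _), fun h => le_tr h (le_res hL' _ _)⟩

theorem rs_le {L L' : Set Λ} (hL' : IsLowerSet L') {z : σ.Pos L'} {p : σ.Pos L} :
    rs L' p ≤ z ↔ σ.le L' p.1 z.1 :=
  ⟨fun h => le_tr (le_res hL' _ _) h, fun h => le_tr (res_le hL' Subset.rfl _) h⟩

theorem proj {L L' : Set Λ} (hL : IsLowerSet L) (hL' : IsLowerSet L') (h : L' ⊆ L) :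
    Proj (rs L' : σ.Pos L → σ.Pos L') :=
  ⟨fun _ _ h1 => (le_rs hL').2 (le_tr (res_le hL' Subset.rfl _) (le_mono h h1)), fun p z hz =>
    ⟨⟨σ.glue L' z.1 p.1, S_glue L' z.2 p.2 (inter_subset_left.trans h) sdiff_subset⟩,
      glue_le_right hL hL' ((le_rs hL').1 hz),
      (rs_le hL').2 (glue_le_left hL' Subset.rfl _ _)⟩⟩

def V {L : Set Λ} (p : σ.Pos L) (γ : Λ) (a : C) : RO (σ.Pos (Iio γ)) where
  s r := σ.mem p.1 γ a r.1
  mono' r t ht h := by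
    obtain ⟨W, -, h1⟩ := (S_iff.1 p.2).2.2 γ
    obtain ⟨_, h2⟩ := (h1 a _).1 h
    exact (h1 a _).2 ⟨t.2, RO.mono h2 ht⟩
  reg' r h := by
    obtain ⟨W, -, h1⟩ := (S_iff.1 p.2).2.2 γ
    refine (h1 a _).2 ⟨r.2, RO.reg fun q hq => ?_⟩
    obtain ⟨t, ht, h2⟩ := h q hq
    obtain ⟨_, h3⟩ := (h1 a _).1 h2
    exact ⟨t, ht, h3⟩

theorem S_of_mem {L : Set Λ} {p : C} (hp : σ.S L p) {γ : Λ} {a r : C} (h : σ.mem p γ a r) :
    σ.S (Iio γ) r := by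
  obtain ⟨W, -, h1⟩ := (S_iff.1 hp).2.2 γ
  exact ((h1 a r).1 h).1

theorem valid_V {L : Set Λ} (p : σ.Pos L) (γ : Λ) : Valid (σ.Γ γ) (σ.Id γ) (V p γ) := by
  obtain ⟨W, h, h1⟩ := (S_iff.1 p.2).2.2 γ
  exact Valid.of_loc (hΓ γ) fun r => ⟨r, le_rfl, W, h, fun a t _ h2 => ((h1 a _).1 h2).2⟩

theorem small_of {L : Set Λ} (hL : #L < σ.k) (h : ∀ γ ∈ L, #{p | σ.S (Iio γ) p} < σ.k) :
    #(⋃ γ ∈ L, (fun x : C × C => (γ, x)) '' {a | ∃ r, ¬ σ.Γ γ a a r} ×ˢ {p | σ.S (Iio γ) p} :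
      Set (Λ × C × C)) < σ.k :=
  (card_biUnion_lt_iff_forall_of_isRegular σ.reg hL).2 fun γ hγ => mk_image_le.trans_lt (by
    rw [mk_setProd]; exact mul_lt_of_lt σ.reg.1 (σ.ok_gd γ _).2.2 (h γ hγ))

theorem small_S' {L : Set Λ} (hL : #L < σ.k) (h : ∀ γ ∈ L, #{p | σ.S (Iio γ) p} < σ.k) :
    #{p | σ.S L p} < σ.k := by
  refine lt_of_le_of_lt ?_ (σ.sl _ (small_of hL h))
  rw [← mk_powerset]
  refine mk_le_of_injective (f := fun p => ⟨(σ.cd p.1).1, fun t ht => ?_⟩) fun p q hpq =>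
    Subtype.ext (σ.cd.injective (Subtype.ext (Subtype.mk.inj hpq)))
  have h1 := S_of_mem p.2 (γ := t.1) (a := t.2.1) (r := t.2.2) ht
  exact mem_biUnion ((S_iff.1 p.2).1 ⟨_, _, ht⟩) ⟨t.2, ⟨⟨⟨_, h1⟩,
    (valid_V ⟨p.1, p.2⟩ t.1).1 _ _ ⟨_, h1⟩ ht ht⟩, h1⟩, rfl⟩

theorem small_Iio (β : Λ) : #{p | σ.S (Iio β) p} < σ.k := by
  induction β using WellFoundedLT.induction with
  | ind β ih => exact small_S' (σ.io β) ih

theorem small_S {L : Set Λ} (hL : #L < σ.k) : #{p | σ.S L p} < σ.k :=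
  small_S' hL fun γ _ => small_Iio γ

theorem exists_cond (L : Set Λ) (W : ∀ γ, C → RO (σ.Pos (Iio γ)))
    (hv : ∀ γ ∈ L, Valid (σ.Γ γ) (σ.Id γ) (W γ))
    (hc : {γ ∈ L | ∃ a r, (W γ a).s r}.Countable) : ∃ p : σ.Pos L,
      ∀ γ a r, σ.mem p.1 γ a r ↔ γ ∈ L ∧ ∃ h, (W γ a).s ⟨r, h⟩ := by
  have h1 : #{t : Λ × C × C | t.1 ∈ L ∧ ∃ h, (W t.1 t.2.1).s ⟨t.2.2, h⟩} < σ.k := by
    refine (mk_le_mk_of_subset ?_).trans_lt (small_of (σ.ctbl_lt hc) fun γ _ => small_Iio γ)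
    rintro t ⟨h1, h2, h3⟩
    exact mem_biUnion (⟨h1, _, _, h3⟩ : t.1 ∈ {γ ∈ L | ∃ a r, (W γ a).s r})
      ⟨t.2, ⟨⟨_, (hv _ h1).1 _ _ _ h3 h3⟩, h2⟩, rfl⟩
  refine ⟨⟨σ.mk' _ h1, S_iff.2 ⟨fun γ ⟨_, _, h⟩ => (σ.mem_mk'.1 h).1,
    hc.mono fun γ ⟨_, _, h⟩ => ?_, fun γ => ?_⟩⟩, fun γ a r => σ.mem_mk'⟩
  · obtain ⟨h2, _, h3⟩ := σ.mem_mk'.1 h
    exact ⟨h2, _, _, h3⟩
  · by_cases h : γ ∈ L
    · exact ⟨W γ, hv γ h, fun a r => σ.mem_mk'.trans (and_iff_right h)⟩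
    · exact val_empty fun ⟨_, _, h2⟩ => h (σ.mem_mk'.1 h2).1

noncomputable def ext1 (β : Λ) : Ext1 (σ.Pos (Iio β)) (σ.Pos (Iic β)) (σ.Γ β) (σ.Id β) where
  π := rs (Iio β)
  V p := V p β
  le_iff p q := by
    constructor
    · exact fun h => ⟨(proj (isLowerSet_Iic β) (isLowerSet_Iio β) Iio_subset_Iic_self).mono _ _ h,
        fun a r hr => (le_iff (isLowerSet_Iic β)).1 h β self_mem_Iic a r.1 r.2
          ((le_rs (isLowerSet_Iio β)).1 hr)⟩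
    · refine fun h => (le_iff (isLowerSet_Iic β)).2 fun γ hγ => ?_
      rcases lt_or_eq_of_le (mem_Iic.1 hγ) with h1 | rfl
      · exact (le_iff (isLowerSet_Iio β)).1 (le_tr (le_res (isLowerSet_Iio β) _ _)
          ((le_rs (isLowerSet_Iio β)).1 h.1)) γ h1
      · exact fun a r h1 h2 => h.2 a ⟨r, h1⟩ ((le_rs (isLowerSet_Iio γ)).2 h2)
  valid p := valid_V p β
  mk' z W hW := by
    classical
    obtain ⟨p, hp⟩ := exists_cond (σ := σ) {β} (fun γ => if h : γ = β then h ▸ W else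
      fun _ => RO.bot) (fun γ h => by obtain rfl := h; simpa using hW)
      ((countable_singleton β).mono fun _ h => h.1)
    refine ⟨⟨σ.glue (Iio β) z.1 p.1, S_glue _ z.2 p.2 (inter_subset_left.trans Iio_subset_Iic_self)
      fun γ h => le_of_eq h.1⟩, Subtype.ext (σ.ext fun γ a r => Cd.mem_res.trans
        ⟨fun h => (Cd.mem_glue_in h.2 a r).1 h.1, fun h => ?_⟩), fun a r =>
          (Cd.mem_glue_out (L := Iio β) (lt_irrefl β) a r.1).trans ((hp β a r.1).trans ?_)⟩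
    · have h1 := (S_iff.1 z.2).1 ⟨a, r, h⟩
      exact ⟨(Cd.mem_glue_in h1 a r).2 h, h1⟩
    · simp only [mem_singleton_iff, dite_true, true_and]
      exact ⟨fun h => h.2, fun h => ⟨r.2, h⟩⟩
  hΓ := hΓ β

end Setup

end Pool.Agent.Lib.MP_0fa4a2_gt
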