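import Pool.Agent.Lib.MP_0fa4a2_gt.Refl

/-! Consequences of supercompactness. -/

namespace Pool.Agent.Lib.MP_0fa4a2_gt

open Pool.Agent.Lib.MP_2739cb_lc Pool.Agent.Lib.MP_783f50_lc Cardinal Set Filter

universe u

theorem card_Iio {κ : Cardinal.{u}} (a : κ.ord.ToType) : #(Iio a) < κ := by
  simpa using mk_Iio_lt a (by simp)

theorem card_Iic {κ : Cardinal.{u}} (h : ℵ₀ < κ) (a : κ.ord.ToType) : #(Iic a) < κ := by
  rw [← Iio_insert]
  exact mk_insert_le.trans_lt (add_lt_of_lt h.le (card_Iio a) (one_lt_aleph0.trans h))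

theorem exists_out {κ : Cardinal.{u}} (S : Set κ.ord.ToType) (hS : #S < κ) : ∃ a, a ∉ S := by
  by_contra hc
  push Not at hc
  simp [eq_univ_of_forall hc] at hS

theorem exists_el {κ : Cardinal.{u}} {o : Ordinal.{u}} (h : o < κ.ord) :
    ∃ a : κ.ord.ToType, Ordinal.typein (α := κ.ord.ToType) (· < ·) a = o ∧ #(Iio a) = o.card := by
  obtain ⟨a, rfl⟩ := Ordinal.typein_surj (α := κ.ord.ToType) (· < ·) (o := o) (by simpa using h)
  exact ⟨a, rfl, (Ordinal.card_typein (r := ((· < ·) : κ.ord.ToType → _ → Prop)) a).symm⟩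

theorem exists_inaccessible {κ : Cardinal.{u}} (hκ : IsSupercompact κ) :
    ∃ k : Cardinal.{u}, k.IsInaccessible ∧ k < κ := by
  let K := κ.ord.ToType
  have hK : #K = κ := by simp [K]
  obtain ⟨W, h1, h2, h3⟩ := hκ.2 K hK.ge
  let Ω := {x : Set K // #x < κ}
  have cI : CardinalInterFilter (W : Filter Ω) κ := ⟨h1⟩
  have sl : ∀ μ, μ < κ → 2 ^ μ < κ := fun μ hμ => by
    by_contra hc
    obtain ⟨g⟩ : Nonempty (K ↪ (μ.out → ULift.{u} Bool)) := by
      rw [← Cardinal.le_def, hK]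
      simpa using not_lt.1 hc
    choose s hs using fun x : Ω => exists_out x.1 x.2
    choose b hb using fun n => ae_const (U := W) (κ := κ) (fun x => g (s x) n)
      (S := univ) ((lt_aleph0_of_finite _).trans hκ.1) (Eventually.of_forall fun _ => trivial)
    have h4 := (eventually_cardinal_forall (by simpa using hμ)).2 hb
    obtain ⟨x0, hx0⟩ := h4.exists
    obtain ⟨x, hx1, hx2⟩ := (h4.and (h2 (s x0))).exists
    exact hs x (g.injective (funext fun n => (hx1 n).trans (hx0 n).symm) ▸ hx2)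
  have big : ∀ μ, μ < κ → ∀ᶠ x : Ω in W, μ < #x.1 := fun μ hμ => by
    obtain ⟨S, hS⟩ := le_mk_iff_exists_set.1 ((sl μ hμ).le.trans hK.ge)
    exact ((eventually_cardinal_ball (hS ▸ sl μ hμ)).2 fun a _ => h2 a).mono fun x hx =>
      (cantor μ).trans_le (hS ▸ mk_le_mk_of_subset hx)
  have low : ∀ᶠ x : Ω in W, ∀ a ∈ x.1, ∀ b, b < a → b ∈ x.1 := by
    by_contra hc
    have h4 := Ultrafilter.eventually_not.2 hc
    obtain ⟨x0, h0⟩ := h4.exists
    push Not at h0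
    obtain ⟨a0, -⟩ := h0
    have h5 : ∀ x : Ω, ∃ a b, (¬ ∀ a ∈ x.1, ∀ b, b < a → b ∈ x.1) → a ∈ x.1 ∧ b < a ∧ b ∉ x.1 :=
      fun x => by
        by_cases h : ∀ a ∈ x.1, ∀ b, b < a → b ∈ x.1
        · exact ⟨a0, a0, fun h1 => absurd h h1⟩
        · push Not at h
          obtain ⟨a, h1, b, h2⟩ := h
          exact ⟨a, b, fun _ => ⟨h1, h2⟩⟩
    choose a b h5 using h5
    have h6 := h4.mono h5
    obtain ⟨a', h7⟩ := h3 a (h6.mono fun x hx => hx.1)
    obtain ⟨b', h8⟩ := ae_const b (card_Iio a') ((h6.and h7).mono fun x hx =>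
      hx.1.2.1.trans_eq hx.2)
    obtain ⟨x, h9, h10, h11⟩ := (h6.and (h8.and (h2 b'))).exists
    exact h9.2.2 (h10 ▸ h11)
  have reg : ∀ o : Ω → Ordinal.{u}, (∀ᶠ x : Ω in W, o x < (#x.1).ord) →
      ∃ b, ∀ᶠ x : Ω in W, o x = b := fun o ho => by
    obtain ⟨a0, -⟩ := exists_out (κ := κ) ∅ (by simpa using aleph0_pos.trans hκ.1)
    have h4 : ∀ x : Ω, ∃ a : K, o x < (#x.1).ord →
        Ordinal.typein (α := K) (· < ·) a = o x ∧ #(Iio a) = (o x).card := fun x => by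
      by_cases h : o x < (#x.1).ord
      · obtain ⟨a, ha⟩ := exists_el (h.trans (ord_lt_ord.2 x.2))
        exact ⟨a, fun _ => ha⟩
      · exact ⟨a0, fun h1 => absurd h1 h⟩
    choose a h4 using h4
    obtain ⟨a', h5⟩ := h3 a ((ho.and low).mono fun x hx => by
      by_contra hc
      refine (lt_ord.1 hx.1).not_ge ((h4 x hx.1).2 ▸ mk_le_mk_of_subset fun b hb => ?_)
      exact lt_of_le_of_ne (not_lt.1 fun h => hc (hx.2 b hb _ h)) fun h => hc (h ▸ hb))
    exact ⟨_, (ho.and h5).mono fun x hx => (h4 x hx.1).1.symm.trans (congrArg _ hx.2)⟩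
  have k1 : ∀ᶠ x : Ω in W, IsStrongPrelimit #x.1 := by
    by_contra hc
    have h4 := Ultrafilter.eventually_not.2 hc
    have h5 : ∀ x : Ω, ∃ μ, ¬ IsStrongPrelimit #x.1 → μ < #x.1 ∧ #x.1 ≤ 2 ^ μ := fun x => by
      by_cases h : IsStrongPrelimit #x.1
      · exact ⟨0, fun h1 => absurd h h1⟩
      · simp only [IsStrongPrelimit, not_forall, not_lt] at h
        obtain ⟨μ, h1, h2⟩ := h
        exact ⟨μ, fun _ => ⟨h1, h2⟩⟩
    choose μ h5 using h5
    have h6 := h4.mono h5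
    obtain ⟨b, h7⟩ := reg (fun x => (μ x).ord) (h6.mono fun x hx => ord_lt_ord.2 hx.1)
    obtain ⟨x0, h8, h9⟩ := (h6.and h7).exists
    obtain ⟨x, h10, h11, h12⟩ := (h6.and (h7.and (big _ (sl _ (h8.1.trans x0.2))))).exists
    rw [← ord_injective (h11.trans h9.symm)] at h12
    exact h12.not_ge h10.2
  have k2 : ∀ᶠ x : Ω in W, #x.1 ≤ (#x.1).ord.cof := by
    by_contra hc
    have h4 := (Ultrafilter.eventually_not.2 hc).mono fun x hx => not_le.1 hx
    obtain ⟨b, h5⟩ := reg (fun x => (#x.1).ord.cof.ord) (h4.mono fun x hx => ord_lt_ord.2 hx)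
    have h6 : ∀ x : Ω, ∃ f : b.card.out → Ordinal.{u}, (#x.1).ord.cof.ord = b →
        (∀ i, f i < (#x.1).ord) ∧ ∀ o, o < (#x.1).ord → ∃ i, o ≤ f i := fun x => by
      by_cases h : (#x.1).ord.cof.ord = b
      swap
      · exact ⟨fun _ => 0, fun h1 => absurd h1 h⟩
      obtain ⟨s, h6, h7⟩ := Order.exists_cof_eq (#x.1).ord.ToType
      obtain ⟨e⟩ : Nonempty (b.card.out ≃ s) := Cardinal.eq.1 (by simp [h7, ← h])
      refine ⟨fun i => Ordinal.typein (α := (#x.1).ord.ToType) (· < ·) (e i).1, fun _ =>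
        ⟨fun i => Ordinal.typein_lt_self _, fun o ho => ?_⟩⟩
      obtain ⟨a, rfl, -⟩ := exists_el ho
      obtain ⟨c, h8, h9⟩ := h6 a
      exact ⟨e.symm ⟨c, h8⟩, by simpa using h9⟩
    choose f h6 using h6
    have h7 := h5.mono h6
    choose c h8 using fun i => reg (fun x => f x i) (h7.mono fun x hx => hx.1 i)
    obtain ⟨x1, h9, h10⟩ := (h4.and h5).exists
    have h11 := (eventually_cardinal_forall (by
      simpa [← h10] using h9.trans x1.2)).2 h8
    obtain ⟨x0, h12, h13⟩ := (h7.and h11).exists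
    obtain ⟨x, h14, h15, h16⟩ := (h7.and (h11.and (big _ x0.2))).exists
    obtain ⟨i, h17⟩ := h14.2 _ (ord_lt_ord.2 h16)
    exact (h12.1 i).not_ge (h17.trans_eq ((h15 i).trans (h13 i).symm))
  obtain ⟨x, h4, h5, h6⟩ := ((big _ hκ.1).and (k1.and k2)).exists
  exact ⟨_, ⟨h4, h6, h5⟩, x.2⟩

theorem exists_ms {k κ : Cardinal.{u}} (hκ : IsSupercompact κ) (hk : k < κ) (I : Type u)
    [Nonempty I] : Nonempty (Ms k κ.ord.ToType I) := by
  classical
  let K := κ.ord.ToType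
  have hK : #K = κ := by simp [K]
  obtain ⟨W, h1, h2, h3⟩ := hκ.2 (K ⊕ I) (by rw [mk_sum]; simp [hK])
  let Ω := {x : Set (K ⊕ I) // #x < κ}
  let X : Ω → Set K := fun x => Sum.inl ⁻¹' x.1
  let Y : Ω → Set I := fun x => Sum.inr ⁻¹' x.1
  have hX : ∀ x, #(X x) < κ := fun x =>
    (mk_preimage_of_injective _ _ Sum.inl_injective).trans_lt x.2
  have hY : ∀ x, #(Y x) < κ := fun x =>
    (mk_preimage_of_injective _ _ Sum.inr_injective).trans_lt x.2
  have rX : Regr W X := fun f hf => by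
    obtain ⟨a, ha⟩ := h3 (fun x => Sum.inl (f x)) hf
    obtain ⟨x0, hx0⟩ := Ultrafilter.nonempty_of_mem ha
    exact ⟨f x0, Filter.mem_of_superset ha fun x hx =>
      Sum.inl_injective ((hx : _ = a).trans (hx0 : _ = a).symm)⟩
  have rY : Regr W Y := fun f hf => by
    obtain ⟨a, ha⟩ := h3 (fun x => Sum.inr (f x)) hf
    obtain ⟨x0, hx0⟩ := Ultrafilter.nonempty_of_mem ha
    exact ⟨f x0, Filter.mem_of_superset ha fun x hx =>
      Sum.inr_injective ((hx : _ = a).trans (hx0 : _ = a).symm)⟩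
  have big : ∀ x, ∃ a, a ∉ X x ∧ ∃ e : K → I × Bool, ((Y x).Nonempty → ∀ j, (e j).1 ∈ Y x) ∧
      ∀ i ∈ Y x, ∀ b, ∃ j, j ≤ a ∧ e j = (i, b) := fun x => by
    obtain ⟨k0, -, h4⟩ := exists_el (κ := κ) (o := (#(Y x × ULift.{u} Bool)).ord) (by
      rw [ord_lt_ord, mk_prod, lift_id, lift_id]
      exact mul_lt_of_lt hκ.1.le (hY x) ((lt_aleph0_of_finite _).trans hκ.1))
    obtain ⟨a, ha⟩ := exists_out (X x ∪ Iio k0)
      ((mk_union_le _ _).trans_lt (add_lt_of_lt hκ.1.le (hX x) (card_Iio k0)))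
    obtain ⟨g⟩ := Cardinal.eq.1 (h4.trans (card_ord _))
    refine ⟨a, fun h => ha (Or.inl h), fun j => if h : j ∈ Iio k0 then
      ((g ⟨j, h⟩).1, (g ⟨j, h⟩).2.down) else
      (if h : (Y x).Nonempty then h.some else Classical.arbitrary I, true), fun h j => ?_,
      fun i hi b => ?_⟩
    · by_cases h5 : j ∈ Iio k0
      · beta_reduce; rw [dif_pos h5]; exact (g _).1.2
      · beta_reduce; rw [dif_neg h5, dif_pos h]; exact h.some_mem
    · refine ⟨g.symm (⟨i, hi⟩, ⟨b⟩), (g.symm _).2.le.trans (not_lt.1 fun h => ha (Or.inr h)), ?_⟩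
      beta_reduce
      rw [dif_pos (g.symm _).2]
      simp
  choose a ha e he1 he2 using big
  exact ⟨⟨Ω, W, X, Y, a, e, κ, hk, ⟨h1⟩, card_Iic hκ.1, fun k => h2 _, fun i => h2 _, rX, rY, ha,
    Filter.mem_of_superset (h2 (Sum.inr (Classical.arbitrary I))) fun x hx => he1 x ⟨_, hx⟩, he2⟩⟩

end Pool.Agent.Lib.MP_0fa4a2_gt
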