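import Pool.Agent.Lib.MP_0fa4a2_gt.LcLim

-- part Pool.Agent.Lib.MP_0fa4a2_gt.LcCaseA
section

/-!
Upward extension of the inverse collapse.
-/

namespace Pool.Agent.Lib.MP_0fa4a2_gt.Lc

open Set Cardinal Ordinal

universe u

theorem ca_cut {η η' γ γ' : Ordinal.{u}} {p q : Finset Ordinal.{u}} (hη : η ≤ η') (hγ : γ ≤ γ')
    (h1 : γ ≤ η) (h2 : γ' ≤ η') (hp : ∀ x ∈ p, x < η) (hq : ∀ x ∈ q, x < og η' γ' p)
    (hq' : q.image (sg η' γ' p) = p) : ∃ c ≤ og η' γ' p, γ ≤ c ∧ og c γ q = og η γ p ∧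
      ∀ x < og η γ p, sg η' γ' p (sg c γ q x) = sg η γ p x := by
  classical
  have hm : StrictMono (sg η' γ' p) := en_strictMono
  have hne : {ξ | η ≤ sg η' γ' p ξ}.Nonempty := ⟨η, le_en η⟩
  set c := sInf {ξ | η ≤ sg η' γ' p ξ} with hc
  have hc1 : η ≤ sg η' γ' p c := csInf_mem hne
  have hlt : ∀ x, x < c ↔ sg η' γ' p x < η := fun x =>
    ⟨fun hx => not_le.1 fun h => (csInf_le' (s := {ξ | η ≤ sg η' γ' p ξ}) h).not_gt hx,
      fun hx => not_le.1 fun h => (hc1.trans (hm.monotone h)).not_gt hx⟩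
  have hcζ : c ≤ og η' γ' p := le_of_forall_lt fun x hx =>
    en_lt_iff.1 (((hlt x).1 hx).trans_le hη)
  have hγc : γ ≤ c := le_of_forall_lt fun x hx => (hlt x).2 (by
    rw [sg_id h2 (hx.trans_le hγ)]; exact hx.trans_le h1)
  have hE := emb_sg η' γ' p
  have hfw : ∀ x ∈ hl c γ q, sg η' γ' p x ∈ hl η γ p := fun x hx =>
    hE.hull_map hcζ (fun x hx => (hlt x).1 hx) (by
      rintro a (ha | ha) hac
      · exact Hull.base (Or.inl (by rw [sg_id h2 (lt_of_lt_of_le ha hγ)]; exact ha))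
          ((hlt a).1 hac)
      · refine Hull.base (Or.inr ?_) ((hlt a).1 hac)
        have := Finset.mem_image_of_mem (sg η' γ' p) (Finset.mem_coe.1 ha)
        rw [hq'] at this
        exact Finset.mem_coe.2 this) hx
  have hbase : ∀ b ∈ Iio γ ∪ (↑p : Set Ordinal.{u}),
      ∃ a, Hull c (Iio γ ∪ ↑q) a ∧ sg η' γ' p a = b := by
    rintro b (hb | hb)
    · exact ⟨b, Hull.base (Or.inl hb) (lt_of_lt_of_le hb hγc), sg_id h2 (lt_of_lt_of_le hb hγ)⟩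
    · have hb' : b ∈ q.image (sg η' γ' p) := by rw [hq']; exact hb
      obtain ⟨a, ha, rfl⟩ := Finset.mem_image.1 hb'
      exact ⟨a, Hull.base (Or.inr ha) ((hlt a).2 (hp _ hb)), rfl⟩
  have hbw : ∀ y ∈ hl η γ p, ∃ x ∈ hl c γ q, sg η' γ' p x = y := by
    intro y hy
    rcases hcζ.eq_or_lt with e | hlt'
    · have := hull_pull_en (A := Iio γ ∪ ↑q) (B := Iio γ ∪ ↑p) (hclosed_hull η' (Iio γ' ∪ ↑p))
        (fun b hb _ => by
          obtain ⟨a, h3, h4⟩ := hbase b hb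
          rw [e] at h3
          exact ⟨a, h3, h4⟩) hη hy
      obtain ⟨x, h3, h4⟩ := this
      refine ⟨x, ?_, h4⟩
      rw [e]
      exact h3
    · exact hE.hull_pull hlt' (fun b hb _ => hbase b hb) (Hull.mono hy hc1 subset_rfl)
  have hsm : StrictMono (sg c γ q) := en_strictMono
  have := en_unique (X := hl η γ p) (δ := η) (g := sg η' γ' p ∘ sg c γ q) (ζ := og c γ q)
    ((hm.comp hsm).strictMonoOn _) (by
      ext y
      constructor
      · rintro ⟨x, hx, rfl⟩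
        have := hfw _ (en_mem hx)
        exact ⟨this, Hull.lt this⟩
      · rintro ⟨hy, -⟩
        obtain ⟨x, h3, rfl⟩ := hbw y hy
        obtain ⟨x', h4, rfl⟩ := en_surj h3 (Hull.lt h3)
        exact ⟨x', h4, rfl⟩)
  refine ⟨c, hcζ, hγc, this.1, fun x hx => this.2 x ?_⟩
  rw [this.1]
  exact hx

theorem caseA {θ τ : Ordinal.{u}} {Z : Set Ordinal.{u}} (h : GoodZ θ τ Z)
    (hτ : ∀ ξ < τ, ξ + 1 < τ) (hA : ∃ δ γ q, γ < ot Z τ ∧ Iio (ot Z τ) ⊆ hl δ γ q) :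
    ∃ δ γ q, γ < τ ∧ Z ⊆ hl δ γ q := by
  classical
  set π := en Z τ with hπd
  set tb := ot Z τ with htbd
  have hπ : Emb π tb := h.emb
  have hπm : StrictMono π := en_strictMono
  have hlim : ∀ ξ < tb, ξ + 1 < tb := h.limit hτ
  have hπZ : ∀ x < tb, π x ∈ Z := fun x hx => en_mem hx
  set db := sInf {δ | ∃ γ q, γ < tb ∧ Iio tb ⊆ hl δ γ q} with hdbd
  obtain ⟨γb, p0, hγb, hp0⟩ : ∃ γ q, γ < tb ∧ Iio tb ⊆ hl db γ q := csInf_mem hA
  have hmin : ∀ η < db, ∀ γ q, γ < tb → ¬ Iio tb ⊆ hl η γ q := fun η hη γ q h1 h2 =>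
    (csInf_le' (s := {δ | ∃ γ q, γ < tb ∧ Iio tb ⊆ hl δ γ q}) ⟨γ, q, h1, h2⟩).not_gt hη
  have htb : tb ≤ db := le_of_forall_lt fun x hx => Hull.lt (hp0 hx)
  have hdb : ∀ η < db, η + 1 < db := by
    intro η hη
    refine lt_of_le_of_ne (Order.add_one_le_of_lt hη) fun e => ?_
    have h1 : tb ≤ η := not_lt.1 fun h1 => (hlim η h1).not_ge (e ▸ htb)
    obtain ⟨b, hb⟩ := Hull.of_succ η
    refine hmin η hη γb (p0 ∪ b) hγb fun x hx => ?_
    have h2 : Hull (η + 1) (Iio γb ∪ ↑p0) x := by rw [e]; exact hp0 hx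
    rcases hb _ x h2 with e' | h3
    · exact absurd (e' ▸ hx : η < tb) h1.not_gt
    · refine h3.mono le_rfl ?_
      rw [Finset.coe_union, union_assoc]
  set p := p0.filter (· < db) with hpd
  have hp : Iio tb ⊆ hl db γb p := fun x hx => (hp0 hx).trans le_rfl (by
    rintro a (ha | ha) had
    · exact Hull.base (Or.inl ha) had
    · exact Hull.base (Or.inr (Finset.mem_coe.2 (Finset.mem_filter.2 ⟨ha, had⟩))) had)
  obtain ⟨e0, he0, he0p⟩ : ∃ e0 < db, ∀ x ∈ p, x < e0 := by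
    refine ⟨p.sup id + 1, hdb _ ?_, fun x hx => Order.lt_add_one_iff.2 (Finset.le_sup (f := id) hx)⟩
    refine (Finset.sup_lt_iff ((bot_le.trans_lt hγb).trans_le htb)).2 fun x hx => ?_
    exact (Finset.mem_filter.1 hx).2
  let I := {i : Ordinal.{u} × Ordinal.{u} // i.2 < tb ∧ i.2 ≤ i.1 ∧ i.1 < db ∧ ∀ x ∈ p, x < i.1}
  have : Small.{u} I := small_of_injective (β := Iio db × Iio tb)
    (f := fun i => (⟨i.1.1, i.2.2.2.1⟩, ⟨i.1.2, i.2.1⟩)) fun i j e =>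
      Subtype.ext (Prod.ext (congrArg (fun a : Iio db × Iio tb => a.1.1) e)
        (congrArg (fun a : Iio db × Iio tb => a.2.1) e))
  have dir : ∀ i j : I, ∃ k, i ≤ k ∧ j ≤ k := fun i j =>
    ⟨⟨(max i.1.1 j.1.1, max i.1.2 j.1.2), max_lt i.2.1 j.2.1, max_le_max i.2.2.1 j.2.2.1,
      max_lt i.2.2.2.1 j.2.2.2.1, fun x hx => (i.2.2.2.2 x hx).trans_le (le_max_left _ _)⟩,
      ⟨le_max_left _ _, le_max_left _ _⟩, ⟨le_max_right _ _, le_max_right _ _⟩⟩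
  let σ : I → Ordinal.{u} → Ordinal.{u} := fun i => sg i.1.1 i.1.2 p
  let ζ : I → Ordinal.{u} := fun i => og i.1.1 i.1.2 p
  have hσm : ∀ i, StrictMono (σ i) := fun i => en_strictMono
  choose q hq1 hq2 using fun i : I => exists_pre (η := i.1.1) (γ := i.1.2) i.2.2.2.2
  have hqp : ∀ i : I, ∀ y ∈ p, ∃ x ∈ q i, σ i x = y := fun i y hy => by
    rw [← hq2 i] at hy
    exact Finset.mem_image.1 hy
  have hpq : ∀ i : I, ∀ x ∈ q i, σ i x ∈ p := fun i x hx => by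
    have := Finset.mem_image_of_mem (sg i.1.1 i.1.2 p) hx
    rwa [hq2 i] at this
  have hsound : ∀ i : I, Iio (ζ i) ⊆ hl (ζ i) i.1.2 (q i) := fun i x hx =>
    og_sound i.2.2.1 (hq1 i) (fun y hy _ => hqp i y hy) x hx
  have hζ : ∀ i, ζ i < tb := fun i => not_le.1 fun h1 =>
    hmin (ζ i) (lt_of_le_of_lt ot_le i.2.2.2.1) _ (q i) i.2.1
      ((Iio_subset_Iio h1).trans (hsound i))
  have hqt : ∀ i, ∀ y ∈ q i, y < tb := fun i y hy => (hq1 i y hy).trans (hζ i)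
  have hcut : ∀ i j : I, ∃ c, i ≤ j → c ≤ ζ j ∧ i.1.2 ≤ c ∧ og c i.1.2 (q j) = ζ i ∧
      ∀ x < ζ i, σ j (sg c i.1.2 (q j) x) = σ i x := by
    intro i j
    by_cases hij : i ≤ j
    · obtain ⟨c, h1, h2⟩ := ca_cut hij.1 hij.2 i.2.2.1 j.2.2.1 i.2.2.2.2 (hq1 j) (hq2 j)
      exact ⟨c, fun _ => ⟨h1, h2⟩⟩
    · exact ⟨0, fun h' => absurd h' hij⟩
  choose c hc using hcut
  let s : I → I → Ordinal.{u} → Ordinal.{u} := fun i j => sg (c i j) i.1.2 (q j)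
  let g : I → I → Ordinal.{u} → Ordinal.{u} := fun i j =>
    sg (π (c i j)) (π i.1.2) ((q j).image π)
  have hct : ∀ i j, i ≤ j → c i j < tb := fun i j hij => (hc i j hij).1.trans_lt (hζ j)
  have hog : ∀ i j, i ≤ j → og (π (c i j)) (π i.1.2) ((q j).image π) = π (ζ i) ∧
      ∀ x < ζ i, g i j (π x) = π (s i j x) := fun i j hij => by
    have := h.og_eq (hct i j hij) i.2.1 (hqt j)
    rw [(hc i j hij).2.2.1] at this
    exact this
  have hsζ : ∀ i j, i ≤ j → ∀ x < ζ i, s i j x < ζ j := fun i j hij x hx => by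
    refine lt_of_lt_of_le (en_lt_iff.2 ?_) (hc i j hij).1
    have := (hc i j hij).2.2.1
    exact lt_of_lt_of_eq hx this.symm
  have hg : ∀ i j, i ≤ j → Emb (g i j) (π (ζ i)) ∧ ∀ x < π (ζ i), g i j x < π (ζ j) := by
    intro i j hij
    refine ⟨(hog i j hij).1 ▸ emb_sg _ _ _, fun x hx => ?_⟩
    refine lt_of_lt_of_le (en_lt_iff.2 ?_) (hπm.monotone (hc i j hij).1)
    exact lt_of_lt_of_eq hx (hog i j hij).1.symm
  have hid : ∀ i j : I, i ≤ j → ∀ x < π i.1.2, g i j x = x := fun i j hij x hx =>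
    sg_id (hπm.monotone (hc i j hij).2.1) hx
  have func : ∀ i j k, i ≤ j → j ≤ k → ∀ x < π (ζ i), g j k (g i j x) = g i k x := by
    intro i j k hij hjk x hx
    refine Emb.eq_on_hull ((hg j k hjk).1.comp (hg i j hij).1 (hg i j hij).2)
      (hg i k (hij.trans hjk)).1 ?_ (h.sound (hζ i) i.2.1 (hqt i) (hsound i) hx)
    rintro a (ha | ha) -
    · have ha' : a < π j.1.2 := lt_of_lt_of_le ha (hπm.monotone hij.2)
      rw [Function.comp_apply, hid i j hij a ha, hid j k hjk a ha', hid i k (hij.trans hjk) a ha]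
    · obtain ⟨b, hb, rfl⟩ := Finset.mem_image.1 (Finset.mem_coe.1 ha)
      have hb' := hq1 i b hb
      rw [Function.comp_apply, (hog i j hij).2 b hb', (hog j k hjk).2 _ (hsζ i j hij b hb'),
        (hog i k (hij.trans hjk)).2 b hb']
      congr 1
      apply (hσm k).injective
      rw [(hc j k hjk).2.2.2 _ (hsζ i j hij b hb'), (hc i j hij).2.2.2 b hb',
        (hc i k (hij.trans hjk)).2.2.2 b hb']
  obtain ⟨f, δ, hf1, hf2, hf3, hf4⟩ := exists_limit dir (fun i => π (ζ i)) (fun i => π i.1.2) g hg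
    func (fun i => hπm.monotone (le_og i.2.2.1)) (fun i j hij => hπm.monotone hij.2) hid (by
      rintro ⟨i, x, hx⟩
      obtain ⟨y, hy⟩ := h.seq (fun n => (π (ζ (i n)), π (c (i n) (i (n + 1))), π (i n).1.2,
        (q (i (n + 1))).image π)) (fun n => ⟨hπZ _ (hζ _), hπZ _ (hct _ _ (hx n).1),
          hπZ _ (i n).2.1, fun z hz => by
            obtain ⟨b, hb, rfl⟩ := Finset.mem_image.1 (Finset.mem_coe.1 hz)
            exact hπZ _ (hqt _ b hb)⟩) ⟨x, fun n => (hx n).2⟩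
      choose z hz1 hz2 using fun n => en_surj (hy n).1 (h.sub (hy n).1)
      have hz3 : ∀ n, z n < ζ (i n) := fun n => hπm.lt_iff_lt.1 (by
        have := (hy n).2.1
        rw [← hz2 n] at this
        exact this)
      obtain ⟨n, hn⟩ := WellFounded.not_rel_apply_succ (r := ((· < ·) : Ordinal.{u} → _ → Prop))
        (fun n => σ (i n) (z n))
      refine hn ?_
      have h1 := (hy n).2.2
      rw [← hz2 n, ← hz2 (n + 1)] at h1
      have h2 : π (z (n + 1)) < π (s (i n) (i (n + 1)) (z n)) :=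
        lt_of_lt_of_eq h1 ((hog _ _ (hx n).1).2 _ (hz3 n))
      have h3 := hσm (i (n + 1)) (hπm.lt_iff_lt.1 h2)
      rwa [(hc _ _ (hx n).1).2.2.2 _ (hz3 n)] at h3)
  let i0 : I := ⟨(max e0 γb, γb), hγb, le_max_right _ _, max_lt he0 (hγb.trans_le htb),
    fun x hx => (he0p x hx).trans_le (le_max_left _ _)⟩
  refine ⟨δ, π γb, ((q i0).image π).image (f i0), en_lt_iff.2 hγb, fun y hy => ?_⟩
  obtain ⟨x, hx, rfl⟩ := en_surj hy (h.sub hy)
  obtain ⟨η, hη, hxη⟩ := Hull.of_limit hdb (hp hx)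
  obtain ⟨i, hi0, hi1⟩ := dir i0 ⟨(max η (max e0 (x + 1)), x + 1), hlim x hx,
    (le_max_right _ _).trans (le_max_right _ _),
    max_lt hη (max_lt he0 ((hlim x hx).trans_le htb)),
    fun z hz => (he0p z hz).trans_le ((le_max_left _ _).trans (le_max_right _ _))⟩
  have hxi : x < i.1.2 := lt_of_lt_of_le (Order.lt_add_one_iff.2 le_rfl) hi1.2
  have hγi : γb ≤ i.1.2 := hi0.2
  obtain ⟨x', h1, h2⟩ := hull_pull_en (A := Iio γb ∪ ↑(q i)) (B := Iio γb ∪ ↑p)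
    (hclosed_hull i.1.1 (Iio i.1.2 ∪ ↑p)) (by
      rintro b (hb | hb) -
      · exact ⟨b, Hull.base (Or.inl hb) ((lt_of_lt_of_le hb hγi).trans_le (le_og i.2.2.1)),
          sg_id i.2.2.1 (lt_of_lt_of_le hb hγi)⟩
      · obtain ⟨a, ha, rfl⟩ := hqp i b hb
        exact ⟨a, Hull.base (Or.inr ha) (hq1 i a ha), rfl⟩)
    ((le_max_left _ _).trans hi1.1) hxη
  obtain rfl : x' = x := (hσm i).injective (h2.trans (sg_id i.2.2.1 hxi).symm)
  have h3 := (h.mem_hl (hζ i) hγb (hqt i) hx).2 h1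
  have h4 := (hf1 i).hull_map (B := Iio (π γb) ∪ ↑(((q i0).image π).image (f i0))) le_rfl
    (hf2 i) (by
      rintro a (ha | ha) haζ
      · refine Hull.base (Or.inl ?_) (hf2 i a haζ)
        rw [hf4 i a (lt_of_lt_of_le ha (hπm.monotone hγi))]
        exact ha
      · refine Hull.base (Or.inr ?_) (hf2 i a haζ)
        obtain ⟨b, hb, rfl⟩ := Finset.mem_image.1 (Finset.mem_coe.1 ha)
        obtain ⟨b0, hb0, e⟩ := hqp i0 _ (hpq i b hb)
        have hb0' := hq1 i0 b0 hb0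
        obtain rfl : b = s i0 i b0 := (hσm i).injective (by
          rw [(hc i0 i hi0).2.2.2 b0 hb0', e])
        rw [← hπd, ← (hog i0 i hi0).2 b0 hb0', hf3 i0 i hi0 _ (hπm hb0')]
        exact Finset.mem_coe.2 (Finset.mem_image_of_mem _ (Finset.mem_image_of_mem _ hb0))) h3
  rw [hf4 i _ (hπm hxi)] at h4
  exact h4

end Pool.Agent.Lib.MP_0fa4a2_gt.Lc
end

-- part Pool.Agent.Lib.MP_0fa4a2_gt.LcCaseB
section

/-!
If the collapse is never collapsed, the critical point is a Mahlo point.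
-/

namespace Pool.Agent.Lib.MP_0fa4a2_gt.Lc

open Set Cardinal Ordinal

universe u

/-- The critical point of the inverse collapse. -/
structure CaseBCrit (θ τ : Ordinal.{u}) (Z : Set Ordinal.{u}) (κ : Ordinal.{u}) : Prop where
  notMem : κ ∉ Z
  sub : Iio κ ⊆ Z
  lt : κ < θ
  lt_tau : θ < τ
  lt_ot : κ < ot Z τ
  below : ∀ x ∈ Z, x < θ → x < κ

theorem caseB_crit {θ τ : Ordinal.{u}} {Z : Set Ordinal.{u}} (h : GoodZ θ τ Z)
    (hZ : ∃ x ∈ Z, θ ≤ x) : ∃ κ, CaseBCrit θ τ Z κ := by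
  have h1 : ∃ β < θ, β ∉ Z := by
    by_contra hc
    have h2 : Iio θ ⊆ Z := fun β hβ => by
      by_contra hn
      exact hc ⟨β, hβ, hn⟩
    have h3 := Cardinal.mk_le_mk_of_subset h2
    rw [Cardinal.mk_Iio_ordinal] at h3
    exact absurd h.small (not_lt.2 h3)
  obtain ⟨β, hβ, hβZ⟩ := h1
  have hn : sInf Zᶜ ∉ Z := csInf_mem (s := Zᶜ) ⟨β, hβZ⟩
  have hsub : Iio (sInf Zᶜ) ⊆ Z := fun x hx => by
    by_contra hc
    exact absurd (csInf_le' (show x ∈ Zᶜ from hc)) (not_le.2 hx)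
  have hlt : sInf Zᶜ < θ := (csInf_le' (show β ∈ Zᶜ from hβZ)).trans_lt hβ
  obtain ⟨x, hxZ, hx⟩ := hZ
  refine ⟨sInf Zᶜ, hn, hsub, hlt, hx.trans_lt (h.sub hxZ), ?_, fun y hy hyθ => ?_⟩
  · obtain ⟨x', hx', rfl⟩ := en_surj hxZ (h.sub hxZ)
    refine lt_of_le_of_lt (not_lt.1 fun hc => ?_) hx'
    rw [en_id hsub hc] at hx
    exact absurd (hc.trans hlt) (not_lt.2 hx)
  · rcases lt_trichotomy y (sInf Zᶜ) with h2 | h2 | h2
    · exact h2
    · exact absurd (h2 ▸ hy) hn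
    · exact absurd (h.down y hy hyθ h2) hn

theorem caseB_og {t κ δ : Ordinal.{u}} {q : Finset Ordinal.{u}} (hκ : κ < t)
    (hB : ∀ δ γ q, γ < t → ¬ Iio t ⊆ hl δ γ q) (hδ : κ ≤ δ) (hq : ∀ y ∈ q, y < δ) :
    og δ κ q < t := by
  obtain ⟨p, hp, hpq⟩ := exists_pre (γ := κ) hq
  refine not_le.1 fun hc => hB (og δ κ q) κ p hκ fun x hx => ?_
  refine og_sound hδ hp (fun y hy _ => ?_) x (lt_of_lt_of_le hx hc)
  rw [← hpq] at hy
  exact Finset.mem_image.1 hy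

theorem caseB_condense {κ t : Ordinal.{u}} (hκ : κ < t)
    (hB : ∀ δ γ q, γ < t → ¬ Iio t ⊆ hl δ γ q) (hS : Sing κ) :
    ∃ z γ, ∃ p : Finset Ordinal.{u}, γ < κ ∧ κ ≤ z ∧ z < t ∧ (∀ x ∈ p, x < z) ∧
      Cof (hl z γ p) κ := by
  obtain ⟨δ, γ, q, hγ, hc⟩ := hS
  have hδ : κ ≤ δ := le_of_forall_lt fun β hβ => by
    obtain ⟨x, hx, h1, -⟩ := hc β hβ
    exact h1.trans_lt (Hull.lt hx)
  have hq : ∀ y ∈ q.filter (· < δ), y < δ := fun y hy => (Finset.mem_filter.1 hy).2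
  obtain ⟨p, hp, hpq⟩ := exists_pre (γ := κ) hq
  refine ⟨og δ κ (q.filter (· < δ)), γ, p, hγ, le_og hδ, caseB_og hκ hB hδ hq, hp,
    fun β hβ => ?_⟩
  obtain ⟨x, hx, h1, h2⟩ := hc β hβ
  obtain ⟨x', hx', e⟩ := hull_pull_en (A := Iio γ ∪ ↑p)
    (hclosed_hull δ (Iio κ ∪ ↑(q.filter (· < δ)))) (fun b hb hbδ => by
      rcases hb with hb | hb
      · exact ⟨b, Hull.base (Or.inl hb) ((lt_trans hb hγ).trans_le (le_og hδ)),
          sg_id hδ (lt_trans hb hγ)⟩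
      · have h3 : b ∈ q.filter (· < δ) := Finset.mem_filter.2 ⟨hb, hbδ⟩
        rw [← hpq] at h3
        obtain ⟨a, ha, e⟩ := Finset.mem_image.1 h3
        exact ⟨a, Hull.base (Or.inr ha) (hp a ha), e⟩) le_rfl hx
  have e' : x' = x := en_strictMono.injective (e.trans (sg_id hδ h2).symm)
  exact ⟨x, e' ▸ hx', h1, h2⟩

theorem caseB_not_sing {θ τ κ : Ordinal.{u}} {Z : Set Ordinal.{u}} (h : GoodZ θ τ Z)
    (c : CaseBCrit θ τ Z κ) (hB : ∀ δ γ q, γ < ot Z τ → ¬ Iio (ot Z τ) ⊆ hl δ γ q) :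
    ¬ Sing κ := by
  intro hS
  obtain ⟨z, γ, p, hγ, hκz, hz, hp, hc⟩ := caseB_condense c.lt_ot hB hS
  have hs := h.sup (en Z τ z) (en_mem hz) γ (c.sub hγ) (p.image (en Z τ)) (fun y hy => by
    obtain ⟨a, ha, rfl⟩ := Finset.mem_image.1 hy
    exact en_mem ((hp a ha).trans hz)) (en Z τ κ) (en_mem c.lt_ot)
  have hl : IsLeast {β | ∀ x ∈ hl (en Z τ z) γ (p.image (en Z τ)), x < en Z τ κ → x < β} κ := by
    constructor
    · intro x hx hxκ
      obtain ⟨x', -, rfl⟩ := h.emb.hull_pull (A := Iio γ ∪ ↑p) hz (fun b hb _ => by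
        rcases hb with hb | hb
        · exact ⟨b, Hull.base (Or.inl hb) ((lt_trans hb hγ).trans_le hκz),
            en_id c.sub (lt_trans hb hγ)⟩
        · obtain ⟨a, ha, e⟩ := Finset.mem_image.1 hb
          exact ⟨a, Hull.base (Or.inr ha) (hp a ha), e⟩) hx
      have h1 : x' < κ := en_strictMono.lt_iff_lt.1 hxκ
      rwa [en_id c.sub h1]
    · intro β hβ
      refine le_of_forall_lt fun β' hβ' => ?_
      obtain ⟨x, hx, h1, h2⟩ := hc β' hβ'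
      have h3 : Hull (en Z τ z) (Iio γ ∪ ↑(p.image (en Z τ))) (en Z τ x) :=
        h.emb.hull_map hz.le (fun y hy => en_strictMono hy) (fun a ha haz => by
          refine Hull.base ?_ (en_strictMono haz)
          rcases ha with ha | ha
          · rw [en_id c.sub (lt_trans ha hγ)]
            exact Or.inl ha
          · exact Or.inr (Finset.mem_coe.2 (Finset.mem_image_of_mem _ ha))) hx
      rw [en_id c.sub h2] at h3
      exact h1.trans_lt (hβ x h3 (h2.trans_le (le_en κ)))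
  rw [hl.csInf_eq] at hs
  exact c.notMem hs

theorem caseB_name {θ τ κ : Ordinal.{u}} {Z : Set Ordinal.{u}} (h : GoodZ θ τ Z)
    (c : CaseBCrit θ τ Z κ) (hB : ∀ δ γ q, γ < ot Z τ → ¬ Iio (ot Z τ) ⊆ hl δ γ q)
    (hf : Fix κ) (y : Ordinal.{u}) : ∃ y' ∈ Z, ∀ ξ < κ, (ξ ∈ cs y ↔ ξ ∈ cs y') := by
  obtain ⟨l, hl, hyl, hκl⟩ : ∃ l, IsLev l ∧ y < l ∧ κ < l :=
    ⟨nxt (max y κ), isLev_nxt _, (le_max_left _ _).trans_lt (lt_nxt _),
      (le_max_right _ _).trans_lt (lt_nxt _)⟩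
  have hl1 : l < l + 1 := lt_add_one l
  have hδ : κ ≤ l + 1 := (hκl.trans hl1).le
  have hq : ∀ x ∈ ({y, l} : Finset Ordinal.{u}), x < l + 1 := fun x hx => by
    rcases Finset.mem_insert.1 hx with rfl | hx
    · exact hyl.trans hl1
    · rw [Finset.mem_singleton.1 hx]
      exact hl1
  have hz := caseB_og c.lt_ot hB hδ hq
  obtain ⟨p, hp, hpq⟩ := exists_pre (γ := κ) hq
  obtain ⟨yb, hyb, ey⟩ := Finset.mem_image.1
    (hpq.symm ▸ Finset.mem_insert_self y {l} : y ∈ p.image (sg (l + 1) κ {y, l}))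
  obtain ⟨lb, hlb, el⟩ := Finset.mem_image.1
    (hpq.symm ▸ Finset.mem_insert_of_mem (Finset.mem_singleton_self l) :
      l ∈ p.image (sg (l + 1) κ {y, l}))
  have hs := emb_sg (l + 1) κ {y, l}
  have hmono : StrictMono (sg (l + 1) κ {y, l}) := en_strictMono
  have hlev : IsLev lb := (hs.toPreEmb.isLev_iff (hp lb hlb)).1 (el.symm ▸ hl)
  have hyl' : yb < lb := hmono.lt_iff_lt.1 (by rw [ey, el]; exact hyl)
  refine ⟨en Z τ yb, en_mem ((hp yb hyb).trans hz), fun ξ hξ => ?_⟩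
  have h1 : onm ξ < κ := (hf ξ hξ).1
  have h2 : onm ξ < lb := hmono.lt_iff_lt.1 (by rw [sg_id hδ h1, el]; exact h1.trans hκl)
  have h3 := hs.mem_iff hlev (hp lb hlb) h2 hyl'
  have h4 := h.emb.mem_iff hlev ((hp lb hlb).trans hz) h2 hyl'
  rw [sg_id hδ h1, ey, val_onm] at h3
  rw [en_id c.sub h1, val_onm] at h4
  exact h3.symm.trans h4

theorem caseB {θ τ : Ordinal.{u}} {Z : Set Ordinal.{u}} (h : GoodZ θ τ Z) (hθ : Nec.Rg θ)
    (hθτ : θ ≤ τ) (hZ : ∃ x ∈ Z, θ ≤ x)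
    (hB : ∀ δ γ q, γ < ot Z τ → ¬ Iio (ot Z τ) ⊆ hl δ γ q) : ∃ κ : Ordinal.{u}, MahloM κ := by
  obtain ⟨κ, c⟩ := caseB_crit h hZ
  have hκτ : κ < τ := c.lt.trans c.lt_tau
  have hle : ∀ x ∈ Z, x ≤ κ → x < κ := fun x hx hxκ => c.below x hx (hxκ.trans_lt c.lt)
  have hω : ω < κ := c.below ω (h.omega (mem_Iic.2 le_rfl)) (omega0_lt_omega_one.trans_le hθ.2)
  have hf : Fix κ := fun ξ hξ => by
    obtain ⟨h1, h2⟩ := fix_of_rg hθ ξ (hξ.trans c.lt)
    exact ⟨c.below _ (h.onm ξ (c.sub hξ) (h1.trans_le hθτ)) h1,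
      c.below _ (h.nxt ξ (c.sub hξ) (h2.trans_le hθτ)) h2⟩
  have hr : Reg κ := ⟨hf, hω, caseB_not_sing h c hB⟩
  refine ⟨κ, hr, fun β hβ => ?_, fun y hy => ?_⟩
  · have hne : {η | β < η ∧ Reg η}.Nonempty := ⟨κ, hβ, hr⟩
    have h1 := isLeast_csInf hne
    have h2 := h1.2 ⟨hβ, hr⟩
    exact ⟨_, hle _ (h.regAbove β (c.sub hβ) _ (h2.trans_lt hκτ) h1) h2, h1.1⟩
  · obtain ⟨y', hy', e⟩ := caseB_name h c hB hf y
    have hκ : κ ∈ cs y' := by
      by_contra hn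
      refine c.notMem (h.bad y' hy' κ hκτ ⟨⟨omega0_pos.trans hω, fun β hβ => ?_, hn⟩, ?_⟩)
      · obtain ⟨ξ, h1, h2, h3⟩ := hy.1 β hβ
        exact ⟨ξ, (e ξ h3).1 h1, h2, h3⟩
      · rintro η ⟨h1, h2, h3⟩
        refine not_lt.1 fun hc => h3 ((e η hc).1 (hy.2 η hc h1 fun β hβ => ?_))
        obtain ⟨ξ, h4, h5, h6⟩ := h2 β hβ
        exact ⟨ξ, (e ξ (h6.trans hc)).2 h4, h5, h6⟩
    have hne : {η | η ∈ cs y' ∧ Reg η}.Nonempty := ⟨κ, hκ, hr⟩
    have h1 := isLeast_csInf hne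
    have h2 := h1.2 ⟨hκ, hr⟩
    have h3 := hle _ (h.regIn y' hy' _ (h2.trans_lt hκτ) h1) h2
    exact ⟨_, (e _ h3).2 h1.1.1, h3, h1.1.2⟩

end Pool.Agent.Lib.MP_0fa4a2_gt.Lc
end

-- part Pool.Agent.Lib.MP_0fa4a2_gt.LcCov
section

/-!
The covering lemma.
-/

namespace Pool.Agent.Lib.MP_0fa4a2_gt.Lc

open Set Cardinal Ordinal

universe u

theorem cov_rg {ν : Cardinal.{u}} (h0 : ℵ₁ ≤ ν) : Nec.Rg (Order.succ ν).ord := by
  have hν : ℵ₀ ≤ ν := aleph0_lt_aleph_one.le.trans h0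
  refine ⟨by rw [(isRegular_succ hν).cof_ord], ?_⟩
  rw [← ord_aleph]
  exact Cardinal.ord_le_ord.2 (h0.trans (Order.le_succ ν))

theorem cov_union {ν : Cardinal.{u}} (hν : ℵ₀ ≤ ν) {X : Set Ordinal.{u}}
    (hc : #X ≤ Cardinal.lift.{u + 1} ν) (a : X → Finset Ordinal.{u}) :
    #(⋃ x : X, (↑(a x) : Set Ordinal.{u})) ≤ Cardinal.lift.{u + 1} ν := by
  have h1 : ℵ₀ ≤ Cardinal.lift.{u + 1} ν := Cardinal.aleph0_le_lift.2 hν
  refine (Cardinal.mk_iUnion_le _).trans ?_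
  have h2 : ⨆ x : X, #(↑(a x) : Set Ordinal.{u}) ≤ Cardinal.lift.{u + 1} ν :=
    ciSup_le' fun x => ((a x).finite_toSet.lt_aleph0.le).trans h1
  exact (mul_le_mul' hc h2).trans (Cardinal.mul_eq_self h1).le

theorem cover (hno : ¬ ∃ κ : Ordinal.{u}, MahloM κ) {ν : Cardinal.{u}} (h0 : ℵ₁ ≤ ν)
    (hν : ν ^ ℵ₀ = ν) (τ : Ordinal.{u}) (X : Set Ordinal.{u}) (hX : X ⊆ Iio τ)
    (hc : #X ≤ Cardinal.lift.{u + 1} ν) : ∃ δ γ q, γ < (Order.succ ν).ord ∧ X ⊆ hl δ γ q := by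
  have hθ := cov_rg h0
  have hν0 : ℵ₀ ≤ ν := aleph0_lt_aleph_one.le.trans h0
  induction τ using WellFoundedLT.induction generalizing X with
  | ind τ ih =>
  by_cases hb : X ⊆ Iio (Order.succ ν).ord
  · have hs : #X < Cardinal.lift.{u + 1} (Order.succ ν).ord.card := by
      rw [card_ord]
      exact hc.trans_lt (Cardinal.lift_lt.2 (Order.lt_succ ν))
    obtain ⟨b, hb1, hb2⟩ := hθ.bdd hb hs
    exact ⟨b, b, ∅, hb1, fun x hx => Hull.base (Or.inl (hb2 x hx)) (hb2 x hx)⟩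
  obtain ⟨x0, hx0, hx0'⟩ := not_subset.1 hb
  have hθx : (Order.succ ν).ord ≤ x0 := not_lt.1 hx0'
  by_cases hτ : ∀ ξ < τ, ξ + 1 < τ
  · have hθτ : (Order.succ ν).ord ≤ τ := hθx.trans (le_of_lt (hX hx0))
    obtain ⟨Z, hXZ, hZ⟩ := exists_goodZ h0 hν hθτ hX hc
    have hA : ∃ δ γ q, γ < ot Z τ ∧ Iio (ot Z τ) ⊆ hl δ γ q := by
      by_contra hcon
      exact hno (caseB hZ hθ hθτ ⟨x0, hXZ hx0, hθx⟩ fun δ γ q h1 h2 => hcon ⟨δ, γ, q, h1, h2⟩)
    obtain ⟨δ, γ, q, hγ, hZh⟩ := caseA hZ hτ hA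
    have hfin : ∀ x : X, ∃ a : Finset Ordinal.{u}, ↑a ⊆ Iio γ ∧ Hull δ (↑a ∪ ↑q) x.1 :=
      fun x => Hull.finite_union (hZh (hXZ x.2))
    choose a ha1 ha2 using hfin
    obtain ⟨δ', γ', q', hγ', hX'⟩ := ih γ hγ (⋃ x : X, (↑(a x) : Set Ordinal.{u}))
      (iUnion_subset ha1) (cov_union hν0 hc a)
    refine ⟨max δ δ', γ', q ∪ q', hγ', fun x hx => ?_⟩
    refine Hull.trans (ha2 ⟨x, hx⟩) (le_max_left _ _) fun y hy hyδ => ?_
    rcases hy with hy | hy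
    · refine Hull.mono (hX' (mem_iUnion.2 ⟨⟨x, hx⟩, hy⟩)) (le_max_right _ _) ?_
      exact union_subset_union_right _ (Finset.coe_subset.2 Finset.subset_union_right)
    · exact Hull.base (Or.inr (Finset.mem_coe.2 (Finset.mem_union_left _ (Finset.mem_coe.1 hy))))
        (hyδ.trans_le (le_max_left _ _))
  · push Not at hτ
    obtain ⟨t, ht, ht'⟩ := hτ
    have hsub : X \ {t} ⊆ Iio t := fun x hx =>
      lt_of_le_of_ne (Order.lt_add_one_iff.1 ((hX hx.1).trans_le ht')) hx.2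
    obtain ⟨δ, γ, q, hγ, hX'⟩ := ih t ht (X \ {t}) hsub
      ((Cardinal.mk_le_mk_of_subset sdiff_subset).trans hc)
    refine ⟨max δ τ, γ, insert t q, hγ, fun x hx => ?_⟩
    by_cases hxt : x = t
    · rw [hxt]
      exact Hull.base (Or.inr (Finset.mem_coe.2 (Finset.mem_insert_self _ _)))
        (ht.trans_le (le_max_right _ _))
    · refine Hull.mono (hX' ⟨hx, hxt⟩) (le_max_left _ _) ?_
      exact union_subset_union_right _ (Finset.coe_subset.2 (Finset.subset_insert _ _))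

end Pool.Agent.Lib.MP_0fa4a2_gt.Lc
end

-- part Pool.Agent.Lib.MP_0fa4a2_gt.LcDia
section

/-!
The two-cardinal diamond star principle from covering.
-/

namespace Pool.Agent.Lib.MP_0fa4a2_gt.Lc

open Set Cardinal Ordinal

universe u

theorem dia_cnt {ξ : Ordinal.{u}} (h : ξ < ω₁) : (Iio ξ).Countable := by
  rw [← le_aleph0_iff_set_countable, Cardinal.mk_Iio_ordinal, Cardinal.lift_le_aleph0]
  have h1 := Nec.rg_omega1.card_lt h
  rw [card_omega, ← succ_aleph0] at h1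
  exact Order.lt_succ_iff.1 h1

theorem dia_mk : #(Iio (ω₁ : Ordinal.{u})) = ℵ₁ := by
  rw [Cardinal.mk_Iio_ordinal, card_omega, lift_aleph, Ordinal.lift_one]

theorem dia_inf {N : Set Ordinal.{u}} (hN : N.Countable) :
    sInf Nᶜ < ω₁ ∧ sInf Nᶜ ∉ N ∧ Iio (sInf Nᶜ) ⊆ N := by
  have h1 : ∃ x < (ω₁ : Ordinal.{u}), x ∉ N := by
    by_contra hcon
    push Not at hcon
    have h2 : (Iio (ω₁ : Ordinal.{u})).Countable := hN.mono fun x hx => hcon x hx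
    rw [← le_aleph0_iff_set_countable, dia_mk] at h2
    exact aleph0_lt_aleph_one.not_ge h2
  obtain ⟨x, hx, hx'⟩ := h1
  refine ⟨(csInf_le' (show x ∈ Nᶜ from hx')).trans_lt hx, csInf_mem (s := Nᶜ) ⟨x, hx'⟩,
    fun y hy => ?_⟩
  by_contra h
  exact (csInf_le' (show y ∈ Nᶜ from h)).not_gt hy

/-- Two sets that agree below `m` have the same enumeration below `m`. -/
theorem dia_cut {H N : Set Ordinal.{u}} {m δ : Ordinal.{u}} (hm : m ≤ δ)
    (h : ∀ y < m, y ∈ H ↔ y ∈ N) :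
    ot N m ≤ ot H δ ∧ (∀ x < ot N m, en H δ x = en N m x) ∧ ∀ x, en H δ x < m → x < ot N m := by
  have hne : {z | m ≤ en H δ z}.Nonempty := ⟨m, le_en m⟩
  have h0 : m ≤ en H δ (sInf {z | m ≤ en H δ z}) := csInf_mem hne
  have h1 : ∀ x, x < sInf {z | m ≤ en H δ z} ↔ en H δ x < m := fun x =>
    ⟨fun hx => not_le.1 fun h' => (csInf_le' (show x ∈ {z | m ≤ en H δ z} from h')).not_gt hx,
      fun hx => not_le.1 fun h' => ((h0.trans (en_strictMono.monotone h'))).not_gt hx⟩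
  have h2 : en H δ '' Iio (sInf {z | m ≤ en H δ z}) = N ∩ Iio m := by
    apply Subset.antisymm
    · rintro _ ⟨x, hx, rfl⟩
      have h3 := (h1 x).1 hx
      exact ⟨(h _ h3).1 (en_mem (en_lt_iff.1 (h3.trans_le hm))), h3⟩
    · rintro y ⟨hy, hy'⟩
      obtain ⟨x, -, rfl⟩ := en_surj (δ := δ) ((h y hy').2 hy) (lt_of_lt_of_le hy' hm)
      exact ⟨x, (h1 x).2 hy', rfl⟩
  obtain ⟨e1, e2⟩ := en_unique (en_strictMono.strictMonoOn _) h2
  rw [← e1]
  refine ⟨le_of_forall_lt fun x hx => en_lt_iff.1 (((h1 x).1 hx).trans_le hm), e2,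
    fun x hx => (h1 x).2 hx⟩

theorem dia_hullN {m δ : Ordinal.{u}} {p : Finset Ordinal.{u}} (hm : m ≤ δ)
    {N : Set Ordinal.{u}} (h : ∀ x, Hull δ (N ∪ ↑p) x → x < m → x ∈ N) :
    ∀ y < m, y ∈ {x | Hull δ (N ∪ ↑p) x} ↔ y ∈ N := fun y hy =>
  ⟨fun h' => h y h' hy, fun h' => Hull.base (Or.inl h') (hy.trans_le hm)⟩

theorem dia_pre {δ : Ordinal.{u}} {p : Finset Ordinal.{u}} (hp : ∀ x ∈ p, x < δ)
    (N : Set Ordinal.{u}) : ∃ pb : Finset Ordinal.{u}, (∀ x ∈ pb, x < ot {x | Hull δ (N ∪ ↑p) x} δ) ∧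
      pb.image (en {x | Hull δ (N ∪ ↑p) x} δ) = p :=
  exists_preimage_finset fun y hy => ⟨Hull.base (Or.inr hy) (hp y hy), hp y hy⟩

/-- The collapse of the hull of `N ∪ p` is sound above the order type of `N`. -/
theorem dia_sound {m δ : Ordinal.{u}} {p : Finset Ordinal.{u}} (hm : m ≤ δ) (hp : ∀ x ∈ p, x < δ)
    {N : Set Ordinal.{u}} (hN : N ⊆ Iio m) (h : ∀ x, Hull δ (N ∪ ↑p) x → x < m → x ∈ N) :
    ∃ q, Iio (ot {x | Hull δ (N ∪ ↑p) x} δ) ⊆ hl (ot {x | Hull δ (N ∪ ↑p) x} δ) (ot N m) q := by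
  obtain ⟨c1, c2, -⟩ := dia_cut hm (dia_hullN hm h)
  obtain ⟨pb, p1, p2⟩ := dia_pre hp N
  refine ⟨pb, fun x hx => ?_⟩
  obtain ⟨x', h1, h2⟩ := hull_pull_en (A := Iio (ot N m) ∪ ↑pb) (B := N ∪ ↑p)
    (hclosed_hull δ (N ∪ ↑p)) (by
      rintro b (hb | hb) -
      · obtain ⟨a, ha, rfl⟩ := en_surj hb (hN hb)
        exact ⟨a, Hull.base (Or.inl ha) (ha.trans_le c1), c2 a ha⟩
      · rw [← p2, Finset.coe_image] at hb
        obtain ⟨a, ha, rfl⟩ := hb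
        exact ⟨a, Hull.base (Or.inr ha) (p1 a ha), rfl⟩) le_rfl (en_mem hx)
  rw [en_strictMono.injective h2] at h1
  exact h1

theorem dia_F {m δ : Ordinal.{u}} {p : Finset Ordinal.{u}} {N : Set Ordinal.{u}}
    (h : ∀ a : Finset Ordinal.{u}, ↑a ⊆ N → {x | Hull δ (↑a ∪ ↑p) x} ∩ Iio m ⊆ N) :
    ∀ x, Hull δ (N ∪ ↑p) x → x < m → x ∈ N := fun x hx hm => by
  obtain ⟨a, ha, h'⟩ := hx.finite_union
  exact h a ha ⟨h', hm⟩

theorem dia_Fc (m δ : Ordinal.{u}) (p a : Finset Ordinal.{u}) :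
    ({x | Hull δ (↑a ∪ ↑p) x} ∩ Iio m).Countable :=
  (Hull.countable δ (a.countable_toSet.union p.countable_toSet)).mono inter_subset_left

/-- A countable bound for the collapse of the hull of a countable set. -/
theorem exists_bound : ∃ b : Ordinal.{u} → Ordinal.{u} → Ordinal.{u},
    (∀ α < ω₁, ∀ k < ω₁, b α k < ω₁) ∧ ∀ (m δ : Ordinal.{u}) (p : Finset Ordinal.{u}), ω₁ ≤ m →
      m ≤ δ → (∀ x ∈ p, x < δ) →
      ∃ F : Finset Ordinal.{u} → Set Ordinal.{u}, (∀ a, (F a).Countable) ∧ (∀ a, F a ⊆ Iio m) ∧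
        ∀ N : Set Ordinal.{u}, N.Countable → N ⊆ Iio m → Nec.Closed F N →
          (∀ x, Hull δ (N ∪ ↑p) x → x < m → x ∈ N) ∧
          ot {x | Hull δ (N ∪ ↑p) x} δ < b (sInf Nᶜ) (ot N m) := by
  by_cases hI : ∀ k < (ω₁ : Ordinal.{u}), ∃ b < (ω₁ : Ordinal.{u}), ∀ d < (ω₁ : Ordinal.{u}),
      (∃ q, Iio d ⊆ hl d k q) → d < b
  · choose! b b1 b2 using hI
    refine ⟨fun _ k => b k, fun _ _ k hk => b1 k hk, fun m δ p _ hm hp =>
      ⟨fun a => {x | Hull δ (↑a ∪ ↑p) x} ∩ Iio m, fun a => dia_Fc m δ p a,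
        fun a => inter_subset_right, fun N hN hNm hF => ?_⟩⟩
    have h := dia_F hF
    exact ⟨h, b2 _ (ot_lt_omega1 hN) _
      (ot_lt_omega1 (Hull.countable δ (hN.union p.countable_toSet))) (dia_sound hm hp hNm h)⟩
  · push Not at hI
    obtain ⟨k0, hk0, hI⟩ := hI
    choose! d d1 d2 d3 using hI
    refine ⟨fun α _ => d α, fun α hα _ _ => d1 α hα, fun m δ p h1 hm hp => ?_⟩
    have hβ : ∀ a : Finset Ordinal.{u}, ∃ β < (ω₁ : Ordinal.{u}),
        ∀ x ∈ {x | Hull δ (Iio k0 ∪ (↑a ∪ ↑p)) x} ∩ Iio ω₁, x < β := fun a =>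
      Nec.rg_omega1.bdd_countable inter_subset_right ((Hull.countable δ ((dia_cnt hk0).union
        (a.countable_toSet.union p.countable_toSet))).mono inter_subset_left)
    choose β β1 β2 using hβ
    have hc : ∀ a : Finset Ordinal.{u},
        (⋃ ξ ∈ (↑a ∩ Iio ω₁ : Set Ordinal.{u}), Iio ξ).Countable := fun a =>
      Countable.biUnion (a.countable_toSet.mono inter_subset_left) fun ξ hξ => dia_cnt hξ.2
    refine ⟨fun a => ({x | Hull δ (↑a ∪ ↑p) x} ∩ Iio m) ∪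
      (insert k0 (insert (β a) (⋃ ξ ∈ (↑a ∩ Iio ω₁ : Set Ordinal.{u}), Iio ξ))),
      fun a => (dia_Fc m δ p a).union (((hc a).insert _).insert _),
      fun a => union_subset inter_subset_right (insert_subset (hk0.trans_le h1)
        (insert_subset ((β1 a).trans_le h1) (iUnion₂_subset fun ξ hξ y hy =>
          (lt_trans hy hξ.2).trans_le h1))), fun N hN hNm hF => ?_⟩
    have h := dia_F (m := m) (δ := δ) (p := p) fun a ha => subset_union_left.trans (hF a ha)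
    refine ⟨h, ?_⟩
    obtain ⟨a1, a2, a3⟩ := dia_inf hN
    have a4 : ∀ ξ ∈ N, ξ < ω₁ → ξ < sInf Nᶜ := fun ξ hξ hξ' => by
      have h2 : Iio ξ ⊆ N := fun y hy => hF {ξ} (by simpa using hξ)
        (Or.inr (Or.inr (Or.inr (mem_biUnion (x := ξ) ⟨by simp, hξ'⟩ hy))))
      rcases lt_trichotomy ξ (sInf Nᶜ) with h3 | h3 | h3
      · exact h3
      · exact absurd (h3 ▸ hξ) a2
      · exact absurd (h2 h3) a2
    have a5 : k0 < sInf Nᶜ := a4 k0 (hF ∅ (by simp) (Or.inr (Or.inl rfl))) hk0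
    by_contra hcon
    have hd : d (sInf Nᶜ) ≤ ot {x | Hull δ (N ∪ ↑p) x} δ := not_lt.1 hcon
    obtain ⟨q, hq⟩ := d2 _ a1
    have hα := d3 _ a1
    have hfix : ∀ x < sInf Nᶜ, en {x | Hull δ (N ∪ ↑p) x} δ x = x := fun x hx =>
      en_id (fun y hy => Hull.base (Or.inl (a3 hy)) ((hNm (a3 hy)).trans_le hm)) hx
    have hs : ∀ y < d (sInf Nᶜ), ∃ a : Finset Ordinal.{u}, ↑a ⊆ N ∧
        Hull δ (↑a ∪ ↑p) (en {x | Hull δ (N ∪ ↑p) x} δ y) := fun y hy =>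
      Hull.finite_union (en_mem (X := {x | Hull δ (N ∪ ↑p) x}) (hy.trans_le hd))
    choose! s s1 s2 using hs
    let a : Finset Ordinal.{u} := (q.filter (· < d (sInf Nᶜ))).biUnion s
    have ha : ↑a ⊆ N := fun y hy => by
      obtain ⟨z, hz, hz'⟩ := Finset.mem_biUnion.1 hy
      exact s1 z (Finset.mem_filter.1 hz).2 hz'
    have b1 : β a < sInf Nᶜ := a4 _ (hF a ha (Or.inr (Or.inr (Or.inl rfl)))) (β1 a)
    have b2 := (condense (hclosed_hull δ (N ∪ ↑p))).hull_map (B := Iio k0 ∪ (↑a ∪ ↑p)) (η' := δ) hd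
      (fun x hx => en_lt_iff.2 (hx.trans_le hd)) (by
        rintro y (hy | hy) hy'
        · rw [hfix y (lt_trans hy a5)]
          exact Hull.base (Or.inl hy) (((lt_trans hy hk0).trans_le h1).trans_le hm)
        · refine (s2 y hy').mono le_rfl (Subset.trans (union_subset_union_left _ ?_)
            subset_union_right)
          exact fun z hz => Finset.mem_biUnion.2 ⟨y, Finset.mem_filter.2 ⟨hy, hy'⟩, hz⟩)
      (hq (b1.trans_le hα))
    rw [hfix _ b1] at b2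
    exact (β2 a _ ⟨b2, β1 a⟩).false

/-- The collapse commutes with the enumerations of hulls of finite sets. -/
theorem dia_comm {H : Set Ordinal.{u}} {δ : Ordinal.{u}} (hH : HClosed δ H)
    {a b : Finset Ordinal.{u}} (ha : ∀ x ∈ a, x < ot H δ) (hb : a.image (en H δ) = b) :
    ∀ x < og δ 0 b, en H δ (sg (ot H δ) 0 a x) = sg δ 0 b x := by
  have h : (en H δ ∘ sg (ot H δ) 0 a) '' Iio (og (ot H δ) 0 a) = hl δ 0 b ∩ Iio δ := by
    apply Subset.antisymm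
    · rintro _ ⟨x, hx, rfl⟩
      have h1 : Hull δ (Iio 0 ∪ ↑b) (en H δ (sg (ot H δ) 0 a x)) :=
        (condense hH).hull_map (A := Iio 0 ∪ ↑a) le_rfl (fun x hx => en_lt_iff.2 hx) (by
          rintro y (hy | hy) hy'
          · exact absurd hy (by simp)
          · refine Hull.base (Or.inr ?_) (en_lt_iff.2 hy')
            rw [← hb, Finset.coe_image]
            exact ⟨y, hy, rfl⟩) (en_mem (X := hl (ot H δ) 0 a) hx)
      exact ⟨h1, h1.lt⟩
    · rintro y ⟨hy, -⟩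
      obtain ⟨x', h1, rfl⟩ := hull_pull_en (A := Iio 0 ∪ ↑a) (B := Iio 0 ∪ ↑b) hH (by
        rintro z (hz | hz) -
        · exact absurd hz (by simp)
        · rw [← hb, Finset.coe_image] at hz
          obtain ⟨w, hw, rfl⟩ := hz
          exact ⟨w, Hull.base (Or.inr hw) (ha w hw), rfl⟩) le_rfl hy
      obtain ⟨x, hx, rfl⟩ := en_surj (X := hl (ot H δ) 0 a) h1 h1.lt
      exact ⟨x, hx, rfl⟩
  obtain ⟨e1, e2⟩ := en_unique ((en_strictMono.comp en_strictMono).strictMonoOn _) h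
  intro x hx
  exact e2 x (e1 ▸ hx)

/-- The set guessed from a code, a countable height and a parameter. -/
def diaDec (m : Ordinal.{u}) (bd : Ordinal.{u} → Set Ordinal.{u})
    (fn : Ordinal.{u} → Ordinal.{u} → Finset Ordinal.{u} × Ordinal.{u}) (N : Set Ordinal.{u})
    (t : Ordinal.{u} × Ordinal.{u} × Finset Ordinal.{u}) : Set Ordinal.{u} :=
  {x ∈ N | ∃ i ∈ N, i < ω₁ ∧ ∃ ab : Finset Ordinal.{u}, ab.image (en N m) = (fn t.1 i).1 ∧
    x ∈ bd (en N m (sg t.2.1 0 (ab ∪ t.2.2) (fn t.1 i).2))}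

theorem diamond_ord {m θ : Ordinal.{u}} (h1 : ω₁ ≤ m)
    (c : Ordinal.{u} → Ordinal.{u}) (hc : ∀ x < m, ∃ i < ω₁, x < c i)
    (bd : Ordinal.{u} → Set Ordinal.{u})
    (hbd : ∀ D : Set Ordinal.{u}, ∀ i < ω₁, ∃ ξ < m, bd ξ = D ∩ Iio (c i))
    (fn : Ordinal.{u} → Ordinal.{u} → Finset Ordinal.{u} × Ordinal.{u})
    (hfn : ∀ s : Ordinal.{u} → Finset Ordinal.{u} × Ordinal.{u},
      (∀ i < ω₁, (∀ x ∈ (s i).1, x < θ) ∧ (s i).2 < ω₁) → ∃ η < m, ∀ i < ω₁, fn η i = s i)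
    (hθ : θ ≤ m)
    (cov : ∀ X : Set Ordinal.{u}, X ⊆ Iio m → #X ≤ ℵ₁ → ∃ δ γ q, γ < θ ∧ X ⊆ hl δ γ q) :
    ∃ A : Set Ordinal.{u} → Set (Set Ordinal.{u}), (∀ N, (A N).Countable) ∧
      ∀ D : Set Ordinal.{u}, ∃ F : Finset Ordinal.{u} → Set Ordinal.{u},
        (∀ a, (F a).Countable) ∧ (∀ a, F a ⊆ Iio m) ∧
        ∀ N : Set Ordinal.{u}, N.Countable → N ⊆ Iio m → Nec.Closed F N → D ∩ N ∈ A N := by
  obtain ⟨b, b1, b2⟩ := exists_bound.{u}
  refine ⟨fun N => diaDec m bd fn N '' {t | N.Countable ∧ t.1 ∈ N ∧ t.2.1 < b (sInf Nᶜ) (ot N m) ∧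
    ↑t.2.2 ⊆ Iio (b (sInf Nᶜ) (ot N m))}, fun N => Countable.image ?_ _, fun D => ?_⟩
  · by_cases hN : N.Countable
    · have hB := dia_cnt (b1 _ (dia_inf hN).1 _ (ot_lt_omega1 (δ := m) hN))
      have hB' : {q : Finset Ordinal.{u} | ↑q ⊆ Iio (b (sInf Nᶜ) (ot N m))}.Countable :=
        ((countable_ofPred_finite_subset hB).preimage Finset.coe_injective).mono
          fun q hq => And.intro q.finite_toSet hq
      exact (hN.prod (hB.prod hB')).mono fun t ht => And.intro ht.2.1 (And.intro ht.2.2.1 ht.2.2.2)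
    · exact countable_empty.mono fun t ht => hN ht.1
  choose! ξ x1 x2 using hbd D
  obtain ⟨δ0, γ, q0, hγ, hX⟩ := cov (ξ '' Iio ω₁) (by
    rintro _ ⟨i, hi, rfl⟩
    exact x1 i hi) (mk_image_le.trans dia_mk.le)
  obtain ⟨δ, q, hm, hq, hX'⟩ : ∃ (δ : Ordinal.{u}) (q : Finset Ordinal.{u}), m ≤ δ ∧
      (∀ x ∈ q, x < δ) ∧ ∀ i < ω₁, Hull δ (Iio γ ∪ ↑q) (ξ i) := by
    refine ⟨max δ0 m, q0.filter (· < δ0), le_max_right _ _,
      fun x hx => (Finset.mem_filter.1 hx).2.trans_le (le_max_left _ _), fun i hi => ?_⟩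
    refine Hull.trans (hX ⟨i, hi, rfl⟩) (le_max_left _ _) ?_
    rintro a (ha | ha) ha'
    · exact Hull.base (Or.inl ha) (ha'.trans_le (le_max_left _ _))
    · exact Hull.base (Or.inr (Finset.mem_filter.2 ⟨ha, ha'⟩)) (ha'.trans_le (le_max_left _ _))
  have hs : ∀ i < ω₁, ∃ s : Finset Ordinal.{u} × Ordinal.{u}, ↑s.1 ⊆ Iio γ ∧
      s.2 < og δ 0 (s.1 ∪ q) ∧ sg δ 0 (s.1 ∪ q) s.2 = ξ i := fun i hi => by
    obtain ⟨a, ha, h⟩ := (hX' i hi).finite_union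
    obtain ⟨j, hj, hj'⟩ := en_surj (X := hl δ 0 (a ∪ q)) (δ := δ)
      (h.mono le_rfl (by rw [Finset.coe_union]; exact subset_union_right)) h.lt
    exact ⟨(a, j), ha, hj, hj'⟩
  choose! s s1 s2 s3 using hs
  obtain ⟨η, hη, hη'⟩ := hfn s fun i hi => ⟨fun x hx => lt_trans (s1 i hi hx) hγ,
    (s2 i hi).trans (ot_lt_omega1 (Hull.countable δ ((dia_cnt (omega_pos 1)).union
      (Finset.countable_toSet _))))⟩
  obtain ⟨F, F1, F2, F3⟩ := b2 m δ q h1 hm hq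
  choose! ι i1 i2 using hc
  refine ⟨fun a => F a ∪ insert η (ι '' (↑a ∩ Iio m) ∪
      ⋃ i ∈ (↑a ∩ Iio ω₁ : Set Ordinal.{u}), ↑(s i).1),
    fun a => (F1 a).union ((((a.countable_toSet.mono inter_subset_left).image _).union
      ((a.countable_toSet.mono inter_subset_left).biUnion
        fun i _ => Finset.countable_toSet _)).insert _),
    fun a => union_subset (F2 a) (insert_subset hη (union_subset ?_
      (iUnion₂_subset fun i hi y hy => (lt_trans (s1 i hi.2 hy) hγ).trans_le hθ))),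
    fun N hN hNm hF => ?_⟩
  · rintro _ ⟨x, hx, rfl⟩
    exact (i1 x hx.2).trans_le h1
  obtain ⟨h, hb⟩ := F3 N hN hNm fun a ha => subset_union_left.trans (hF a ha)
  obtain ⟨c1, c2, c3⟩ := dia_cut hm (dia_hullN hm h)
  obtain ⟨pb, p1, p2⟩ := dia_pre hq N
  have hsN : ∀ i ∈ N, i < ω₁ → ↑(s i).1 ⊆ N := fun i hi hi' y hy =>
    hF {i} (by simpa using hi) (Or.inr (Or.inr (Or.inr (mem_biUnion (x := i) ⟨by simp, hi'⟩ hy))))
  have key : ∀ i ∈ N, i < ω₁ → ∀ ab : Finset Ordinal.{u}, ab.image (en N m) = (s i).1 →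
      en N m (sg (ot {x | Hull δ (N ∪ ↑q) x} δ) 0 (ab ∪ pb) (s i).2) = ξ i := by
    intro i hi hi' ab hab
    have k1 : ∀ y ∈ ab, y < ot N m := fun y hy =>
      en_lt_iff.1 (hNm (hsN i hi hi' (hab ▸ Finset.mem_image_of_mem _ hy)))
    have k2 := dia_comm (hclosed_hull δ (N ∪ ↑q)) (a := ab ∪ pb) (b := (s i).1 ∪ q)
      (fun y hy => (Finset.mem_union.1 hy).elim (fun hy => (k1 y hy).trans_le c1) (p1 y))
      (by rw [Finset.image_union, p2, ← hab, Finset.image_congr fun y hy => c2 y (k1 y hy)])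
      _ (s2 i hi')
    rw [s3 i hi'] at k2
    rw [← c2 _ (c3 _ (k2 ▸ x1 i hi')), k2]
  refine ⟨(η, ot {x | Hull δ (N ∪ ↑q) x} δ, pb), ⟨hN, hF ∅ (by simp) (Or.inr (Or.inl rfl)), hb,
    fun y hy => (p1 y hy).trans hb⟩, Subset.antisymm ?_ ?_⟩
  · rintro x ⟨hx, i, hi, hi', ab, hab, hx'⟩
    dsimp only at hab hx'
    rw [hη' i hi'] at hab hx'
    rw [key i hi hi' ab hab, x2 i hi'] at hx'
    exact ⟨hx'.1, hx⟩
  · rintro x ⟨hxD, hx⟩
    have hi : ι x ∈ N := hF {x} (by simpa using hx)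
      (Or.inr (Or.inr (Or.inl ⟨x, ⟨by simp, hNm hx⟩, rfl⟩)))
    have hi' := i1 x (hNm hx)
    obtain ⟨ab, -, hab⟩ := exists_preimage_finset (X := N) (δ := m) (q := (s (ι x)).1)
      fun y hy => ⟨hsN _ hi hi' hy, hNm (hsN _ hi hi' hy)⟩
    refine ⟨hx, ι x, hi, hi', ab, ?_, ?_⟩
    · dsimp only
      rw [hη' _ hi', hab]
    · dsimp only
      rw [hη' _ hi', key _ hi hi' ab hab, x2 _ hi']
      exact ⟨hxD, i2 x (hNm hx)⟩

end Pool.Agent.Lib.MP_0fa4a2_gt.Lc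
end

-- part Pool.Agent.Lib.MP_0fa4a2_gt.LcBeth
section

/-!
The hypotheses of the combinatorial theorem at the cardinal `ℶ_ω₁`.
-/

namespace Pool.Agent.Lib.MP_0fa4a2_gt.Lc

open Set Cardinal Ordinal

universe u

theorem beth_lim : Order.IsSuccLimit (ω₁ : Ordinal.{u}) := by
  rw [← ord_aleph]
  exact isSuccLimit_ord (aleph0_le_aleph 1)

theorem beth_sl : IsStrongLimit (ℶ_ (ω₁ : Ordinal.{u})) :=
  isStrongLimit_beth.2 beth_lim.isSuccPrelimit

theorem beth_cof : (ℶ_ (ω₁ : Ordinal.{u})).ord.cof = ℵ₁ := by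
  have h := cof_map_of_isNormal (isNormal_ord.comp isNormal_beth) (beth_lim.{u})
  rw [cof_omega_one] at h
  exact h

theorem beth_cont_lt : (𝔠 : Cardinal.{u}) < ℶ_ (ω₁ : Ordinal.{u}) := by
  rw [← beth_one, beth_lt_beth]
  simpa using beth_lim.{u}.succ_lt beth_lim.{u}.pos

theorem beth_one_lt : (ℵ₁ : Cardinal.{u}) < ℶ_ (ω₁ : Ordinal.{u}) :=
  aleph_one_le_continuum.trans_lt beth_cont_lt

theorem beth_pow : (ℶ_ (ω₁ : Ordinal.{u})) ^ (ℵ₀ : Cardinal.{u}) = ℶ_ (ω₁ : Ordinal.{u}) := by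
  refine le_antisymm ?_ (self_le_power _ one_le_aleph0)
  set μ : Cardinal.{u} := ℶ_ (ω₁ : Ordinal.{u}) with hμ
  have h0 : ℵ₀ ≤ μ := aleph0_le_beth _
  have hβ : #(ULift.{u} ℕ × μ.out) = μ := by
    simp only [mk_prod, mk_uLift, mk_nat, lift_aleph0, Cardinal.lift_id, mk_out]
    exact aleph0_mul_eq h0
  have h1 := mk_subset_mk_lt_cof (α := ULift.{u} ℕ × μ.out) (by rw [hβ]; exact beth_sl.2)
  rw [hβ, beth_cof] at h1
  have h2 : μ ^ (ℵ₀ : Cardinal.{u}) = #(ULift.{u} ℕ → μ.out) := by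
    simp only [mk_pi, prod_const, mk_uLift, mk_nat, lift_aleph0, Cardinal.lift_id, mk_out]
  rw [h2]
  refine le_trans (mk_le_of_injective (f := fun f => ⟨range fun n => (n, f n),
    ((le_aleph0_iff_set_countable).2 (countable_range _)).trans_lt aleph0_lt_aleph_one⟩)
    fun f g hfg => ?_) h1.le
  funext n
  have h3 : (range fun n => (n, f n)) = range fun n => (n, g n) := congrArg Subtype.val hfg
  have h4 : (n, f n) ∈ range fun n => (n, g n) := h3 ▸ mem_range_self n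
  obtain ⟨k, hk⟩ := h4
  obtain ⟨rfl, h5⟩ := Prod.mk.inj hk
  exact h5.symm

theorem le_beth : 2 ^ (2 : Cardinal.{u}) ^ (ℵ₁ : Cardinal.{u}) ≤ ℶ_ (ω₁ : Ordinal.{u}) :=
  (beth_sl.2 (beth_sl.2 beth_one_lt)).le

theorem beth_club {M : Type u} (F : Finset M → Set M) (hF : ∀ a, (F a).Countable) :
    Nec.IsClubCt {N : Set M | N.Countable ∧ Nec.Closed F N} := by
  classical
  refine ⟨fun N hN => hN.1, fun N hN => ?_, fun N hm hN => ⟨countable_iUnion fun n => (hN n).1,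
    fun a ha => ?_⟩⟩
  · obtain ⟨cl, hcl⟩ := Nec.exists_cl F hF
    refine ⟨⋃ a ∈ {a : Finset M | ↑a ⊆ N}, cl a, ⟨?_, fun b hb => ?_⟩, fun x hx => ?_⟩
    · have h0 : {a : Finset M | ↑a ⊆ N}.Countable :=
        ((countable_ofPred_finite_subset hN).preimage Finset.coe_injective).mono
          fun a ha => And.intro a.finite_toSet ha
      exact h0.biUnion fun a _ => (hcl a).1
    · have h1 : ∀ x ∈ b, ∃ a : Finset M, ↑a ⊆ N ∧ x ∈ cl a := fun x hx => by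
        simpa using hb hx
      choose! g hg hg' using h1
      have h2 : (↑(b.biUnion g) : Set M) ⊆ N := by
        intro y hy
        obtain ⟨x, hx, hy'⟩ := Finset.mem_biUnion.1 hy
        exact hg x hx hy'
      refine ((hcl (b.biUnion g)).2.2.1 b fun x hx => ?_).trans
        (subset_biUnion_of_mem (u := cl) h2)
      refine (hcl (g x)).2.2.2 _ ?_ (hcl _).2.2.1 (hg' x hx)
      exact fun y hy => (hcl _).2.1 (Finset.mem_biUnion.2 ⟨x, hx, hy⟩)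
    · exact mem_biUnion (t := cl) (x := {x}) (by simpa using hx) ((hcl {x}).2.1 (by simp))
  · have h1 : ∀ x ∈ a, ∃ n, x ∈ N n := fun x hx => mem_iUnion.1 (ha hx)
    choose! g hg using h1
    exact ((hN (a.sup g)).2 a fun x hx => hm (Finset.le_sup hx) (hg x hx)).trans
      (subset_iUnion _ _)

theorem diamondStar_of_ord {M : Type u} (A : Set Ordinal.{u} → Set (Set Ordinal.{u}))
    (hA : ∀ N, (A N).Countable)
    (h : ∀ D : Set Ordinal.{u}, ∃ F : Finset Ordinal.{u} → Set Ordinal.{u},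
      (∀ a, (F a).Countable) ∧ (∀ a, F a ⊆ Iio (#M).ord) ∧
      ∀ N : Set Ordinal.{u}, N.Countable → N ⊆ Iio (#M).ord → Nec.Closed F N → D ∩ N ∈ A N) :
    Nec.DiamondStar M := by
  classical
  obtain ⟨e⟩ : Nonempty (M ≃ Iio (#M).ord) := by
    rw [← Cardinal.lift_mk_eq', Cardinal.mk_Iio_ordinal, card_ord, Cardinal.lift_lift]
  let φ : M ↪ Ordinal.{u} := e.toEmbedding.trans (Function.Embedding.subtype _)
  have hφ : ∀ x, φ x < (#M).ord := fun x => (e x).2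
  have hφ' : ∀ y < (#M).ord, ∃ x, φ x = y := fun y hy =>
    ⟨e.symm ⟨y, hy⟩, congrArg Subtype.val (e.apply_symm_apply ⟨y, hy⟩)⟩
  refine ⟨fun N => (fun s => φ ⁻¹' s) '' A (φ '' N), fun N => (hA _).image _, fun D => ?_⟩
  obtain ⟨F, h1, h2, h3⟩ := h (φ '' D)
  refine ⟨_, beth_club (fun a => φ ⁻¹' F (a.map φ)) fun a => (h1 _).preimage φ.injective,
    fun N hN => ⟨φ '' D ∩ φ '' N, h3 _ (hN.1.image _) ?_ ?_, ?_⟩⟩
  · rintro _ ⟨x, -, rfl⟩
    exact hφ x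
  · intro a ha y hy
    obtain ⟨x, rfl⟩ := hφ' y (h2 a hy)
    have h4 : (a.preimage φ φ.injective.injOn).map φ = a := by
      ext z
      simp only [Finset.mem_map, Finset.mem_preimage]
      constructor
      · rintro ⟨w, hw, rfl⟩
        exact hw
      · intro hz
        obtain ⟨w, -, rfl⟩ := ha hz
        exact ⟨w, hz, rfl⟩
    refine mem_image_of_mem _ (hN.2 (a.preimage φ φ.injective.injOn) (fun w hw => ?_) ?_)
    · obtain ⟨w', hw', he⟩ := ha (Finset.mem_preimage.1 hw)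
      exact φ.injective he ▸ hw'
    · show φ x ∈ F _
      rw [h4]
      exact hy
  · show φ ⁻¹' (φ '' D ∩ φ '' N) = D ∩ N
    rw [preimage_inter, preimage_image_eq _ φ.injective, preimage_image_eq _ φ.injective]

theorem beth_surj {T : Type (u + 1)} [Nonempty T] (S : Set T) {c : Cardinal.{u}}
    (h : #S ≤ Cardinal.lift.{u + 1} c) :
    ∃ g : Ordinal.{u} → T, ∀ s ∈ S, ∃ ξ < c.ord, g ξ = s := by
  have h1 : #S ≤ #(Iio c.ord) := by rwa [Cardinal.mk_Iio_ordinal, card_ord]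
  obtain ⟨e⟩ := h1
  have h2 : Function.Injective fun s : S => (e s).1 := Subtype.val_injective.comp e.injective
  exact ⟨Function.extend (fun s : S => (e s).1) Subtype.val fun _ => Classical.arbitrary T,
    fun s hs => ⟨_, (e ⟨s, hs⟩).2, h2.extend_apply _ _ ⟨s, hs⟩⟩⟩

theorem beth_bd : ∃ bd : Ordinal.{u} → Set Ordinal.{u}, ∀ D : Set Ordinal.{u}, ∀ i < ω₁,
    ∃ ξ < (ℶ_ (ω₁ : Ordinal.{u})).ord, bd ξ = D ∩ Iio (ℶ_ i).ord := by
  obtain ⟨g, hg⟩ := beth_surj (⋃ i : Iio (ω₁ : Ordinal.{u}), 𝒫 (Iio (ℶ_ i.1).ord))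
    (c := ℶ_ (ω₁ : Ordinal.{u})) (by
      refine (mk_iUnion_le _).trans ?_
      have h0 : ℵ₀ ≤ Cardinal.lift.{u + 1} (ℶ_ (ω₁ : Ordinal.{u})) :=
        aleph0_le_lift.2 (aleph0_le_beth _)
      refine (mul_le_mul' ?_ ?_).trans (mul_eq_self h0).le
      · rw [Cardinal.mk_Iio_ordinal, card_omega]
        exact Cardinal.lift_le.2 beth_one_lt.le
      · refine ciSup_le' fun i => ?_
        rw [mk_powerset, Cardinal.mk_Iio_ordinal, card_ord, ← Cardinal.lift_two_power]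
        exact Cardinal.lift_le.2 (beth_sl.2 (beth_lt_beth.2 i.2)).le)
  exact ⟨g, fun D i hi => hg _ (mem_iUnion.2 ⟨⟨i, hi⟩, inter_subset_right⟩)⟩

theorem beth_succ_lt : Order.succ (𝔠 : Cardinal.{u}) < ℶ_ (ω₁ : Ordinal.{u}) :=
  (Order.succ_le_of_lt (cantor _)).trans_lt (beth_sl.2 beth_cont_lt)

theorem beth_fn : ∃ fn : Ordinal.{u} → Ordinal.{u} → Finset Ordinal.{u} × Ordinal.{u},
    ∀ s : Ordinal.{u} → Finset Ordinal.{u} × Ordinal.{u},
      (∀ i < ω₁, (∀ x ∈ (s i).1, x < (Order.succ (𝔠 : Cardinal.{u})).ord) ∧ (s i).2 < ω₁) →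
      ∃ η < (ℶ_ (ω₁ : Ordinal.{u})).ord, ∀ i < ω₁, fn η i = s i := by
  classical
  set l : Cardinal.{u} := Order.succ (𝔠 : Cardinal.{u}) with hl
  have h1 : ℵ₁ ≤ l := aleph_one_le_continuum.trans (Order.le_succ _)
  have h0 : ℵ₀ ≤ l := aleph0_lt_aleph_one.le.trans h1
  have hI : #(Iio l.ord) = Cardinal.lift.{u + 1} l := by rw [Cardinal.mk_Iio_ordinal, card_ord]
  have hJ : #(Iio (ω₁ : Ordinal.{u})) = Cardinal.lift.{u + 1} (ℵ₁ : Cardinal.{u}) := by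
    rw [Cardinal.mk_Iio_ordinal, card_omega]
  have : Infinite (Iio l.ord) := by
    rw [Cardinal.infinite_iff, hI]
    exact aleph0_le_lift.2 h0
  have : Nonempty (Iio (ω₁ : Ordinal.{u})) := ⟨⟨0, beth_lim.pos⟩⟩
  obtain ⟨g, hg⟩ := beth_surj
    (univ : Set (Iio (ω₁ : Ordinal.{u}) → Finset (Iio l.ord) × Iio (ω₁ : Ordinal.{u})))
    (c := ℶ_ (ω₁ : Ordinal.{u})) (by
      rw [mk_univ, ← power_def, mk_prod, Cardinal.lift_id, Cardinal.lift_id,
        mk_finset_of_infinite, hI, hJ, ← Cardinal.lift_mul, ← Cardinal.lift_power,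
        Cardinal.lift_le, mul_eq_left h0 h1 (aleph_pos 1).ne']
      refine (power_le_power_left (aleph0_pos.trans_le h0).ne' h1).trans ?_
      rw [power_self_eq h0]
      exact (beth_sl.2 beth_succ_lt).le)
  refine ⟨fun η i => if h : i < ω₁ then
    ((g η ⟨i, h⟩).1.map (Function.Embedding.subtype _), (g η ⟨i, h⟩).2.1) else (∅, 0),
    fun s hs => ?_⟩
  obtain ⟨η, hη, he⟩ := hg (fun i => ((s i.1).1.subtype (· ∈ Iio l.ord), ⟨(s i.1).2, (hs _ i.2).2⟩))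
    (mem_univ _)
  refine ⟨η, hη, fun i hi => ?_⟩
  simp only [dif_pos hi, he]
  exact Prod.ext (Finset.subtype_map_of_mem (hs i hi).1) rfl

theorem diamondStar_beth (hno : ¬ ∃ κ : Ordinal.{u}, MahloM κ) :
    Nec.DiamondStar (ℶ_ (ω₁ : Ordinal.{u})).out := by
  obtain ⟨bd, hbd⟩ := beth_bd.{u}
  obtain ⟨fn, hfn⟩ := beth_fn.{u}
  obtain ⟨A, hA, h⟩ := diamond_ord (m := (ℶ_ (ω₁ : Ordinal.{u})).ord)
    (θ := (Order.succ (𝔠 : Cardinal.{u})).ord)
    ((ord_aleph 1).symm.le.trans (ord_le_ord.2 beth_one_lt.le)) (fun i => (ℶ_ i).ord)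
    (fun x hx => by
      obtain ⟨i, hi, hx'⟩ := (isNormal_beth.lt_iff_exists_lt beth_lim).1 (lt_ord.1 hx)
      exact ⟨i, hi, lt_ord.2 hx'⟩)
    bd hbd fn hfn (ord_le_ord.2 beth_succ_lt.le)
    (fun X hX hc => cover hno aleph_one_le_continuum continuum_power_aleph0 _ X hX
      (by rw [lift_continuum]; exact hc.trans aleph_one_le_continuum))
  exact diamondStar_of_ord A hA (by rw [mk_out]; exact h)

end Pool.Agent.Lib.MP_0fa4a2_gt.Lc
end
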