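import Pool.Agent.Lib.MP_783f50_lc.Defs

/-!
Mahlo cardinals, read inside a structure `(M, E)`.
-/

namespace Pool.Agent.Lib.MP_0fa4a2_gt.Lc

open Pool.Agent.Lib.MP_2739cb_lc Pool.Agent.Lib.MP_783f50_lc

universe v

variable {M : Type v} (E : M → M → Prop)

/-- `κ` is an infinite regular cardinal. -/
def IsRegularCard (κ : M) : Prop := IsInfCard E κ ∧ ¬ IsSingular E κ

/-- `κ` is an uncountable regular strong limit cardinal and every club of `κ` contains a regular
cardinal. -/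
def IsMahlo (κ : M) : Prop :=
  IsRegularCard E κ ∧ (∃ w, IsOmega E w ∧ E w κ) ∧ IsStrongLimit E κ ∧
    ∀ C, MP_783f50_lc.IsClub E κ C → ∃ ν, E ν C ∧ IsRegularCard E ν

end Pool.Agent.Lib.MP_0fa4a2_gt.Lc
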