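import Pool.Agent.Lib.MP_0fa4a2_gt.LcReg

-- part Pool.Agent.Lib.MP_0fa4a2_gt.LcW
section

/-!
The inner model of all values; the easy axioms.
-/

namespace Pool.Agent.Lib.MP_0fa4a2_gt.Lc

open Set Cardinal Ordinal
open Pool.Agent.Lib.MP_2739cb_lc

universe u

/-- The inner model. -/
def WW : Set ZFSet.{u} := range val

/-- Membership in the inner model. -/
def EW (a b : WW.{u}) : Prop := a.1 ∈ b.1

/-- The value of a name as an element of the inner model. -/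
noncomputable def vw (x : Ordinal.{u}) : WW.{u} := ⟨val x, x, rfl⟩

theorem w_finEnv_zero (l : Ordinal.{u}) : FinEnv l fun _ => 0 :=
  ⟨by simp, fun _ h => absurd rfl h⟩

theorem vw_surj (a : WW.{u}) : ∃ x, vw x = a := by
  obtain ⟨_, x, rfl⟩ := a
  exact ⟨x, rfl⟩

theorem WW_trans {x y : ZFSet.{u}} (hx : x ∈ WW) (hy : y ∈ x) : y ∈ WW := by
  obtain ⟨a, rfl⟩ := hx
  obtain ⟨z, -, hz⟩ := exists_name_lt hy
  exact ⟨z, hz⟩

theorem ord_mem_WW (o : Ordinal.{u}) : o.toZFSet ∈ WW := ⟨_, val_onm o⟩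

theorem W_ext (x y : WW.{u}) (h : ∀ z, EW z x ↔ EW z y) : x = y := by
  refine Subtype.ext (ZFSet.ext fun z => ⟨fun hz => ?_, fun hz => ?_⟩)
  · exact (h ⟨z, WW_trans x.2 hz⟩).1 hz
  · exact (h ⟨z, WW_trans y.2 hz⟩).2 hz

theorem W_found (x : WW.{u}) (h : ∃ y, EW y x) : ∃ y, EW y x ∧ ∀ z, EW z y → ¬ EW z x := by
  obtain ⟨y, hy⟩ := h
  have hne : x.1 ≠ ∅ := fun h0 => ZFSet.notMem_empty y.1 (h0 ▸ hy)
  obtain ⟨t, ht, h0⟩ := ZFSet.regularity x.1 hne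
  refine ⟨⟨t, WW_trans x.2 ht⟩, ht, fun z hz hzx => ?_⟩
  have : z.1 ∈ x.1 ∩ t := ZFSet.mem_inter.2 ⟨hzx, hz⟩
  rw [h0] at this
  exact ZFSet.notMem_empty _ this

theorem W_pair (x y : WW.{u}) : ∃ w, ∀ z, EW z w ↔ z = x ∨ z = y := by
  obtain ⟨a, rfl⟩ := vw_surj x
  obtain ⟨b, rfl⟩ := vw_surj y
  obtain ⟨l, hl, h⟩ := exists_lev_gt (max a b)
  have ha : a < l := (le_max_left a b).trans_lt h
  have hb : b < l := (le_max_right a b).trans_lt h
  obtain ⟨n, -, hn⟩ := ((Dfn.eq 0 1).or (Dfn.eq 0 2)).exists_name hl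
    (((w_finEnv_zero l).push hb).push ha)
  refine ⟨vw n, fun z => (hn z.1).trans ⟨?_, ?_⟩⟩
  · rintro ⟨t, -, h1 | h1, h2⟩
    · exact Or.inl (Subtype.ext (h2.symm.trans h1))
    · exact Or.inr (Subtype.ext (h2.symm.trans h1))
  · rintro (rfl | rfl)
    · exact ⟨a, ha, Or.inl rfl, rfl⟩
    · exact ⟨b, hb, Or.inr rfl, rfl⟩

theorem W_union (x : WW.{u}) : ∃ w, ∀ z, EW z w ↔ ∃ y, EW y x ∧ EW z y := by
  obtain ⟨a, rfl⟩ := vw_surj x
  obtain ⟨l, hl, ha⟩ := exists_lev_gt a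
  obtain ⟨n, -, hn⟩ := ((Dfn.mem 0 2).and (Dfn.mem 1 0)).ex.exists_name hl
    ((w_finEnv_zero l).push ha)
  refine ⟨vw n, fun z => (hn z.1).trans ⟨?_, ?_⟩⟩
  · rintro ⟨t, -, ⟨s, -, h1, h2⟩, h3⟩
    exact ⟨vw s, h1, (h3 ▸ h2 : z.1 ∈ val s)⟩
  · rintro ⟨y, h1, h2⟩
    obtain ⟨s, hs, e1⟩ := exists_name_lt (ξ := a) h1
    have h2' : z.1 ∈ val s := e1 ▸ h2
    obtain ⟨t, ht, e2⟩ := exists_name_lt h2'
    refine ⟨t, ht.trans (hs.trans ha), ⟨s, hs.trans ha, ?_, ?_⟩, e2⟩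
    · change val s ∈ val a
      rw [e1]
      exact h1
    · change val t ∈ val s
      rw [e2]
      exact h2'

theorem W_power (x : WW.{u}) : ∃ w, ∀ z, EW z w ↔ ∀ t, EW t z → EW t x := by
  obtain ⟨a, rfl⟩ := vw_surj x
  have hsm : Small.{u} {s : WW.{u} // s.1 ⊆ val a} :=
    small_of_injective (β := (val a).powerset)
      (f := fun s => ⟨s.1.1, ZFSet.mem_powerset.2 s.2⟩) fun _ _ h =>
        Subtype.ext (Subtype.ext (congrArg (fun t : (val a).powerset => t.1) h))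
  choose nm hnm using fun s : {s : WW.{u} // s.1 ⊆ val a} => vw_surj s.1
  obtain ⟨l0, -, -, hb0⟩ := exists_lev_bound nm
  obtain ⟨l, hl, h0⟩ := exists_lev_gt (max a l0)
  have ha : a < l := (le_max_left a l0).trans_lt h0
  have hb : ∀ s, nm s < l := fun s => (hb0 s).trans ((le_max_right a l0).trans_lt h0)
  obtain ⟨n, -, hn⟩ := (Dfn.subset 0 1).exists_name hl ((w_finEnv_zero l).push ha)
  refine ⟨vw n, fun z => (hn z.1).trans ⟨?_, ?_⟩⟩
  · rintro ⟨t, -, h1, h2⟩ s hs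
    have h3 : z.1 ⊆ val a := h2 ▸ h1
    exact h3 hs
  · intro h
    have h3 : z.1 ⊆ val a := fun s hs => h ⟨s, WW_trans z.2 hs⟩ hs
    have e : val (nm ⟨z, h3⟩) = z.1 := congrArg Subtype.val (hnm ⟨z, h3⟩)
    refine ⟨nm ⟨z, h3⟩, hb _, ?_, e⟩
    change val (nm ⟨z, h3⟩) ⊆ val a
    rw [e]
    exact h3

theorem W_inf : ∃ w : WW.{u}, (∃ e, EW e w ∧ ∀ z, ¬ EW z e) ∧
    ∀ y, EW y w → ∃ s, EW s w ∧ ∀ z, EW z s ↔ EW z y ∨ z = y := by
  refine ⟨⟨_, ord_mem_WW ω⟩, ⟨⟨_, ord_mem_WW 0⟩, ?_, fun z hz => ?_⟩, fun y hy => ?_⟩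
  · exact Ordinal.mem_toZFSet_iff.2 ⟨0, Ordinal.omega0_pos, rfl⟩
  · obtain ⟨b, hb, -⟩ := Ordinal.mem_toZFSet_iff.1 hz
    exact absurd hb (not_lt_zero)
  · obtain ⟨b, hb, e⟩ := Ordinal.mem_toZFSet_iff.1 hy
    refine ⟨⟨_, ord_mem_WW (b + 1)⟩, ?_, fun z => ?_⟩
    · exact Ordinal.mem_toZFSet_iff.2
        ⟨b + 1, Ordinal.isSuccLimit_omega0.add_one_lt hb, rfl⟩
    · change z.1 ∈ (b + 1).toZFSet ↔ z.1 ∈ y.1 ∨ z = y
      rw [← e, Ordinal.toZFSet_add_one, ZFSet.mem_insert_iff, or_comm, e]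
      exact or_congr Iff.rfl Subtype.ext_iff.symm

theorem W_choice (x : WW.{u}) (h1 : ∀ y, EW y x → ∃ z, EW z y)
    (h2 : ∀ y y', EW y x → EW y' x → (∃ z, EW z y ∧ EW z y') → y = y') :
    ∃ c, ∀ y, EW y x → ∃! z, EW z y ∧ EW z c := by
  obtain ⟨a, rfl⟩ := vw_surj x
  obtain ⟨l, hl, ha⟩ := exists_lev_gt a
  obtain ⟨n, -, hn⟩ := ((Dfn.mem 0 2).and ((Dfn.mem 1 0).and
    ((Dfn.mem 0 1).imp (Dfn.lt 0 2).not).all)).ex.exists_name hl ((w_finEnv_zero l).push ha)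
  refine ⟨vw n, fun y hy => ?_⟩
  obtain ⟨s, hs, e1⟩ := exists_name_lt (ξ := a) hy
  obtain ⟨z, hz⟩ := h1 y hy
  have hz' : z.1 ∈ val s := e1 ▸ hz
  obtain ⟨t, ht, e2⟩ := exists_name_lt hz'
  have hne : {r : Ordinal.{u} | val r ∈ y.1}.Nonempty := ⟨t, by
    change val t ∈ y.1
    rw [e2]
    exact hz⟩
  have hm : val (sInf {r : Ordinal.{u} | val r ∈ y.1}) ∈ y.1 := csInf_mem hne
  have hle : ∀ r : Ordinal.{u}, val r ∈ y.1 → sInf {r : Ordinal.{u} | val r ∈ y.1} ≤ r :=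
    fun r hr => csInf_le' hr
  generalize sInf {r : Ordinal.{u} | val r ∈ y.1} = m at hm hle
  have hml : m < l := (hle t (by rw [e2]; exact hz)).trans_lt (ht.trans (hs.trans ha))
  refine ⟨vw m, ⟨hm, (hn _).2 ⟨m, hml, ⟨s, hs.trans ha, ?_, ?_, fun r _ hr => ?_⟩, rfl⟩⟩, ?_⟩
  · change val s ∈ val a
    rw [e1]
    exact hy
  · change val m ∈ val s
    rw [e1]
    exact hm
  · change val r ∈ val s at hr
    rw [e1] at hr
    exact not_lt.2 (hle r hr)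
  · rintro q ⟨hq1, hq2⟩
    obtain ⟨r, -, ⟨s', -, g1, g2, g3⟩, e3⟩ := (hn q.1).1 hq2
    change val s' ∈ val a at g1
    change val r ∈ val s' at g2
    have e4 : y = vw s' := h2 y (vw s') hy g1 ⟨q, hq1, (e3 ▸ g2 : q.1 ∈ val s')⟩
    have e5 : y.1 = val s' := congrArg Subtype.val e4
    have g4 : ¬ m < r := g3 m hml (by
      change val m ∈ val s'
      rw [← e5]
      exact hm)
    have g5 : m ≤ r := hle r (by rw [e5]; exact g2)
    have e6 : r = m := le_antisymm (not_lt.1 g4) g5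
    exact Subtype.ext (by rw [← e3, e6]; rfl)

end Pool.Agent.Lib.MP_0fa4a2_gt.Lc
end

-- part Pool.Agent.Lib.MP_0fa4a2_gt.LcRefl
section

/-!
Reflection, separation and replacement in the inner model.
-/

namespace Pool.Agent.Lib.MP_0fa4a2_gt.Lc

open Set Cardinal Ordinal
open Pool.Agent.Lib.MP_2739cb_lc

universe u

/-- Satisfaction of a set-theoretic formula among the values of names below `l`. -/
def SatN (l : Ordinal.{u}) : Fml → (ℕ → Ordinal.{u}) → Prop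
  | .mem i j, v => val (v i) ∈ val (v j)
  | .eq i j, v => val (v i) = val (v j)
  | .bot, _ => False
  | .imp φ ψ, v => SatN l φ v → SatN l ψ v
  | .all φ, v => ∀ z < l, SatN l φ (push z v)

theorem dfn_satN (φ : Fml) : Dfn fun (l : Ordinal.{u}) v => SatN l φ v := by
  induction φ with
  | mem i j => exact Dfn.mem i j
  | eq i j => exact Dfn.eq i j
  | bot => exact Dfn.false
  | imp φ ψ h1 h2 => exact h1.imp h2
  | all φ h => exact h.all

theorem refl_push {M : Type*} {n : ℕ} {v v' : ℕ → M} (a : M) (h : ∀ i < n, v i = v' i) :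
    ∀ i < n, push a v i = push a v' i
  | 0, _ => rfl
  | i + 1, hi => h i (by omega)

theorem sat_finite {M : Type*} (E : M → M → Prop) (φ : Fml) :
    ∃ n, ∀ v v' : ℕ → M, (∀ i < n, v i = v' i) → (Sat E φ v ↔ Sat E φ v') := by
  induction φ with
  | mem i j =>
    refine ⟨max i j + 1, fun v v' h => ?_⟩
    change E (v i) (v j) ↔ E (v' i) (v' j)
    rw [h i (by omega), h j (by omega)]
  | eq i j =>
    refine ⟨max i j + 1, fun v v' h => ?_⟩
    change v i = v j ↔ v' i = v' j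
    rw [h i (by omega), h j (by omega)]
  | bot => exact ⟨0, fun _ _ _ => Iff.rfl⟩
  | imp φ ψ h1 h2 =>
    obtain ⟨m, hm⟩ := h1
    obtain ⟨n, hn⟩ := h2
    exact ⟨max m n, fun v v' h => imp_congr (hm v v' fun i hi => h i (by omega))
      (hn v v' fun i hi => h i (by omega))⟩
  | all φ h1 =>
    obtain ⟨n, hn⟩ := h1
    exact ⟨n, fun v v' h => forall_congr' fun a => hn _ _ (refl_push a h)⟩

theorem refl_bound {l : Ordinal.{u}} (hl : 0 < l) {v : ℕ → Ordinal.{u}} (hv : FinEnv l v) :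
    ∃ ξ < l, ∀ i, v i ≤ ξ := by
  have hf : (range v).Finite := by
    refine ((hv.1.image v).insert 0).subset ?_
    rintro _ ⟨i, rfl⟩
    by_cases h : v i = 0
    · exact Or.inl h
    · exact Or.inr ⟨i, h, rfl⟩
  obtain ⟨_, ⟨i, rfl⟩, hi⟩ := Set.exists_max_image (range v) id hf (range_nonempty v)
  exact ⟨v i, hv.lt hl i, fun j => hi _ ⟨j, rfl⟩⟩

theorem refl_fun (φ : Fml) : ∃ G : Ordinal.{u} → Ordinal.{u}, ∀ l, 0 < l → (∀ ξ < l, G ξ < l) →
    ∀ v, FinEnv l v → (Sat EW φ (vw ∘ v) ↔ SatN l φ v) := by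
  induction φ with
  | mem i j => exact ⟨id, fun _ _ _ _ _ => Iff.rfl⟩
  | eq i j => exact ⟨id, fun _ _ _ _ _ => Subtype.ext_iff⟩
  | bot => exact ⟨id, fun _ _ _ _ _ => Iff.rfl⟩
  | imp φ ψ h1 h2 =>
    obtain ⟨G, hG⟩ := h1
    obtain ⟨H, hH⟩ := h2
    exact ⟨fun ξ => max (G ξ) (H ξ), fun l hl hc v hv =>
      imp_congr (hG l hl (fun ξ hξ => (le_max_left _ _).trans_lt (hc ξ hξ)) v hv)
        (hH l hl (fun ξ hξ => (le_max_right _ _).trans_lt (hc ξ hξ)) v hv)⟩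
  | all φ h1 =>
    obtain ⟨G, hG⟩ := h1
    have hc : ∀ v : ℕ → Ordinal.{u}, ∃ z : Ordinal.{u},
        Sat EW φ (push (vw z) (vw ∘ v)) → ∀ a, Sat EW φ (push a (vw ∘ v)) := by
      intro v
      by_cases h : ∀ a, Sat EW φ (push a (vw ∘ v))
      · exact ⟨0, fun _ => h⟩
      · obtain ⟨a, ha⟩ := not_forall.1 h
        obtain ⟨z, rfl⟩ := vw_surj a
        exact ⟨z, fun h' => absurd h' ha⟩
    choose c hc using hc
    have hb : ∀ ξ : Ordinal.{u}, ∃ l : Ordinal.{u}, ∀ w : ℕ → Iic ξ, c (fun i => (w i).1) < l := by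
      intro ξ
      obtain ⟨l, -, -, hl⟩ := exists_lev_bound fun w : ℕ → Iic ξ => c fun i => (w i).1
      exact ⟨l, hl⟩
    choose H hH using hb
    refine ⟨fun ξ => max (G ξ) (H ξ), fun l hl hcl v hv => ?_⟩
    have hG' := hG l hl fun ξ hξ => (le_max_left _ _).trans_lt (hcl ξ hξ)
    constructor
    · intro h z hz
      rw [← hG' _ (hv.push hz), comp_push]
      exact h _
    · intro h
      obtain ⟨ξ, hξ, hvξ⟩ := refl_bound hl hv
      have hz : c v < l :=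
        (hH ξ fun i => ⟨v i, hvξ i⟩).trans ((le_max_right _ _).trans_lt (hcl ξ hξ))
      refine hc v ?_
      rw [← comp_push, hG' _ (hv.push hz)]
      exact h _ hz

theorem refl_closed (G : Ordinal.{u} → Ordinal.{u}) (β : Ordinal.{u}) :
    ∃ l, IsLev l ∧ β < l ∧ ∀ ξ < l, G ξ < l := by
  have hH : ∀ ξ : Ordinal.{u}, ∃ l, IsLev l ∧ ξ < l ∧ ∀ η ≤ ξ, G η < l := by
    intro ξ
    obtain ⟨l, hl, -, h⟩ := exists_lev_bound fun η : Iic ξ => max (G η.1) ξ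
    exact ⟨l, hl, (le_max_right _ _).trans_lt (h ⟨ξ, Set.mem_Iic.2 le_rfl⟩),
      fun η hη => (le_max_left _ _).trans_lt (h ⟨η, hη⟩)⟩
  choose H h1 h2 h3 using hH
  let a : ℕ → Ordinal.{u} := fun n => H^[n] β
  have ha : ∀ n, a (n + 1) = H (a n) := fun n => Function.iterate_succ_apply' H n β
  have hle : ∀ n, H (a n) ≤ ⨆ n, a n := fun n => (ha n).symm.trans_le (Ordinal.le_iSup a (n + 1))
  refine ⟨⨆ n, a n, isLev_of_limit fun ξ hξ => ?_, (h2 β).trans_le (hle 0), fun ξ hξ => ?_⟩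
  · obtain ⟨n, hn⟩ := Ordinal.lt_iSup_iff.1 hξ
    exact (nxt_le (h1 (a n)) (hn.trans (h2 _))).trans (hle n)
  · obtain ⟨n, hn⟩ := Ordinal.lt_iSup_iff.1 hξ
    exact (h3 (a n) ξ hn.le).trans_le (hle n)

theorem refl_names (n : ℕ) (v : ℕ → WW.{u}) : ∃ w : ℕ → Ordinal.{u},
    (Function.support w).Finite ∧ ∀ i < n, (vw ∘ w) i = v i := by
  choose nm hnm using vw_surj.{u}
  refine ⟨fun i => if i < n then nm (v i) else 0, (Set.finite_Iio n).subset fun i hi => ?_,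
    fun i hi => ?_⟩
  · by_contra h
    exact hi (if_neg h)
  · change vw (if i < n then nm (v i) else 0) = v i
    rw [if_pos hi, hnm]

theorem reflect (φ : Fml) (β : Ordinal.{u}) : ∃ l, IsLev l ∧ β < l ∧
    ∀ v, FinEnv l v → (Sat EW φ (vw ∘ v) ↔ SatN l φ v) := by
  obtain ⟨G, hG⟩ := refl_fun φ
  obtain ⟨l, hl, hβ, hc⟩ := refl_closed G β
  exact ⟨l, hl, hβ, hG l (lt_of_le_of_lt zero_le hβ) hc⟩

theorem W_sep (φ : Fml) (v : ℕ → WW.{u}) (x : WW.{u}) :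
    ∃ w, ∀ z, EW z w ↔ EW z x ∧ Sat EW φ (push z v) := by
  obtain ⟨n, hn⟩ := sat_finite EW.{u} φ
  obtain ⟨w, hw, hwv⟩ := refl_names n v
  obtain ⟨x, rfl⟩ := vw_surj x
  obtain ⟨β, -, -, hβ⟩ := exists_lev_bound (push x w)
  obtain ⟨l, hl, hβl, hr⟩ := reflect φ β
  have hwl : FinEnv l w := ⟨hw, fun i _ => (hβ (i + 1)).trans hβl⟩
  have hxl : x < l := (hβ 0).trans hβl
  have key : ∀ z < l, (SatN l φ (push z w) ↔ Sat EW φ (push (vw z) v)) := by
    intro z hz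
    rw [← hr _ (hwl.push hz), comp_push]
    exact hn _ _ (refl_push _ hwv)
  obtain ⟨y, -, hy⟩ := ((Dfn.mem 0 1).and
    ((dfn_satN φ).comp (push 0 fun i => i + 2))).exists_name hl (hwl.push hxl)
  have e : ∀ z : Ordinal.{u}, push z (push x w) ∘ (push 0 fun i => i + 2) = push z w := by
    intro z
    funext i
    cases i <;> rfl
  refine ⟨vw y, fun a => (hy a.1).trans ⟨?_, ?_⟩⟩
  · rintro ⟨z, hz, ⟨h1, h2⟩, h3⟩
    have ha : vw z = a := Subtype.ext h3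
    rw [e] at h2
    subst ha
    exact ⟨h1, (key z hz).1 h2⟩
  · rintro ⟨h1, h2⟩
    obtain ⟨z, hz, h3⟩ := exists_name_lt (ξ := x) h1
    have ha : vw z = a := Subtype.ext h3
    subst ha
    refine ⟨z, hz.trans hxl, ⟨h1, ?_⟩, rfl⟩
    rw [e]
    exact (key z (hz.trans hxl)).2 h2

theorem W_repl (φ : Fml) (v : ℕ → WW.{u}) (x : WW.{u})
    (h : ∀ a, EW a x → ∃! b, Sat EW φ (push b (push a v))) :
    ∃ w, ∀ b, EW b w ↔ ∃ a, EW a x ∧ Sat EW φ (push b (push a v)) := by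
  obtain ⟨n, hn⟩ := sat_finite EW.{u} φ
  obtain ⟨w, hw, hwv⟩ := refl_names n v
  obtain ⟨x, rfl⟩ := vw_surj x
  have hb : ∀ z : Ordinal.{u}, ∃ t : Ordinal.{u},
      EW (vw z) (vw x) → Sat EW φ (push (vw t) (push (vw z) v)) := by
    intro z
    by_cases hz : EW (vw z) (vw x)
    · obtain ⟨b, hb, -⟩ := h _ hz
      obtain ⟨t, rfl⟩ := vw_surj b
      exact ⟨t, fun _ => hb⟩
    · exact ⟨0, fun h' => absurd h' hz⟩
  choose t ht using hb
  obtain ⟨β, -, -, hβ⟩ := exists_lev_bound (push x w)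
  obtain ⟨γ, -, -, hγ⟩ := exists_lev_bound fun z : Iio x => t z.1
  obtain ⟨l, hl, hβl, hr⟩ := reflect φ (max β γ)
  have hwl : FinEnv l w :=
    ⟨hw, fun i _ => (hβ (i + 1)).trans ((le_max_left _ _).trans_lt hβl)⟩
  have hxl : x < l := (hβ 0).trans ((le_max_left _ _).trans_lt hβl)
  have key : ∀ s < l, ∀ z < l,
      (SatN l φ (push s (push z w)) ↔ Sat EW φ (push (vw s) (push (vw z) v))) := by
    intro s hs z hz
    rw [← hr _ ((hwl.push hz).push hs), comp_push, comp_push]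
    exact hn _ _ (refl_push _ (refl_push _ hwv))
  obtain ⟨y, -, hy⟩ := ((Dfn.mem 0 2).and
    ((dfn_satN φ).comp (push 1 (push 0 fun i => i + 3)))).ex.exists_name hl (hwl.push hxl)
  have e : ∀ s z : Ordinal.{u}, push z (push s (push x w)) ∘ (push 1 (push 0 fun i => i + 3)) =
      push s (push z w) := by
    intro s z
    funext i
    rcases i with _ | _ | i <;> rfl
  refine ⟨vw y, fun b => (hy b.1).trans ⟨?_, ?_⟩⟩
  · rintro ⟨s, hs, ⟨z, hz, h1, h2⟩, h3⟩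
    have ha : vw s = b := Subtype.ext h3
    rw [e] at h2
    subst ha
    exact ⟨vw z, h1, (key s hs z hz).1 h2⟩
  · rintro ⟨a, h1, h2⟩
    obtain ⟨z, hz, h3⟩ := exists_name_lt (ξ := x) h1
    have ha : vw z = a := Subtype.ext h3
    subst ha
    have hs : t z < l := (hγ ⟨z, hz⟩).trans ((le_max_right _ _).trans_lt hβl)
    have hbt : vw (t z) = b := (h _ h1).unique (ht z h1) h2
    refine ⟨t z, hs, ⟨z, hz.trans hxl, h1, ?_⟩, congrArg Subtype.val hbt⟩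
    rw [e]
    exact (key _ hs z (hz.trans hxl)).2 (ht z h1)

theorem W_zfc : IsZFC EW.{u} :=
  ⟨W_ext, W_found, W_pair, W_union, W_power, W_inf, W_sep, W_repl, W_choice⟩

end Pool.Agent.Lib.MP_0fa4a2_gt.Lc
end
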