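import Pool.Agent.Lib.MP_0fa4a2_gt.NecDefs

/-!
Stationary sets below a regular uncountable initial ordinal, in closure-point form.
-/

namespace Pool.Agent.Lib.MP_0fa4a2_gt.Nec

open Set Cardinal Ordinal

universe u

/-- `y` is the initial ordinal of a regular uncountable cardinal. -/
def Rg (y : Ordinal.{u}) : Prop := y.cof.ord = y ∧ ω₁ ≤ y

/-- `S` contains a closure point of every function `y → y`. -/
def St (S : Set Ordinal.{u}) (y : Ordinal.{u}) : Prop :=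
  ∀ h : Ordinal.{u} → Ordinal.{u}, (∀ ξ < y, h ξ < y) → ∃ δ ∈ S, δ < y ∧ ∀ ξ < δ, h ξ < δ

/-- `δ` has a countable cofinal subset. -/
def CtCof (δ : Ordinal.{u}) : Prop :=
  ∃ C : Set Ordinal.{u}, C.Countable ∧ C ⊆ Iio δ ∧ ∀ γ < δ, ∃ c ∈ C, γ ≤ c

/-- `δ` is a limit ordinal of countable cofinality. -/
def Cw (δ : Ordinal.{u}) : Prop := 0 < δ ∧ (∀ γ < δ, γ + 1 < δ) ∧ CtCof δ

theorem ctCof_of_cof_le {δ : Ordinal.{u}} (h : δ.cof ≤ ℵ₀) : CtCof δ := by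
  obtain ⟨s, hs, hs'⟩ := Order.exists_cof_eq (Iio δ)
  have h1 : s.Countable := by
    rw [← le_aleph0_iff_set_countable, hs', Ordinal.cof_Iio, ← Ordinal.lift_cof]
    exact Cardinal.lift_le_aleph0.2 h
  refine ⟨Subtype.val '' s, h1.image _, ?_, fun γ hγ => ?_⟩
  · rintro _ ⟨x, -, rfl⟩
    exact x.2
  · obtain ⟨c, hc, hc'⟩ := hs ⟨γ, hγ⟩
    exact ⟨c.1, ⟨c, hc, rfl⟩, hc'⟩

theorem cw_of_cof {δ : Ordinal.{u}} (h : δ.cof = ℵ₀) : Cw δ := by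
  have h1 : Order.IsSuccLimit δ := one_lt_cof_iff.1 (h ▸ one_lt_aleph0)
  exact ⟨h1.bot_lt, fun γ hγ => h1.succ_lt hγ, ctCof_of_cof_le h.le⟩

theorem rg_omega1 : Rg (ω₁ : Ordinal.{u}) :=
  ⟨by rw [cof_omega_one, ord_aleph], le_rfl⟩

theorem Rg.fod_card {y : Ordinal.{u}} (hy : Rg y) : y.card = y.cof := by
  conv_lhs => rw [← hy.1]
  exact card_ord _

theorem Rg.fod_lt {y : Ordinal.{u}} (hy : Rg y) : ℵ₀ < y.card := by
  have := card_le_card hy.2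
  rw [card_omega] at this
  exact aleph0_lt_aleph_one.trans_le this

theorem Rg.isRegular {y : Ordinal.{u}} (hy : Rg y) : y.card.IsRegular ∧ y.card.ord = y := by
  have h : y.card.ord = y := by rw [hy.fod_card, hy.1]
  exact ⟨⟨hy.fod_lt.le, by rw [h, hy.fod_card]⟩, h⟩

theorem Rg.aleph0_lt {y : Ordinal.{u}} (hy : Rg y) : ℵ₀ < y.card := hy.fod_lt

theorem Rg.card_lt {y : Ordinal.{u}} (hy : Rg y) {ξ : Ordinal.{u}} (hξ : ξ < y) :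
    ξ.card < y.card :=
  lt_ord.1 (hy.isRegular.2.symm ▸ hξ)

/-- Small subsets are bounded. -/
theorem Rg.bdd {y : Ordinal.{u}} (hy : Rg y) {s : Set Ordinal.{u}} (hs : s ⊆ Iio y)
    (hc : #s < Cardinal.lift.{u + 1} y.card) : ∃ b < y, ∀ x ∈ s, x < b := by
  rw [hy.fod_card, Ordinal.lift_cof] at hc
  refine ⟨_, sSup_add_one_lt_of_lt_cof hc hs, fun x hx => Order.add_one_le_iff.1 ?_⟩
  refine le_csSup ⟨y, ?_⟩ ⟨x, hx, rfl⟩
  rintro _ ⟨z, hz, rfl⟩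
  exact Order.add_one_le_iff.2 (hs hz)

theorem Rg.bdd_countable {y : Ordinal.{u}} (hy : Rg y) {s : Set Ordinal.{u}} (hs : s ⊆ Iio y)
    (hc : s.Countable) : ∃ b < y, ∀ x ∈ s, x < b :=
  hy.bdd hs ((le_aleph0_iff_set_countable.2 hc).trans_lt (Cardinal.aleph0_lt_lift.2 hy.aleph0_lt))

theorem Rg.fod_succ {y : Ordinal.{u}} (hy : Rg y) {ξ : Ordinal.{u}} (hξ : ξ < y) : ξ + 1 < y := by
  obtain ⟨b, hb, h⟩ := hy.bdd_countable (s := {ξ}) (by simpa using hξ) (countable_singleton ξ)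
  exact (Order.add_one_le_iff.2 (h ξ rfl)).trans_lt hb

theorem Rg.fod_img {y : Ordinal.{u}} (hy : Rg y) {ξ : Ordinal.{u}} (hξ : ξ < y)
    (f : Ordinal.{u} → Ordinal.{u}) (hf : ∀ z ≤ ξ, f z < y) : ∃ b < y, ∀ z ≤ ξ, f z < b := by
  obtain ⟨b, hb, h⟩ := hy.bdd (s := f '' Iio (ξ + 1)) (by
    rintro _ ⟨z, hz, rfl⟩
    exact hf z (Order.lt_add_one_iff.1 hz)) (mk_image_le.trans_lt (by
      rw [Cardinal.mk_Iio_ordinal, Cardinal.lift_lt]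
      exact hy.card_lt (hy.fod_succ hξ)))
  exact ⟨b, hb, fun z hz => h _ ⟨z, Order.lt_add_one_iff.2 hz, rfl⟩⟩

theorem Rg.fod_bound {y : Ordinal.{u}} (hy : Rg y) (h : Ordinal.{u} → Ordinal.{u})
    (hh : ∀ ξ < y, h ξ < y) : ∃ H : Ordinal.{u} → Ordinal.{u},
      (∀ ξ < y, H ξ < y) ∧ ∀ ξ < y, ∀ z ≤ ξ, h z < H ξ := by
  choose! H h1 h2 using fun ξ (hξ : ξ < y) => hy.fod_img hξ h fun z hz => hh z (hz.trans_lt hξ)
  exact ⟨H, h1, h2⟩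

theorem Rg.exists_cw {y : Ordinal.{u}} (hy : Rg y) (h : Ordinal.{u} → Ordinal.{u})
    (hh : ∀ ξ < y, h ξ < y) {γ : Ordinal.{u}} (hγ : γ < y) :
    ∃ δ < y, γ < δ ∧ Cw δ ∧ ∀ ξ < δ, h ξ < δ := by
  obtain ⟨H, h1, h2⟩ := hy.fod_bound (fun ξ => max ξ (h ξ)) fun ξ hξ => max_lt hξ (hh ξ hξ)
  let x : ℕ → Ordinal.{u} := fun n => H^[n] γ
  have x1 : ∀ n, x (n + 1) = H (x n) := fun n => Function.iterate_succ_apply' H n γ
  have x2 : ∀ n, x n < y := fun n => by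
    induction n with
    | zero => exact hγ
    | succ n ih => rw [x1]; exact h1 _ ih
  have x3 : ∀ n, x n ≤ ⨆ n, x n := fun n => Ordinal.le_iSup x n
  have x4 : ∀ n, ∀ z ≤ x n, max z (h z) < ⨆ n, x n := fun n z hz =>
    (h2 _ (x2 n) z hz).trans_le (x1 n ▸ x3 (n + 1))
  have x5 : ∀ n, x n < ⨆ n, x n := fun n => (le_max_left _ _).trans_lt (x4 n _ le_rfl)
  obtain ⟨b, hb, hb'⟩ := hy.bdd_countable (s := range x) (range_subset_iff.2 x2) (countable_range x)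
  refine ⟨⨆ n, x n, (Ordinal.iSup_le fun n => (hb' _ ⟨n, rfl⟩).le).trans_lt hb, x5 0,
    ⟨zero_le.trans_lt (x5 0), fun z hz => ?_, range x, countable_range x, range_subset_iff.2 x5,
      fun z hz => ?_⟩, fun z hz => ?_⟩
  · obtain ⟨n, hn⟩ := Ordinal.lt_iSup_iff.1 hz
    exact (Order.add_one_le_iff.2 hn).trans_lt (x5 n)
  · obtain ⟨n, hn⟩ := Ordinal.lt_iSup_iff.1 hz
    exact ⟨_, ⟨n, rfl⟩, hn.le⟩
  · obtain ⟨n, hn⟩ := Ordinal.lt_iSup_iff.1 hz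
    exact (le_max_right _ _).trans_lt (x4 n z hn.le)

theorem Rg.st_cw {y : Ordinal.{u}} (hy : Rg y) : St {δ | Cw δ} y := by
  intro h hh
  obtain ⟨δ, h1, -, h2, h3⟩ := hy.exists_cw h hh ((omega_pos 1).trans_le hy.2)
  exact ⟨δ, h2, h1, h3⟩

theorem Rg.st_of_statIn {y : Ordinal.{u}} (hy : Rg y) {S : Set Ordinal.{u}} (hS : StatIn S y) :
    St S y := by
  intro h hh
  obtain ⟨δ, h1, h2⟩ := hS (t := {δ : Iio y | ∀ ξ < δ.1, h ξ < δ.1}) ⟨fun d hd _ _ a ha ξ hξ => by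
    obtain ⟨c, hc, hc'⟩ := (lt_isLUB_iff ha (b := ⟨ξ, hξ.trans a.2⟩)).1 hξ
    exact (hd hc ξ hc').trans_le (ha.1 hc), fun a => by
    obtain ⟨δ, h1, h2, -, h3⟩ := hy.exists_cw h hh a.2
    exact ⟨⟨δ, h1⟩, h3, h2.le⟩⟩
  exact ⟨δ.1, h1, δ.2, h2⟩

theorem St.mono {y : Ordinal.{u}} {S S' : Set Ordinal.{u}} (hS : St S y) (h : S ⊆ S') :
    St S' y := by
  intro f hf
  obtain ⟨δ, h1, h2⟩ := hS f hf
  exact ⟨δ, h h1, h2⟩

theorem fod_not {y : Ordinal.{u}} {S : Set Ordinal.{u}} (hS : ¬ St S y) :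
    ∃ h : Ordinal.{u} → Ordinal.{u}, (∀ ξ < y, h ξ < y) ∧ ∀ δ ∈ S, δ < y → ∃ ξ < δ, δ ≤ h ξ := by
  unfold St at hS
  push Not at hS
  exact hS

/-- Fodor lemma. -/
theorem Rg.fodor {y : Ordinal.{u}} (hy : Rg y) {S : Set Ordinal.{u}} (hS : St S y)
    (g : Ordinal.{u} → Ordinal.{u}) (hg : ∀ δ ∈ S, g δ < δ) :
    ∃ z < y, St {δ ∈ S | g δ = z} y := by
  by_contra hcon
  choose! h h1 h2 using fun z (hz : z < y) => fod_not (S := {δ ∈ S | g δ = z})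
    fun h => hcon ⟨z, hz, h⟩
  choose! K k1 k2 using fun z (hz : z < y) => hy.fod_bound (h z) (h1 z hz)
  choose! H b1 b2 using fun ξ (hξ : ξ < y) => hy.fod_img hξ (fun z => K z ξ)
    fun z hz => k1 z (hz.trans_lt hξ) ξ hξ
  obtain ⟨δ, d1, d2, d3⟩ := hS H b1
  have d4 := hg δ d1
  obtain ⟨ξ, d5, d6⟩ := h2 (g δ) (d4.trans d2) δ ⟨d1, rfl⟩ d2
  have d7 : max (g δ) ξ < δ := max_lt d4 d5
  exact (((k2 _ (d4.trans d2) _ (d7.trans d2) ξ (le_max_right _ _)).trans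
    (b2 _ (d7.trans d2) _ (le_max_left _ _))).trans (d3 _ d7)).not_ge d6

/-- A colouring with countable ordinals all of whose tails are stationary. -/
theorem Rg.exists_colour {y : Ordinal.{u}} (hy : Rg y) {S : Set Ordinal.{u}} (hS : St S y)
    (hc : ∀ δ ∈ S, Cw δ) :
    ∃ β : Ordinal.{u} → Ordinal.{u}, (∀ δ, β δ < ω₁) ∧ ∀ α < ω₁, St {δ ∈ S | α ≤ β δ} y := by
  have e1 : ∀ δ ∈ S, ∃ c : ℕ → Ordinal.{u}, (∀ n, c n < δ) ∧ ∀ γ < δ, ∃ n, γ ≤ c n := by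
    intro δ hδ
    obtain ⟨h0, -, C, c1, c2, c3⟩ := hc δ hδ
    obtain ⟨a, ha, -⟩ := c3 0 h0
    obtain ⟨c, rfl⟩ := c1.exists_eq_range ⟨a, ha⟩
    refine ⟨c, fun n => c2 ⟨n, rfl⟩, fun γ hγ => ?_⟩
    obtain ⟨_, ⟨n, rfl⟩, h⟩ := c3 γ hγ
    exact ⟨n, h⟩
  choose! c c1 c2 using e1
  have e2 : ∃ n, ∀ γ < y, St {δ ∈ S | γ ≤ c δ n} y := by
    by_contra hcon
    push Not at hcon
    choose γ g1 g2 using hcon
    choose h h1 h2 using fun n => fod_not (g2 n)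
    obtain ⟨b, b1, b2⟩ := hy.bdd_countable (s := range γ) (range_subset_iff.2 g1)
      (countable_range γ)
    choose! H k1 k2 using fun ξ (hξ : ξ < y) => hy.bdd_countable
      (s := insert b (range fun n => h n ξ))
      (insert_subset b1 (range_subset_iff.2 fun n => h1 n ξ hξ)) ((countable_range _).insert b)
    obtain ⟨δ, d1, d2, d3⟩ := hS H k1
    have d0 := (hc δ d1).1
    obtain ⟨n, hn⟩ := c2 δ d1 b ((k2 0 (d0.trans d2) b (mem_insert _ _)).trans (d3 0 d0))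
    obtain ⟨ξ, d5, d6⟩ := h2 n δ ⟨d1, (b2 _ ⟨n, rfl⟩).le.trans hn⟩ d2
    exact ((k2 ξ (d5.trans d2) _ (mem_insert_of_mem _ ⟨n, rfl⟩)).trans (d3 ξ d5)).not_ge d6
  obtain ⟨n, hn⟩ := e2
  let Z : Set Ordinal.{u} := {z | z < y ∧ St {δ ∈ S | c δ n = z} y}
  have e3 : ¬ Z.Countable := fun hZ => by
    obtain ⟨b, b1, b2⟩ := hy.bdd_countable (s := Z) (fun z hz => hz.1) hZ
    obtain ⟨z, z1, z2⟩ := hy.fodor (hn b b1) (fun δ => c δ n) fun δ hδ => c1 δ hδ.1 n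
    obtain ⟨δ, ⟨⟨-, d1⟩, d2⟩, -⟩ := z2 id fun ξ hξ => hξ
    exact (b2 z ⟨z1, z2.mono fun δ hδ => ⟨hδ.1.1, hδ.2⟩⟩).not_ge (d1.trans_eq d2)
  have e4 : #(Iio (ω₁ : Ordinal.{u})) ≤ #Z := by
    rw [Cardinal.mk_Iio_ordinal, card_omega, lift_aleph, Ordinal.lift_one, ← succ_aleph0]
    exact Order.succ_le_of_lt (not_le.1 fun h => e3 (le_aleph0_iff_set_countable.1 h))
  obtain ⟨j⟩ := (Cardinal.le_def _ _).1 e4
  classical
  refine ⟨fun δ => if h : ∃ α, (j α).1 = c δ n then h.choose.1 else 0, fun δ => ?_,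
    fun α hα => (j ⟨α, hα⟩).2.2.mono fun δ hδ => ⟨hδ.1, ?_⟩⟩
  · dsimp only
    split_ifs with h
    · exact h.choose.2
    · exact omega_pos 1
  · have h : ∃ α, (j α).1 = c δ n := ⟨⟨α, hα⟩, hδ.2.symm⟩
    have h1 : h.choose = ⟨α, hα⟩ := j.injective (Subtype.ext (h.choose_spec.trans hδ.2))
    dsimp only
    rw [dif_pos h, h1]

end Pool.Agent.Lib.MP_0fa4a2_gt.Nec
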