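import Pool.Agent.Lib.MP_0fa4a2_gt.NecDefs
import Mathlib

-- part Pool.Agent.Lib.MP_0fa4a2_gt.NecSeq
section

/-!
General tools: bookkeeping, closure under finitary functions, Kueker lemma, positional strategies
in open games, size of a reachable set.
-/

namespace Pool.Agent.Lib.MP_0fa4a2_gt.Nec

open Set Cardinal

universe u v

/-- The sequence built by bookkeeping. -/
def seqU {P : Type u} (p0 : P) (st : P → ℕ → P → P) : ℕ → P
  | 0 => p0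
  | n + 1 => st (seqU p0 st (Nat.unpair n).1) (Nat.unpair n).2 (seqU p0 st n)
decreasing_by
  · exact Nat.lt_succ_of_le (Nat.unpair_left_le n)
  · exact Nat.lt_succ_self n

/-- Bookkeeping. -/
theorem book {P : Type u} {K : Type v} (R : P → P → Prop) (hr : ∀ p, R p p)
    (ht : ∀ p q r, R p q → R q r → R p r) (Task : P → Set K) (hc : ∀ p, (Task p).Countable)
    (Done : K → P → Prop) (h : ∀ p, ∀ k ∈ Task p, ∀ q, R p q → ∃ r, R q r ∧ Done k r) (p0 : P) :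
    ∃ u : ℕ → P, u 0 = p0 ∧ (∀ m n, m ≤ n → R (u m) (u n)) ∧
      ∀ n, ∀ k ∈ Task (u n), ∃ m, n ≤ m ∧ Done k (u m) := by
  choose en hen using fun p => (((hc p).image some).insert none).exists_eq_range (insert_nonempty _ _)
  have step : ∀ p j q, ∃ r, R q r ∧ (R p q → ∀ k ∈ Task p, en p j = some k → Done k r) := by
    intro p j q
    by_cases h1 : R p q ∧ ∃ k ∈ Task p, en p j = some k
    · obtain ⟨h2, k, hk, e⟩ := h1
      obtain ⟨r, h3, h4⟩ := h p k hk q h2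
      exact ⟨r, h3, fun _ k' _ e' => Option.some.inj (e.symm.trans e') ▸ h4⟩
    · exact ⟨q, hr q, fun h2 k hk e => (h1 ⟨h2, k, hk, e⟩).elim⟩
  choose st h1 h2 using step
  have mono : ∀ m n, m ≤ n → R (seqU p0 st m) (seqU p0 st n) := by
    intro m n hmn
    induction n, hmn using Nat.le_induction with
    | base => exact hr _
    | succ n _ ih =>
      rw [seqU]
      exact ht _ _ _ ih (h1 _ _ _)
  refine ⟨seqU p0 st, by rw [seqU], mono, fun n k hk => ?_⟩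
  obtain ⟨j, hj⟩ : some k ∈ range (en (seqU p0 st n)) :=
    hen _ ▸ mem_insert_of_mem _ (mem_image_of_mem some hk)
  refine ⟨Nat.pair n j + 1, (Nat.left_le_pair n j).trans (Nat.le_succ _), ?_⟩
  rw [seqU, Nat.unpair_pair]
  exact h2 _ _ _ (mono _ _ (Nat.left_le_pair n j)) k hk hj

/-- `N` is closed under `F`. -/
def Closed {M : Type u} (F : Finset M → Set M) (N : Set M) : Prop :=
  ∀ a : Finset M, ↑a ⊆ N → F a ⊆ N

theorem exists_cl {M : Type u} (F : Finset M → Set M) (hF : ∀ a, (F a).Countable) :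
    ∃ cl : Finset M → Set M, ∀ a, (cl a).Countable ∧ ↑a ⊆ cl a ∧ Closed F (cl a) ∧
      ∀ N, ↑a ⊆ N → Closed F N → cl a ⊆ N := by
  obtain ⟨C, h0, h1⟩ : ∃ C : Finset M → ℕ → Set M, (∀ a, C a 0 = a) ∧
      ∀ a n, C a (n + 1) = C a n ∪ ⋃ b ∈ {b : Finset M | ↑b ⊆ C a n}, F b :=
    ⟨fun a n => Nat.rec a (fun _ S => S ∪ ⋃ b ∈ {b : Finset M | ↑b ⊆ S}, F b) n, fun _ => rfl,
      fun _ _ => rfl⟩
  refine ⟨fun a => ⋃ n, C a n, fun a => ⟨countable_iUnion fun n => ?_,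
    h0 a ▸ subset_iUnion (C a) 0, fun b hb => ?_, fun N h2 h3 => iUnion_subset fun n => ?_⟩⟩
  · induction n with
    | zero => exact h0 a ▸ a.countable_toSet
    | succ n ih =>
      rw [h1]
      refine ih.union (Countable.biUnion ?_ fun b _ => hF b)
      exact ((countable_ofPred_finite_subset ih).preimage Finset.coe_injective).mono
        fun b hb => And.intro b.finite_toSet hb
  · have hm : Monotone (C a) := monotone_nat_of_le_succ fun n => h1 a n ▸ subset_union_left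
    obtain ⟨n, hn⟩ := hm.directed_le.exists_mem_subset_of_finset_subset_biUnion hb
    refine subset_iUnion_of_subset (n + 1) ?_
    rw [h1]
    exact subset_union_of_subset_right (subset_biUnion_of_mem (u := F) hn) _
  · induction n with
    | zero => exact h0 a ▸ h2
    | succ n ih =>
      rw [h1]
      exact union_subset ih (iUnion₂_subset fun b hb => h3 b (hb.trans ih))

theorem kueker {M : Type u} {C : Set (Set M)} (hC : IsClubCt C) :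
    ∃ F : Finset M → Set M, (∀ a, (F a).Countable) ∧
      ∀ N : Set M, N.Countable → Closed F N → N ∈ C := by
  choose! c hc hc' using hC.cofinal
  obtain ⟨H, h0, h1⟩ : ∃ H : ℕ → Finset M → Set M, (∀ a, H 0 a = c ∅) ∧
      ∀ n a, H (n + 1) a = c (↑a ∪ ⋃ b ∈ a.powerset, H n b) :=
    ⟨fun n => Nat.rec (fun _ => c ∅) (fun _ G a => c (↑a ∪ ⋃ b ∈ a.powerset, G b)) n, fun _ => rfl,
      fun _ _ => rfl⟩
  have h2 : ∀ n, (∀ a, H n a ∈ C) → ∀ a : Finset M, (↑a ∪ ⋃ b ∈ a.powerset, H n b).Countable :=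
    fun n h a => a.countable_toSet.union
      (a.powerset.countable_toSet.biUnion fun b _ => hC.countable _ (h b))
  have h3 : ∀ n a, H n a ∈ C := fun n => by
    induction n with
    | zero => exact fun a => h0 a ▸ hc _ countable_empty
    | succ n ih => exact fun a => h1 n a ▸ hc _ (h2 n ih a)
  refine ⟨fun a => ⋃ n, H n a, fun a => countable_iUnion fun n => hC.countable _ (h3 n a),
    fun N hN hF => ?_⟩
  obtain ⟨f, hf⟩ := countable_iff_exists_injOn.1 hN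
  have fin : ∀ n, {x ∈ N | f x < n}.Finite := fun n =>
    Finite.of_injOn (fun x hx => hx.2) (hf.mono fun x hx => hx.1) (finite_Iio n)
  have key := hC.closed (fun n => H (n + 1) (fin n).toFinset) (monotone_nat_of_le_succ fun n => by
    rw [h1 (n + 1)]
    refine subset_trans ?_ (hc' _ (h2 _ (h3 _) _))
    refine fun y hy => .inr (mem_iUnion₂.2 ⟨(fin n).toFinset, ?_, hy⟩)
    rw [Finset.mem_powerset, Finite.toFinset_subset_toFinset]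
    exact fun x hx => ⟨hx.1, hx.2.trans (Nat.lt_succ_self n)⟩) fun n => h3 _ _
  convert key using 1
  refine Subset.antisymm (fun x hx => mem_iUnion.2 ⟨f x + 1, ?_⟩) (iUnion_subset fun n => ?_)
  · rw [h1]
    exact hc' _ (h2 _ (h3 _) _) (.inl (by simp [hx]))
  · exact (subset_iUnion (fun k => H k (fin n).toFinset) (n + 1)).trans
      (hF _ fun x hx => ((fin n).mem_toFinset.1 hx).1)

/-- The responding player can keep the position safe forever. -/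
def Win {P : Type u} {Mv : Type v} (safe : P → Prop) (legal : P → Mv → Prop)
    (resp : P → Mv → P → Prop) (p : P) : Prop :=
  ∃ Q : Set P, p ∈ Q ∧ ∀ q ∈ Q, safe q ∧ ∀ m, legal q m → ∃ q' ∈ Q, resp q m q'

theorem Win.step {P : Type u} {Mv : Type v} {safe : P → Prop} {legal : P → Mv → Prop}
    {resp : P → Mv → P → Prop} {p : P} (h : Win safe legal resp p) :
    safe p ∧ ∀ m, legal p m → ∃ q, Win safe legal resp q ∧ resp p m q := by
  obtain ⟨Q, hp, hQ⟩ := h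
  refine ⟨(hQ p hp).1, fun m hm => ?_⟩
  obtain ⟨q, hq, hr⟩ := (hQ p hp).2 m hm
  exact ⟨q, ⟨Q, hq, hQ⟩, hr⟩

/-- The attacking player has an optimal positional strategy. -/
theorem exists_strategy {P : Type u} {Mv : Type v} [Nonempty Mv] (safe : P → Prop)
    (legal : P → Mv → Prop) (resp : P → Mv → P → Prop) :
    ∃ τ : P → Mv, ∀ Q : Set P,
      (∀ q ∈ Q, safe q ∧ (legal q (τ q) → ∃ q' ∈ Q, resp q (τ q) q')) →
      ∀ q ∈ Q, Win safe legal resp q := by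
  classical
  obtain ⟨W, hW⟩ : ∃ W : (P → Mv) → P → Prop, ∀ τ q, W τ q ↔ ∀ Q : Set P,
      (∀ q ∈ Q, safe q ∧ (legal q (τ q) → ∃ q' ∈ Q, resp q (τ q) q')) → q ∉ Q :=
    ⟨_, fun _ _ => Iff.rfl⟩
  have next : ∀ τ q q', W τ q → safe q → resp q (τ q) q' → W τ q' := fun τ q q' h hs hr =>
    (hW τ q').2 fun Q hQ hq => (hW τ q).1 h (insert q Q) (by
      rintro x (rfl | hx)
      · exact ⟨hs, fun _ => ⟨q', .inr hq, hr⟩⟩
      · exact ⟨(hQ x hx).1, fun hl => ((hQ x hx).2 hl).imp fun y hy => ⟨.inr hy.1, hy.2⟩⟩) (.inl rfl)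
  obtain ⟨_, _⟩ := exists_wellFoundedLT (P → Mv)
  have least : ∀ S : Set (P → Mv), S.Nonempty → ∃ τ ∈ S, ∀ σ ∈ S, τ ≤ σ := fun S hS =>
    (wellFounded_lt.has_min S hS).imp fun τ h => ⟨h.1, fun σ hσ => not_lt.1 (h.2 σ hσ)⟩
  choose! idx h1 h2 using fun q (h : ∃ τ, W τ q) => least {τ | W τ q} h
  have glue : ∀ q, (∃ τ, W τ q) → W (fun x => idx x x) q := fun q hq => (hW _ q).2 fun Q hQ hq' => by
    obtain ⟨_, ⟨x, hx, rfl⟩, hm⟩ := least (idx '' {x ∈ Q | ∃ τ, W τ x}) ⟨_, q, ⟨hq', hq⟩, rfl⟩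
    refine (hW _ x).1 (h1 x hx.2) {y ∈ Q | (∃ τ, W τ y) ∧ idx y = idx x} (fun y hy => ?_)
      ⟨hx.1, hx.2, rfl⟩
    refine ⟨(hQ y hy.1).1, fun hl => ?_⟩
    rw [← hy.2.2] at hl ⊢
    obtain ⟨z, hz, hr⟩ := (hQ y hy.1).2 hl
    have hw := next _ y z (h1 y hy.2.1) (hQ y hy.1).1 hr
    exact ⟨z, ⟨hz, ⟨_, hw⟩, (h2 z ⟨_, hw⟩ _ hw).antisymm
      (hy.2.2.trans_le (hm _ ⟨z, ⟨hz, _, hw⟩, rfl⟩))⟩, hr⟩
  refine ⟨fun x => idx x x, fun Q hQ q hq => ⟨{x | ¬ ∃ τ, W τ x},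
    fun h => (hW _ q).1 (glue q h) Q hQ hq, fun x hx => ⟨?_, fun m hm => ?_⟩⟩⟩
  · by_contra hs
    exact hx ⟨idx x, (hW _ x).2 fun Q hQ h => hs (hQ x h).1⟩
  · by_contra! hn
    refine hx ⟨Function.update (fun x => idx x x) x m, (hW _ x).2 fun Q hQ h => ?_⟩
    have h3 := (hQ x h).2
    rw [Function.update_self] at h3
    obtain ⟨y, hy, hr⟩ := h3 hm
    have hy' : ∃ τ, W τ y := by_contra fun e => hn y (not_exists.1 e) hr
    refine (hW _ y).1 (glue y hy') {z ∈ Q | ∃ τ, W τ z} (fun z hz => ?_) ⟨hy, hy'⟩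
    have h4 := hQ z hz.1
    rw [Function.update_of_ne fun e => hx (by rw [← e]; exact hz.2)] at h4
    exact ⟨h4.1, fun hl => (h4.2 hl).imp fun w hw =>
      ⟨⟨hw.1, _, next _ z w (glue z hz.2) h4.1 hw.2⟩, hw.2⟩⟩

theorem mk_reach_le {P : Type u} (sc : P → Set P) {κ : Cardinal.{u}} (hκ : ℵ₀ ≤ κ)
    (h : ∀ p, #(sc p) ≤ κ) (p0 : P) :
    #{p | Relation.ReflTransGen (fun p q => q ∈ sc p) p0 p} ≤ κ := by
  obtain ⟨L, h0, h1⟩ : ∃ L : ℕ → Set P, L 0 = {p0} ∧ ∀ n, L (n + 1) = ⋃ p ∈ L n, sc p :=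
    ⟨fun n => Nat.rec {p0} (fun _ S => ⋃ p ∈ S, sc p) n, rfl, fun _ => rfl⟩
  have h2 : ∀ n, #(L n) ≤ κ := fun n => by
    induction n with
    | zero => rw [h0, mk_singleton]; exact one_le_aleph0.trans hκ
    | succ n ih =>
      rw [h1]
      exact (mk_biUnion_le _ _).trans ((mul_le_mul' ih (ciSup_le' fun p : L n => h p)).trans_eq
        (mul_eq_self hκ))
  have h3 : {p | Relation.ReflTransGen (fun p q => q ∈ sc p) p0 p} ⊆
      ⋃ n : ULift.{u} ℕ, L n.down := fun p hp => by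
    induction hp with
    | refl => exact mem_iUnion.2 ⟨⟨0⟩, h0 ▸ mem_singleton p0⟩
    | tail _ hq ih =>
      obtain ⟨n, hn⟩ := mem_iUnion.1 ih
      exact mem_iUnion.2 ⟨⟨n.down + 1⟩, h1 _ ▸ mem_biUnion hn hq⟩
  refine (mk_le_mk_of_subset h3).trans ((mk_iUnion_le _).trans ((mul_le_mul' ?_
    (ciSup_le' fun n => h2 _)).trans_eq (mul_eq_self hκ)))
  simpa using hκ

end Pool.Agent.Lib.MP_0fa4a2_gt.Nec
end

-- part Pool.Agent.Lib.MP_0fa4a2_gt.NecPress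
section

/-!
Discrete and sigma-discrete sets of nodes of a tree relative to a family of branches, and the
pressing-down lemma.
-/

namespace Pool.Agent.Lib.MP_0fa4a2_gt.Nec

open Set

universe u v

variable {T : Type u} [PartialOrder T]

/-- The predecessors of a node form a chain. -/
def IsTree (T : Type u) [PartialOrder T] : Prop :=
  ∀ a b c : T, a ≤ c → b ≤ c → a ≤ b ∨ b ≤ a

/-- A family of unbounded branches. -/
structure Branches (X : Set (Set T)) : Prop where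
  chain : ∀ x ∈ X, ∀ a ∈ x, ∀ b ∈ x, a ≤ b ∨ b ≤ a
  lower : ∀ x ∈ X, ∀ a ∈ x, ∀ b, b ≤ a → b ∈ x
  ne : ∀ x ∈ X, x.Nonempty
  unb : ∀ x ∈ X, ∀ t : T, ∃ s ∈ x, ¬ s ≤ t

def Disc (X : Set (Set T)) (A : Set T) : Prop :=
  (∀ a ∈ A, ∀ b ∈ A, a ≤ b → a = b) ∧ ∀ x ∈ X, ∃ s ∈ x, ∀ a ∈ A, ¬ s ≤ a

def SDisc (X : Set (Set T)) (U : Set T) : Prop :=
  ∃ A : ℕ → Set T, (∀ n, Disc X (A n)) ∧ U ⊆ ⋃ n, A n

theorem Disc.sdisc {X : Set (Set T)} {A : Set T} (h : Disc X A) : SDisc X A := by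
  exact ⟨fun _ => A, fun _ => h, subset_iUnion (fun _ : ℕ => A) 0⟩

theorem SDisc.mono {X : Set (Set T)} {U V : Set T} (h : SDisc X U) (hV : V ⊆ U) : SDisc X V := by
  obtain ⟨A, h1, h2⟩ := h
  exact ⟨A, h1, hV.trans h2⟩

theorem sdisc_biUnion {X : Set (Set T)} (hX : Branches X) {I : Type v} {J : Set I}
    (hJ : J.Countable) {U : I → Set T} (h : ∀ i ∈ J, SDisc X (U i)) : SDisc X (⋃ i ∈ J, U i) := by
  rcases J.eq_empty_or_nonempty with rfl | hne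
  · refine ⟨fun _ => ∅, fun _ => ⟨fun a ha => ha.elim, fun x hx => ?_⟩, by simp⟩
    obtain ⟨s, hs⟩ := hX.ne x hx
    exact ⟨s, hs, fun a ha => ha.elim⟩
  obtain ⟨f, rfl⟩ := hJ.exists_eq_range hne
  choose A h1 h2 using fun n => h (f n) (mem_range_self n)
  refine ⟨fun n => A n.unpair.1 n.unpair.2, fun n => h1 _ _, fun t ht => ?_⟩
  obtain ⟨_, ⟨i, rfl⟩, h3⟩ := mem_iUnion₂.1 ht
  obtain ⟨j, h4⟩ := mem_iUnion.1 (h2 i h3)
  exact mem_iUnion.2 ⟨Nat.pair i j, by rwa [Nat.unpair_pair]⟩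

theorem SDisc.union {X : Set (Set T)} (hX : Branches X) {U V : Set T} (hU : SDisc X U)
    (hV : SDisc X V) : SDisc X (U ∪ V) := by
  refine (sdisc_biUnion hX (J := {U, V}) (U := id) (toFinite _).countable ?_).mono ?_
  · rintro _ (rfl | rfl)
    exacts [hU, hV]
  · exact union_subset (subset_biUnion_of_mem (u := id) (mem_insert _ _))
      (subset_biUnion_of_mem (u := id) (mem_insert_of_mem _ rfl))

theorem disc_succ (hT : IsTree T) {X : Set (Set T)} (hX : Branches X) (v : T) :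
    Disc X {t | v < t ∧ ∀ w < t, w ≤ v} := by
  refine ⟨fun a ha b hb hab => ?_, fun x hx => ?_⟩
  · by_contra hne
    exact ha.1.not_ge (hb.2 a (lt_of_le_of_ne hab hne))
  obtain ⟨s, hs, h1⟩ := hX.unb x hx v
  obtain ⟨s', hs', h2⟩ := hX.unb x hx s
  have h3 : s < s' := lt_of_le_not_ge ((hX.chain x hx s hs s' hs').resolve_right h2) h2
  exact ⟨s', hs', fun a ha h4 => h1 (ha.2 s (h3.trans_le h4))⟩

theorem disc_min {X : Set (Set T)} (hX : Branches X) : Disc X {t | ∀ w, ¬ w < t} := by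
  refine ⟨fun a _ b hb hab => ?_, fun x hx => ?_⟩
  · by_contra hne
    exact hb a (lt_of_le_of_ne hab hne)
  obtain ⟨s, hs⟩ := hX.ne x hx
  obtain ⟨s', hs', h2⟩ := hX.unb x hx s
  have h3 : s < s' := lt_of_le_not_ge ((hX.chain x hx s hs s' hs').resolve_right h2) h2
  exact ⟨s', hs', fun a ha h4 => ha s (h3.trans_le h4)⟩

/-- The nodes of a given colour. -/
def pressCol (A : T → ℕ → Set T) : List ℕ → Set T
  | [] => {t | ∀ w, ¬ w < t}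
  | k :: l => {t | ∃ v ∈ pressCol A l, v < t ∧ t ∈ A v k}

theorem press_col (hT : IsTree T) {X : Set (Set T)} (hX : Branches X) {A : T → ℕ → Set T}
    (hA : ∀ v n, Disc X (A v n)) (l : List ℕ) : Disc X (pressCol A l) := by
  induction l with
  | nil => exact disc_min hX
  | cons k l ih =>
    have e : ∀ c, ∀ v ∈ pressCol A l, ∀ v' ∈ pressCol A l, v ≤ c → v' ≤ c → v = v' :=
      fun c v hv v' hv' h h' =>
        (hT v v' c h h').elim (ih.1 v hv v' hv') fun k => (ih.1 v' hv' v hv k).symm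
    refine ⟨?_, fun x hx => ?_⟩
    · rintro a ⟨v, h1, h2, h3⟩ b ⟨v', h4, h5, h6⟩ hab
      obtain rfl := e b v h1 v' h4 (h2.le.trans hab) h5.le
      exact (hA v k).1 a h3 b h6 hab
    obtain ⟨s0, h0, h1⟩ := ih.2 x hx
    have low : ∀ a, ∀ v ∈ pressCol A l, v < a → s0 ≤ a → v ≤ s0 := fun a v hv h h' =>
      (hT v s0 a h.le h').resolve_right (h1 v hv)
    by_cases hc : ∃ s1 ∈ pressCol A l, s1 ≤ s0
    · obtain ⟨s1, h2, h3⟩ := hc
      obtain ⟨s2, h4, h5⟩ := (hA s1 k).2 x hx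
      obtain ⟨s, h6, h7, h8⟩ : ∃ s ∈ x, s0 ≤ s ∧ s2 ≤ s :=
        (hX.chain x hx s0 h0 s2 h4).elim (fun h => ⟨s2, h4, h, le_rfl⟩)
          fun h => ⟨s0, h0, le_rfl, h⟩
      refine ⟨s, h6, ?_⟩
      rintro a ⟨v, a1, a2, a3⟩ a4
      obtain rfl := e s0 v a1 s1 h2 (low a v a1 a2 (h7.trans a4)) h3
      exact h5 a a3 (h8.trans a4)
    · refine ⟨s0, h0, ?_⟩
      rintro a ⟨v, a1, a2, -⟩ a4
      exact hc ⟨v, a1, low a v a1 a2 a4⟩

/-- Pressing down. -/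
theorem press [WellFoundedLT T] (hT : IsTree T) {X : Set (Set T)} (hX : Branches X) {U : Set T}
    (hU : ∀ t ∈ U, ∀ s, s ≤ t → s ∈ U) (W : T → Set T) (hW : ∀ v, SDisc X (W v))
    (h : ∀ t ∈ U, (∃ w, w < t) → ∃ v < t, t ∈ W v) : SDisc X U := by
  choose A h1 h2 using hW
  refine (sdisc_biUnion hX (J := univ) countable_univ
    fun l _ => (press_col hT hX h1 l).sdisc).mono fun t ht => ?_
  have key : ∀ t, t ∈ U → ∃ l, t ∈ pressCol A l := fun t => by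
    induction t using WellFoundedLT.induction with
    | ind t ih =>
      intro ht
      by_cases hc : ∃ w, w < t
      · obtain ⟨v, h3, h4⟩ := h t ht hc
        obtain ⟨n, h5⟩ := mem_iUnion.1 (h2 v h4)
        obtain ⟨l, h6⟩ := ih v h3 (hU t ht v h3.le)
        exact ⟨n :: l, v, h6, h3, h5⟩
      · exact ⟨[], fun w hw => hc ⟨w, hw⟩⟩
  obtain ⟨l, hl⟩ := key t ht
  exact mem_biUnion (mem_univ l) hl

/-- A limit node. -/
def IsLim (t : T) : Prop := (∃ v, v < t) ∧ ∀ v < t, ∃ w, v < w ∧ w < t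

/-- Pressing down along countable labels. -/
theorem press_lab [WellFoundedLT T] (hT : IsTree T) {X : Set (Set T)} (hX : Branches X)
    {M : Type v} (lab : T → Set M) (hlab : ∀ t, (lab t).Countable) (K : Finset M → Set M)
    (hK : ∀ a, (K a).Countable) (hKd : ∀ a, ∀ y ∈ K a, SDisc X {t | y ∉ lab t}) {U : Set T}
    (hU : ∀ t ∈ U, ∀ s, s ≤ t → s ∈ U)
    (h : ∀ t ∈ U, IsLim t → ∃ v < t, ∃ a : Finset M, ↑a ⊆ lab v ∧ ∃ y ∈ K a, y ∉ lab t) :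
    SDisc X U := by
  refine press hT hX hU (fun v => {t | v < t ∧ ∀ w < t, w ≤ v} ∪
    ⋃ a ∈ {a : Finset M | ↑a ⊆ lab v}, ⋃ y ∈ K a, {t | y ∉ lab t}) (fun v => ?_)
    fun t ht hc => ?_
  · refine SDisc.union hX (disc_succ hT hX v).sdisc
      (sdisc_biUnion hX ?_ fun a _ => sdisc_biUnion hX (hK a) (hKd a))
    exact ((countable_ofPred_finite_subset (hlab v)).preimage Finset.coe_injective).mono
      fun a ha => And.intro a.finite_toSet ha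
  by_cases hl : IsLim t
  · obtain ⟨v, h1, a, h2, y, h3, h4⟩ := h t ht hl
    exact ⟨v, h1, Or.inr (mem_biUnion (t := fun a => ⋃ y ∈ K a, {t | y ∉ lab t}) h2
      (mem_biUnion (t := fun y => {t | y ∉ lab t}) h3 h4))⟩
  · obtain ⟨v, h1, h2⟩ : ∃ v < t, ∀ w, v < w → ¬ w < t := by
      by_contra h1
      refine hl ⟨hc, fun v hv => by_contra fun h2 => h1 ⟨v, hv, fun w h3 h4 => h2 ⟨w, h3, h4⟩⟩⟩
    refine ⟨v, h1, Or.inl ⟨h1, fun w hw => ?_⟩⟩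
    rcases hT w v t hw.le h1.le with h3 | h3
    · exact h3
    · exact (h3.eq_or_lt.resolve_right fun h4 => h2 w h4 hw).ge

end Pool.Agent.Lib.MP_0fa4a2_gt.Nec
end

-- part Pool.Agent.Lib.MP_0fa4a2_gt.NecCoh
section

/-!
A coherent sequence of finite-to-one functions on a well-order of type `ω₁`.
-/

namespace Pool.Agent.Lib.MP_0fa4a2_gt.Nec

open Set

universe u

/-- A well-order of type `ω₁`. -/
structure LikeOmega1 (W : Type u) [LinearOrder W] : Prop where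
  cnt : ∀ a : W, (Iio a).Countable
  bdd : ∀ s : Set W, s.Countable → ∃ b, ∀ a ∈ s, a < b

variable {W : Type u} [LinearOrder W]

theorem coh_enum (hW : LikeOmega1 W) (ξ : W) : ∃ q : ℕ → W,
    ∀ ν < ξ, (∃ k, q k = ν) ∧ ∀ k, q k < ξ := by
  rcases (Iio ξ).eq_empty_or_nonempty with h | h
  · exact ⟨fun _ => ξ, fun ν hν => absurd (h ▸ (mem_Iio.2 hν) : ν ∈ (∅ : Set W)) (notMem_empty ν)⟩
  · obtain ⟨q, hq⟩ := (hW.cnt ξ).exists_eq_range h
    refine ⟨q, fun ν hν => ⟨?_, fun k => ?_⟩⟩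
    · have : ν ∈ range q := hq ▸ mem_Iio.2 hν
      exact this
    · have : q k ∈ Iio ξ := hq ▸ mem_range_self k
      exact this

theorem coh_rec [WellFoundedLT W] (q : W → ℕ → W) (hq : ∀ ξ, ∀ ν < ξ, ∀ k, q ξ k < ξ)
    (n : W → W → ℕ) : ∃ e : W → W → ℕ,
      ∀ ξ, ∀ ν < ξ, e ξ ν = max (n ξ ν) (e (q ξ (n ξ ν)) ν) := by
  classical
  let F : ∀ ξ : W, (∀ η, η < ξ → W → ℕ) → W → ℕ := fun ξ rec ν =>
    if h : ν < ξ then max (n ξ ν) (rec (q ξ (n ξ ν)) (hq ξ ν h _) ν) else 0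
  refine ⟨(wellFounded_lt (α := W)).fix F, fun ξ ν h => ?_⟩
  rw [WellFounded.fix_eq]
  exact dif_pos h

theorem coh_chain (hW : LikeOmega1 W) {e : W → W → ℕ}
    (he : ∀ ξ n, {ν | ν < ξ ∧ e ξ ν = n}.Finite) {z : W → W} {C : Set W}
    (hz : ∀ β ∈ C, β ≤ z β)
    (hC : ∀ a ∈ C, ∀ b ∈ C, a < b → ∀ ν < a, e (z a) ν = e (z b) ν) :
    ∃ c, ∀ b ∈ C, b < c := by
  by_contra hc
  push Not at hc
  have h1 : ∀ s : Set W, s.Countable → ∃ b ∈ C, ∀ a ∈ s, a < b := by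
    intro s hs
    obtain ⟨c, h⟩ := hW.bdd s hs
    obtain ⟨b, hb, hcb⟩ := hc c
    exact ⟨b, hb, fun a ha => (h a ha).trans_le hcb⟩
  have h2 : ∀ ν : W, ∃ b ∈ C, ν < b := fun ν => by
    obtain ⟨b, hb, h⟩ := h1 {ν} (countable_singleton ν)
    exact ⟨b, hb, h ν rfl⟩
  choose b hb hb' using h2
  have h3 : ∀ ν, ∀ c ∈ C, ν < c → e (z c) ν = e (z (b ν)) ν := by
    intro ν c hc hν
    rcases lt_trichotomy c (b ν) with h | h | h
    · exact hC c hc _ (hb ν) h ν hν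
    · rw [h]
    · exact (hC _ (hb ν) c hc h ν (hb' ν)).symm
  have h4 : ∀ n : ℕ, {ν | e (z (b ν)) ν = n}.Finite := by
    intro n
    by_contra hn
    obtain ⟨f⟩ : Nonempty (ℕ ↪ {ν | e (z (b ν)) ν = n}) := ⟨Set.Infinite.natEmbedding _ hn⟩
    obtain ⟨c, hc, h⟩ := h1 (range fun i => (f i : W)) (countable_range _)
    have hinj : Function.Injective fun i => (f i : W) :=
      Subtype.val_injective.comp f.injective
    refine infinite_range_of_injective hinj ((he (z c) n).subset ?_)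
    rintro _ ⟨i, rfl⟩
    have h5 := h _ (mem_range_self i)
    exact ⟨h5.trans_le (hz c hc), (h3 _ c hc h5).trans (f i).2⟩
  obtain ⟨c, -, h⟩ := h1 _ (countable_iUnion fun n => (h4 n).countable)
  exact lt_irrefl c (h c (mem_iUnion.2 ⟨_, rfl⟩))

theorem exists_coh [WellFoundedLT W] (hW : LikeOmega1 W) : ∃ e : W → W → ℕ,
    (∀ ξ n, {ν | ν < ξ ∧ e ξ ν = n}.Finite) ∧
    ∀ α, ∃ R : Set W, R.Countable ∧ ∀ ξ, α ≤ ξ → ∃ ρ ∈ R, α ≤ ρ ∧ ∀ ν < α, e ξ ν = e ρ ν := by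
  classical
  choose q hq using coh_enum hW
  let n : W → W → ℕ := fun ξ ν => sInf {k | ν ≤ q ξ k}
  have hn1 : ∀ ξ, ∀ ν < ξ, ν ≤ q ξ (n ξ ν) := by
    intro ξ ν h
    obtain ⟨k, hk⟩ := (hq ξ ν h).1
    exact Nat.sInf_mem (s := {k | ν ≤ q ξ k}) ⟨k, hk.ge⟩
  have hn2 : ∀ ξ ν k, ν ≤ q ξ k → n ξ ν ≤ k := fun ξ ν k h => Nat.sInf_le h
  obtain ⟨e, he⟩ := coh_rec q (fun ξ ν h => (hq ξ ν h).2) n
  have h1 : ∀ ξ m, {ν | ν < ξ ∧ e ξ ν ≤ m}.Finite := by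
    intro ξ
    induction ξ using WellFoundedLT.induction with
    | ind ξ ih =>
      intro m
      rcases {ν | ν < ξ ∧ e ξ ν ≤ m}.eq_empty_or_nonempty with h | ⟨ν0, h0, -⟩
      · rw [h]
        exact finite_empty
      refine ((finite_Iic m).biUnion fun k _ =>
        (ih (q ξ k) ((hq ξ ν0 h0).2 k) m).insert (q ξ k)).subset ?_
      rintro ν ⟨hν, hm⟩
      rw [he ξ ν hν, max_le_iff] at hm
      refine mem_biUnion (mem_Iic.2 hm.1) ?_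
      rcases (hn1 ξ ν hν).eq_or_lt with h | h
      · exact Or.inl h
      · exact Or.inr ⟨h, hm.2⟩
  have h2 : ∀ ξ, ∀ η < ξ, {ν | ν < η ∧ e ξ ν ≠ e η ν}.Finite := by
    intro ξ
    induction ξ using WellFoundedLT.induction with
    | ind ξ ih =>
      intro η hη
      have ih' : ∀ a < ξ, {ν | ν < a ∧ ν < η ∧ e a ν ≠ e η ν}.Finite := by
        intro a ha
        rcases lt_trichotomy a η with h | h | h
        · exact (ih η hη a h).subset fun ν hν => ⟨hν.1, hν.2.2.symm⟩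
        · subst h
          exact finite_empty.subset fun ν hν => absurd rfl hν.2.2
        · exact (ih a ha η h).subset fun ν hν => hν.2
      obtain ⟨k, hk⟩ := (hq ξ η hη).1
      refine ((finite_Iic k).biUnion fun j _ =>
        ((h1 (q ξ j) k).union (ih' (q ξ j) ((hq ξ η hη).2 j))).insert (q ξ j)).subset ?_
      rintro ν ⟨hν, hne⟩
      have hνξ := hν.trans hη
      have hj : n ξ ν ≤ k := hn2 ξ ν k (hk ▸ hν.le)
      refine mem_biUnion (mem_Iic.2 hj) ?_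
      rcases (hn1 ξ ν hνξ).eq_or_lt with h | h
      · exact Or.inl h
      · right
        by_cases h3 : e (q ξ (n ξ ν)) ν ≤ k
        · exact Or.inl ⟨h, h3⟩
        · refine Or.inr ⟨h, hν, ?_⟩
          rw [he ξ ν hνξ, max_eq_right (hj.trans (not_le.1 h3).le)] at hne
          exact hne
  refine ⟨e, fun ξ m => (h1 ξ m).subset fun ν hν => ⟨hν.1, hν.2.le⟩, fun α => ?_⟩
  let φ : W → Set (W × ℕ) := fun ξ =>
    (fun ν => (ν, e ξ ν)) '' {ν | ν < α ∧ e ξ ν ≠ e α ν}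
  have h3 : ∀ s : Set (W × ℕ), ∃ ρ, α ≤ ρ ∧ ((∃ ξ, α ≤ ξ ∧ φ ξ = s) → φ ρ = s) := by
    intro s
    by_cases h : ∃ ξ, α ≤ ξ ∧ φ ξ = s
    · obtain ⟨ξ, h4, h5⟩ := h
      exact ⟨ξ, h4, fun _ => h5⟩
    · exact ⟨α, le_rfl, fun h' => absurd h' h⟩
  choose rep hrep hrep' using h3
  have h4 : (Iio α ×ˢ (univ : Set ℕ)).Countable := (hW.cnt α).prod countable_univ
  refine ⟨rep '' {s | s.Finite ∧ s ⊆ Iio α ×ˢ univ}, (countable_ofPred_finite_subset h4).image _,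
    fun ξ hξ => ⟨rep (φ ξ), mem_image_of_mem _ ⟨?_, ?_⟩, hrep _, fun ν hν => ?_⟩⟩
  · refine Finite.image _ ?_
    rcases hξ.eq_or_lt with h | h
    · subst h
      exact finite_empty.subset fun ν hν => absurd rfl hν.2
    · exact h2 ξ α h
  · rintro _ ⟨ν, hν, rfl⟩
    exact ⟨hν.1, mem_univ _⟩
  · have h5 := hrep' (φ ξ) ⟨ξ, hξ, rfl⟩
    by_cases h6 : e ξ ν = e α ν
    · by_contra h7
      have h8 : (ν, e (rep (φ ξ)) ν) ∈ φ (rep (φ ξ)) :=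
        ⟨ν, ⟨hν, fun h => h7 (h6.trans h.symm)⟩, rfl⟩
      obtain ⟨ν', h9, h10⟩ := h5.subset h8
      obtain rfl : ν' = ν := congrArg Prod.fst h10
      exact h9.2 h6
    · have h8 : (ν, e ξ ν) ∈ φ (rep (φ ξ)) := h5.superset ⟨ν, ⟨hν, h6⟩, rfl⟩
      obtain ⟨ν', -, h10⟩ := h8
      obtain rfl : ν' = ν := congrArg Prod.fst h10
      exact (congrArg Prod.snd h10).symm

theorem exists_antichain (hW : LikeOmega1 W) {e : W → W → ℕ}
    (he : ∀ ξ n, {ν | ν < ξ ∧ e ξ ν = n}.Finite) {B : Set W} (hB : ∀ a, ∃ b ∈ B, a ≤ b)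
    {z : W → W} (hz : ∀ β ∈ B, β ≤ z β) (r : ℕ) :
    ∃ s : Finset W, ↑s ⊆ B ∧ s.card = r ∧
      ∀ β ∈ s, ∀ β' ∈ s, β < β' → ∃ ν < β, e (z β) ν ≠ e (z β') ν := by
  classical
  induction r with
  | zero => exact ⟨∅, by simp, rfl, by simp⟩
  | succ r ih =>
    obtain ⟨s, hsB, hcard, hs⟩ := ih
    by_contra hno
    have h1 : ∀ b ∈ B, (∀ a ∈ s, a < b) → ∃ a ∈ s, ∀ ν < a, e (z a) ν = e (z b) ν := by
      intro b hb hsb
      by_contra hc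
      push Not at hc
      refine hno ⟨insert b s, ?_, ?_, ?_⟩
      · rw [Finset.coe_insert]
        exact insert_subset hb hsB
      · rw [Finset.card_insert_of_notMem fun h => lt_irrefl b (hsb b h), hcard]
      · intro β hβ β' hβ' hlt
        rcases Finset.mem_insert.1 hβ with rfl | h1
        · rcases Finset.mem_insert.1 hβ' with rfl | h2
          · exact absurd hlt (lt_irrefl _)
          · exact absurd hlt (hsb β' h2).not_gt
        · rcases Finset.mem_insert.1 hβ' with rfl | h2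
          · exact hc β h1
          · exact hs β h1 β' h2 hlt
    have h2 : ∀ a, ∃ c, a ∈ s → ∀ b ∈ {b | b ∈ B ∧ (∀ a' ∈ s, a' < b) ∧
        ∀ ν < a, e (z a) ν = e (z b) ν}, b < c := by
      intro a
      by_cases ha : a ∈ s
      swap
      · exact ⟨a, fun h => absurd h ha⟩
      suffices h : ∃ c, ∀ b ∈ {b | b ∈ B ∧ (∀ a' ∈ s, a' < b) ∧
          ∀ ν < a, e (z a) ν = e (z b) ν}, b < c from h.imp fun c hc _ => hc
      refine coh_chain hW he (fun β hβ => hz β hβ.1) fun b1 hb1 b2 hb2 hlt => ?_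
      by_contra hc
      push Not at hc
      have h3 : ∀ b ∈ {b | b ∈ B ∧ (∀ a' ∈ s, a' < b) ∧ ∀ ν < a, e (z a) ν = e (z b) ν},
          ∀ a' ∈ s.erase a, ∃ ν < a', e (z a') ν ≠ e (z b) ν := by
        intro b hb a' ha'
        obtain ⟨h4, h5⟩ := Finset.mem_erase.1 ha'
        rcases lt_or_gt_of_ne h4 with h | h
        · obtain ⟨ν, hν, h6⟩ := hs a' h5 a ha h
          exact ⟨ν, hν, fun h7 => h6 (h7.trans (hb.2.2 ν (hν.trans h)).symm)⟩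
        · obtain ⟨ν, hν, h6⟩ := hs a ha a' h5 h
          exact ⟨ν, hν.trans h, fun h7 => h6 ((hb.2.2 ν hν).trans h7.symm)⟩
      have n1 : b1 ∉ s.erase a := fun h => lt_irrefl _ (hb1.2.1 _ (Finset.mem_of_mem_erase h))
      have n2 : b2 ∉ insert b1 (s.erase a) := by
        intro h
        rcases Finset.mem_insert.1 h with h | h
        · exact hlt.ne' h
        · exact lt_irrefl _ (hb2.2.1 _ (Finset.mem_of_mem_erase h))
      refine hno ⟨insert b2 (insert b1 (s.erase a)), ?_, ?_, ?_⟩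
      · rw [Finset.coe_insert, Finset.coe_insert]
        exact insert_subset hb2.1 (insert_subset hb1.1
          fun x hx => hsB (Finset.mem_of_mem_erase hx))
      · rw [Finset.card_insert_of_notMem n2, Finset.card_insert_of_notMem n1,
          Finset.card_erase_add_one ha, hcard]
      · intro β hβ β' hβ' hββ
        simp only [Finset.mem_insert] at hβ hβ'
        rcases hβ with rfl | rfl | hβ
        · rcases hβ' with rfl | rfl | hβ'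
          · exact absurd hββ (lt_irrefl _)
          · exact absurd hββ hlt.not_gt
          · exact absurd hββ (hb2.2.1 _ (Finset.mem_of_mem_erase hβ')).not_gt
        · rcases hβ' with rfl | rfl | hβ'
          · exact hc
          · exact absurd hββ (lt_irrefl _)
          · exact absurd hββ (hb1.2.1 _ (Finset.mem_of_mem_erase hβ')).not_gt
        · rcases hβ' with rfl | rfl | hβ'
          · exact h3 _ hb2 β hβ
          · exact h3 _ hb1 β hβ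
          · exact hs β (Finset.mem_of_mem_erase hβ) β' (Finset.mem_of_mem_erase hβ') hββ
    choose c hc using h2
    obtain ⟨b0, hb0⟩ := hW.bdd (↑s ∪ c '' ↑s)
      (s.countable_toSet.union (s.countable_toSet.image c))
    obtain ⟨b, hb, hbb⟩ := hB b0
    have h3 : ∀ a ∈ s, a < b := fun a ha => (hb0 a (Or.inl ha)).trans_le hbb
    obtain ⟨a, ha, h4⟩ := h1 b hb h3
    exact lt_irrefl b ((hc a ha b ⟨hb, h3, h4⟩).trans
      ((hb0 _ (Or.inr (mem_image_of_mem c ha))).trans_le hbb))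

/-- The cone of `ζ` at level `β`. -/
def Cone (e : W → W → ℕ) (β ζ : W) : Set W := {ξ | β ≤ ξ ∧ ∀ ν < β, e ξ ν = e ζ ν}

/-- A positive set of finite sets stays positive when one high cone is forbidden. -/
theorem block (hW : LikeOmega1 W) {e : W → W → ℕ}
    (he : ∀ ξ n, {ν | ν < ξ ∧ e ξ ν = n}.Finite) (L : Filter (Finset W)) [CountableInterFilter L]
    {p : Finset W → Prop} (hp : ∃ᶠ F in L, p F) :
    ∃ γ, ∀ β, γ ≤ β → ∀ ζ, β ≤ ζ → ∃ᶠ F in L, p F ∧ ∀ ξ ∈ F, ξ ∉ Cone e β ζ := by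
  classical
  by_contra hno
  let B : Set W := {β | ∃ ζ, β ≤ ζ ∧ ∀ᶠ F in L, p F → ∃ ξ ∈ F, ξ ∈ Cone e β ζ}
  have hB : ∀ a, ∃ b ∈ B, a ≤ b := by
    intro a
    by_contra hc
    refine hno ⟨a, fun β hβ ζ hζ => ?_⟩
    by_contra h1
    refine hc ⟨β, ⟨ζ, hζ, ?_⟩, hβ⟩
    filter_upwards [Filter.not_frequently.1 h1] with F hF hpF
    by_contra h2
    exact hF ⟨hpF, fun ξ hξ h3 => h2 ⟨ξ, hξ, h3⟩⟩
  have h1 : ∀ β, ∃ ζ, β ∈ B → β ≤ ζ ∧ ∀ᶠ F in L, p F → ∃ ξ ∈ F, ξ ∈ Cone e β ζ := by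
    intro β
    by_cases h : β ∈ B
    · obtain ⟨ζ, hζ⟩ := h
      exact ⟨ζ, fun _ => hζ⟩
    · exact ⟨β, fun h' => absurd h' h⟩
  choose z hz using h1
  have h2 : ∃ r : ℕ, ∃ᶠ F in L, p F ∧ F.card = r := by
    by_contra hc
    have h3 : ∀ᶠ F in L, ∀ r : ℕ, ¬ (p F ∧ F.card = r) :=
      eventually_countable_forall.2 fun r => Filter.not_frequently.1 fun h => hc ⟨r, h⟩
    obtain ⟨F, h4, h5⟩ := (hp.and_eventually h3).exists
    exact h5 _ ⟨h4, rfl⟩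
  obtain ⟨r, hr⟩ := h2
  obtain ⟨s, hsB, hcard, hs⟩ := exists_antichain hW he hB (fun β hβ => (hz β hβ).1) (r + 1)
  have h3 : ∀ᶠ F in L, ∀ β ∈ s, p F → ∃ ξ ∈ F, ξ ∈ Cone e β (z β) :=
    (Filter.eventually_all_finset s).2 fun β hβ => (hz β (hsB hβ)).2
  obtain ⟨F, ⟨hpF, hF⟩, h4⟩ := (hr.and_eventually h3).exists
  have h5 : ∀ β, ∃ ξ, β ∈ s → ξ ∈ F ∧ ξ ∈ Cone e β (z β) := by
    intro β
    by_cases h : β ∈ s
    · obtain ⟨ξ, hξ⟩ := h4 β h hpF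
      exact ⟨ξ, fun _ => hξ⟩
    · exact ⟨β, fun h' => absurd h' h⟩
  choose f hf using h5
  have h6 : ∀ β ∈ s, ∀ β' ∈ s, β < β' → f β ≠ f β' := by
    intro β hβ β' hβ' hlt h
    obtain ⟨ν, hν, h7⟩ := hs β hβ β' hβ' hlt
    exact h7 (((hf β hβ).2.2 ν hν).symm.trans (h ▸ (hf β' hβ').2.2 ν (hν.trans hlt)))
  have h7 : s.card ≤ F.card := by
    refine Finset.card_le_card_of_injOn f (fun β hβ => (hf β hβ).1) fun β hβ β' hβ' h => ?_
    rcases lt_trichotomy β β' with h8 | h8 | h8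
    · exact absurd h (h6 β hβ β' hβ' h8)
    · exact h8
    · exact absurd h.symm (h6 β' hβ' β hβ h8)
  omega

end Pool.Agent.Lib.MP_0fa4a2_gt.Nec
end

-- part Pool.Agent.Lib.MP_0fa4a2_gt.NecTree
section

/-!
The tree of side conditions and promises.
-/

namespace Pool.Agent.Lib.MP_0fa4a2_gt.Nec

open Set

universe u

/-- A promise. -/
structure Pr (W : Type u) where
  g : W → ℕ
  L : Filter (Finset W)

/-- A potential node: level, side condition, height function, promises, codes of predecessors. -/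
structure Nd (W M : Type u) where
  a : W
  N : Set M
  f : W → ℕ
  G : Set (Pr W)
  P : Set M

def Nd.Ct {W M : Type u} (t : Nd W M) : Prop := t.N.Countable ∧ t.G.Countable ∧ t.P.Countable

/-- The data of the construction. -/
structure Dat (W M : Type u) [LinearOrder W] where
  hW : LikeOmega1 W
  ι : W → M
  ι_inj : Function.Injective ι
  e : W → W → ℕ
  e_fin : ∀ ξ n, {ν | ν < ξ ∧ e ξ ν = n}.Finite
  e_cnt : ∀ α, ∃ R : Set W, R.Countable ∧ ∀ ξ, α ≤ ξ → ∃ ρ ∈ R, α ≤ ρ ∧ ∀ ν < α, e ξ ν = e ρ ν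
  S : Set (Set M)
  S_cnt : ∀ N ∈ S, N.Countable
  S_tr : ∀ N ∈ S, ∃ α, ∀ ξ, ι ξ ∈ N ↔ ξ < α
  S_stat : ∀ F : Finset M → Set M, (∀ a, (F a).Countable) → ∃ N ∈ S, Closed F N
  r : M → M → Prop
  r_wf : WellFounded r
  cand : M → Finset M → Set M
  cand_cnt : ∀ x a, (cand x a).Countable
  desc : ∀ N ∈ S, ∀ x, x ∉ range ι → x ∉ N →
    ∃ a : Finset M, ↑a ⊆ N ∧ ∃ y ∈ cand x a, r y x ∧ y ∉ N
  A : Set M → Set (Set M)
  A_cnt : ∀ N, (A N).Countable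
  A_star : ∀ D : Set M, ∃ F : Finset M → Set M, (∀ a, (F a).Countable) ∧
    ∀ N : Set M, N.Countable → Closed F N → D ∩ N ∈ A N
  cd : Nd W M → M
  cd_inj : ∀ s t : Nd W M, s.Ct → t.Ct → cd s = cd t → s = t

variable {W M : Type u} [LinearOrder W]

def Keeps (f : W → ℕ) (p : Pr W) : Prop :=
  CountableInterFilter p.L ∧ (∀ β, ∀ᶠ F in p.L, ∀ ξ ∈ F, β ≤ ξ) ∧ ∃ᶠ F in p.L, ∀ ξ ∈ F, f ξ = p.g ξ

namespace Dat

variable (D : Dat W M)

def Inv (α : W) (f : W → ℕ) : Prop :=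
  ∀ ξ η, α ≤ ξ → α ≤ η → (∀ ν < α, D.e ξ ν = D.e η ν) → f ξ = f η

def Le (s t : Nd W M) : Prop := s = t ∨ D.cd s ∈ t.P

def Nice (H : Set (Nd W M)) (α : W) (N d : Set M) : Prop :=
  ∀ s ∈ H, D.cd s ∈ N → ∀ F : Finset W, (∀ ξ ∈ F, α ≤ ξ) →
    ∃ s' ∈ H, D.cd s' ∈ N ∧ D.Le s s' ∧ D.cd s' ∉ d ∧ ∀ ξ ∈ F, s'.f ξ = s.f ξ

/-- The condition on a node relative to the set `H` of nodes of lower level. -/
structure Cond (H : Set (Nd W M)) (t : Nd W M) : Prop where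
  ct : t.Ct
  PN : t.P ⊆ t.N
  tr : ∀ ξ, D.ι ξ ∈ t.N ↔ ξ < t.a
  inv : D.Inv t.a t.f
  keeps : ∀ p ∈ t.G, Keeps t.f p
  hist : ∀ c ∈ t.P, ∃ s ∈ H, D.cd s = c
  mono : ∀ s ∈ H, D.cd s ∈ t.P →
    s.P ⊆ t.P ∧ s.N ⊆ t.N ∧ s.G ⊆ t.G ∧ ∀ ξ, t.a ≤ ξ → s.f ξ ≤ t.f ξ
  chain : ∀ s ∈ H, ∀ s' ∈ H, D.cd s ∈ t.P → D.cd s' ∈ t.P → D.Le s s' ∨ D.Le s' s
  lim : t.P.Nonempty → (∀ s ∈ H, D.cd s ∈ t.P → ∃ s' ∈ H, D.cd s' ∈ t.P ∧ D.cd s ∈ s'.P) →
    t.N ∈ D.S ∧ (∀ y ∈ t.N, ∃ s ∈ H, D.cd s ∈ t.P ∧ y ∈ s.N) ∧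
      ∀ d ∈ D.A t.N, D.Nice H t.a t.N d → ∃ s ∈ H, D.cd s ∈ t.P ∧ D.cd s ∉ d

variable [WellFoundedLT W]

noncomputable def Lev : W → Set (Nd W M) :=
  (wellFounded_lt (α := W)).fix fun α rec =>
    {t | t.a = α ∧ D.Cond {s | ∃ β, ∃ h : β < α, s ∈ rec β h} t}

def Good (t : Nd W M) : Prop := t ∈ D.Lev t.a

/-- The good nodes of level below `α`. -/
def Bel (α : W) : Set (Nd W M) := {s | D.Good s ∧ s.a < α}

theorem tree_mem_lev (α : W) (t : Nd W M) :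
    t ∈ D.Lev α ↔ t.a = α ∧ D.Cond {s | ∃ β, β < α ∧ s ∈ D.Lev β} t := by
  rw [Lev, WellFounded.fix_eq]
  simp only [exists_prop]
  rfl

theorem good_iff (t : Nd W M) : D.Good t ↔ D.Cond (D.Bel t.a) t := by
  rw [Good, D.tree_mem_lev]
  have e : {s | ∃ β, β < t.a ∧ s ∈ D.Lev β} = D.Bel t.a := by
    ext s
    refine ⟨?_, fun h => ⟨s.a, h.2, h.1⟩⟩
    rintro ⟨β, h1, h2⟩
    obtain rfl := ((D.tree_mem_lev β s).1 h2).1
    exact ⟨h2, h1⟩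
  rw [e]
  exact and_iff_right rfl

/-- The tree. -/
def Tr : Type u := {t : Nd W M // D.Good t}

variable {D}

theorem Tr.cond (t : D.Tr) : D.Cond (D.Bel t.1.a) t.1 := (D.good_iff t.1).1 t.2

theorem Tr.cd_inj {s t : D.Tr} (h : D.cd s.1 = D.cd t.1) : s = t :=
  Subtype.ext (D.cd_inj _ _ s.cond.ct t.cond.ct h)

theorem Tr.a_lt_of_mem {s t : D.Tr} (h : D.cd s.1 ∈ t.1.P) : s.1.a < t.1.a := by
  obtain ⟨s', h1, h2⟩ := t.cond.hist _ h
  obtain rfl : (⟨s', h1.1⟩ : D.Tr) = s := Tr.cd_inj h2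
  exact h1.2

theorem Tr.mono_of_mem {s t : D.Tr} (h : D.cd s.1 ∈ t.1.P) :
    s.1.P ⊆ t.1.P ∧ s.1.N ⊆ t.1.N ∧ s.1.G ⊆ t.1.G ∧ ∀ ξ, t.1.a ≤ ξ → s.1.f ξ ≤ t.1.f ξ :=
  t.cond.mono s.1 ⟨s.2, Tr.a_lt_of_mem h⟩ h

instance : PartialOrder D.Tr where
  le s t := s = t ∨ D.cd s.1 ∈ t.1.P
  le_refl _ := Or.inl rfl
  le_trans a b c hab hbc := by
    rcases hab with rfl | hab
    · exact hbc
    rcases hbc with rfl | hbc
    · exact Or.inr hab
    · exact Or.inr ((Tr.mono_of_mem hbc).1 hab)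
  le_antisymm a b hab hba := by
    rcases hab with rfl | hab
    · rfl
    rcases hba with rfl | hba
    · rfl
    · exact absurd (Tr.a_lt_of_mem hab) (Tr.a_lt_of_mem hba).not_gt

theorem Tr.le_iff {s t : D.Tr} : s ≤ t ↔ D.Le s.1 t.1 :=
  or_congr_left Subtype.ext_iff

theorem Tr.lt_iff {s t : D.Tr} : s < t ↔ D.cd s.1 ∈ t.1.P := by
  rw [lt_iff_le_and_ne]
  refine ⟨fun h => h.1.resolve_left h.2, fun h => ⟨Or.inr h, ?_⟩⟩
  rintro rfl
  exact lt_irrefl _ (Tr.a_lt_of_mem h)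

theorem Tr.a_lt {s t : D.Tr} (h : s < t) : s.1.a < t.1.a := Tr.a_lt_of_mem (Tr.lt_iff.1 h)

theorem Tr.a_le {s t : D.Tr} (h : s ≤ t) : s.1.a ≤ t.1.a := by
  rcases h with rfl | h
  exacts [le_rfl, (Tr.a_lt_of_mem h).le]

theorem Tr.N_le {s t : D.Tr} (h : s ≤ t) : s.1.N ⊆ t.1.N := by
  rcases h with rfl | h
  exacts [subset_rfl, (Tr.mono_of_mem h).2.1]

theorem Tr.G_le {s t : D.Tr} (h : s ≤ t) : s.1.G ⊆ t.1.G := by
  rcases h with rfl | h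
  exacts [subset_rfl, (Tr.mono_of_mem h).2.2.1]

theorem Tr.f_le {s t : D.Tr} (h : s ≤ t) {ξ : W} (hξ : t.1.a ≤ ξ) : s.1.f ξ ≤ t.1.f ξ := by
  rcases h with rfl | h
  exacts [le_rfl, (Tr.mono_of_mem h).2.2.2 ξ hξ]

theorem Tr.cd_mem {s t : D.Tr} (h : s < t) : D.cd s.1 ∈ t.1.N := t.cond.PN (Tr.lt_iff.1 h)

instance : WellFoundedLT D.Tr :=
  ⟨Subrelation.wf (r := InvImage (· < ·) fun t : D.Tr => t.1.a) (fun h => Tr.a_lt h)
    (InvImage.wf _ wellFounded_lt)⟩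

theorem isTree : IsTree D.Tr := by
  intro a b c hac hbc
  rcases hac with rfl | hac
  · exact Or.inr hbc
  rcases hbc with rfl | hbc
  · exact Or.inl (Or.inr hac)
  rw [Tr.le_iff, Tr.le_iff]
  exact c.cond.chain a.1 ⟨a.2, Tr.a_lt_of_mem hac⟩ b.1 ⟨b.2, Tr.a_lt_of_mem hbc⟩ hac hbc

theorem Tr.countable_Iic (t : D.Tr) : {s | s ≤ t}.Countable :=
  ((t.cond.ct.2.2.preimage_of_injOn (f := fun s : D.Tr => D.cd s.1)
    fun _ _ _ _ h => Tr.cd_inj h).insert t).mono fun _ h => h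

/-- Niceness phrased inside the tree. -/
def NiceT (α : W) (N d : Set M) : Prop :=
  ∀ s : D.Tr, s.1.a < α → D.cd s.1 ∈ N → ∀ F : Finset W, (∀ ξ ∈ F, α ≤ ξ) →
    ∃ s' : D.Tr, s'.1.a < α ∧ D.cd s'.1 ∈ N ∧ s ≤ s' ∧ D.cd s'.1 ∉ d ∧ ∀ ξ ∈ F, s'.1.f ξ = s.1.f ξ

theorem niceT_iff (α : W) (N d : Set M) : D.NiceT α N d ↔ D.Nice (D.Bel α) α N d := by
  refine ⟨fun h s hs hN F hF => ?_, fun h s hs hN F hF => ?_⟩
  · obtain ⟨s', h1, h2, h3, h4⟩ := h ⟨s, hs.1⟩ hs.2 hN F hF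
    exact ⟨s'.1, ⟨s'.2, h1⟩, h2, Tr.le_iff.1 h3, h4⟩
  · obtain ⟨s', h1, h2, h3, h4⟩ := h s.1 ⟨s.2, hs⟩ hN F hF
    exact ⟨⟨s', h1.1⟩, h1.2, h2, Tr.le_iff.2 h3, h4⟩

theorem Tr.lim {t : D.Tr} (h : IsLim t) :
    t.1.N ∈ D.S ∧ (∀ y ∈ t.1.N, ∃ s < t, y ∈ s.1.N) ∧
      ∀ d ∈ D.A t.1.N, D.NiceT t.1.a t.1.N d → ∃ s < t, D.cd s.1 ∉ d := by
  obtain ⟨w, hw⟩ := h.1
  obtain ⟨h1, h2, h3⟩ := t.cond.lim ⟨_, Tr.lt_iff.1 hw⟩ fun s hs hP => by
    obtain ⟨s', k1, k2⟩ := h.2 ⟨s, hs.1⟩ (Tr.lt_iff.2 hP)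
    exact ⟨s'.1, ⟨s'.2, Tr.a_lt k2⟩, Tr.lt_iff.1 k2, Tr.lt_iff.1 k1⟩
  refine ⟨h1, fun y hy => ?_, fun d hd hn => ?_⟩
  · obtain ⟨s, k1, k2, k3⟩ := h2 y hy
    exact ⟨⟨s, k1.1⟩, Tr.lt_iff.2 k2, k3⟩
  · obtain ⟨s, k1, k2, k3⟩ := h3 d hd ((niceT_iff _ _ _).1 hn)
    exact ⟨⟨s, k1.1⟩, Tr.lt_iff.2 k2, k3⟩

theorem Tr.lim_finset {t : D.Tr} (h : IsLim t) {a : Finset M} (ha : ↑a ⊆ t.1.N) :
    ∃ s < t, ↑a ⊆ s.1.N := by
  classical
  induction a using Finset.induction_on with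
  | empty => exact h.1.imp fun s hs => ⟨hs, by rw [Finset.coe_empty]; exact empty_subset _⟩
  | insert y a _ ih =>
    rw [Finset.coe_insert, insert_subset_iff] at ha
    obtain ⟨s, h1, h2⟩ := ih ha.2
    obtain ⟨s', h3, h4⟩ := (Tr.lim h).2.1 y ha.1
    rw [Finset.coe_insert]
    rcases isTree s s' t h1.le h3.le with k | k
    · exact ⟨s', h3, insert_subset h4 (h2.trans (Tr.N_le k))⟩
    · exact ⟨s, h1, insert_subset (Tr.N_le k h4) h2⟩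

/-- Building a node on top of a countable chain. -/
theorem exists_node (x : Set D.Tr) (hx : x.Countable) (chain : ∀ a ∈ x, ∀ b ∈ x, a ≤ b ∨ b ≤ a)
    (lower : ∀ a ∈ x, ∀ b, b ≤ a → b ∈ x) (α : W) (N : Set M) (f : W → ℕ) (G : Set (Pr W))
    (hN : N.Countable) (hG : G.Countable) (tr : ∀ ξ, D.ι ξ ∈ N ↔ ξ < α) (inv : D.Inv α f)
    (keeps : ∀ p ∈ G, Keeps f p)
    (mono : ∀ s ∈ x, s.1.a < α ∧ D.cd s.1 ∈ N ∧ s.1.N ⊆ N ∧ s.1.G ⊆ G ∧
      ∀ ξ, α ≤ ξ → s.1.f ξ ≤ f ξ)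
    (lim : x.Nonempty → (∀ s ∈ x, ∃ s' ∈ x, s < s') → N ∈ D.S ∧ (∀ y ∈ N, ∃ s ∈ x, y ∈ s.1.N) ∧
      ∀ d ∈ D.A N, D.NiceT α N d → ∃ s ∈ x, D.cd s.1 ∉ d) :
    ∃ t : D.Tr, t.1.a = α ∧ t.1.N = N ∧ t.1.f = f ∧ t.1.G = G ∧ ∀ s, s < t ↔ s ∈ x := by
  have key : ∀ s : D.Tr, D.cd s.1 ∈ (fun s : D.Tr => D.cd s.1) '' x ↔ s ∈ x := fun s =>
    Function.Injective.mem_set_image fun _ _ h => Tr.cd_inj h
  refine ⟨⟨⟨α, N, f, G, (fun s : D.Tr => D.cd s.1) '' x⟩, (D.good_iff _).2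
    ⟨⟨hN, hG, hx.image _⟩, ?_, tr, inv, keeps, ?_, fun s hs hP => ?_, fun s hs s' hs' hP hP' => ?_,
      fun hne hl => ?_⟩⟩, rfl, rfl, rfl, rfl, fun s => Tr.lt_iff.trans (key s)⟩
  · rintro _ ⟨s, hs, rfl⟩
    exact (mono s hs).2.1
  · rintro _ ⟨s, hs, rfl⟩
    exact ⟨s.1, ⟨s.2, (mono s hs).1⟩, rfl⟩
  · have h1 := (key ⟨s, hs.1⟩).1 hP
    refine ⟨fun c hc => ?_, (mono _ h1).2.2⟩
    obtain ⟨s', h2, rfl⟩ := (Tr.cond ⟨s, hs.1⟩).hist c hc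
    exact (key ⟨s', h2.1⟩).2 (lower _ h1 _ (Or.inr hc))
  · exact (chain _ ((key ⟨s, hs.1⟩).1 hP) _ ((key ⟨s', hs'.1⟩).1 hP')).imp Tr.le_iff.1 Tr.le_iff.1
  · obtain ⟨h1, h2, h3⟩ := lim hne.of_image fun s hs => by
      obtain ⟨s', k1, k2, k3⟩ := hl s.1 ⟨s.2, (mono s hs).1⟩ ((key s).2 hs)
      exact ⟨⟨s', k1.1⟩, (key ⟨s', k1.1⟩).1 k2, Tr.lt_iff.2 k3⟩
    refine ⟨h1, fun y hy => ?_, fun d hd hn => ?_⟩
    · obtain ⟨s, k1, k2⟩ := h2 y hy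
      exact ⟨s.1, ⟨s.2, (mono s k1).1⟩, (key s).2 k1, k2⟩
    · obtain ⟨s, k1, k2⟩ := h3 d hd ((niceT_iff _ _ _).2 hn)
      exact ⟨s.1, ⟨s.2, (mono s k1).1⟩, (key s).2 k1, k2⟩

theorem nonempty_tr (D : Dat W M) : Nonempty D.Tr := by
  obtain ⟨α, -⟩ := D.hW.bdd ∅ countable_empty
  obtain ⟨t, -⟩ := exists_node (D := D) ∅ countable_empty (fun _ h => h.elim) (fun _ h => h.elim) α
    (D.ι '' Iio α) (fun _ => 0) ∅ ((D.hW.cnt α).image _) countable_empty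
    (fun _ => D.ι_inj.mem_set_image) (fun _ _ _ _ _ => rfl) (fun _ h => h.elim) (fun _ h => h.elim)
    fun h => absurd h not_nonempty_empty
  exact ⟨t⟩

end Dat

end Pool.Agent.Lib.MP_0fa4a2_gt.Nec
end

-- part Pool.Agent.Lib.MP_0fa4a2_gt.NecExt
section

/-!
One-step extensions.
-/

namespace Pool.Agent.Lib.MP_0fa4a2_gt.Nec

open Set

universe u

variable {W M : Type u} [LinearOrder W] [WellFoundedLT W]

omit [WellFoundedLT W] in
theorem ext_keeps_congr {f f' : W → ℕ} {p : Pr W} (h : Keeps f p) (β : W)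
    (e : ∀ ξ, β ≤ ξ → f' ξ = f ξ) : Keeps f' p := by
  refine ⟨h.1, h.2.1, (h.2.2.and_eventually (h.2.1 β)).mono fun F hF ξ hξ => ?_⟩
  rw [e ξ (hF.2 ξ hξ), hF.1 ξ hξ]

namespace Dat

variable {D : Dat W M}

omit [WellFoundedLT W] in
theorem Inv.mono {α β : W} {f : W → ℕ} (h : D.Inv α f) (hab : α ≤ β) : D.Inv β f :=
  fun ξ η h1 h2 h3 => h ξ η (hab.trans h1) (hab.trans h2) fun ν hν => h3 ν (hν.trans_le hab)

theorem ext1 (t : D.Tr) (y : M) (γ : W) : ∃ β, γ ≤ β ∧ t.1.a < β ∧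
    ∀ (f : W → ℕ) (G : Set (Pr W)), G.Countable → t.1.G ⊆ G → D.Inv β f → (∀ p ∈ G, Keeps f p) →
      (∀ ξ, β ≤ ξ → t.1.f ξ ≤ f ξ) →
      ∃ t' : D.Tr, t < t' ∧ t'.1.a = β ∧ t'.1.f = f ∧ t'.1.G = G ∧ y ∈ t'.1.N := by
  have hc : ({y, D.cd t.1} : Set M).Countable := (countable_singleton _).insert _
  obtain ⟨β, hβ⟩ := D.hW.bdd ({γ, t.1.a} ∪ D.ι ⁻¹' {y, D.cd t.1})
    (((countable_singleton _).insert _).union (hc.preimage D.ι_inj))
  have h1 : γ < β := hβ _ (Or.inl (Or.inl rfl))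
  have h2 : t.1.a < β := hβ _ (Or.inl (Or.inr rfl))
  refine ⟨β, h1.le, h2, fun f G hG htG hinv hk hf => ?_⟩
  obtain ⟨t', e1, e2, e3, e4, e5⟩ := exists_node {s | s ≤ t} t.countable_Iic
    (fun a ha b hb => isTree a b t ha hb) (fun a ha b hb => hb.trans ha) β
    (t.1.N ∪ {y, D.cd t.1} ∪ D.ι '' Iio β) f G
    ((t.cond.ct.1.union hc).union ((D.hW.cnt β).image _)) hG
    (fun ξ => ⟨by
      rintro ((h | h) | ⟨η, hη, h⟩)
      · exact ((t.cond.tr ξ).1 h).trans h2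
      · exact hβ _ (Or.inr h)
      · rw [← D.ι_inj h]
        exact hη, fun h => Or.inr ⟨ξ, h, rfl⟩⟩) hinv hk
    (fun s hs => ⟨(Tr.a_le hs).trans_lt h2, by
      rcases (show s ≤ t from hs).eq_or_lt with h | h
      · rw [h]
        exact Or.inl (Or.inr (Or.inr rfl))
      · exact Or.inl (Or.inl (Tr.cd_mem h)),
      fun z hz => Or.inl (Or.inl (Tr.N_le hs hz)), (Tr.G_le hs).trans htG,
      fun ξ hξ => (Tr.f_le hs (h2.le.trans hξ)).trans (hf ξ hξ)⟩)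
    (fun _ h => by
      obtain ⟨s', hs', hlt⟩ := h t (le_refl t)
      exact absurd hs' hlt.not_ge)
  refine ⟨t', (e5 t).2 (le_refl t), e1, e3, e4, ?_⟩
  rw [e2]
  exact Or.inl (Or.inr (Or.inl rfl))

theorem ext_plain (t : D.Tr) (y : M) : ∃ t' : D.Tr, t < t' ∧ t'.1.f = t.1.f ∧ y ∈ t'.1.N := by
  obtain ⟨β, -, h2, h⟩ := ext1 t y t.1.a
  obtain ⟨t', e1, -, e3, -, e5⟩ := h t.1.f t.1.G t.cond.ct.2.1 subset_rfl (t.cond.inv.mono h2.le)
    t.cond.keeps fun _ _ => le_rfl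
  exact ⟨t', e1, e3, e5⟩

theorem ext_two (t : D.Tr) : ∃ s s' : D.Tr, t ≤ s ∧ t ≤ s' ∧ ¬ s ≤ s' ∧ ¬ s' ≤ s := by
  obtain ⟨β, -, h2, h⟩ := ext1 t (D.cd t.1) t.1.a
  have hinv := t.cond.inv.mono h2.le
  obtain ⟨s, e1, e2, e3, -, -⟩ := h t.1.f t.1.G t.cond.ct.2.1 subset_rfl hinv
    t.cond.keeps fun _ _ => le_rfl
  have hu : ∀ ξ, β ≤ ξ → Function.update t.1.f t.1.a (t.1.f t.1.a + 1) ξ = t.1.f ξ :=
    fun ξ hξ => Function.update_of_ne (h2.trans_le hξ).ne' _ _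
  obtain ⟨s', d1, d2, d3, -, -⟩ := h (Function.update t.1.f t.1.a (t.1.f t.1.a + 1)) t.1.G
    t.cond.ct.2.1 subset_rfl
    (fun ξ η h3 h4 h5 => by rw [hu ξ h3, hu η h4]; exact hinv ξ η h3 h4 h5)
    (fun p hp => ext_keeps_congr (t.cond.keeps p hp) β hu) fun ξ hξ => (hu ξ hξ).ge
  have hne : s ≠ s' := by
    intro e
    have h3 : s.1.f t.1.a = s'.1.f t.1.a := by rw [e]
    rw [e3, d3, Function.update_self] at h3
    omega
  refine ⟨s, s', e1.le, d1.le, fun h3 => ?_, fun h3 => ?_⟩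
  · have h4 := Tr.a_lt (lt_of_le_of_ne h3 hne)
    rw [e2, d2] at h4
    exact lt_irrefl _ h4
  · have h4 := Tr.a_lt (lt_of_le_of_ne h3 hne.symm)
    rw [e2, d2] at h4
    exact lt_irrefl _ h4

/-- Basic sets of the filter used for the promise. -/
def extBas (O : Set D.Tr) (t : D.Tr) (O₀ : Set D.Tr) (β : W) : Set (Finset W) :=
  {F | (∀ ξ ∈ F, β ≤ ξ) ∧ ∀ t' ∈ O₀, t' ∈ O → t ≤ t' → ¬ ∀ ξ ∈ F, t'.1.f ξ = t.1.f ξ}

/-- The filter used for the promise. -/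
def extFil (O : Set D.Tr) (t : D.Tr) : Filter (Finset W) :=
  Filter.ofCountableInter {U | ∃ O₀ : Set D.Tr, O₀.Countable ∧ ∃ β, extBas O t O₀ β ⊆ U}
    (fun S hS h => by
      have h' : ∀ U : S, ∃ O₀ : Set D.Tr, O₀.Countable ∧ ∃ β, extBas O t O₀ β ⊆ U.1 :=
        fun U => h U.2
      choose Q hQ b hb using h'
      have := hS.to_subtype
      obtain ⟨β, hβ⟩ := D.hW.bdd (range b) (countable_range b)
      refine ⟨⋃ U, Q U, countable_iUnion hQ, β, fun F hF U hU => hb ⟨U, hU⟩ ⟨fun ξ hξ => ?_, ?_⟩⟩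
      · exact (hβ _ ⟨⟨U, hU⟩, rfl⟩).le.trans (hF.1 ξ hξ)
      · exact fun t' ht' => hF.2 t' (mem_iUnion.2 ⟨_, ht'⟩))
    (fun _ _ ⟨O₀, h1, β, h2⟩ h => ⟨O₀, h1, β, h2.trans h⟩)

theorem ext_mem_fil {O : Set D.Tr} {t : D.Tr} {U : Set (Finset W)} :
    U ∈ extFil O t ↔ ∃ O₀ : Set D.Tr, O₀.Countable ∧ ∃ β, extBas O t O₀ β ⊆ U := Iff.rfl

/-- Countably many members of a dense set protect all finite sets of high coordinates. -/
theorem star {O : Set D.Tr} (hO : ∀ t, ∃ t' ∈ O, t ≤ t') (t : D.Tr) :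
    ∃ O₀ : Set D.Tr, O₀.Countable ∧ ∃ β, ∀ F : Finset W, (∀ ξ ∈ F, β ≤ ξ) →
      ∃ t' ∈ O₀, t' ∈ O ∧ t ≤ t' ∧ ∀ ξ ∈ F, t'.1.f ξ = t.1.f ξ := by
  by_contra hcon
  have hne : ∀ O₀ : Set D.Tr, O₀.Countable → ∀ β, (extBas O t O₀ β).Nonempty := by
    intro O₀ h1 β
    by_contra h2
    refine hcon ⟨O₀, h1, β, fun F hF => ?_⟩
    by_contra h3
    exact h2 ⟨F, hF, fun t' a b c d => h3 ⟨t', a, b, c, d⟩⟩
  have hk : Keeps t.1.f ⟨t.1.f, extFil O t⟩ := by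
    refine ⟨?_, fun β => ?_, fun h => ?_⟩
    · unfold extFil
      infer_instance
    · exact ext_mem_fil.2 ⟨∅, countable_empty, β, fun F hF => hF.1⟩
    · obtain ⟨O₀, h1, β, h2⟩ := ext_mem_fil.1 h
      obtain ⟨F, hF⟩ := hne O₀ h1 β
      exact h2 hF fun _ _ => rfl
  obtain ⟨β, -, h2, h⟩ := ext1 t (D.cd t.1) t.1.a
  obtain ⟨t1, e1, -, -, e4, -⟩ := h t.1.f (insert ⟨t.1.f, extFil O t⟩ t.1.G)
    (t.cond.ct.2.1.insert _) (subset_insert _ _) (t.cond.inv.mono h2.le)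
    (fun p hp => by
      rcases hp with rfl | hp
      · exact hk
      · exact t.cond.keeps p hp) fun _ _ => le_rfl
  obtain ⟨t', h3, h4⟩ := hO t1
  have h5 : (⟨t.1.f, extFil O t⟩ : Pr W) ∈ t'.1.G := by
    refine Tr.G_le h4 ?_
    rw [e4]
    exact mem_insert _ _
  refine (t'.cond.keeps _ h5).2.2 (ext_mem_fil.2 ⟨{t'}, countable_singleton _, β, ?_⟩)
  exact fun F hF => hF.2 t' rfl h3 (e1.le.trans h4)

/-- Countably many extensions raise all high coordinates. -/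
theorem raise (t : D.Tr) :
    ∃ O₀ : Set D.Tr, O₀.Countable ∧ ∃ β, ∀ ζ, β ≤ ζ → ∃ t' ∈ O₀, t ≤ t' ∧ t.1.f ζ < t'.1.f ζ := by
  classical
  have h1 : ∀ p : t.1.G, ∃ γ, ∀ β, γ ≤ β → ∀ ζ, β ≤ ζ → ∃ᶠ F in p.1.L,
      (∀ ξ ∈ F, t.1.f ξ = p.1.g ξ) ∧ ∀ ξ ∈ F, ξ ∉ Cone D.e β ζ := by
    intro p
    have hk := t.cond.keeps p.1 p.2
    have := hk.1
    exact block D.hW D.e_fin p.1.L hk.2.2
  choose g hg using h1
  have := t.cond.ct.2.1.to_subtype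
  obtain ⟨γ, hγ⟩ := D.hW.bdd (range g) (countable_range g)
  obtain ⟨β, h2, h3, h⟩ := ext1 t (D.cd t.1) γ
  have hinv := t.cond.inv.mono h3.le
  have h4 : ∀ ρ, ∃ t' : D.Tr, β ≤ ρ → t ≤ t' ∧
      t'.1.f = fun ξ => if ξ ∈ Cone D.e β ρ then t.1.f ξ + 1 else t.1.f ξ := by
    intro ρ
    by_cases hρ : β ≤ ρ
    swap
    · exact ⟨t, fun h => absurd h hρ⟩
    obtain ⟨t', e1, -, e3, -, -⟩ := h
      (fun ξ => if ξ ∈ Cone D.e β ρ then t.1.f ξ + 1 else t.1.f ξ) t.1.G t.cond.ct.2.1 subset_rfl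
      (fun ξ η a b c => by
        have e : ξ ∈ Cone D.e β ρ ↔ η ∈ Cone D.e β ρ :=
          ⟨fun d => ⟨b, fun ν hν => (c ν hν).symm.trans (d.2 ν hν)⟩,
            fun d => ⟨a, fun ν hν => (c ν hν).trans (d.2 ν hν)⟩⟩
        simp only [e, hinv ξ η a b c])
      (fun p hp => by
        have hk := t.cond.keeps p hp
        refine ⟨hk.1, hk.2.1, (hg ⟨p, hp⟩ β ((hγ _ ⟨_, rfl⟩).le.trans h2) ρ hρ).mono ?_⟩
        intro F hF ξ hξ
        simp only [if_neg (hF.2 ξ hξ)]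
        exact hF.1 ξ hξ)
      (fun ξ _ => by
        split_ifs
        · exact Nat.le_succ _
        · exact le_rfl)
    exact ⟨t', fun _ => ⟨e1.le, e3⟩⟩
  choose T hT using h4
  obtain ⟨R, hR, hR'⟩ := D.e_cnt β
  refine ⟨T '' R, hR.image _, β, fun ζ hζ => ?_⟩
  obtain ⟨ρ, h5, h6, h7⟩ := hR' ζ hζ
  refine ⟨T ρ, ⟨ρ, h5, rfl⟩, (hT ρ h6).1, ?_⟩
  have h8 : ζ ∈ Cone D.e β ρ := ⟨hζ, h7⟩
  rw [(hT ρ h6).2]
  simp only [if_pos h8]
  exact Nat.lt_succ_self _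

/-- A member of the stationary family closed under given data attached to nodes. -/
theorem exists_closed (H : D.Tr → M → Set M) (hH : ∀ t y, (H t y).Countable)
    (F : Finset M → Set M) (hF : ∀ a, (F a).Countable) :
    ∃ N ∈ D.S, Closed F N ∧ ∀ t : D.Tr, D.cd t.1 ∈ N → ∀ y ∈ N, H t y ⊆ N := by
  classical
  obtain ⟨N, h1, h2⟩ := D.S_stat
    (fun a => F a ∪ ⋃ t ∈ (fun t : D.Tr => D.cd t.1) ⁻¹' (a : Set M), ⋃ y ∈ (a : Set M), H t y)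
    fun a => (hF a).union ((a.countable_toSet.preimage fun _ _ h => Tr.cd_inj h).biUnion
      fun t _ => a.countable_toSet.biUnion fun y _ => hH t y)
  refine ⟨N, h1, fun a ha => subset_union_left.trans (h2 a ha), fun t ht y hy z hz => ?_⟩
  refine h2 {D.cd t.1, y} ?_ (Or.inr ?_)
  · intro w hw
    rcases Finset.mem_insert.1 hw with rfl | hw
    · exact ht
    · rw [Finset.mem_singleton.1 hw]
      exact hy
  · refine mem_biUnion (x := t) (Finset.mem_insert_self (D.cd t.1) {y}) ?_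
    exact mem_biUnion (x := y) (Finset.mem_insert_of_mem (Finset.mem_singleton_self _)) hz

end Dat

end Pool.Agent.Lib.MP_0fa4a2_gt.Nec
end

-- part Pool.Agent.Lib.MP_0fa4a2_gt.NecLim
section

/-!
Limit nodes with a closed side condition.
-/

namespace Pool.Agent.Lib.MP_0fa4a2_gt.Nec

open Set

universe u

variable {W M : Type u} [LinearOrder W] [WellFoundedLT W]

namespace Dat

theorem exists_top (D : Dat W M) (F : Finset M → Set M) (hF : ∀ a, (F a).Countable) :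
    ∃ t : D.Tr, IsLim t ∧ Closed F t.1.N := by
  classical
  obtain ⟨t0⟩ := D.nonempty_tr
  choose pl hpl using fun (t : D.Tr) (y : M) => ext_plain t y
  obtain ⟨N, hNS, hNF, hNH⟩ := exists_closed
    (fun t y => insert (D.ι t.1.a) (insert (D.cd (pl t y).1) t.1.N))
    (fun t _ => (t.cond.ct.1.insert _).insert _) (fun a => insert (D.cd t0.1) (F a))
    (fun a => (hF a).insert _)
  have hNc := D.S_cnt N hNS
  obtain ⟨α, hα⟩ := D.S_tr N hNS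
  obtain ⟨R, hRc, hR⟩ := D.e_cnt α
  have ht0 : D.cd t0.1 ∈ N := hNF ∅ (by simp) (mem_insert _ _)
  have hlev : ∀ t : D.Tr, D.cd t.1 ∈ N → t.1.a < α := fun t ht =>
    (hα _).1 (hNH t ht _ ht (mem_insert _ _))
  have hsub : ∀ t : D.Tr, D.cd t.1 ∈ N → t.1.N ⊆ N := fun t ht y hy =>
    hNH t ht _ ht (Or.inr (Or.inr hy))
  have hplN : ∀ t : D.Tr, D.cd t.1 ∈ N → ∀ y ∈ N, D.cd (pl t y).1 ∈ N := fun t ht y hy =>
    hNH t ht y hy (Or.inr (Or.inl rfl))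
  have hTN : {t : D.Tr | D.cd t.1 ∈ N}.Countable :=
    hNc.preimage_of_injOn (f := fun t : D.Tr => D.cd t.1) fun _ _ _ _ h => Tr.cd_inj h
  let P := {p : D.Tr × Finset W // D.cd p.1.1 ∈ N ∧ ∀ ξ ∈ p.2, α ≤ ξ}
  let Rl : P → P → Prop := fun p q =>
    p.1.1 ≤ q.1.1 ∧ p.1.2 ⊆ q.1.2 ∧ ∀ ξ ∈ p.1.2, q.1.1.1.f ξ = p.1.1.1.f ξ
  let GG : Set (Pr W) := ⋃ t ∈ {t : D.Tr | D.cd t.1 ∈ N}, t.1.G
  have hGG : GG.Countable := hTN.biUnion fun t _ => t.cond.ct.2.1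
  let Task : Set (M × Option (Set M) × Option W × Option (Pr W)) :=
    N ×ˢ (insert none (some '' {d ∈ D.A N | D.NiceT α N d})) ×ˢ
      (insert none (some '' {ρ ∈ R | α ≤ ρ})) ×ˢ (insert none (some '' GG))
  have hTask : Task.Countable :=
    hNc.prod ((((((D.A_cnt N).mono (sep_subset _ _)).image _).insert _)).prod
      ((((hRc.mono (sep_subset _ _)).image _).insert _).prod ((hGG.image _).insert _)))
  let Sec : Pr W → P → Prop := fun π p => π ∈ p.1.1.1.G → ∃ᶠ F in π.L,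
    (∀ ξ ∈ F, p.1.1.1.f ξ = π.g ξ) ∧ ∀ ξ ∈ F, α ≤ ξ ∧ ∃ ζ ∈ p.1.2, ∀ ν < α, D.e ξ ν = D.e ζ ν
  let Done : M × Option (Set M) × Option W × Option (Pr W) → P → Prop := fun k p =>
    k.1 ∈ p.1.1.1.N ∧ (∀ d, k.2.1 = some d → ∃ s ≤ p.1.1, D.cd s.1 ∉ d) ∧
      (∀ ρ, k.2.2.1 = some ρ → ρ ∈ p.1.2) ∧ ∀ π, k.2.2.2 = some π → Sec π p
  have hRt : ∀ p q r : P, Rl p q → Rl q r → Rl p r := fun p q r h1 h2 =>
    ⟨h1.1.trans h2.1, h1.2.1.trans h2.2.1, fun ξ hξ => by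
      rw [h2.2.2 ξ (h1.2.1 hξ), h1.2.2 ξ hξ]⟩
  have hsec : ∀ (π : Pr W) (p : P), ∃ q : P, Rl p q ∧ q.1.1 = p.1.1 ∧ Sec π q := by
    intro π p
    by_cases hπ : π ∈ p.1.1.1.G
    swap
    · exact ⟨p, ⟨le_rfl, subset_rfl, fun _ _ => rfl⟩, rfl, fun h => absurd h hπ⟩
    obtain ⟨k1, k2, k3⟩ := p.1.1.cond.keeps π hπ
    have hfin : {F0 : Finset W | ↑F0 ⊆ {ρ ∈ R | α ≤ ρ}}.Countable := by
      have := countable_ofPred_finite_subset (hRc.mono (sep_subset R fun ρ => α ≤ ρ))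
      refine (this.preimage_of_injOn (f := fun F0 : Finset W => (F0 : Set W))
        fun _ _ _ _ h => Finset.coe_injective h).mono fun F0 h => And.intro F0.finite_toSet h
    have : ∃ F0 : Finset W, ↑F0 ⊆ {ρ ∈ R | α ≤ ρ} ∧ ∃ᶠ F in π.L,
        (∀ ξ ∈ F, p.1.1.1.f ξ = π.g ξ) ∧
          ∀ ξ ∈ F, α ≤ ξ ∧ ∃ ζ ∈ F0, ∀ ν < α, D.e ξ ν = D.e ζ ν := by
      by_contra hcon
      push Not at hcon
      have hall := (eventually_countable_ball (l := π.L) hfin).2 fun F0 h => hcon F0 h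
      obtain ⟨F, hF1, hF2, hF3⟩ := (k3.and_eventually ((k2 α).and hall)).exists
      choose! ρ hρ1 hρ2 hρ3 using hR
      obtain ⟨ξ, hξ, h4⟩ := hF3 (F.image ρ) (by
        intro z hz
        obtain ⟨ξ, hξ, rfl⟩ := Finset.mem_image.1 (Finset.mem_coe.1 hz)
        exact ⟨hρ1 ξ (hF2 ξ hξ), hρ2 ξ (hF2 ξ hξ)⟩) hF1
      obtain ⟨ν, hν, h5⟩ := h4 (hF2 ξ hξ) (ρ ξ) (Finset.mem_image_of_mem _ hξ)
      exact h5 (hρ3 ξ (hF2 ξ hξ) ν hν)
    obtain ⟨F0, h1, h2⟩ := this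
    refine ⟨⟨(p.1.1, p.1.2 ∪ F0), p.2.1, fun ξ hξ => ?_⟩,
      ⟨le_rfl, Finset.subset_union_left, fun _ _ => rfl⟩, rfl, fun _ => h2.mono ?_⟩
    · rcases Finset.mem_union.1 hξ with h | h
      · exact p.2.2 ξ h
      · exact (h1 h).2
    · rintro F ⟨h3, h4⟩
      refine ⟨h3, fun ξ hξ => ⟨(h4 ξ hξ).1, ?_⟩⟩
      obtain ⟨ζ, h5, h6⟩ := (h4 ξ hξ).2
      exact ⟨ζ, Finset.mem_union_right _ h5, h6⟩
  obtain ⟨u, -, huR, huT⟩ := book Rl (fun p => ⟨le_rfl, subset_rfl, fun _ _ => rfl⟩) hRt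
    (fun _ => Task) (fun _ => hTask) Done (by
      rintro - ⟨y, od, oρ, oπ⟩ ⟨h1, h2, h3, -⟩ q -
      dsimp only at h1 h2 h3
      -- catch `y`
      let q1 : P := ⟨(pl q.1.1 y, q.1.2), hplN _ q.2.1 y h1, q.2.2⟩
      have r1 : Rl q q1 := ⟨(hpl _ _).1.le, subset_rfl, fun ξ _ => by
        simp only [q1]; rw [(hpl _ _).2.1]⟩
      have y1 : y ∈ q1.1.1.1.N := (hpl _ _).2.2
      -- escape
      obtain ⟨q2, r2, d2⟩ : ∃ q2 : P, Rl q1 q2 ∧ ∀ d, od = some d → D.cd q2.1.1.1 ∉ d := by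
        rcases h2 with rfl | ⟨d, hd, rfl⟩
        · exact ⟨q1, ⟨le_rfl, subset_rfl, fun _ _ => rfl⟩, fun _ h => by simp at h⟩
        · obtain ⟨s', -, a2, a3, a4, a5⟩ := hd.2 q1.1.1 (hlev _ q1.2.1) q1.2.1 q1.1.2 q1.2.2
          refine ⟨⟨(s', q1.1.2), a2, q1.2.2⟩, ⟨a3, subset_rfl, a5⟩, fun d' h => ?_⟩
          obtain rfl : d = d' := by simpa using h
          exact a4
      -- protect a representative
      obtain ⟨q3, r3, e3, d3⟩ : ∃ q3 : P, Rl q2 q3 ∧ q3.1.1 = q2.1.1 ∧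
          ∀ ρ, oρ = some ρ → ρ ∈ q3.1.2 := by
        rcases h3 with rfl | ⟨ρ, hρ, rfl⟩
        · exact ⟨q2, ⟨le_rfl, subset_rfl, fun _ _ => rfl⟩, rfl, fun _ h => by simp at h⟩
        · refine ⟨⟨(q2.1.1, insert ρ q2.1.2), q2.2.1, fun ξ hξ => ?_⟩,
            ⟨le_rfl, Finset.subset_insert _ _, fun _ _ => rfl⟩, rfl, fun ρ' h => ?_⟩
          · rcases Finset.mem_insert.1 hξ with rfl | h
            · exact hρ.2
            · exact q2.2.2 ξ h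
          · obtain rfl : ρ = ρ' := by simpa using h
            exact Finset.mem_insert_self _ _
      -- secure a promise
      obtain ⟨q4, r4, e4, d4⟩ : ∃ q4 : P, Rl q3 q4 ∧ q4.1.1 = q3.1.1 ∧
          ∀ π, oπ = some π → Sec π q4 := by
        rcases oπ with _ | π
        · exact ⟨q3, ⟨le_rfl, subset_rfl, fun _ _ => rfl⟩, rfl, fun _ h => by simp at h⟩
        · obtain ⟨q4, a1, a2, a3⟩ := hsec π q3
          refine ⟨q4, a1, a2, fun π' h => ?_⟩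
          obtain rfl : π = π' := by simpa using h
          exact a3
      refine ⟨q4, hRt _ _ _ r1 (hRt _ _ _ r2 (hRt _ _ _ r3 r4)), ?_, fun d hd => ?_,
        fun ρ hρ => r4.2.1 (d3 ρ hρ), d4⟩
      · exact Tr.N_le (r2.1.trans (r3.1.trans r4.1)) y1
      · exact ⟨q2.1.1, r3.1.trans r4.1, d2 d hd⟩) ⟨(t0, ∅), ht0, by simp⟩
  have hcatch : ∀ y ∈ N, ∀ n, ∃ k, n ≤ k ∧ y ∈ (u k).1.1.1.N := fun y hy n => by
    obtain ⟨k, h1, h2⟩ := huT n (y, none, none, none) ⟨hy, Or.inl rfl, Or.inl rfl, Or.inl rfl⟩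
    exact ⟨k, h1, h2.1⟩
  have hinc : ∀ n, ∃ k, (u n).1.1 < (u k).1.1 := fun n => by
    obtain ⟨k, h1, h2⟩ := hcatch _ ((hα _).2 (hlev _ (u n).2.1)) n
    refine ⟨k, lt_of_le_of_ne (huR n k h1).1 fun e => ?_⟩
    have := ((u k).1.1.cond.tr _).1 h2
    rw [e] at this
    exact lt_irrefl _ this
  have hinv : ∀ n, D.Inv α (u n).1.1.1.f := fun n =>
    (u n).1.1.cond.inv.mono (hlev _ (u n).2.1).le
  have hf : ∀ ξ, ∃ v : ℕ, α ≤ ξ → ∃ k, ∀ n, k ≤ n → (u n).1.1.1.f ξ = v := by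
    intro ξ
    by_cases hξ : α ≤ ξ
    swap
    · exact ⟨0, fun h => absurd h hξ⟩
    obtain ⟨ρ, h1, h2, h3⟩ := hR ξ hξ
    obtain ⟨k, -, h4⟩ := huT 0 (D.cd t0.1, none, some ρ, none)
      ⟨ht0, Or.inl rfl, Or.inr ⟨ρ, ⟨h1, h2⟩, rfl⟩, Or.inl rfl⟩
    refine ⟨(u k).1.1.1.f ρ, fun _ => ⟨k, fun n hn => ?_⟩⟩
    rw [hinv n ξ ρ hξ h2 h3]
    exact (huR k n hn).2.2 ρ (h4.2.2.1 ρ rfl)
  choose f hf using hf
  have hfle : ∀ n ξ, α ≤ ξ → (u n).1.1.1.f ξ ≤ f ξ := fun n ξ hξ => by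
    obtain ⟨k, hk⟩ := hf ξ hξ
    rw [← hk (max n k) (le_max_right _ _)]
    exact Tr.f_le (huR n _ (le_max_left _ _)).1 ((hlev _ (u _).2.1).le.trans hξ)
  have hfinv : D.Inv α f := fun ξ η hξ hη h => by
    obtain ⟨k, hk⟩ := hf ξ hξ
    obtain ⟨k', hk'⟩ := hf η hη
    rw [← hk (max k k') (le_max_left _ _), ← hk' (max k k') (le_max_right _ _)]
    exact hinv _ ξ η hξ hη h
  have hfF : ∀ n, ∀ ζ ∈ (u n).1.2, f ζ = (u n).1.1.1.f ζ := fun n ζ hζ => by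
    obtain ⟨k, hk⟩ := hf ζ ((u n).2.2 ζ hζ)
    rw [← hk (max n k) (le_max_right _ _)]
    exact (huR n _ (le_max_left _ _)).2.2 ζ hζ
  obtain ⟨t, -, htN, -, -, ht⟩ := exists_node (D := D) {s | ∃ n, s ≤ (u n).1.1}
    (by
      have : {s | ∃ n, s ≤ (u n).1.1} = ⋃ n, {s | s ≤ (u n).1.1} := by ext; simp
      rw [this]
      exact countable_iUnion fun n => Tr.countable_Iic _)
    (by
      rintro a ⟨i, hi⟩ b ⟨j, hj⟩
      exact isTree a b (u (max i j)).1.1 (hi.trans (huR _ _ (le_max_left _ _)).1)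
        (hj.trans (huR _ _ (le_max_right _ _)).1))
    (by
      rintro a ⟨i, hi⟩ b hb
      exact ⟨i, hb.trans hi⟩) α N f (⋃ n, (u n).1.1.1.G) hNc
    (countable_iUnion fun n => (u n).1.1.cond.ct.2.1) hα hfinv
    (by
      intro π hπ
      obtain ⟨n, hn⟩ := mem_iUnion.1 hπ
      obtain ⟨k1, k2, -⟩ := (u n).1.1.cond.keeps π hn
      refine ⟨k1, k2, ?_⟩
      obtain ⟨k, hk, h4⟩ := huT n (D.cd t0.1, none, none, some π)
        ⟨ht0, Or.inl rfl, Or.inl rfl, Or.inr ⟨π, mem_biUnion (u n).2.1 hn, rfl⟩⟩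
      refine (h4.2.2.2 π rfl (Tr.G_le (huR n k hk).1 hn)).mono ?_
      rintro F ⟨h5, h6⟩ ξ hξ
      obtain ⟨h7, ζ, h8, h9⟩ := h6 ξ hξ
      have h10 := (u k).2.2 ζ h8
      rw [hfinv ξ ζ h7 h10 h9, hfF k ζ h8, ← hinv k ξ ζ h7 h10 h9]
      exact h5 ξ hξ)
    (by
      rintro s ⟨n, hn⟩
      have hs : D.cd s.1 ∈ N := by
        rcases hn.eq_or_lt with e | h
        · rw [e]; exact (u n).2.1
        · exact hsub _ (u n).2.1 (Tr.cd_mem h)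
      exact ⟨hlev s hs, hs, hsub s hs,
        (Tr.G_le hn).trans (subset_iUnion (fun n => (u n).1.1.1.G) n), fun ξ hξ =>
          (Tr.f_le hn ((hlev _ (u n).2.1).le.trans hξ)).trans (hfle n ξ hξ)⟩)
    (by
      refine fun _ _ => ⟨hNS, fun y hy => ?_, fun d hd hn => ?_⟩
      · obtain ⟨k, -, hk⟩ := hcatch y hy 0
        exact ⟨_, ⟨k, le_rfl⟩, hk⟩
      · obtain ⟨k, -, h4⟩ := huT 0 (D.cd t0.1, some d, none, none)
          ⟨ht0, Or.inr ⟨d, ⟨hd, hn⟩, rfl⟩, Or.inl rfl, Or.inl rfl⟩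
        obtain ⟨s, h5, h6⟩ := h4.2.1 d rfl
        exact ⟨s, ⟨k, h5⟩, h6⟩)
  refine ⟨t, ⟨⟨(u 0).1.1, (ht _).2 ⟨0, le_rfl⟩⟩, fun v hv => ?_⟩, ?_⟩
  · obtain ⟨n, hn⟩ := (ht v).1 hv
    obtain ⟨k, hk⟩ := hinc n
    exact ⟨_, hn.trans_lt hk, (ht _).2 ⟨k, le_rfl⟩⟩
  · rw [htN]
    exact fun a ha => (subset_insert _ _).trans (hNF a ha)

end Dat

end Pool.Agent.Lib.MP_0fa4a2_gt.Nec
end
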