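import Pool.Agent.Lib.MP_783f50_lc.Defs
import Pool.Agent.Lib.MP_0fa4a2_gt.NecFodor
import Pool.Agent.Lib.MP_0fa4a2_gt.NecLim

-- part Pool.Agent.Lib.MP_0fa4a2_gt.LcFm
section

/-!
Formulas, locations and their well-order; increasing enumerations of bounded sets of ordinals.
-/

namespace Pool.Agent.Lib.MP_0fa4a2_gt.Lc

open Set Cardinal Ordinal

universe u

/-- Formulas about names: membership of values and the order of names. -/
inductive Fm : Type
  | bot : Fm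
  | mem : ℕ → ℕ → Fm
  | lt : ℕ → ℕ → Fm
  | imp : Fm → Fm → Fm
  | ex : Fm → Fm

def Fm.code : Fm → ℕ
  | .bot => 0
  | .mem i j => 4 * Nat.pair i j + 1
  | .lt i j => 4 * Nat.pair i j + 2
  | .imp φ ψ => 4 * Nat.pair φ.code ψ.code + 3
  | .ex φ => 4 * φ.code + 4

theorem Fm.code_injective : Function.Injective Fm.code := by
  intro φ
  induction φ with
  | bot => intro ψ h; cases ψ <;> simp only [Fm.code] at h <;> first | rfl | omega
  | mem i j =>
    intro ψ h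
    cases ψ <;> simp only [Fm.code] at h <;> try omega
    rename_i a b
    obtain ⟨rfl, rfl⟩ := Nat.pair_eq_pair.1 (show Nat.pair i j = Nat.pair a b by omega)
    rfl
  | lt i j =>
    intro ψ h
    cases ψ <;> simp only [Fm.code] at h <;> try omega
    rename_i a b
    obtain ⟨rfl, rfl⟩ := Nat.pair_eq_pair.1 (show Nat.pair i j = Nat.pair a b by omega)
    rfl
  | imp φ₁ φ₂ ih₁ ih₂ =>
    intro ψ h
    cases ψ <;> simp only [Fm.code] at h <;> try omega
    rename_i a b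
    obtain ⟨h1, h2⟩ := Nat.pair_eq_pair.1
      (show Nat.pair φ₁.code φ₂.code = Nat.pair a.code b.code by omega)
    rw [ih₁ h1, ih₂ h2]
  | ex φ ih =>
    intro ψ h
    cases ψ <;> simp only [Fm.code] at h <;> try omega
    rename_i a
    rw [ih (show φ.code = a.code by omega)]

theorem Fm.code_imp_left (φ ψ : Fm) : φ.code < (Fm.imp φ ψ).code := by
  have := Nat.left_le_pair φ.code ψ.code
  simp only [Fm.code]
  omega

theorem Fm.code_imp_right (φ ψ : Fm) : ψ.code < (Fm.imp φ ψ).code := by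
  have := Nat.right_le_pair φ.code ψ.code
  simp only [Fm.code]
  omega

theorem Fm.code_ex (φ : Fm) : φ.code < (Fm.ex φ).code := by
  simp only [Fm.code]
  omega

instance : Countable Fm := Fm.code_injective.countable

/-- A location: level, formula, parameters. -/
@[ext]
structure Tp where
  l : Ordinal.{u}
  φ : Fm
  v : ℕ →₀ Ordinal.{u}

def ELt (v w : ℕ → Ordinal.{u}) : Prop := ∃ i, (∀ j, i < j → v j = w j) ∧ v i < w i

def TLt (s t : Tp.{u}) : Prop :=
  s.l < t.l ∨ (s.l = t.l ∧ (s.φ.code < t.φ.code ∨ (s.φ = t.φ ∧ ELt s.v t.v)))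

/-- The key of a location in a lexicographic product. -/
def fm_key (t : Tp.{u}) : Ordinal.{u} ×ₗ (ℕ ×ₗ Colex (ℕ →₀ Ordinal.{u})) :=
  toLex (t.l, toLex (t.φ.code, toColex t.v))

theorem fm_key_inj : Function.Injective fm_key.{u} := by
  intro s t h
  simp only [fm_key, toLex_inj, Prod.mk.injEq, toColex_inj] at h
  exact Tp.ext h.1 (Fm.code_injective h.2.1) h.2.2

theorem fm_tlt_iff (s t : Tp.{u}) : TLt s t ↔ fm_key s < fm_key t := by
  simp only [TLt, fm_key, Prod.Lex.toLex_lt_toLex, Fm.code_injective.eq_iff]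
  rfl

theorem tlt_sto : IsStrictTotalOrder Tp.{u} TLt := by
  have h : (TLt : Tp.{u} → Tp.{u} → Prop) = fun s t => fm_key s < fm_key t := by
    funext s t
    exact propext (fm_tlt_iff s t)
  rw [h]
  exact
    { trichotomous := fun a b h1 h2 => fm_key_inj (le_antisymm (not_lt.1 h2) (not_lt.1 h1))
      irrefl := fun a => lt_irrefl _
      trans := fun a b c h1 h2 => lt_trans h1 h2 }

theorem tlt_wf : WellFounded (TLt : Tp.{u} → Tp.{u} → Prop) := by
  exact Subrelation.wf (fun {s t} h => (fm_tlt_iff s t).1 h) (InvImage.wf fm_key wellFounded_lt)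

open Classical in
noncomputable instance : LinearOrder Tp.{u} :=
  haveI := tlt_sto.{u}
  linearOrderOfSTO TLt

theorem Tp.lt_iff {s t : Tp.{u}} : s < t ↔ TLt s t := Iff.rfl

instance : WellFoundedLT Tp.{u} := ⟨tlt_wf⟩

theorem Tp.bot_le (t : Tp.{u}) : (⟨t.l, .bot, 0⟩ : Tp.{u}) ≤ t := by
  refine not_lt.1 fun h => ?_
  rcases Tp.lt_iff.1 h with h | ⟨-, h | ⟨-, i, -, h⟩⟩
  · exact lt_irrefl _ h
  · exact Nat.not_lt_zero _ h
  · exact not_lt_zero h

/-- Finitely many nonzero parameters, all below `l`. -/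
def FinEnv (l : Ordinal.{u}) (w : ℕ → Ordinal.{u}) : Prop :=
  (Function.support w).Finite ∧ ∀ i, w i ≠ 0 → w i < l

theorem FinEnv.push {l z : Ordinal.{u}} {w : ℕ → Ordinal.{u}} (h : FinEnv l w) (hz : z < l) :
    FinEnv l (MP_2739cb_lc.push z w) := by
  refine ⟨((h.1.image Nat.succ).insert 0).subset fun i hi => ?_, fun i hi => ?_⟩
  · cases i with
    | zero => exact Or.inl rfl
    | succ n => exact Or.inr ⟨n, hi, rfl⟩
  · cases i with
    | zero => exact hz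
    | succ n => exact h.2 n hi

theorem FinEnv.lt {l : Ordinal.{u}} {w : ℕ → Ordinal.{u}} (h : FinEnv l w) (hl : 0 < l) (i : ℕ) :
    w i < l := by
  by_cases h0 : w i = 0
  · rwa [h0]
  · exact h.2 i h0

theorem comp_push {A B : Type*} (f : A → B) (z : A) (w : ℕ → A) :
    f ∘ MP_2739cb_lc.push z w = MP_2739cb_lc.push (f z) (f ∘ w) := by
  funext i
  cases i <;> rfl

theorem colex_wf : WellFounded fun a b : Finset Ordinal.{u} => toColex a < toColex b := by
  classical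
  refine Subrelation.wf (fun {a b} h => ?_)
    (InvImage.wf (fun a : Finset Ordinal.{u} =>
      toColex (Finsupp.indicator a fun _ _ => (1 : ℕ))) wellFounded_lt)
  obtain ⟨w, hw, e⟩ := Finset.Colex.lt_iff_exists_filter_lt.1 h
  rw [Finset.mem_sdiff] at hw
  refine ⟨w, fun j hj => ?_, ?_⟩
  · have h1 : j ∈ a ↔ j ∈ b := by
      have h2 := Finset.ext_iff.1 e j
      simp only [Finset.mem_filter] at h2
      exact ⟨fun h3 => (h2.1 ⟨h3, hj⟩).1, fun h3 => (h2.2 ⟨h3, hj⟩).1⟩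
    change Finsupp.indicator a (fun _ _ => (1 : ℕ)) j = Finsupp.indicator b (fun _ _ => (1 : ℕ)) j
    simp only [Finsupp.indicator_apply, h1, dite_eq_ite]
  · change Finsupp.indicator a (fun _ _ => (1 : ℕ)) w < Finsupp.indicator b (fun _ _ => (1 : ℕ)) w
    simp [Finsupp.indicator_apply, hw.1, hw.2]

/-- The increasing enumeration of `X ∩ δ`, continued by the ordinals from `δ` on. -/
noncomputable def en (X : Set Ordinal.{u}) (δ : Ordinal.{u}) : Ordinal.{u} → Ordinal.{u} :=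
  enumOrd (X ∪ Ici δ)

/-- The order type of `X ∩ δ`. -/
noncomputable def ot (X : Set Ordinal.{u}) (δ : Ordinal.{u}) : Ordinal.{u} :=
  sInf {ζ | δ ≤ en X δ ζ}

section en

variable {X : Set Ordinal.{u}} {δ : Ordinal.{u}}

theorem fm_nb (X : Set Ordinal.{u}) (δ : Ordinal.{u}) : ¬ BddAbove (X ∪ Ici δ) := fun h =>
  not_bddAbove_Ici δ (h.mono subset_union_right)

theorem en_strictMono : StrictMono (en X δ) := by
  exact enumOrd_strictMono (fm_nb X δ)

theorem le_en (x : Ordinal.{u}) : x ≤ en X δ x := by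
  exact en_strictMono.le_apply

theorem en_lt_iff {x : Ordinal.{u}} : en X δ x < δ ↔ x < ot X δ := by
  constructor
  · intro h
    by_contra hx
    have h1 : δ ≤ en X δ (ot X δ) :=
      csInf_mem (s := {ζ | δ ≤ en X δ ζ}) ⟨δ, le_en δ⟩
    exact h.not_ge (h1.trans (en_strictMono.monotone (not_lt.1 hx)))
  · intro h
    by_contra hx
    exact h.not_ge (csInf_le' (not_lt.1 hx))

theorem en_mem {x : Ordinal.{u}} (h : x < ot X δ) : en X δ x ∈ X := by
  rcases enumOrd_mem (fm_nb X δ) x with h1 | h1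
  · exact h1
  · exact absurd h1 (en_lt_iff.2 h).not_ge

theorem en_surj {y : Ordinal.{u}} (hy : y ∈ X) (h : y < δ) : ∃ x < ot X δ, en X δ x = y := by
  obtain ⟨x, hx⟩ := enumOrd_surjective (fm_nb X δ) (b := y) (Or.inl hy)
  exact ⟨x, en_lt_iff.1 (lt_of_eq_of_lt hx h), hx⟩

theorem ot_le : ot X δ ≤ δ := by
  exact csInf_le' (le_en δ)

theorem en_unique {g : Ordinal.{u} → Ordinal.{u}} {ζ : Ordinal.{u}} (hg : StrictMonoOn g (Iio ζ))
    (h : g '' Iio ζ = X ∩ Iio δ) : ζ = ot X δ ∧ ∀ x < ζ, g x = en X δ x := by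
  have hm : ∀ x < ζ, g x ∈ X ∩ Iio δ := fun x hx => h ▸ mem_image_of_mem g hx
  have key : ∀ x, x < ζ → g x = en X δ x := by
    intro x
    induction x using WellFoundedLT.induction with
    | ind x ih =>
      intro hx
      have h1 : en X δ x ≤ g x :=
        enumOrd_le_of_forall_lt (Or.inl (hm x hx).1) fun b hb =>
          lt_of_eq_of_lt (ih b hb (hb.trans hx)).symm (hg (hb.trans hx) hx hb)
      have h2 : en X δ x < δ := h1.trans_lt (hm x hx).2
      have h3 : en X δ x ∈ g '' Iio ζ := h ▸ ⟨en_mem (en_lt_iff.1 h2), h2⟩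
      obtain ⟨y, hy, e⟩ := h3
      refine le_antisymm ?_ h1
      rcases lt_or_ge y x with h4 | h4
      · rw [ih y h4 hy] at e
        exact absurd e (en_strictMono h4).ne
      · rw [← e]
        exact hg.monotoneOn hx hy h4
  refine ⟨le_antisymm (le_of_forall_lt fun x hx => ?_) (not_lt.1 fun hζ => ?_), key⟩
  · exact en_lt_iff.1 (key x hx ▸ (hm x hx).2)
  · have h3 : en X δ ζ ∈ g '' Iio ζ := h ▸ ⟨en_mem hζ, en_lt_iff.2 hζ⟩
    obtain ⟨y, hy, e⟩ := h3
    rw [key y hy] at e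
    exact absurd e (en_strictMono hy).ne

theorem en_id {γ : Ordinal.{u}} (h : Iio γ ⊆ X) {x : Ordinal.{u}} (hx : x < γ) : en X δ x = x := by
  induction x using WellFoundedLT.induction with
  | ind x ih =>
    refine le_antisymm (enumOrd_le_of_forall_lt (Or.inl (h hx)) fun b hb => ?_) (le_en x)
    exact lt_of_eq_of_lt (ih b hb (hb.trans hx)) hb

theorem le_ot {γ : Ordinal.{u}} (h : Iio γ ⊆ X) (hγ : γ ≤ δ) : γ ≤ ot X δ := by
  refine le_of_forall_lt fun x hx => en_lt_iff.1 ?_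
  rw [en_id h hx]
  exact hx.trans_le hγ

theorem ot_lt_of_small {y : Ordinal.{u}} (hy : Nec.Rg y)
    (h : #X < Cardinal.lift.{u + 1} y.card) : ot X δ < y := by
  have h1 : #(Iio (ot X δ)) ≤ #X :=
    mk_le_of_injective (f := fun x : Iio (ot X δ) => (⟨en X δ x.1, en_mem x.2⟩ : X))
      fun a b e => Subtype.ext (en_strictMono.injective (congrArg Subtype.val e))
  rw [Cardinal.mk_Iio_ordinal] at h1
  have h2 := Cardinal.lift_lt.1 (h1.trans_lt h)
  rw [← hy.isRegular.2]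
  exact lt_ord.2 h2

theorem ot_lt_omega1 (h : X.Countable) : ot X δ < ω₁ := by
  exact ot_lt_of_small Nec.rg_omega1 ((le_aleph0_iff_set_countable.2 h).trans_lt
    (Cardinal.aleph0_lt_lift.2 Nec.rg_omega1.aleph0_lt))

theorem exists_preimage_finset {q : Finset Ordinal.{u}} (hq : ∀ y ∈ q, y ∈ X ∧ y < δ) :
    ∃ p : Finset Ordinal.{u}, (∀ x ∈ p, x < ot X δ) ∧ p.image (en X δ) = q := by
  refine ⟨q.preimage (en X δ) en_strictMono.injective.injOn, fun x hx => ?_, ?_⟩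
  · exact en_lt_iff.1 (hq _ (Finset.mem_preimage.1 hx)).2
  · ext y
    simp only [Finset.mem_image, Finset.mem_preimage]
    constructor
    · rintro ⟨x, hx, rfl⟩
      exact hx
    · intro hy
      obtain ⟨x, -, rfl⟩ := en_surj (hq y hy).1 (hq y hy).2
      exact ⟨x, hy, rfl⟩

end en

end Pool.Agent.Lib.MP_0fa4a2_gt.Lc
end

-- part Pool.Agent.Lib.MP_0fa4a2_gt.LcDec
section

/-!
Every ordinal is a location; the enumeration of the locations.
-/

namespace Pool.Agent.Lib.MP_0fa4a2_gt.Lc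

open Set Cardinal Ordinal

universe u

def Adm (ξ : Ordinal.{u}) (d : Ordinal.{u} → Tp.{u}) (t : Tp.{u}) : Prop :=
  (∃ η < ξ, (d η).l = t.l) ∧ (∀ i, t.v i ≠ 0 → t.v i < t.l) ∧ ∀ η < ξ, d η ≠ t

open Classical in
noncomputable def step (ξ : Ordinal.{u}) (d : Ordinal.{u} → Tp.{u}) : Tp.{u} :=
  if h : ∃ t, Adm ξ d t then (wellFounded_lt (α := Tp.{u})).min {t | Adm ξ d t} h
  else ⟨ξ, .bot, 0⟩

open Classical in
noncomputable def dec : Ordinal.{u} → Tp.{u} :=
  (wellFounded_lt (α := Ordinal.{u})).fix fun ξ rec =>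
    step ξ fun η => if h : η < ξ then rec η h else ⟨0, .bot, 0⟩

noncomputable def lev (ξ : Ordinal.{u}) : Ordinal.{u} := (dec ξ).l

noncomputable def fm (ξ : Ordinal.{u}) : Fm := (dec ξ).φ

noncomputable def env (ξ : Ordinal.{u}) : ℕ → Ordinal.{u} := (dec ξ).v

def IsLev (l : Ordinal.{u}) : Prop := lev l = l

theorem dec_step_spec {ξ : Ordinal.{u}} {d : Ordinal.{u} → Tp.{u}} (h : ∃ t, Adm ξ d t) :
    Adm ξ d (step ξ d) ∧ ∀ t, Adm ξ d t → step ξ d ≤ t := by
  unfold step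
  rw [dif_pos h]
  exact ⟨WellFounded.min_mem _ {t | Adm ξ d t} h,
    fun t ht => not_lt.1 (WellFounded.not_lt_min _ {t | Adm ξ d t} ht)⟩

theorem dec_step_none {ξ : Ordinal.{u}} {d : Ordinal.{u} → Tp.{u}} (h : ¬ ∃ t, Adm ξ d t) :
    step ξ d = ⟨ξ, .bot, 0⟩ := dif_neg h

theorem dec_step_congr {ξ : Ordinal.{u}} {d d' : Ordinal.{u} → Tp.{u}}
    (h : ∀ η < ξ, d η = d' η) : step ξ d = step ξ d' := by
  have key : ∀ t, Adm ξ d t ↔ Adm ξ d' t := fun t => by
    unfold Adm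
    refine and_congr (exists_congr fun η => and_congr_right fun hη => by rw [h η hη])
      (and_congr Iff.rfl (forall₂_congr fun η hη => by rw [h η hη]))
  by_cases he : ∃ t, Adm ξ d t
  · have he' : ∃ t, Adm ξ d' t := (exists_congr key).1 he
    obtain ⟨a, b⟩ := dec_step_spec he
    obtain ⟨a', b'⟩ := dec_step_spec he'
    exact le_antisymm (b _ ((key _).2 a')) (b' _ ((key _).1 a))
  · rw [dec_step_none he, dec_step_none fun h' => he ((exists_congr key).2 h')]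

theorem dec_l_le {s t : Tp.{u}} (h : s ≤ t) : s.l ≤ t.l := by
  rcases h.eq_or_lt with rfl | h
  · exact le_rfl
  · rcases Tp.lt_iff.1 h with h | h
    · exact h.le
    · exact h.1.le

theorem dec_lt_of_l {s t : Tp.{u}} (h : s.l < t.l) : s < t := Tp.lt_iff.2 (Or.inl h)

theorem dec_eq (ξ : Ordinal.{u}) : dec ξ = step ξ dec := by
  have h := (wellFounded_lt (α := Ordinal.{u})).fix_eq (C := fun _ => Tp.{u})
    (fun ξ rec => step ξ fun η => if h : η < ξ then rec η h else ⟨0, .bot, 0⟩) ξ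
  exact h.trans (dec_step_congr fun η hη => dif_pos hη)

theorem dec_pack (ξ : Ordinal.{u}) : (dec ξ).l ≤ ξ ∧
    (∀ i, (dec ξ).v i ≠ 0 → (dec ξ).v i < (dec ξ).l) ∧
      dec (dec ξ).l = ⟨(dec ξ).l, .bot, 0⟩ := by
  induction ξ using WellFoundedLT.induction with
  | ind ξ ih =>
    by_cases he : ∃ t, Adm ξ dec t
    · have ha := (dec_step_spec he).1
      rw [← dec_eq] at ha
      obtain ⟨⟨η, hη, e⟩, h2, -⟩ := ha
      refine ⟨e ▸ ((ih η hη).1.trans hη.le), h2, ?_⟩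
      rw [← e]
      exact (ih η hη).2.2
    · have e : dec ξ = ⟨ξ, .bot, 0⟩ := (dec_eq ξ).trans (dec_step_none he)
      rw [e]
      exact ⟨le_rfl, fun i hi => absurd rfl hi, e⟩

theorem dec_down' {ξ : Ordinal.{u}} {t : Tp.{u}} (ht : t < dec ξ) (hl : (dec t.l).l = t.l)
    (hv : ∀ i, t.v i ≠ 0 → t.v i < t.l) : ∃ η < ξ, dec η = t := by
  have h1 : t.l ≤ (dec ξ).l := dec_l_le ht.le
  have h2 := (dec_pack ξ).1
  by_contra hn
  rcases (h1.trans h2).eq_or_lt with e | hlt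
  · have e2 : (dec ξ).l = ξ := le_antisymm h2 (e ▸ h1)
    have e3 := (dec_pack ξ).2.2
    rw [e2] at e3
    have h3 := Tp.bot_le t
    rw [e, ← e3] at h3
    exact absurd ht (not_lt.2 h3)
  · have ha : Adm ξ dec t := ⟨⟨t.l, hlt, hl⟩, hv, fun η hη h => hn ⟨η, hη, h⟩⟩
    have h3 := (dec_step_spec ⟨t, ha⟩).2 t ha
    rw [← dec_eq] at h3
    exact absurd ht (not_lt.2 h3)

theorem dec_strictMono : StrictMono (dec : Ordinal.{u} → Tp.{u}) := by
  intro η ξ hη
  by_cases he : ∃ t, Adm ξ dec t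
  · have ha := (dec_step_spec he).1
    rw [← dec_eq] at ha
    rcases lt_trichotomy (dec η) (dec ξ) with h | h | h
    · exact h
    · exact absurd h (ha.2.2 η hη)
    · obtain ⟨η', h1, h2⟩ := dec_down' h (by rw [(dec_pack ξ).2.2]) ha.2.1
      exact absurd h2 (ha.2.2 η' (h1.trans hη))
  · apply dec_lt_of_l
    rw [dec_eq ξ, dec_step_none he]
    exact (dec_pack η).1.trans_lt hη

theorem lev_le (ξ : Ordinal.{u}) : lev ξ ≤ ξ := by
  exact (dec_pack ξ).1

theorem finEnv_env (ξ : Ordinal.{u}) : FinEnv (lev ξ) (env ξ) := by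
  exact ⟨(dec ξ).v.hasFiniteSupport, (dec_pack ξ).2.1⟩

theorem dec_lev (ξ : Ordinal.{u}) : dec (lev ξ) = ⟨lev ξ, .bot, 0⟩ := by
  exact (dec_pack ξ).2.2

theorem isLev_lev (ξ : Ordinal.{u}) : IsLev (lev ξ) := by
  have h := congrArg Tp.l (dec_pack ξ).2.2
  exact h

theorem isLev_zero : IsLev (0 : Ordinal.{u}) := by
  exact le_antisymm (lev_le 0) zero_le

theorem env_le (ξ : Ordinal.{u}) (i : ℕ) : env ξ i ≤ ξ := by
  by_cases h : env ξ i = 0
  · rw [h]
    exact zero_le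
  · exact ((finEnv_env ξ).2 i h).le.trans (lev_le ξ)

theorem IsLev.fm_eq {l : Ordinal.{u}} (h : IsLev l) : fm l = .bot := by
  have h1 := dec_lev l
  rw [show lev l = l from h] at h1
  exact congrArg Tp.φ h1

theorem IsLev.env_eq {l : Ordinal.{u}} (h : IsLev l) (i : ℕ) : env l i = 0 := by
  have h1 := dec_lev l
  rw [show lev l = l from h] at h1
  unfold env
  rw [h1]
  rfl

theorem lev_mono : Monotone (lev : Ordinal.{u} → Ordinal.{u}) := by
  exact fun _ _ h => dec_l_le (dec_strictMono.monotone h)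

theorem IsLev.le_lev {l ξ : Ordinal.{u}} (h : IsLev l) (hl : l ≤ ξ) : l ≤ lev ξ := by
  have h1 := lev_mono hl
  rwa [show lev l = l from h] at h1

theorem dec_down {ξ : Ordinal.{u}} {t : Tp.{u}} (ht : t < dec ξ) (hl : IsLev t.l)
    (hv : ∀ i, t.v i ≠ 0 → t.v i < t.l) : ∃ η < ξ, dec η = t := by
  exact dec_down' ht hl hv

theorem eq_of_dec {x y : Ordinal.{u}} (h1 : lev x = lev y) (h2 : fm x = fm y)
    (h3 : ∀ i, env x i = env y i) : x = y := by
  exact dec_strictMono.injective (Tp.ext h1 h2 (Finsupp.ext h3))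

theorem lt_iff_dec {x y : Ordinal.{u}} : x < y ↔ lev x < lev y ∨ (lev x = lev y ∧
    ((fm x).code < (fm y).code ∨ (fm x = fm y ∧ ELt (env x) (env y)))) := by
  exact dec_strictMono.lt_iff_lt.symm.trans Tp.lt_iff

theorem lt_of_lev_lt {x l : Ordinal.{u}} (hl : IsLev l) (h : lev x < l) : x < l := by
  exact not_le.1 fun h1 => absurd h (not_lt.2 (hl.le_lev h1))

/-- The function `dec` is characterised on an initial segment. -/
theorem dec_unique {δ : Ordinal.{u}} {d : Ordinal.{u} → Tp.{u}} (mono : StrictMonoOn d (Iio δ))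
    (h2 : ∀ ξ < δ, (d ξ).l ≤ ξ ∧ (∀ i, (d ξ).v i ≠ 0 → (d ξ).v i < (d ξ).l) ∧
      d (d ξ).l = ⟨(d ξ).l, .bot, 0⟩)
    (h3 : ∀ ξ < δ, ∀ t < d ξ, (∃ η < δ, (d η).l = t.l) → (∀ i, t.v i ≠ 0 → t.v i < t.l) →
      ∃ η < ξ, d η = t) :
    ∀ ξ < δ, d ξ = dec ξ := by
  intro ξ
  induction ξ using WellFoundedLT.induction with
  | ind ξ ih =>
    intro hξ
    rw [dec_eq, ← dec_step_congr fun η hη => ih η hη (hη.trans hξ)]
    obtain ⟨a1, a2, a3⟩ := h2 ξ hξ
    have hadm : (d ξ).l < ξ → Adm ξ d (d ξ) := fun h =>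
      ⟨⟨_, h, by rw [a3]⟩, a2, fun η hη => (mono (hη.trans hξ) hξ hη).ne⟩
    by_cases he : ∃ t, Adm ξ d t
    · obtain ⟨⟨⟨η, hη, e⟩, b2, b3⟩, b4⟩ := dec_step_spec he
      have hn : ¬ step ξ d < d ξ := fun h => by
        obtain ⟨η', h4, h5⟩ := h3 ξ hξ _ h ⟨η, hη.trans hξ, e⟩ b2
        exact b3 η' h4 h5
      have hlt : (d ξ).l < ξ := by
        refine lt_of_le_of_lt (dec_l_le (not_lt.1 hn)) ?_
        rw [← e]
        exact (h2 η (hη.trans hξ)).1.trans_lt hη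
      exact le_antisymm (not_lt.1 hn) (b4 _ (hadm hlt))
    · have e : (d ξ).l = ξ := a1.eq_or_lt.resolve_right fun h => he ⟨_, hadm h⟩
      rw [e] at a3
      rw [dec_step_none he, a3]

theorem mk_lev_le (l : Ordinal.{u}) :
    #{η : Ordinal.{u} | lev η ≤ l} ≤ max ℵ₀ (Cardinal.lift.{u + 1} l.card) := by
  obtain ⟨c, hc⟩ : ∃ c : Cardinal.{u + 1}, c = max ℵ₀ (Cardinal.lift.{u + 1} l.card) := ⟨_, rfl⟩
  rw [← hc]
  have h0 : ℵ₀ ≤ c := hc ▸ le_max_left _ _
  have h1 : #(Iio (l + 1)) ≤ c := by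
    rw [Cardinal.mk_Iio_ordinal, Ordinal.card_add_one, Cardinal.lift_add, Cardinal.lift_one]
    exact Cardinal.add_le_of_le h0 (hc ▸ le_max_right _ _) (Cardinal.one_le_aleph0.trans h0)
  have h2 : #(List (Iio (l + 1))) ≤ c := (Cardinal.mk_list_le_max _).trans (max_le h0 h1)
  have hl : ∀ η : {η : Ordinal.{u} | lev η ≤ l}, lev η.1 < l + 1 := fun η =>
    Order.lt_add_one_iff.2 η.2
  have he : ∀ (η : {η : Ordinal.{u} | lev η ≤ l}) (i : ℕ), env η.1 i < l + 1 := fun η i => by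
    by_cases h : env η.1 i = 0
    · rw [h]
      exact zero_le.trans_lt (hl η)
    · exact ((finEnv_env η.1).2 i h).trans (hl η)
  have hN : ∀ η : Ordinal.{u}, ∃ N : ℕ, ∀ i, N ≤ i → env η i = 0 := fun η => by
    obtain ⟨N, hN⟩ := (finEnv_env η).1.bddAbove
    refine ⟨N + 1, fun i hi => ?_⟩
    by_contra h
    have := hN (show i ∈ Function.support (env η) from h)
    omega
  choose N hN using hN
  let F : {η : Ordinal.{u} | lev η ≤ l} → ULift.{u + 1} ℕ × List (Iio (l + 1)) := fun η =>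
    (⟨(fm η.1).code⟩, ⟨lev η.1, hl η⟩ :: (List.range (N η.1)).map fun i => ⟨env η.1 i, he η i⟩)
  have hF : Function.Injective F := by
    intro x y h
    have a1 : (fm x.1).code = (fm y.1).code := congrArg (fun p => p.1.down) h
    obtain ⟨a2, a3⟩ := List.cons.inj (congrArg Prod.snd h)
    have a4 : N x.1 = N y.1 := by simpa using congrArg List.length a3
    rw [a4, List.map_inj_left] at a3
    refine Subtype.ext (eq_of_dec (congrArg Subtype.val a2) (Fm.code_injective a1) fun i => ?_)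
    rcases lt_or_ge i (N y.1) with hi | hi
    · exact congrArg Subtype.val (a3 i (List.mem_range.2 hi))
    · rw [hN _ i hi, hN _ i (a4 ▸ hi)]
  refine (Cardinal.mk_le_of_injective hF).trans ?_
  rw [Cardinal.mk_prod, Cardinal.lift_id, Cardinal.lift_id]
  exact Cardinal.mul_le_of_le h0 (Cardinal.mk_le_aleph0.trans h0) h2

theorem dec_exists_lt {ξ y : Ordinal.{u}} (h1 : ℵ₀ < y.card) (h2 : ξ.card < y.card) :
    ∃ η < y, ξ < lev η := by
  by_contra hn
  have h3 : Iio y ⊆ {η : Ordinal.{u} | lev η ≤ ξ} := fun η hη =>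
    not_lt.1 fun h => hn ⟨η, hη, h⟩
  have h4 := (Cardinal.mk_le_mk_of_subset h3).trans (mk_lev_le ξ)
  rw [Cardinal.mk_Iio_ordinal] at h4
  refine absurd h4 (not_le.2 (max_lt ?_ (Cardinal.lift_lt.2 h2)))
  exact Cardinal.aleph0_lt_lift.2 h1

theorem exists_lev_gt (ξ : Ordinal.{u}) : ∃ l, IsLev l ∧ ξ < l := by
  obtain ⟨η, -, h⟩ := dec_exists_lt (ξ := ξ) (y := (Order.succ (max ℵ₀ ξ.card)).ord)
    (by rw [Cardinal.card_ord]; exact (le_max_left _ _).trans_lt (Order.lt_succ _))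
    (by rw [Cardinal.card_ord]; exact (le_max_right _ _).trans_lt (Order.lt_succ _))
  exact ⟨lev η, isLev_lev η, h⟩

theorem exists_loc {l : Ordinal.{u}} (hl : IsLev l) (φ : Fm) {w : ℕ → Ordinal.{u}}
    (hw : FinEnv l w) : ∃ ξ, lev ξ = l ∧ fm ξ = φ ∧ env ξ = w := by
  obtain ⟨l', h1, h2⟩ := exists_lev_gt l
  obtain ⟨ξ, -, h⟩ := dec_down (ξ := l') (t := ⟨l, φ, Finsupp.ofSupportFinite w hw.1⟩)
    (dec_lt_of_l (h2.trans_eq h1.symm)) hl hw.2
  refine ⟨ξ, congrArg Tp.l h, congrArg Tp.φ h, ?_⟩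
  unfold env
  rw [h]
  rfl

/-- The next level. -/
noncomputable def nxt (ξ : Ordinal.{u}) : Ordinal.{u} := sInf {l | IsLev l ∧ ξ < l}

theorem isLev_nxt (ξ : Ordinal.{u}) : IsLev (nxt ξ) := by
  exact (csInf_mem (exists_lev_gt ξ)).1

theorem lt_nxt (ξ : Ordinal.{u}) : ξ < nxt ξ := by
  exact (csInf_mem (exists_lev_gt ξ)).2

theorem nxt_le {ξ l : Ordinal.{u}} (hl : IsLev l) (h : ξ < l) : nxt ξ ≤ l := by
  exact csInf_le' ⟨hl, h⟩

theorem lt_nxt_of_lev_le {η l : Ordinal.{u}} (h : lev η ≤ l) : η < nxt l := by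
  exact lt_of_lev_lt (isLev_nxt l) (h.trans_lt (lt_nxt l))

theorem isLev_of_limit {κ : Ordinal.{u}} (h : ∀ ξ < κ, nxt ξ ≤ κ) : IsLev κ := by
  refine (lev_le κ).eq_or_lt.resolve_right fun h1 => ?_
  exact absurd (lt_nxt (lev κ)) (not_lt.2 ((isLev_nxt _).le_lev (h _ h1)))

theorem nxt_lt_of_rg {y : Ordinal.{u}} (hy : Nec.Rg y) {ξ : Ordinal.{u}} (h : ξ < y) :
    nxt ξ < y := by
  obtain ⟨η, h1, h2⟩ := dec_exists_lt hy.aleph0_lt (hy.card_lt h)
  exact ((nxt_le (isLev_lev η) h2).trans (lev_le η)).trans_lt h1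

end Pool.Agent.Lib.MP_0fa4a2_gt.Lc
end

-- part Pool.Agent.Lib.MP_0fa4a2_gt.LcVal
section

/-!
The value of a name, truth at a level, Skolem function, uniformly definable predicates.
-/

namespace Pool.Agent.Lib.MP_0fa4a2_gt.Lc

open Set Cardinal Ordinal
open Pool.Agent.Lib.MP_2739cb_lc (push)

universe u

def SatR (E : Ordinal.{u} → Ordinal.{u} → Prop) (l : Ordinal.{u}) :
    Fm → (ℕ → Ordinal.{u}) → Prop
  | .bot, _ => False
  | .mem i j, v => E (v i) (v j)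
  | .lt i j, v => v i < v j
  | .imp φ ψ, v => SatR E l φ v → SatR E l ψ v
  | .ex φ, v => ∃ z < l, SatR E l φ (push z v)

instance small_sep (l : Ordinal.{u}) (p : Ordinal.{u} → Prop) : Small.{u} {z // z < l ∧ p z} :=
  small_of_injective (β := Iio l) (f := fun z => ⟨z.1, z.2.1⟩) fun _ _ h =>
    Subtype.ext (congrArg (fun a : Iio l => a.1) h)

/-- The set named by an ordinal. -/
noncomputable def val : Ordinal.{u} → ZFSet.{u} :=
  (wellFounded_lt (α := Ordinal.{u})).fix fun ξ rec =>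
    ZFSet.range fun z : {z // z < lev ξ ∧ SatR (fun x y => ∃ hx : x < lev ξ, ∃ hy : y < lev ξ,
        rec x (hx.trans_le (lev_le ξ)) ∈ rec y (hy.trans_le (lev_le ξ))) (lev ξ) (fm ξ)
        (push z (env ξ))} => rec z.1 (z.2.1.trans_le (lev_le ξ))

/-- Truth at level `l`. -/
def Tru (l : Ordinal.{u}) (φ : Fm) (v : ℕ → Ordinal.{u}) : Prop :=
  SatR (fun x y => x < l ∧ y < l ∧ val x ∈ val y) l φ v

theorem tru_bot {l : Ordinal.{u}} {v : ℕ → Ordinal.{u}} : Tru l .bot v ↔ False := Iff.rfl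

theorem tru_mem {l : Ordinal.{u}} {v : ℕ → Ordinal.{u}} {i j : ℕ} :
    Tru l (.mem i j) v ↔ v i < l ∧ v j < l ∧ val (v i) ∈ val (v j) := Iff.rfl

theorem tru_lt {l : Ordinal.{u}} {v : ℕ → Ordinal.{u}} {i j : ℕ} :
    Tru l (.lt i j) v ↔ v i < v j := Iff.rfl

theorem tru_imp {l : Ordinal.{u}} {v : ℕ → Ordinal.{u}} {φ ψ : Fm} :
    Tru l (.imp φ ψ) v ↔ (Tru l φ v → Tru l ψ v) := Iff.rfl

theorem tru_ex {l : Ordinal.{u}} {v : ℕ → Ordinal.{u}} {φ : Fm} :
    Tru l (.ex φ) v ↔ ∃ z < l, Tru l φ (push z v) := Iff.rfl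

theorem mem_val {ξ : Ordinal.{u}} {a : ZFSet.{u}} :
    a ∈ val ξ ↔ ∃ z < lev ξ, Tru (lev ξ) (fm ξ) (push z (env ξ)) ∧ val z = a := by
  have hE : (fun x y : Ordinal.{u} => ∃ _ : x < lev ξ, ∃ _ : y < lev ξ, val x ∈ val y) =
      fun x y => x < lev ξ ∧ y < lev ξ ∧ val x ∈ val y := by
    funext x y
    exact propext ⟨fun ⟨h1, h2, h3⟩ => ⟨h1, h2, h3⟩, fun ⟨h1, h2, h3⟩ => ⟨h1, h2, h3⟩⟩
  have hv : val ξ = ZFSet.range fun z : {z // z < lev ξ ∧
      SatR (fun x y : Ordinal.{u} => ∃ _ : x < lev ξ, ∃ _ : y < lev ξ, val x ∈ val y) (lev ξ) (fm ξ)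
        (push z (env ξ))} => val z.1 := by
    unfold val
    rw [WellFounded.fix_eq]
  rw [hv, ZFSet.mem_range]
  constructor
  · rintro ⟨⟨z, hz, hs⟩, rfl⟩
    refine ⟨z, hz, ?_, rfl⟩
    unfold Tru
    rw [← hE]
    exact hs
  · rintro ⟨z, hz, hs, rfl⟩
    refine ⟨⟨z, hz, ?_⟩, rfl⟩
    rw [hE]
    exact hs

theorem exists_name_of_mem {ξ : Ordinal.{u}} {a : ZFSet.{u}} (h : a ∈ val ξ) :
    ∃ z < lev ξ, val z = a := by
  obtain ⟨z, hz, -, hv⟩ := mem_val.1 h
  exact ⟨z, hz, hv⟩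

theorem exists_name_lt {ξ : Ordinal.{u}} {a : ZFSet.{u}} (h : a ∈ val ξ) : ∃ z < ξ, val z = a := by
  obtain ⟨z, hz, hv⟩ := exists_name_of_mem h
  exact ⟨z, hz.trans_le (lev_le ξ), hv⟩

/-- The Skolem function. -/
noncomputable def sk (ξ : Ordinal.{u}) : Ordinal.{u} :=
  sInf {z | z < lev ξ ∧ Tru (lev ξ) (fm ξ) (push z (env ξ))}

theorem sk_spec {ξ z : Ordinal.{u}} (hz : z < lev ξ) (h : Tru (lev ξ) (fm ξ) (push z (env ξ))) :
    sk ξ ≤ z ∧ Tru (lev ξ) (fm ξ) (push (sk ξ) (env ξ)) := by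
  have hm : z ∈ {z | z < lev ξ ∧ Tru (lev ξ) (fm ξ) (push z (env ξ))} := ⟨hz, h⟩
  exact ⟨csInf_le' hm, (csInf_mem ⟨z, hm⟩).2⟩

theorem sk_eq_zero {ξ : Ordinal.{u}} (h : ∀ z < lev ξ, ¬ Tru (lev ξ) (fm ξ) (push z (env ξ))) :
    sk ξ = 0 := by
  have he : {z | z < lev ξ ∧ Tru (lev ξ) (fm ξ) (push z (env ξ))} = ∅ :=
    Set.eq_empty_of_forall_notMem fun z hz => h z hz.1 hz.2
  unfold sk
  rw [he]
  exact Ordinal.sInf_empty

theorem sk_le (ξ : Ordinal.{u}) : sk ξ ≤ ξ := by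
  by_cases h : ∃ z < lev ξ, Tru (lev ξ) (fm ξ) (push z (env ξ))
  · obtain ⟨z, hz, ht⟩ := h
    exact (sk_spec hz ht).1.trans (hz.le.trans (lev_le ξ))
  · rw [sk_eq_zero fun z hz ht => h ⟨z, hz, ht⟩]
    exact zero_le

/-- Renaming of variables. -/
def val_ren : (ℕ → ℕ) → Fm → Fm
  | _, .bot => .bot
  | g, .mem i j => .mem (g i) (g j)
  | g, .lt i j => .lt (g i) (g j)
  | g, .imp φ ψ => .imp (val_ren g φ) (val_ren g ψ)
  | g, .ex φ => .ex (val_ren (push 0 fun i => g i + 1) φ)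

theorem val_satR_ren (E : Ordinal.{u} → Ordinal.{u} → Prop) (l : Ordinal.{u}) (φ : Fm) :
    ∀ (g : ℕ → ℕ) (v : ℕ → Ordinal.{u}), SatR E l (val_ren g φ) v ↔ SatR E l φ (v ∘ g) := by
  induction φ with
  | bot => intro g v; exact Iff.rfl
  | mem i j => intro g v; exact Iff.rfl
  | lt i j => intro g v; exact Iff.rfl
  | imp φ ψ h1 h2 => intro g v; exact imp_congr (h1 g v) (h2 g v)
  | ex φ h =>
    intro g v
    refine exists_congr fun z => and_congr_right fun _ => ?_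
    have e : push z v ∘ (push 0 fun i => g i + 1) = push z (v ∘ g) := by
      funext i
      cases i <;> rfl
    rw [h, e]

theorem val_push_lt {l z : Ordinal.{u}} {v : ℕ → Ordinal.{u}} (hz : z < l) (hv : ∀ i, v i < l) :
    ∀ i, push z v i < l
  | 0 => hz
  | i + 1 => hv i

theorem val_forall_mem {l x : Ordinal.{u}} {R : ZFSet.{u} → Prop} (hx : x < l) :
    (∀ a ∈ val x, R a) ↔ ∀ z < l, val z ∈ val x → R (val z) := by
  refine ⟨fun h z _ hz => h _ hz, fun h a ha => ?_⟩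
  obtain ⟨z, hz, rfl⟩ := exists_name_lt ha
  exact h z (hz.trans hx) ha

/-- Uniformly definable at all levels. -/
def Dfn (P : Ordinal.{u} → (ℕ → Ordinal.{u}) → Prop) : Prop :=
  ∃ φ : Fm, ∀ l, IsLev l → ∀ v, (∀ i, v i < l) → (P l v ↔ Tru l φ v)

namespace Dfn

variable {P Q : Ordinal.{u} → (ℕ → Ordinal.{u}) → Prop}

theorem congr (h : Dfn P) (hq : ∀ l, IsLev l → ∀ v, (∀ i, v i < l) → (Q l v ↔ P l v)) :
    Dfn Q := by
  obtain ⟨φ, hφ⟩ := h
  exact ⟨φ, fun l hl v hv => (hq l hl v hv).trans (hφ l hl v hv)⟩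

theorem tru (φ : Fm) : Dfn fun (l : Ordinal.{u}) v => Tru l φ v := by
  exact ⟨φ, fun _ _ _ _ => Iff.rfl⟩

theorem comp (h : Dfn P) (g : ℕ → ℕ) : Dfn fun l v => P l (v ∘ g) := by
  obtain ⟨φ, hφ⟩ := h
  exact ⟨val_ren g φ, fun l hl v hv =>
    (hφ l hl (v ∘ g) fun i => hv (g i)).trans (val_satR_ren _ l φ g v).symm⟩

theorem false : Dfn fun (_ : Ordinal.{u}) _ => False := by
  exact ⟨.bot, fun _ _ _ _ => Iff.rfl⟩

theorem true : Dfn fun (_ : Ordinal.{u}) _ => True := by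
  exact ⟨.imp .bot .bot, fun _ _ _ _ => ⟨fun _ h => h, fun _ => trivial⟩⟩

theorem mem (i j : ℕ) : Dfn fun (_ : Ordinal.{u}) v => val (v i) ∈ val (v j) := by
  exact ⟨.mem i j, fun _ _ _ hv => ⟨fun h => ⟨hv i, hv j, h⟩, fun h => h.2.2⟩⟩

theorem lt (i j : ℕ) : Dfn fun (_ : Ordinal.{u}) v => v i < v j := by
  exact ⟨.lt i j, fun _ _ _ _ => Iff.rfl⟩

theorem imp (h : Dfn P) (h' : Dfn Q) : Dfn fun l v => P l v → Q l v := by
  obtain ⟨φ, hφ⟩ := h
  obtain ⟨ψ, hψ⟩ := h'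
  exact ⟨.imp φ ψ, fun l hl v hv => imp_congr (hφ l hl v hv) (hψ l hl v hv)⟩

theorem not (h : Dfn P) : Dfn fun l v => ¬ P l v := by
  exact h.imp Dfn.false

theorem and (h : Dfn P) (h' : Dfn Q) : Dfn fun l v => P l v ∧ Q l v := by
  exact (h.imp h'.not).not.congr fun _ _ _ _ => by tauto

theorem or (h : Dfn P) (h' : Dfn Q) : Dfn fun l v => P l v ∨ Q l v := by
  exact (h.not.imp h').congr fun _ _ _ _ => by tauto

theorem iff (h : Dfn P) (h' : Dfn Q) : Dfn fun l v => P l v ↔ Q l v := by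
  exact ((h.imp h').and (h'.imp h)).congr fun _ _ _ _ => iff_iff_implies_and_implies

theorem ex (h : Dfn P) : Dfn fun l v => ∃ z < l, P l (push z v) := by
  obtain ⟨φ, hφ⟩ := h
  refine ⟨.ex φ, fun l hl v hv => ?_⟩
  rw [tru_ex]
  exact exists_congr fun z => and_congr_right fun hz => hφ l hl _ (val_push_lt hz hv)

theorem all (h : Dfn P) : Dfn fun l v => ∀ z < l, P l (push z v) := by
  refine h.not.ex.not.congr fun l _ v _ => ?_
  constructor
  · rintro h1 ⟨z, hz, h2⟩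
    exact h2 (h1 z hz)
  · intro h1 z hz
    by_contra h2
    exact h1 ⟨z, hz, h2⟩

theorem subset (i j : ℕ) : Dfn fun (_ : Ordinal.{u}) v => val (v i) ⊆ val (v j) := by
  refine ((Dfn.mem 0 (i + 1)).imp (Dfn.mem 0 (j + 1))).all.congr fun l _ v hv => ?_
  exact val_forall_mem (R := fun a => a ∈ val (v j)) (hv i)

theorem eq (i j : ℕ) : Dfn fun (_ : Ordinal.{u}) v => val (v i) = val (v j) := by
  refine ((Dfn.subset i j).and (Dfn.subset j i)).congr fun l _ v _ => ?_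
  exact ⟨fun h => ⟨fun _ ha => h ▸ ha, fun _ ha => h ▸ ha⟩,
    fun h => ZFSet.ext fun a => ⟨fun ha => h.1 ha, fun ha => h.2 ha⟩⟩

theorem val_trans (i : ℕ) : Dfn fun (_ : Ordinal.{u}) v => (val (v i)).IsTransitive := by
  refine ((Dfn.mem 0 (i + 1)).imp (Dfn.subset 0 (i + 1))).all.congr fun l _ v hv => ?_
  exact val_forall_mem (R := fun a => a ⊆ val (v i)) (hv i)

theorem val_upair (i j k : ℕ) :
    Dfn fun (_ : Ordinal.{u}) v => val (v i) = {val (v j), val (v k)} := by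
  refine ((Dfn.mem j i).and ((Dfn.mem k i).and ((Dfn.mem 0 (i + 1)).imp
    ((Dfn.eq 0 (j + 1)).or (Dfn.eq 0 (k + 1)))).all)).congr fun l _ v hv => ?_
  refine Iff.trans ?_ (and_congr Iff.rfl (and_congr Iff.rfl
    (val_forall_mem (R := fun a => a = val (v j) ∨ a = val (v k)) (hv i))))
  constructor
  · intro h
    rw [h]
    exact ⟨ZFSet.mem_pair.2 (Or.inl rfl), ZFSet.mem_pair.2 (Or.inr rfl),
      fun a ha => ZFSet.mem_pair.1 ha⟩
  · rintro ⟨h1, h2, h3⟩
    refine ZFSet.ext fun a => ⟨fun ha => ZFSet.mem_pair.2 (h3 a ha), fun ha => ?_⟩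
    rcases ZFSet.mem_pair.1 ha with rfl | rfl
    exacts [h1, h2]

theorem isOrdinal (i : ℕ) : Dfn fun (_ : Ordinal.{u}) v => (val (v i)).IsOrdinal := by
  refine ((val_trans i).and ((Dfn.mem 0 (i + 1)).imp (val_trans 0)).all).congr
    fun l _ v hv => ?_
  rw [ZFSet.isOrdinal_iff_forall_mem_isTransitive]
  exact and_congr Iff.rfl (val_forall_mem (R := fun a => a.IsTransitive) (hv i))

/-- The Kuratowski pair of the values of `j`, `k` belongs to the value of `i`. -/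
theorem app (i j k : ℕ) :
    Dfn fun (_ : Ordinal.{u}) v => ZFSet.pair (val (v j)) (val (v k)) ∈ val (v i) := by
  refine ((Dfn.mem 0 (i + 1)).and (((val_upair 1 (j + 3) (j + 3)).and
    ((val_upair 0 (j + 3) (k + 3)).and (val_upair 2 1 0))).ex.ex)).ex.congr fun l _ v hv => ?_
  constructor
  · intro h
    obtain ⟨z, hz, hzv⟩ := exists_name_lt h
    have h1 : ({val (v j)} : ZFSet.{u}) ∈ val z := by
      rw [hzv]
      exact ZFSet.mem_pair.2 (Or.inl rfl)
    have h2 : ({val (v j), val (v k)} : ZFSet.{u}) ∈ val z := by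
      rw [hzv]
      exact ZFSet.mem_pair.2 (Or.inr rfl)
    obtain ⟨s, hs, hsv⟩ := exists_name_lt h1
    obtain ⟨t, ht, htv⟩ := exists_name_lt h2
    have hzl : z < l := hz.trans (hv i)
    refine ⟨z, hzl, ?_, s, hs.trans hzl, t, ht.trans hzl, ?_, htv, ?_⟩
    · change val z ∈ val (v i)
      rw [hzv]
      exact h
    · change val s = {val (v j), val (v j)}
      rw [hsv]
      exact ZFSet.ext fun a => by simp
    · change val z = {val s, val t}
      rw [hzv, hsv, htv]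
      rfl
  · rintro ⟨z, -, hz, s, -, t, -, hs, ht, hp⟩
    change val z ∈ val (v i) at hz
    change val s = {val (v j), val (v j)} at hs
    change val t = {val (v j), val (v k)} at ht
    change val z = {val s, val t} at hp
    have h1 : ({val (v j), val (v j)} : ZFSet.{u}) = {val (v j)} := ZFSet.ext fun a => by simp
    rw [hp, hs, ht, h1] at hz
    exact hz

/-- Definable subsets of a level have names at that level. -/
theorem exists_name (h : Dfn P) {l : Ordinal.{u}} (hl : IsLev l) {w : ℕ → Ordinal.{u}}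
    (hw : FinEnv l w) :
    ∃ y, lev y = l ∧ ∀ a, a ∈ val y ↔ ∃ z < l, P l (push z w) ∧ val z = a := by
  obtain ⟨φ, hφ⟩ := h
  obtain ⟨y, h1, h2, h3⟩ := exists_loc hl φ hw
  refine ⟨y, h1, fun a => ?_⟩
  rw [mem_val, h1, h2, h3]
  refine exists_congr fun z => and_congr_right fun hz => and_congr_left fun _ => ?_
  exact (hφ l hl _ (val_push_lt hz (hw.lt (lt_of_le_of_lt zero_le hz)))).symm

end Dfn

end Pool.Agent.Lib.MP_0fa4a2_gt.Lc
end

-- part Pool.Agent.Lib.MP_0fa4a2_gt.LcHull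
section

/-!
Hulls.
-/

namespace Pool.Agent.Lib.MP_0fa4a2_gt.Lc

open Set Cardinal Ordinal
open Pool.Agent.Lib.MP_2739cb_lc (push)

universe u

inductive Hull (δ : Ordinal.{u}) (A : Set Ordinal.{u}) : Ordinal.{u} → Prop
  | base {x} : x ∈ A → x < δ → Hull δ A x
  | zero : 0 < δ → Hull δ A 0
  | lev {x} : Hull δ A x → Hull δ A (lev x)
  | env {x} (i : ℕ) : Hull δ A x → Hull δ A (env x i)
  | sk {x} : Hull δ A x → Hull δ A (sk x)
  | enc {x} : x < δ → Hull δ A (Lc.lev x) → (∀ i, Hull δ A (Lc.env x i)) → Hull δ A x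

namespace Hull

variable {δ δ' x : Ordinal.{u}} {A B : Set Ordinal.{u}}

theorem lt (h : Hull δ A x) : x < δ := by
  induction h with
  | base _ h => exact h
  | zero h => exact h
  | lev _ ih => exact (lev_le _).trans_lt ih
  | env i _ ih => exact (env_le _ i).trans_lt ih
  | sk _ ih => exact (sk_le _).trans_lt ih
  | enc h _ _ _ _ => exact h

theorem trans (h : Hull δ A x) (hδ : δ ≤ δ') (hA : ∀ a ∈ A, a < δ → Hull δ' B a) :
    Hull δ' B x := by
  induction h with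
  | base h1 h2 => exact hA _ h1 h2
  | zero h => exact .zero (h.trans_le hδ)
  | lev _ ih => exact .lev ih
  | env i _ ih => exact .env i ih
  | sk _ ih => exact .sk ih
  | enc h _ _ ih1 ih2 => exact .enc (h.trans_le hδ) ih1 ih2

theorem mono (h : Hull δ A x) (hδ : δ ≤ δ') (hA : A ⊆ B) : Hull δ' B x :=
  h.trans hδ fun _ ha hlt => .base (hA ha) (hlt.trans_le hδ)

theorem finite (h : Hull δ A x) :
    ∃ a : Finset Ordinal.{u}, ↑a ⊆ A ∧ (∀ y ∈ a, y < δ) ∧ Hull δ ↑a x := by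
  classical
  induction h with
  | @base x h1 h2 =>
    exact ⟨{x}, by simpa using h1, by simpa using h2, .base (by simp) h2⟩
  | zero h => exact ⟨∅, by simp, by simp, .zero h⟩
  | lev _ ih =>
    obtain ⟨a, h1, h2, h3⟩ := ih
    exact ⟨a, h1, h2, .lev h3⟩
  | env i _ ih =>
    obtain ⟨a, h1, h2, h3⟩ := ih
    exact ⟨a, h1, h2, .env i h3⟩
  | sk _ ih =>
    obtain ⟨a, h1, h2, h3⟩ := ih
    exact ⟨a, h1, h2, .sk h3⟩
  | @enc x h _ _ ih1 ih2 =>
    obtain ⟨a, h1, h2, h3⟩ := ih1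
    choose b g1 g2 g3 using ih2
    refine ⟨a ∪ (finEnv_env x).1.toFinset.biUnion b, fun y hy => ?_, fun y hy => ?_,
      .enc h (h3.mono le_rfl fun y hy => Finset.mem_union_left _ hy) fun i => ?_⟩
    · rcases Finset.mem_union.1 hy with hy | hy
      · exact h1 hy
      · obtain ⟨i, -, hi⟩ := Finset.mem_biUnion.1 hy
        exact g1 i hi
    · rcases Finset.mem_union.1 hy with hy | hy
      · exact h2 y hy
      · obtain ⟨i, -, hi⟩ := Finset.mem_biUnion.1 hy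
        exact g2 i y hi
    · by_cases hi : Lc.env x i = 0
      · rw [hi]
        exact .zero (zero_le.trans_lt h)
      · exact (g3 i).mono le_rfl fun y hy => Finset.mem_union_right _
          (Finset.mem_biUnion.2 ⟨i, (Set.Finite.mem_toFinset _).2 hi, hy⟩)

theorem finite_union (h : Hull δ (A ∪ B) x) :
    ∃ a : Finset Ordinal.{u}, ↑a ⊆ A ∧ Hull δ (↑a ∪ B) x := by
  classical
  obtain ⟨a, h1, -, h3⟩ := h.finite
  refine ⟨a.filter (· ∈ A), fun y hy => (Finset.mem_filter.1 hy).2, h3.mono le_rfl fun y hy => ?_⟩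
  rcases h1 hy with h | h
  · exact Or.inl (Finset.mem_filter.2 ⟨hy, h⟩)
  · exact Or.inr h

/-- Continuity at limits. -/
theorem of_limit (hδ : ∀ η < δ, η + 1 < δ) (h : Hull δ A x) : ∃ η < δ, Hull η A x := by
  induction h with
  | @base x h1 h2 => exact ⟨x + 1, hδ x h2, .base h1 (lt_add_one x)⟩
  | zero h => exact ⟨0 + 1, hδ 0 h, .zero (lt_add_one 0)⟩
  | lev _ ih =>
    obtain ⟨η, h1, h2⟩ := ih
    exact ⟨η, h1, .lev h2⟩
  | env i _ ih =>
    obtain ⟨η, h1, h2⟩ := ih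
    exact ⟨η, h1, .env i h2⟩
  | sk _ ih =>
    obtain ⟨η, h1, h2⟩ := ih
    exact ⟨η, h1, .sk h2⟩
  | @enc x h _ _ ih1 ih2 =>
    obtain ⟨η, h1, h2⟩ := ih1
    choose e g1 g2 using ih2
    have h3 : (finEnv_env x).1.toFinset.sup e < δ :=
      (Finset.sup_lt_iff (bot_le.trans_lt h)).2 fun i _ => g1 i
    have h4 : x < max (x + 1) (max η ((finEnv_env x).1.toFinset.sup e)) :=
      (lt_add_one x).trans_le (le_max_left _ _)
    refine ⟨_, max_lt (hδ x h) (max_lt h1 h3), .enc h4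
      (h2.mono ((le_max_left _ _).trans (le_max_right _ _)) subset_rfl) fun i => ?_⟩
    by_cases hi : Lc.env x i = 0
    · rw [hi]
      exact .zero (zero_le.trans_lt h4)
    · refine (g2 i).mono (le_trans ?_ ((le_max_right _ _).trans (le_max_right _ _))) subset_rfl
      exact Finset.le_sup ((Set.Finite.mem_toFinset _).2 hi)

/-- The finiteness property. -/
theorem of_succ (δ : Ordinal.{u}) : ∃ b : Finset Ordinal.{u}, ∀ (A : Set Ordinal.{u}) x,
    Hull (δ + 1) A x → x = δ ∨ Hull δ (A ∪ ↑b) x := by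
  classical
  refine ⟨insert (Lc.lev δ) (insert (Lc.sk δ) ((finEnv_env δ).1.toFinset.image (Lc.env δ))),
    fun A x h => ?_⟩
  induction h with
  | base h1 h2 =>
    exact (Order.lt_add_one_iff.1 h2).eq_or_lt.imp_right fun h => .base (Or.inl h1) h
  | zero h => exact (Order.lt_add_one_iff.1 h).eq_or_lt.imp_right fun h => .zero h
  | lev _ ih =>
    rcases ih with rfl | ih
    · exact (lev_le _).eq_or_lt.imp_right fun h => .base (Or.inr (by simp)) h
    · exact Or.inr (.lev ih)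
  | env i _ ih =>
    rcases ih with rfl | ih
    · refine (env_le _ i).eq_or_lt.imp_right fun h => ?_
      rename_i y _
      by_cases hi : Lc.env y i = 0
      · rw [hi] at h ⊢
        exact .zero h
      · exact .base (Or.inr (Finset.mem_insert_of_mem (Finset.mem_insert_of_mem
          (Finset.mem_image_of_mem _ ((Set.Finite.mem_toFinset _).2 hi))))) h
    · exact Or.inr (.env i ih)
  | sk _ ih =>
    rcases ih with rfl | ih
    · exact (sk_le _).eq_or_lt.imp_right fun h => .base (Or.inr (by simp)) h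
    · exact Or.inr (.sk ih)
  | enc h _ _ ih1 ih2 =>
    refine (Order.lt_add_one_iff.1 h).eq_or_lt.imp_right fun h => .enc h ?_ fun i => ?_
    · exact ih1.resolve_left ((lev_le _).trans_lt h).ne
    · exact (ih2 i).resolve_left ((env_le _ i).trans_lt h).ne

theorem hull_enc_countable (b : Finset Ordinal.{u}) :
    {x | Lc.lev x ∈ b ∧ ∀ i, Lc.env x i ≠ 0 → Lc.env x i ∈ b}.Countable := by
  have hc : (((b : Set Ordinal.{u}) ×ˢ (Set.univ : Set Fm)) ×ˢ
      {t : Set (ℕ × Ordinal.{u}) |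
        t.Finite ∧ t ⊆ Set.univ ×ˢ (b : Set Ordinal.{u})}).Countable :=
    (b.countable_toSet.prod countable_univ).prod
      (countable_ofPred_finite_subset (countable_univ.prod b.countable_toSet))
  have hinj : Function.Injective fun x : Ordinal.{u} =>
      ((Lc.lev x, fm x), ((dec x).v.graph : Set (ℕ × Ordinal.{u}))) := by
    intro x y h
    have h1 := Prod.ext_iff.1 h
    have h2 := Prod.ext_iff.1 h1.1
    have h3 : (dec x).v = (dec y).v := Finsupp.graph_injective _ _ (Finset.coe_injective h1.2)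
    exact eq_of_dec h2.1 h2.2 fun i => congrArg (fun v : ℕ →₀ Ordinal.{u} => v i) h3
  refine (hc.preimage hinj).mono ?_
  intro x hx
  refine Set.mk_mem_prod (Set.mk_mem_prod hx.1 trivial) ⟨Finset.finite_toSet _, ?_⟩
  intro c hc
  have h1 := Finsupp.mem_graph_iff.1 (Finset.mem_coe.1 hc)
  have h2 : Lc.env x c.1 = c.2 := h1.1
  exact ⟨trivial, h2 ▸ hx.2 c.1 (h2 ▸ h1.2)⟩

theorem hull_countable_finset (δ : Ordinal.{u}) (a : Finset Ordinal.{u}) :
    {x | Hull δ ↑a x}.Countable := by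
  classical
  obtain ⟨cl, hcl⟩ := Nec.exists_cl
    (fun b : Finset Ordinal.{u} => {0} ∪ Lc.lev '' b ∪ (⋃ i, (fun x => Lc.env x i) '' b) ∪
      Lc.sk '' b ∪ {x | Lc.lev x ∈ b ∧ ∀ i, Lc.env x i ≠ 0 → Lc.env x i ∈ b})
    fun b => ((((countable_singleton _).union (b.countable_toSet.image _)).union
      (countable_iUnion fun _ => b.countable_toSet.image _)).union
      (b.countable_toSet.image _)).union (hull_enc_countable b)
  obtain ⟨h1, h2, h3, -⟩ := hcl a
  refine h1.mono fun x hx => ?_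
  induction (show Hull δ ↑a x from hx) with
  | base h _ => exact h2 h
  | zero _ => exact h3 ∅ (by simp) (Or.inl (Or.inl (Or.inl (Or.inl rfl))))
  | @lev y h ih =>
    exact h3 {y} (by simpa using ih h) (Or.inl (Or.inl (Or.inl (Or.inr ⟨y, by simp, rfl⟩))))
  | @env y i h ih =>
    exact h3 {y} (by simpa using ih h)
      (Or.inl (Or.inl (Or.inr (mem_iUnion.2 ⟨i, y, by simp, rfl⟩))))
  | @sk y h ih => exact h3 {y} (by simpa using ih h) (Or.inl (Or.inr ⟨y, by simp, rfl⟩))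
  | @enc y _ g1 g2 ih1 ih2 =>
    refine h3 (insert (Lc.lev y) ((finEnv_env y).1.toFinset.image (Lc.env y))) (fun z hz => ?_)
      (Or.inr ⟨Finset.mem_insert_self _ _, fun i hi => Finset.mem_insert_of_mem
        (Finset.mem_image_of_mem _ ((Set.Finite.mem_toFinset _).2 hi))⟩)
    rcases Finset.mem_insert.1 hz with rfl | hz
    · exact ih1 g1
    · obtain ⟨i, -, rfl⟩ := Finset.mem_image.1 hz
      exact ih2 i (g2 i)

theorem countable (δ : Ordinal.{u}) (hA : A.Countable) : {x | Hull δ A x}.Countable := by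
  refine ((countable_ofPred_finite_subset hA).biUnion (t := fun t _ => {x | Hull δ t x})
    fun t ht => ?_).mono fun x hx => ?_
  · have h := hull_countable_finset δ ht.1.toFinset
    rwa [Set.Finite.coe_toFinset] at h
  · obtain ⟨a, h1, -, h3⟩ := Hull.finite hx
    exact mem_iUnion₂.2 ⟨(a : Set Ordinal.{u}), ⟨a.finite_toSet, h1⟩, h3⟩

theorem mk_le (δ : Ordinal.{u}) (A : Set Ordinal.{u}) : #{x | Hull δ A x} ≤ max ℵ₀ #A := by
  classical
  have h1 : {x | Hull δ A x} ⊆ ⋃ l : List A, {x | Hull δ (Subtype.val '' {y | y ∈ l}) x} := by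
    intro x hx
    obtain ⟨a, h1, -, h3⟩ := Hull.finite hx
    refine mem_iUnion.2 ⟨(a.subtype (· ∈ A)).toList, h3.mono le_rfl fun y hy => ?_⟩
    exact ⟨⟨y, h1 hy⟩, Finset.mem_toList.2 (Finset.mem_subtype.2 hy), rfl⟩
  have h2 : ∀ l : List A, #{x | Hull δ (Subtype.val '' {y | y ∈ l}) x} ≤ ℵ₀ := fun l =>
    Cardinal.le_aleph0_iff_set_countable.2
      (countable δ ((List.finite_toSet l).countable.image _))
  refine (mk_le_mk_of_subset h1).trans ((mk_iUnion_le _).trans ?_)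
  refine (mul_le_mul' (mk_list_le_max _) (ciSup_le' h2)).trans (le_of_eq ?_)
  exact Cardinal.mul_eq_left (le_max_left _ _) (le_max_left _ _) aleph0_ne_zero

/-- Hulls are closed under least witnesses of definable predicates at complete levels. -/
theorem least {P : Ordinal.{u} → (ℕ → Ordinal.{u}) → Prop} (hP : Dfn P) {l : Ordinal.{u}}
    (hl : IsLev l) (hδ : nxt l ≤ δ) (hlA : Hull δ A l) {w : ℕ → Ordinal.{u}} (hw : FinEnv l w)
    (hwA : ∀ i, Hull δ A (w i)) {z : Ordinal.{u}} (hz : z < l) (hPz : P l (push z w))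
    (hmin : ∀ z' < z, ¬ P l (push z' w)) : Hull δ A z := by
  obtain ⟨φ, hφ⟩ := hP
  obtain ⟨ξ, e1, e2, e3⟩ := exists_loc hl φ hw
  have h0 : 0 < l := zero_le.trans_lt hz
  have h1 : Hull δ A ξ :=
    .enc ((lt_nxt_of_lev_le e1.le).trans_le hδ) (e1 ▸ hlA) fun i => e3 ▸ hwA i
  have h2 := sk_spec (ξ := ξ) (z := z) (e1 ▸ hz) (by
    rw [e1, e2, e3]
    exact (hφ l hl _ ((hw.push hz).lt h0)).1 hPz)
  rw [e1, e2, e3] at h2
  rcases h2.1.eq_or_lt with h3 | h3
  · exact h3 ▸ .sk h1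
  · exact absurd ((hφ l hl _ ((hw.push (h3.trans hz)).lt h0)).2 h2.2) (hmin _ h3)

end Hull

def HClosed (δ : Ordinal.{u}) (X : Set Ordinal.{u}) : Prop := ∀ x, Hull δ X x → x ∈ X

theorem hclosed_hull (δ : Ordinal.{u}) (A : Set Ordinal.{u}) : HClosed δ {x | Hull δ A x} :=
  fun _ h => h.trans le_rfl fun _ ha _ => ha

/-- The hull of `γ ∪ q` at height `η`. -/
def hl (η γ : Ordinal.{u}) (q : Finset Ordinal.{u}) : Set Ordinal.{u} := {x | Hull η (Iio γ ∪ ↑q) x}

noncomputable def sg (η γ : Ordinal.{u}) (q : Finset Ordinal.{u}) : Ordinal.{u} → Ordinal.{u} :=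
  en (hl η γ q) η

noncomputable def og (η γ : Ordinal.{u}) (q : Finset Ordinal.{u}) : Ordinal.{u} := ot (hl η γ q) η

end Pool.Agent.Lib.MP_0fa4a2_gt.Lc
end

-- part Pool.Agent.Lib.MP_0fa4a2_gt.LcReg
section

/-!
Names of ordinals; regular and Mahlo points of the machine.
-/

namespace Pool.Agent.Lib.MP_0fa4a2_gt.Lc

open Set Cardinal Ordinal

universe u

theorem exists_lev_bound {I : Type*} [Small.{u} I] (f : I → Ordinal.{u}) :
    ∃ l, IsLev l ∧ 0 < l ∧ ∀ i, f i < l := by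
  refine ⟨nxt (⨆ i, f i), isLev_nxt _, zero_le.trans_lt (lt_nxt _), fun i => ?_⟩
  exact (Ordinal.le_iSup f i).trans_lt (lt_nxt _)

/-- If all smaller ordinals have names below the level `l`, then `ξ` has a name of level at
most `l`. -/
theorem exists_name_ord_le {ξ l : Ordinal.{u}} (hl : IsLev l)
    (h : ∀ η < ξ, ∃ z < l, val z = η.toZFSet) : ∃ z, lev z ≤ l ∧ val z = ξ.toZFSet := by
  obtain ⟨y, hy, hm⟩ := (Dfn.isOrdinal 0).exists_name hl (w := fun _ => 0)
    ⟨by simp, fun i hi => absurd rfl hi⟩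
  have h1 : ∀ a, a ∈ val y ↔ ∃ z < l, (val z).IsOrdinal ∧ val z = a := hm
  have h2 : (val y).IsOrdinal := by
    refine ZFSet.isOrdinal_iff_forall_mem_isOrdinal.2 ⟨fun a ha b hb => ?_, fun a ha => ?_⟩
    · obtain ⟨z, hz, ho, rfl⟩ := (h1 a).1 ha
      obtain ⟨t, ht, rfl⟩ := exists_name_lt hb
      exact (h1 _).2 ⟨t, ht.trans hz, ho.mem hb, rfl⟩
    · obtain ⟨z, -, ho, rfl⟩ := (h1 a).1 ha
      exact ho
  have h3 : ξ.toZFSet ⊆ val y := fun a ha => by
    obtain ⟨η, hη, rfl⟩ := mem_toZFSet_iff.1 ha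
    obtain ⟨z, hz, e⟩ := h η hη
    exact (h1 _).2 ⟨z, hz, e ▸ ZFSet.isOrdinal_toZFSet η, e⟩
  rcases ((ZFSet.isOrdinal_toZFSet ξ).subset_iff_eq_or_mem h2).1 h3 with e | e
  · exact ⟨y, hy.le, e.symm⟩
  · obtain ⟨z, hz, -, e⟩ := (h1 _).1 e
    exact ⟨z, (lev_le z).trans hz.le, e⟩

theorem exists_name_ord (ξ : Ordinal.{u}) : ∃ z, val z = ξ.toZFSet := by
  induction ξ using WellFoundedLT.induction with
  | ind ξ ih =>
    choose f hf using ih
    obtain ⟨l, hl, -, h⟩ := exists_lev_bound fun η : Iio ξ => f η.1 η.2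
    obtain ⟨z, -, hz⟩ := exists_name_ord_le (ξ := ξ) hl fun η hη => ⟨_, h ⟨η, hη⟩, hf η hη⟩
    exact ⟨z, hz⟩

/-- The least name of an ordinal. -/
noncomputable def onm (ξ : Ordinal.{u}) : Ordinal.{u} := sInf {z | val z = ξ.toZFSet}

theorem val_onm (ξ : Ordinal.{u}) : val (onm ξ) = ξ.toZFSet := by
  exact csInf_mem (s := {z | val z = ξ.toZFSet}) (exists_name_ord ξ)

theorem onm_le {ξ z : Ordinal.{u}} (h : val z = ξ.toZFSet) : onm ξ ≤ z := by
  exact csInf_le' h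

theorem onm_strictMono : StrictMono (onm : Ordinal.{u} → Ordinal.{u}) := by
  intro η ξ h
  obtain ⟨z, hz, e⟩ := exists_name_lt (ξ := onm ξ) (a := η.toZFSet)
    (val_onm ξ ▸ toZFSet_mem_toZFSet_iff.2 h)
  exact (onm_le e).trans_lt hz

theorem le_onm (ξ : Ordinal.{u}) : ξ ≤ onm ξ := onm_strictMono.le_apply

def Fix (κ : Ordinal.{u}) : Prop := ∀ ξ < κ, onm ξ < κ ∧ nxt ξ < κ

theorem Fix.isLev {κ : Ordinal.{u}} (h : Fix κ) : IsLev κ := by
  exact isLev_of_limit fun ξ hξ => (h ξ hξ).2.le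

theorem Fix.succ_lt {κ : Ordinal.{u}} (h : Fix κ) {ξ : Ordinal.{u}} (hξ : ξ < κ) : ξ + 1 < κ := by
  exact (Order.add_one_le_iff.2 (lt_nxt ξ)).trans_lt (h ξ hξ).2

theorem fix_of_rg {y : Ordinal.{u}} (hy : Nec.Rg y) : Fix y := by
  intro ξ hξ
  refine ⟨?_, nxt_lt_of_rg hy hξ⟩
  induction ξ using WellFoundedLT.induction with
  | ind ξ ih =>
    obtain ⟨b, hb, h⟩ := hy.bdd (s := onm '' Iio ξ) (by
      rintro _ ⟨η, hη, rfl⟩
      exact ih η hη (hη.trans hξ)) (mk_image_le.trans_lt (by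
        rw [Cardinal.mk_Iio_ordinal]
        exact Cardinal.lift_lt.2 (hy.card_lt hξ)))
    obtain ⟨z, hz, e⟩ := exists_name_ord_le (ξ := ξ) (isLev_nxt b) fun η hη =>
      ⟨onm η, (h _ ⟨η, hη, rfl⟩).trans (lt_nxt b), val_onm η⟩
    exact (onm_le e).trans_lt ((lt_nxt_of_lev_le hz).trans
      (nxt_lt_of_rg hy (nxt_lt_of_rg hy hb)))

/-- `s` is cofinal in `κ`. -/
def Cof (s : Set Ordinal.{u}) (κ : Ordinal.{u}) : Prop := ∀ β < κ, ∃ x ∈ s, β ≤ x ∧ x < κ

def Sing (κ : Ordinal.{u}) : Prop := ∃ δ γ q, γ < κ ∧ Cof (hl δ γ q) κ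

def Reg (κ : Ordinal.{u}) : Prop := Fix κ ∧ ω < κ ∧ ¬ Sing κ

theorem reg_of_rg {y : Ordinal.{u}} (hy : Nec.Rg y) : Reg y := by
  refine ⟨fix_of_rg hy, omega0_lt_omega_one.trans_le hy.2, ?_⟩
  rintro ⟨δ, γ, q, hγ, hc⟩
  have h0 : ℵ₀ < Cardinal.lift.{u + 1} y.card := Cardinal.aleph0_lt_lift.2 hy.aleph0_lt
  obtain ⟨b, hb, h⟩ := hy.bdd (s := hl δ γ q ∩ Iio y) inter_subset_right
    ((mk_le_mk_of_subset inter_subset_left).trans_lt ((Hull.mk_le δ _).trans_lt (max_lt h0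
      ((mk_union_le _ _).trans_lt (add_lt_of_lt h0.le (by
        rw [Cardinal.mk_Iio_ordinal]
        exact Cardinal.lift_lt.2 (hy.card_lt hγ)) (q.finite_toSet.lt_aleph0.trans h0))))))
  obtain ⟨x, hx, k1, k2⟩ := hc b hb
  exact (h x ⟨hx, k2⟩).not_ge k1

/-- The ordinals in the value of `y`. -/
def cs (y : Ordinal.{u}) : Set Ordinal.{u} := {ξ | ξ.toZFSet ∈ val y}

def ClubO (c : Set Ordinal.{u}) (κ : Ordinal.{u}) : Prop :=
  (∀ β < κ, ∃ ξ ∈ c, β < ξ ∧ ξ < κ) ∧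
    ∀ η < κ, 0 < η → (∀ β < η, ∃ ξ ∈ c, β < ξ ∧ ξ < η) → η ∈ c

def MahloM (κ : Ordinal.{u}) : Prop :=
  Reg κ ∧ (∀ β < κ, ∃ κ' < κ, β < κ' ∧ Reg κ') ∧
    ∀ y, ClubO (cs y) κ → ∃ κ' ∈ cs y, κ' < κ ∧ Reg κ'

end Pool.Agent.Lib.MP_0fa4a2_gt.Lc
end
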