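import Pool.Agent.Lib.MP_0fa4a2_gt.LcLim
import Pool.Agent.Lib.MP_0fa4a2_gt.LcReg
import Pool.Agent.Lib.MP_0fa4a2_gt.LcRefl
import Pool.Agent.Lib.MP_0fa4a2_gt.LcDefs

-- part Pool.Agent.Lib.MP_0fa4a2_gt.LcNR
section

/-!
Non-reflecting stationary sets below a regular cardinal that is not a Mahlo point.
-/

namespace Pool.Agent.Lib.MP_0fa4a2_gt.Lc

open Set Cardinal Ordinal

universe u

/-- `δ` is the least height at which `κ` is singularised. -/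
def IsHt (κ δ : Ordinal.{u}) : Prop :=
  (∃ γ q, γ < κ ∧ Cof (hl δ γ q) κ) ∧ ∀ η < δ, ∀ γ q, γ < κ → ¬ Cof (hl η γ q) κ

/-- `p` is the standard parameter of `δ` above `κ`. -/
def IsPar (κ δ : Ordinal.{u}) (p : Finset Ordinal.{u}) : Prop :=
  (∀ x ∈ p, x < δ) ∧ Iio δ ⊆ hl δ κ p ∧
    ∀ q : Finset Ordinal.{u}, toColex q < toColex p → ¬ Iio δ ⊆ hl δ κ q

/-- The union of the hulls of `a ∪ p` over all finite `a` below `r`. -/
def Yr (δ : Ordinal.{u}) (p r : Finset Ordinal.{u}) : Set Ordinal.{u} :=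
  {x | ∃ a : Finset Ordinal.{u}, toColex a < toColex r ∧ Hull δ (↑a ∪ ↑p) x}

def IsInv (κ : Ordinal.{u}) (r : Finset Ordinal.{u}) : Prop :=
  ∃ δ p, IsHt κ δ ∧ IsPar κ δ p ∧ Cof (Yr δ p r) κ ∧
    ∀ r' : Finset Ordinal.{u}, toColex r' < toColex r → ¬ Cof (Yr δ p r') κ

theorem IsInv.unique {κ : Ordinal.{u}} {r r' : Finset Ordinal.{u}} (h : IsInv κ r)
    (h' : IsInv κ r') : r = r' := by
  obtain ⟨δ, p, h1, h2, h3, h4⟩ := h
  obtain ⟨δ', p', h1', h2', h3', h4'⟩ := h'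
  obtain rfl : δ = δ' := by
    obtain ⟨γ, q, a, b⟩ := h1.1
    obtain ⟨γ', q', a', b'⟩ := h1'.1
    exact le_antisymm (not_lt.1 fun k => h1.2 _ k γ' q' a' b') (not_lt.1 fun k => h1'.2 _ k γ q a b)
  obtain rfl : p = p' := toColex.injective
    (le_antisymm (not_lt.1 fun k => h2.2.2 _ k h2'.2.1) (not_lt.1 fun k => h2'.2.2 _ k h2.2.1))
  exact toColex.injective
    (le_antisymm (not_lt.1 fun k => h4 _ k h3') (not_lt.1 fun k => h4' _ k h3))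

theorem IsHt.limit {κ δ : Ordinal.{u}} (hκ : ∀ ξ < κ, ξ + 1 < κ) (h : IsHt κ δ) :
    κ ≤ δ ∧ ∀ η < δ, η + 1 < δ := by
  obtain ⟨γ, q, a, b⟩ := h.1
  have h1 : κ ≤ δ := le_of_forall_lt fun β hβ => by
    obtain ⟨x, k1, k2, -⟩ := b β hβ
    exact k2.trans_lt (Hull.lt k1)
  refine ⟨h1, fun η hη => lt_of_le_of_ne (Order.add_one_le_of_lt hη) fun e => ?_⟩
  subst e
  obtain ⟨c, hc⟩ := Hull.of_succ η
  refine h.2 η hη γ (q ∪ c) a fun β hβ => ?_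
  obtain ⟨x, k1, k2, k3⟩ := b β hβ
  refine ⟨x, ?_, k2, k3⟩
  rcases hc _ x k1 with rfl | k
  · exact absurd (hκ x k3) h1.not_gt
  · rwa [union_assoc, ← Finset.coe_union] at k

theorem nr_filter {δ γ x : Ordinal.{u}} {q : Finset Ordinal.{u}} (h : x ∈ hl δ γ q) :
    x ∈ hl δ γ (q.filter (· < δ)) :=
  Hull.trans h le_rfl fun _ ha ha' =>
    Hull.base (ha.imp_right fun k => Finset.mem_filter.2 ⟨k, ha'⟩) ha'

theorem nr_bound {κ γ : Ordinal.{u}} (hκ : ∀ ξ < κ, ξ + 1 < κ) (hγ : γ < κ)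
    (a : Finset Ordinal.{u}) (ha : ∀ x ∈ a, x < κ) : ∃ γ', γ ≤ γ' ∧ γ' < κ ∧ ∀ x ∈ a, x < γ' :=
  ⟨max γ (a.sup id + 1), le_max_left _ _,
    max_lt hγ (hκ _ ((Finset.sup_lt_iff (bot_le.trans_lt hγ)).2 ha)), fun _ hx =>
      lt_max_of_lt_right (Order.lt_add_one_iff.2 (Finset.le_sup (f := id) hx))⟩

theorem nr_fin {κ γ δ : Ordinal.{u}} (hκ : ∀ ξ < κ, ξ + 1 < κ) (hγ : γ < κ)
    {p : Finset Ordinal.{u}} (c : Finset Ordinal.{u}) (hc : ∀ x ∈ c, x ∈ hl δ κ p) :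
    ∃ γ', γ ≤ γ' ∧ γ' < κ ∧ ∀ x ∈ c, x ∈ hl δ γ' p := by
  induction c using Finset.induction_on with
  | empty => exact ⟨γ, le_rfl, hγ, fun _ h => absurd h (Finset.notMem_empty _)⟩
  | insert y c _ ih =>
    obtain ⟨γ', h1, h2, h3⟩ := ih fun x hx => hc x (Finset.mem_insert_of_mem hx)
    obtain ⟨a, h4, h5⟩ := Hull.finite_union (hc y (Finset.mem_insert_self _ _))
    obtain ⟨γ'', h6, h7, h8⟩ := nr_bound hκ h2 a fun x hx => h4 hx
    refine ⟨γ'', h1.trans h6, h7, fun x hx => ?_⟩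
    rcases Finset.mem_insert.1 hx with rfl | hx
    · exact h5.mono le_rfl (union_subset_union_left _ h8)
    · exact Hull.mono (h3 x hx) le_rfl (union_subset_union_left _ (Iio_subset_Iio h6))

/-- The invariant exists and is regressive. -/
theorem exists_inv {κ : Ordinal.{u}} (hκ : ∀ ξ < κ, ξ + 1 < κ) (h : Sing κ) :
    ∃ r, IsInv κ r ∧ ∃ γ < κ, toColex r ≤ toColex {γ} := by
  obtain ⟨δ, ⟨γ, q, hγ, hc⟩, hmin⟩ :=
    (wellFounded_lt (α := Ordinal.{u})).has_min {δ | ∃ γ q, γ < κ ∧ Cof (hl δ γ q) κ} h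
  have hH : IsHt κ δ := ⟨⟨γ, q, hγ, hc⟩, fun η hη γ' q' a b => hmin η ⟨γ', q', a, b⟩ hη⟩
  have hδ := (hH.limit hκ).1
  obtain ⟨p', h1, h2⟩ := exists_pre (η := δ) (γ := κ) (q := q.filter (· < δ))
    fun y hy => (Finset.mem_filter.1 hy).2
  have h3 : ∀ y ∈ q.filter (· < δ), ∃ x ∈ p', sg δ κ (q.filter (· < δ)) x = y := fun y hy =>
    Finset.mem_image.1 (h2.ge hy)
  have h4 : Cof (hl (og δ κ (q.filter (· < δ))) γ p') κ := fun β hβ => by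
    obtain ⟨x, k1, k2, k3⟩ := hc β hβ
    obtain ⟨x', k4, k5⟩ := hull_pull_en (A := Iio γ ∪ ↑p') (hclosed_hull δ (Iio κ ∪ ↑(q.filter (· < δ))))
      (fun b hb _ => by
        rcases hb with hb | hb
        · exact ⟨b, Hull.base (Or.inl hb) ((hb.trans hγ).trans_le (le_og hδ)),
            sg_id hδ (hb.trans hγ)⟩
        · obtain ⟨a, k6, k7⟩ := h3 b hb
          exact ⟨a, Hull.base (Or.inr k6) (h1 a k6), k7⟩) le_rfl (nr_filter k1)
    obtain rfl : x' = x := (sg_id hδ (((le_en x').trans k5.le).trans_lt k3)).symm.trans k5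
    exact ⟨x', k4, k2, k3⟩
  have h5 : og δ κ (q.filter (· < δ)) = δ :=
    le_antisymm ot_le (not_lt.1 fun k => hH.2 _ k γ p' hγ h4)
  have h6 := og_sound hδ h1 fun y hy _ => h3 y hy
  rw [h5] at h1 h4 h6
  obtain ⟨p, h7, h8⟩ := colex_wf.has_min {p | Iio δ ⊆ hl δ κ p} ⟨p', h6⟩
  have h9 : p.filter (· < δ) = p := toColex.injective
    ((Finset.Colex.toColex_le_toColex_of_subset (Finset.filter_subset _ _)).eq_of_not_lt
      (h8 _ fun x hx => nr_filter (h7 hx)))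
  obtain ⟨γ', k1, k2, k3⟩ := nr_fin hκ hγ p' fun x hx => h7 (h1 x hx)
  have k0 : Cof (Yr δ p {γ'}) κ := fun β hβ => by
    obtain ⟨x, k6, k7⟩ := h4 β hβ
    obtain ⟨a, k8, k9⟩ := Hull.finite_union (Hull.trans (B := Iio γ' ∪ ↑p) k6 le_rfl
      fun a ha ha' => ha.elim (fun ha => Hull.base (Or.inl (ha.trans_le k1)) ha') (k3 a))
    exact ⟨x, ⟨a, Finset.Colex.toColex_lt_singleton.2 fun b hb => k8 hb, k9⟩, k7⟩
  obtain ⟨r, k4, k5⟩ := colex_wf.has_min {r | Cof (Yr δ p r) κ} ⟨_, k0⟩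
  exact ⟨r, ⟨δ, p, hH, ⟨fun x hx => (Finset.mem_filter.1 (h9.ge hx)).2, h7,
    fun q' a b => h8 q' b a⟩, k4, fun r' a b => k5 r' b a⟩, γ', k2, not_lt.1 (k5 _ k0)⟩

end Pool.Agent.Lib.MP_0fa4a2_gt.Lc
end

-- part Pool.Agent.Lib.MP_0fa4a2_gt.LcNR2
section

/-!
The fibres of the invariant do not reflect.
-/

namespace Pool.Agent.Lib.MP_0fa4a2_gt.Lc

open Set Cardinal Ordinal

universe u

theorem nr2_below {a r : Finset Ordinal.{u}} {γ : Ordinal.{u}} (ha : toColex a < toColex r)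
    (hr : toColex r ≤ toColex {γ}) : ∀ x ∈ a, x < γ :=
  Finset.Colex.toColex_lt_singleton.1 (ha.trans_le hr)

theorem nr2_not_cof {s : Set Ordinal.{u}} {κ : Ordinal.{u}} (h : ¬ Cof s κ) :
    ∃ b < κ, ∀ x ∈ s, x < κ → x < b := by
  by_contra hcon
  refine h fun β hβ => ?_
  by_contra h2
  exact hcon ⟨β, hβ, fun x hx hκ => not_le.1 fun h3 => h2 ⟨x, hx, h3, hκ⟩⟩

theorem nr2_yr_sub {δ γ : Ordinal.{u}} {p r : Finset Ordinal.{u}} (hr : toColex r ≤ toColex {γ}) :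
    Yr δ p r ⊆ hl δ γ p := by
  rintro x ⟨a, ha, hx⟩
  exact hx.mono le_rfl (union_subset_union_left _ fun y hy => nr2_below ha hr y hy)

theorem nr2_cof_mono {s t : Set Ordinal.{u}} {κ : Ordinal.{u}} (h : Cof s κ)
    (hst : ∀ x ∈ s, x < κ → x ∈ t) : Cof t κ := fun β hβ => by
  obtain ⟨x, h1, h2, h3⟩ := h β hβ
  exact ⟨x, hst x h1 h3, h2, h3⟩

/-- The invariant at a suitable smaller point. -/
theorem inv_below {κ δ κ' η γ : Ordinal.{u}} {p r' : Finset Ordinal.{u}}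
    (hp : IsPar κ δ p) (hκ : κ' ≤ κ) (hη : η ≤ δ) (hκη : κ' ≤ η) (hpη : ∀ x ∈ p, x < η)
    (hγ : γ < κ') (hr' : toColex r' ≤ toColex {γ})
    (hb : ∀ η₀ < η, ∀ γ₀ < κ', ∀ q : Finset Ordinal.{u}, ↑q ⊆ hl η κ' p → ¬ Cof (hl η₀ γ₀ q) κ')
    (hc : Cof (Yr η p r') κ') :
    ∃ r, IsInv κ' r ∧ toColex r ≤ toColex r' ∧ Cof (Yr δ p r) κ' := by
  classical
  obtain ⟨pb, hpb, hpi⟩ := exists_pre (η := η) (γ := κ') hpη
  have hemb := emb_sg η κ' p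
  have hid : ∀ x < κ', sg η κ' p x = x := fun x hx => sg_id hκη hx
  have hz : κ' ≤ og η κ' p := le_og hκη
  have hsm : StrictMono (sg η κ' p) := en_strictMono
  have hlt : ∀ x < og η κ' p, sg η κ' p x < η := fun x hx => en_lt_iff.2 hx
  have hmem : ∀ x < og η κ' p, sg η κ' p x ∈ hl η κ' p := fun x hx => en_mem hx
  have hpre : ∀ y ∈ p, ∃ x ∈ pb, sg η κ' p x = y := fun y hy => by
    rw [← hpi] at hy
    exact Finset.mem_image.1 hy
  have hpim : ∀ x ∈ pb, sg η κ' p x ∈ p := fun x hx => by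
    have h1 : sg η κ' p x ∈ pb.image (sg η κ' p) := Finset.mem_image_of_mem _ hx
    rwa [hpi] at h1
  have hB : Cof (Yr (og η κ' p) pb r') κ' := by
    refine nr2_cof_mono hc ?_
    rintro x ⟨a, ha, hx⟩ hxκ
    have ha' := nr2_below ha hr'
    obtain ⟨x0, h1, h2⟩ := hull_pull_en (X := hl η κ' p) (δ := η) (A := ↑a ∪ ↑pb)
      (hclosed_hull _ _) (fun b hb _ => by
        rcases hb with hb | hb
        · have h3 : b < κ' := (ha' b hb).trans hγ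
          exact ⟨b, Hull.base (Or.inl hb) (h3.trans_le hz), hid b h3⟩
        · obtain ⟨x, h3, h4⟩ := hpre b hb
          exact ⟨x, Hull.base (Or.inr h3) (hpb x h3), h4⟩) le_rfl hx
    have h3 : x0 = x := hsm.injective (h2.trans (hid x hxκ).symm)
    exact ⟨a, ha, h3 ▸ h1⟩
  have hHt : IsHt κ' (og η κ' p) := by
    refine ⟨⟨γ, pb, hγ, nr2_cof_mono hB fun x hx _ => nr2_yr_sub hr' hx⟩, ?_⟩
    intro e he γ₀ qb hγ₀ hcof
    refine hb (sg η κ' p e) (hlt e he) γ₀ hγ₀ ((qb.filter (· < e)).image (sg η κ' p)) ?_ ?_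
    · intro y hy
      obtain ⟨x, h1, rfl⟩ := Finset.mem_image.1 hy
      exact hmem x ((Finset.mem_filter.1 h1).2.trans he)
    · refine nr2_cof_mono hcof fun x hx hxκ => ?_
      have h1 := hemb.hull_map (η' := sg η κ' p e)
        (B := Iio γ₀ ∪ ↑((qb.filter (· < e)).image (sg η κ' p))) he.le (fun x hx => hsm hx)
        (fun a ha hae => by
          refine Hull.base ?_ (hsm hae)
          rcases ha with ha | ha
          · rw [hid a (lt_trans ha hγ₀)]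
            exact Or.inl ha
          · exact Or.inr (Finset.mem_coe.2
              (Finset.mem_image_of_mem _ (Finset.mem_filter.2 ⟨ha, hae⟩)))) hx
      rwa [hid x hxκ] at h1
  have hPar : IsPar κ' (og η κ' p) pb := by
    refine ⟨hpb, fun x hx => og_sound hκη hpb (fun y hy _ => hpre y hy) x hx, ?_⟩
    intro qb hqb hsub
    refine hp.2.2 (qb.image (sg η κ' p)) ?_ fun x hx => ?_
    · have h1 := (Finset.Colex.toColex_image_lt_toColex_image hsm).2 hqb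
      rwa [hpi] at h1
    · refine Hull.trans (hp.2.1 hx) le_rfl fun a ha haδ => ?_
      rcases ha with ha | ha
      · exact Hull.base (Or.inl ha) haδ
      · obtain ⟨x, h1, rfl⟩ := hpre a ha
        refine hemb.hull_map le_rfl (fun x hx => (hlt x hx).trans_le hη) (fun a ha haz => ?_)
          (hsub (hpb x h1))
        refine Hull.base ?_ ((hlt a haz).trans_le hη)
        rcases ha with ha | ha
        · rw [hid a ha]
          exact Or.inl (lt_of_lt_of_le ha hκ)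
        · exact Or.inr (Finset.mem_coe.2 (Finset.mem_image_of_mem _ ha))
  obtain ⟨r, hr, hmin⟩ := colex_wf.has_min {r | Cof (Yr (og η κ' p) pb r) κ'} ⟨r', hB⟩
  have hrr : toColex r ≤ toColex r' := not_lt.1 (hmin r' hB)
  refine ⟨r, ⟨_, pb, hHt, hPar, hr, fun r'' h1 h2 => hmin r'' h2 h1⟩, hrr, ?_⟩
  refine nr2_cof_mono hr ?_
  rintro x ⟨a, ha, hx⟩ hxκ
  have ha' := nr2_below ha (hrr.trans hr')
  refine ⟨a, ha, ?_⟩
  have h1 := hemb.hull_map (η' := δ) (B := ↑a ∪ ↑p) le_rfl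
    (fun x hx => (hlt x hx).trans_le hη) (fun b hb hbz => by
      refine Hull.base ?_ ((hlt b hbz).trans_le hη)
      rcases hb with hb | hb
      · rw [hid b ((ha' b hb).trans hγ)]
        exact Or.inl hb
      · exact Or.inr (hpim b hb)) hx
  rwa [hid x hxκ] at h1

theorem nr2_bdd {κ : Ordinal.{u}} {ι : Type (u + 1)} {T : Set ι}
    (hT : #T < Cardinal.lift.{u + 1} κ.cof) (f : ι → Ordinal.{u}) (hf : ∀ i ∈ T, f i < κ) :
    ∃ b < κ, ∀ i ∈ T, f i < b := by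
  have hs : f '' T ⊆ Iio κ := by
    rintro _ ⟨i, hi, rfl⟩
    exact hf i hi
  have hc : #(f '' T) < Cardinal.lift.{u + 1} κ.cof := mk_image_le.trans_lt hT
  rw [Ordinal.lift_cof] at hc
  refine ⟨_, sSup_add_one_lt_of_lt_cof hc hs, fun i hi => Order.add_one_le_iff.1 ?_⟩
  refine le_csSup ⟨κ, ?_⟩ ⟨f i, ⟨i, hi, rfl⟩, rfl⟩
  rintro _ ⟨z, hz, rfl⟩
  exact Order.add_one_le_iff.2 (hs hz)

theorem nr2_small {κ : Ordinal.{u}} (hκ : ℵ₀ < κ.cof) {ι : Type (u + 1)} {T : Set ι}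
    (hT : T.Countable) : #T < Cardinal.lift.{u + 1} κ.cof :=
  (le_aleph0_iff_set_countable.2 hT).trans_lt (Cardinal.aleph0_lt_lift.2 hκ)

/-- A cofinal set with small initial segments. -/
theorem nr2_K {κ : Ordinal.{u}} (hlim : ∀ ξ < κ, ξ + 1 < κ) : ∃ K : Set Ordinal.{u},
    (∀ k ∈ K, k < κ) ∧ (∀ β < κ, ∃ k ∈ K, β < k) ∧
      ∀ β < κ, #(K ∩ Iio β : Set Ordinal.{u}) < Cardinal.lift.{u + 1} κ.cof := by
  obtain ⟨f, hf⟩ := exists_isFundamentalSeq (o := κ) rfl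
  refine ⟨range fun i => (f i).1, ?_, fun β hβ => ?_, fun β hβ => ?_⟩
  · rintro _ ⟨i, rfl⟩
    exact (f i).2
  · obtain ⟨_, ⟨i, rfl⟩, hi⟩ := hf.isCofinal_range ⟨β + 1, hlim β hβ⟩
    exact ⟨_, ⟨i, rfl⟩, Order.add_one_le_iff.1 hi⟩
  · obtain ⟨_, ⟨i, rfl⟩, hi⟩ := hf.isCofinal_range ⟨β, hβ⟩
    have h1 : (range fun i => (f i).1) ∩ Iio β ⊆ (fun j => (f j).1) '' Iio i := by
      rintro _ ⟨⟨j, rfl⟩, hj⟩
      refine ⟨j, hf.strictMono.lt_iff_lt.1 ?_, rfl⟩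
      exact lt_of_lt_of_le (show f j < ⟨β, hβ⟩ from hj) hi
    have h2 : #(Iio i) ≤ #(Iio i.1) :=
      mk_le_of_injective (f := fun j : Iio i => (⟨j.1.1, j.2⟩ : Iio i.1)) fun a b hab =>
        Subtype.ext (Subtype.ext (congrArg (fun c : Iio i.1 => c.1) hab))
    refine (((mk_le_mk_of_subset h1).trans mk_image_le).trans h2).trans_lt ?_
    rw [Cardinal.mk_Iio_ordinal, Cardinal.lift_lt]
    exact lt_ord.1 i.2

/-- Small subsets of the height are bounded. -/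
theorem nr2_ht {κ δ γ : Ordinal.{u}} {p : Finset Ordinal.{u}} (hH : IsHt κ δ)
    (hδ : ∀ η < δ, η + 1 < δ) (hγ : γ < κ) (hc : Cof (hl δ γ p) κ) {T : Set Ordinal.{u}}
    (hT : #T < Cardinal.lift.{u + 1} κ.cof) (e : Ordinal.{u} → Ordinal.{u})
    (he : ∀ i ∈ T, e i < δ) : ∃ b < δ, ∀ i ∈ T, e i < b := by
  by_contra hcon
  push Not at hcon
  choose! B b1 b2 using fun i (hi : i ∈ T) => nr2_not_cof (hH.2 (e i) (he i hi) γ p hγ)
  obtain ⟨b, hb, hb'⟩ := nr2_bdd hT B b1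
  obtain ⟨x, h1, h2, h3⟩ := hc b hb
  obtain ⟨η, h4, h5⟩ := Hull.of_limit hδ h1
  obtain ⟨i, hi, h6⟩ := hcon η h4
  exact ((b2 i hi x (h5.mono h6 subset_rfl) h3).trans (hb' i hi)).not_ge h2

/-- Small sets of finite sets below the invariant are bounded. -/
theorem nr2_inv {κ δ : Ordinal.{u}} (hκ : ℵ₀ < κ.cof) {p r : Finset Ordinal.{u}}
    (hc : Cof (Yr δ p r) κ)
    (hmin : ∀ r' : Finset Ordinal.{u}, toColex r' < toColex r → ¬ Cof (Yr δ p r') κ)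
    {T : Set Ordinal.{u}} (hT : #T < Cardinal.lift.{u + 1} κ.cof)
    (a : Ordinal.{u} → Finset Ordinal.{u}) (ha : ∀ i ∈ T, toColex (a i) < toColex r) :
    ∃ r', toColex r' < toColex r ∧ ∀ i ∈ T, toColex (a i) < toColex r' := by
  have key : ∀ i ∈ T, ∃ b < κ, (∀ x ∈ Yr δ p (a i), x < κ → x < b) ∧
      ∀ x, Hull δ (↑(a i) ∪ ↑p) x → x < κ → x < b := fun i hi => by
    obtain ⟨b1, h1, h2⟩ := nr2_not_cof (hmin _ (ha i hi))
    obtain ⟨b2, h3, h4⟩ := nr2_bdd (T := {x | Hull δ (↑(a i) ∪ ↑p) x} ∩ Iio κ)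
      (nr2_small hκ ((Hull.countable δ ((a i).countable_toSet.union p.countable_toSet)).mono
        inter_subset_left)) id fun x hx => hx.2
    exact ⟨max b1 b2, max_lt h1 h3, fun x hx hxκ => (h2 x hx hxκ).trans_le (le_max_left _ _),
      fun x hx hxκ => (h4 x ⟨hx, hxκ⟩).trans_le (le_max_right _ _)⟩
  choose! B b1 b2 b3 using key
  obtain ⟨b, hb, hb'⟩ := nr2_bdd hT B b1
  obtain ⟨x, ⟨r', h1, h2⟩, h3, h4⟩ := hc b hb
  refine ⟨r', h1, fun i hi => ?_⟩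
  by_contra hcon
  rcases (not_lt.1 hcon).lt_or_eq with h5 | h5
  · exact ((b2 i hi x ⟨r', h5, h2⟩ h4).trans (hb' i hi)).not_ge h3
  · have h6 : r' = a i := toColex.injective h5
    exact ((b3 i hi x (h6 ▸ h2) h4).trans (hb' i hi)).not_ge h3

theorem nr2_fin {κ : Ordinal.{u}} (h0 : 0 < κ) (Q : Ordinal.{u} → Ordinal.{u} → Prop)
    (q : Finset Ordinal.{u}) (hq : ∀ y ∈ q, ∃ β < κ, ∀ β', β ≤ β' → β' < κ → Q β' y) :
    ∃ β < κ, ∀ β', β ≤ β' → β' < κ → ∀ y ∈ q, Q β' y := by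
  classical
  induction q using Finset.induction_on with
  | empty => exact ⟨0, h0, fun _ _ _ y hy => absurd hy (Finset.notMem_empty y)⟩
  | insert c q _ ih =>
    obtain ⟨b1, h1, h2⟩ := ih fun y hy => hq y (Finset.mem_insert_of_mem hy)
    obtain ⟨b2, h3, h4⟩ := hq c (Finset.mem_insert_self c q)
    refine ⟨max b1 b2, max_lt h1 h3, fun β' h5 h6 y hy => ?_⟩
    rcases Finset.mem_insert.1 hy with rfl | hy
    · exact h4 β' ((le_max_right _ _).trans h5) h6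
    · exact h2 β' ((le_max_left _ _).trans h5) h6 y hy

/-- Closure points of a monotone function form a club. -/
theorem nr2_club {κ c : Ordinal.{u}} (hκ : ℵ₀ < κ.cof) (hc : c < κ) (h : Ordinal.{u} → Ordinal.{u})
    (h1 : ∀ β < κ, β < h β ∧ h β < κ) (h2 : ∀ β β', β ≤ β' → β' < κ → h β ≤ h β') :
    IsClub {d : Iio κ | c < d.1 ∧ ∀ β < d.1, h β < d.1} := by
  refine ⟨fun d hd hne _ a ha => ⟨?_, fun ξ hξ => ?_⟩, fun a => ?_⟩
  · obtain ⟨x, hx⟩ := hne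
    exact (hd hx).1.trans_le (ha.1 hx)
  · obtain ⟨x, hx, hx'⟩ := (lt_isLUB_iff ha (b := ⟨ξ, hξ.trans a.2⟩)).1 hξ
    exact ((hd hx).2 ξ hx').trans_le (ha.1 hx)
  · let x : ℕ → Ordinal.{u} := fun n => h^[n] (max c a.1)
    have x1 : ∀ n, x (n + 1) = h (x n) := fun n => Function.iterate_succ_apply' h n _
    have x2 : ∀ n, x n < κ := fun n => by
      induction n with
      | zero => exact max_lt hc a.2
      | succ n ih => rw [x1]; exact (h1 _ ih).2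
    have x3 : ∀ n, x n ≤ ⨆ n, x n := fun n => Ordinal.le_iSup x n
    have x5 : ∀ n, x n < ⨆ n, x n := fun n => (h1 _ (x2 n)).1.trans_le (x1 n ▸ x3 (n + 1))
    obtain ⟨b, hb, hb'⟩ := nr2_bdd (T := range x) (nr2_small hκ (countable_range x)) id
      (range_subset_iff.2 x2)
    refine ⟨⟨⨆ n, x n, (Ordinal.iSup_le fun n => (hb' _ ⟨n, rfl⟩).le).trans_lt hb⟩,
      ⟨(le_max_left c a.1).trans_lt (x5 0), fun z hz => ?_⟩,
      ((le_max_right c a.1).trans_lt (x5 0)).le⟩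
    obtain ⟨n, hn⟩ := Ordinal.lt_iSup_iff.1 hz
    exact (h2 z _ hn.le (x2 n)).trans_lt (x1 n ▸ x5 (n + 1))

theorem fibre_nonstat {κ : Ordinal.{u}} (hκ : ℵ₀ < κ.cof) (h : Sing κ) (a : Finset Ordinal.{u}) :
    ¬ Nec.StatIn {κ' | IsInv κ' a} κ := by
  intro hS
  have hsl : Order.IsSuccLimit κ := one_lt_cof_iff.1 (one_lt_aleph0.trans hκ)
  have hlim : ∀ ξ < κ, ξ + 1 < κ := fun ξ hξ => hsl.succ_lt hξ
  obtain ⟨r, ⟨δ, p, hH, hp, hc, hmin⟩, γ, hγ, hr⟩ := exists_inv hlim h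
  obtain ⟨-, hδ⟩ := hH.limit hlim
  obtain ⟨K, k1, k2, k3⟩ := nr2_K hlim
  have hcγ : Cof (hl δ γ p) κ := nr2_cof_mono hc fun x hx _ => nr2_yr_sub hr hx
  obtain ⟨P, hP, hP'⟩ := nr2_ht hH hδ hγ hcγ (nr2_small hκ p.countable_toSet) id hp.1
  have key : ∀ ξ < κ, ∃ (A : Finset Ordinal.{u}) (e y : Ordinal.{u}), toColex A < toColex r ∧
      e < δ ∧ P ≤ e ∧ Hull e (↑A ∪ ↑p) y ∧ ξ ≤ y ∧ y < κ := fun ξ hξ => by
    obtain ⟨y, ⟨A, h1, h2⟩, h3, h4⟩ := hc ξ hξ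
    obtain ⟨e, h5, h6⟩ := Hull.of_limit hδ h2
    exact ⟨A, max e P, y, h1, max_lt h5 hP, le_max_right _ _,
      h6.mono (le_max_left _ _) subset_rfl, h3, h4⟩
  choose! A e y a1 e1 e2 y1 y2 y3 using key
  let E : Ordinal.{u} → Ordinal.{u} := fun β => sSup (e '' (K ∩ Iio β))
  have Ebdd : ∀ β, BddAbove (e '' (K ∩ Iio β)) := fun β => ⟨δ, by
    rintro _ ⟨k, hk, rfl⟩
    exact (e1 k (k1 k hk.1)).le⟩
  have Ele : ∀ β, ∀ k ∈ K, k < β → e k ≤ E β := fun β k hk hkβ =>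
    le_csSup (Ebdd β) ⟨k, ⟨hk, hkβ⟩, rfl⟩
  have Elt : ∀ β η, η < E β → ∃ k ∈ K, k < β ∧ η < e k := fun β η hη => by
    obtain ⟨_, ⟨k, hk, rfl⟩, h1⟩ := (lt_csSup_iff' (Ebdd β)).1 hη
    exact ⟨k, hk.1, hk.2, h1⟩
  have Emono : ∀ β β', β ≤ β' → E β ≤ E β' := fun β β' hβ =>
    csSup_le_csSup' (Ebdd β') (image_mono (inter_subset_inter_right _ (Iio_subset_Iio hβ)))
  have Eδ : ∀ β < κ, E β < δ := fun β hβ => by
    obtain ⟨b, h1, h2⟩ := nr2_ht hH hδ hγ hcγ (k3 β hβ) e fun k hk => e1 k (k1 k hk.1)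
    refine lt_of_le_of_lt (csSup_le' ?_) h1
    rintro _ ⟨k, hk, rfl⟩
    exact (h2 k hk).le
  have hlm : ∀ β β', β ≤ β' → hl (E β) β p ⊆ hl (E β') β' p := fun β β' hβ x hx =>
    Hull.mono hx (Emono β β' hβ) (union_subset_union_left _ (Iio_subset_Iio hβ))
  let W : Ordinal.{u} → Set Ordinal.{u} := fun β =>
    {c | (∀ x ∈ hl (E β) β p, x < κ → x < c) ∧ ∃ k ∈ K, β < k ∧ k < c}
  have W1 : ∀ β < κ, ∃ c ∈ W β, c < κ := fun β hβ => by
    obtain ⟨b, h1, h2⟩ := nr2_not_cof (hH.2 (E β) (Eδ β hβ) β p hβ)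
    obtain ⟨k, h3, h4⟩ := k2 β hβ
    exact ⟨max b (k + 1), ⟨fun x hx hxκ => (h2 x hx hxκ).trans_le (le_max_left _ _), k, h3, h4,
      (Order.lt_add_one_iff.2 le_rfl).trans_le (le_max_right _ _)⟩,
      max_lt h1 (hlim k (k1 k h3))⟩
  let g : Ordinal.{u} → Ordinal.{u} := fun β => sInf (W β)
  have g1 : ∀ β < κ, g β ∈ W β := fun β hβ => by
    obtain ⟨c, h1, -⟩ := W1 β hβ
    exact csInf_mem ⟨c, h1⟩
  have g2 : ∀ β < κ, β < g β ∧ g β < κ := fun β hβ => by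
    obtain ⟨c, h1, h2⟩ := W1 β hβ
    obtain ⟨k, -, h3, h4⟩ := (g1 β hβ).2
    exact ⟨h3.trans h4, (csInf_le' h1).trans_lt h2⟩
  have g3 : ∀ β β', β ≤ β' → β' < κ → g β ≤ g β' := fun β β' hβ hβ' => by
    obtain ⟨h1, k, h2, h3, h4⟩ := g1 β' hβ'
    exact csInf_le' ⟨fun x hx => h1 x (hlm β β' hβ hx), k, h2, hβ.trans_lt h3, h4⟩
  have hb : ∃ b < κ, toColex a < toColex r → ∀ x ∈ Yr δ p a, x < κ → x < b := by
    by_cases har : toColex a < toColex r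
    · obtain ⟨b, h1, h2⟩ := nr2_not_cof (hmin a har)
      exact ⟨b, h1, fun _ => h2⟩
    · exact ⟨γ, hγ, fun h1 => absurd h1 har⟩
  obtain ⟨b, b1, b2⟩ := hb
  obtain ⟨⟨κ', hκ'⟩, hinv, hcκ, hcl⟩ := hS (nr2_club hκ (max_lt hγ b1) g g2 g3)
  have hinv' : IsInv κ' a := hinv
  have hκκ : κ' < κ := hκ'
  have hγ' : γ < κ' := (le_max_left γ b).trans_lt hcκ
  have hb' : b < κ' := (le_max_right γ b).trans_lt hcκ
  have hcl' : ∀ β < κ', g β < κ' := hcl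
  have h0 : 0 < κ' := zero_le.trans_lt hγ'
  have F1 : ∀ β < κ', ∃ k ∈ K, β < k ∧ k < κ' := fun β hβ => by
    obtain ⟨k, h1, h2, h3⟩ := (g1 β (hβ.trans hκκ)).2
    exact ⟨k, h1, h2, h3.trans (hcl' β hβ)⟩
  have Fy : ∀ k ∈ K, ∀ β, γ ≤ β → e k ≤ E β → y k ∈ hl (E β) β p := fun k hk β h1 h2 =>
    (y1 k (k1 k hk)).mono h2 (union_subset_union_left _ fun x hx =>
      (nr2_below (a1 k (k1 k hk)) hr x hx).trans_le h1)
  have F2 : κ' ≤ E κ' := le_of_forall_lt fun β hβ => by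
    obtain ⟨k, h1, h2, h3⟩ := F1 β hβ
    exact (h2.trans_le (y2 k (k1 k h1))).trans ((y1 k (k1 k h1)).lt.trans_le (Ele κ' k h1 h3))
  have F3 : ∀ x ∈ p, x < E κ' := fun x hx => by
    obtain ⟨k, h1, -, h3⟩ := F1 0 h0
    exact (hP' x hx).trans_le ((e2 k (k1 k h1)).trans (Ele κ' k h1 h3))
  have F4 : ∀ η < E κ', ∃ β < κ', η < E β := fun η hη => by
    obtain ⟨k, h1, h2, h3⟩ := Elt κ' η hη
    obtain ⟨k', -, h4, h5⟩ := F1 k h2
    exact ⟨k', h5, h3.trans_le (Ele k' k h1 h4)⟩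
  have F5 : ∀ β < κ', γ ≤ β → E β < E κ' := fun β hβ hγβ => by
    obtain ⟨k, h1, h2, h3⟩ := F1 (g β) (hcl' β hβ)
    refine lt_of_lt_of_le (not_le.1 fun h4 => ?_) (Ele κ' k h1 h3)
    exact (((g1 β (hβ.trans hκκ)).1 _ (Fy k h1 β hγβ h4) (y3 k (k1 k h1))).trans h2).not_ge
      (y2 k (k1 k h1))
  have F6 : ∀ η < E κ', η + 1 < E κ' := fun η hη => by
    obtain ⟨β, h1, h2⟩ := F4 η hη
    exact (Order.add_one_le_iff.2 (h2.trans_le (Emono β _ (le_max_left β γ)))).trans_lt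
      (F5 _ (max_lt h1 hγ') (le_max_right β γ))
  have F7 : ∀ x ∈ hl (E κ') κ' p, ∃ β < κ', ∀ β', β ≤ β' → β' < κ' → x ∈ hl (E β') β' p := by
    intro x hx
    obtain ⟨η, h1, h2⟩ := Hull.of_limit F6 hx
    obtain ⟨s, h3, h4⟩ := h2.finite_union
    obtain ⟨β1, h5, h6⟩ := nr2_fin h0 (fun β z => z < β) s fun z hz => by
      obtain ⟨k, -, h7, h8⟩ := F1 z (h3 hz)
      exact ⟨k, h8, fun β' h9 _ => h7.trans_le h9⟩
    obtain ⟨β2, h7, h8⟩ := F4 η h1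
    refine ⟨max β1 β2, max_lt h5 h7, fun β' h9 h10 => ?_⟩
    exact h4.mono (h8.le.trans (Emono _ _ ((le_max_right _ _).trans h9)))
      (union_subset_union_left _ fun z hz => h6 β' ((le_max_left _ _).trans h9) h10 z hz)
  obtain ⟨r', r1, r2⟩ := nr2_inv hκ hc hmin (k3 κ' hκκ) A fun k hk => a1 k (k1 k hk.1)
  obtain ⟨r0, s1, s2, s3⟩ := inv_below (γ := γ) (r' := r') hp hκκ.le (Eδ κ' hκκ).le F2 F3 hγ'
    (r1.le.trans hr) (fun η₀ hη₀ γ₀ hγ₀ q hq hcof => by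
      obtain ⟨β1, h1, h2⟩ := nr2_fin h0 (fun β z => z ∈ hl (E β) β p) q fun z hz => F7 z (hq hz)
      obtain ⟨β2, h3, h4⟩ := F4 η₀ hη₀
      have h5 : max (max β1 β2) γ₀ < κ' := max_lt (max_lt h1 h3) hγ₀
      have h6 : η₀ ≤ E (max (max β1 β2) γ₀) :=
        h4.le.trans (Emono _ _ ((le_max_right _ _).trans (le_max_left _ _)))
      obtain ⟨x, h7, h8, h9⟩ := hcof _ (hcl' _ h5)
      refine ((g1 _ (h5.trans hκκ)).1 x (Hull.trans h7 h6 fun z hz hzη => ?_)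
        (h9.trans hκκ)).not_ge h8
      rcases hz with hz | hz
      · exact Hull.base (Or.inl (Iio_subset_Iio (le_max_right _ _) hz)) (hzη.trans_le h6)
      · exact h2 _ ((le_max_left _ _).trans (le_max_left _ _)) h5 z hz)
    (fun β hβ => by
      obtain ⟨k, h1, h2, h3⟩ := F1 β hβ
      obtain ⟨k', -, h4, h5⟩ := F1 k h3
      have h6 : max k' γ < κ' := max_lt h5 hγ'
      refine ⟨y k, ⟨A k, r2 k ⟨h1, h3⟩, (y1 k (k1 k h1)).mono (Ele κ' k h1 h3) subset_rfl⟩,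
        h2.le.trans (y2 k (k1 k h1)), ?_⟩
      exact ((g1 _ (h6.trans hκκ)).1 _ (Fy k h1 _ (le_max_right _ _)
        (Ele _ k h1 (h4.trans_le (le_max_left _ _)))) (y3 k (k1 k h1))).trans (hcl' _ h6))
  have har : a = r0 := hinv'.unique s1
  subst har
  obtain ⟨x, h1, h2, h3⟩ := s3 b hb'
  exact (b2 (s2.trans_lt r1) x h1 (h3.trans hκκ)).not_ge h2

end Pool.Agent.Lib.MP_0fa4a2_gt.Lc
end

-- part Pool.Agent.Lib.MP_0fa4a2_gt.LcNR3
section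

/-!
Failure of stationary reflection.
-/

namespace Pool.Agent.Lib.MP_0fa4a2_gt.Lc

open Set Cardinal Ordinal

universe u

theorem nr3_omega_lt {y : Ordinal.{u}} (hy : Nec.Rg y) : ω < y :=
  omega0_lt_omega_one.trans_le hy.2

theorem nr3_bound {y ξ : Ordinal.{u}} (hy : Nec.Rg y) (hξ : ξ < y)
    (f : Finset Ordinal.{u} → Ordinal.{u}) (hf : ∀ a, f a < y) :
    ∃ b < y, ∀ a : Finset Ordinal.{u}, (∀ x ∈ a, x ≤ ξ) → f a < b := by
  classical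
  have h1 : max (ξ + 1) ω < y := max_lt (hy.fod_succ hξ) (nr3_omega_lt hy)
  have h2 : Infinite (Iio (max (ξ + 1) ω)) := by
    rw [Cardinal.infinite_iff, Cardinal.mk_Iio_ordinal, Cardinal.aleph0_le_lift,
      Ordinal.aleph0_le_card]
    exact le_max_right _ _
  obtain ⟨b, hb, h⟩ := hy.bdd (s := range fun c : Finset (Iio (max (ξ + 1) ω)) =>
      f (c.map (Function.Embedding.subtype _))) (range_subset_iff.2 fun c => hf _)
    (mk_range_le.trans_lt (by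
      rw [mk_finset_of_infinite, Cardinal.mk_Iio_ordinal, Cardinal.lift_lt]
      exact hy.card_lt h1))
  refine ⟨b, hb, fun a ha => h _ ⟨a.subtype _, ?_⟩⟩
  dsimp only
  rw [Finset.subtype_map_of_mem]
  intro x hx
  exact (Order.lt_add_one_iff.2 (ha x hx)).trans_le (le_max_left _ _)

theorem fodor_finset {y : Ordinal.{u}} (hy : Nec.Rg y) {S : Set Ordinal.{u}} (hS : Nec.St S y)
    (g : Ordinal.{u} → Finset Ordinal.{u}) (hg : ∀ δ ∈ S, ∃ γ < δ, ∀ x ∈ g δ, x ≤ γ) :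
    ∃ a, Nec.St {δ ∈ S | g δ = a} y := by
  by_contra hcon
  choose h h1 h2 using fun a : Finset Ordinal.{u} => Nec.fod_not (S := {δ ∈ S | g δ = a})
    fun h => hcon ⟨a, h⟩
  choose K k1 k2 using fun a : Finset Ordinal.{u} => hy.fod_bound (h a) (h1 a)
  choose! H b1 b2 using fun ξ (hξ : ξ < y) => nr3_bound hy hξ (fun a => K a ξ)
    fun a => k1 a ξ hξ
  obtain ⟨δ, d1, d2, d3⟩ := hS H b1
  obtain ⟨γ, d4, d4'⟩ := hg δ d1
  obtain ⟨ξ, d5, d6⟩ := h2 (g δ) δ ⟨d1, rfl⟩ d2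
  have d7 : max γ ξ < δ := max_lt d4 d5
  exact (((k2 _ _ (d7.trans d2) ξ (le_max_right _ _)).trans
    (b2 _ (d7.trans d2) _ fun x hx => (d4' x hx).trans (le_max_left _ _))).trans
      (d3 _ d7)).not_ge d6

theorem statIn_of_st {y : Ordinal.{u}} {S : Set Ordinal.{u}} (hy : ∀ ξ < y, ξ + 1 < y)
    (hS : Nec.St S y) (h0 : ∀ δ ∈ S, 0 < δ) : Nec.StatIn S y := by
  intro t ht
  have e : ∀ ξ < y, ∃ c, ξ < c ∧ ∃ hc : c < y, (⟨c, hc⟩ : Iio y) ∈ t := by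
    intro ξ hξ
    obtain ⟨c, hc, hc'⟩ := ht.isCofinal ⟨ξ + 1, hy ξ hξ⟩
    exact ⟨c.1, Order.add_one_le_iff.1 hc', c.2, hc⟩
  choose! h h1 h2 h3 using e
  obtain ⟨δ, d1, d2, d3⟩ := hS h h2
  refine ⟨⟨δ, d2⟩, d1, ?_⟩
  have p0 := h0 δ d1
  refine ht.isLUB_mem (t := {c ∈ t | c.1 < δ}) (fun c hc => hc.1)
    ⟨_, h3 0 (p0.trans d2), d3 0 p0⟩ ⟨fun c hc => hc.2.le, fun b hb => ?_⟩
  by_contra hlt
  have a1 : b.1 < δ := not_le.1 hlt
  have a2 : h b.1 ≤ b.1 := hb ⟨h3 b.1 b.2, d3 _ a1⟩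
  exact (h1 b.1 b.2).not_ge a2

theorem nr3_cof {δ : Ordinal.{u}} (h : Nec.Cw δ) : δ.cof = ℵ₀ := by
  obtain ⟨h0, h1, C, c1, c2, c3⟩ := h
  apply le_antisymm
  · have a1 : IsCofinal ((↑) ⁻¹' C : Set (Iio δ)) := by
      intro x
      obtain ⟨c, hc, hc'⟩ := c3 x.1 x.2
      exact ⟨⟨c, c2 hc⟩, hc, hc'⟩
    have a2 := (Order.cof_le a1).trans
      (le_aleph0_iff_set_countable.2 (c1.preimage Subtype.val_injective))
    rw [Ordinal.cof_Iio, ← Ordinal.lift_cof] at a2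
    exact Cardinal.lift_le_aleph0.1 a2
  · rw [Ordinal.aleph0_le_cof_iff, Ordinal.one_lt_cof_iff]
    exact ⟨not_isMin_of_lt h0, Order.isSuccPrelimit_of_succ_lt h1⟩

theorem nr3_h0 {y : Ordinal.{u}} (hy : Nec.Rg y) (h : ¬ MahloM y) :
    ∃ f : Ordinal.{u} → Ordinal.{u}, (∀ ξ < y, f ξ < y) ∧
      ∀ d < y, 0 < d → (∀ ξ < d, f ξ < d) → ¬ Reg d := by
  by_cases h1 : ∀ β < y, ∃ κ' < y, β < κ' ∧ Reg κ'
  · have h2 : ¬ ∀ z, ClubO (cs z) y → ∃ κ' ∈ cs z, κ' < y ∧ Reg κ' :=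
      fun h2 => h ⟨reg_of_rg hy, h1, h2⟩
    push Not at h2
    obtain ⟨z, ⟨c1, c2⟩, hz⟩ := h2
    choose! f f1 f2 f3 using c1
    refine ⟨f, f3, fun d hd h0 hf => hz d (c2 d hd h0 fun β hβ => ?_) hd⟩
    exact ⟨f β, f1 β (hβ.trans hd), f2 β (hβ.trans hd), hf β hβ⟩
  · push Not at h1
    obtain ⟨β, hβ, h2⟩ := h1
    exact ⟨fun _ => β, fun _ _ => hβ, fun d hd h0 hf => h2 d hd (hf 0 h0)⟩

theorem nr3_unb {k : Ordinal.{u}} {S : Set Ordinal.{u}} (hk : ℵ₀ < k.cof) (hS : Nec.StatIn S k)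
    {β : Ordinal.{u}} (hβ : β < k) : ∃ d ∈ S, β < d ∧ d < k := by
  have h1 : Order.IsSuccLimit k := Ordinal.one_lt_cof_iff.1 (one_lt_aleph0.trans hk)
  obtain ⟨d, d1, d2⟩ := hS (t := Ici (⟨β + 1, h1.succ_lt hβ⟩ : Iio k))
    ⟨(isUpperSet_Ici _).dirSupClosed, fun x => ⟨max x ⟨β + 1, h1.succ_lt hβ⟩,
      mem_Ici.2 (le_max_right _ _), le_max_left _ _⟩⟩
  exact ⟨d.1, d1, Order.add_one_le_iff.1 d2, d.2⟩

theorem not_reflects {y : Ordinal.{u}} (hy : Nec.Rg y) (h : ¬ MahloM y) :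
    ¬ Nec.Reflects y.card := by
  intro hR
  obtain ⟨f, f1, f2⟩ := nr3_h0 hy h
  have hF := fix_of_rg hy
  have sing : ∀ d < y, ω < d → (∀ ξ < d, f ξ < d) → Fix d → Sing d := by
    intro d hd h1 h2 h3
    by_contra h4
    exact f2 d hd (omega0_pos.trans h1) h2 ⟨h3, h1, h4⟩
  set S0 : Set Ordinal.{u} := {d | Nec.Cw d ∧ d < y ∧ ω < d ∧ (∀ ξ < d, f ξ < d) ∧ Fix d}
    with hS0
  have s0 : Nec.St S0 y := by
    intro g hg
    obtain ⟨d, d1, d2, d3, d4⟩ := hy.exists_cw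
      (fun ξ => max (max (g ξ) (f ξ)) (max (onm ξ) (nxt ξ)))
      (fun ξ hξ => max_lt (max_lt (hg ξ hξ) (f1 ξ hξ)) (max_lt (hF ξ hξ).1 (hF ξ hξ).2))
      (nr3_omega_lt hy)
    simp only [max_lt_iff] at d4
    exact ⟨d, ⟨d3, d1, d2, fun ξ hξ => (d4 ξ hξ).1.2, fun ξ hξ => (d4 ξ hξ).2⟩, d1,
      fun ξ hξ => (d4 ξ hξ).1.1⟩
  have e : ∀ d ∈ S0, ∃ r : Finset Ordinal.{u}, IsInv d r ∧ ∃ γ < d, ∀ x ∈ r, x ≤ γ := by
    rintro d ⟨d1, d2, d3, d4, d5⟩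
    obtain ⟨r, r1, γ, r2, r3⟩ := exists_inv d1.2.1 (sing d d2 d3 d4 d5)
    exact ⟨r, r1, γ, r2, Finset.Colex.forall_le_mono r3 fun b hb =>
      (Finset.mem_singleton.1 hb).le⟩
  choose! g g1 g2 using e
  obtain ⟨a, ha⟩ := fodor_finset hy s0 g g2
  have st := statIn_of_st (fun ξ hξ => hy.fod_succ hξ) ha fun d hd => hd.1.1.1
  obtain ⟨k, k1, k2, k3⟩ := hR {δ ∈ S0 | g δ = a} (fun d hd => nr3_cof hd.1.1)
    (by rw [hy.isRegular.2]; exact st)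
  rw [hy.isRegular.2] at k1
  have k0 : 0 < k := (Ordinal.one_lt_cof_iff.1 (one_lt_aleph0.trans k2)).bot_lt
  have ks : Sing k := by
    refine sing k k1 ?_ (fun ξ hξ => ?_) fun ξ hξ => ?_
    · obtain ⟨d, d1, -, d3⟩ := nr3_unb k2 k3 k0
      exact d1.1.2.2.1.trans d3
    · obtain ⟨d, d1, d2, d3⟩ := nr3_unb k2 k3 hξ
      exact (d1.1.2.2.2.1 ξ d2).trans d3
    · obtain ⟨d, d1, d2, d3⟩ := nr3_unb k2 k3 hξ
      exact ⟨(d1.1.2.2.2.2 ξ d2).1.trans d3, (d1.1.2.2.2.2 ξ d2).2.trans d3⟩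
  refine fibre_nonstat k2 ks a (IsStationary.mono k3 fun d hd => ?_)
  have := g1 d.1 hd.1
  rw [hd.2] at this
  exact this

end Pool.Agent.Lib.MP_0fa4a2_gt.Lc
end

-- part Pool.Agent.Lib.MP_0fa4a2_gt.LcMahlo
section

/-!
Mahlo points are Mahlo cardinals of the inner model.
-/

namespace Pool.Agent.Lib.MP_0fa4a2_gt.Lc

open Set Cardinal Ordinal
open Pool.Agent.Lib.MP_2739cb_lc

universe u

/-- An ordinal as an element of the inner model. -/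
noncomputable def ow (o : Ordinal.{u}) : WW.{u} := ⟨o.toZFSet, ord_mem_WW o⟩

theorem ew_ow {a : WW.{u}} {o : Ordinal.{u}} : EW a (ow o) ↔ ∃ ξ < o, ow ξ = a := by
  exact Ordinal.mem_toZFSet_iff.trans
    (exists_congr fun ξ => and_congr_right fun _ => ⟨fun h => Subtype.ext h, congrArg Subtype.val⟩)

theorem ow_ew_ow {ξ o : Ordinal.{u}} : EW (ow ξ) (ow o) ↔ ξ < o := by
  exact Ordinal.toZFSet_mem_toZFSet_iff

theorem mah_upair {z a b : WW.{u}} :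
    (∀ t, EW t z ↔ t = a ∨ t = b) ↔ z.1 = {a.1, b.1} := by
  constructor
  · intro h
    ext x
    rw [ZFSet.mem_pair]
    constructor
    · intro hx
      rcases (h ⟨x, WW_trans z.2 hx⟩).1 hx with e | e
      · exact Or.inl (congrArg Subtype.val e)
      · exact Or.inr (congrArg Subtype.val e)
    · rintro (rfl | rfl)
      · exact (h a).2 (Or.inl rfl)
      · exact (h b).2 (Or.inr rfl)
  · intro h t
    unfold EW
    rw [h, ZFSet.mem_pair, Subtype.ext_iff, Subtype.ext_iff]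

theorem mah_sing {z a : WW.{u}} : (∀ t, EW t z ↔ t = a) ↔ z.1 = {a.1} := by
  rw [← ZFSet.pair_eq_singleton, ← mah_upair]
  simp only [or_self]

theorem mah_upair_mem (a b : WW.{u}) : ({a.1, b.1} : ZFSet.{u}) ∈ WW.{u} := by
  obtain ⟨w, hw⟩ := W_pair a b
  rw [← mah_upair.1 hw]
  exact w.2

theorem mah_isPair {p a b : WW.{u}} : IsPair EW p a b ↔ p.1 = ZFSet.pair a.1 b.1 := by
  unfold IsPair
  simp only [mah_sing, mah_upair]
  constructor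
  · intro h
    ext x
    unfold ZFSet.pair
    rw [ZFSet.mem_pair]
    constructor
    · intro hx
      exact (h ⟨x, WW_trans p.2 hx⟩).1 hx
    · rintro (rfl | rfl)
      · have h1 := mah_upair_mem a a
        rw [ZFSet.pair_eq_singleton] at h1
        exact (h ⟨_, h1⟩).2 (Or.inl rfl)
      · exact (h ⟨_, mah_upair_mem a b⟩).2 (Or.inr rfl)
  · intro h z
    unfold EW
    rw [h]
    unfold ZFSet.pair
    exact ZFSet.mem_pair

theorem mah_pair_mem {f a b : ZFSet.{u}} (hf : f ∈ WW) (h : ZFSet.pair a b ∈ f) :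
    a ∈ WW ∧ b ∈ WW := by
  have h1 : ({a, b} : ZFSet.{u}) ∈ WW.{u} :=
    WW_trans (WW_trans hf h) (ZFSet.mem_pair.2 (Or.inr rfl))
  exact ⟨WW_trans h1 (ZFSet.mem_pair.2 (Or.inl rfl)), WW_trans h1 (ZFSet.mem_pair.2 (Or.inr rfl))⟩

theorem app_iff {f a b : WW.{u}} : App EW f a b ↔ ZFSet.pair a.1 b.1 ∈ f.1 := by
  constructor
  · rintro ⟨p, h1, h2⟩
    rw [← mah_isPair.1 h2]
    exact h1
  · intro h
    exact ⟨⟨_, WW_trans f.2 h⟩, h, mah_isPair.2 rfl⟩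

theorem mah_fun_mem {f A B a b : WW.{u}} (hf : IsFun EW f A B) (h : App EW f a b) :
    EW a A ∧ EW b B := by
  obtain ⟨p, h1, h2⟩ := h
  obtain ⟨a', b', ha, hb, h3⟩ := hf.1 p h1
  obtain ⟨e1, e2⟩ := ZFSet.pair_inj.1 ((mah_isPair.1 h2).symm.trans (mah_isPair.1 h3))
  rw [Subtype.ext e1, Subtype.ext e2]
  exact ⟨ha, hb⟩

theorem isOrd_ow (o : Ordinal.{u}) : IsOrd EW (ow o) := by
  constructor
  · intro x hx z hz
    obtain ⟨ξ, hξ, rfl⟩ := ew_ow.1 hx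
    obtain ⟨η, hη, rfl⟩ := ew_ow.1 hz
    exact ow_ew_ow.2 (hη.trans hξ)
  · intro x y hx hy
    obtain ⟨ξ, -, rfl⟩ := ew_ow.1 hx
    obtain ⟨η, -, rfl⟩ := ew_ow.1 hy
    rcases lt_trichotomy ξ η with h | h | h
    · exact Or.inl (ow_ew_ow.2 h)
    · exact Or.inr (Or.inl (congrArg ow h))
    · exact Or.inr (Or.inr (ow_ew_ow.2 h))

theorem isOmega_ow : MP_783f50_lc.IsOmega EW (ow (ω : Ordinal.{u})) := by
  refine ⟨⟨isOrd_ow _, ⟨ow 0, ow_ew_ow.2 omega0_pos⟩, fun b hb => ?_⟩, fun a ha h => ?_⟩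
  · obtain ⟨ξ, hξ, rfl⟩ := ew_ow.1 hb
    exact ⟨ow (ξ + 1), ow_ew_ow.2 (isSuccLimit_omega0.add_one_lt hξ), ow_ew_ow.2 (lt_add_one ξ)⟩
  · obtain ⟨ξ, hξ, rfl⟩ := ew_ow.1 ha
    obtain ⟨n, rfl⟩ := Ordinal.lt_omega0.1 hξ
    obtain ⟨-, ⟨b, hb⟩, h3⟩ := h
    cases n with
    | zero =>
      obtain ⟨η, hη, -⟩ := ew_ow.1 hb
      simp at hη
    | succ m =>
      rw [Nat.cast_add_one] at h3
      obtain ⟨c, h4, h5⟩ := h3 (ow m) (ow_ew_ow.2 (lt_add_one _))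
      obtain ⟨η, hη, rfl⟩ := ew_ow.1 h4
      exact absurd (ow_ew_ow.1 h5) (not_lt.2 (Order.lt_add_one_iff.1 hη))

/-- A relation in the inner model whose fibres over names below `γ` cover a cofinal set of
ordinals, each fibre being a single ordinal, makes `κ` a singular point. -/
theorem sing_of_rel {κ γ : Ordinal.{u}} (hκ : Fix κ) (hγ : γ < κ) (f : ZFSet.{u}) (hf : f ∈ WW)
    (b : Bool) (h : ∀ β < κ, ∃ ξ, β ≤ ξ ∧ ξ < κ ∧ ∃ z < γ, ∀ c : ZFSet.{u},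
      (if b then ZFSet.pair (val z) c else ZFSet.pair c (val z)) ∈ f ↔ c = ξ.toZFSet) :
    Sing κ := by
  obtain ⟨y, rfl⟩ := hf
  obtain ⟨l, hl⟩ : ∃ l, l = nxt (max y κ) := ⟨_, rfl⟩
  have hlev : IsLev l := hl ▸ isLev_nxt _
  have hy : y < l := hl ▸ (le_max_left y κ).trans_lt (lt_nxt _)
  have hk : κ < l := hl ▸ (le_max_right y κ).trans_lt (lt_nxt _)
  have hδ : l < nxt l := lt_nxt l
  refine ⟨nxt l, γ, {y, l}, hγ, fun β hβ => ?_⟩
  obtain ⟨ξ, h1, h2, z, hz, h3⟩ := h β hβ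
  refine ⟨onm ξ, ?_, h1.trans (le_onm ξ), (hκ ξ h2).1⟩
  have hzl : z < l := hz.trans (hγ.trans hk)
  have h0 : FinEnv l (fun _ => 0) := ⟨by simp, fun _ hi => absurd rfl hi⟩
  have hP : Dfn fun (_ : Ordinal.{u}) v => (if b then ZFSet.pair (val (v 1)) (val (v 0))
      else ZFSet.pair (val (v 0)) (val (v 1))) ∈ val (v 2) := by
    cases b
    · exact Dfn.app 2 0 1
    · exact Dfn.app 2 1 0
  refine Hull.least hP hlev le_rfl (Hull.base (Or.inr (by simp)) hδ)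
    ((h0.push hy).push hzl) (fun i => ?_) ((hκ ξ h2).1.trans hk) ((h3 _).2 (val_onm ξ))
    fun z' hz' hp => absurd (onm_le ((h3 _).1 hp)) (not_le.2 hz')
  match i with
  | 0 => exact Hull.base (Or.inl hz) (hzl.trans hδ)
  | 1 => exact Hull.base (Or.inr (by simp [push])) (hy.trans hδ)
  | _ + 2 => exact Hull.zero (zero_le.trans_lt hδ)

theorem Reg.mah_not_sing {κ : Ordinal.{u}} (h : Reg κ) : ¬ IsSingular EW (ow κ) := by
  rintro ⟨α, f, hα, hf, hc⟩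
  obtain ⟨γ, hγ, rfl⟩ := ew_ow.1 hα
  refine h.2.2 (sing_of_rel h.1 (h.1 γ hγ).1 f.1 f.2 true fun β hβ => ?_)
  obtain ⟨a, b, hab, hb⟩ := hc (ow β) (ow_ew_ow.2 hβ)
  obtain ⟨h1, h2⟩ := mah_fun_mem hf hab
  obtain ⟨η, hη, rfl⟩ := ew_ow.1 h1
  obtain ⟨ξ, hξ, rfl⟩ := ew_ow.1 h2
  refine ⟨ξ, ?_, hξ, onm η, onm_strictMono hη, fun c => ?_⟩
  · rcases hb with hb | hb
    · exact (ow_ew_ow.1 hb).le
    · exact (Ordinal.toZFSet_injective (congrArg Subtype.val hb)).le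
  · rw [if_pos rfl, val_onm]
    constructor
    · intro hp
      have h3 : App EW f (ow η) ⟨c, (mah_pair_mem f.2 hp).2⟩ := app_iff.2 hp
      exact congrArg Subtype.val ((hf.2 _ h1).unique h3 hab)
    · rintro rfl
      exact app_iff.1 hab

theorem Reg.isRegularCard {κ : Ordinal.{u}} (h : Reg κ) : IsRegularCard EW (ow κ) := by
  refine ⟨⟨⟨isOrd_ow κ, fun α hα he => h.mah_not_sing ?_⟩,
    ⟨ow ω, ow_ew_ow.2 h.2.1⟩, fun α hα => ?_⟩, h.mah_not_sing⟩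
  · obtain ⟨f, hf, hs⟩ := he
    refine ⟨α, f, hα, hf.1, fun β hβ => ?_⟩
    obtain ⟨a, ha⟩ := hs β hβ
    exact ⟨a, β, ha, Or.inr rfl⟩
  · obtain ⟨ξ, hξ, rfl⟩ := ew_ow.1 hα
    exact ⟨ow (ξ + 1), ow_ew_ow.2 (h.1.succ_lt hξ), ow_ew_ow.2 (lt_add_one ξ)⟩

theorem mah_emb_eq {f : Ordinal.{u} → Ordinal.{u}} {ζ l x y : Ordinal.{u}} (h : Emb f ζ)
    (hl : IsLev l) (hζ : l < ζ) (hx : x < l) (hy : y < l) (e : val (f x) = val (f y)) :
    val x = val y := by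
  ext t
  constructor
  · intro ht
    obtain ⟨z, hz, rfl⟩ := exists_name_lt ht
    exact (h.mem_iff hl hζ (hz.trans hx) hy).2 (e ▸ (h.mem_iff hl hζ (hz.trans hx) hx).1 ht)
  · intro ht
    obtain ⟨z, hz, rfl⟩ := exists_name_lt ht
    exact (h.mem_iff hl hζ (hz.trans hy) hx).2 (e ▸ (h.mem_iff hl hζ (hz.trans hy) hy).1 ht)

/-- Subsets of a smaller ordinal have names below a regular point. -/
theorem Reg.exists_name {κ γ : Ordinal.{u}} (h : Reg κ) (hγ : γ < κ) {a : ZFSet.{u}} (ha : a ∈ WW)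
    (hs : a ⊆ γ.toZFSet) : ∃ z < κ, val z = a := by
  obtain ⟨y, rfl⟩ := ha
  obtain ⟨l, hl⟩ : ∃ l, l = nxt (max y κ) := ⟨_, rfl⟩
  have hlev : IsLev l := hl ▸ isLev_nxt _
  have hy : y < l := hl ▸ (le_max_left y κ).trans_lt (lt_nxt _)
  have hk : κ < l := hl ▸ (le_max_right y κ).trans_lt (lt_nxt _)
  have hδ : l < l + 1 := lt_add_one l
  have hg : onm γ < κ := (h.1 γ hγ).1
  have hgδ : onm γ ≤ l + 1 := (hg.trans (hk.trans hδ)).le
  have hq : ∀ x ∈ ({y, l} : Finset Ordinal.{u}), x < l + 1 := by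
    intro x hx
    rcases Finset.mem_insert.1 hx with rfl | hx
    · exact hy.trans hδ
    · rw [Finset.mem_singleton.1 hx]
      exact hδ
  obtain ⟨p, hp1, hp2⟩ := exists_pre (γ := onm γ) hq
  have hpre : ∀ x ∈ ({y, l} : Finset Ordinal.{u}), ∃ x' ∈ p, sg (l + 1) (onm γ) {y, l} x' = x := by
    intro x hx
    rw [← hp2] at hx
    exact Finset.mem_image.1 hx
  have hζ : og (l + 1) (onm γ) {y, l} < κ := by
    by_contra hn
    have h1 := og_sound hgδ hp1 fun x hx _ => hpre x hx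
    exact h.2.2 ⟨_, _, p, hg, fun β hβ => ⟨β, h1 β (hβ.trans_le (not_lt.1 hn)), le_rfl, hβ⟩⟩
  have hE := emb_sg (l + 1) (onm γ) {y, l}
  have hid : ∀ x < onm γ, sg (l + 1) (onm γ) {y, l} x = x := fun x hx => sg_id hgδ hx
  have hle : onm γ ≤ og (l + 1) (onm γ) {y, l} := le_og hgδ
  obtain ⟨yb, hyb, ey⟩ := hpre y (by simp)
  obtain ⟨lb, hlb, el⟩ := hpre l (by simp)
  have hyb' := hp1 yb hyb
  have hlb' := hp1 lb hlb
  generalize sg (l + 1) (onm γ) {y, l} = s at *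
  generalize og (l + 1) (onm γ) {y, l} = ζ at *
  have h1 : yb < lb := (hE.lt_iff hyb' hlb').1 (by rw [ey, el]; exact hy)
  have h2 : IsLev lb := (hE.isLev_iff hlb').1 (by rw [el]; exact hlev)
  have h3 : ∀ η < γ, onm η < lb ∧ s (onm η) = onm η := fun η hη => by
    have a1 : onm η < onm γ := onm_strictMono hη
    refine ⟨(hE.lt_iff (a1.trans_le hle) hlb').1 ?_, hid _ a1⟩
    rw [hid _ a1, el]
    exact a1.trans (hg.trans hk)
  have h4 : ∀ η < γ, (η.toZFSet ∈ val yb ↔ η.toZFSet ∈ val y) := fun η hη => by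
    have := hE.mem_iff h2 hlb' (h3 η hη).1 h1
    rwa [(h3 η hη).2, ey, val_onm] at this
  refine ⟨yb, hyb'.trans hζ, ?_⟩
  ext c
  constructor
  · intro hc
    obtain ⟨x, hx, rfl⟩ := exists_name_lt hc
    have h5 := (hE.mem_iff h2 hlb' (hx.trans h1) h1).1 hc
    rw [ey] at h5
    obtain ⟨η, hη, e⟩ := Ordinal.mem_toZFSet_iff.1 (hs h5)
    have h6 : val x = val (onm η) := mah_emb_eq hE h2 hlb' (hx.trans h1) (h3 η hη).1 (by
      rw [(h3 η hη).2, val_onm, e])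
    rw [h6, val_onm, e]
    exact h5
  · intro hc
    obtain ⟨η, hη, rfl⟩ := Ordinal.mem_toZFSet_iff.1 (hs hc)
    exact (h4 η hη).2 hc

theorem MahloM.isMahlo {κ : Ordinal.{u}} (h : MahloM κ) : IsMahlo EW (ow κ) := by
  refine ⟨h.1.isRegularCard, ⟨ow ω, isOmega_ow, ow_ew_ow.2 h.1.2.1⟩, ?_, ?_⟩
  · rintro μ P hμ hP ⟨f, hf, hinj⟩
    obtain ⟨m, hm, rfl⟩ := ew_ow.1 hμ
    obtain ⟨κ', h1, h2, h3⟩ := h.2.1 m hm
    refine h.1.2.2 (sing_of_rel h.1.1 h1 f.1 f.2 false fun β hβ => ?_)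
    obtain ⟨b, hb, -⟩ := hf.2 (ow β) (ow_ew_ow.2 hβ)
    have h4 := (hP b).1 (mah_fun_mem hf hb).2
    obtain ⟨z, hz, e⟩ := h3.exists_name h2 b.2 fun x hx => h4 ⟨x, WW_trans b.2 hx⟩ hx
    refine ⟨β, le_rfl, hβ, z, hz, fun c => ?_⟩
    rw [if_neg (by simp), e]
    constructor
    · intro hp
      have h5 : App EW f ⟨c, (mah_pair_mem f.2 hp).1⟩ b := app_iff.2 hp
      exact congrArg Subtype.val (hinj _ _ _ h5 hb)
    · rintro rfl
      exact app_iff.1 hb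
  · rintro C ⟨h1, h2, h3⟩
    obtain ⟨y, rfl⟩ := vw_surj C
    suffices hc : ClubO (cs y) κ by
      obtain ⟨κ', h4, -, h5⟩ := h.2.2 y hc
      exact ⟨ow κ', h4, h5.isRegularCard⟩
    refine ⟨fun β hβ => ?_, fun η hη h0 hc => ?_⟩
    · obtain ⟨c, hc, hb⟩ := h2 (ow β) (ow_ew_ow.2 hβ)
      obtain ⟨ξ, hξ, rfl⟩ := ew_ow.1 (h1 c hc)
      exact ⟨ξ, hc, ow_ew_ow.1 hb, hξ⟩
    · refine h3 (ow η) (ow_ew_ow.2 hη) ⟨ow 0, ow_ew_ow.2 h0⟩ fun a ha => ?_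
      obtain ⟨β, hβ, rfl⟩ := ew_ow.1 ha
      obtain ⟨ξ, h6, h7, h8⟩ := hc β hβ
      exact ⟨ow ξ, h6, ow_ew_ow.2 h7, ow_ew_ow.2 h8⟩

end Pool.Agent.Lib.MP_0fa4a2_gt.Lc
end
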