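import Pool.Agent.Lib.MP_0fa4a2_gt.NecData

import Pool.Agent.Lib.MP_0fa4a2_gt.LcMahlo
import Pool.Agent.Lib.MP_0fa4a2_gt.LcBeth
import Pool.Agent.Lib.MP_0fa4a2_gt.LcRefl


/-!
The lower bound as a library theorem.
-/

namespace Pool.Agent.Lib.MP_0fa4a2_gt.Lc

open Cardinal Ordinal TopologicalSpace

universe u

theorem exists_mahloM
    (h : ∀ (X : Type u) [TopologicalSpace X], T1Space X → PerfectlyNormalSpace X →
      (∃ B : Set (Set X), IsTopologicalBasis B ∧ ∀ p, IsChain (· ⊆ ·) {b ∈ B | p ∈ b}) →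
      (∃ B : Set (Set X), IsTopologicalBasis B ∧ ∀ p, {b ∈ B | p ∈ b}.Countable) →
      MetrizableSpace X) : ∃ κ : Ordinal.{u}, MahloM κ := by
  by_contra hno
  obtain ⟨D⟩ := Nec.exists_dat (M := (ℶ_ (ω₁ : Ordinal.{u})).out) (by simpa using beth_pow)
    (by simpa using le_beth) (diamondStar_beth hno) (fun κ a b _ => by
      have hy : Nec.Rg κ.ord := ⟨by rw [a.cof_ord], by
        rw [← Cardinal.ord_aleph]; exact Cardinal.ord_le_ord.2 b.le⟩
      simpa using not_reflects hy fun hm => hno ⟨_, hm⟩)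
  obtain ⟨Y, _, hT, hP, ⟨B, hB, hr, hp⟩, hM⟩ := D.space
  exact hM (h Y hT hP ⟨B, hB, hr⟩ ⟨B, hB, hp⟩)

end Pool.Agent.Lib.MP_0fa4a2_gt.Lc
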