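import Pool.Agent.Lib.MP_0fa4a2_gt.LcReg

-- part Pool.Agent.Lib.MP_0fa4a2_gt.LcEmb
section

/-!
Embeddings of initial segments of the machine.
-/

namespace Pool.Agent.Lib.MP_0fa4a2_gt.Lc

open Set Cardinal Ordinal
open Pool.Agent.Lib.MP_2739cb_lc (push)

universe u

structure PreEmb (f : Ordinal.{u} → Ordinal.{u}) (ζ : Ordinal.{u}) : Prop where
  mono : StrictMonoOn f (Iio ζ)
  zero : 0 < ζ → f 0 = 0
  lev : ∀ x < ζ, lev (f x) = f (lev x)
  fm : ∀ x < ζ, fm (f x) = fm x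
  env : ∀ x < ζ, ∀ i, env (f x) i = f (env x i)

structure Emb (f : Ordinal.{u} → Ordinal.{u}) (ζ : Ordinal.{u}) : Prop extends PreEmb f ζ where
  tru : ∀ x < ζ, ∀ φ : Fm, φ.code ≤ (Lc.fm x).code → ∀ w, FinEnv (Lc.lev x) w →
    (Tru (Lc.lev x) φ w ↔ Tru (f (Lc.lev x)) φ (f ∘ w))
  sk : ∀ x < ζ, sk (f x) = f (sk x)

theorem emb_dfn_tru (φ : Fm) (h : ℕ → ℕ) :
    Dfn fun (l : Ordinal.{u}) v => Tru l φ (push (v 0) fun i => v (h i)) :=
  ((Dfn.tru φ).comp (push 0 h)).congr fun l _ v _ => by rw [comp_push]; rfl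

/-- The value of the first variable is the set defined by `φ`. -/
def EmbSame (φ : Fm) (l z : Ordinal.{u}) (e : ℕ → Ordinal.{u}) : Prop :=
  ∀ t < l, (val t ∈ val z ↔ ∃ t' < l, Tru l φ (push t' e) ∧ val t' = val t)

theorem emb_dfn_same (φ : Fm) :
    Dfn fun (l : Ordinal.{u}) v => EmbSame φ l (v 0) fun i => v (2 * i + 3) :=
  ((Dfn.mem 0 1).iff ((emb_dfn_tru φ fun i => 2 * i + 5).and (Dfn.eq 0 1)).ex).all

theorem emb_same_iff {x z : Ordinal.{u}} (hz : z < lev x) :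
    EmbSame (fm x) (lev x) z (env x) ↔ val z = val x := by
  constructor
  · intro h
    ext a
    constructor
    · intro ha
      obtain ⟨t, ht, rfl⟩ := exists_name_lt ha
      exact mem_val.2 ((h t (ht.trans hz)).1 ha)
    · intro ha
      obtain ⟨t, ht, rfl⟩ := exists_name_of_mem ha
      exact (h t ht).2 (mem_val.1 ha)
  · intro h t _
    rw [h]
    exact mem_val

/-- Membership between two values is uniformly expressed at the larger of the two levels. -/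
theorem mem_chi (φ ψ : Fm) (o : Ordering) : ∃ χ : Fm, ∀ x y : Ordinal.{u}, fm x = φ → fm y = ψ →
    compare (lev x) (lev y) = o → ∀ w : ℕ → Ordinal.{u}, (∀ i, w i < max (lev x) (lev y)) →
    (lev x < lev y → w 0 = x) → (lev y < lev x → w 1 = y) →
    (∀ i, w (2 * i + 2) = env x i) → (∀ i, w (2 * i + 3) = env y i) →
    (val x ∈ val y ↔ Tru (max (lev x) (lev y)) χ w) := by
  cases o with
  | lt =>
    obtain ⟨χ, hχ⟩ := ((emb_dfn_tru.{u} ψ fun i => 2 * i + 4).and (Dfn.eq 0 1)).ex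
    refine ⟨χ, fun x y _ hy ho w hw h0 _ _ h3 => ?_⟩
    have hlt : lev x < lev y := compare_lt_iff_lt.1 ho
    rw [max_eq_right hlt.le] at hw ⊢
    rw [← hχ _ (isLev_lev y) w hw, mem_val, hy, ← funext h3, ← h0 hlt]
    rfl
  | eq =>
    obtain ⟨χ, hχ⟩ := ((emb_dfn_tru.{u} ψ fun i => 2 * i + 4).and (emb_dfn_same φ)).ex
    refine ⟨χ, fun x y hx hy ho w hw _ _ h2 h3 => ?_⟩
    have heq : lev x = lev y := compare_eq_iff_eq.1 ho
    rw [max_eq_right heq.le] at hw ⊢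
    rw [← hχ _ (isLev_lev y) w hw, mem_val, hy, ← funext h3]
    refine exists_congr fun z => and_congr_right fun hz => and_congr_right fun _ => ?_
    rw [← heq] at hz ⊢
    rw [← emb_same_iff hz, hx, ← funext h2]
    rfl
  | gt =>
    obtain ⟨χ, hχ⟩ := ((Dfn.mem.{u} 0 2).and (emb_dfn_same φ)).ex
    refine ⟨χ, fun x y hx _ ho w hw _ h1 h2 _ => ?_⟩
    have hlt : lev y < lev x := compare_gt_iff_gt.1 ho
    rw [max_eq_left hlt.le] at hw ⊢
    rw [← hχ _ (isLev_lev x) w hw]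
    change _ ↔ ∃ z < lev x, val z ∈ val (w 1) ∧ EmbSame φ (lev x) z fun i => w (2 * i + 2)
    rw [h1 hlt, funext h2, ← hx]
    constructor
    · intro h
      obtain ⟨z, hz, e⟩ := exists_name_of_mem h
      exact ⟨z, hz.trans hlt, e ▸ h, (emb_same_iff (hz.trans hlt)).2 e⟩
    · rintro ⟨z, hz, h, e⟩
      rwa [(emb_same_iff hz).1 e] at h

theorem emb_env_lt {ζ l : Ordinal.{u}} (hl : l < ζ) {w : ℕ → Ordinal.{u}} (hw : FinEnv l w)
    (i : ℕ) : w i < ζ := by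
  by_cases h : w i = 0
  · rw [h]; exact (zero_le (a := l)).trans_lt hl
  · exact (hw.2 i h).trans hl

theorem emb_lev_lt {ζ x : Ordinal.{u}} (hx : x < ζ) : lev x < ζ := (lev_le x).trans_lt hx

theorem emb_finEnv_mono {l l' : Ordinal.{u}} {w : ℕ → Ordinal.{u}} (hw : FinEnv l w)
    (h : l ≤ l') : FinEnv l' w := ⟨hw.1, fun i hi => (hw.2 i hi).trans_le h⟩

/-- Two parameter lists in one. -/
noncomputable def embMix (a b : ℕ → Ordinal.{u}) (n : ℕ) : Ordinal.{u} :=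
  if n % 2 = 0 then a (n / 2) else b (n / 2)

theorem embMix_even (a b : ℕ → Ordinal.{u}) (i : ℕ) : embMix a b (2 * i) = a i := by
  rw [embMix, if_pos (by omega), show 2 * i / 2 = i by omega]

theorem embMix_odd (a b : ℕ → Ordinal.{u}) (i : ℕ) : embMix a b (2 * i + 1) = b i := by
  rw [embMix, if_neg (by omega), show (2 * i + 1) / 2 = i by omega]

theorem embMix_finEnv {l : Ordinal.{u}} {a b : ℕ → Ordinal.{u}} (ha : FinEnv l a)
    (hb : FinEnv l b) : FinEnv l (embMix a b) := by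
  constructor
  · refine ((ha.1.image fun i => 2 * i).union (hb.1.image fun i => 2 * i + 1)).subset
      fun n hn => ?_
    obtain ⟨i, rfl | rfl⟩ := Nat.even_or_odd' n
    · exact Or.inl ⟨i, by rwa [Function.mem_support, embMix_even] at hn, rfl⟩
    · exact Or.inr ⟨i, by rwa [Function.mem_support, embMix_odd] at hn, rfl⟩
  · intro n hn
    obtain ⟨i, rfl | rfl⟩ := Nat.even_or_odd' n
    · rw [embMix_even] at hn ⊢
      exact ha.2 i hn
    · rw [embMix_odd] at hn ⊢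
      exact hb.2 i hn

namespace PreEmb

variable {f g : Ordinal.{u} → Ordinal.{u}} {ζ ζ' : Ordinal.{u}}

theorem lt_iff (h : PreEmb f ζ) {x y : Ordinal.{u}} (hx : x < ζ) (hy : y < ζ) :
    f x < f y ↔ x < y := h.mono.lt_iff_lt hx hy

theorem le_iff (h : PreEmb f ζ) {x y : Ordinal.{u}} (hx : x < ζ) (hy : y < ζ) :
    f x ≤ f y ↔ x ≤ y := h.mono.le_iff_le hx hy

theorem le_self (h : PreEmb f ζ) {x : Ordinal.{u}} (hx : x < ζ) : x ≤ f x := by
  induction x using WellFoundedLT.induction with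
  | ind x ih =>
    by_contra hc
    have h1 : f x < x := not_le.1 hc
    exact absurd (ih (f x) h1 (h1.trans hx)) (not_le.2 ((h.lt_iff (h1.trans hx) hx).2 h1))

theorem isLev_iff (h : PreEmb f ζ) {x : Ordinal.{u}} (hx : x < ζ) : IsLev (f x) ↔ IsLev x := by
  rw [IsLev, IsLev, h.lev x hx]
  exact h.mono.injOn.eq_iff (emb_lev_lt hx) hx

theorem finEnv (h : PreEmb f ζ) {l : Ordinal.{u}} (hl : l < ζ) {w : ℕ → Ordinal.{u}}
    (hw : FinEnv l w) : FinEnv (f l) (f ∘ w) := by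
  have h0 : f 0 = 0 := h.zero ((zero_le (a := l)).trans_lt hl)
  have key : ∀ i, (f ∘ w) i ≠ 0 → w i ≠ 0 := fun i hi e => hi (by
    rw [Function.comp_apply, e, h0])
  exact ⟨hw.1.subset key, fun i hi => (h.lt_iff (emb_env_lt hl hw i) hl).2 (hw.2 i (key i hi))⟩

theorem env_eq (h : PreEmb f ζ) {x : Ordinal.{u}} (hx : x < ζ) : Lc.env (f x) = f ∘ Lc.env x :=
  funext (h.env x hx)

/-- Membership below a level in the domain is preserved once truth is preserved at lower levels. -/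
theorem mem_iff (h : PreEmb f ζ) {l : Ordinal.{u}} (hl : IsLev l) (hζ : l < ζ)
    (H : ∀ x < l, ∀ φ : Fm, φ.code ≤ (Lc.fm x).code → ∀ w, FinEnv (Lc.lev x) w →
      (Tru (Lc.lev x) φ w ↔ Tru (f (Lc.lev x)) φ (f ∘ w)))
    {x y : Ordinal.{u}} (hx : x < l) (hy : y < l) : val x ∈ val y ↔ val (f x) ∈ val (f y) := by
  classical
  have hxζ := hx.trans hζ
  have hyζ := hy.trans hζ
  have ax := emb_lev_lt hxζ
  have ay := emb_lev_lt hyζ
  have hcl : max (Lc.lev x) (Lc.lev y) < l := max_lt (emb_lev_lt hx) (emb_lev_lt hy)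
  have hcζ := hcl.trans hζ
  rcases (zero_le (a := max (Lc.lev x) (Lc.lev y))).eq_or_lt with h0 | h0
  · have e : Lc.lev y = 0 := le_antisymm (h0 ▸ le_max_right _ _) zero_le
    have e' : Lc.lev (f y) = 0 := by rw [h.lev y hyζ, e, h.zero ((zero_le (a := l)).trans_lt hζ)]
    refine iff_of_false (fun hm => ?_) fun hm => ?_
    · obtain ⟨z, hz, -⟩ := exists_name_of_mem hm
      exact absurd (e ▸ hz) (not_lt.2 (zero_le (a := z)))
    · obtain ⟨z, hz, -⟩ := exists_name_of_mem hm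
      exact absurd (e' ▸ hz) (not_lt.2 (zero_le (a := z)))
  have hlev : IsLev (max (Lc.lev x) (Lc.lev y)) := by
    rcases max_choice (Lc.lev x) (Lc.lev y) with e | e <;> rw [e] <;> exact isLev_lev _
  obtain ⟨χ, hχ⟩ := mem_chi.{u} (Lc.fm x) (Lc.fm y) (compare (Lc.lev x) (Lc.lev y))
  obtain ⟨ξ, e1, e2, -⟩ := exists_loc hlev χ (w := fun _ => 0)
    ⟨by simp, fun i hi => absurd rfl hi⟩
  have hξ : ξ < l := lt_of_lev_lt hl (e1 ▸ hcl)
  have hw : FinEnv (max (Lc.lev x) (Lc.lev y)) (push (if Lc.lev x < Lc.lev y then x else 0)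
      (push (if Lc.lev y < Lc.lev x then y else 0) (embMix (Lc.env x) (Lc.env y)))) := by
    refine ((embMix_finEnv (emb_finEnv_mono (finEnv_env x) (le_max_left _ _))
      (emb_finEnv_mono (finEnv_env y) (le_max_right _ _))).push ?_).push ?_
    · split_ifs with c
      · exact (lt_of_lev_lt (isLev_lev x) c).trans_le (le_max_left _ _)
      · exact h0
    · split_ifs with c
      · exact (lt_of_lev_lt (isLev_lev y) c).trans_le (le_max_right _ _)
      · exact h0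
  have hmax : max (Lc.lev (f x)) (Lc.lev (f y)) = f (max (Lc.lev x) (Lc.lev y)) := by
    rw [h.lev x hxζ, h.lev y hyζ]
    rcases le_total (Lc.lev x) (Lc.lev y) with c | c
    · rw [max_eq_right c, max_eq_right ((h.le_iff ax ay).2 c)]
    · rw [max_eq_left c, max_eq_left ((h.le_iff ay ax).2 c)]
  have hcmp : compare (Lc.lev (f x)) (Lc.lev (f y)) = compare (Lc.lev x) (Lc.lev y) := by
    rw [h.lev x hxζ, h.lev y hyζ]
    rcases lt_trichotomy (Lc.lev x) (Lc.lev y) with c | c | c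
    · rw [compare_lt_iff_lt.2 c, compare_lt_iff_lt.2 ((h.lt_iff ax ay).2 c)]
    · rw [c, compare_eq_iff_eq.2 rfl, compare_eq_iff_eq.2 rfl]
    · rw [compare_gt_iff_gt.2 c, compare_gt_iff_gt.2 ((h.lt_iff ay ax).2 c)]
  have k := H ξ hξ χ (e2 ▸ le_rfl) _ (e1 ▸ hw)
  rw [e1] at k
  rw [hχ x y rfl rfl rfl _ (hw.lt h0) (fun c => if_pos c) (fun c => if_pos c)
    (embMix_even _ _) (embMix_odd _ _), k, ← hmax]
  refine (hχ (f x) (f y) (h.fm x hxζ) (h.fm y hyζ) hcmp _ (fun i => ?_) (fun c => ?_)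
    (fun c => ?_) (fun i => ?_) fun i => ?_).symm
  · rw [hmax]
    exact (h.lt_iff ((hw.lt h0 i).trans hcζ) hcζ).2 (hw.lt h0 i)
  · rw [h.lev x hxζ, h.lev y hyζ, h.lt_iff ax ay] at c
    exact congrArg f (if_pos c)
  · rw [h.lev x hxζ, h.lev y hyζ, h.lt_iff ay ax] at c
    exact congrArg f (if_pos c)
  · rw [h.env x hxζ]
    exact congrArg f (embMix_even _ _ i)
  · rw [h.env y hyζ]
    exact congrArg f (embMix_odd _ _ i)

/-- Witnesses are preserved. -/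
theorem wit_iff (h : PreEmb f ζ) {x z : Ordinal.{u}} (hx : x < ζ) (hz : z < ζ)
    (H : ∀ w, FinEnv (Lc.lev x) w →
      (Tru (Lc.lev x) (Lc.fm x) w ↔ Tru (f (Lc.lev x)) (Lc.fm x) (f ∘ w))) :
    (f z < Lc.lev (f x) ∧ Tru (Lc.lev (f x)) (Lc.fm (f x)) (push (f z) (Lc.env (f x)))) ↔
      (z < Lc.lev x ∧ Tru (Lc.lev x) (Lc.fm x) (push z (Lc.env x))) := by
  rw [h.lev x hx, h.fm x hx, h.env_eq hx, h.lt_iff hz (emb_lev_lt hx), ← comp_push]
  exact and_congr_right fun c => (H _ ((finEnv_env x).push c)).symm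

end PreEmb

theorem emb_id (ζ : Ordinal.{u}) : Emb id ζ where
  mono _ _ _ _ h := h
  zero _ := rfl
  lev _ _ := rfl
  fm _ _ := rfl
  env _ _ _ := rfl
  tru _ _ _ _ _ _ := Iff.rfl
  sk _ _ := rfl

namespace Emb

variable {f g : Ordinal.{u} → Ordinal.{u}} {ζ ζ' : Ordinal.{u}}

theorem mem_iff (h : Emb f ζ) {l : Ordinal.{u}} (hl : IsLev l) (hζ : l < ζ) {x y : Ordinal.{u}}
    (hx : x < l) (hy : y < l) : val x ∈ val y ↔ val (f x) ∈ val (f y) :=
  h.toPreEmb.mem_iff hl hζ (fun x hx => h.tru x (hx.trans hζ)) hx hy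

theorem restrict (h : Emb f ζ) (hζ : ζ' ≤ ζ) : Emb f ζ' where
  mono := h.mono.mono (Iio_subset_Iio hζ)
  zero c := h.zero (c.trans_le hζ)
  lev x c := h.lev x (c.trans_le hζ)
  fm x c := h.fm x (c.trans_le hζ)
  env x c := h.env x (c.trans_le hζ)
  tru x c := h.tru x (c.trans_le hζ)
  sk x c := h.sk x (c.trans_le hζ)

theorem comp (hf : Emb f ζ') (hg : Emb g ζ) (h : ∀ x < ζ, g x < ζ') : Emb (f ∘ g) ζ where
  mono := hf.mono.comp hg.mono h
  zero c := by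
    have := h 0 c
    rw [hg.zero c] at this
    rw [Function.comp_apply, hg.zero c, hf.zero this]
  lev x c := by rw [Function.comp_apply, hf.lev _ (h x c), hg.lev x c]; rfl
  fm x c := by rw [Function.comp_apply, hf.fm _ (h x c), hg.fm x c]
  env x c i := by rw [Function.comp_apply, hf.env _ (h x c), hg.env x c]; rfl
  tru x c φ hφ w hw := by
    have k := hf.tru (g x) (h x c) φ (by rwa [hg.fm x c]) (g ∘ w)
      (by rw [hg.lev x c]; exact hg.toPreEmb.finEnv (emb_lev_lt c) hw)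
    rw [hg.lev x c] at k
    exact (hg.tru x c φ hφ w hw).trans k
  sk x c := by rw [Function.comp_apply, hf.sk _ (h x c), hg.sk x c]; rfl

theorem congr (hf : Emb f ζ) (h : ∀ x < ζ, g x = f x) : Emb g ζ where
  mono := hf.mono.congr fun x c => (h x c).symm
  zero c := by rw [h 0 c, hf.zero c]
  lev x c := by rw [h x c, h _ (emb_lev_lt c), hf.lev x c]
  fm x c := by rw [h x c, hf.fm x c]
  env x c i := by rw [h x c, h _ ((env_le x i).trans_lt c), hf.env x c]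
  tru x c φ hφ w hw := by
    have e : g ∘ w = f ∘ w := funext fun i => h _ (emb_env_lt (emb_lev_lt c) hw i)
    rw [e, h _ (emb_lev_lt c)]
    exact hf.tru x c φ hφ w hw
  sk x c := by rw [h x c, h _ ((sk_le x).trans_lt c), hf.sk x c]

end Emb

theorem emb_tru_of_family (F : Set ((Ordinal.{u} → Ordinal.{u}) × Ordinal.{u}))
    (pre : ∀ p ∈ F, PreEmb p.1 p.2)
    (tv : ∀ p ∈ F, ∀ x < p.2, ∃ p' ∈ F, ∃ g, Emb g p.2 ∧ (∀ y < p.2, g y < p'.2 ∧ p.1 y = p'.1 (g y)) ∧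
      ∃ s < p'.2, sk (p.1 x) = p'.1 s) (L : Ordinal.{u}) (φ : Fm) :
    ∀ p ∈ F, ∀ x < p.2, p.1 (lev x) = L → φ.code ≤ (fm x).code → ∀ w, FinEnv (lev x) w →
      (Tru (lev x) φ w ↔ Tru (p.1 (lev x)) φ (p.1 ∘ w)) := by
  induction L using WellFoundedLT.induction generalizing φ with
  | ind L ihL =>
  induction φ with
  | bot => exact fun _ _ _ _ _ _ _ _ => Iff.rfl
  | mem i j =>
    intro p hp x hx hL _ w hw
    have h := pre p hp
    have a := emb_lev_lt hx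
    rw [tru_mem, tru_mem, Function.comp_apply, Function.comp_apply,
      h.lt_iff (emb_env_lt a hw i) a, h.lt_iff (emb_env_lt a hw j) a]
    refine and_congr_right fun hi => and_congr_right fun hj => ?_
    refine h.mem_iff (isLev_lev x) a (fun y hy ψ hψ => ?_) hi hj
    exact ihL _ (hL ▸ (h.lt_iff (emb_lev_lt (hy.trans a)) a).2 (emb_lev_lt hy)) ψ p hp y
      (hy.trans a) rfl hψ
  | lt i j =>
    intro p hp x hx _ _ w hw
    have a := emb_lev_lt hx
    exact ((pre p hp).lt_iff (emb_env_lt a hw i) (emb_env_lt a hw j)).symm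
  | imp φ ψ ih1 ih2 =>
    intro p hp x hx hL hc w hw
    exact imp_congr (ih1 p hp x hx hL ((Fm.code_imp_left φ ψ).le.trans hc) w hw)
      (ih2 p hp x hx hL ((Fm.code_imp_right φ ψ).le.trans hc) w hw)
  | ex ψ ih =>
    intro p hp x hx hL hc w hw
    have h := pre p hp
    have a := emb_lev_lt hx
    have hc' : ψ.code < (fm x).code := (Fm.code_ex ψ).trans_le hc
    constructor
    · rintro ⟨z, hz, ht⟩
      refine ⟨p.1 z, (h.lt_iff (hz.trans a) a).2 hz, ?_⟩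
      have k := (ih p hp x hx hL hc'.le _ (hw.push hz)).1 ht
      rwa [comp_push] at k
    · rintro ⟨z, hz, ht⟩
      obtain ⟨ξ, e1, e2, e3⟩ := exists_loc (isLev_lev x) ψ hw
      have hξ : ξ < p.2 := (lt_iff_dec.2 (Or.inr ⟨e1, Or.inl (e2 ▸ hc')⟩)).trans hx
      have f1 : lev (p.1 ξ) = p.1 (lev x) := by rw [h.lev ξ hξ, e1]
      have f2 : fm (p.1 ξ) = ψ := by rw [h.fm ξ hξ, e2]
      have f3 : env (p.1 ξ) = p.1 ∘ w := by rw [h.env_eq hξ, e3]
      obtain ⟨s1, s2⟩ := sk_spec (ξ := p.1 ξ) (z := z) (by rwa [f1]) (by rwa [f1, f2, f3])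
      rw [f1, f2, f3] at s2
      obtain ⟨p', hp', g, hg, hfac, s, hs, es⟩ := tv p hp ξ hξ
      have g1 : lev (g ξ) = g (lev x) := by rw [hg.lev ξ hξ, e1]
      have g2 : fm (g ξ) = ψ := by rw [hg.fm ξ hξ, e2]
      have hsl : s < g (lev x) := by
        rw [← (pre p' hp').lt_iff hs (hfac _ a).1, ← (hfac _ a).2, ← es]
        exact s1.trans_lt hz
      have k := ih p' hp' (g ξ) (hfac ξ hξ).1 (by rw [g1, ← (hfac _ a).2, hL]) (g2 ▸ le_rfl)
        (push s (g ∘ w)) (by rw [g1]; exact (hg.toPreEmb.finEnv a hw).push hsl)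
      have ew : p'.1 ∘ g ∘ w = p.1 ∘ w := funext fun i => (hfac _ (emb_env_lt a hw i)).2.symm
      rw [g1, comp_push, ← (hfac _ a).2, ← es, ew] at k
      exact (hg.tru x hx _ hc w hw).2 ⟨s, hsl, k.2 s2⟩

/-- The Tarski-Vaught criterion for a family of maps. -/
theorem emb_of_family (F : Set ((Ordinal.{u} → Ordinal.{u}) × Ordinal.{u}))
    (pre : ∀ p ∈ F, PreEmb p.1 p.2)
    (tv : ∀ p ∈ F, ∀ x < p.2, ∃ p' ∈ F, ∃ g, Emb g p.2 ∧ (∀ y < p.2, g y < p'.2 ∧ p.1 y = p'.1 (g y)) ∧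
      ∃ s < p'.2, sk (p.1 x) = p'.1 s) :
    ∀ p ∈ F, Emb p.1 p.2 := by
  have T := fun p hp x hx φ => emb_tru_of_family F pre tv _ φ p hp x hx rfl
  refine fun p hp => ⟨pre p hp, T p hp, fun x hx => ?_⟩
  have h := pre p hp
  have hk : sk x < p.2 := (sk_le x).trans_lt hx
  by_cases hw : ∃ z < lev (p.1 x), Tru (lev (p.1 x)) (fm (p.1 x)) (push z (env (p.1 x)))
  · obtain ⟨z, hz, ht⟩ := hw
    obtain ⟨s1, s2⟩ := sk_spec hz ht
    obtain ⟨p', hp', g, hg, hfac, s, hs, es⟩ := tv p hp x hx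
    have h' := pre p' hp'
    have w1 := (h'.wit_iff (hfac x hx).1 hs (T p' hp' _ (hfac x hx).1 _ le_rfl)).1 (by
      rw [← (hfac x hx).2, ← es]
      exact ⟨s1.trans_lt hz, s2⟩)
    obtain ⟨t1, t2⟩ := sk_spec w1.1 w1.2
    rw [hg.sk x hx] at t1 t2
    have w2 := (hg.toPreEmb.wit_iff hx hk (hg.tru x hx _ le_rfl)).1 ⟨t1.trans_lt w1.1, t2⟩
    have w3 := (h.wit_iff hx hk (T p hp x hx _ le_rfl)).2 w2
    refine le_antisymm (sk_spec w3.1 w3.2).1 ?_
    rw [es, (hfac _ hk).2]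
    exact (h'.le_iff (hfac _ hk).1 hs).2 t1
  · rw [sk_eq_zero fun z hz ht => hw ⟨z, hz, ht⟩, sk_eq_zero fun z hz ht => hw ⟨p.1 z,
      (h.wit_iff hx (hz.trans (emb_lev_lt hx)) (T p hp x hx _ le_rfl)).2 ⟨hz, ht⟩⟩,
      h.zero ((zero_le (a := x)).trans_lt hx)]

end Pool.Agent.Lib.MP_0fa4a2_gt.Lc
end

-- part Pool.Agent.Lib.MP_0fa4a2_gt.LcCond
section

/-!
Condensation; images of hulls.
-/

namespace Pool.Agent.Lib.MP_0fa4a2_gt.Lc

open Set Cardinal Ordinal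

universe u

/-- `S` is the image of the location `s`, whose components lie below `ζ`. -/
def CondIm (f : Ordinal.{u} → Ordinal.{u}) (ζ : Ordinal.{u}) (s S : Tp.{u}) : Prop :=
  s.l < ζ ∧ (∀ i, s.v i < ζ) ∧ S.l = f s.l ∧ S.φ = s.φ ∧ ∀ i, S.v i = f (s.v i)

theorem cond_lt_iff {f : Ordinal.{u} → Ordinal.{u}} {ζ : Ordinal.{u}}
    (hf : StrictMonoOn f (Iio ζ)) {s t S T : Tp.{u}} (hs : CondIm f ζ s S)
    (ht : CondIm f ζ t T) : S < T ↔ s < t := by
  obtain ⟨a1, a2, a3, a4, a5⟩ := hs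
  obtain ⟨b1, b2, b3, b4, b5⟩ := ht
  have e1 : ∀ i, S.v i = T.v i ↔ s.v i = t.v i := fun i => by
    rw [a5, b5]; exact hf.injOn.eq_iff (a2 i) (b2 i)
  have e2 : ∀ i, S.v i < T.v i ↔ s.v i < t.v i := fun i => by
    rw [a5, b5]; exact hf.lt_iff_lt (a2 i) (b2 i)
  rw [Tp.lt_iff, Tp.lt_iff]
  unfold TLt ELt
  rw [a3, b3, a4, b4, hf.lt_iff_lt a1 b1, hf.injOn.eq_iff a1 b1]
  simp only [e1, e2]

theorem cond_eq {f : Ordinal.{u} → Ordinal.{u}} {ζ : Ordinal.{u}}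
    (hf : StrictMonoOn f (Iio ζ)) {s t S : Tp.{u}} (hs : CondIm f ζ s S)
    (ht : CondIm f ζ t S) : s = t := by
  rcases lt_trichotomy s t with h | h | h
  · exact absurd ((cond_lt_iff hf hs ht).2 h) (lt_irrefl _)
  · exact h
  · exact absurd ((cond_lt_iff hf ht hs).2 h) (lt_irrefl _)

theorem cond_hull {X : Set Ordinal.{u}} {δ x : Ordinal.{u}} (hx : x < ot X δ) :
    Hull δ X (en X δ x) := Hull.base (en_mem hx) (en_lt_iff.2 hx)

theorem cond_surj {X : Set Ordinal.{u}} {δ y : Ordinal.{u}} (h : HClosed δ X)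
    (hy : Hull δ X y) : ∃ x < ot X δ, en X δ x = y := en_surj (h y hy) hy.lt

theorem cond_pre {X : Set Ordinal.{u}} {δ : Ordinal.{u}} (h : HClosed δ X) :
    PreEmb (en X δ) (ot X δ) := by
  have hm : StrictMonoOn (en X δ) (Iio (ot X δ)) := en_strictMono.strictMonoOn _
  have h0 : 0 < ot X δ → en X δ 0 = 0 := by
    intro hz
    obtain ⟨a, -, ha⟩ := cond_surj h (Hull.zero (lt_of_le_of_lt zero_le (en_lt_iff.2 hz)))
    refine le_antisymm ?_ zero_le
    exact (en_strictMono.monotone (zero_le : (0 : Ordinal.{u}) ≤ a)).trans ha.le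
  have hex : ∀ x, ∃ t : Tp.{u}, x < ot X δ → CondIm (en X δ) (ot X δ) t (dec (en X δ x)) := by
    intro x
    by_cases hx : x < ot X δ
    swap
    · exact ⟨⟨0, .bot, 0⟩, fun h' => absurd h' hx⟩
    have hz : 0 < ot X δ := lt_of_le_of_lt zero_le hx
    obtain ⟨a, ha, ha'⟩ := cond_surj h (cond_hull hx).lev
    choose b hb hb' using fun i => cond_surj h ((cond_hull hx).env i)
    have hfin : (Function.support b).Finite := by
      refine (finEnv_env (en X δ x)).1.subset fun i hi hi' => hi ?_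
      apply (en_strictMono (X := X) (δ := δ)).injective
      rw [hb' i, hi', h0 hz]
    exact ⟨⟨a, fm (en X δ x), Finsupp.ofSupportFinite b hfin⟩,
      fun _ => ⟨ha, hb, ha'.symm, rfl, fun i => (hb' i).symm⟩⟩
  choose d hd using hex
  have key : ∀ ξ < ot X δ, d ξ = dec ξ := by
    apply dec_unique
    · intro x hx y hy hxy
      exact (cond_lt_iff hm (hd x hx) (hd y hy)).1 (dec_strictMono (en_strictMono hxy))
    · intro ξ hξ
      have hz : 0 < ot X δ := lt_of_le_of_lt zero_le hξ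
      obtain ⟨a1, a2, a3, a4, a5⟩ := hd ξ hξ
      refine ⟨?_, ?_, ?_⟩
      · rw [← (en_strictMono (X := X) (δ := δ)).le_iff_le, ← a3]
        exact lev_le _
      · intro i hi
        rw [← (en_strictMono (X := X) (δ := δ)).lt_iff_lt, ← a3, ← a5]
        apply (finEnv_env (en X δ ξ)).2 i
        intro h1
        apply hi
        apply (en_strictMono (X := X) (δ := δ)).injective
        rw [← a5, h0 hz]
        exact h1
      · refine cond_eq hm (hd _ a1) ?_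
        rw [← a3]
        have := dec_lev (en X δ ξ)
        unfold lev at this
        rw [this]
        exact ⟨a1, fun _ => hz, a3, rfl, fun _ => (h0 hz).symm⟩
    · rintro ξ hξ t ht ⟨η, hη, hη'⟩ hv
      have hz : 0 < ot X δ := lt_of_le_of_lt zero_le hξ
      have htl : t.l < ot X δ := hη' ▸ (hd η hη).1
      have htv : ∀ i, t.v i < ot X δ := fun i => by
        by_cases hi : t.v i = 0
        · rw [hi]; exact hz
        · exact (hv i hi).trans htl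
      have hT : CondIm (en X δ) (ot X δ) t ⟨en X δ t.l, t.φ, t.v.mapRange (en X δ) (h0 hz)⟩ :=
        ⟨htl, htv, rfl, rfl, fun _ => rfl⟩
      have hlev : en X δ t.l = lev (en X δ η) := by
        rw [← hη']; exact (hd η hη).2.2.1.symm
      obtain ⟨η', h1, h2⟩ := dec_down ((cond_lt_iff hm hT (hd ξ hξ)).2 ht)
        (by change IsLev (en X δ t.l); rw [hlev]; exact isLev_lev _) (by
          intro i hi
          change en X δ (t.v i) < en X δ t.l
          apply en_strictMono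
          apply hv i
          intro h3
          apply hi
          change en X δ (t.v i) = 0
          rw [h3, h0 hz])
      have h3 : Hull δ X η' := by
        refine Hull.enc (h1.trans (en_lt_iff.2 hξ)) ?_ fun i => ?_
        · unfold lev
          rw [h2]
          exact cond_hull htl
        · unfold env
          rw [h2]
          exact cond_hull (htv i)
      obtain ⟨a, ha, rfl⟩ := cond_surj h h3
      refine ⟨a, en_strictMono.lt_iff_lt.1 h1, cond_eq hm (hd a ha) ?_⟩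
      rw [h2]
      exact hT
  refine ⟨hm, h0, fun x hx => ?_, fun x hx => ?_, fun x hx i => ?_⟩
  · have := (hd x hx).2.2.1
    rwa [key x hx] at this
  · have := (hd x hx).2.2.2.1
    rwa [key x hx] at this
  · have := (hd x hx).2.2.2.2 i
    rwa [key x hx] at this

/-- Condensation. -/
theorem condense {X : Set Ordinal.{u}} {δ : Ordinal.{u}} (h : HClosed δ X) :
    Emb (en X δ) (ot X δ) := by
  refine emb_of_family {(en X δ, ot X δ)} ?_ ?_ (en X δ, ot X δ) rfl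
  · rintro p rfl
    exact cond_pre h
  · rintro p rfl x hx
    obtain ⟨s, hs, hs'⟩ := cond_surj h (cond_hull hx).sk
    exact ⟨_, rfl, id, emb_id _, fun y hy => ⟨hy, rfl⟩, s, hs, hs'.symm⟩

theorem emb_sg (η γ : Ordinal.{u}) (q : Finset Ordinal.{u}) : Emb (sg η γ q) (og η γ q) :=
  condense (hclosed_hull _ _)

variable {f g : Ordinal.{u} → Ordinal.{u}} {ζ η η' x y : Ordinal.{u}} {A B : Set Ordinal.{u}}

theorem Emb.hull_map (h : Emb f ζ) (hη : η ≤ ζ) (hη' : ∀ x < η, f x < η')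
    (hA : ∀ a ∈ A, a < η → Hull η' B (f a)) (hx : Hull η A x) : Hull η' B (f x) := by
  induction hx with
  | base h1 h2 => exact hA _ h1 h2
  | zero h1 =>
    have h2 := hη' 0 h1
    rw [h.zero (h1.trans_le hη)] at h2 ⊢
    exact Hull.zero h2
  | lev h1 ih =>
    rw [← h.lev _ (h1.lt.trans_le hη)]
    exact ih.lev
  | env i h1 ih =>
    rw [← h.env _ (h1.lt.trans_le hη)]
    exact ih.env i
  | sk h1 ih =>
    rw [← h.sk _ (h1.lt.trans_le hη)]
    exact ih.sk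
  | enc h1 _ _ ih1 ih2 =>
    refine Hull.enc (hη' _ h1) ?_ fun i => ?_
    · rw [h.lev _ (h1.trans_le hη)]
      exact ih1
    · rw [h.env _ (h1.trans_le hη)]
      exact ih2 i

/-- Pulling back a hull below a point of the range. -/
theorem Emb.hull_pull (h : Emb f ζ) (hη : η < ζ)
    (hB : ∀ b ∈ B, b < f η → ∃ a, Hull η A a ∧ f a = b) (hy : Hull (f η) B y) :
    ∃ x, Hull η A x ∧ f x = y := by
  have hz : 0 < ζ := lt_of_le_of_lt zero_le hη
  induction hy with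
  | base h1 h2 => exact hB _ h1 h2
  | zero h1 =>
    refine ⟨0, Hull.zero ?_, h.zero hz⟩
    rw [← h.zero hz] at h1
    exact (h.lt_iff hz hη).1 h1
  | lev _ ih =>
    obtain ⟨x, h1, rfl⟩ := ih
    exact ⟨_, h1.lev, (h.lev _ (h1.lt.trans hη)).symm⟩
  | env i _ ih =>
    obtain ⟨x, h1, rfl⟩ := ih
    exact ⟨_, h1.env i, (h.env _ (h1.lt.trans hη) i).symm⟩
  | sk _ ih =>
    obtain ⟨x, h1, rfl⟩ := ih
    exact ⟨_, h1.sk, (h.sk _ (h1.lt.trans hη)).symm⟩
  | @enc y h1 _ _ ih1 ih2 =>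
    obtain ⟨a, ha, ha'⟩ := ih1
    choose b hb hb' using ih2
    have haz : a < ζ := ha.lt.trans hη
    have hbz : ∀ i, b i < ζ := fun i => (hb i).lt.trans hη
    have hne : ∀ i, b i ≠ 0 → Lc.env y i ≠ 0 := by
      intro i hi hi'
      apply hi
      apply h.mono.injOn (hbz i) hz
      rw [hb' i, hi', h.zero hz]
    have hfin : (Function.support b).Finite :=
      (finEnv_env y).1.subset fun i hi => hne i hi
    have hT : CondIm f ζ ⟨a, Lc.fm y, Finsupp.ofSupportFinite b hfin⟩ (dec y) :=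
      ⟨haz, hbz, ha'.symm, rfl, fun i => (hb' i).symm⟩
    have hE : CondIm f ζ (dec η) (dec (f η)) :=
      ⟨(lev_le η).trans_lt hη, fun i => (env_le η i).trans_lt hη, h.lev η hη, h.fm η hη,
        h.env η hη⟩
    obtain ⟨x, hx, hx'⟩ := dec_down ((cond_lt_iff h.mono hT hE).1 (dec_strictMono h1))
      (by
        change IsLev a
        rw [← h.isLev_iff haz, ha']
        exact isLev_lev y) (by
        intro i hi
        change b i < a
        rw [← h.lt_iff (hbz i) haz, ha', hb' i]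
        exact (finEnv_env y).2 i (hne i hi))
    have e1 : Lc.lev x = a := by unfold Lc.lev; rw [hx']
    have e2 : Lc.fm x = Lc.fm y := by
      conv_lhs => unfold Lc.fm
      rw [hx']
    have e3 : ∀ i, Lc.env x i = b i := fun i => by unfold Lc.env; rw [hx']; rfl
    refine ⟨x, Hull.enc hx (e1 ▸ ha) fun i => e3 i ▸ hb i, eq_of_dec ?_ ?_ fun i => ?_⟩
    · rw [h.lev x (hx.trans hη), e1, ha']
    · rw [h.fm x (hx.trans hη), e2]
    · rw [h.env x (hx.trans hη), e3, hb']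

/-- Pulling back a hull along a collapse. -/
theorem hull_pull_en {X : Set Ordinal.{u}} {δ : Ordinal.{u}} (h : HClosed δ X)
    (hB : ∀ b ∈ B, b < δ → ∃ a, Hull (ot X δ) A a ∧ en X δ a = b) (hη : η ≤ δ)
    (hy : Hull η B y) : ∃ x, Hull (ot X δ) A x ∧ en X δ x = y := by
  have he := condense h
  induction hy with
  | base h1 h2 => exact hB _ h1 (h2.trans_le hη)
  | zero h1 =>
    obtain ⟨a, ha, -⟩ := cond_surj h (Hull.zero (h1.trans_le hη))
    have hz : 0 < ot X δ := lt_of_le_of_lt zero_le ha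
    exact ⟨0, Hull.zero hz, he.zero hz⟩
  | lev _ ih =>
    obtain ⟨x, h1, rfl⟩ := ih
    exact ⟨_, h1.lev, (he.lev _ h1.lt).symm⟩
  | env i _ ih =>
    obtain ⟨x, h1, rfl⟩ := ih
    exact ⟨_, h1.env i, (he.env _ h1.lt i).symm⟩
  | sk _ ih =>
    obtain ⟨x, h1, rfl⟩ := ih
    exact ⟨_, h1.sk, (he.sk _ h1.lt).symm⟩
  | @enc y h1 _ _ ih1 ih2 =>
    obtain ⟨a, ha, ha'⟩ := ih1
    choose b hb hb' using ih2
    have h2 : Hull δ X y :=
      Hull.enc (h1.trans_le hη) (ha' ▸ cond_hull ha.lt) fun i => hb' i ▸ cond_hull (hb i).lt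
    obtain ⟨x, hx, rfl⟩ := cond_surj h h2
    refine ⟨x, Hull.enc hx ?_ fun i => ?_, rfl⟩
    · rw [he.lev x hx] at ha'
      rw [← en_strictMono.injective ha']
      exact ha
    · have h3 := hb' i
      rw [he.env x hx] at h3
      rw [← en_strictMono.injective h3]
      exact hb i

theorem Emb.eq_on_hull (hf : Emb f ζ) (hg : Emb g ζ) (hA : ∀ a ∈ A, a < ζ → f a = g a)
    (hx : Hull ζ A x) : f x = g x := by
  induction hx with
  | base h1 h2 => exact hA _ h1 h2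
  | zero h1 => rw [hf.zero h1, hg.zero h1]
  | lev h1 ih => rw [← hf.lev _ h1.lt, ← hg.lev _ h1.lt, ih]
  | env i h1 ih => rw [← hf.env _ h1.lt, ← hg.env _ h1.lt, ih]
  | sk h1 ih => rw [← hf.sk _ h1.lt, ← hg.sk _ h1.lt, ih]
  | enc h1 _ _ ih1 ih2 =>
    refine eq_of_dec ?_ ?_ fun i => ?_
    · rw [hf.lev _ h1, hg.lev _ h1, ih1]
    · rw [hf.fm _ h1, hg.fm _ h1]
    · rw [hf.env _ h1, hg.env _ h1, ih2]

theorem cond_sub {γ : Ordinal.{u}} {q : Finset Ordinal.{u}} (hγ : γ ≤ η) : Iio γ ⊆ hl η γ q :=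
  fun _ hb => Hull.base (Or.inl hb) (lt_of_lt_of_le hb hγ)

theorem sg_id {γ : Ordinal.{u}} {q : Finset Ordinal.{u}} (hγ : γ ≤ η) (hx : x < γ) :
    sg η γ q x = x := en_id (cond_sub hγ) hx

theorem le_og {γ : Ordinal.{u}} {q : Finset Ordinal.{u}} (hγ : γ ≤ η) : γ ≤ og η γ q :=
  le_ot (cond_sub hγ) hγ

/-- The collapse of a hull is generated by the collapsed generators. -/
theorem og_sound {γ : Ordinal.{u}} {q p : Finset Ordinal.{u}} (hγ : γ ≤ η)
    (hp : ∀ x ∈ p, x < og η γ q) (hq : ∀ y ∈ q, y < η → ∃ x ∈ p, sg η γ q x = y) :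
    ∀ x < og η γ q, x ∈ hl (og η γ q) γ p := by
  intro x hx
  obtain ⟨x', h1, h2⟩ := hull_pull_en (X := hl η γ q) (δ := η) (A := Iio γ ∪ ↑p)
    (B := Iio γ ∪ ↑q) (hclosed_hull _ _) (by
      rintro b (hb | hb) hbη
      · exact ⟨b, Hull.base (Or.inl hb) (lt_of_lt_of_le hb (le_og hγ)), sg_id hγ hb⟩
      · obtain ⟨a, ha, ha'⟩ := hq b hb hbη
        exact ⟨a, Hull.base (Or.inr ha) (hp a ha), ha'⟩) le_rfl (en_mem hx)
  rw [← en_strictMono.injective h2]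
  exact h1

theorem exists_pre {γ : Ordinal.{u}} {q : Finset Ordinal.{u}} (hq : ∀ y ∈ q, y < η) :
    ∃ p : Finset Ordinal.{u}, (∀ x ∈ p, x < og η γ q) ∧ p.image (sg η γ q) = q :=
  exists_preimage_finset fun y hy => ⟨Hull.base (Or.inr hy) (hq y hy), hq y hy⟩

end Pool.Agent.Lib.MP_0fa4a2_gt.Lc
end

-- part Pool.Agent.Lib.MP_0fa4a2_gt.LcZ
section

/-!
Countably closed hulls.
-/

namespace Pool.Agent.Lib.MP_0fa4a2_gt.Lc

open Set Cardinal Ordinal

universe u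

abbrev Pa : Type (u + 1) := Ordinal.{u} × Ordinal.{u} × Ordinal.{u} × Finset Ordinal.{u}

def Pa.In (Z : Set Ordinal.{u}) (p : Pa.{u}) : Prop :=
  p.1 ∈ Z ∧ p.2.1 ∈ Z ∧ p.2.2.1 ∈ Z ∧ ↑p.2.2.2 ⊆ Z

theorem lcz_union {ι α : Type (u + 1)} {μ : Cardinal.{u + 1}} (hμ : ℵ₀ ≤ μ) {S : Set ι}
    {f : ι → Set α} (hS : #S ≤ μ) (hf : ∀ i ∈ S, #(f i) ≤ μ) : #(⋃ i ∈ S, f i) ≤ μ :=
  (mk_biUnion_le f S).trans (Cardinal.mul_le_of_le hμ hS (ciSup_le' fun i => hf i.1 i.2))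

theorem lcz_pa {μ : Cardinal.{u + 1}} (hμ : ℵ₀ ≤ μ) {U : Set Ordinal.{u}} (hU : #U ≤ μ) :
    #{p : Pa.{u} | p.In U} ≤ μ := by
  classical
  have h : {p : Pa.{u} | p.In U} ⊆ range fun t : U × U × U × List U =>
      ((t.1.1, t.2.1.1, t.2.2.1.1, (t.2.2.2.map Subtype.val).toFinset) : Pa.{u}) := by
    rintro ⟨a, b, c, q⟩ ⟨h1, h2, h3, h4⟩
    refine ⟨(⟨a, h1⟩, ⟨b, h2⟩, ⟨c, h3⟩, q.toList.attach.map fun x =>
      ⟨x.1, h4 (Finset.mem_toList.1 x.2)⟩), ?_⟩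
    simp
  refine (mk_le_mk_of_subset h).trans (mk_range_le.trans ?_)
  simp only [mk_prod, Cardinal.lift_id]
  exact Cardinal.mul_le_of_le hμ hU (Cardinal.mul_le_of_le hμ hU (Cardinal.mul_le_of_le hμ hU
    ((mk_list_le_max _).trans (max_le hμ hU))))

theorem lcz_seq {μ : Cardinal.{u + 1}} (hμ : ℵ₀ ≤ μ) (hp : μ ^ ℵ₀ = μ) {U : Set Ordinal.{u}}
    (hU : #U ≤ μ) : #{s : ℕ → Pa.{u} | ∀ n, (s n).In U} ≤ μ := by
  have h : #{s : ℕ → Pa.{u} | ∀ n, (s n).In U} ≤ #(ℕ → {p : Pa.{u} | p.In U}) :=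
    mk_le_of_injective (f := fun s n => ⟨s.1 n, s.2 n⟩) fun s t h =>
      Subtype.ext (funext fun n => congrArg Subtype.val (congrFun h n))
  refine h.trans ?_
  rw [mk_arrow, mk_nat, Cardinal.lift_aleph0, Cardinal.lift_uzero, ← hp]
  exact power_le_power_right (lcz_pa hμ hU)

theorem lcz_mono {U U' : Set Ordinal.{u}} (h : U ⊆ U') {p : Pa.{u}} (hp : p.In U) : p.In U' :=
  ⟨h hp.1, h hp.2.1, h hp.2.2.1, hp.2.2.2.trans h⟩

theorem lcz_pick {α : Type*} [Nonempty α] (P : α → Prop) : ∃ x, (∃ y, P y) → P x :=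
  ⟨Classical.epsilon P, Classical.epsilon_spec⟩

theorem lcz_least (S : Set Ordinal.{u}) : {x | IsLeast S x}.Countable :=
  Set.Subsingleton.countable fun _ h _ h' => h.unique h'

theorem exists_Z {ν : Cardinal.{u}} (h0 : ℵ₁ ≤ ν) (hν : ν ^ ℵ₀ = ν) (τ : Ordinal.{u})
    (K : (ℕ → Pa.{u}) → Set Ordinal.{u}) (hK : ∀ s, #(K s) ≤ Cardinal.lift.{u + 1} ν)
    {Y : Set Ordinal.{u}} (hY : Y ⊆ Iio τ) (hc : #Y ≤ Cardinal.lift.{u + 1} ν) :
    ∃ Z, Y ⊆ Z ∧ Z ⊆ Iio τ ∧ #Z ≤ Cardinal.lift.{u + 1} ν ∧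
      ∀ s : ℕ → Pa.{u}, (∀ n, (s n).In Z) → K s ∩ Iio τ ⊆ Z := by
  have hμ : ℵ₀ ≤ Cardinal.lift.{u + 1} ν := aleph0_le_lift.2 (aleph0_le_aleph 1 |>.trans h0)
  have hp : Cardinal.lift.{u + 1} ν ^ ℵ₀ = Cardinal.lift.{u + 1} ν := by
    rw [← Cardinal.lift_aleph0.{u + 1, u}, ← Cardinal.lift_power, hν]
  obtain ⟨Z, hZ⟩ : ∃ Z : Ordinal.{u} → Set Ordinal.{u}, ∀ α, Z α =
      Y ∪ ⋃ s ∈ {s : ℕ → Pa.{u} | ∀ n, (s n).In (⋃ β ∈ Iio α, Z β)}, K s ∩ Iio τ := by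
    refine ⟨(wellFounded_lt (α := Ordinal.{u})).fix fun α rec =>
      Y ∪ ⋃ s ∈ {s : ℕ → Pa.{u} | ∀ n, (s n).In (⋃ β, ⋃ h : β ∈ Iio α, rec β h)}, K s ∩ Iio τ,
      fun α => ?_⟩
    rw [WellFounded.fix_eq]
  have hI : ∀ α ≤ (ω₁ : Ordinal.{u}), #(Iio α) ≤ Cardinal.lift.{u + 1} ν := fun α hα => by
    rw [Cardinal.mk_Iio_ordinal, Cardinal.lift_le]
    exact ((card_le_card hα).trans_eq (card_omega 1)).trans h0
  have h1 : ∀ α < (ω₁ : Ordinal.{u}), #(Z α) ≤ Cardinal.lift.{u + 1} ν := by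
    intro α
    induction α using WellFoundedLT.induction with
    | ind α ih =>
      intro hα
      rw [hZ]
      refine (mk_union_le _ _).trans (Cardinal.add_le_of_le hμ hc (lcz_union hμ
        (lcz_seq hμ hp (lcz_union hμ (hI α hα.le) fun β hβ => ih β hβ (hβ.trans hα)))
        fun s _ => (mk_le_mk_of_subset inter_subset_left).trans (hK s)))
  refine ⟨⋃ α ∈ Iio ω₁, Z α, fun y hy => ?_, iUnion₂_subset fun α _ => ?_,
    lcz_union hμ (hI _ le_rfl) h1, fun s hs => ?_⟩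
  · refine mem_biUnion (mem_Iio.2 (omega_pos 1)) ?_
    rw [hZ]
    exact Or.inl hy
  · rw [hZ]
    exact union_subset hY (iUnion₂_subset fun s _ => inter_subset_right)
  · have h2 : ∀ x : Ordinal.{u}, ∃ α, x ∈ ⋃ α ∈ Iio ω₁, Z α → α < ω₁ ∧ x ∈ Z α := fun x => by
      obtain ⟨α, hα⟩ := lcz_pick fun α => α < ω₁ ∧ x ∈ Z α
      exact ⟨α, fun hx => hα (by simpa using hx)⟩
    choose r hr using h2
    obtain ⟨C, hC, hC1, hC2⟩ : ∃ C : Set Ordinal.{u}, C.Countable ∧ C ⊆ ⋃ α ∈ Iio ω₁, Z α ∧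
        ∀ n, (s n).In C := by
      refine ⟨⋃ n, ({(s n).1, (s n).2.1, (s n).2.2.1} ∪ ↑(s n).2.2.2), countable_iUnion fun n =>
        (Set.toFinite _).countable, iUnion_subset fun n => union_subset (insert_subset (hs n).1
        (insert_subset (hs n).2.1 (singleton_subset_iff.2 (hs n).2.2.1))) (hs n).2.2.2,
        fun n => lcz_mono (subset_iUnion _ n) ⟨by simp, by simp, by simp, subset_union_right⟩⟩
    obtain ⟨b, hb, hb'⟩ := Nec.rg_omega1.bdd_countable (s := r '' C)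
      (by rintro _ ⟨x, hx, rfl⟩; exact (hr x (hC1 hx)).1) (hC.image r)
    refine subset_trans ?_ (subset_biUnion_of_mem (u := Z) hb)
    rw [hZ]
    have h3 : ∀ n, (s n).In (⋃ β ∈ Iio b, Z β) := fun n => lcz_mono (fun x hx =>
      mem_biUnion (mem_Iio.2 (hb' _ (mem_image_of_mem r hx))) (hr x (hC1 hx)).2) (hC2 n)
    exact fun x hx => Or.inr (mem_iUnion₂.2 ⟨s, h3, hx⟩)

/-- The closure properties used in the covering argument; `θ` is the successor of the size. -/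
structure GoodZ (θ τ : Ordinal.{u}) (Z : Set Ordinal.{u}) : Prop where
  sub : Z ⊆ Iio τ
  small : #Z < Cardinal.lift.{u + 1} θ.card
  closed : HClosed τ Z
  succ : ∀ x ∈ Z, x + 1 < τ → x + 1 ∈ Z
  omega : Iic ω ⊆ Z
  down : ∀ β ∈ Z, β < θ → Iio β ⊆ Z
  onm : ∀ ξ ∈ Z, onm ξ < τ → onm ξ ∈ Z
  nxt : ∀ ξ ∈ Z, nxt ξ < τ → nxt ξ ∈ Z
  supp : ∀ η ∈ Z, ∀ γ ∈ Z, ∀ q : Finset Ordinal.{u}, ↑q ⊆ Z → ∀ y ∈ Z, y ∈ hl η γ q →
    ∃ a : Finset Ordinal.{u}, ↑a ⊆ Z ∧ ↑a ⊆ Iio γ ∧ Hull η (↑a ∪ ↑q) y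
  og : ∀ η ∈ Z, ∀ γ ∈ Z, ∀ q : Finset Ordinal.{u}, ↑q ⊆ Z → og η γ q ∈ Z
  sg : ∀ η ∈ Z, ∀ γ ∈ Z, ∀ q : Finset Ordinal.{u}, ↑q ⊆ Z → ∀ x < Lc.og η γ q,
    (x ∈ Z ↔ sg η γ q x ∈ Z)
  gap : ∀ η ∈ Z, ∀ γ ∈ Z, ∀ q : Finset Ordinal.{u}, ↑q ⊆ Z → (∃ y < η, y ∉ hl η γ q) →
    ∃ y ∈ Z, y < η ∧ y ∉ hl η γ q
  sup : ∀ η ∈ Z, ∀ γ ∈ Z, ∀ q : Finset Ordinal.{u}, ↑q ⊆ Z → ∀ k ∈ Z,
    sInf {β | ∀ x ∈ hl η γ q, x < k → x < β} ∈ Z
  bad : ∀ y ∈ Z, ∀ η < τ,
    IsLeast {η | 0 < η ∧ (∀ β < η, ∃ ξ ∈ cs y, β < ξ ∧ ξ < η) ∧ η ∉ cs y} η → η ∈ Z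
  regIn : ∀ y ∈ Z, ∀ η < τ, IsLeast {η | η ∈ cs y ∧ Reg η} η → η ∈ Z
  regAbove : ∀ β ∈ Z, ∀ η < τ, IsLeast {η | β < η ∧ Reg η} η → η ∈ Z
  seq : ∀ s : ℕ → Pa.{u}, (∀ n, (s n).In Z) →
    (∃ x : ℕ → Ordinal.{u}, ∀ n, x n < (s n).1 ∧
      x (n + 1) < Lc.sg (s n).2.1 (s n).2.2.1 (s n).2.2.2 (x n)) →
    ∃ x : ℕ → Ordinal.{u}, ∀ n, x n ∈ Z ∧ x n < (s n).1 ∧
      x (n + 1) < Lc.sg (s n).2.1 (s n).2.2.1 (s n).2.2.2 (x n)

theorem exists_goodZ {ν : Cardinal.{u}} (h0 : ℵ₁ ≤ ν) (hν : ν ^ ℵ₀ = ν) {τ : Ordinal.{u}}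
    (hτ : (Order.succ ν).ord ≤ τ) {Y : Set Ordinal.{u}} (hY : Y ⊆ Iio τ)
    (hc : #Y ≤ Cardinal.lift.{u + 1} ν) : ∃ Z, Y ⊆ Z ∧ GoodZ (Order.succ ν).ord τ Z := by
  have hμ : ℵ₀ ≤ Cardinal.lift.{u + 1} ν := aleph0_le_lift.2 (aleph0_le_aleph 1 |>.trans h0)
  have hν1 : ν.ord < τ := (ord_lt_ord.2 (Order.lt_succ ν)).trans_le hτ
  have hω : ω < ν.ord := by
    rw [lt_ord, card_omega0]
    exact aleph0_lt_aleph_one.trans_le h0
  choose sp hsp using fun p : Pa.{u} => lcz_pick fun a : Finset Ordinal.{u} =>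
    ↑a ⊆ Iio p.2.1 ∧ Hull p.1 (↑a ∪ ↑p.2.2.2) p.2.2.1
  choose gp hgp using fun p : Pa.{u} => lcz_pick fun y => y < p.1 ∧ y ∉ hl p.1 p.2.1 p.2.2.2
  choose sq hsq using fun s : ℕ → Pa.{u} => lcz_pick fun x : ℕ → Ordinal.{u} =>
    ∀ n, x n < (s n).1 ∧ x (n + 1) < sg (s n).2.1 (s n).2.2.1 (s n).2.2.2 (x n)
  obtain ⟨C, hC, c1, c2, c3, c4, c5, c6, c7⟩ : ∃ C : Pa.{u} → Set Ordinal.{u},
      (∀ p, (C p).Countable) ∧ (∀ p x, Hull τ ↑p.2.2.2 x → x ∈ C p) ∧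
      (∀ p, {p.1 + 1, onm p.1, nxt p.1, og p.1 p.2.1 p.2.2.2, sg p.1 p.2.1 p.2.2.2 p.2.2.1, gp p,
        sInf {β | ∀ x ∈ hl p.1 p.2.1 p.2.2.2, x < p.2.2.1 → x < β}} ⊆ C p) ∧
      (∀ p, ↑(sp p) ⊆ C p) ∧ (∀ p x, sg p.1 p.2.1 p.2.2.2 x = p.2.2.1 → x ∈ C p) ∧
      (∀ p x, IsLeast {η | 0 < η ∧ (∀ β < η, ∃ ξ ∈ cs p.1, β < ξ ∧ ξ < η) ∧ η ∉ cs p.1} x →
        x ∈ C p) ∧ (∀ p x, IsLeast {η | η ∈ cs p.1 ∧ Reg η} x → x ∈ C p) ∧
      ∀ p x, IsLeast {η | p.1 < η ∧ Reg η} x → x ∈ C p := by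
    refine ⟨fun p => _ ∪ (_ ∪ (_ ∪ (_ ∪ (_ ∪ (_ ∪ _))))), fun p =>
      (Hull.countable τ p.2.2.2.countable_toSet).union ((Set.toFinite
        {p.1 + 1, onm p.1, nxt p.1, og p.1 p.2.1 p.2.2.2, sg p.1 p.2.1 p.2.2.2 p.2.2.1, gp p,
          sInf {β | ∀ x ∈ hl p.1 p.2.1 p.2.2.2, x < p.2.2.1 → x < β}}).countable.union
        ((sp p).countable_toSet.union ((Set.Subsingleton.countable
          (s := {x | sg p.1 p.2.1 p.2.2.2 x = p.2.2.1}) fun _ h _ h' =>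
            en_strictMono.injective (h.trans h'.symm)).union ((lcz_least
          {η | 0 < η ∧ (∀ β < η, ∃ ξ ∈ cs p.1, β < ξ ∧ ξ < η) ∧ η ∉ cs p.1}).union
          ((lcz_least {η | η ∈ cs p.1 ∧ Reg η}).union (lcz_least {η | p.1 < η ∧ Reg η})))))),
      fun p x h => .inl h, fun p x h => .inr (.inl h), fun p x h => .inr (.inr (.inl h)),
      fun p x h => .inr (.inr (.inr (.inl h))), fun p x h => .inr (.inr (.inr (.inr (.inl h)))),
      fun p x h => .inr (.inr (.inr (.inr (.inr (.inl h))))),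
      fun p x h => .inr (.inr (.inr (.inr (.inr (.inr h)))))⟩
  obtain ⟨Z, z1, z2, z3, z4⟩ := exists_Z h0 hν τ
    (fun s => (C (s 0) ∪ range (sq s)) ∪ {x | x < (s 0).1 ∧ (s 0).1 < (Order.succ ν).ord})
    (fun s => by
      refine (mk_union_le _ _).trans (Cardinal.add_le_of_le hμ ((le_aleph0_iff_set_countable.2
        ((hC _).union (countable_range _))).trans hμ) ?_)
      by_cases h : (s 0).1 < (Order.succ ν).ord
      · refine (mk_le_mk_of_subset (t := Iio (s 0).1) fun x hx => hx.1).trans ?_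
        rw [Cardinal.mk_Iio_ordinal, Cardinal.lift_le]
        exact Order.lt_succ_iff.1 (lt_ord.1 h)
      · simp [h])
    (Y := Y ∪ Iio ν.ord) (union_subset hY (Iio_subset_Iio hν1.le))
    ((mk_union_le _ _).trans (Cardinal.add_le_of_le hμ hc
      (by rw [Cardinal.mk_Iio_ordinal, card_ord])))
  have hw : Iic ω ⊆ Z := fun x hx => z1 (.inr (lt_of_le_of_lt hx hω))
  have h00 : (0 : Ordinal.{u}) ∈ Z := hw (mem_Iic.2 zero_le)
  have k : ∀ {η γ y x : Ordinal.{u}} {q : Finset Ordinal.{u}}, η ∈ Z → γ ∈ Z → y ∈ Z → ↑q ⊆ Z →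
      x ∈ C (η, γ, y, q) → x < τ → x ∈ Z := fun h1 h2 h3 h4 h5 h6 =>
    z4 (fun _ => (_, _, _, _)) (fun _ => ⟨h1, h2, h3, h4⟩) ⟨.inl (.inl h5), h6⟩
  have k1 : ∀ {η x : Ordinal.{u}}, η ∈ Z → x ∈ C (η, 0, 0, ∅) → x < τ → x ∈ Z := fun h1 =>
    k h1 h00 h00 (by simp)
  refine ⟨Z, subset_union_left.trans z1,
    { sub := z2
      small := by rw [card_ord]; exact z3.trans_lt (Cardinal.lift_lt.2 (Order.lt_succ ν))
      closed := fun x hx => ?_
      succ := fun x hx => k1 hx (c2 _ (by simp))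
      omega := hw
      down := fun β hβ h x hx => z4 (fun _ => (β, 0, 0, ∅)) (fun _ => ⟨hβ, h00, h00, by simp⟩)
        ⟨.inr ⟨hx, h⟩, mem_Iio.2 ((mem_Iio.1 hx).trans (z2 hβ))⟩
      onm := fun x hx => k1 hx (c2 _ (by simp))
      nxt := fun x hx => k1 hx (c2 _ (by simp))
      supp := fun η hη γ hγ q hq y hy h => ?_
      og := fun η hη γ hγ q hq => k hη hγ h00 hq (c2 _ (by simp)) (ot_le.trans_lt (z2 hη))
      sg := fun η hη γ hγ q hq x hx => ⟨fun h => k hη hγ h hq (c2 _ (by simp))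
        ((en_lt_iff.2 hx).trans (z2 hη)), fun h => k hη hγ h hq (c4 _ _ rfl)
        (hx.trans (ot_le.trans_lt (z2 hη)))⟩
      gap := fun η hη γ hγ q hq h => ⟨gp (η, γ, 0, q), k hη hγ h00 hq (c2 _ (by simp))
        ((hgp (η, γ, 0, q) h).1.trans (z2 hη)), hgp (η, γ, 0, q) h⟩
      sup := fun η hη γ hγ q hq y hy => k hη hγ hy hq (c2 _ (by simp))
        ((csInf_le' fun _ _ h => h).trans_lt (z2 hy))
      bad := fun y hy η h h' => k1 hy (c5 _ _ h') h
      regIn := fun y hy η h h' => k1 hy (c6 _ _ h') h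
      regAbove := fun y hy η h h' => k1 hy (c7 _ _ h') h
      seq := fun s hs h => ⟨sq s, fun n => ⟨z4 s hs ⟨.inl (.inr (mem_range_self n)),
        (hsq s h n).1.trans (z2 (hs n).1)⟩, hsq s h n⟩⟩ }⟩
  · obtain ⟨a, ha, -, h⟩ := hx.finite
    exact k h00 h00 h00 ha (c1 _ _ h) h.lt
  · obtain ⟨h1, h2⟩ := hsp (η, γ, y, q) (Hull.finite_union h)
    exact ⟨sp (η, γ, y, q), fun x hx => k hη hγ hy hq (c3 _ hx) ((h1 hx).trans (z2 hγ)), h1, h2⟩

end Pool.Agent.Lib.MP_0fa4a2_gt.Lc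
end

-- part Pool.Agent.Lib.MP_0fa4a2_gt.LcTrans
section

/-!
Transfer of hulls and their enumerations along the inverse collapse of a good hull.
-/

namespace Pool.Agent.Lib.MP_0fa4a2_gt.Lc

open Set Cardinal Ordinal

universe u

namespace GoodZ

variable {θ τ η γ x : Ordinal.{u}} {Z : Set Ordinal.{u}} {q : Finset Ordinal.{u}}

theorem emb (h : GoodZ θ τ Z) : Emb (en Z τ) (ot Z τ) := condense h.closed

theorem trans_pre (h : GoodZ θ τ Z) {y : Ordinal.{u}} (hy : y ∈ Z) :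
    ∃ x < ot Z τ, en Z τ x = y := en_surj hy (h.sub hy)

theorem trans_image (hq : ∀ y ∈ q, y < ot Z τ) :
    (↑(q.image (en Z τ)) : Set Ordinal.{u}) ⊆ Z := by
  intro y hy
  obtain ⟨a, ha, rfl⟩ := Finset.mem_image.1 (Finset.mem_coe.1 hy)
  exact en_mem (hq a ha)

theorem limit (h : GoodZ θ τ Z) (hτ : ∀ ξ < τ, ξ + 1 < τ) : ∀ ξ < ot Z τ, ξ + 1 < ot Z τ := by
  intro ξ hξ
  have h1 : en Z τ ξ + 1 < τ := hτ _ (en_lt_iff.2 hξ)
  have h2 : en Z τ ξ + 1 ∈ Z := h.succ _ (en_mem hξ) h1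
  obtain ⟨x, hx, hxe⟩ := h.trans_pre h2
  have h4 : ξ < x := by
    apply (en_strictMono (X := Z) (δ := τ)).lt_iff_lt.1
    rw [hxe]
    exact Order.lt_add_one_iff.2 le_rfl
  exact lt_of_le_of_lt (Order.add_one_le_of_lt h4) hx

theorem mem_hl (h : GoodZ θ τ Z) (hη : η < ot Z τ) (hγ : γ < ot Z τ) (hq : ∀ y ∈ q, y < ot Z τ)
    (hx : x < ot Z τ) :
    en Z τ x ∈ hl (en Z τ η) (en Z τ γ) (q.image (en Z τ)) ↔ x ∈ hl η γ q := by
  have hm := en_strictMono (X := Z) (δ := τ)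
  constructor
  · intro hy
    obtain ⟨a, haZ, haγ, hH⟩ := h.supp _ (en_mem hη) _ (en_mem hγ) _ (trans_image hq) _
      (en_mem hx) hy
    obtain ⟨x', hx', he⟩ := h.emb.hull_pull (A := Iio γ ∪ ↑q) hη (by
      intro b hb hbη
      rcases hb with hb | hb
      · obtain ⟨a', _, rfl⟩ := h.trans_pre (haZ hb)
        exact ⟨a', Hull.base (Or.inl (hm.lt_iff_lt.1 (haγ hb))) (hm.lt_iff_lt.1 hbη), rfl⟩
      · obtain ⟨a', ha', rfl⟩ := Finset.mem_image.1 (Finset.mem_coe.1 hb)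
        exact ⟨a', Hull.base (Or.inr (Finset.mem_coe.2 ha')) (hm.lt_iff_lt.1 hbη), rfl⟩) hH
    have : x' = x := hm.injective he
    subst this
    exact hx'
  · intro hy
    refine h.emb.hull_map hη.le (fun z hz => hm hz) ?_ hy
    intro a ha haη
    refine Hull.base ?_ (hm haη)
    rcases ha with ha | ha
    · exact Or.inl (hm ha)
    · exact Or.inr (Finset.mem_coe.2 (Finset.mem_image_of_mem _ (Finset.mem_coe.1 ha)))

theorem og_eq (h : GoodZ θ τ Z) (hη : η < ot Z τ) (hγ : γ < ot Z τ) (hq : ∀ y ∈ q, y < ot Z τ) :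
    Lc.og (en Z τ η) (en Z τ γ) (q.image (en Z τ)) = en Z τ (Lc.og η γ q) ∧
      ∀ x < Lc.og η γ q, Lc.sg (en Z τ η) (en Z τ γ) (q.image (en Z τ)) (en Z τ x) =
        en Z τ (Lc.sg η γ q x) := by
  have hm := en_strictMono (X := Z) (δ := τ)
  have hηZ : en Z τ η ∈ Z := en_mem hη
  have hγZ : en Z τ γ ∈ Z := en_mem hγ
  have hqZ := trans_image (Z := Z) (τ := τ) hq
  obtain ⟨z, hz, hze⟩ := h.trans_pre (h.og _ hηZ _ hγZ _ hqZ)
  set g : Ordinal.{u} → Ordinal.{u} := fun x => Function.invFun (en Z τ)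
    (Lc.sg (en Z τ η) (en Z τ γ) (q.image (en Z τ)) (en Z τ x)) with hg
  have hlt : ∀ x < z, en Z τ x < Lc.og (en Z τ η) (en Z τ γ) (q.image (en Z τ)) := by
    intro x hx
    rw [← hze]
    exact hm hx
  have hge : ∀ x < z, en Z τ (g x) =
      Lc.sg (en Z τ η) (en Z τ γ) (q.image (en Z τ)) (en Z τ x) := by
    intro x hx
    have h1 := (h.sg _ hηZ _ hγZ _ hqZ _ (hlt x hx)).1 (en_mem (hx.trans hz))
    obtain ⟨y, _, hy⟩ := h.trans_pre h1
    exact Function.invFun_eq ⟨y, hy⟩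
  have hmono : StrictMonoOn g (Iio z) := by
    intro a ha b hb hab
    apply hm.lt_iff_lt.1
    rw [hge a ha, hge b hb]
    exact en_strictMono (hm hab)
  have him : g '' Iio z = hl η γ q ∩ Iio η := by
    apply Set.Subset.antisymm
    · rintro _ ⟨x, hx, rfl⟩
      have h1 : en Z τ (g x) < en Z τ η := by
        rw [hge x hx]
        exact en_lt_iff.2 (hlt x hx)
      have h2 : g x < η := hm.lt_iff_lt.1 h1
      refine ⟨(h.mem_hl hη hγ hq (h2.trans hη)).1 ?_, h2⟩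
      rw [hge x hx]
      exact en_mem (hlt x hx)
    · rintro y ⟨hy, hyη⟩
      have hyη' : y < η := hyη
      have h1 := (h.mem_hl hη hγ hq (hyη'.trans hη)).2 hy
      obtain ⟨w, hw, hwe⟩ := en_surj h1 (hm hyη')
      have hwZ : w ∈ Z := by
        refine (h.sg _ hηZ _ hγZ _ hqZ w hw).2 ?_
        have : Lc.sg (en Z τ η) (en Z τ γ) (q.image (en Z τ)) w = en Z τ y := hwe
        rw [this]
        exact en_mem (hyη'.trans hη)
      obtain ⟨x, _, rfl⟩ := h.trans_pre hwZ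
      have hxz : x < z := by
        apply hm.lt_iff_lt.1
        rw [hze]
        exact hw
      refine ⟨x, hxz, hm.injective ?_⟩
      rw [hge x hxz]
      exact hwe
  obtain ⟨h1, h2⟩ := en_unique hmono him
  have h3 : z = Lc.og η γ q := h1
  refine ⟨by rw [← hze, h3], ?_⟩
  intro x hx
  have hxz : x < z := h3 ▸ hx
  rw [← hge x hxz, h2 x hxz]
  rfl

theorem sound (h : GoodZ θ τ Z) (hη : η < ot Z τ) (hγ : γ < ot Z τ) (hq : ∀ y ∈ q, y < ot Z τ)
    (hs : Iio η ⊆ hl η γ q) : Iio (en Z τ η) ⊆ hl (en Z τ η) (en Z τ γ) (q.image (en Z τ)) := by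
  have hm := en_strictMono (X := Z) (δ := τ)
  intro y hy
  by_contra hn
  obtain ⟨y', hyZ, hyη, hyn⟩ := h.gap _ (en_mem hη) _ (en_mem hγ) _ (trans_image hq) ⟨y, hy, hn⟩
  obtain ⟨x, hx, rfl⟩ := h.trans_pre hyZ
  exact hyn ((h.mem_hl hη hγ hq hx).2 (hs (hm.lt_iff_lt.1 hyη)))

end GoodZ

end Pool.Agent.Lib.MP_0fa4a2_gt.Lc
end

-- part Pool.Agent.Lib.MP_0fa4a2_gt.LcLim
section

/-!
Well-founded direct limits.
-/

namespace Pool.Agent.Lib.MP_0fa4a2_gt.Lc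

open Set Cardinal Ordinal

universe u v

theorem exists_rank {D : Type v} [Small.{u} D] (r : D → D → Prop) (wf : WellFounded r)
    (tr : ∀ a b c, r a b → r b c → r a c) (neg : ∀ a b c, r a c → r a b ∨ r b c) :
    ∃ (ρ : D → Ordinal.{u}) (δ : Ordinal.{u}), (∀ a b, ρ a < ρ b ↔ r a b) ∧ range ρ = Iio δ := by
  let e := equivShrink.{u} D
  let r' : Shrink.{u} D → Shrink.{u} D → Prop := fun a b => r (e.symm a) (e.symm b)
  have : IsWellFounded _ r' := ⟨InvImage.wf e.symm wf⟩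
  have hlt : ∀ a b, r a b → IsWellFounded.rank r' (e a) < IsWellFounded.rank r' (e b) :=
    fun a b h => IsWellFounded.rank_lt_of_rel (by simpa only [r', Equiv.symm_apply_apply] using h)
  refine ⟨fun a => IsWellFounded.rank r' (e a), ⨆ a, (IsWellFounded.rank r' (e a) + 1),
    fun a b => ⟨fun h => ?_, hlt a b⟩, ?_⟩
  · beta_reduce at h
    rw [IsWellFounded.rank_eq r' (e b), Ordinal.lt_iSup_iff] at h
    obtain ⟨⟨c, hc⟩, h⟩ := h
    rw [Order.lt_succ_iff] at h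
    have hc' : r (e.symm c) b := by simpa only [r', Equiv.symm_apply_apply] using hc
    rcases neg _ a _ hc' with h' | h'
    · have := hlt _ _ h'
      rw [Equiv.apply_symm_apply] at this
      exact absurd h (not_le.mpr this)
    · exact h'
  · ext y
    rw [mem_Iio, Ordinal.lt_iSup_add_one_iff]
    constructor
    · rintro ⟨a, rfl⟩
      exact ⟨a, le_rfl⟩
    · rintro ⟨a, h⟩
      obtain ⟨b, hb⟩ := IsWellFounded.mem_range_rank_of_le h
      exact ⟨e.symm b, by simpa only [Equiv.apply_symm_apply] using hb⟩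

open Classical in
/-- The image of a location under a map of ordinals. -/
noncomputable def limT (f : Ordinal.{u} → Ordinal.{u}) (t : Tp.{u}) : Tp.{u} :=
  ⟨f t.l, t.φ, t.v.mapRange (fun z => if z = 0 then 0 else f z) (if_pos rfl)⟩

theorem limT_v {f : Ordinal.{u} → Ordinal.{u}} (h0 : f 0 = 0) (t : Tp.{u}) (n : ℕ) :
    (limT f t).v n = f (t.v n) := by
  simp only [limT, Finsupp.mapRange_apply]
  split_ifs with h
  · rw [h, h0]
  · rfl

theorem limT_lt {f : Ordinal.{u} → Ordinal.{u}} {ζ : Ordinal.{u}} (hf : StrictMonoOn f (Iio ζ))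
    (h0 : f 0 = 0) {s t : Tp.{u}} (hs : s.l < ζ ∧ ∀ n, s.v n < ζ) (ht : t.l < ζ ∧ ∀ n, t.v n < ζ)
    (h : s < t) : limT f s < limT f t := by
  rw [Tp.lt_iff] at h ⊢
  rcases h with h | ⟨h, h'⟩
  · exact Or.inl (hf hs.1 ht.1 h)
  · refine Or.inr ⟨congrArg f h, ?_⟩
    rcases h' with h' | ⟨h', i, h1, h2⟩
    · exact Or.inl h'
    · refine Or.inr ⟨h', i, fun j hj => ?_, ?_⟩
      · rw [limT_v h0, limT_v h0, h1 j hj]
      · rw [limT_v h0, limT_v h0]
        exact hf (hs.2 i) (ht.2 i) h2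

theorem limT_lt_iff {f : Ordinal.{u} → Ordinal.{u}} {ζ : Ordinal.{u}}
    (hf : StrictMonoOn f (Iio ζ)) (h0 : f 0 = 0) {s t : Tp.{u}} (hs : s.l < ζ ∧ ∀ n, s.v n < ζ)
    (ht : t.l < ζ ∧ ∀ n, t.v n < ζ) : limT f s < limT f t ↔ s < t := by
  refine ⟨fun h => ?_, limT_lt hf h0 hs ht⟩
  rcases lt_trichotomy s t with h' | h' | h'
  · exact h'
  · rw [h'] at h
    exact absurd h (lt_irrefl _)
  · exact absurd h (limT_lt hf h0 ht hs h').not_gt

theorem lim_dec_lt {x ζ : Ordinal.{u}} (hx : x < ζ) : (dec x).l < ζ ∧ ∀ n, (dec x).v n < ζ :=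
  ⟨(lev_le x).trans_lt hx, fun n => (env_le x n).trans_lt hx⟩

theorem emb_of_union {I : Type v} [Preorder I] (dir : ∀ i j : I, ∃ k, i ≤ k ∧ j ≤ k)
    (ζ : I → Ordinal.{u}) (g : I → I → Ordinal.{u} → Ordinal.{u})
    (hg : ∀ i j, i ≤ j → Emb (g i j) (ζ i) ∧ ∀ x < ζ i, g i j x < ζ j)
    (f : I → Ordinal.{u} → Ordinal.{u}) (hf : ∀ i, StrictMonoOn (f i) (Iio (ζ i)))
    (comm : ∀ i j, i ≤ j → ∀ x < ζ i, f j (g i j x) = f i x) (δ : Ordinal.{u})
    (into : ∀ i, ∀ x < ζ i, f i x < δ) (onto : ∀ y < δ, ∃ i, ∃ x < ζ i, f i x = y) (i : I) :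
    Emb (f i) (ζ i) := by
  classical
  have f0 : ∀ i, ∀ x < ζ i, f i 0 = 0 := fun i x hx => by
    have h0 : 0 < ζ i := zero_le.trans_lt hx
    obtain ⟨j, y, hy, e⟩ := onto 0 (zero_le.trans_lt (into i 0 h0))
    obtain ⟨k, hi, hj⟩ := dir i j
    have a := comm i k hi 0 h0
    rw [(hg i k hi).1.zero h0] at a
    have b := (hg j k hj).2 y hy
    have c := (hf k).monotoneOn (show (0 : Ordinal.{u}) ∈ Iio (ζ k) from zero_le.trans_lt b) b
      zero_le
    rw [comm j k hj y hy, e, a] at c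
    exact le_antisymm c zero_le
  have key : ∀ i k, i ≤ k → ∀ x < ζ i, limT (f k) (dec (g i k x)) = limT (f i) (dec x) :=
    fun i k hik x hx => by
      obtain ⟨he, hl⟩ := hg i k hik
      refine Tp.ext ?_ (he.fm x hx) (Finsupp.ext fun n => ?_)
      · show f k (lev (g i k x)) = f i (lev x)
        rw [he.lev x hx, comm i k hik _ ((lev_le x).trans_lt hx)]
      · rw [limT_v (f0 k _ (hl x hx)), limT_v (f0 i x hx)]
        show f k (env (g i k x) n) = f i (env x n)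
        rw [he.env x hx, comm i k hik _ ((env_le x n).trans_lt hx)]
  have common : ∀ s : Finset Ordinal.{u}, (∀ y ∈ s, y < δ) →
      ∃ k, ∀ y ∈ s, ∃ x < ζ k, f k x = y := fun s => by
    induction s using Finset.induction_on with
    | empty => exact fun _ => ⟨i, fun y hy => absurd hy (Finset.notMem_empty y)⟩
    | insert a s _ ih =>
      intro h
      obtain ⟨k, hk⟩ := ih fun y hy => h y (Finset.mem_insert_of_mem hy)
      obtain ⟨j, x, hx, e⟩ := onto a (h a (Finset.mem_insert_self a s))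
      obtain ⟨m, hkm, hjm⟩ := dir k j
      refine ⟨m, fun y hy => ?_⟩
      rcases Finset.mem_insert.mp hy with rfl | hy
      · exact ⟨g j m x, (hg j m hjm).2 x hx, (comm j m hjm x hx).trans e⟩
      · obtain ⟨z, hz, e'⟩ := hk y hy
        exact ⟨g k m z, (hg k m hkm).2 z hz, (comm k m hkm z hz).trans e'⟩
  have : Nonempty I := ⟨i⟩
  choose! ii xx hxx exx using onto
  let d : Ordinal.{u} → Tp.{u} := fun y => limT (f (ii y)) (dec (xx y))
  have hd : ∀ j, ∀ x < ζ j, d (f j x) = limT (f j) (dec x) := fun j x hx => by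
    have hy := into j x hx
    obtain ⟨k, h1, h2⟩ := dir (ii (f j x)) j
    have a := (hg _ k h1).2 _ (hxx _ hy)
    have b := (hg j k h2).2 x hx
    have e : g (ii (f j x)) k (xx (f j x)) = g j k x := (hf k).injOn a b (by
      rw [comm _ k h1 _ (hxx _ hy), comm j k h2 x hx, exx _ hy])
    show limT (f (ii (f j x))) (dec (xx (f j x))) = _
    rw [← key _ k h1 _ (hxx _ hy), e, key j k h2 x hx]
  have hdec : ∀ ξ < δ, d ξ = dec ξ := by
    refine dec_unique (fun y hy y' hy' h => ?_) (fun y hy => ?_) (fun ξ hξ t ht hη hv => ?_)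
    · obtain ⟨k, hk⟩ := common {y, y'} (by
        intro z hz
        rcases Finset.mem_insert.mp hz with rfl | hz
        · exact hy
        · rw [Finset.mem_singleton.mp hz]; exact hy')
      obtain ⟨x, hx, rfl⟩ := hk y (by simp)
      obtain ⟨x', hx', rfl⟩ := hk y' (by simp)
      rw [hd k x hx, hd k x' hx']
      exact limT_lt (hf k) (f0 k x hx) (lim_dec_lt hx) (lim_dec_lt hx')
        (dec_strictMono (((hf k).lt_iff_lt hx hx').mp h))
    · have hx := hxx y hy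
      have e := exx y hy
      generalize ii y = k at hx e
      generalize xx y = x at hx e
      subst e
      have hl : lev x < ζ k := (lev_le x).trans_lt hx
      have h0 := f0 k x hx
      rw [hd k x hx]
      refine ⟨(hf k).monotoneOn hl hx (lev_le x), fun n hn => ?_, ?_⟩
      · rw [limT_v h0] at hn ⊢
        have : env x n ≠ 0 := fun h => hn (by rw [show (dec x).v n = 0 from h, h0])
        exact hf k ((env_le x n).trans_lt hx) hl ((finEnv_env x).2 n this)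
      · show d (f k (lev x)) = ⟨f k (lev x), .bot, 0⟩
        rw [hd k _ hl, dec_lev]
        refine Tp.ext rfl rfl (Finsupp.ext fun n => ?_)
        rw [limT_v h0]
        exact h0
    · obtain ⟨η, hη, hηl⟩ := hη
      have hle : t.l < δ := by
        rw [← hηl]
        exact into _ _ ((lev_le _).trans_lt (hxx η hη))
      obtain ⟨k, hk⟩ := common (insert ξ (insert η (t.v.support.image t.v))) (by
        intro z hz
        rcases Finset.mem_insert.mp hz with rfl | hz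
        · exact hξ
        rcases Finset.mem_insert.mp hz with rfl | hz
        · exact hη
        obtain ⟨n, hn, rfl⟩ := Finset.mem_image.mp hz
        exact (hv n (Finsupp.mem_support_iff.mp hn)).trans hle)
      obtain ⟨x, hx, rfl⟩ := hk ξ (by simp)
      obtain ⟨e, he, rfl⟩ := hk η (by simp)
      have h0 := f0 k x hx
      have hw : ∀ n, ∃ z < ζ k, f k z = t.v n ∧ (t.v n = 0 → z = 0) := fun n => by
        by_cases hn : t.v n = 0
        · exact ⟨0, zero_le.trans_lt hx, h0.trans hn.symm, fun _ => rfl⟩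
        · obtain ⟨z, hz, ez⟩ := hk (t.v n) (Finset.mem_insert_of_mem (Finset.mem_insert_of_mem
            (Finset.mem_image_of_mem _ (Finsupp.mem_support_iff.mpr hn))))
          exact ⟨z, hz, ez, fun h => absurd h hn⟩
      choose w hw1 hw2 hw3 using hw
      have hel : lev e < ζ k := (lev_le e).trans_lt he
      rw [hd k e he] at hηl
      let t0 : Tp.{u} := ⟨lev e, t.φ, Finsupp.onFinset t.v.support w fun n hn =>
        Finsupp.mem_support_iff.mpr fun h => hn (hw3 n h)⟩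
      have et : limT (f k) t0 = t := Tp.ext hηl rfl (Finsupp.ext fun n => by
        rw [limT_v h0]
        exact hw2 n)
      rw [hd k x hx, ← et, limT_lt_iff (hf k) h0 (s := t0) ⟨hel, hw1⟩ (lim_dec_lt hx)] at ht
      obtain ⟨η0, h1, h2⟩ := dec_down ht (isLev_lev e) fun n hn => by
        have a : t.v n < t.l := hv n fun h => hn (hw3 n h)
        rw [← hw2 n, ← hηl] at a
        exact ((hf k).lt_iff_lt (hw1 n) hel).mp a
      exact ⟨f k η0, hf k (h1.trans hx) hx h1, by rw [hd k η0 (h1.trans hx), h2, et]⟩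
  have hh : ∀ j, ∀ x < ζ j, dec (f j x) = limT (f j) (dec x) := fun j x hx => by
    rw [← hdec _ (into j x hx), hd j x hx]
  refine emb_of_family (range fun j => (f j, ζ j)) ?_ ?_ (f i, ζ i) ⟨i, rfl⟩
  · rintro _ ⟨j, rfl⟩
    refine ⟨hf j, f0 j 0, fun x hx => congrArg Tp.l (hh j x hx),
      fun x hx => (congrArg Tp.φ (hh j x hx)).trans rfl, fun x hx n => ?_⟩
    show (dec (f j x)).v n = _
    rw [hh j x hx, limT_v (f0 j x hx)]
    rfl
  · rintro _ ⟨j, rfl⟩ x hx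
    have hs : sk (f j x) < δ := (sk_le _).trans_lt (into j x hx)
    obtain ⟨k, h1, h2⟩ := dir j (ii (sk (f j x)))
    refine ⟨(f k, ζ k), ⟨k, rfl⟩, g j k, (hg j k h1).1,
      fun y hy => ⟨(hg j k h1).2 y hy, (comm j k h1 y hy).symm⟩, _,
      (hg _ k h2).2 _ (hxx _ hs), ?_⟩
    exact ((comm _ k h2 _ (hxx _ hs)).trans (exx _ hs)).symm

theorem exists_limit {I : Type v} [Small.{u} I] [Preorder I] (dir : ∀ i j : I, ∃ k, i ≤ k ∧ j ≤ k)
    (ζ γ : I → Ordinal.{u}) (g : I → I → Ordinal.{u} → Ordinal.{u})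
    (hg : ∀ i j, i ≤ j → Emb (g i j) (ζ i) ∧ ∀ x < ζ i, g i j x < ζ j)
    (func : ∀ i j k, i ≤ j → j ≤ k → ∀ x < ζ i, g j k (g i j x) = g i k x)
    (hγ : ∀ i, γ i ≤ ζ i) (hγm : ∀ i j, i ≤ j → γ i ≤ γ j)
    (hid : ∀ i j, i ≤ j → ∀ x < γ i, g i j x = x)
    (wf : ¬ ∃ (i : ℕ → I) (x : ℕ → Ordinal.{u}), ∀ n, i n ≤ i (n + 1) ∧ x n < ζ (i n) ∧
      x (n + 1) < g (i n) (i (n + 1)) (x n)) :
    ∃ (f : I → Ordinal.{u} → Ordinal.{u}) (δ : Ordinal.{u}), (∀ i, Emb (f i) (ζ i)) ∧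
      (∀ i, ∀ x < ζ i, f i x < δ) ∧ (∀ i j, i ≤ j → ∀ x < ζ i, f j (g i j x) = f i x) ∧
      ∀ i, ∀ x < γ i, f i x = x := by
  classical
  let D := Σ i : I, Iio (ζ i)
  let r : D → D → Prop := fun a b => ∃ k, a.1 ≤ k ∧ b.1 ≤ k ∧ g a.1 k a.2 < g b.1 k b.2
  have ind : ∀ a b : D, r a b → ∀ k, a.1 ≤ k → b.1 ≤ k → g a.1 k a.2 < g b.1 k b.2 := by
    rintro a b ⟨k, h1, h2, h⟩ k' h1' h2'
    obtain ⟨m, hk, hk'⟩ := dir k k'
    have e := (hg k m hk).1.mono ((hg _ k h1).2 _ a.2.2) ((hg _ k h2).2 _ b.2.2) h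
    rw [func _ k m h1 hk _ a.2.2, func _ k m h2 hk _ b.2.2, ← func _ k' m h1' hk' _ a.2.2,
      ← func _ k' m h2' hk' _ b.2.2] at e
    exact ((hg k' m hk').1.mono.lt_iff_lt ((hg _ k' h1').2 _ a.2.2)
      ((hg _ k' h2').2 _ b.2.2)).mp e
  have dir3 : ∀ a b c : I, ∃ k, a ≤ k ∧ b ≤ k ∧ c ≤ k := fun a b c => by
    obtain ⟨k, h1, h2⟩ := dir a b
    obtain ⟨m, h3, h4⟩ := dir k c
    exact ⟨m, h1.trans h3, h2.trans h3, h4⟩
  have rwf : WellFounded r := by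
    rw [wellFounded_iff_isEmpty_descending_chain]
    refine ⟨fun ⟨a, ha⟩ => wf ?_⟩
    choose up h1 h2 using dir
    let k : ℕ → I := fun n => Nat.rec (a 0).1 (fun n p => up p (a (n + 1)).1) n
    have hk : ∀ n, (a n).1 ≤ k n := fun n => by
      cases n with
      | zero => exact le_rfl
      | succ n => exact h2 _ _
    have hk' : ∀ n, k n ≤ k (n + 1) := fun n => h1 _ _
    refine ⟨k, fun n => g (a n).1 (k n) (a n).2, fun n => ⟨hk' n, (hg _ _ (hk n)).2 _ (a n).2.2, ?_⟩⟩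
    rw [func _ _ _ (hk n) (hk' n) _ (a n).2.2]
    exact ind _ _ (ha n) _ (hk (n + 1)) ((hk n).trans (hk' n))
  obtain ⟨ρ, δ, hρ, hr⟩ := exists_rank.{u} r rwf (fun a b c hab hbc => by
      obtain ⟨k, h1, h2, h3⟩ := dir3 a.1 b.1 c.1
      exact ⟨k, h1, h3, (ind a b hab k h1 h2).trans (ind b c hbc k h2 h3)⟩)
    (fun a b c hac => by
      obtain ⟨k, h1, h2, h3⟩ := dir3 a.1 b.1 c.1
      rcases lt_or_ge (g a.1 k a.2) (g b.1 k b.2) with h | h
      · exact Or.inl ⟨k, h1, h2, h⟩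
      · exact Or.inr ⟨k, h2, h3, h.trans_lt (ind a c hac k h1 h3)⟩)
  let f : I → Ordinal.{u} → Ordinal.{u} := fun i x => if h : x < ζ i then ρ ⟨i, x, h⟩ else 0
  have fe : ∀ i x (h : x < ζ i), f i x = ρ ⟨i, x, h⟩ := fun i x h => dif_pos h
  have hf : ∀ i, StrictMonoOn (f i) (Iio (ζ i)) := fun i x hx y hy h => by
    rw [fe i x hx, fe i y hy, hρ]
    exact ⟨i, le_rfl, le_rfl, (hg i i le_rfl).1.mono hx hy h⟩
  have comm : ∀ i j, i ≤ j → ∀ x < ζ i, f j (g i j x) = f i x := fun i j hij x hx => by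
    rw [fe j _ ((hg i j hij).2 x hx), fe i x hx]
    refine le_antisymm (not_lt.mp fun h => ?_) (not_lt.mp fun h => ?_)
    · obtain ⟨k, -, h2, h⟩ := (hρ _ _).mp h
      exact absurd h (func i j k hij h2 x hx).le.not_gt
    · obtain ⟨k, h1, -, h⟩ := (hρ _ _).mp h
      exact absurd h (func i j k hij h1 x hx).ge.not_gt
  have into : ∀ i, ∀ x < ζ i, f i x < δ := fun i x hx => by
    rw [fe i x hx, ← mem_Iio, ← hr]
    exact mem_range_self _
  have onto : ∀ y < δ, ∃ i, ∃ x < ζ i, f i x = y := fun y hy => by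
    rw [← mem_Iio, ← hr] at hy
    obtain ⟨⟨i, x, hx⟩, rfl⟩ := hy
    exact ⟨i, x, hx, fe i x hx⟩
  have emb := emb_of_union dir ζ g hg f hf comm δ into onto
  refine ⟨f, δ, emb, into, comm, fun i x => ?_⟩
  induction x using WellFoundedLT.induction generalizing i with
  | ind x ih =>
    intro hx
    have hxζ : x < ζ i := hx.trans_le (hγ i)
    refine le_antisymm (not_lt.mp fun h => ?_) ((emb i).le_self hxζ)
    obtain ⟨j, z, hz, e⟩ := onto x (h.trans (into i x hxζ))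
    obtain ⟨k, h1, h2⟩ := dir i j
    have hz' := (hg j k h2).2 z hz
    have hxk : x < γ k := hx.trans_le (hγm i k h1)
    have e1 := comm i k h1 x hxζ
    rw [hid i k h1 x hx] at e1
    have e2 := (comm j k h2 z hz).trans e
    have lt : g j k z < x := ((hf k).lt_iff_lt hz' (hxk.trans_le (hγ k))).mp (by
      rw [e2, e1]; exact h)
    rw [ih _ lt k (lt.trans hxk)] at e2
    exact absurd e2 lt.ne

end Pool.Agent.Lib.MP_0fa4a2_gt.Lc
end
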