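import Pool.Agent.Lib.MP_0fa4a2_gt.NecLim
import Pool.Agent.Lib.MP_0fa4a2_gt.NecFodor

-- part Pool.Agent.Lib.MP_0fa4a2_gt.NecBr
section

/-!
The branches that serve as points of the space.
-/

namespace Pool.Agent.Lib.MP_0fa4a2_gt.Nec

open Set

universe u

variable {W M : Type u} [LinearOrder W] [WellFoundedLT W]

namespace Dat

/-- Countable branches along which the height function tends to infinity. -/
def X (D : Dat W M) : Set (Set D.Tr) :=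
  {x | x.Countable ∧ (∀ a ∈ x, ∀ b ∈ x, a ≤ b ∨ b ≤ a) ∧ (∀ a ∈ x, ∀ b, b ≤ a → b ∈ x) ∧
    ∀ ξ n, ∃ s ∈ x, ξ < s.1.a ∨ n < s.1.f ξ}

theorem branches (D : Dat W M) : Branches D.X := by
  refine ⟨fun x hx => hx.2.1, fun x hx => hx.2.2.1, fun x hx => ?_, fun x hx t => ?_⟩
  · obtain ⟨b, -⟩ := D.hW.bdd ∅ countable_empty
    obtain ⟨s, hs, -⟩ := hx.2.2.2 b 0
    exact ⟨s, hs⟩
  · obtain ⟨s, hs, h⟩ := hx.2.2.2 t.1.a (t.1.f t.1.a)
    refine ⟨s, hs, fun hst => ?_⟩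
    rcases h with h | h
    · exact (Tr.a_le hst).not_gt h
    · exact (Tr.f_le hst le_rfl).not_gt h

theorem exists_branch {D : Dat W M} (t : D.Tr) : ∃ x ∈ D.X, t ∈ x := by
  choose pl hpl _ hply using fun (s : D.Tr) (y : M) => ext_plain s y
  choose O hO β hβ using fun s : D.Tr => raise s
  obtain ⟨N, hN, hF, hH⟩ := exists_closed (D := D)
    (fun s y => {D.ι s.1.a, D.cd (pl s y).1, D.ι (β s)} ∪ (fun s' : D.Tr => D.cd s'.1) '' O s)
    (fun s y => (Set.toFinite _).countable.union ((hO s).image _))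
    (fun _ => {D.cd t.1}) (fun _ => countable_singleton _)
  have ht : D.cd t.1 ∈ N := hF ∅ (by simp) rfl
  obtain ⟨α, hα⟩ := D.S_tr N hN
  obtain ⟨R, hR, hRα⟩ := D.e_cnt α
  have h1 : ∀ s : D.Tr, D.cd s.1 ∈ N → s.1.a < α := fun s hs =>
    (hα _).1 (hH s hs _ ht (by simp))
  have h2 : ∀ s : D.Tr, D.cd s.1 ∈ N → β s < α := fun s hs =>
    (hα _).1 (hH s hs _ ht (by simp))
  have h3 : ∀ ρ, α ≤ ρ → ∀ q : D.Tr, D.cd q.1 ∈ N → ∀ n : ℕ,
      ∃ r : D.Tr, D.cd r.1 ∈ N ∧ q ≤ r ∧ n ≤ r.1.f ρ := by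
    intro ρ hρ q hq n
    induction n with
    | zero => exact ⟨q, hq, le_rfl, Nat.zero_le _⟩
    | succ n ih =>
      obtain ⟨r, a1, a2, a3⟩ := ih
      obtain ⟨r', b1, b2, b3⟩ := hβ r ρ ((h2 r a1).le.trans hρ)
      exact ⟨r', hH r a1 _ ht (Or.inr ⟨r', b1, rfl⟩), a2.trans b2, by omega⟩
  obtain ⟨u, u0, um, ud⟩ := book (P := {s : D.Tr // D.cd s.1 ∈ N}) (K := M ⊕ W × ℕ)
    (fun p q => p.1 ≤ q.1) (fun _ => le_rfl) (fun _ _ _ => le_trans)
    (fun _ => Sum.inl '' N ∪ Sum.inr '' ((R ∩ Ici α) ×ˢ univ))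
    (fun _ => ((D.S_cnt N hN).image _).union
      (((hR.mono inter_subset_left).prod countable_univ).image _))
    (fun k p => Sum.elim (fun y => y ∈ p.1.1.N) (fun z : W × ℕ => z.2 < p.1.1.f z.1) k)
    (by
      rintro - _ (⟨y, hy, rfl⟩ | ⟨⟨ρ, n⟩, ⟨⟨-, hρ⟩, -⟩, rfl⟩) q -
      · exact ⟨⟨pl q.1 y, hH q.1 q.2 y hy (by simp)⟩, (hpl q.1 y).le, hply q.1 y⟩
      · obtain ⟨r, a1, a2, a3⟩ := h3 ρ hρ q.1 q.2 (n + 1)
        exact ⟨⟨r, a1⟩, a2, a3⟩) ⟨t, ht⟩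
  refine ⟨⋃ n, {s | s ≤ (u n).1}, ⟨countable_iUnion fun n => Tr.countable_Iic _, ?_, ?_, ?_⟩,
    mem_iUnion.2 ⟨0, by rw [u0]; exact le_refl t⟩⟩
  · intro a ha b hb
    obtain ⟨m, hm⟩ := mem_iUnion.1 ha
    obtain ⟨n, hn⟩ := mem_iUnion.1 hb
    exact isTree a b (u (max m n)).1 (le_trans hm (um _ _ (le_max_left _ _)))
      (le_trans hn (um _ _ (le_max_right _ _)))
  · intro a ha b hb
    obtain ⟨m, hm⟩ := mem_iUnion.1 ha
    exact mem_iUnion.2 ⟨m, le_trans hb hm⟩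
  · intro ξ n
    rcases lt_or_ge ξ α with hξ | hξ
    · obtain ⟨m, -, hm⟩ := ud 0 (Sum.inl (D.ι ξ)) (Or.inl ⟨_, (hα ξ).2 hξ, rfl⟩)
      exact ⟨(u m).1, mem_iUnion.2 ⟨m, le_refl (u m).1⟩, Or.inl (((u m).1.cond.tr ξ).1 hm)⟩
    · obtain ⟨ρ, a1, a2, a3⟩ := hRα ξ hξ
      obtain ⟨m, -, hm⟩ := ud 0 (Sum.inr (ρ, n)) (Or.inr ⟨(ρ, n), ⟨⟨a1, a2⟩, trivial⟩, rfl⟩)
      refine ⟨(u m).1, mem_iUnion.2 ⟨m, le_refl (u m).1⟩, Or.inr ?_⟩
      rw [(u m).1.cond.inv.mono (h1 _ (u m).2).le ξ ρ hξ a2 a3]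
      exact hm

theorem two_branches {D : Dat W M} (t : D.Tr) :
    ∃ x ∈ D.X, ∃ y ∈ D.X, t ∈ x ∧ t ∈ y ∧ x ≠ y := by
  obtain ⟨s, s', h1, h2, h3, h4⟩ := ext_two t
  obtain ⟨x, hx, hs⟩ := exists_branch s
  obtain ⟨y, hy, hs'⟩ := exists_branch s'
  refine ⟨x, hx, y, hy, hx.2.2.1 s hs t h1, hy.2.2.1 s' hs' t h2, ?_⟩
  rintro rfl
  exact (hx.2.1 s hs s' hs').elim h3 h4

theorem sdisc_level (D : Dat W M) (α : W) : SDisc D.X {t | t.1.a = α} := by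
  refine ⟨fun n => {t | t.1.a = α ∧ t.1.f α = n}, fun n => ⟨fun a ha b hb hab => ?_,
    fun x hx => ?_⟩, fun t ht => mem_iUnion.2 ⟨_, ht, rfl⟩⟩
  · by_contra hne
    exact (Tr.a_lt (lt_of_le_of_ne hab hne)).ne (ha.1.trans hb.1.symm)
  · obtain ⟨s, hs, h⟩ := hx.2.2.2 α n
    refine ⟨s, hs, fun a ha hsa => ?_⟩
    rcases h with h | h
    · exact ((Tr.a_le hsa).trans_eq ha.1).not_gt h
    · exact ((Tr.f_le hsa ha.1.le).trans_eq ha.2).not_gt h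

theorem sdisc_notMem (D : Dat W M) (y : M) : SDisc D.X {t | y ∉ t.1.N} := by
  induction y using D.r_wf.induction with
  | _ y ih =>
  by_cases hy : y ∈ range D.ι
  · obtain ⟨ξ, rfl⟩ := hy
    refine (sdisc_biUnion D.branches (J := Iic ξ) ?_ fun α _ => D.sdisc_level α).mono
      fun t ht => mem_biUnion (x := t.1.a) (not_lt.1 fun h => ht ((t.cond.tr ξ).2 h)) rfl
    rw [← Iio_insert]
    exact (D.hW.cnt ξ).insert _
  · refine press_lab isTree D.branches (fun t : D.Tr => t.1.N) (fun t => t.cond.ct.1)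
      (fun a => {y' ∈ D.cand y a | D.r y' y}) (fun a => (D.cand_cnt y a).mono fun _ h => h.1)
      (fun a y' h => ih y' h.2) (fun t ht s hs h => ht (Tr.N_le hs h)) fun t ht hl => ?_
    obtain ⟨a, ha, y', h1, h2, h3⟩ := D.desc _ (Tr.lim hl).1 y hy ht
    obtain ⟨v, hv, h4⟩ := Tr.lim_finset hl ha
    exact ⟨v, hv, a, h4, y', ⟨h1, h2⟩, h3⟩

end Dat

end Pool.Agent.Lib.MP_0fa4a2_gt.Nec
end

-- part Pool.Agent.Lib.MP_0fa4a2_gt.NecTop
section

/-!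
From a tree with a suitable family of branches to the space.
-/

namespace Pool.Agent.Lib.MP_0fa4a2_gt.Nec

open Set TopologicalSpace

universe u

theorem top_perf {Y : Type u} [TopologicalSpace Y]
    (h : ∀ U : Set Y, IsOpen U → ∃ V : ℕ → Set Y, (∀ n, IsClopen (V n)) ∧ ⋃ n, V n = U) :
    PerfectlyNormalSpace Y := by
  have h1 : ∀ s t : Set Y, IsClosed t → Disjoint s t → HasSeparatingCover s t := by
    intro s t ht hd
    obtain ⟨V, h1, h2⟩ := h _ ht.isOpen_compl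
    refine ⟨V, h2 ▸ hd.subset_compl_right, fun n => ⟨(h1 n).isOpen, ?_⟩⟩
    rw [(h1 n).isClosed.closure_eq, ← subset_compl_iff_disjoint_right, ← h2]
    exact subset_iUnion V n
  refine { normal := fun s t hs ht hd => ?_, closed_gdelta := fun s hs => ?_ }
  · exact hasSeparatingCovers_iff_separatedNhds.1 ⟨h1 s t ht hd, h1 t s hs hd.symm⟩
  · obtain ⟨V, h1, h2⟩ := h _ hs.isOpen_compl
    rw [← compl_compl s, ← h2, compl_iUnion]
    exact .iInter_of_isOpen fun n => (h1 n).isClosed.isOpen_compl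

theorem top_met {Y : Type u} [TopologicalSpace Y] [MetrizableSpace Y] :
    ∃ d : Y → Y → ℝ, (∀ x y, x ≠ y → 0 < d x y) ∧
      ∀ x, ∀ ε > 0, ∃ U, IsOpen U ∧ x ∈ U ∧ ∀ y ∈ U, ∀ z ∈ U, d y z < ε := by
  let := metrizableSpaceMetric Y
  refine ⟨dist, fun x y => dist_pos.2, fun x ε hε => ⟨Metric.ball x (ε / 2), Metric.isOpen_ball,
    Metric.mem_ball_self (half_pos hε), fun y hy z hz => ?_⟩⟩
  linarith [dist_triangle_right y z x, Metric.mem_ball.1 hy, Metric.mem_ball.1 hz]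

theorem space_of_tree {T : Type u} [PartialOrder T] [WellFoundedLT T] (hT : IsTree T)
    {X : Set (Set T)} (hX : Branches X) (hc : ∀ x ∈ X, x.Countable)
    (two : ∀ t : T, ∃ x ∈ X, ∃ y ∈ X, t ∈ x ∧ t ∈ y ∧ x ≠ y)
    (nd : ∀ D : Set T, (∀ t ∈ D, ∀ s, s ≤ t → s ∈ D) → (∀ t, ∃ t', t ≤ t' ∧ t' ∉ D) →
      SDisc X {t | ∀ s < t, s ∈ D})
    (baire : ∀ D : ℕ → Set T, (∀ n, ∀ t ∈ D n, ∀ s, s ≤ t → s ∈ D n) →
      (∀ n t, ∃ t', t ≤ t' ∧ t' ∉ D n) → ∃ t, ∀ n, t ∉ D n) :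
    ∃ (Y : Type u) (_ : TopologicalSpace Y), T1Space Y ∧ PerfectlyNormalSpace Y ∧
      (∃ B : Set (Set Y), IsTopologicalBasis B ∧ (∀ p, IsChain (· ⊆ ·) {b ∈ B | p ∈ b}) ∧
        ∀ p, {b ∈ B | p ∈ b}.Countable) ∧ ¬ MetrizableSpace Y := by
  let B : T → Set X := fun t => {x | t ∈ x.1}
  let τ : TopologicalSpace X := generateFrom (range B)
  have anti : ∀ {s t : T}, s ≤ t → B t ⊆ B s := fun h x hx => hX.lower _ x.2 _ hx _ h
  have cmp : ∀ {s t : T} {x : X}, x ∈ B s → x ∈ B t → s ≤ t ∨ t ≤ s := fun {s t x} h h' =>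
    hX.chain _ x.2 s h t h'
  have hB : IsTopologicalBasis (range B) := by
    refine ⟨?_, eq_univ_of_forall fun x => ?_, rfl⟩
    · rintro _ ⟨s, rfl⟩ _ ⟨t, rfl⟩ x ⟨h, h'⟩
      rcases cmp h h' with e | e
      · exact ⟨_, ⟨t, rfl⟩, h', subset_inter (anti e) Subset.rfl⟩
      · exact ⟨_, ⟨s, rfl⟩, h, subset_inter Subset.rfl (anti e)⟩
    · obtain ⟨s, hs⟩ := hX.ne _ x.2
      exact ⟨_, ⟨s, rfl⟩, hs⟩
  have op : ∀ t, IsOpen (B t) := fun t => hB.isOpen ⟨t, rfl⟩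
  have ext : ∀ {U : Set X}, IsOpen U → ∀ t, ∀ x ∈ U, x ∈ B t → ∃ s, t ≤ s ∧ B s ⊆ U := by
    intro U hU t x h h'
    obtain ⟨_, ⟨s, rfl⟩, h1, h2⟩ := hB.exists_subset_of_mem_open h hU
    rcases cmp h1 h' with e | e
    · exact ⟨t, le_rfl, (anti e).trans h2⟩
    · exact ⟨s, e, h2⟩
  refine ⟨X, τ, t1Space_iff_exists_open.2 fun x y hxy => ?_, top_perf fun U hU => ?_,
    ⟨range B, hB, fun p => ?_, fun p => ?_⟩, fun hm => ?_⟩
  · by_contra hn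
    have h1 : x.1 ⊆ y.1 := fun t ht => by_contra fun h => hn ⟨B t, op t, ht, h⟩
    obtain ⟨a, h2, h3⟩ := exists_of_ssubset (h1.ssubset_of_ne fun e => hxy (Subtype.ext e))
    obtain ⟨s, h4, h5⟩ := hX.unb _ x.2 a
    exact h3 (hX.lower _ x.2 s h4 a ((hX.chain _ y.2 s (h1 h4) a h2).resolve_left h5))
  · obtain ⟨A, h1, h2⟩ := nd {t | ¬ B t ⊆ U ∧ (B t ∩ U).Nonempty}
      (fun t ht s e => ⟨fun h => ht.1 ((anti e).trans h),
        ht.2.mono (inter_subset_inter_left _ (anti e))⟩)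
      fun t => by
        by_cases ht : (B t ∩ U).Nonempty
        · obtain ⟨x, h, h'⟩ := ht
          obtain ⟨s, e, h3⟩ := ext hU t x h' h
          exact ⟨s, e, fun h4 => h4.1 h3⟩
        · exact ⟨t, le_rfl, fun h => ht h.2⟩
    refine ⟨fun n => {x | ∃ a ∈ A n, B a ⊆ U ∧ x ∈ B a}, fun n => ⟨⟨?_⟩, ?_⟩,
      Subset.antisymm (iUnion_subset fun n x ⟨a, _, h3, h4⟩ => h3 h4) fun x hx => ?_⟩
    · refine hB.isOpen_iff.2 fun x hx => ?_
      obtain ⟨s, h3, h4⟩ := (h1 n).2 _ x.2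
      refine ⟨_, ⟨s, rfl⟩, h3, fun y hy ⟨a, h5, h6, h7⟩ => hx ⟨a, h5, h6, ?_⟩⟩
      exact anti ((cmp hy h7).resolve_left (h4 a h5)) h3
    · exact hB.isOpen_iff.2 fun x ⟨a, h3, h4, h5⟩ =>
        ⟨_, ⟨a, rfl⟩, h5, fun y hy => ⟨a, h3, h4, hy⟩⟩
    · obtain ⟨_, ⟨s, rfl⟩, h3⟩ := hB.exists_subset_of_mem_open hx hU
      obtain ⟨a, ⟨h4, h5⟩, h6⟩ := wellFounded_lt.has_min {a | x ∈ B a ∧ B a ⊆ U} ⟨s, h3⟩
      obtain ⟨n, h7⟩ := mem_iUnion.1 (h2 (a := a) fun s e =>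
        ⟨fun h => h6 s ⟨anti e.le h4, h⟩ e, x, anti e.le h4, hx⟩)
      exact mem_iUnion.2 ⟨n, a, h7, h5, h4⟩
  · rintro _ ⟨⟨s, rfl⟩, h⟩ _ ⟨⟨t, rfl⟩, h'⟩ -
    exact (cmp h' h).imp anti anti
  · refine ((hc _ p.2).image B).mono ?_
    rintro _ ⟨⟨s, rfl⟩, h⟩
    exact ⟨s, h, rfl⟩
  · obtain ⟨d, h1, h2⟩ := top_met (Y := X)
    obtain ⟨t, ht⟩ := baire (fun n => {t | ∃ x ∈ B t, ∃ y ∈ B t, 1 / (n + 1 : ℝ) ≤ d x y})
      (fun n t ⟨x, h, y, h', h3⟩ s e => ⟨x, anti e h, y, anti e h', h3⟩)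
      fun n t => by
        obtain ⟨x, hx, -, -, h, -⟩ := two t
        obtain ⟨U, h3, h4, h5⟩ := h2 ⟨x, hx⟩ _ (Nat.one_div_pos_of_nat (n := n))
        obtain ⟨s, e, h6⟩ := ext h3 t _ h4 h
        exact ⟨s, e, fun ⟨y, a, z, b, c⟩ => (h5 y (h6 a) z (h6 b)).not_ge c⟩
    obtain ⟨x, hx, y, hy, a, b, c⟩ := two t
    obtain ⟨n, hn⟩ := exists_nat_one_div_lt (h1 ⟨x, hx⟩ ⟨y, hy⟩ fun e => c (congrArg Subtype.val e))
    exact ht n ⟨_, a, _, b, hn.le⟩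

end Pool.Agent.Lib.MP_0fa4a2_gt.Nec
end

-- part Pool.Agent.Lib.MP_0fa4a2_gt.NecMain
section

/-!
The space obtained from the data.
-/

namespace Pool.Agent.Lib.MP_0fa4a2_gt.Nec

open Set TopologicalSpace

universe u

variable {W M : Type u} [LinearOrder W] [WellFoundedLT W]

namespace Dat

theorem escape (D : Dat W M) {E : Set D.Tr} (hE : ∀ t, ∃ t', t ≤ t' ∧ t' ∉ E) :
    ∃ F : Finset M → Set M, (∀ a, (F a).Countable) ∧
      ∀ t : D.Tr, IsLim t → Closed F t.1.N → ∃ s < t, s ∉ E := by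
  classical
  choose O hO β hβ using fun t : D.Tr => star (D := D) (O := Eᶜ)
    (fun t => by
      obtain ⟨t', h1, h2⟩ := hE t
      exact ⟨t', h2, h1⟩) t
  obtain ⟨F, hF, hFA⟩ := D.A_star ((fun s : D.Tr => D.cd s.1) '' E)
  refine ⟨fun a => F a ∪ ⋃ s ∈ {s : D.Tr | D.cd s.1 ∈ a},
    insert (D.ι s.1.a) (insert (D.ι (β s)) ((fun s : D.Tr => D.cd s.1) '' O s)), fun a => ?_, ?_⟩
  · refine (hF a).union (Countable.biUnion ?_ fun s _ => (((hO s).image _).insert _).insert _)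
    exact a.countable_toSet.preimage_of_injOn (f := fun t : D.Tr => D.cd t.1)
      fun _ _ _ _ h => Tr.cd_inj h
  intro t ht hcl
  have hH : ∀ s : D.Tr, D.cd s.1 ∈ t.1.N →
      insert (D.ι s.1.a) (insert (D.ι (β s)) ((fun s : D.Tr => D.cd s.1) '' O s)) ⊆ t.1.N := by
    intro s hs y hy
    refine hcl {D.cd s.1} (by simpa using hs) (Or.inr ?_)
    exact mem_biUnion (t := fun s : D.Tr =>
      insert (D.ι s.1.a) (insert (D.ι (β s)) ((fun s : D.Tr => D.cd s.1) '' O s)))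
      (x := s) (by simp) hy
  obtain ⟨s, hs, hd⟩ := (Tr.lim ht).2.2 _
    (hFA t.1.N t.cond.ct.1 fun a ha => subset_union_left.trans (hcl a ha)) (by
      intro s _ hs G hG
      have hb : β s < t.1.a := (t.cond.tr _).1 (hH s hs (Or.inr (Or.inl rfl)))
      obtain ⟨s', h1, h2, h3, h4⟩ := hβ s G fun ξ hξ => hb.le.trans (hG ξ hξ)
      have h5 : D.cd s'.1 ∈ t.1.N := hH s hs (Or.inr (Or.inr ⟨s', h1, rfl⟩))
      refine ⟨s', (t.cond.tr _).1 (hH s' h5 (Or.inl rfl)), h5, h3, ?_, h4⟩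
      rintro ⟨⟨s'', h6, h7⟩, -⟩
      exact h2 (Tr.cd_inj h7 ▸ h6))
  exact ⟨s, hs, fun h => hd ⟨⟨s, h, rfl⟩, Tr.cd_mem hs⟩⟩

theorem space (D : Dat W M) :
    ∃ (Y : Type u) (_ : TopologicalSpace Y), T1Space Y ∧ PerfectlyNormalSpace Y ∧
      (∃ B : Set (Set Y), IsTopologicalBasis B ∧ (∀ p, IsChain (· ⊆ ·) {b ∈ B | p ∈ b}) ∧
        ∀ p, {b ∈ B | p ∈ b}.Countable) ∧ ¬ MetrizableSpace Y := by
  refine space_of_tree isTree D.branches (fun x hx => hx.1) two_branches ?_ ?_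
  · intro E _ hE
    obtain ⟨F, hF, h⟩ := D.escape hE
    refine press_lab isTree D.branches (fun t => t.1.N) (fun t => t.cond.ct.1) F hF
      (fun a y _ => D.sdisc_notMem y) (fun t ht s hs v hv => ht v (hv.trans_le hs)) ?_
    intro t ht hl
    have hn : ¬ Closed F t.1.N := fun hc => by
      obtain ⟨s, h1, h2⟩ := h t hl hc
      exact h2 (ht s h1)
    simp only [Closed, not_forall] at hn
    obtain ⟨a, ha, hn⟩ := hn
    obtain ⟨y, h1, h2⟩ := not_subset.1 hn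
    obtain ⟨v, h3, h4⟩ := Tr.lim_finset hl ha
    exact ⟨v, h3, a, h4, y, h1, h2⟩
  · intro E hlow hE
    choose F hF h using fun n => D.escape (hE n)
    obtain ⟨t, ht, hc⟩ := D.exists_top (fun a => ⋃ n, F n a) fun a =>
      countable_iUnion fun n => hF n a
    refine ⟨t, fun n hn => ?_⟩
    obtain ⟨s, h1, h2⟩ := h n t ht fun a ha => (subset_iUnion (fun n => F n a) n).trans (hc a ha)
    exact h2 (hlow n t hn s h1.le)

end Dat

end Pool.Agent.Lib.MP_0fa4a2_gt.Nec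
end

-- part Pool.Agent.Lib.MP_0fa4a2_gt.NecMut
section

/-!
Mutual stationarity of stationary sets of points of countable cofinality.
-/

namespace Pool.Agent.Lib.MP_0fa4a2_gt.Nec

open Set Cardinal Ordinal

universe u

section game

variable (m : Ordinal.{u}) (cl : Finset Ordinal.{u} → Set Ordinal.{u})
  (d : Ordinal.{u} → Ordinal.{u})

def GSafe (a : Finset Ordinal.{u}) : Prop :=
  (∀ x ∈ a, x < m) ∧ ∀ l, Rg l → l ≤ m → ∀ x ∈ cl a, x < l → x < d l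

def GLegal (a : Finset Ordinal.{u}) (mv : Ordinal.{u} × Ordinal.{u}) : Prop :=
  Rg mv.1 ∧ mv.1 ≤ m ∧ (mv.1 ∈ cl a ∨ mv.1 = m) ∧ mv.2 < d mv.1

def GResp (a : Finset Ordinal.{u}) (mv : Ordinal.{u} × Ordinal.{u}) (a' : Finset Ordinal.{u}) :
    Prop :=
  ∃ x, mv.2 ≤ x ∧ x < d mv.1 ∧ a' = insert x a

def GWin (a : Finset Ordinal.{u}) : Prop := Win (GSafe m cl d) (GLegal m cl d) (GResp d) a

/-- Every bound is trivial or has countable cofinality. -/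
def DOk : Prop := ∀ l, Rg l → d l = l ∨ (d l < l ∧ CtCof (d l))

end game

theorem gwin_id (m : Ordinal.{u}) (cl : Finset Ordinal.{u} → Set Ordinal.{u}) :
    GWin m cl id ∅ := by
  classical
  refine ⟨{a | ∀ x ∈ a, x < m}, by simp, fun q hq => ⟨⟨hq, fun l _ _ x _ hx => hx⟩, ?_⟩⟩
  rintro ⟨l, γ⟩ ⟨_, hlm, _, hγ⟩
  refine ⟨insert γ q, ?_, γ, le_rfl, hγ, by congr⟩
  intro x hx
  rcases Finset.mem_insert.1 hx with rfl | hx
  · exact lt_of_lt_of_le hγ hlm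
  · exact hq x hx

theorem DOk.le {d : Ordinal.{u} → Ordinal.{u}} (hd : DOk d) {l : Ordinal.{u}} (hl : Rg l) :
    d l ≤ l := by
  rcases hd l hl with h | h
  · exact h.le
  · exact h.1.le

/-- One more bound can be fixed inside any stationary set of limit ordinals. -/
theorem gwin_fix {m : Ordinal.{u}} {cl : Finset Ordinal.{u} → Set Ordinal.{u}}
    (hc : ∀ a, (cl a).Countable) (hs : ∀ a : Finset Ordinal.{u}, ↑a ⊆ cl a)
    {d : Ordinal.{u} → Ordinal.{u}} (hd : DOk d) {a : Finset Ordinal.{u}} (ha : GWin m cl d a)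
    {l : Ordinal.{u}} (hl : Rg l) (hlm : l ≤ m) (hdl : d l = l) {S : Set Ordinal.{u}}
    (hS : St S l) (hSw : ∀ δ ∈ S, Cw δ) :
    ∃ δ ∈ S, δ < l ∧ GWin m cl (Function.update d l δ) a := by
  classical
  -- optimal strategies of the attacker
  have hτ := fun δ : Ordinal.{u} => exists_strategy (GSafe m cl (Function.update d l δ))
    (GLegal m cl (Function.update d l δ)) (GResp (Function.update d l δ))
  choose τ hτ using hτ
  -- responses in the old game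
  have hrs : ∀ (b : Finset Ordinal.{u}) (mv : Ordinal.{u} × Ordinal.{u}), ∃ x : Ordinal.{u},
      GWin m cl d b → GLegal m cl d b mv →
        mv.2 ≤ x ∧ x < d mv.1 ∧ GWin m cl d (insert x b) := by
    intro b mv
    by_cases h : GWin m cl d b ∧ GLegal m cl d b mv
    · obtain ⟨q, hq, x, h1, h2, rfl⟩ := (Win.step h.1).2 mv h.2
      exact ⟨x, fun _ _ => ⟨h1, h2, hq⟩⟩
    · exact ⟨0, fun h1 h2 => absurd ⟨h1, h2⟩ h⟩
  choose rs hrs using hrs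
  -- countably many dominating moves at the larger cardinals
  have hCf : ∀ (b : Finset Ordinal.{u}) (l' : Ordinal.{u}), ∃ C : Set Ordinal.{u}, C.Countable ∧
      (Rg l' → l < l' → ∀ δ < l, (τ δ b).1 = l' → (τ δ b).2 < d l' →
        ∃ c ∈ C, (τ δ b).2 ≤ c ∧ c < d l') := by
    intro b l'
    by_cases h : Rg l' ∧ l < l'
    · rcases hd l' h.1 with h1 | ⟨_, C, hC, hC1, hC2⟩
      · have hb := h.1.bdd (s := (fun δ => (τ δ b).2) '' {δ | δ < l ∧ (τ δ b).2 < l'})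
          (by rintro _ ⟨δ, hδ, rfl⟩; exact hδ.2) (by
            refine lt_of_le_of_lt mk_image_le (lt_of_le_of_lt
              (mk_le_mk_of_subset (t := Iio l) fun δ hδ => hδ.1) ?_)
            rw [Cardinal.mk_Iio_ordinal, Cardinal.lift_lt]
            exact h.1.card_lt h.2)
        obtain ⟨c, hc1, hc2⟩ := hb
        refine ⟨{c}, countable_singleton c, fun _ _ δ hδ _ h3 => ⟨c, rfl, ?_, by rwa [h1]⟩⟩
        exact (hc2 _ ⟨δ, ⟨hδ, by rwa [h1] at h3⟩, rfl⟩).le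
      · refine ⟨C, hC, fun _ _ δ _ _ h3 => ?_⟩
        obtain ⟨c, hc1, hc2⟩ := hC2 _ h3
        exact ⟨c, hc1, hc2, hC1 hc1⟩
    · exact ⟨∅, countable_empty, fun h1 h2 => absurd ⟨h1, h2⟩ h⟩
  choose Cf hCf1 hCf2 using hCf
  let sc : Ordinal.{u} → Finset Ordinal.{u} → Set (Finset Ordinal.{u}) := fun ξ b =>
    {b' | ∃ mv : Ordinal.{u} × Ordinal.{u}, GLegal m cl d b mv ∧ (mv.2 < ξ ∨ mv.2 ∈ Cf b mv.1) ∧
      b' = insert (rs b mv) b}
  let Re : Ordinal.{u} → Set (Finset Ordinal.{u}) := fun ξ =>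
    {b | Relation.ReflTransGen (fun p q => q ∈ sc ξ p) a b}
  have hReW : ∀ ξ, ∀ b ∈ Re ξ, GWin m cl d b := by
    intro ξ b hb
    induction hb with
    | refl => exact ha
    | tail _ h ih =>
      obtain ⟨mv, h1, _, rfl⟩ := h
      exact (hrs _ mv ih h1).2.2
  have hReM : ∀ ξ ξ', ξ ≤ ξ' → Re ξ ⊆ Re ξ' := by
    intro ξ ξ' hξ b hb
    induction hb with
    | refl => exact Relation.ReflTransGen.refl
    | tail _ h ih =>
      obtain ⟨mv, h1, h2, h3⟩ := h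
      exact ih.tail ⟨mv, h1, h2.imp_left fun h => h.trans_le hξ, h3⟩
  have hh : ∀ ξ, ∃ η, ξ < l → η < l ∧ ∀ b ∈ Re ξ, ∀ x ∈ cl b, x < l → x < η := by
    intro ξ
    by_cases hξ : ξ < l
    swap
    · exact ⟨0, fun h => absurd h hξ⟩
    set κ : Cardinal.{u + 1} := max ℵ₀ (Cardinal.lift.{u + 1} ξ.card) with hκ
    have hκ0 : ℵ₀ ≤ κ := le_max_left _ _
    have hκl : κ < Cardinal.lift.{u + 1} l.card := by
      refine max_lt ?_ (Cardinal.lift_lt.2 (hl.card_lt hξ))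
      exact Cardinal.aleph0_lt_lift.2 hl.aleph0_lt
    have hsc : ∀ b, #(sc ξ b) ≤ κ := by
      intro b
      have hsub : sc ξ b ⊆ ⋃ l' ∈ insert m (cl b),
          (fun γ => insert (rs b (l', γ)) b) '' (Iio ξ ∪ Cf b l') := by
        rintro _ ⟨mv, h1, h2, rfl⟩
        simp only [mem_iUnion]
        refine ⟨mv.1, ?_, mv.2, h2, rfl⟩
        rcases h1.2.2.1 with h | h
        · exact Or.inr h
        · exact Or.inl h
      refine (mk_le_mk_of_subset hsub).trans ((mk_biUnion_le _ _).trans ?_)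
      refine mul_le_of_le hκ0 (le_trans ?_ hκ0) (ciSup_le' fun l' => mk_image_le.trans ?_)
      · exact le_aleph0_iff_set_countable.2 ((hc b).insert m)
      · refine (mk_union_le _ _).trans (add_le_of_le hκ0 ?_ (le_trans ?_ hκ0))
        · rw [Cardinal.mk_Iio_ordinal]; exact le_max_right _ _
        · exact le_aleph0_iff_set_countable.2 (hCf1 _ _)
    have hRe : #(Re ξ) ≤ κ := mk_reach_le (sc ξ) hκ0 hsc a
    have hb := hl.bdd (s := (⋃ b ∈ Re ξ, cl b) ∩ Iio l) inter_subset_right (by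
      refine lt_of_le_of_lt ((mk_le_mk_of_subset inter_subset_left).trans
        ((mk_biUnion_le _ _).trans ?_)) hκl
      refine mul_le_of_le hκ0 hRe (ciSup_le' fun b => le_trans ?_ hκ0)
      exact le_aleph0_iff_set_countable.2 (hc _))
    obtain ⟨η, h1, h2⟩ := hb
    exact ⟨η, fun _ => ⟨h1, fun b hb x hx hxl => h2 x ⟨mem_biUnion hb hx, hxl⟩⟩⟩
  choose h hh using hh
  obtain ⟨δ, hδS, hδl, hδ⟩ := hS h fun ξ hξ => (hh ξ hξ).1
  obtain ⟨hδ0, hδ1, -⟩ := hSw δ hδS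
  refine ⟨δ, hδS, hδl, hτ δ {b | ∃ ξ < δ, b ∈ Re ξ} ?_ a ⟨0, hδ0, Relation.ReflTransGen.refl⟩⟩
  have hbd : ∀ ξ < δ, ∀ b ∈ Re ξ, ∀ x ∈ cl b, x < l → x < δ := fun ξ hξ b hb x hx hxl =>
    ((hh ξ (hξ.trans hδl)).2 b hb x hx hxl).trans (hδ ξ hξ)
  rintro b ⟨ξ, hξ, hb⟩
  have hW := hReW ξ b hb
  have hsafe := (Win.step hW).1
  refine ⟨⟨hsafe.1, fun l' h1 h2 x hx hxl => ?_⟩, ?_⟩
  · by_cases e : l' = l
    · subst e
      rw [Function.update_self]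
      exact hbd ξ hξ b hb x hx hxl
    · rw [Function.update_of_ne e]
      exact hsafe.2 l' h1 h2 x hx hxl
  rintro ⟨h1, h2, h3, h4⟩
  rcases lt_or_ge l (τ δ b).1 with hlt | hle
  · rw [Function.update_of_ne hlt.ne'] at h4
    obtain ⟨c, hc1, hc2, hc3⟩ := hCf2 b _ h1 hlt δ hδl rfl h4
    have hleg : GLegal m cl d b ((τ δ b).1, c) := ⟨h1, h2, h3, hc3⟩
    obtain ⟨h5, h6, -⟩ := hrs b _ hW hleg
    refine ⟨insert (rs b ((τ δ b).1, c)) b, ⟨ξ, hξ, hb.tail ⟨_, hleg, Or.inr hc1, rfl⟩⟩,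
      rs b ((τ δ b).1, c), hc2.trans h5, ?_, by congr⟩
    rw [Function.update_of_ne hlt.ne']
    exact h6
  · have hγ : (τ δ b).2 < δ ∧ (τ δ b).2 < d (τ δ b).1 := by
      rcases hle.eq_or_lt with e | hlt
      · rw [e, Function.update_self] at h4
        rw [e, hdl]
        exact ⟨h4, h4.trans hδl⟩
      · rw [Function.update_of_ne hlt.ne] at h4
        refine ⟨h4.trans_le ((hd.le h1).trans (hbd ξ hξ b hb _ ?_ hlt).le), h4⟩
        exact h3.resolve_right fun e => (hlt.trans_le hlm).ne e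
    have hleg : GLegal m cl d b (τ δ b) := ⟨h1, h2, h3, hγ.2⟩
    obtain ⟨h5, h6, -⟩ := hrs b _ hW hleg
    have hξ' : max ξ ((τ δ b).2 + 1) < δ := max_lt hξ (hδ1 _ hγ.1)
    have hb' : insert (rs b (τ δ b)) b ∈ Re (max ξ ((τ δ b).2 + 1)) :=
      Relation.ReflTransGen.tail (hReM _ _ (le_max_left _ _) hb)
        ⟨_, hleg, Or.inl (lt_of_lt_of_le (Order.lt_add_one_iff.2 le_rfl) (le_max_right _ _)), rfl⟩
    refine ⟨_, ⟨_, hξ', hb'⟩, rs b (τ δ b), h5, ?_, by congr⟩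
    rcases hle.eq_or_lt with e | hlt
    · rw [e, Function.update_self]
      rw [e, hdl] at h6
      exact hbd _ hξ' _ hb' _ (hs _ (by simp)) h6
    · rw [Function.update_of_ne hlt.ne]
      exact h6

/-- `δ` is the supremum of the part of `N` below `l`. -/
def SupAt (N : Set Ordinal.{u}) (l δ : Ordinal.{u}) : Prop :=
  δ < l ∧ (∀ x ∈ N, x < l → x < δ) ∧ ∀ γ < δ, ∃ x ∈ N, γ ≤ x ∧ x < δ

theorem mutual_stat {m : Ordinal.{u}} (hm : ω₁ < m) (S : Ordinal.{u} → Ordinal.{u} → Set Ordinal.{u})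
    (hS : ∀ l, Rg l → ω₁ < l → l ≤ m → ∀ α < ω₁, St (S l α) l ∧ ∀ δ ∈ S l α, Cw δ)
    (F : Finset Ordinal.{u} → Set Ordinal.{u}) (hF : ∀ a, (F a).Countable)
    (hFm : ∀ a, F a ⊆ Iio m) :
    ∃ N : Set Ordinal.{u}, N.Countable ∧ N ⊆ Iio m ∧ Closed F N ∧ ∃ α, SupAt N ω₁ α ∧
      ∀ l, Rg l → ω₁ < l → l ≤ m → (l ∈ N ∨ l = m) → ∃ δ ∈ S l α, SupAt N l δ := by
  classical
  obtain ⟨cl, hcl⟩ := exists_cl (fun a => insert ω₁ (F a)) fun a => (hF a).insert _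
  have hc : ∀ a, (cl a).Countable := fun a => (hcl a).1
  have hs : ∀ a : Finset Ordinal.{u}, ↑a ⊆ cl a := fun a => (hcl a).2.1
  have hmono : ∀ a b : Finset Ordinal.{u}, a ⊆ b → cl a ⊆ cl b := fun a b hab =>
    (hcl a).2.2.2 _ ((Finset.coe_subset.2 hab).trans (hs b)) (hcl b).2.2.1
  have hw1 : ∀ a, ω₁ ∈ cl a := fun a => (hcl a).2.2.1 ∅ (by simp) (mem_insert _ _)
  have hclm : ∀ a : Finset Ordinal.{u}, (∀ x ∈ a, x < m) → cl a ⊆ Iio m := fun a ha =>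
    (hcl a).2.2.2 _ (fun x hx => ha x hx) fun b _ => insert_subset hm (hFm b)
  obtain ⟨α, hαw, hα1, hwin⟩ := gwin_fix hc hs (d := id) (fun l _ => Or.inl rfl) (gwin_id m cl)
    rg_omega1 hm.le rfl rg_omega1.st_cw fun δ h => h
  have hC : ∀ δ : Ordinal.{u}, ∃ C : Set Ordinal.{u}, C.Countable ∧
      (CtCof δ → C ⊆ Iio δ ∧ ∀ γ < δ, ∃ c ∈ C, γ ≤ c) := by
    intro δ
    by_cases h : CtCof δ
    · obtain ⟨C, h1, h2⟩ := h
      exact ⟨C, h1, fun _ => h2⟩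
    · exact ⟨∅, countable_empty, fun h' => absurd h' h⟩
  choose C hC1 hC2 using hC
  let P := {p : Finset Ordinal.{u} × (Ordinal.{u} → Ordinal.{u}) //
    GWin m cl p.2 p.1 ∧ DOk p.2 ∧ p.2 ω₁ = α ∧
      ∀ l, Rg l → ω₁ < l → l ≤ m → p.2 l < l → p.2 l ∈ S l α}
  let R : P → P → Prop := fun p q => p.1.1 ⊆ q.1.1 ∧ ∀ l, Rg l → p.1.2 l < l → q.1.2 l = p.1.2 l
  let Task : P → Set (Ordinal.{u} × Ordinal.{u}) := fun p =>
    {k | Rg k.1 ∧ k.1 ≤ m ∧ (k.1 ∈ cl p.1.1 ∨ k.1 = m) ∧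
      (k.2 = k.1 ∨ (p.1.2 k.1 < k.1 ∧ k.2 ∈ C (p.1.2 k.1)))}
  let Done : Ordinal.{u} × Ordinal.{u} → P → Prop := fun k p =>
    p.1.2 k.1 < k.1 ∧ (k.2 = k.1 ∨ ∃ x ∈ p.1.1, k.2 ≤ x ∧ x < p.1.2 k.1)
  let p0 : P := ⟨(∅, Function.update id ω₁ α), hwin, by
      intro l hl
      by_cases e : l = ω₁
      · subst e
        right
        simpa using ⟨hα1, hαw.2.2⟩
      · left
        simp [Function.update_of_ne e], by simp, by
      intro l _ h1 _ h2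
      simp [Function.update_of_ne h1.ne'] at h2⟩
  obtain ⟨u, hu0, huR, huT⟩ := book R (fun p => ⟨subset_rfl, fun _ _ _ => rfl⟩)
    (fun p q r h1 h2 => ⟨h1.1.trans h2.1, fun l hl h => by
      rw [h2.2 l hl (by rw [h1.2 l hl h]; exact h), h1.2 l hl h]⟩) Task
    (fun p => by
      refine ((((hc p.1.1).insert m).biUnion fun l _ =>
        ((hC1 (p.1.2 l)).insert l).image fun c => (l, c))).mono ?_
      rintro ⟨l, c⟩ ⟨-, -, h1, h2⟩
      simp only [mem_iUnion]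
      refine ⟨l, h1.symm, c, ?_, rfl⟩
      rcases h2 with h2 | h2
      · exact Or.inl h2
      · exact Or.inr h2.2) Done
    (by
      rintro p ⟨l, c⟩ ⟨h1, h2, h3, h4⟩ q hpq
      dsimp only at h1 h2 h3 h4
      rcases h4 with h4 | ⟨h4, h5⟩
      · rcases q.2.2.1 l h1 with e | ⟨hlt, -⟩
        · have hl1 : ω₁ < l := by
            refine lt_of_le_of_ne h1.2 fun e' => ?_
            rw [← e', q.2.2.2.1] at e
            exact hα1.ne e
          obtain ⟨δ, hδS, hδl, hδ⟩ := gwin_fix hc hs q.2.2.1 q.2.1 h1 h2 e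
            (hS l h1 hl1 h2 α hα1).1 (hS l h1 hl1 h2 α hα1).2
          refine ⟨⟨(q.1.1, Function.update q.1.2 l δ), hδ, ?_, ?_, ?_⟩, ⟨subset_rfl, ?_⟩, ?_,
            Or.inl h4⟩
          · intro l' hl'
            by_cases e' : l' = l
            · subst e'
              right
              simpa using ⟨hδl, ((hS l' h1 hl1 h2 α hα1).2 δ hδS).2.2⟩
            · simpa [Function.update_of_ne e'] using q.2.2.1 l' hl'
          · simpa [Function.update_of_ne hl1.ne] using q.2.2.2.1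
          · intro l' a1 a2 a3 a4
            by_cases e' : l' = l
            · subst e'
              simpa using hδS
            · simp only [Function.update_of_ne e'] at a4 ⊢
              exact q.2.2.2.2 l' a1 a2 a3 a4
          · intro l' _ a2
            have e' : l' ≠ l := by
              rintro rfl
              exact a2.ne e
            simp [Function.update_of_ne e']
          · simpa using hδl
        · exact ⟨q, ⟨subset_rfl, fun _ _ _ => rfl⟩, hlt, Or.inl h4⟩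
      · have e : q.1.2 l = p.1.2 l := hpq.2 l h1 h4
        have hcc : CtCof (p.1.2 l) := by
          rcases p.2.2.1 l h1 with e' | e'
          · exact absurd e' h4.ne
          · exact e'.2
        have hleg : GLegal m cl q.1.2 q.1.1 (l, c) :=
          ⟨h1, h2, h3.imp_left fun h => hmono _ _ hpq.1 h, by
            dsimp only; rw [e]; exact (hC2 _ hcc).1 h5⟩
        obtain ⟨b, hb, x, hx1, hx2, rfl⟩ := (Win.step q.2.1).2 _ hleg
        refine ⟨⟨(_, q.1.2), hb, q.2.2⟩, ⟨Finset.subset_insert _ _, fun _ _ _ => rfl⟩, ?_,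
          Or.inr ⟨x, Finset.mem_insert_self _ _, hx1, hx2⟩⟩
        dsimp only
        rw [e]
        exact h4) p0
  have hsup : ∀ l, Rg l → l ≤ m → ∀ n, (l ∈ cl (u n).1.1 ∨ l = m) → (u n).1.2 l < l →
      SupAt (⋃ n, cl (u n).1.1) l ((u n).1.2 l) := by
    intro l h1 h2 n h3 h4
    refine ⟨h4, fun x hx hxl => ?_, fun γ hγ => ?_⟩
    · obtain ⟨k, hk⟩ := mem_iUnion.1 hx
      have := (Win.step (u (max n k)).2.1).1.2 l h1 h2 x
        (hmono _ _ (huR k _ (le_max_right _ _)).1 hk) hxl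
      rwa [(huR n _ (le_max_left _ _)).2 l h1 h4] at this
    · have hcc : CtCof ((u n).1.2 l) := by
        rcases (u n).2.2.1 l h1 with e' | e'
        · exact absurd e' h4.ne
        · exact e'.2
      obtain ⟨c, hc1, hc2⟩ := (hC2 _ hcc).2 γ hγ
      obtain ⟨k, hk, -, hk2⟩ := huT n (l, c) ⟨h1, h2, h3, Or.inr ⟨h4, hc1⟩⟩
      rcases hk2 with hk2 | ⟨x, hx1, hx2, hx3⟩
      · exact absurd hk2 (((hC2 _ hcc).1 hc1).trans h4).ne
      · refine ⟨x, mem_iUnion.2 ⟨k, hs _ hx1⟩, hc2.trans hx2, ?_⟩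
        rwa [(huR n k hk).2 l h1 h4] at hx3
  refine ⟨⋃ n, cl (u n).1.1, countable_iUnion fun n => hc _,
    iUnion_subset fun n => hclm _ (Win.step (u n).2.1).1.1, ?_, α, ?_, ?_⟩
  · intro a ha
    have hdir : Directed (· ⊆ ·) fun n => cl (u n).1.1 :=
      Monotone.directed_le fun i j hij => hmono _ _ (huR i j hij).1
    obtain ⟨n, hn⟩ := hdir.exists_mem_subset_of_finset_subset_biUnion ha
    exact ((subset_insert _ _).trans ((hcl _).2.2.1 a hn)).trans (subset_iUnion (fun n => cl (u n).1.1) n)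
  · have := hsup ω₁ rg_omega1 hm.le 0 (Or.inl (hw1 _)) (by rw [(u 0).2.2.2.1]; exact hα1)
    rwa [(u 0).2.2.2.1] at this
  · intro l h1 h2 h3 h4
    obtain ⟨n, hn⟩ : ∃ n, l ∈ cl (u n).1.1 ∨ l = m := by
      rcases h4 with h4 | h4
      · obtain ⟨n, hn⟩ := mem_iUnion.1 h4
        exact ⟨n, Or.inl hn⟩
      · exact ⟨0, Or.inr h4⟩
    obtain ⟨k, hk, hk1, -⟩ := huT n (l, l) ⟨h1, h3, hn, Or.inl rfl⟩
    exact ⟨_, (u k).2.2.2.2 l h1 h2 h3 hk1,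
      hsup l h1 h3 k (hn.imp_left fun h => hmono _ _ (huR n k hk).1 h) hk1⟩

end Pool.Agent.Lib.MP_0fa4a2_gt.Nec
end

-- part Pool.Agent.Lib.MP_0fa4a2_gt.NecDesc
section

/-!
A stationary family of countable sets with the descent property.
-/

namespace Pool.Agent.Lib.MP_0fa4a2_gt.Nec

open Set Cardinal Ordinal

universe u

private theorem desc_countable {ξ : Ordinal.{u}} (h : ξ < ω₁) : (Iio ξ).Countable := by
  rw [← le_aleph0_iff_set_countable, Cardinal.mk_Iio_ordinal, lift_le_aleph0, ← lt_aleph_one_iff]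
  exact lt_omega_iff_card_lt.1 h

private theorem desc_seq (y : Ordinal.{u}) : ∃ c I : Ordinal.{u} → Ordinal.{u},
    ∀ x < y, I x < y.cof.ord ∧ x ≤ c (I x) ∧ c (I x) < y := by
  classical
  obtain ⟨f, hf⟩ := exists_isFundamentalSeq (o := y) rfl
  have h : ∀ x, ∃ i, x < y → ∃ hi : i < y.cof.ord, x ≤ (f ⟨i, hi⟩).1 := fun x => by
    by_cases hx : x < y
    · obtain ⟨_, ⟨i, rfl⟩, hi⟩ := hf.isCofinal_range ⟨x, hx⟩
      exact ⟨i.1, fun _ => ⟨i.2, hi⟩⟩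
    · exact ⟨0, fun h => absurd h hx⟩
  choose I hI using h
  refine ⟨fun i => if hi : i < y.cof.ord then (f ⟨i, hi⟩).1 else 0, I, fun x hx => ?_⟩
  obtain ⟨hi, h⟩ := hI x hx
  simp only [dif_pos hi]
  exact ⟨hi, h, (f _).2⟩

private theorem desc_club (S : Set Ordinal.{u}) (x : Ordinal.{u}) :
    ∃ g : Ordinal.{u} → Ordinal.{u}, ¬ StatIn S x → (∀ δ ∈ S, Cw δ) →
      (∀ w < x, g w < x) ∧ ∀ δ ∈ S, δ < x → ∃ w0 < δ, ∀ w, w0 ≤ w → w < δ → δ ≤ g w := by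
  by_cases h : StatIn S x
  · exact ⟨id, fun h' => absurd h h'⟩
  obtain ⟨T, hT, hd⟩ := not_isStationary_iff.1 h
  have key : ∀ w, ∃ p, w < x → ∃ hp : p < x, (⟨p, hp⟩ : Iio x) ∈ T ∧ w ≤ p ∧
      ∀ q ∈ T, w ≤ q.1 → p ≤ q.1 := fun w => by
    by_cases hw : w < x
    · obtain ⟨p, ⟨h1, h2⟩, h3⟩ := (wellFounded_lt (α := Iio x)).has_min {q ∈ T | w ≤ q.1}
        (hT.isCofinal ⟨w, hw⟩)
      exact ⟨p.1, fun _ => ⟨p.2, h1, h2, fun q h4 h5 => not_lt.1 (h3 q ⟨h4, h5⟩)⟩⟩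
    · exact ⟨0, fun h => absurd h hw⟩
  choose g hg using key
  refine ⟨g, fun _ hS => ⟨fun w hw => (hg w hw).1, fun δ hδ hx => ?_⟩⟩
  by_contra! H
  have H' : ∀ w0 < δ, ∃ q ∈ T, w0 ≤ q.1 ∧ q.1 < δ := fun w0 h0 => by
    obtain ⟨w, h1, h2, h3⟩ := H w0 h0
    obtain ⟨hp, h4, h5, -⟩ := hg w (h2.trans hx)
    exact ⟨_, h4, h1.trans h5, h3⟩
  refine (Set.disjoint_left.1 hd : ∀ ⦃a : Iio x⦄, _ → _) (a := ⟨δ, hx⟩) hδ
    (hT.isLUB_mem (t := {q ∈ T | q.1 < δ}) (fun _ hq => hq.1) ?_ ⟨fun q hq => hq.2.le, ?_⟩)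
  · obtain ⟨q, h1, -, h2⟩ := H' 0 (hS δ hδ).1
    exact ⟨q, h1, h2⟩
  · intro b hb
    by_contra! hlt
    obtain ⟨q, h1, h2, h3⟩ := H' _ ((hS δ hδ).2.1 b.1 hlt)
    exact (lt_add_one b.1).not_ge (h2.trans (hb ⟨h1, h3⟩))

theorem exists_family {m : Ordinal.{u}} (hm : ω₁ < m)
    (hNR : ∀ l : Ordinal.{u}, Rg l → ω₁ < l → l ≤ m → ¬ Reflects l.card) :
    ∃ (S : Set (Set Ordinal.{u})) (cand : Ordinal.{u} → Finset Ordinal.{u} → Set Ordinal.{u}),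
      (∀ N ∈ S, N.Countable ∧ N ⊆ Iio m ∧ ∃ α < ω₁, ∀ ξ < ω₁, ξ ∈ N ↔ ξ < α) ∧
      (∀ F : Finset Ordinal.{u} → Set Ordinal.{u}, (∀ a, (F a).Countable) → (∀ a, F a ⊆ Iio m) →
        ∃ N ∈ S, Closed F N) ∧
      (∀ x a, (cand x a).Countable) ∧
      ∀ N ∈ S, ∀ x < m, ω₁ ≤ x → x ∉ N →
        ∃ a : Finset Ordinal.{u}, ↑a ⊆ N ∧ ∃ y ∈ cand x a, y < x ∧ y ∉ N := by
  classical
  have h1 : ∀ l : Ordinal.{u}, ∃ (S : Set Ordinal.{u}) (β : Ordinal.{u} → Ordinal.{u}),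
      Rg l → ω₁ < l → l ≤ m → (∀ δ < l, ℵ₀ < δ.cof → ¬ StatIn S δ) ∧ (∀ δ ∈ S, Cw δ) ∧
        (∀ δ, β δ < ω₁) ∧ ∀ α < ω₁, St {δ ∈ S | α ≤ β δ} l := fun l => by
    by_cases h : Rg l ∧ ω₁ < l ∧ l ≤ m
    · obtain ⟨hl, h2, h3⟩ := h
      have h4 := hNR l hl h2 h3
      rw [Reflects, hl.isRegular.2] at h4
      push Not at h4
      obtain ⟨S, h5, h6, h7⟩ := h4
      have h8 : ∀ δ ∈ S, Cw δ := fun δ hδ => cw_of_cof (h5 δ hδ)
      obtain ⟨β, h9⟩ := hl.exists_colour (hl.st_of_statIn h6) h8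
      exact ⟨S, β, fun _ _ _ => ⟨h7, h8, h9⟩⟩
    · exact ⟨∅, id, fun a b c => absurd ⟨a, b, c⟩ h⟩
  choose S β hS using h1
  choose c I hc using desc_seq.{u}
  choose g hg using fun x y => desc_club (S y) x
  have h2 : ∀ x : Ordinal.{u}, ∃ C : Set Ordinal.{u}, C.Countable ∧
      (x.cof ≤ ℵ₀ → C ⊆ Iio x ∧ ∀ γ < x, ∃ p ∈ C, γ ≤ p) := fun x => by
    by_cases h : x.cof ≤ ℵ₀
    · obtain ⟨C, h1, h2⟩ := ctCof_of_cof_le h
      exact ⟨C, h1, fun _ => h2⟩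
    · exact ⟨∅, countable_empty, fun h' => absurd h' h⟩
  choose C hC hC' using h2
  let A : Finset Ordinal.{u} → Set Ordinal.{u} := fun a => insert m ↑a
  have hA : ∀ a, (A a).Countable := fun a => a.countable_toSet.insert m
  let B : Finset Ordinal.{u} → Set Ordinal.{u} := fun a =>
    ((fun y => y.cof.ord) '' A a ∪ image2 c (A a) ↑a ∪
      ⋃ ξ ∈ (↑a ∩ Iio ω₁ : Set Ordinal.{u}), Iio ξ) ∩ Iio m
  have hB : ∀ a, (B a).Countable := fun a => by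
    have b1 : ((fun y : Ordinal.{u} => y.cof.ord) '' A a).Countable := (hA a).image _
    have b2 : (image2 c (A a) ↑a).Countable := (hA a).image2 a.countable_toSet _
    have b3 : (↑a ∩ Iio ω₁ : Set Ordinal.{u}).Countable := a.countable_toSet.mono inter_subset_left
    have b4 := b3.biUnion (t := fun ξ _ => Iio ξ) fun ξ h => desc_countable h.2
    exact ((b1.union b2).union b4).mono inter_subset_left
  refine ⟨{N | N.Countable ∧ N ⊆ Iio m ∧ Closed B N ∧ ∃ α, SupAt N ω₁ α ∧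
      ∀ l, Rg l → ω₁ < l → l ≤ m → (l ∈ N ∨ l = m) →
        ∃ δ ∈ {δ ∈ S l | α ≤ β l δ}, SupAt N l δ},
    fun x a => C x ∪ (fun y => I y x) '' A a ∪ (fun y => β y x) '' A a ∪ image2 (g x) (A a) ↑a,
    ?_, fun F hF hFm => ?_, fun x a => ?_, ?_⟩
  · rintro N ⟨h1, h2, h3, α, ⟨h4, h5, h6⟩, -⟩
    refine ⟨h1, h2, α, h4, fun ξ hξ => ⟨fun h => h5 ξ h hξ, fun h => ?_⟩⟩
    obtain ⟨x, h7, h8, h9⟩ := h6 ξ h
    rcases h8.eq_or_lt with rfl | h8
    · exact h7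
    · exact h3 {x} (by simpa using h7)
        ⟨Or.inr (mem_biUnion (x := x) ⟨by simp, h9.trans h4⟩ h8), hξ.trans hm⟩
  · obtain ⟨N, h1, h2, h3, h4⟩ := mutual_stat hm (fun l α => {δ ∈ S l | α ≤ β l δ})
      (fun l a b c α hα => ⟨(hS l a b c).2.2.2 α hα, fun δ hδ => (hS l a b c).2.1 δ hδ.1⟩)
      (fun a => F a ∪ B a) (fun a => (hF a).union (hB a))
      fun a => union_subset (hFm a) inter_subset_right
    exact ⟨N, ⟨h1, h2, fun a ha => subset_union_right.trans (h3 a ha), h4⟩,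
      fun a ha => subset_union_left.trans (h3 a ha)⟩
  · exact (((hC x).union ((hA a).image _)).union ((hA a).image _)).union
      ((hA a).image2 a.countable_toSet _)
  · rintro N ⟨-, h2, h3, α, hα, h4⟩ x hxm hx hxN
    obtain ⟨y, ⟨hy, hxy⟩, hmin⟩ := wellFounded_lt.has_min {y | (y ∈ N ∨ y = m) ∧ x ≤ y}
      ⟨m, Or.inr rfl, hxm.le⟩
    have hym : y ≤ m := not_lt.1 (hmin m ⟨Or.inr rfl, hxm.le⟩)
    have hlt : x < y := hxy.lt_of_ne (by
      rintro rfl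
      exact hy.elim hxN hxm.ne)
    have gap : ∀ z ∈ N, z < y → z < x := fun z hz h =>
      not_le.1 fun h' => hmin z ⟨Or.inl hz, h'⟩ h
    obtain ⟨a, haN, hya⟩ : ∃ a : Finset Ordinal.{u}, ↑a ⊆ N ∧ y ∈ A a := by
      rcases hy with hy | rfl
      · exact ⟨{y}, by simpa using hy, Or.inr (by simp)⟩
      · exact ⟨∅, by simp, Or.inl rfl⟩
    have ins : ∀ w ∈ N, ↑(insert w a) ⊆ N ∧ y ∈ A (insert w a) ∧
        w ∈ (↑(insert w a) : Set Ordinal.{u}) := fun w hw => by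
      refine ⟨by rw [Finset.coe_insert]; exact insert_subset hw haN, ?_, by simp⟩
      exact insert_subset_insert (Finset.coe_subset.2 (Finset.subset_insert w a)) hya
    rcases (ord_cof_le y).eq_or_lt with hk | hk
    · have hy1 : ω₁ < y := hx.trans_lt hlt
      have hR : Rg y := ⟨hk, hy1.le⟩
      obtain ⟨s1, s2, s3, -⟩ := hS y hR hy1 hym
      obtain ⟨δ, ⟨d1, d2⟩, d3, d4, d5⟩ := h4 y hR hy1 hym hy
      have hδx : δ ≤ x := not_lt.1 fun h => by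
        obtain ⟨z, z1, z2, z3⟩ := d5 x h
        exact (gap z z1 (z3.trans d3)).not_ge z2
      have out : ∀ p, δ ≤ p → p < x → p ∉ N := fun p p1 p2 p3 =>
        (d4 p p3 (p2.trans hlt)).not_ge p1
      rcases hδx.eq_or_lt with rfl | hδx
      · exact ⟨a, haN, β y δ, Or.inl (Or.inr ⟨y, hya, rfl⟩), (s3 δ).trans_le hx,
          fun h => (hα.2.1 _ h (s3 δ)).not_ge d2⟩
      · rcases le_or_gt x.cof ℵ₀ with hc0 | hc0
        · obtain ⟨p, p1, p2⟩ := (hC' x hc0).2 δ hδx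
          exact ⟨a, haN, p, Or.inl (Or.inl (Or.inl p1)), (hC' x hc0).1 p1,
            out p p2 ((hC' x hc0).1 p1)⟩
        · obtain ⟨g1, g2⟩ := hg x y (s1 x hlt hc0) s2
          obtain ⟨w0, w1, w2⟩ := g2 δ d1 hδx
          obtain ⟨w, w3, w4, w5⟩ := d5 w0 w1
          obtain ⟨i1, i2, i3⟩ := ins w w3
          exact ⟨insert w a, i1, g x y w, Or.inr (mem_image2_of_mem i2 i3), g1 w (w5.trans hδx),
            out _ (w2 w w4 w5) (g1 w (w5.trans hδx))⟩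
    · obtain ⟨c1, c2, c3⟩ := hc y x hlt
      have hkx := gap _ (h3 a haN ⟨Or.inl (Or.inl ⟨y, hya, rfl⟩), hk.trans_le hym⟩) hk
      refine ⟨a, haN, I y x, Or.inl (Or.inl (Or.inr ⟨y, hya, rfl⟩)), c1.trans hkx, fun h => ?_⟩
      obtain ⟨i1, i2, i3⟩ := ins _ h
      exact (gap _ (h3 _ i1 ⟨Or.inl (Or.inr (mem_image2_of_mem i2 i3)), c3.trans_le hym⟩)
        c3).not_ge c2

end Pool.Agent.Lib.MP_0fa4a2_gt.Nec
end

-- part Pool.Agent.Lib.MP_0fa4a2_gt.NecData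
section

/-!
The data exist under the combinatorial hypotheses.
-/

namespace Pool.Agent.Lib.MP_0fa4a2_gt.Nec

open Set Cardinal Ordinal

universe u

theorem data_one_le {κ : Cardinal.{u}} (h2 : 2 ^ (2 : Cardinal.{u}) ^ (ℵ₁ : Cardinal.{u}) ≤ κ) :
    ℵ₁ < κ ∧ (2 : Cardinal.{u}) ^ (ℵ₁ : Cardinal.{u}) ≤ κ :=
  ⟨((Cardinal.cantor _).trans (Cardinal.cantor _)).trans_le h2, (Cardinal.cantor _).le.trans h2⟩

theorem data_cs {A : Type u} {κ : Cardinal.{u}} (h0 : ℵ₀ ≤ κ) (h1 : κ ^ ℵ₀ = κ) (hA : #A ≤ κ) :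
    #{s : Set A // #s ≤ ℵ₀} ≤ κ :=
  (Cardinal.mk_bounded_set_le A ℵ₀).trans
    ((Cardinal.power_le_power_right (max_le hA h0)).trans h1.le)

theorem data_prod {A B : Type u} {κ : Cardinal.{u}} (h0 : ℵ₀ ≤ κ) (hA : #A ≤ κ) (hB : #B ≤ κ) :
    #(A × B) ≤ κ := by
  rw [Cardinal.mk_prod, Cardinal.lift_id, Cardinal.lift_id]
  exact (mul_le_mul' hA hB).trans (Cardinal.mul_eq_self h0).le

theorem exists_code {W M : Type u} (hW : #W = ℵ₁) (h1 : #M ^ ℵ₀ = #M) (h2 : 2 ^ (2 : Cardinal.{u}) ^ (ℵ₁ : Cardinal.{u}) ≤ #M) :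
    ∃ cd : Nd W M → M, ∀ s t : Nd W M, s.Ct → t.Ct → cd s = cd t → s = t := by
  obtain ⟨a1, a2⟩ := data_one_le h2
  have a01 : (ℵ₀ : Cardinal.{u}) ≤ ℵ₁ := aleph0_lt_aleph_one.le
  have a0 : ℵ₀ ≤ #M := a01.trans a1.le
  have : Infinite W := Cardinal.infinite_iff.2 (hW ▸ a01)
  have hF : #(W → ℕ) ≤ #M := by
    rw [Cardinal.mk_arrow, Cardinal.mk_nat, Cardinal.lift_aleph0, Cardinal.lift_id', hW]
    exact (Cardinal.power_le_power_right a01).trans ((Cardinal.power_self_eq a01).le.trans a2)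
  have hS : #(Set (Set (Finset W))) ≤ #M := by
    rw [Cardinal.mk_set, Cardinal.mk_set, Cardinal.mk_finset_of_infinite, hW]
    exact h2
  have hP : #(Pr W) ≤ #M := by
    refine (Cardinal.mk_le_of_injective (f := fun p : Pr W => (p.g, p.L.sets)) ?_).trans
      (data_prod a0 hF hS)
    rintro ⟨g, L⟩ ⟨g', L'⟩ h
    obtain ⟨h1, h2⟩ := Prod.ext_iff.1 h
    obtain rfl : g = g' := h1
    obtain rfl : L = L' := Filter.filter_eq h2
    rfl
  have hN : #{t : Nd W M // t.Ct} ≤ #M := by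
    refine (Cardinal.mk_le_of_injective (f := fun t : {t : Nd W M // t.Ct} =>
      ((t.1.a, (⟨t.1.N, Cardinal.le_aleph0_iff_set_countable.2 t.2.1⟩ : {s : Set M // #s ≤ ℵ₀}),
        t.1.f, (⟨t.1.G, Cardinal.le_aleph0_iff_set_countable.2 t.2.2.1⟩ :
          {s : Set (Pr W) // #s ≤ ℵ₀}),
        (⟨t.1.P, Cardinal.le_aleph0_iff_set_countable.2 t.2.2.2⟩ : {s : Set M // #s ≤ ℵ₀}))))
      ?_).trans (data_prod a0 (hW ▸ a1.le) (data_prod a0 (data_cs a0 h1 le_rfl)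
        (data_prod a0 hF (data_prod a0 (data_cs a0 h1 hP) (data_cs a0 h1 le_rfl)))))
    rintro ⟨⟨a, N, f, G, P⟩, ht⟩ ⟨⟨a', N', f', G', P'⟩, ht'⟩ h
    simp only [Prod.mk.injEq, Subtype.mk.injEq] at h
    obtain ⟨rfl, rfl, rfl, rfl, rfl⟩ := h
    rfl
  obtain ⟨j⟩ := (Cardinal.le_def _ _).1 hN
  have : Infinite M := Cardinal.infinite_iff.2 a0
  classical
  refine ⟨fun t => if h : t.Ct then j ⟨t, h⟩ else Classical.arbitrary M, fun s t hs ht h => ?_⟩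
  simp only [dif_pos hs, dif_pos ht] at h
  exact congrArg Subtype.val (j.injective h)

theorem data_mk : #(ω₁ : Ordinal.{u}).ToType = ℵ₁ := by simp

theorem likeOmega1 : LikeOmega1 (ω₁ : Ordinal.{u}).ToType := by
  have cnt : ∀ a : (ω₁ : Ordinal.{u}).ToType, (Iio a).Countable := fun a => by
    rw [Cardinal.countable_iff_lt_aleph_one, ← data_mk]
    exact Cardinal.mk_Iio_lt a (by simp)
  refine ⟨cnt, fun s hs => ?_⟩
  by_contra hc
  push Not at hc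
  have hu : (univ : Set (ω₁ : Ordinal.{u}).ToType).Countable := by
    refine (hs.biUnion (t := fun a _ => insert a (Iio a)) fun a _ => (cnt a).insert a).mono
      fun b _ => ?_
    obtain ⟨a, ha, hb⟩ := hc b
    exact mem_biUnion ha (hb.eq_or_lt.imp id id)
  rw [Cardinal.countable_iff_lt_aleph_one, Cardinal.mk_univ, data_mk] at hu
  exact lt_irrefl _ hu

theorem data_enum (M : Type u) : ∃ φ : M → Ordinal.{u}, Function.Injective φ ∧
    (∀ x, φ x < (#M).ord) ∧ ∀ y < (#M).ord, ∃ x, φ x = y := by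
  obtain ⟨e⟩ := Cardinal.eq.1 (Cardinal.mk_ord_toType #M)
  refine ⟨fun x => (ToType.mk.symm (e.symm x)).1, fun x y h => ?_, fun x => (ToType.mk.symm (e.symm x)).2,
    fun y hy => ⟨e (ToType.mk ⟨y, hy⟩), by simp⟩⟩
  exact e.symm.injective (ToType.mk.symm.injective (Subtype.ext h))

theorem data_enum1 : ∃ ψ : (ω₁ : Ordinal.{u}).ToType → Ordinal.{u}, StrictMono ψ ∧
    (∀ x, ψ x < ω₁) ∧ ∀ y < ω₁, ∃ x, ψ x = y :=
  ⟨fun x => (ToType.mk.symm x).1, fun _ _ h => ToType.mk.symm.strictMono h,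
    fun x => (ToType.mk.symm x).2, fun y hy => ⟨ToType.mk ⟨y, hy⟩, by simp⟩⟩

theorem exists_dat {M : Type u} (h1 : #M ^ ℵ₀ = #M) (h2 : 2 ^ (2 : Cardinal.{u}) ^ (ℵ₁ : Cardinal.{u}) ≤ #M) (h3 : DiamondStar M)
    (h4 : ∀ κ : Cardinal.{u}, κ.IsRegular → ℵ₁ < κ → κ ≤ #M → ¬ Reflects κ) :
    Nonempty (Dat (ω₁ : Ordinal.{u}).ToType M) := by
  classical
  have hm : (ω₁ : Ordinal.{u}) < (#M).ord := by
    rw [← Cardinal.ord_aleph, Cardinal.ord_lt_ord]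
    exact (data_one_le h2).1
  obtain ⟨S, cand, hS, hstat, hcc, hdesc⟩ := exists_family hm fun l hl hl1 hlm =>
    h4 l.card hl.isRegular.1
      (by rw [← Cardinal.ord_lt_ord, hl.isRegular.2, Cardinal.ord_aleph]; exact hl1)
      ((Ordinal.card_le_card hlm).trans (Cardinal.card_ord _).le)
  obtain ⟨φ, φi, φl, φs⟩ := data_enum M
  obtain ⟨ψ, ψm, ψl, ψs⟩ := data_enum1.{u}
  choose ι hι using fun ξ => φs (ψ ξ) ((ψl ξ).trans hm)
  obtain ⟨e, he1, he2⟩ := exists_coh likeOmega1.{u}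
  obtain ⟨A, hA1, hA2⟩ := h3
  obtain ⟨cd, hcd⟩ := exists_code data_mk.{u} h1 h2
  refine ⟨{
    hW := likeOmega1
    ι := ι
    ι_inj := fun ξ η h => ψm.injective (by rw [← hι, ← hι, h])
    e := e
    e_fin := he1
    e_cnt := he2
    S := {N | φ '' N ∈ S}
    S_cnt := fun N hN => countable_of_injective_of_countable_image φi.injOn (hS _ hN).1
    S_tr := fun N hN => ?_
    S_stat := fun F hF => ?_
    r := fun x y => φ x < φ y
    r_wf := InvImage.wf φ wellFounded_lt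
    cand := fun x a => φ ⁻¹' cand (φ x) (a.image φ)
    cand_cnt := fun x a => (hcc _ _).preimage φi
    desc := fun N hN x hx hxN => ?_
    A := A
    A_cnt := hA1
    A_star := fun D => ?_
    cd := cd
    cd_inj := hcd }⟩
  · obtain ⟨α, hα, h⟩ := (hS _ hN).2.2
    obtain ⟨α', rfl⟩ := ψs α hα
    refine ⟨α', fun ξ => ?_⟩
    rw [← ψm.lt_iff_lt, ← h _ (ψl ξ), ← hι, φi.mem_set_image]
  · obtain ⟨N, hN, hcl⟩ := hstat (fun b => φ '' F (b.preimage φ φi.injOn))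
      (fun b => (hF _).image φ) (fun b => by rintro _ ⟨x, -, rfl⟩; exact φl x)
    have e1 : φ '' (φ ⁻¹' N) = N :=
      image_preimage_eq_of_subset fun y hy => φs y ((hS N hN).2.1 hy)
    refine ⟨φ ⁻¹' N, by rw [mem_setOf_eq, e1]; exact hN, fun a ha x hx => ?_⟩
    refine hcl (a.image φ) ?_ ⟨x, ?_, rfl⟩
    · rw [Finset.coe_image]
      exact image_subset_iff.2 ha
    · have e2 : (a.image φ).preimage φ φi.injOn = a := by
        ext y
        rw [Finset.mem_preimage, φi.mem_finset_image]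
      rwa [e2]
  · have hx1 : ω₁ ≤ φ x := by
      by_contra hlt
      obtain ⟨ξ, hξ⟩ := ψs _ (not_le.1 hlt)
      exact hx ⟨ξ, φi (by rw [hι, hξ])⟩
    obtain ⟨b, hb, y, hy, hyx, hyN⟩ := hdesc _ hN (φ x) (φl x) hx1 (by rwa [φi.mem_set_image])
    obtain ⟨a, ha, rfl⟩ := Finset.subset_set_image_iff.1 hb
    obtain ⟨y', rfl⟩ := φs y (hyx.trans (φl x))
    exact ⟨a, ha, y', hy, hyx, fun h => hyN ⟨y', h, rfl⟩⟩
  · obtain ⟨C, hC, hD⟩ := hA2 D
    obtain ⟨F, hF, hk⟩ := kueker hC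
    exact ⟨F, hF, fun N hN hcl => hD N (hk N hN hcl)⟩

end Pool.Agent.Lib.MP_0fa4a2_gt.Nec
end
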