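import Mathlib

/-!
Definitions used in the statement of the necessity theorem.
-/

namespace Pool.Agent.Lib.MP_0fa4a2_gt.Nec

open Set Cardinal

universe u

/-- `S ∩ δ` is stationary in `δ`. -/
def StatIn (S : Set Ordinal.{u}) (δ : Ordinal.{u}) : Prop :=
  IsStationary ((↑) ⁻¹' S : Set (Iio δ))

/-- Every stationary set of ordinals below `κ` of cofinality `ω` reflects at some ordinal below `κ`
of uncountable cofinality. -/
def Reflects (κ : Cardinal.{u}) : Prop :=
  ∀ S : Set Ordinal.{u}, (∀ δ ∈ S, δ.cof = ℵ₀) → StatIn S κ.ord →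
    ∃ δ < κ.ord, ℵ₀ < δ.cof ∧ StatIn S δ

/-- A club of countable subsets of `M`: cofinal and closed under unions of increasing
`ω`-sequences. -/
structure IsClubCt {M : Type u} (C : Set (Set M)) : Prop where
  countable : ∀ N ∈ C, N.Countable
  cofinal : ∀ N : Set M, N.Countable → ∃ N' ∈ C, N ⊆ N'
  closed : ∀ N : ℕ → Set M, Monotone N → (∀ n, N n ∈ C) → (⋃ n, N n) ∈ C

/-- The two-cardinal diamond star principle on the countable subsets of `M`. -/
def DiamondStar (M : Type u) : Prop :=
  ∃ A : Set M → Set (Set M), (∀ N, (A N).Countable) ∧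
    ∀ D : Set M, ∃ C : Set (Set M), IsClubCt C ∧ ∀ N ∈ C, D ∩ N ∈ A N

end Pool.Agent.Lib.MP_0fa4a2_gt.Nec
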