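import Pool.Agent.Lib.MP_0fa4a2_gt.Two

/-! Reflection: a wide tree with the Baire property has a nowhere dense subtree with the Baire
property in the final model. -/

namespace Pool.Agent.Lib.MP_0fa4a2_gt

open Pool.Agent.Lib.MP_2739cb_lc Pool.Agent.Lib.MP_783f50_lc Cardinal Set Filter

universe u v

section General

variable {P I : Type u} [Preorder P]

def inc (Le : I → I → RO P) (a b : I) : RO P := (Le a b).not.and (Le b a).not

structure RH (k : Cardinal.{u}) (Le In Fb : I → I → RO P) (p0 : P) : Prop where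
  rf : ∀ a, (Le a a).s p0
  tr : ∀ a b c r, (Le a b).s r → (Le b c).s r → (Le a c).s r
  tree : ∀ a b c r, r ≤ p0 → (Le a c).s r → (Le b c).s r →
    ∃ t, t ≤ r ∧ ((Le a b).s t ∨ (Le b a).s t)
  h1 : ∀ y d (M : Set I), #M < k → ∀ p, p ≤ p0 → (In y d).s p → ∃ q, q ≤ p ∧ ∃ w, (Le d w).s q ∧
    ∀ v ∈ M, ∀ r, r ≤ q → ((Fb v y).s r ∨ (inc Le y v).s r) → (inc Le w v).s r
  h2 : ∀ d (M : Set I), #M < k → ∀ p, p ≤ p0 → ∃ q, q ≤ p ∧ ∃ v, (Le d v).s q ∧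
    ∀ y ∈ M, (Fb v y).s q
  h3 : ∀ v y r, r ≤ p0 → (In y v).s r → ¬ ((Fb v y).s r ∨ (inc Le y v).s r)
  h4 : ∀ y, (In y y).s p0
  h5 : ∀ y p, p ≤ p0 → ∃ q, q ≤ p ∧ ∃ S : Set I, #S < k ∧ ∀ d r, r ≤ q → (In y d).s r →
    ∃ t, t ≤ r ∧ ∃ d' ∈ S, (Le d d').s t ∧ (In y d').s t
  baire : BaireN Le p0

def DD (In : I → I → RO P) (A : I → RO P) (d : I) : RO P := RO.ex fun y => (A y).and (In y d)

structure Mea (Le : I → I → RO P) (D : I → RO P) (O : ℕ → I → RO P) (q : P) : Prop where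
  op : ∀ n a b t, t ≤ q → (O n a).s t → (Le a b).s t → (D b).s t → (O n b).s t
  de : ∀ n a t, t ≤ q → (D a).s t → ∃ w, w ≤ t ∧ ∃ b, (Le a b).s w ∧ (D b).s w ∧ (O n b).s w
  em : ∀ a t, t ≤ q → (D a).s t → ¬ ∀ n, (O n a).s t

theorem RH.inc_up {k : Cardinal.{u}} {Le In Fb : I → I → RO P} {p0 : P} (h : RH k Le In Fb p0)
    {a b v : I} {r : P} (hr : r ≤ p0) (h1 : (inc Le a v).s r) (h2 : (Le a b).s r) :
    (inc Le b v).s r :=
  ⟨fun t ht h3 => h1.1 t ht (h.tr _ _ _ _ (RO.mono h2 ht) h3), fun t ht h3 => by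
    obtain ⟨w, hw, h4⟩ := h.tree _ _ _ t (ht.trans hr) (RO.mono h2 ht) h3
    exact h4.elim (h1.1 w (hw.trans ht)) (h1.2 w (hw.trans ht))⟩

theorem regr_prod {Ω : Type u} {U : Filter Ω} {α β : Type v} {A : Ω → Set α} {B : Ω → Set β}
    (h1 : Regr U A) (h2 : Regr U B) : Regr U fun x => A x ×ˢ B x := fun f hf => by
  obtain ⟨a, ha⟩ := h1 (fun x => (f x).1) (hf.mono fun x hx => hx.1)
  obtain ⟨b, hb⟩ := h2 (fun x => (f x).2) (hf.mono fun x hx => hx.2)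
  exact ⟨(a, b), (ha.and hb).mono fun x hx => Prod.ext hx.1 hx.2⟩

def lastw (w0 : I) : List (I × I) → I
  | [] => w0
  | a :: _ => a.2

end General

variable {k : Cardinal.{u}} {Q K I : Type u} [Preorder Q] [LinearOrder K] [hF : Fact (First k Q)]
  (m : Ms k K I) (Le In Fb : I → I → RO (Two k Q K)) (x : m.Ω)

def gv (ξ : Tm k) (y : I × Bool) : RO (Two k Q K) :=
  RO.dense fun c => ∃ j, (c.f.s (m.a x, ξ, j)).s c.q ∧ m.e x j = y

def acc0 (ξ : Tm k) (v : I) : RO (Two k Q K) := (gv m x ξ (v, false)).and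
  (RO.all fun η : {η // η < ξ} => RO.all fun y => (gv m x η (y, true)).imp (Fb v y))

def acc1 (η : Tm k) (y : I) : RO (Two k Q K) := (gv m x η (y, true)).and
  (RO.all fun ξ : {ξ // ξ < η} => RO.all fun v => (acc0 m Fb x ξ v).imp (inc Le y v))

def accs (y : I) : RO (Two k Q K) := RO.ex fun η => acc1 m Le Fb x η y

def fresh (t : Fn k Q K) (w : I) : RO (Two k Q K) := RO.all fun ξ => RO.all fun j =>
  RO.all fun v => (Two.proj.up (t.s (m.a x, ξ, j))).imp ((acc0 m Fb x ξ v).imp (inc Le w v))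

def vals (c : Two k Q K) : Set I := {v | ∃ ξ j r, (c.f.s (m.a x, ξ, j)).s r ∧ (m.e x j).1 = v}

structure Gx (p0 : Two k Q K) : Prop where
  eY : ∀ j, (m.e x j).1 ∈ m.Y x
  c1 : ∀ y ∈ m.Y x, ∀ d ∈ m.Y x, ∀ p, p ≤ p0 → (In y d).s p → ∃ q, leX (m.X x) q p ∧
    ∃ w ∈ m.Y x, (Le d w).s (mix (m.X x) q p.f) ∧ ∀ v ∈ vals m x p, ∀ r, r ≤ mix (m.X x) q p.f →
      ((Fb v y).s r ∨ (inc Le y v).s r) → (inc Le w v).s r
  c2 : ∀ d ∈ m.Y x, ∀ p, p ≤ p0 → ∃ q, leX (m.X x) q p ∧ ∃ v ∈ m.Y x,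
    (Le d v).s (mix (m.X x) q p.f) ∧ ∀ y ∈ vals m x p, (Fb v y).s (mix (m.X x) q p.f)
  c5 : ∀ y ∈ m.Y x, ∀ d p, p ≤ p0 → (In y d).s p →
    ∃ t, t ≤ p ∧ ∃ d' ∈ m.Y x, (Le d d').s t ∧ (In y d').s t

variable {m Le In Fb x} {p0 : Two k Q K}

theorem ae_gx (h : RH k Le In Fb p0) : ∀ᶠ x in m.U, Gx m Le In Fb x p0 := by
  have r1 : Regr m.U fun x => {c : Set I | #c < k ∧ c ⊆ m.Y x} := fun f hf =>
    m.small m.rY f (hf.mono fun x hx => ⟨hx.1.le, hx.2⟩)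
  have a1 := ae_closure m (regr_prod (regr_prod m.rY m.rY) r1) (fun _ => True) (fun b _ => m.fY b)
    (fun a w q => (In a.1.1 a.1.2).not.s q ∨ ((Le a.1.2 w).s q ∧ ∀ v ∈ a.2, ∀ r, r ≤ q →
      ((Fb v a.1.1).s r ∨ (inc Le a.1.1 v).s r) → (inc Le w v).s r))
    (fun _ _ _ _ hq h => h.imp (fun h => RO.mono h hq) fun h => ⟨RO.mono h.1 hq,
      fun v hv r hr => h.2 v hv r (hr.trans hq)⟩) p0 fun a p hp ⟨_, ha⟩ => by
      obtain ⟨q, h1, h2 | h2⟩ := RO.decide (In a.1.1 a.1.2) p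
      · obtain ⟨r, h3, w, h4⟩ := h.h1 _ _ _ ha.2.1 q (h1.trans hp) h2
        exact ⟨r, h3.trans h1, w, trivial, Or.inr h4⟩
      · exact ⟨q, h1, a.1.1, trivial, Or.inl h2⟩
  have a2 := ae_closure m (regr_prod m.rY r1) (fun _ => True) (fun b _ => m.fY b)
    (fun a v q => (Le a.1 v).s q ∧ ∀ y ∈ a.2, (Fb v y).s q)
    (fun _ _ _ _ hq h => ⟨RO.mono h.1 hq, fun v hv => RO.mono (h.2 v hv) hq⟩) p0
    fun a p hp ⟨_, ha⟩ => let ⟨q, h1, v, h2⟩ := h.h2 a.1 _ ha.2.1 p hp; ⟨q, h1, v, trivial, h2⟩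
  have a5 := ae_closure m m.rY (B := fun x => {S | S ⊆ m.Y x}) (fun S : Set I => #S < k)
    (fun S hS => m.ball hS fun a _ => m.fY a) (fun y S q => ∀ d r, r ≤ q → (In y d).s r →
      ∃ t, t ≤ r ∧ ∃ d' ∈ S, (Le d d').s t ∧ (In y d').s t)
    (fun _ _ _ _ hq h d r hr => h d r (hr.trans hq)) p0 fun y p hp _ => h.h5 y p hp
  refine (m.eY.and (a1.and (a2.and a5))).mono fun x ⟨e, b1, b2, b5⟩ => ?_
  have hv : ∀ p : Two k Q K, #(vals m x p) < k ∧ vals m x p ⊆ m.Y x := fun p =>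
    ⟨((mk_le_mk_of_subset (t := (fun τ : K × Tm k × K => (m.e x τ.2.2).1) ''
      {τ | ∃ r, (p.f.s τ).s r}) (by
        rintro _ ⟨ξ, j, r, h1, rfl⟩
        exact ⟨_, ⟨r, h1⟩, rfl⟩)).trans mk_image_le).trans_lt p.f.sm, by
      rintro _ ⟨ξ, j, r, h1, rfl⟩
      exact e j⟩
  refine ⟨e, fun y hy d hd p hp h1 => ?_, fun d hd p hp => b2 (d, _) ⟨hd, hv p⟩ p hp,
    fun y hy d p hp h1 => ?_⟩
  · obtain ⟨q, h2, w, h3, h4⟩ := b1 ((y, d), _) ⟨⟨hy, hd⟩, hv p⟩ p hp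
    exact ⟨q, h2, w, h3, h4.resolve_left fun h5 => h5 _ le_rfl (RO.mono h1 (mix_le_right h2))⟩
  · obtain ⟨q, h2, S, h3, h4⟩ := b5 y hy p hp
    obtain ⟨t, h5, d', h6, h7⟩ := h4 d _ le_rfl (RO.mono h1 (mix_le_right h2))
    exact ⟨t, h5.trans (mix_le_right h2), d', h3 h6, h7⟩

omit hF in
theorem gv_intro {ξ : Tm k} {j : K} {c : Two k Q K} (h : (c.f.s (m.a x, ξ, j)).s c.q) :
    (gv m x ξ (m.e x j)).s c :=
  fun r hr => ⟨r, le_rfl, j, hr.2 _ _ le_rfl (RO.mono h hr.1), rfl⟩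

omit hF in
theorem acc_inv {ξ η : Tm k} {v y : I} {c : Two k Q K} (h0 : (acc0 m Fb x ξ v).s c)
    (h1 : (acc1 m Le Fb x η y).s c) : (Fb v y).s c ∨ (inc Le y v).s c := by
  rcases lt_trichotomy η ξ with h | rfl | h
  · exact Or.inl (h0.2 ⟨η, h⟩ y c le_rfl h1.1)
  · obtain ⟨r, hr, j, h2, h3⟩ := h0.1 c le_rfl
    obtain ⟨t, ht, j', h4, h5⟩ := h1.1 r hr
    obtain rfl := t.f.fn _ _ _ _ _ (ht.2 _ _ le_rfl (RO.mono h2 ht.1)) h4
    cases h3.symm.trans h5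
  · exact Or.inr (h1.2 ⟨ξ, h⟩ v c le_rfl h0)

theorem mix_a (p : Two k Q K) (t : Fn k Q K) (ξ : Tm k) (j : K) :
    (mix (m.X x) p t).f.s (m.a x, ξ, j) = t.s (m.a x, ξ, j) := if_neg (m.aX x)

theorem fresh_mix (p : Two k Q K) (t : Fn k Q K) (w : I) :
    fresh m Le Fb x (mix (m.X x) p t).f w = fresh m Le Fb x t w := by
  simp only [fresh, mix_a]

theorem accept {c : Two k Q K} {u : I} (hu : u ∈ m.Y x) (h : (fresh m Le Fb x c.f u).s c) :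
    ∃ c', c' ≤ c ∧ (accs m Le Fb x u).s c' := by
  obtain ⟨j, h1, h2⟩ := m.eS x u hu true
  obtain ⟨c', h3, ξ, h4, h5⟩ := exists_add c h1
  refine ⟨c', h3, RO.ex_intro ξ ⟨h2 ▸ gv_intro h4, fun η v r hr h6 => RO.reg fun w hw => ?_⟩⟩
  obtain ⟨w1, h7, j', h8, -⟩ := h6.1 w hw
  obtain ⟨t, h9, h10⟩ := h5 η η.2 w1 (h7.trans (hw.trans hr)) j' h8
  have h11 := (Two.cut h9).trans h7
  exact ⟨_, h11, h η j' v _ (h11.trans (hw.trans (hr.trans h3))) h10 _ le_rfl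
    (RO.mono h6 (h11.trans hw))⟩

omit hF in
theorem dd_elim (g : ∀ j, (m.e x j).1 ∈ m.Y x) {c : Two k Q K} {b : I}
    (h : (DD In (accs m Le Fb x) b).s c) : ∃ c', c' ≤ c ∧ ∃ y ∈ m.Y x, ∃ η,
      (acc1 m Le Fb x η y).s c' ∧ (In y b).s c' := by
  obtain ⟨c1, h1, y, h2, h3⟩ := h c le_rfl
  obtain ⟨c2, h4, η, h5⟩ := h2 c1 le_rfl
  obtain ⟨-, -, j, -, h6⟩ := h5.1 c2 le_rfl
  exact ⟨c2, h4.trans h1, y, by simpa [h6] using g j, η, h5, RO.mono h3 h4⟩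

theorem fresh_above (h : RH k Le In Fb p0) (g : Gx m Le In Fb x p0) {c : Two k Q K} (hc : c ≤ p0)
    {b : I} (hb : (DD In (accs m Le Fb x) b).s c) :
    ∃ c', c' ≤ c ∧ ∃ w ∈ m.Y x, (Le b w).s c' ∧ (fresh m Le Fb x c'.f w).s c' := by
  obtain ⟨c1, h1, y, h2, η, h3, h4⟩ := dd_elim g.eY hb
  obtain ⟨c2, h5, d, h6, h7, h8⟩ := g.c5 y h2 b c1 (h1.trans hc) h4
  obtain ⟨q, h9, w, h10, h11, h12⟩ := g.c1 y h2 d h6 c2 (h5.trans (h1.trans hc)) h8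
  have h13 := mix_le_right h9
  refine ⟨_, h13.trans (h5.trans h1), w, h10, h.tr _ _ _ _ (RO.mono h7 h13) h11, ?_⟩
  rw [fresh_mix]
  intro ξ j v r hr h14 t ht h15
  refine RO.reg fun t1 h16 => ?_
  obtain ⟨t2, h17, j', h18, h19⟩ := h15.1 t1 h16
  have h20 := h17.trans (h16.trans (ht.trans hr))
  obtain rfl := t2.f.fn _ _ _ _ _ h18 ((h20.trans h13).2 _ _ le_rfl
    (RO.mono (a := c2.f.s _) h14 (h17.trans (h16.trans ht)).1))
  exact ⟨t2, h17, h12 v ⟨ξ, j', _, h14, congrArg Prod.fst h19⟩ t2 h20 (acc_inv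
    (RO.mono h15 (h17.trans h16)) (RO.mono h3 (h20.trans (h13.trans h5))))⟩

theorem nowhere (h : RH k Le In Fb p0) (g : Gx m Le In Fb x p0) {c : Two k Q K} (hc : c ≤ p0)
    {b : I} (hb : (DD In (accs m Le Fb x) b).s c) :
    ∃ c', c' ≤ c ∧ ∃ v, (Le b v).s c' ∧ (DD In (accs m Le Fb x) v).not.s c' := by
  obtain ⟨c1, h1, y, h2, η, -, h4⟩ := dd_elim g.eY hb
  obtain ⟨c2, h5, d, h6, h7, -⟩ := g.c5 y h2 b c1 (h1.trans hc) h4
  obtain ⟨q, h9, v, h10, h11, h12⟩ := g.c2 d h6 c2 (h5.trans (h1.trans hc))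
  have h13 := mix_le_right h9
  obtain ⟨j, h14, h15⟩ := m.eS x v h10 false
  obtain ⟨c3, h16, ξ, h17, h18⟩ := exists_add (mix (m.X x) q c2.f) h14
  have h19 : (acc0 m Fb x ξ v).s c3 := ⟨h15 ▸ gv_intro h17, fun η y r hr h6 => by
    obtain ⟨w1, h7, j', h8, h9⟩ := h6 r le_rfl
    obtain ⟨t, -, h10⟩ := h18 η η.2 w1 (h7.trans hr) j' h8
    exact RO.mono (h12 y ⟨η, j', t, mix_a q c2.f _ _ ▸ h10, congrArg Prod.fst h9⟩) (hr.trans h16)⟩
  have h20 := h16.trans (h13.trans (h5.trans h1))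
  refine ⟨c3, h20, v, RO.mono (h.tr _ _ _ _ (RO.mono h7 h13) h11) h16, fun r hr h21 => ?_⟩
  obtain ⟨r', h22, y', -, η', h23, h24⟩ := dd_elim g.eY h21
  exact h.h3 v y' r' (h22.trans (hr.trans (h20.trans hc))) h24
    (acc_inv (RO.mono h19 (h22.trans hr)) h23)

variable (m Le Fb x) (O : ℕ → I → RO (Two k Q K)) (t0 : Fn k Q K) (w0 : I)

def Stp (n : ℕ) (t : Fn k Q K) (w u : I) (p : Two k Q K) (d : Fn k Q K × I) : Prop :=
  leT (m.X x) p.q d.1 t ∧ d.2 ∈ m.Y x ∧ (Le u d.2).s (mix (m.X x) p d.1) ∧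
    (((fresh m Le Fb x t w).and (Le w u)).imp ((fresh m Le Fb x d.1 d.2).and
      (RO.ex fun b => (O n b).and (Le b d.2)))).s (mix (m.X x) p d.1)

def VX : List (I × I) → Two k Q K → Fn k Q K → Prop
  | [], _, t => t = t0
  | a :: s, p, t' => ∃ t, VX s p t ∧ Stp m Le Fb x O s.length t (lastw w0 s) a.1 p (t', a.2) ∧
      ∀ d, WellOrderingRel d (t', a.2) → ∀ p', leX (m.X x) p' p →
        ¬ Stp m Le Fb x O s.length t (lastw w0 s) a.1 p' d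

variable {m Le Fb x O t0 w0}

theorem VX.mono {s : List (I × I)} {p p' : Two k Q K} {t : Fn k Q K}
    (h : VX m Le Fb x O t0 w0 s p t) (hp : leX (m.X x) p' p) : VX m Le Fb x O t0 w0 s p' t := by
  induction s generalizing t with
  | nil => exact h
  | cons a s ih =>
    obtain ⟨t1, h1, ⟨h2, h3, h4, h5⟩, h6⟩ := h
    exact ⟨t1, ih h1, ⟨h2.mono hp.1, h3, RO.mono h4 (mix_mono hp leT_rfl),
      RO.mono h5 (mix_mono hp leT_rfl)⟩, fun d h7 r hr => h6 d h7 r (hr.trans hp)⟩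

theorem VX.fn' {s : List (I × I)} {p : Two k Q K} {u w w' : I} {t t' : Fn k Q K}
    (ih : ∀ t t', VX m Le Fb x O t0 w0 s p t → VX m Le Fb x O t0 w0 s p t' → t = t')
    (h : VX m Le Fb x O t0 w0 ((u, w) :: s) p t) (h' : VX m Le Fb x O t0 w0 ((u, w') :: s) p t') :
    (t, w) = (t', w') := by
  obtain ⟨d0, h1, h2, h3⟩ := h
  obtain ⟨d1, h4, h5, h6⟩ := h'
  obtain rfl := ih _ _ h1 h4
  rcases trichotomous_of WellOrderingRel (t, w) (t', w') with h7 | h7 | h7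
  · exact absurd h2 (h6 _ h7 p (leX_of_le le_rfl))
  · exact h7
  · exact absurd h5 (h3 _ h7 p (leX_of_le le_rfl))

theorem VX.fn {s : List (I × I)} {p : Two k Q K} : ∀ t t', VX m Le Fb x O t0 w0 s p t →
    VX m Le Fb x O t0 w0 s p t' → t = t' := by
  induction s with
  | nil => exact fun _ _ h h' => Eq.trans h (Eq.symm h')
  | cons a s ih => exact fun _ _ h h' => congrArg Prod.fst (VX.fn' ih h h')

theorem VX.init {s : List (I × I)} {p : Two k Q K} {t : Fn k Q K}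
    (h : VX m Le Fb x O t0 w0 s p t) : leT (m.X x) p.q t t0 := by
  induction s generalizing t with
  | nil => exact h ▸ leT_rfl
  | cons a s ih => exact let ⟨_, h1, h2, _⟩ := h; h2.1.trans (ih h1)

theorem VX.ext (h : RH k Le In Fb p0) (g : Gx m Le In Fb x p0) {q : Two k Q K} (hq : q ≤ p0)
    (hO : Mea Le (DD In (accs m Le Fb x)) O q) {s : List (I × I)} {p : Two k Q K} {t : Fn k Q K}
    (hp : mix (m.X x) p t0 ≤ q) (h1 : VX m Le Fb x O t0 w0 s p t) {u : I} (hu : u ∈ m.Y x) :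
    ∃ p', leX (m.X x) p' p ∧ ∃ t' w', VX m Le Fb x O t0 w0 ((u, w') :: s) p' t' := by
  have h2 := (mix_mono (leX_of_le le_rfl) h1.init).trans hp
  have key : ∃ d p', leX (m.X x) p' p ∧ Stp m Le Fb x O s.length t (lastw w0 s) u p' d := by
    by_cases h3 : ((fresh m Le Fb x t (lastw w0 s)).and (Le (lastw w0 s) u)).s (mix (m.X x) p t)
    · obtain ⟨c1, h4, h5⟩ := accept (Le := Le) (Fb := Fb) (c := mix (m.X x) p t) hu (by
        rw [fresh_mix]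
        exact fun ξ j v r hr h4 w hw h5 => h.inc_up (hw.trans (hr.trans (h2.trans hq)))
          (h3.1 ξ j v r hr h4 w hw h5) (RO.mono h3.2 (hw.trans hr)))
      obtain ⟨c2, h6, b, h7, h8, h9⟩ := hO.de s.length u c1 (h4.trans h2)
        (RO.ex_intro u ⟨h5, RO.mono (h.h4 u) (h4.trans (h2.trans hq))⟩)
      obtain ⟨c3, h10, w, h11, h12, h13⟩ := fresh_above h g (h6.trans (h4.trans (h2.trans hq))) h8
      have h14 := le_mix.1 (h10.trans (h6.trans h4))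
      have h15 := mix_le_right (leX_of_le (X := m.X x) (le_refl c3))
      exact ⟨(c3.f, w), c3, h14.1, h14.2, h11, RO.mono (h.tr _ _ _ _ (RO.mono h7 h10) h12) h15,
        fun r hr _ => RO.mono (a := RO.and _ _) ⟨h13, RO.ex_intro b ⟨RO.mono h9 h10, h12⟩⟩
          (hr.trans h15)⟩
    · obtain ⟨c, h4, h5⟩ := RO.exists_not h3
      have h15 := mix_le_right (leX_of_le (X := m.X x) (le_refl c))
      exact ⟨(c.f, u), c, (le_mix.1 h4).1, (le_mix.1 h4).2, hu,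
        RO.mono (h.rf u) (h15.trans (h4.trans (h2.trans hq))),
        fun r hr h6 => absurd h6 (h5 r (hr.trans h15))⟩
  obtain ⟨d, ⟨p', h3, h4⟩, h5⟩ := WellFounded.has_min (IsWellFounded.wf (r := WellOrderingRel))
    {d | ∃ p', leX (m.X x) p' p ∧ Stp m Le Fb x O s.length t (lastw w0 s) u p' d} key
  exact ⟨p', h3, d.1, d.2, t, h1.mono h3, h4, fun d' h6 r hr h7 => h5 d' ⟨r, hr.trans h3, h7⟩ h6⟩

variable (Le w0) in
def Pl [LinearOrder I] (Val : List (I × I) → Two k Q K → Prop) :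
    List (I × I) → I → Two k Q K → Prop
  | [], z, r => (Le w0 z).s r
  | a :: s, z, r => Pl Val s z r ∧ (Le (lastw w0 s) a.1).s r ∧ Val (a :: s) r ∧ (Le a.2 z).s r ∧
      ∀ u, u < a.1 → ∀ w r', r' ≤ r → (Le (lastw w0 s) u).s r' → Val ((u, w) :: s) r' →
        (inc Le w z).s r'

section Plays

omit hF

variable [LinearOrder I] {Val : List (I × I) → Two k Q K → Prop}

theorem Pl.mono (vm : ∀ s p q, q ≤ p → Val s p → Val s q) {s : List (I × I)} {z : I}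
    {r r' : Two k Q K} (h : Pl Le w0 Val s z r) (hr : r' ≤ r) : Pl Le w0 Val s z r' := by
  induction s with
  | nil => exact RO.mono h hr
  | cons a s ih => exact ⟨ih h.1, RO.mono h.2.1 hr, vm _ _ _ hr h.2.2.1, RO.mono h.2.2.2.1 hr,
      fun u hu w t ht => h.2.2.2.2 u hu w t (ht.trans hr)⟩

theorem Pl.last {s : List (I × I)} {z : I} {r : Two k Q K} (h : Pl Le w0 Val s z r) :
    (Le (lastw w0 s) z).s r := by
  cases s
  · exact h
  · exact h.2.2.2.1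

omit [LinearOrder I] in
theorem inc_symm {a b : I} {r : Two k Q K} (h : (inc Le a b).s r) : (inc Le b a).s r :=
  ⟨h.2, h.1⟩

theorem Pl.up (hR : RH k Le In Fb p0) {s : List (I × I)} {z z' : I} {r : Two k Q K} (hr : r ≤ p0)
    (h : Pl Le w0 Val s z r) (hz : (Le z z').s r) : Pl Le w0 Val s z' r := by
  induction s with
  | nil => exact hR.tr _ _ _ _ h hz
  | cons a s ih => exact ⟨ih h.1, h.2.1, h.2.2.1, hR.tr _ _ _ _ h.2.2.2.1 hz,
      fun u hu w t ht h1 h2 => inc_symm (hR.inc_up (ht.trans hr)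
        (inc_symm (h.2.2.2.2 u hu w t ht h1 h2)) (RO.mono hz ht))⟩

theorem Pl.uniq (vf : ∀ u w w' s p, Val ((u, w) :: s) p → Val ((u, w') :: s) p → w = w')
    {z : I} {r : Two k Q K} : ∀ s s' : List (I × I), s.length = s'.length →
    Pl Le w0 Val s z r → Pl Le w0 Val s' z r → s = s'
  | [], [], _, _, _ => rfl
  | (u, w) :: s, (u', w') :: s', h, h1, h2 => by
    obtain rfl := Pl.uniq vf s s' (by simpa using h) h1.1 h2.1
    obtain rfl : u = u' := by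
      rcases lt_trichotomy u u' with h3 | h3 | h3
      · exact absurd h1.2.2.2.1 ((h2.2.2.2.2 u h3 w r le_rfl h1.2.1 h1.2.2.1).1 r le_rfl)
      · exact h3
      · exact absurd h2.2.2.2.1 ((h1.2.2.2.2 u' h3 w' r le_rfl h2.2.1 h2.2.2.1).1 r le_rfl)
    rw [vf _ _ _ _ _ h1.2.2.1 h2.2.2.1]

theorem exists_play [WellFoundedLT I] (hR : RH k Le In Fb p0) {p1 : Two k Q K} (hp : p1 ≤ p0)
    (vm : ∀ s p q, q ≤ p → Val s p → Val s q) (v0 : ∀ p, Val [] p)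
    (ve : ∀ s p, p ≤ p1 → Val s p → ∀ u, ∃ q, q ≤ p ∧ ∃ w, Val ((u, w) :: s) q ∧ (Le u w).s q) :
    ∃ p2, p2 ≤ p1 ∧ ∃ z, ∀ (n : ULift.{u} ℕ) r, r ≤ p2 → ∃ t, t ≤ r ∧
      ∃ s, s.length = n.down ∧ Pl Le w0 Val s z t := by
  obtain ⟨p2, h1, z, h2, h3⟩ := hR.baire (fun n z => RO.dense fun r => (inc Le w0 z).s r ∨
      ∃ s, s.length = n ∧ Pl Le w0 Val s z r) p1 hp
    (fun n a b t ht h1 h2 r hr => by
      obtain ⟨w, h3, h4⟩ := h1 r hr
      have h5 := h3.trans (hr.trans (ht.trans hp))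
      have h6 := RO.mono h2 (h3.trans hr)
      exact ⟨w, h3, h4.imp (fun h => inc_symm (hR.inc_up h5 (inc_symm h) h6))
        fun ⟨s, h7, h8⟩ => ⟨s, h7, h8.up hR h5 h6⟩⟩)
    (fun n z r hr => by
      suffices ∃ w, w ≤ r ∧ ∃ b, (Le z b).s w ∧ ((inc Le w0 b).s w ∨
          ∃ s, s.length = n ∧ Pl Le w0 Val s b w) by
        obtain ⟨w, h1, b, h2, h3⟩ := this
        exact ⟨w, h1, b, h2, fun t ht => ⟨t, le_rfl, h3.imp (fun h => RO.mono h ht)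
          fun ⟨s, h4, h5⟩ => ⟨s, h4, h5.mono vm ht⟩⟩⟩
      induction n with
      | zero =>
        by_cases h1 : ∃ w, w ≤ r ∧ (Le w0 z).s w
        · obtain ⟨w, h1, h2⟩ := h1
          exact ⟨w, h1, z, RO.mono (hR.rf z) (h1.trans (hr.trans hp)), Or.inr ⟨[], rfl, h2⟩⟩
        by_cases h2 : ∃ w, w ≤ r ∧ (Le z w0).s w
        · obtain ⟨w, h2, h3⟩ := h2
          exact ⟨w, h2, w0, h3, Or.inr ⟨[], rfl, RO.mono (hR.rf w0) (h2.trans (hr.trans hp))⟩⟩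
        · exact ⟨r, le_rfl, z, RO.mono (hR.rf z) (hr.trans hp), Or.inl ⟨fun w h h' => h1 ⟨w, h, h'⟩,
            fun w h h' => h2 ⟨w, h, h'⟩⟩⟩
      | succ n ih =>
        obtain ⟨r1, h1, z1, h2, h3 | ⟨s, h3, h4⟩⟩ := ih
        · exact ⟨r1, h1, z1, h2, Or.inl h3⟩
        obtain ⟨u, ⟨r2, h5, w, h6, h7, h8⟩, h9⟩ := WellFounded.has_min wellFounded_lt
          {u | ∃ r', r' ≤ r1 ∧ ∃ w, (Le (lastw w0 s) u).s r' ∧ Val ((u, w) :: s) r' ∧
            ((Le w z1).s r' ∨ (Le z1 w).s r')} (by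
            obtain ⟨q, h5, w, h6, h7⟩ := ve s r1 (h1.trans hr) (by
              cases s
              · exact v0 _
              · exact h4.2.2.1) z1
            exact ⟨z1, q, h5, w, RO.mono h4.last h5, h6, Or.inr h7⟩)
        have h10 := h5.trans (h1.trans (hr.trans hp))
        obtain ⟨b, h11, h12⟩ : ∃ b, (Le z1 b).s r2 ∧ (Le w b).s r2 :=
          h8.elim (fun h => ⟨z1, RO.mono (hR.rf _) h10, h⟩) fun h => ⟨w, h, RO.mono (hR.rf _) h10⟩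
        refine ⟨r2, h5.trans h1, b, hR.tr _ _ _ _ (RO.mono h2 h5) h11, Or.inr ⟨(u, w) :: s,
          by simp [h3], (h4.mono vm h5).up hR h10 h11, h6, h7, h12, fun u' hu w' t ht h13 h14 =>
          inc_symm (hR.inc_up (ht.trans h10) (inc_symm ⟨fun t' h15 h16 => ?_,
            fun t' h15 h16 => ?_⟩) (RO.mono h11 ht))⟩⟩
        · exact h9 u' ⟨t', h15.trans (ht.trans h5), w', RO.mono h13 h15, vm _ _ _ h15 h14,
            Or.inl h16⟩ hu
        · exact h9 u' ⟨t', h15.trans (ht.trans h5), w', RO.mono h13 h15, vm _ _ _ h15 h14,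
            Or.inr h16⟩ hu) w0
  refine ⟨p2, h1, z, fun n r hr => ?_⟩
  obtain ⟨t, h4, h5⟩ := h3 n.down r hr
  exact ⟨t, h4, h5.resolve_left fun h => h.1 t le_rfl (RO.mono h2 (h4.trans hr))⟩

end Plays

theorem VX.coh [LinearOrder I] {Val : List (I × I) → Two k Q K → Prop}
    (vf : ∀ u w w' s p, Val ((u, w) :: s) p → Val ((u, w') :: s) p → w = w')
    {z : I} {r : Two k Q K} {s s' : List (I × I)} {t t' : Fn k Q K} (h : s.length ≤ s'.length)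
    (h1 : Pl Le w0 Val s z r) (h2 : Pl Le w0 Val s' z r) (h3 : VX m Le Fb x O t0 w0 s r t)
    (h4 : VX m Le Fb x O t0 w0 s' r t') : leT (m.X x) r.q t' t := by
  induction s' generalizing t' with
  | nil => exact VX.fn _ _ h3 (Pl.uniq vf _ _ (by simpa using h) h1 h2 ▸ h4) ▸ leT_rfl
  | cons a s' ih =>
    rcases h.lt_or_eq with h5 | h5
    · obtain ⟨t1, h6, h7, -⟩ := h4
      exact h7.1.trans (ih (Nat.lt_succ_iff.1 h5) h2.1 h6)
    · exact VX.fn _ _ h3 (Pl.uniq vf _ _ h5 h1 h2 ▸ h4) ▸ leT_rfl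

theorem VX.fresh [LinearOrder I] {Val : List (I × I) → Two k Q K → Prop} {z : I}
    {s : List (I × I)} {p c : Two k Q K} {t : Fn k Q K} (h0 : (fresh m Le Fb x t0 w0).s c)
    (h1 : VX m Le Fb x O t0 w0 s p t) (h2 : Pl Le w0 Val s z c) (hc : c ≤ mix (m.X x) p t) :
    (fresh m Le Fb x t (lastw w0 s)).s c ∧
      ∀ n, s.length = n + 1 → (RO.ex fun b => (O n b).and (Le b (lastw w0 s))).s c := by
  induction s generalizing t with
  | nil => exact ⟨h1 ▸ h0, by simp⟩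
  | cons a s ih =>
    obtain ⟨t1, h3, h4, -⟩ := h1
    have h5 := h4.2.2.2 c hc ⟨(ih h3 h2.1 (hc.trans (mix_mono (leX_of_le le_rfl) h4.1))).1, h2.2.1⟩
    exact ⟨h5.1, fun n hn => by
      obtain rfl : s.length = n := by simpa using hn
      exact h5.2⟩

include m in
theorem refl [Nonempty I] (h : RH k Le In Fb p0)
    (H : ∀ (A : I → RO (Two k Q K)) p, p ≤ p0 → (∃ y, (A y).s p) → (∀ d r, r ≤ p →
      (DD In A d).s r → ∃ t, t ≤ r ∧ ∃ v, (Le d v).s t ∧ (DD In A v).not.s t) →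
      ∃ q, q ≤ p ∧ ∃ O, Mea Le (DD In A) O q) : False := by
  obtain ⟨_, _⟩ := exists_wellFoundedLT I
  obtain ⟨y0⟩ := ‹Nonempty I›
  have k0 : ∀ x, ∃ c w O, Gx m Le In Fb x p0 ∧ y0 ∈ m.Y x ∧ Supp (m.X x) p0 → c ≤ p0 ∧
      w ∈ m.Y x ∧ (fresh m Le Fb x c.f w).s c ∧ Mea Le (DD In (accs m Le Fb x)) O c := fun x => by
    by_cases h1 : Gx m Le In Fb x p0 ∧ y0 ∈ m.Y x ∧ Supp (m.X x) p0
    swap
    · exact ⟨p0, y0, fun _ _ => RO.bot, fun h2 => absurd h2 h1⟩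
    obtain ⟨c1, h2, h3⟩ := accept (Le := Le) (Fb := Fb) (c := mix (m.X x) p0 Fn.bot) h1.2.1 (by
      rw [fresh_mix]
      exact fun _ _ _ _ _ h => h.elim)
    have h4 := h2.trans (mix_le_left h1.2.2 _)
    obtain ⟨q, h5, O, h6⟩ := H _ c1 h4 ⟨y0, h3⟩ fun d r hr => nowhere h h1.1 (hr.trans h4)
    obtain ⟨c, h7, w, h8, -, h9⟩ := fresh_above h h1.1 (h5.trans h4)
      (RO.ex_intro y0 ⟨RO.mono h3 h5, RO.mono (h.h4 y0) (h5.trans h4)⟩)
    exact ⟨c, w, O, fun _ => ⟨h7.trans (h5.trans h4), h8, h9,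
      fun n a b t ht => h6.op n a b t (ht.trans h7), fun n a t ht => h6.de n a t (ht.trans h7),
      fun a t ht => h6.em a t (ht.trans h7)⟩⟩
  choose c w O k1 using k0
  have a0 := (ae_gx (m := m) h).and ((m.fY y0).and (ae_supp m p0))
  have a1 := a0.mono k1
  obtain ⟨w0, a2⟩ := m.rY w (a1.mono fun x hx => hx.2.1)
  obtain ⟨p1, a3⟩ := ae_res m c
  have hp : p1 ≤ p0 := by
    obtain ⟨x, h1, h2, h3⟩ := (a1.and (a3.and (ae_supp m p0))).exists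
    exact le_of_leX (h2.1.trans (leX_of_le h1.1)) h3
  let Val : List (I × I) → Two k Q K → Prop := fun s p =>
    ∀ᶠ x in m.U, ∃ t, VX m Le Fb x (O x) (c x).f w0 s p t
  have vm : ∀ s p q, q ≤ p → Val s p → Val s q := fun s p q hq h1 =>
    h1.mono fun x ⟨t, h2⟩ => ⟨t, h2.mono (leX_of_le hq)⟩
  have vf : ∀ u w w' s p, Val ((u, w) :: s) p → Val ((u, w') :: s) p → w = w' :=
    fun u w w' s p h1 h2 => by
      obtain ⟨x, ⟨t, h3⟩, t', h4⟩ := (h1.and h2).exists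
      exact congrArg Prod.snd (VX.fn' VX.fn h3 h4)
  obtain ⟨p2, h1, z, h2⟩ := exists_play (w0 := w0) h hp vm
    (fun p => Eventually.of_forall fun x => ⟨_, rfl⟩) fun s p h1 h2 u => by
      have k2 : ∀ x, ∃ p' w', (∃ p', leX (m.X x) p' p ∧ ∃ t' w',
          VX m Le Fb x (O x) (c x).f w0 ((u, w') :: s) p' t') → leX (m.X x) p' p ∧ ∃ t',
          VX m Le Fb x (O x) (c x).f w0 ((u, w') :: s) p' t' := fun x => by
        by_cases h3 : ∃ p', leX (m.X x) p' p ∧ ∃ t' w',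
          VX m Le Fb x (O x) (c x).f w0 ((u, w') :: s) p' t'
        · obtain ⟨p', h3, t', w', h4⟩ := h3
          exact ⟨p', w', fun _ => ⟨h3, t', h4⟩⟩
        · exact ⟨p, u, fun h4 => absurd h4 h3⟩
      choose p' w' k2 using k2
      have a4 := ((a0.and (a1.and (a3.and (h2.and (m.fY u))))).mono
        fun x ⟨h3, h4, h5, ⟨t, h6⟩, h7⟩ => VX.ext h h3.1 h4.1 h4.2.2.2
          (mix_le_right ((leX_of_le h1).trans h5.1)) h6 h7).mono k2
      obtain ⟨w1, a5⟩ := m.rY w' (a4.mono fun x ⟨_, _, _, _, h3, _⟩ => h3.2.1)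
      obtain ⟨q, a6⟩ := ae_res m p'
      have h3 : Val ((u, w1) :: s) q := (a4.and (a5.and a6)).mono fun x ⟨⟨_, t, h3⟩, h4, h5⟩ =>
        ⟨t, h4 ▸ h3.mono h5.1⟩
      refine ⟨q, ?_, w1, h3, RO.reg fun r hr => ?_⟩
      · obtain ⟨x, h3, h4, h5⟩ := (a4.and (a6.and (ae_supp m p))).exists
        exact le_of_leX (h4.1.trans h3.1) h5
      · obtain ⟨x, ⟨t, _, _, h4, -⟩, h5⟩ := ((vm _ _ _ hr h3).and (ae_supp m r)).exists
        exact ⟨_, mix_le_left h5 t, h4.2.2.1⟩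
  have hw := mk_le_aleph0.trans_lt hF.out.w (a := #(ULift.{u} ℕ))
  obtain ⟨g, h3, S, h4⟩ := star_pre hw
    (fun (n : ULift.{u} ℕ) r => ∃ s : List (I × I), s.length = n.down ∧ Pl Le w0 Val s z r)
    (fun _ _ _ hq ⟨s, h3, h4⟩ => ⟨s, h3, h4.mono vm hq⟩) p2 h2
  let ι := Σ n, S n
  have hι : #ι < k := by
    rw [mk_sigma]; exact sum_lt_of_isRegular hF.out.reg hw fun n => (h4 n).1
  choose s h5 h6 using fun i : ι => ((h4 i.1).2.1 i.2 i.2.2).1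
  have a4 : ∀ᶠ x in m.U, ∀ i ∈ (univ : Set ι), ∃ t,
      VX m Le Fb x (O x) (c x).f w0 (s i) ⟨i.2.1, g⟩ t := m.ball (by simpa using hι) fun i _ => by
    have := h6 i
    generalize s i = l at this
    cases l
    · exact Eventually.of_forall fun x => ⟨_, rfl⟩
    · exact this.2.2.1
  obtain ⟨x, -, ⟨b1, -, b2, b3⟩, rfl, b4, b5, b6, b7⟩ := (a0.and (a1.and (a2.and (a3.and (a4.and
    ((ae_supp m ⟨p2.q, g⟩).and (m.fY z))))))).exists
  choose t b8 using fun i => b5 i trivial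
  have b9 : ∀ i : ι, leX (m.X x) ⟨i.2.1, g⟩ p1 := fun i =>
    leX_of_le ((Two.mk_le ((h4 i.1).2.1 i.2 i.2.2).2 h3).trans h1)
  have b10 : ∀ i : ι, mix (m.X x) ⟨i.2.1, g⟩ (t i) ≤ c x := fun i =>
    (mix_mono (b9 i) (b8 i).init).trans (mix_le_right b4.1)
  have b11 : ∀ i : ι, mix (m.X x) ⟨i.2.1, g⟩ (t i) ≤ ⟨i.2.1, g⟩ := fun i =>
    mix_le_left (p := ⟨i.2.1, g⟩) b6 _
  obtain ⟨f, hf⟩ := Fn.exists_un hι (fun i => bl i.2.1)
    (fun i => (mix (m.X x) ⟨i.2.1, g⟩ (t i)).f) fun i j a ξ b b' r h7 h8 h9 h10 => by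
      obtain ⟨r1, h11, h12⟩ := of_bl h7
      obtain ⟨r2, h13, h14⟩ := h8 r1 h11
      have h15 := Two.mk_le (h13.trans h12) fun _ _ (h : (g.s _).s _) => h
      have h16 := Two.mk_le h14 fun _ _ (h : (g.s _).s _) => h
      have h17 := RO.mono h9 (h13.trans h11)
      have h18 := RO.mono h10 (h13.trans h11)
      rcases le_total (s i).length (s j).length with h19 | h19
      · exact Fn.fn _ _ _ _ _ r2 ((mix_mono (leX_of_le le_rfl) (VX.coh vf h19 ((h6 i).mono vm h15)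
          ((h6 j).mono vm h16) ((b8 i).mono (leX_of_le h15)) ((b8 j).mono (leX_of_le h16)))).2
            _ r2 le_rfl h17) h18
      · exact Fn.fn _ _ _ _ _ r2 h17 ((mix_mono (leX_of_le le_rfl) (VX.coh vf h19
          ((h6 j).mono vm h16) ((h6 i).mono vm h15) ((b8 j).mono (leX_of_le h16))
            ((b8 i).mono (leX_of_le h15)))).2 _ r2 le_rfl h18)
  have b12 : ∀ (i : ι) (d : Two k Q K), d ≤ ⟨p2.q, f⟩ → d.q ≤ i.2.1 →
      d ≤ mix (m.X x) ⟨i.2.1, g⟩ (t i) := fun i d h7 h8 => ⟨h8, fun τ r h9 h10 =>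
    h7.2 τ r h9 (hf τ ▸ RO.ex_intro i ⟨bl_of_le (h9.trans h8), h10⟩)⟩
  have b13 : ∀ n d, d ≤ ⟨p2.q, f⟩ → ∃ d', d' ≤ d ∧ ∃ i : ι, i.1 = n ∧
      d' ≤ mix (m.X x) ⟨i.2.1, g⟩ (t i) := fun n d h7 => by
    obtain ⟨e, h8, r, h9, h10⟩ := (h4 n).2.2 d.q h7.1
    exact ⟨_, Two.cut h9, ⟨n, e, h8⟩, rfl, b12 _ _ ((Two.cut h9).trans h7) h10⟩
  have b14 := fun (i : ι) d (h7 : d ≤ mix (m.X x) ⟨i.2.1, g⟩ (t i)) =>
    VX.fresh (RO.mono b2 (h7.trans (b10 i))) (b8 i) ((h6 i).mono vm (h7.trans (b11 i))) h7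
  obtain ⟨c1, h7, h8⟩ := accept (Le := Le) (Fb := Fb) (c := ⟨p2.q, f⟩) b7
    fun ξ j v r hr h7 d hd h8 => RO.reg fun d1 h9 => by
      have h10 : (f.s (m.a x, ξ, j)).s d1.q := RO.mono h7 (h9.trans hd).1
      obtain ⟨r1, h11, i, h12, h13⟩ := (hf _ ▸ h10) d1.q le_rfl
      obtain ⟨r2, h14, h15⟩ := of_bl h12
      have h16 := Two.cut (h14.trans h11)
      have h17 := b12 i _ (h16.trans (h9.trans (hd.trans hr))) h15
      exact ⟨_, h16, h.inc_up (h17.trans ((b10 i).trans b1)) ((b14 i _ h17).1 ξ j v _ le_rfl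
        (RO.mono (a := (t i).s _) (mix_a _ (t i) ξ j ▸ h13) h14) _ le_rfl (RO.mono h8 (h16.trans h9)))
        ((h6 i).mono vm (h17.trans (b11 i))).last⟩
  obtain ⟨c2, h9, i, -, h10⟩ := b13 ⟨0⟩ c1 h7
  have h11 := h10.trans (b10 i)
  have h12 : (DD In (accs m Le Fb x) z).s c2 :=
    RO.ex_intro z ⟨RO.mono h8 h9, RO.mono (h.h4 z) (h11.trans b1)⟩
  refine b3.em z c2 h11 h12 fun n => RO.reg fun d hd => ?_
  obtain ⟨d1, h13, j, h14, h15⟩ := b13 ⟨n + 1⟩ d (hd.trans (h9.trans h7))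
  obtain ⟨d2, h16, b, h17, h18⟩ := (b14 j d1 h15).2 n (by rw [h5, h14]) d1 le_rfl
  exact ⟨d2, h16.trans h13, b3.op n b z d2 (h16.trans (h15.trans (b10 j))) h17 (h.tr _ _ _ _ h18
    ((h6 j).mono vm (h16.trans (h15.trans (b11 j)))).last)
    (RO.mono h12 (h16.trans (h13.trans hd)))⟩

end Pool.Agent.Lib.MP_0fa4a2_gt
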