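import Pool.Agent.Lib.MP_0fa4a2_gt.Base

/-! The specializing poset of a tree without uncountable chains has countable antichains. -/

namespace Pool.Agent.Lib.MP_0fa4a2_gt

open Pool.Agent.Lib.MP_2739cb_lc Pool.Agent.Lib.MP_783f50_lc Cardinal Set Nm

set_option synthInstance.maxSize 100000

universe u v

section Internal

variable {M : Type v} [ZM M]

theorem ctbl_empty : Ctbl (∅ : M) := ctbl_om.mono fun z hz => absurd hz (not_mem_empty z)

theorem ctbl_fin {σ : Type*} (s : Finset σ) (A : σ → M) (h : ∀ k ∈ s, Ctbl (A k)) :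
    ∃ U : M, Ctbl U ∧ ∀ k ∈ s, A k ⊆ U := by
  classical
  induction s using Finset.induction_on with
  | empty => exact ⟨∅, ctbl_empty, by simp⟩
  | insert a s _ ih =>
    obtain ⟨U, h1, h2⟩ := ih fun k hk => h k (by simp [hk])
    refine ⟨A a ∪ U, (h a (by simp)).union h1, fun k hk z hz => ?_⟩
    rcases Finset.mem_insert.1 hk with rfl | hk
    · exact mem_union.2 (Or.inl hz)
    · exact mem_union.2 (Or.inr (h2 k hk z hz))

theorem exists_uf {I : M} (hI : ¬ Ctbl I) : ∃ F : M,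
    (∀ A B, A ∈ F → B ∈ F → ∃ z, z ∈ A ∧ z ∈ B) ∧
    ∀ {σ : Type} (s : Finset σ) (A : σ → M) (Z : M), (∀ k, A k ⊆ I) → Ctbl Z →
      (∀ z, z ∈ I → z ∈ Z ∨ ∃ k ∈ s, z ∈ A k) → ∃ k ∈ s, A k ∈ F := by
  classical
  obtain ⟨F, h1, ⟨h2, h3⟩, h4⟩ := zorn' (pw I) (fun F => (∀ A, A ∈ F → ¬ Ctbl A) ∧
      ∀ A B, A ∈ F → B ∈ F → ∃ C, C ∈ F ∧ C ⊆ A ∩ B) (by
    intro C hC hc
    simp only [mem_sU]
    refine ⟨fun A ⟨y, hy, h⟩ => (hC y hy).2.1 A h, fun A B ⟨y, hy, h1⟩ ⟨y', hy', h2⟩ => ?_⟩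
    rcases hc y y' hy hy' with h | h
    · obtain ⟨D, h3, h4⟩ := (hC y' hy').2.2 A B (h _ h1) h2
      exact ⟨D, ⟨y', hy', h3⟩, h4⟩
    · obtain ⟨D, h3, h4⟩ := (hC y hy).2.2 A B h1 (h _ h2)
      exact ⟨D, ⟨y, hy, h3⟩, h4⟩)
  have h1' : ∀ A, A ∈ F → A ⊆ I := fun A h => mem_pw.1 (h1 A h)
  have h5 : I ∈ F := by
    refine h4 (F ∪ {I}) (fun A h => ?_) ⟨fun A h => ?_, fun A B hA hB => ?_⟩
      (fun A h => by simp [h]) I (by simp)
    · rcases mem_union.1 h with h | h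
      · exact h1 A h
      · rw [mem_single.1 h]; exact mem_pw.2 (sub_refl I)
    · rcases mem_union.1 h with h | h
      · exact h2 A h
      · rwa [mem_single.1 h]
    · simp only [MP_783f50_lc.mem_union, mem_single] at hA hB ⊢
      rcases hA with hA | rfl <;> rcases hB with hB | rfl
      · obtain ⟨C, h5, h6⟩ := h3 A B hA hB
        exact ⟨C, Or.inl h5, h6⟩
      · exact ⟨A, Or.inl hA, fun z hz => mem_inter.2 ⟨hz, h1' A hA z hz⟩⟩
      · exact ⟨B, Or.inl hB, fun z hz => mem_inter.2 ⟨h1' B hB z hz, hz⟩⟩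
      · exact ⟨B, Or.inr rfl, fun z hz => mem_inter.2 ⟨hz, hz⟩⟩
  have h6 : ∀ A, A ⊆ I → (∀ B, B ∈ F → ¬ Ctbl (A ∩ B)) → A ∈ F := fun A hA h => by
    refine h4 (sep (pw I) fun Z => Z ∈ F ∨ ∃ B, B ∈ F ∧ Z = A ∩ B) (fun Z hZ => (mem_sep.1 hZ).1)
      ⟨fun Z hZ => ?_, fun Z Z' hZ hZ' => ?_⟩ (fun Z hZ => mem_sep.2 ⟨h1 Z hZ, Or.inl hZ⟩) A
      (mem_sep.2 ⟨mem_pw.2 hA, Or.inr ⟨I, h5, zext fun z => by simpa using hA z⟩⟩)
    · rcases (mem_sep.1 hZ).2 with h7 | ⟨B, h7, rfl⟩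
      · exact h2 Z h7
      · exact h B h7
    · have k : ∀ Z, Z ∈ sep (pw I) (fun Z => Z ∈ F ∨ ∃ B, B ∈ F ∧ Z = A ∩ B) →
          ∃ B, B ∈ F ∧ A ∩ B ⊆ Z := fun Z hZ => by
        rcases (mem_sep.1 hZ).2 with h7 | ⟨B, h7, rfl⟩
        · exact ⟨Z, h7, fun z hz => (mem_inter.1 hz).2⟩
        · exact ⟨B, h7, sub_refl _⟩
      obtain ⟨B, h7, h8⟩ := k Z hZ
      obtain ⟨B', h9, h10⟩ := k Z' hZ'
      obtain ⟨C, h11, h12⟩ := h3 B B' h7 h9
      refine ⟨A ∩ C, mem_sep.2 ⟨mem_pw.2 fun z hz => hA z (mem_inter.1 hz).1, Or.inr ⟨C, h11, rfl⟩⟩,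
        fun z hz => ?_⟩
      have h13 := mem_inter.1 (h12 z (mem_inter.1 hz).2)
      exact mem_inter.2 ⟨h8 z (mem_inter.2 ⟨(mem_inter.1 hz).1, h13.1⟩),
        h10 z (mem_inter.2 ⟨(mem_inter.1 hz).1, h13.2⟩)⟩
  refine ⟨F, fun A B hA hB => ?_, fun s A Z hA hZ h => ?_⟩
  · obtain ⟨C, h7, h8⟩ := h3 A B hA hB
    rcases empty_or C with rfl | ⟨z, hz⟩
    · exact absurd ctbl_empty (h2 _ h7)
    · exact ⟨z, mem_inter.1 (h8 z hz)⟩
  · generalize I = B at h5 h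
    induction s using Finset.induction_on generalizing B Z with
    | empty => exact absurd (hZ.mono fun z hz => by simpa using h z hz) (h2 B h5)
    | insert a s _ ih =>
      by_cases h7 : A a ∈ F
      · exact ⟨a, by simp, h7⟩
      obtain ⟨B', h8, h9⟩ : ∃ B', B' ∈ F ∧ Ctbl (A a ∩ B') := by
        by_contra hc
        exact h7 (h6 _ (hA a) fun B' h8 h9 => hc ⟨B', h8, h9⟩)
      obtain ⟨C, h10, h11⟩ := h3 B B' h5 h8
      obtain ⟨k, h12, h13⟩ := ih _ (hZ.union h9) C h10 fun z hz => by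
        have h12 := mem_inter.1 (h11 z hz)
        rcases h z h12.1 with h13 | ⟨k, h13, h14⟩
        · simp [h13]
        · rcases Finset.mem_insert.1 h13 with rfl | h13
          · simp [h14, h12.2]
          · exact Or.inr ⟨k, h13, h14⟩
      exact ⟨k, by simp [h12], h13⟩

theorem spec_int {ι : Type} [Fintype ι] (col : ι → ℕ) (R I : M) (f : ι → M)
    (ht : ∀ x y z, op x z ∈ R → op y z ∈ R → op x y ∈ R ∨ op y x ∈ R)
    (hn : ∀ C : M, (∀ x y, x ∈ C → y ∈ C → op x y ∈ R ∨ op y x ∈ R) → Ctbl C)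
    (hf : ∀ i (a x y : M), op a x ∈ f i → op a y ∈ f i → x = y)
    (hi : ∀ i j a x y, a ∈ I → op a x ∈ f i → op a y ∈ f j → col i = col j → x ≠ y → op x y ∉ R)
    (ha : ∀ a b, a ∈ I → b ∈ I → a ≠ b → ∃ i j x y, op a x ∈ f i ∧ op b y ∈ f j ∧
      col i = col j ∧ x ≠ y ∧ (op x y ∈ R ∨ op y x ∈ R)) : Ctbl I := by
  classical
  by_contra hI
  obtain ⟨ρ, ⟨J, h1, h2, h3⟩, h4⟩ := (toFinite {ρ : Finset ι | ∃ J, J ⊆ I ∧ ¬ Ctbl J ∧
    ∀ i ∈ ρ, ∃ x, ∀ a, a ∈ J → op a x ∈ f i}).exists_maximal ⟨∅, I, sub_refl I, hI, by simp⟩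
  have h5 : ∀ i, i ∉ ρ → ∀ x, Ctbl (sep J fun a => op a x ∈ f i) := fun i h x => by
    by_contra hc
    refine h (h4 (y := insert i ρ) ⟨_, fun a ha => h1 a (mem_sep.1 ha).1, hc, fun j hj => ?_⟩
      (Finset.subset_insert _ _) (by simp))
    rcases Finset.mem_insert.1 hj with rfl | hj
    · exact ⟨x, fun a ha => (mem_sep.1 ha).2⟩
    · obtain ⟨y, hy⟩ := h3 j hj
      exact ⟨y, fun a ha => hy a (mem_sep.1 ha).1⟩
  have hW : ∀ x y, op x y ∈ R → x ∈ sU (sU R) := fun x y h =>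
    mem_sU.2 ⟨{x}, mem_sU.2 ⟨_, h, by simp [op]⟩, by simp⟩
  have h6 : ∀ i, i ∉ ρ → ∀ C U : M, (∀ x y, x ∈ C → y ∈ C → op x y ∈ R ∨ op y x ∈ R) →
      (∀ a, a ∈ U → a ∈ J ∧ ∃ x, x ∈ C ∧ op a x ∈ f i) → Ctbl U := fun i h C U hC hU =>
    (hn C hC).cover' (fun x => sep J fun a => op a x ∈ f i) (fun x _ => h5 i h x) fun a ha =>
      let ⟨h7, x, h8, h9⟩ := hU a ha; ⟨x, h8, mem_sep.2 ⟨h7, h9⟩⟩
  obtain ⟨F, h7, h8⟩ := exists_uf h2
  let B : ι → ι → M → M := fun i j a =>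
    sep J fun b => ∃ x y, op a x ∈ f i ∧ op b y ∈ f j ∧ op x y ∈ R
  let s : Finset (ι × ι) := Finset.univ.filter fun k => k.1 ∉ ρ
  have h9 : ∀ a, a ∈ J → ∃ k ∈ s, B k.1 k.2 a ∈ F := fun a haJ => by
    let Z : ι × ι → M := fun k => sep J fun b => ∃ x y, op a x ∈ f k.2 ∧ op b y ∈ f k.1 ∧ op y x ∈ R
    obtain ⟨U, hU, hZ⟩ := ctbl_fin s Z fun k hk => by
      refine h6 k.1 (by simpa [s] using hk) (sep (sU (sU R)) fun y => ∃ x, op a x ∈ f k.2 ∧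
        op y x ∈ R) _ (fun y y' hy hy' => ?_) fun b hb => ?_
      · obtain ⟨x, h9, h10⟩ := (mem_sep.1 hy).2
        obtain ⟨x', h11, h12⟩ := (mem_sep.1 hy').2
        exact ht _ _ x h10 (hf _ _ _ _ h11 h9 ▸ h12)
      · obtain ⟨h9, x, y, h10, h11, h12⟩ := mem_sep.1 hb
        exact ⟨h9, y, mem_sep.2 ⟨hW _ _ h12, x, h10, h12⟩, h11⟩
    refine h8 s (fun k => B k.1 k.2 a) ({a} ∪ U) (fun k z hz => (mem_sep.1 hz).1)
      ((ctbl_single a).union hU) fun b hb => ?_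
    by_cases hab : a = b
    · simp [hab]
    obtain ⟨i, j, x, y, h9, h10, h11, h12, h13⟩ := ha a b (h1 a haJ) (h1 b hb) hab
    rcases h13 with h13 | h13
    · refine Or.inr ⟨(i, j), ?_, mem_sep.2 ⟨hb, x, y, h9, h10, h13⟩⟩
      simp only [s, Finset.mem_filter, Finset.mem_univ, true_and]
      intro h14
      obtain ⟨z, hz⟩ := h3 i h14
      exact hi i j b x y (h1 b hb) (hf _ _ _ _ (hz a haJ) h9 ▸ hz b hb) h10 h11 h12 h13
    · refine Or.inl (MP_783f50_lc.mem_union.2 (Or.inr (hZ (j, i) ?_ b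
        (mem_sep.2 ⟨hb, x, y, h9, h10, h13⟩))))
      simp only [s, Finset.mem_filter, Finset.mem_univ, true_and]
      intro h14
      obtain ⟨z, hz⟩ := h3 j h14
      exact hi j i a y x (h1 a haJ) (hf _ _ _ _ (hz b hb) h10 ▸ hz a haJ) h9 h11.symm h12.symm h13
  obtain ⟨U, hU, h10⟩ := ctbl_fin s (fun k => sep J fun a => B k.1 k.2 a ∈ F) fun k hk => by
    refine h6 k.1 (by simpa [s] using hk) (sep (sU (sU R)) fun x => ∃ a, op a x ∈ f k.1 ∧
      B k.1 k.2 a ∈ F) _ (fun x x' hx hx' => ?_) fun a ha => ?_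
    · obtain ⟨a, h10, h11⟩ := (mem_sep.1 hx).2
      obtain ⟨a', h12, h13⟩ := (mem_sep.1 hx').2
      obtain ⟨b, h14, h15⟩ := h7 _ _ h11 h13
      obtain ⟨z, y, h16, h17, h18⟩ := (mem_sep.1 h14).2
      obtain ⟨z', y', h19, h20, h21⟩ := (mem_sep.1 h15).2
      exact ht _ _ y (hf _ _ _ _ h16 h10 ▸ h18) (hf _ _ _ _ h19 h12 ▸ hf _ _ _ _ h20 h17 ▸ h21)
    · obtain ⟨h10, h11⟩ := mem_sep.1 ha
      obtain ⟨b, h14, -⟩ := h7 _ _ h11 h11
      obtain ⟨x, y, h16, -, h18⟩ := (mem_sep.1 h14).2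
      exact ⟨h10, x, mem_sep.2 ⟨hW _ _ h18, a, h16, h11⟩, h16⟩
  exact h2 (hU.mono fun a ha => let ⟨k, h11, h12⟩ := h9 a ha; h10 k h11 a (mem_sep.2 ⟨ha, h12⟩))

end Internal

variable {P : Type u} [Preorder P]

section Truth

variable [OrderTop P] [CovC P]

theorem T_op (f a b : Nm P) : T (appR f a b) ↔ op (cls a) (cls b) ∈ cls f :=
  (T_app f a b).trans app_iff

theorem T_in (a b : Nm P) : T (RO.mem a b) ↔ cls a ∈ cls b := T_mem a b

theorem T_ct (Z : Nm P) : T (covR Z) ↔ Ctbl (cls Z) := (T_cov Z).trans ctbl_iff_cov.symm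

omit [CovC P] in
theorem T_ex_fin {ι : Type} [Finite ι] (f : ι → RO P) : T (RO.ex f) ↔ ∃ i, T (f i) := by
  refine ⟨fun h => ?_, fun ⟨i, h⟩ => h.mono fun _ => RO.ex_intro i⟩
  by_contra hc
  have h1 : ∀ᶠ p in UF P, ∀ i, (f i).not.s p :=
    Filter.eventually_all.2 fun i => (T_not _).2 fun h => hc ⟨i, h⟩
  obtain ⟨p, h2, h3⟩ := (h1.and h).exists
  obtain ⟨r, h4, i, h5⟩ := h3 p le_rfl
  exact h2 i r h4 h5

omit [CovC P] in
theorem T_cst (φ : Prop) : T (cst φ : RO P) ↔ φ :=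
  ⟨fun h => let ⟨_, h⟩ := h.nonempty; h, fun h => T.of_forall fun _ => h⟩

end Truth

def NoChain (pre : W1.{u} → W1.{u} → P → Prop) : Prop :=
  ∀ c : W1.{u} → P → Prop, (∀ a p q, q ≤ p → c a p → c a q) → ∀ p,
    (∀ ξ η t, t ≤ p → c ξ t → c η t → ∃ w, w ≤ t ∧ (pre ξ η w ∨ pre η ξ w)) →
    ∃ r, r ≤ p ∧ ∃ S : Set W1.{u}, S.Countable ∧ ∀ ξ t, t ≤ r → c ξ t → ξ ∈ S

theorem spec_part [OrderTop P] [CovC P] {pre : W1.{u} → W1.{u} → P → Prop}
    (hm : ∀ a b p q, q ≤ p → pre a b p → pre a b q)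
    (ht : ∀ a b c r, pre a c r → pre b c r → ∃ t, t ≤ r ∧ (pre a b t ∨ pre b a t))
    (hn : NoChain pre) {J : Type u} {acc : J → P → Prop}
    (hc : ∀ a p q, q ≤ p → acc a p → acc a q) {ι : Type} [Fintype ι] (col : ι → ℕ)
    (x : J → ι → W1.{u})
    (hi : ∀ a r, acc a r → ∀ i j, col i = col j → x a i ≠ x a j → ¬ pre (x a i) (x a j) r)
    (ha : ∀ a b r, a ≠ b → acc a r → acc b r → ∃ t, t ≤ r ∧ ∃ i j, col i = col j ∧
      x a i ≠ x b j ∧ (pre (x a i) (x b j) t ∨ pre (x b j) (x a i) t)) :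
    ∃ r, ∃ S : Set J, S.Countable ∧ ∀ a t, t ≤ r → acc a t → a ∈ S := by
  let ck : J → Nm P := fun a => on (Ordinal.typein WellOrderingRel a)
  have k0 : ∀ a b p, FEq (ck a) (ck b) p → a = b := fun a b p h =>
    Ordinal.typein_injective _ (on_inj h)
  let Rn : Nm P := relNm {t : W1.{u} × W1.{u} × P // pre t.1 t.2.1 t.2.2} (fun t => nw t.1.1)
    (fun t => nw t.1.2.1) fun t => t.1.2.2
  let In : Nm P := Nm.mk {t : J × P // acc t.1 t.2} (fun t => ck t.1.1) fun t => t.1.2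
  let fn : ι → Nm P := fun i => relNm J ck (fun a => nw (x a i)) fun _ => ⊤
  have r1 : ∀ {a b y z p}, pre a b p → FEq y (nw a) p → FEq z (nw b) p → (appR Rn y z).s p :=
    fun {a b y z p} h h1 h2 => Ext.subst (fun y => appR Rn y z) h1.symm
      (Ext.subst (fun z => appR Rn _ z) h2.symm (app_relNm (⟨(a, b, p), h⟩ :
        {t : W1.{u} × W1.{u} × P // pre t.1 t.2.1 t.2.2}) le_rfl))
  have r2 : ∀ {y z p}, (appR Rn y z).s p → ∀ q, q ≤ p → ∃ r, r ≤ q ∧ ∃ a b, pre a b r ∧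
      FEq y (nw a) r ∧ FEq z (nw b) r := fun h q hq =>
    let ⟨r, hr, i, h1, h2⟩ := of_app_relNm h q hq; ⟨r, hr, _, _, hm _ _ _ _ h1 i.2, h2⟩
  have i2 : ∀ {y p}, FMem y In p → ∀ q, q ≤ p → ∃ r, r ≤ q ∧ ∃ a, acc a r ∧ FEq y (ck a) r :=
    fun h q hq => let ⟨r, hr, i, h1, h2⟩ := h q hq; ⟨r, hr, _, hc _ _ _ h1 i.2, h2⟩
  have f1 : ∀ {i a y p}, FEq y (ck a) p → (appR (fn i) y (nw (x a i))).s p := fun {i a y p} h =>
    Ext.subst (fun y => appR (fn i) y _) h.symm (app_relNm a le_top)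
  have f2 : ∀ {i a y z p}, (appR (fn i) y z).s p → FEq y (ck a) p → FEq z (nw (x a i)) p :=
    fun {i a y z p} h h1 => FEq.reg fun q hq => by
      obtain ⟨r, hr, b, -, h2, h3⟩ := of_app_relNm h q hq
      obtain rfl := k0 _ _ _ ((h1.mono (hr.trans hq)).symm.trans h2)
      exact ⟨r, hr, h3⟩
  have H : Ctbl (cls In) := by
    refine spec_int col (cls Rn) (cls In) (fun i => cls (fn i)) ?_ ?_ (fun i => ?_)
      (fun i j => ?_) ?_
    · have : T (RO.all fun y => RO.all fun z => RO.all fun w => (appR Rn y w).imp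
          ((appR Rn z w).imp ((appR Rn y z).or (appR Rn z y)))) := by
        refine T.of_forall fun p y z w q _ h1 r hr h2 t ht' => ?_
        obtain ⟨t1, h3, a, c, h4, h5, h6⟩ := r2 h1 t (ht'.trans hr)
        obtain ⟨t2, h7, b, c', h8, h9, h10⟩ := r2 h2 t1 (h3.trans ht')
        obtain rfl := nw_inj ((h6.mono h7).symm.trans h10)
        obtain ⟨t3, h11, h12⟩ := ht a b c t2 (hm _ _ _ _ h7 h4) h8
        have h13 := h5.mono (h11.trans h7)
        exact ⟨t3, h11.trans (h7.trans h3), h12.imp (fun h => r1 h h13 (h9.mono h11))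
          fun h => r1 h (h9.mono h11) h13⟩
      simpa only [T_all, T_imp, T_or, T_op, cls_rep] using this
    · have : T (RO.all fun C => (RO.all fun y => RO.all fun z => (RO.mem y C).imp
          ((RO.mem z C).imp ((appR Rn y z).or (appR Rn z y)))).imp (covR C)) := by
        refine T.of_forall fun p C q _ h1 => RO.reg fun r hr => ?_
        obtain ⟨t, h2, S, h3, h4⟩ := hn (fun a t => FMem (nw a) C t) (fun _ _ _ h h1 => h1.mono h) r
          fun a b t h2 h3 h4 => by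
            obtain ⟨w, h5, h6⟩ := h1 _ _ t (h2.trans hr) h3 t le_rfl h4 t le_rfl
            rcases h6 with h6 | h6 <;> obtain ⟨w1, h7, a', b', h8, h9, h10⟩ := r2 h6 w le_rfl
            · exact ⟨w1, h7.trans h5, Or.inl (nw_inj h9 ▸ nw_inj h10 ▸ h8)⟩
            · exact ⟨w1, h7.trans h5, Or.inr (nw_inj h9 ▸ nw_inj h10 ▸ h8)⟩
        refine ⟨t, h2, cov_of_ctbl h3 nw fun z w h5 h6 => ?_⟩
        obtain ⟨w1, h7, h8⟩ := h1 _ _ w (h5.trans (h2.trans hr)) h6 w le_rfl h6 w le_rfl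
        obtain ⟨w2, h9, a, b, -, h10, -⟩ := r2 (h8.elim id id) w1 le_rfl
        exact ⟨w2, h9.trans h7, a, h4 a w2 (h9.trans (h7.trans h5))
          ((h6.mono (h9.trans h7)).subst_left h10), h10⟩
      simp only [↓T_ct, T_all, T_imp, T_or, T_op, T_in, cls_rep] at this
      exact this
    · have : T (RO.all fun a => RO.all fun y => RO.all fun z => (appR (fn i) a y).imp
          ((appR (fn i) a z).imp (RO.eq y z))) := by
        refine T.of_forall fun p a y z q _ h1 r hr h2 => FEq.reg fun t ht' => ?_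
        obtain ⟨w, h3, b, -, h4, h5⟩ := of_app_relNm h2 t ht'
        exact ⟨w, h3, (f2 (RO.mono h1 (h3.trans (ht'.trans hr))) h4).trans h5.symm⟩
      simpa only [T_all, T_imp, T_eq, T_op, cls_rep] using this
    · have : T (RO.all fun a => RO.all fun y => RO.all fun z => (RO.mem a In).imp
          ((appR (fn i) a y).imp ((appR (fn j) a z).imp ((cst (col i = col j)).imp
            ((RO.eq y z).not.imp (appR Rn y z).not))))) := by
        refine T.of_forall fun p a y z q _ h1 q1 e1 h2 q2 e2 h3 q3 e3 h4 q4 e4 h5 q5 e5 h6 => ?_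
        have e6 := e5.trans (e4.trans e3)
        obtain ⟨w, h7, b, h8, h9⟩ := i2 h1 q5 (e6.trans (e2.trans e1))
        have h10 := f2 (RO.mono h2 (h7.trans (e6.trans e2))) h9
        have h11 := f2 (RO.mono h3 (h7.trans e6)) h9
        obtain ⟨w1, h12, c, d, h13, h14, h15⟩ := r2 h6 w h7
        refine hi b w1 (hc _ _ _ h12 h8) i j h4 (fun h => h5 w (h7.trans e5)
          (h10.trans (h ▸ h11.symm))) ?_
        exact nw_inj (h14.symm.trans (h10.mono h12)) ▸ nw_inj (h15.symm.trans (h11.mono h12)) ▸ h13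
      simpa only [T_all, T_imp, T_eq, T_op, T_in, T_cst, T_not, cls_rep] using this
    · have : T (RO.all fun a => RO.all fun b => (RO.mem a In).imp ((RO.mem b In).imp
          ((RO.eq a b).not.imp (RO.ex fun i => RO.ex fun j => RO.ex fun y => RO.ex fun z =>
            (appR (fn i) a y).and ((appR (fn j) b z).and ((cst (col i = col j)).and
              ((RO.eq y z).not.and ((appR Rn y z).or (appR Rn z y))))))))) := by
        refine T.of_forall fun p a b q _ h1 q1 e1 h2 q2 e2 h3 q3 e3 => ?_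
        obtain ⟨w, h4, c, h5, h6⟩ := i2 h1 q3 (e3.trans (e2.trans e1))
        obtain ⟨w1, h7, d, h8, h9⟩ := i2 h2 w (h4.trans (e3.trans e2))
        obtain ⟨t, h10, i, j, h11, h12, h13⟩ := ha c d w1 (fun h => h3 w1 (h7.trans (h4.trans e3))
          ((h6.mono h7).trans (h ▸ h9.symm))) (hc _ _ _ h7 h5) h8
        refine ⟨t, h10.trans (h7.trans h4), i, RO.ex_intro j (RO.ex_intro (nw (x c i))
          (RO.ex_intro (nw (x d j)) ⟨f1 (h6.mono (h10.trans h7)), f1 (h9.mono h10), h11,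
            fun w _ h => h12 (nw_inj h), ?_⟩))⟩
        exact h13.elim (fun h => RO.or_inl (r1 h (FEq.refl _ _) (FEq.refl _ _)))
          fun h => RO.or_inr (r1 h (FEq.refl _ _) (FEq.refl _ _))
      simp only [T_all, T_imp, T_eq, T_in, T_not, ↓T_ex_fin, T_ex, T_and, T_op, T_cst, T_or,
        cls_rep] at this
      exact this
  obtain ⟨p, hp⟩ := ((T_ct In).2 H).nonempty
  obtain ⟨s, hs⟩ := cov_seq In
  obtain ⟨q, hq, S, h1, h2⟩ := covU (fun n a t => FEq (s n) (ck a) t)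
    (fun _ _ _ _ h h1 => h1.mono h) p fun n r _ => by
      by_cases h0 : ∃ a t, t ≤ r ∧ FEq (s n) (ck a) t
      · obtain ⟨a, t, h1, h2⟩ := h0
        exact ⟨t, h1, {a}, countable_singleton a, fun b w hw h3 =>
          k0 _ _ _ (h3.symm.trans (h2.mono hw))⟩
      · exact ⟨r, le_rfl, ∅, countable_empty, fun a t ht h2 => h0 ⟨a, t, ht, h2⟩⟩
  refine ⟨q, S, h1, fun a t h3 h4 => ?_⟩
  obtain ⟨r, hr, n, h5⟩ := hs p hp (ck a) t (h3.trans hq)
    (FMem.of_le (y := In) ⟨(a, t), h4⟩ le_rfl)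
  exact h2 n a r (hr.trans h3) h5.symm

def ΓS (pre : W1.{u} → W1.{u} → P → Prop) (x y : W1.{u} × ℕ) (r : P) : Prop :=
  x.2 = y.2 ∧ x.1 ≠ y.1 ∧ pre x.1 y.1 r

theorem spec_cc [CovC P] {pre : W1.{u} → W1.{u} → P → Prop}
    (hm : ∀ a b p q, q ≤ p → pre a b p → pre a b q)
    (ht : ∀ a b c r, pre a c r → pre b c r → ∃ t, t ≤ r ∧ (pre a b t ∨ pre b a t))
    (hn : NoChain pre) : CC (ΓS pre) := by
  intro J s acc h1 h2 h3 _ p _
  have h4 : ∀ i, ∃ k : Σ n, Fin n → ℕ, ∃ x : Fin k.1 → W1.{u},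
      s i = range fun j => (x j, k.2 j) := fun i => by
    obtain ⟨n, f, -, hf⟩ := (h1 i).fin_param
    exact ⟨⟨n, fun j => (f j).2⟩, fun j => (f j).1, hf.symm⟩
  obtain ⟨q, hq, S, h5, h6⟩ := covU (fun (k : Σ n, Fin n → ℕ) i t => (acc i).s t ∧
      ∃ x : Fin k.1 → W1.{u}, s i = range fun j => (x j, k.2 j))
    (fun _ _ _ _ h h1 => ⟨RO.mono h1.1 h, h1.2⟩) p fun k r _ => by
      choose x hx using fun i : {i // ∃ x : Fin k.1 → W1.{u}, s i = range fun j => (x j, k.2 j)} =>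
        i.2
      have := CovC.iic r
      obtain ⟨t, S, h5, h6⟩ := spec_part (P := Iic r) (pre := fun a b t => pre a b t.1)
        (fun a b p q h => hm a b _ _ h) (fun a b c t h5 h6 => by
          obtain ⟨w, h7, h8⟩ := ht a b c _ h5 h6
          exact ⟨⟨w, h7.trans t.2⟩, h7, h8⟩) (fun c hc t h => by
          obtain ⟨w, h7, S, h8, h9⟩ := hn (fun a w => ∃ h : w ≤ r, c a ⟨w, h⟩)
            (fun a w w' h ⟨h5, h6⟩ => ⟨h.trans h5, hc a ⟨w, h5⟩ ⟨w', h.trans h5⟩ h h6⟩) t.1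
            fun a b w h5 ⟨h6, h7⟩ ⟨_, h8⟩ => by
              obtain ⟨w', h9, h10⟩ := h a b ⟨w, h6⟩ h5 h7 h8
              exact ⟨w'.1, h9, h10⟩
          exact ⟨⟨w, h7.trans t.2⟩, h7, S, h8, fun a w' h10 h11 => h9 a w'.1 h10 ⟨w'.2, h11⟩⟩)
        (acc := fun i t => (acc i.1).s t.1) (fun i p q h h5 => (acc i.1).mono' p.1 q.1 h h5) k.2 x
        (fun a t h5 i j h6 h7 h8 => h2 a t h5 (x a i, k.2 i) (hx a ▸ ⟨i, rfl⟩) (x a j, k.2 j)
          (hx a ▸ ⟨j, rfl⟩) ⟨h6, h7, h8⟩) fun a b t h5 h6 h7 => by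
          obtain ⟨w, h8, y, h9, z, h10, h11⟩ := h3 a b t (fun h => h5 (Subtype.ext h)) h6 h7
          rw [hx a] at h9
          rw [hx b] at h10
          obtain ⟨i, rfl⟩ := h9
          obtain ⟨j, rfl⟩ := h10
          exact ⟨⟨w, h8.trans t.2⟩, h8, i, j, h11.elim (fun h => ⟨h.1, h.2.1, Or.inl h.2.2⟩)
            fun h => ⟨h.1.symm, h.2.1.symm, Or.inr h.2.2⟩⟩
      exact ⟨t.1, t.2, Subtype.val '' S, h5.image _, fun i w h7 h8 =>
        ⟨⟨i, h8.2⟩, h6 _ ⟨w, h7.trans t.2⟩ h7 h8.1, rfl⟩⟩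
  exact ⟨q, hq, S, h5, fun i t h7 h8 => let ⟨k, hk⟩ := h4 i; h6 k i t h7 ⟨h8, hk⟩⟩

end Pool.Agent.Lib.MP_0fa4a2_gt
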