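import Pool.Agent.Lib.MP_783f50_lc.Ord
import Pool.Agent.Lib.MP_0fa4a2_gt.Defs

/-! Inside a model of ZFC with two combinatorial principles, a tree base of a perfect space cannot
have the Baire property and split everywhere. -/

namespace Pool.Agent.Lib.MP_0fa4a2_gt

open Pool.Agent.Lib.MP_2739cb_lc Pool.Agent.Lib.MP_783f50_lc

set_option synthInstance.maxSize 100000

universe v

variable {M : Type v} [ZM M]

def IsTr (T : M) : Prop := ∀ a b c, a ∈ T → b ∈ T → c ∈ T → c ⊆ a → c ⊆ b → a ⊆ b ∨ b ⊆ a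

def Split (T : M) : Prop :=
  ∀ a, a ∈ T → ∃ b c, b ∈ T ∧ c ∈ T ∧ b ⊆ a ∧ c ⊆ a ∧ ¬ c ⊆ b ∧ ¬ b ⊆ c

def Baire (T : M) : Prop :=
  ∀ O : M, (∀ n a b, n ∈ om M → a ∈ T → b ∈ T → op n a ∈ O → b ⊆ a → op n b ∈ O) →
    (∀ n a, n ∈ om M → a ∈ T → ∃ b, b ∈ T ∧ b ⊆ a ∧ op n b ∈ O) →
    ∀ a, a ∈ T → ∃ b, b ∈ T ∧ b ⊆ a ∧ ∀ n, n ∈ om M → op n b ∈ O

def Meager (D : M) : Prop :=
  ∃ O : M, (∀ n a b, n ∈ om M → op n a ∈ O → b ⊆ a → b ∈ D → op n b ∈ O) ∧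
    (∀ n a, n ∈ om M → a ∈ D → ∃ b, b ⊆ a ∧ b ∈ D ∧ op n b ∈ O) ∧
    ∀ a, a ∈ D → ¬ ∀ n, n ∈ om M → op n a ∈ O

/-- The hypotheses of the reflection principle. -/
structure RHyp (Small : M → Prop) (T In Fb : M) : Prop where
  h1 : ∀ y d S, y ∈ T → d ∈ T → Small S → S ⊆ T → op y d ∈ In → ∃ w, w ∈ T ∧ w ⊆ d ∧
    ∀ v, v ∈ S → op v y ∈ Fb ∨ (¬ v ⊆ y ∧ ¬ y ⊆ v) → ¬ v ⊆ w ∧ ¬ w ⊆ v
  h2 : ∀ d S, d ∈ T → Small S → S ⊆ T → ∃ v, v ∈ T ∧ v ⊆ d ∧ ∀ y, y ∈ S → op v y ∈ Fb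
  h3 : ∀ v y, v ∈ T → y ∈ T → op y v ∈ In → ¬ (op v y ∈ Fb ∨ (¬ v ⊆ y ∧ ¬ y ⊆ v))
  h4 : ∀ y, y ∈ T → op y y ∈ In
  h5 : ∀ y, y ∈ T → ∃ S, Small S ∧ ∀ d, d ∈ T → op y d ∈ In → d ∈ S
  h6 : ∀ D, D ⊆ T → (∀ d, d ∈ D → ∃ y, y ∈ T ∧ op y d ∈ In ∧ ∀ e, e ∈ T → op y e ∈ In → e ∈ D) →
    (∀ d, d ∈ D → ∃ v, v ∈ T ∧ v ⊆ d ∧ v ∉ D) → Meager D

/-- The principles. -/
structure Ax (Small : M → Prop) : Prop where
  sep : ∀ V : M, ∃ S : M, ∀ z, z ∈ S ↔ z ⊆ V ∧ Small z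
  ct : ∀ z, Ctbl z → Small z
  w1 : Small (om1 M)
  un : ∀ I R U : M, Small I → (∀ i, i ∈ I → ∃ S, Small S ∧ ∀ z, op i z ∈ R → z ∈ S) →
    (∀ z, z ∈ U → ∃ i, i ∈ I ∧ op i z ∈ R) → Small U
  kill : ∀ T, Small T → IsTr T → (∃ a, a ∈ T) → Split T → ¬ Baire T
  refl : ∀ T In Fb, IsTr T → (∃ a, a ∈ T) → Baire T → ¬ RHyp Small T In Fb

structure Cx (τ X T : M) : Prop where
  ne : ∀ t, t ∈ T → ∃ x, x ∈ t
  sub : ∀ t, t ∈ T → t ⊆ X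
  cmp : ∀ a b x, a ∈ T → b ∈ T → x ∈ a → x ∈ b → a ⊆ b ∨ b ⊆ a
  t1 : ∀ x y, x ∈ X → y ∈ X → x ≠ y → ∃ t, t ∈ T ∧ x ∈ t ∧ y ∉ t
  pc : ∀ x, Ctbl (sep T fun t => x ∈ t)
  op : ∀ G x, G ∈ τ → x ∈ X → x ∈ G → ∃ t, t ∈ T ∧ x ∈ t ∧ t ⊆ G
  gd : ∀ A, A ⊆ T → ∃ F, F ⊆ τ ∧ Ctbl F ∧ ∀ x, x ∈ X → ((∀ a, a ∈ A → x ∉ a) ↔ ∀ G, G ∈ F → x ∈ G)

variable {Small : M → Prop} {τ X T : M}

noncomputable def bel (T s : M) : M := sep T fun t => t ⊆ s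

@[simp] theorem mem_bel {s t : M} : t ∈ bel T s ↔ t ∈ T ∧ t ⊆ s := mem_sep

theorem Cx.tr (h : Cx τ X T) {S : M} (hS : S ⊆ T) : IsTr S := fun a b c ha hb hc h1 h2 =>
  let ⟨x, hx⟩ := h.ne c (hS c hc); h.cmp a b x (hS a ha) (hS b hb) (h1 x hx) (h2 x hx)

theorem Cx.min (h : Cx τ X T) {a b x : M} (ha : a ∈ T) (hb : b ∈ T) (h1 : x ∈ a) (h2 : x ∈ b) :
    ∃ c, c ∈ T ∧ x ∈ c ∧ c ⊆ a ∧ c ⊆ b :=
  (h.cmp a b x ha hb h1 h2).elim (fun h3 => ⟨a, ha, h1, sub_refl a, h3⟩)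
    fun h3 => ⟨b, hb, h2, h3, sub_refl b⟩

theorem Cx.res (h : Cx τ X T) {s : M} (hs : s ∈ T) : Cx τ s (bel T s) := by
  refine ⟨fun t ht => h.ne t (mem_bel.1 ht).1, fun t ht => (mem_bel.1 ht).2,
    fun a b x ha hb => h.cmp a b x (mem_bel.1 ha).1 (mem_bel.1 hb).1, fun x y hx hy h1 => ?_,
    fun x => (h.pc x).mono fun t ht => by simp at ht; simp [ht], fun G x h1 h2 h3 => ?_,
    fun A hA => ?_⟩
  · obtain ⟨t, h2, h3, h4⟩ := h.t1 x y (h.sub s hs x hx) (h.sub s hs y hy) h1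
    obtain ⟨c, h5, h6, h7, h8⟩ := h.min h2 hs h3 hx
    exact ⟨c, mem_bel.2 ⟨h5, h8⟩, h6, fun h9 => h4 (h7 y h9)⟩
  · obtain ⟨t, h4, h5, h6⟩ := h.op G x h1 (h.sub s hs x h2) h3
    obtain ⟨c, h7, h8, h9, h10⟩ := h.min h4 hs h5 h2
    exact ⟨c, mem_bel.2 ⟨h7, h10⟩, h8, sub_trans h9 h6⟩
  · obtain ⟨F, h1, h2, h3⟩ := h.gd A fun a ha => (mem_bel.1 (hA a ha)).1
    exact ⟨F, h1, h2, fun x hx => h3 x (h.sub s hs x hx)⟩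

theorem Baire.ctbl (h : Baire T) {I : M} (hI : Ctbl I) (P : M → M → Prop)
    [DP M fun z : M × M => P z.1 z.2]
    (h1 : ∀ i a b, i ∈ I → a ∈ T → b ∈ T → P i a → b ⊆ a → P i b)
    (h2 : ∀ i a, i ∈ I → a ∈ T → ∃ b, b ∈ T ∧ b ⊆ a ∧ P i b) (a : M) (ha : a ∈ T) :
    ∃ b, b ∈ T ∧ b ⊆ a ∧ ∀ i, i ∈ I → P i b := by
  obtain ⟨f, hf⟩ := hI
  have : DP M fun z : M × M => P (app f z.1) z.2 :=
    DP.comp (fun z : M × M => P z.1 z.2) fun z : M × M => (app f z.1, z.2)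
  obtain ⟨O, -, hO⟩ := exists_rel (om M) T fun n a => app f n ∈ I → P (app f n) a
  obtain ⟨b, h3, h4, h5⟩ := h O (fun n a b hn ha hb h3 h4 => (hO _ _).2 ⟨hn, hb, fun h5 =>
    h1 _ a b h5 ha hb (((hO _ _).1 h3).2.2 h5) h4⟩) (fun n a hn ha => by
      by_cases h3 : app f n ∈ I
      · obtain ⟨b, h4, h5, h6⟩ := h2 _ a h3 ha
        exact ⟨b, h4, h5, (hO _ _).2 ⟨hn, h4, fun _ => h6⟩⟩
      · exact ⟨a, ha, sub_refl a, (hO _ _).2 ⟨hn, ha, fun h4 => absurd h4 h3⟩⟩) a ha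
  refine ⟨b, h3, h4, fun i hi => ?_⟩
  obtain ⟨n, hn, rfl⟩ := hf i hi
  exact ((hO _ _).1 (h5 n hn)).2.2 hi

/-- The Baire property passes to subsets which are dense below their members. -/
theorem Baire.dense (h : Baire T) (hT : IsTr T) {S : M} (hS : S ⊆ T)
    (hd : ∀ a b, a ∈ S → b ∈ T → b ⊆ a → ∃ c, c ∈ S ∧ c ⊆ b) : Baire S := by
  intro O h1 h2 a ha
  obtain ⟨b, h3, h4, h5⟩ := h.ctbl ctbl_om
    (fun n b => (¬ b ⊆ a ∧ ¬ a ⊆ b) ∨ ∃ c, c ∈ S ∧ b ⊆ c ∧ op n c ∈ O)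
    (fun n b c _ hb hc h3 h4 => h3.imp (fun h5 => ⟨fun h6 => (hT _ _ _ hb (hS a ha) hc h4 h6).elim
      h5.1 h5.2, fun h6 => h5.2 (sub_trans h6 h4)⟩) fun ⟨d, h5, h6, h7⟩ =>
        ⟨d, h5, sub_trans h4 h6, h7⟩) (fun n b hn hb => by
      by_cases h3 : ∃ c, c ∈ S ∧ c ⊆ b
      · obtain ⟨c, h3, h4⟩ := h3
        obtain ⟨d, h5, h6, h7⟩ := h2 n c hn h3
        exact ⟨d, hS d h5, sub_trans h6 h4, Or.inr ⟨d, h5, sub_refl d, h7⟩⟩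
      · exact ⟨b, hb, sub_refl b, Or.inl ⟨fun h4 => h3 (hd a b ha hb h4),
          fun h4 => h3 ⟨a, ha, h4⟩⟩⟩) a (hS a ha)
  obtain ⟨c, h6, h7⟩ := hd a b ha h3 h4
  refine ⟨c, h6, sub_trans h7 h4, fun n hn => ?_⟩
  obtain ⟨d, h8, h9, h10⟩ := (h5 n hn).resolve_left fun h8 => h8.1 h4
  exact h1 n d c hn h8 h6 h10 (sub_trans h7 h9)

theorem Split.dense (h : Split T) (hT : IsTr T) {S : M} (hS : S ⊆ T)
    (hd : ∀ a b, a ∈ S → b ∈ T → b ⊆ a → ∃ c, c ∈ S ∧ c ⊆ b) : Split S := by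
  intro a ha
  obtain ⟨b, c, h1, h2, h3, h4, h5, h6⟩ := h a (hS a ha)
  obtain ⟨b', h7, h8⟩ := hd a b ha h1 h3
  obtain ⟨c', h9, h10⟩ := hd a c ha h2 h4
  exact ⟨b', c', h7, h9, sub_trans h8 h3, sub_trans h10 h4,
    fun h11 => (hT _ _ _ h1 h2 (hS _ h9) (sub_trans h11 h8) h10).elim h6 h5,
    fun h11 => (hT _ _ _ h1 h2 (hS _ h7) h8 (sub_trans h11 h10)).elim h6 h5⟩

theorem Ax.un' (h : Ax Small) {I U : M} (R : M → M → Prop) [DP M fun z : M × M => R z.1 z.2]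
    (h1 : Small I) (h2 : ∀ i, i ∈ I → ∃ S, Small S ∧ ∀ z, z ∈ U → R i z → z ∈ S)
    (h3 : ∀ z, z ∈ U → ∃ i, i ∈ I ∧ R i z) : Small U :=
  h.un I (rel I U R) U h1 (fun i hi => let ⟨S, h4, h5⟩ := h2 i hi
    ⟨S, h4, fun z hz => h5 z (op_mem_rel.1 hz).2.1 (op_mem_rel.1 hz).2.2⟩)
    fun z hz => let ⟨i, hi, h4⟩ := h3 z hz; ⟨i, hi, op_mem_rel.2 ⟨hi, hz, h4⟩⟩

def Anti (W : M) : Prop := ∀ a b x, a ∈ W → b ∈ W → x ∈ a → x ∈ b → a = b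

instance DP.anti {α : Type v} [Ctx M α] (s : α → M) [DF M s] :
    DP M (no_index fun x => Anti (s x)) :=
  have : DP M fun x : M => Anti x := by unfold Anti; infer_instance
  DP.comp (fun x : M => Anti x) s

theorem case_narrow (hA : Ax Small) (h : Cx τ X T) (h0 : ∃ a, a ∈ T) (h1 : Split T) (h2 : Baire T)
    (h3 : ∀ W, W ⊆ T → Anti W → Small W) : False := by
  obtain ⟨C, c1, c2, c3⟩ := exists_clique (prd (om1 M) T) fun p q => ∀ α a β b : M,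
    p = op α a → q = op β b → (α = β → ∀ x, x ∈ a → x ∈ b → a = b) ∧ (β ∈ α → ¬ b ⊆ a)
  obtain ⟨S, hS⟩ := exists_sep T fun a => ∃ α, op α a ∈ C
  have s1 : S ⊆ T := fun a ha => ((hS a).1 ha).1
  have s2 : ∀ a, a ∈ T → ∃ c, c ∈ S ∧ c ⊆ a := fun a ha => by
    by_contra hc
    obtain ⟨x, hx⟩ := h.ne a ha
    have k1 : ∀ α b, op α b ∈ C → ¬ b ⊆ a := fun α b h4 h5 =>
      hc ⟨b, (hS b).2 ⟨(op_mem_prd.1 (c1 _ h4)).2, α, h4⟩, h5⟩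
    obtain ⟨f, hf⟩ := choice S (om1 M) (fun b α => op α b ∈ C) fun b hb =>
      let ⟨α, h4⟩ := ((hS b).1 hb).2; ⟨α, (op_mem_prd.1 (c1 _ h4)).1, h4⟩
    obtain ⟨γ, h4, h5⟩ := ((h.pc x).mono (Z' := sep S fun t => x ∈ t) fun t ht => by
      simp at ht; simp [ht, s1 t ht.1]).bdd (fun b => app f b) fun b hb => (hf b (mem_sep.1 hb).1).1
    have k2 : ∀ β b, op β b ∈ C → a ⊆ b → β ∈ γ := fun β b h6 h7 => by
      have h8 := op_mem_prd.1 (c1 _ h6)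
      have h9 := (hS b).2 ⟨h8.2, β, h6⟩
      have h10 := h5 b (mem_sep.2 ⟨h9, h7 x hx⟩)
      rcases od_om1.tri h8.1 (hf b h9).1 with h11 | h11 | h11
      · exact od_om1.mem h4 |>.trans h10 h11
      · exact h11 ▸ h10
      · exact absurd (sub_refl b) ((c2 _ _ h6 (hf b h9).2 _ _ _ _ rfl rfl).2 h11)
    have k3 : ∀ b y, op γ b ∈ C → y ∈ a → y ∉ b := fun b y h6 h7 h8 =>
      (h.cmp a b y ha (op_mem_prd.1 (c1 _ h6)).2 h7 h8).elim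
        (fun h9 => mem_irrefl _ (k2 _ _ h6 h9)) (k1 _ _ h6)
    refine k1 γ a (c3 _ (op_mem_prd.2 ⟨h4, ha⟩) (fun α b β c e1 e2 => ?_) fun q hq =>
      ⟨fun α b β c e1 e2 => ?_, fun α b β c e1 e2 => ?_⟩) (sub_refl a)
    · obtain ⟨rfl, rfl⟩ := op_inj.1 (e1.symm.trans e2)
      exact ⟨fun _ _ _ _ => rfl, fun h6 => absurd h6 (mem_irrefl _)⟩
    · obtain ⟨rfl, rfl⟩ := op_inj.1 e1
      subst e2
      exact ⟨fun e y h6 h7 => absurd h7 (k3 c y (e ▸ hq) h6), fun _ => k1 _ _ hq⟩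
    · obtain ⟨rfl, rfl⟩ := op_inj.1 e2
      subst e1
      exact ⟨fun e y h6 h7 => absurd h6 (k3 b y (e ▸ hq) h7),
        fun h6 h7 => mem_asymm' h6 (k2 _ _ hq h7)⟩
  obtain ⟨a, ha⟩ := h0
  refine hA.kill S (hA.un' (fun α a => op α a ∈ C) hA.w1 (fun α _ => ⟨sep T fun a => op α a ∈ C,
    h3 _ (fun a ha => (mem_sep.1 ha).1) fun a b x ha hb => (c2 _ _ (mem_sep.1 ha).2
      (mem_sep.1 hb).2 _ _ _ _ rfl rfl).1 rfl x, fun z hz h4 => mem_sep.2 ⟨s1 z hz, h4⟩⟩)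
    fun z hz => let ⟨α, h4⟩ := ((hS z).1 hz).2; ⟨α, (op_mem_prd.1 (c1 _ h4)).1, h4⟩)
    (h.tr s1) (let ⟨c, hc, _⟩ := s2 a ha; ⟨c, hc⟩)
    (h1.dense (h.tr (sub_refl T)) s1 fun _ b _ hb _ => s2 b hb)
    (h2.dense (h.tr (sub_refl T)) s1 fun _ b _ hb _ => s2 b hb)

theorem ctbl_subs {U : M} (P : M → Prop) (h : ∀ a b, a ∈ U → b ∈ U → P a → P b → a = b) :
    ∃ S : M, Ctbl S ∧ ∀ z, z ∈ U → P z → z ∈ S := by
  by_cases h1 : ∃ a, a ∈ U ∧ P a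
  · obtain ⟨a, h1, h2⟩ := h1
    exact ⟨{a}, ctbl_single a, fun z h3 h4 => mem_single.2 (h z a h3 h1 h4 h2)⟩
  · exact ⟨om M, ctbl_om, fun z h2 h3 => absurd ⟨z, h2, h3⟩ h1⟩

theorem case_wide (hA : Ax Small) (h : Cx τ X T) (h0 : ∃ a, a ∈ T) (h2 : Baire T)
    (h3 : ∀ t, t ∈ T → ∃ W, W ⊆ bel T t ∧ Anti W ∧ ¬ Small W) : False := by
  obtain ⟨Sm, hSm⟩ := hA.sep T
  obtain ⟨W, hW⟩ := choice T (pw T) (fun t W => (∀ w, w ∈ W → w ⊆ t) ∧ Anti W ∧ W ∉ Sm)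
    fun t ht => let ⟨W, h4, h5, h6⟩ := h3 t ht
      ⟨W, mem_pw.2 fun w hw => (mem_bel.1 (h4 w hw)).1, fun w hw => (mem_bel.1 (h4 w hw)).2, h5,
        fun h7 => h6 ((hSm W).1 h7).2⟩
  obtain ⟨p, hp⟩ := choice T X (fun t x => x ∈ t) fun t ht =>
    let ⟨x, hx⟩ := h.ne t ht; ⟨x, h.sub t ht x hx, hx⟩
  have wT : ∀ t w, t ∈ T → w ∈ app W t → w ∈ T := fun t w ht => mem_pw.1 (hW t ht).1 w
  let Th : M → M → Prop := fun y v => ∀ a b, a ∈ app W y → b ∈ app W y → a ⊆ v → b ⊆ v → a = b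
  obtain ⟨In, -, hI⟩ := exists_rel T T fun y d => app p y ∈ d
  obtain ⟨Fb, -, hF⟩ := exists_rel T T fun v y => app p y ∉ v ∧
    ∀ y', y' ∈ T → app p y ∈ y' → v ⊆ y' →
      ∀ a b, a ∈ app W y' → b ∈ app W y' → a ⊆ v → b ⊆ v → a = b
  have w1 : ∀ d S, d ∈ T → Small S → ∀ R : M → M → Prop, (DP M fun z : M × M => R z.1 z.2) →
      (∀ v, v ∈ S → ∃ N, Ctbl N ∧ ∀ w, w ∈ app W d → R v w → w ∈ N) →
      ∃ w, w ∈ app W d ∧ ∀ v, v ∈ S → ¬ R v w := fun d S hd hS R _ h4 => by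
    by_contra hc
    push Not at hc
    exact (hW d hd).2.2.2 ((hSm _).2 ⟨mem_pw.1 (hW d hd).1, hA.un' R hS
      (fun v hv => let ⟨N, h5, h6⟩ := h4 v hv; ⟨N, hA.ct N h5, h6⟩) hc⟩)
  refine hA.refl T In Fb (h.tr (sub_refl T)) h0 h2 ⟨fun y d0 S hy hd0 hS hs h4 => ?_,
    fun d S hd hS hs => ?_, fun v y hv hy h4 h5 => ?_, fun y hy => (hI _ _).2 ⟨hy, hy, (hp y hy).2⟩,
    fun y hy => ⟨_, hA.ct _ (h.pc (app p y)), fun d hd h4 => mem_sep.2 ⟨hd, ((hI _ _).1 h4).2.2⟩⟩,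
    fun D hD h4 h5 => ?_⟩
  · obtain ⟨d, hd, h5, h6, h7⟩ := h.min hd0 hy ((hI _ _).1 h4).2.2 (hp y hy).2
    obtain ⟨w, h8, h9⟩ := w1 d S hd hS (fun v w => v ⊆ w ∨ (w ⊆ v ∧ Th d v)) inferInstance
      fun v hv => by
        obtain ⟨N, h8, h9⟩ := ctbl_subs (U := app W d) (fun w => v ⊆ w) fun a b ha hb h8 h9 =>
          let ⟨x, hx⟩ := h.ne v (hs v hv); (hW d hd).2.2.1 a b x ha hb (h8 x hx) (h9 x hx)
        obtain ⟨N', h10, h11⟩ := ctbl_subs (U := app W d) (fun w => w ⊆ v ∧ Th d v)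
          fun a b ha hb h8 h9 => h8.2 a b ha hb h8.1 h9.1
        exact ⟨N ∪ N', h8.union h10, fun w hw h12 => mem_union.2 (h12.imp (h9 w hw) (h11 w hw))⟩
    have h10 := (hW d hd).2.1 w h8
    refine ⟨w, wT d w hd h8, sub_trans h10 h6, fun v hv h11 =>
      ⟨fun h12 => h9 v hv (Or.inl h12), fun h12 => ?_⟩⟩
    rcases h11 with h11 | h11
    · obtain ⟨-, -, h13, h14⟩ := (hF _ _).1 h11
      exact h9 v hv (Or.inr ⟨h12, h14 d hd h5 ((h.tr (sub_refl T) _ _ _ (hs v hv) hd (wT d w hd h8)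
        h12 h10).resolve_right fun h15 => h13 (h15 _ h5))⟩)
    · exact (h.tr (sub_refl T) _ _ _ (hs v hv) hy (wT d w hd h8) h12 (sub_trans h10 h7)).elim
        h11.1 h11.2
  · obtain ⟨w, h8, h9⟩ := w1 d S hd hS (fun y w => app p y ∈ w) inferInstance
      fun y hy => ctbl_subs _ fun a b ha hb => (hW d hd).2.2.1 a b _ ha hb
    have h10 := wT d w hd h8
    obtain ⟨x, hx⟩ := h.ne w h10
    obtain ⟨v, h11, h12, h13⟩ := h2.ctbl (h.pc x) Th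
      (fun i a b _ _ _ h4 h5 c e hc he h6 h7 => h4 c e hc he (sub_trans h6 h5) (sub_trans h7 h5))
      (fun i a hi ha => by
        have h4 := (mem_sep.1 hi).1
        by_cases h5 : ∃ c, c ∈ app W i ∧ c ⊆ a
        · obtain ⟨c, h5, h6⟩ := h5
          have k : ∀ e, e ∈ app W i → e ⊆ c → e = c := fun e he h7 =>
            let ⟨y, hy⟩ := h.ne e (wT i e h4 he); (hW i h4).2.2.1 e c y he h5 hy (h7 y hy)
          exact ⟨c, wT i c h4 h5, h6, fun e e' he he' h7 h8 => (k e he h7).trans (k e' he' h8).symm⟩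
        · exact ⟨a, ha, sub_refl a, fun e _ he _ h6 _ => absurd ⟨e, he, h6⟩ h5⟩) w h10
    refine ⟨v, h11, sub_trans h12 ((hW d hd).2.1 w h8), fun y hy => (hF _ _).2 ⟨h11, hs y hy,
      fun h14 => h9 y hy (h12 _ h14), fun y' h14 h15 h16 => h13 y' (mem_sep.2 ⟨h14, ?_⟩)⟩⟩
    exact (h.tr (sub_refl T) _ _ _ h10 h14 h11 h12 h16).resolve_right
      (fun h17 => h9 y hy (h17 _ h15)) x hx
  · have h6 := ((hI _ _).1 h4).2.2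
    rcases h5 with h5 | h5
    · exact ((hF _ _).1 h5).2.2.1 h6
    · exact (h.cmp v y _ hv hy h6 (hp y hy).2).elim h5.1 h5.2
  · obtain ⟨F, h6, ⟨f, h7⟩, h8⟩ := h.gd (T \ D) fun a ha => (mem_diff.1 ha).1
    obtain ⟨O, -, hO⟩ := exists_rel (om M) T fun n d => app f n ∈ F → d ⊆ app f n
    refine ⟨O, fun n a b hn h9 h10 h11 => (hO _ _).2 ⟨hn, hD b h11, fun h12 =>
      sub_trans h10 (((hO _ _).1 h9).2.2 h12)⟩, fun n a hn ha => ?_, fun a ha h9 => ?_⟩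
    · by_cases h9 : app f n ∈ F
      swap
      · exact ⟨a, sub_refl a, ha, (hO _ _).2 ⟨hn, hD a ha, fun h10 => absurd h10 h9⟩⟩
      obtain ⟨y, hy, h10, h11⟩ := h4 a ha
      obtain ⟨c, h12, h13, h14⟩ := h.op _ _ (h6 _ h9) (hp y hy).1 ((h8 _ (hp y hy).1).1
        (fun e he h12 => (mem_diff.1 he).2 (h11 e (mem_diff.1 he).1
          ((hI _ _).2 ⟨hy, (mem_diff.1 he).1, h12⟩))) _ h9)
      obtain ⟨b, h15, h16, h17, h18⟩ := h.min (hD a ha) h12 ((hI _ _).1 h10).2.2 h13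
      exact ⟨b, h17, h11 b h15 ((hI _ _).2 ⟨hy, h15, h16⟩),
        (hO _ _).2 ⟨hn, h15, fun _ => sub_trans h18 h14⟩⟩
    · obtain ⟨v, h10, h11, h12⟩ := h5 a ha
      obtain ⟨z, hz⟩ := h.ne v h10
      refine (h8 z (h.sub v h10 z hz)).2 (fun G hG => ?_) v (mem_diff.2 ⟨h10, h12⟩) hz
      obtain ⟨n, hn, rfl⟩ := h7 G hG
      exact ((hO _ _).1 (h9 n hn)).2.2 hG z (h11 z hz)

theorem no_bad (hA : Ax Small) (h : Cx τ X T) (h0 : ∃ a, a ∈ T) (h1 : Split T) (h2 : Baire T) :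
    False := by
  refine case_wide hA h h0 h2 fun t ht => ?_
  by_contra hc
  push Not at hc
  have h3 : bel T t ⊆ T := fun a ha => (mem_bel.1 ha).1
  have h4 : ∀ a b, a ∈ bel T t → b ∈ T → b ⊆ a → ∃ c, c ∈ bel T t ∧ c ⊆ b := fun a b ha hb h4 =>
    ⟨b, mem_bel.2 ⟨hb, sub_trans h4 (mem_bel.1 ha).2⟩, sub_refl b⟩
  exact case_narrow hA (h.res ht) ⟨t, mem_bel.2 ⟨ht, sub_refl t⟩⟩
    (h1.dense (h.tr (sub_refl T)) h3 h4) (h2.dense (h.tr (sub_refl T)) h3 h4) hc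

end Pool.Agent.Lib.MP_0fa4a2_gt
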