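import Pool.Agent.Lib.MP_0fa4a2_gt.Conc
import Pool.Agent.Lib.MP_783f50_lc.Meas

/-! The second step: the Levy collapse, computed in the first extension. -/

namespace Pool.Agent.Lib.MP_0fa4a2_gt

open Pool.Agent.Lib.MP_2739cb_lc Pool.Agent.Lib.MP_783f50_lc Cardinal Set Filter

universe u v

abbrev Tm (k : Cardinal.{u}) : Type u := k.ord.ToType

structure Fn (k : Cardinal.{u}) (Q K : Type u) [Preorder Q] [LinearOrder K] where
  s : K × Tm k × K → RO Q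
  sm : #{τ | ∃ r, (s τ).s r} < k
  le : ∀ τ r, (s τ).s r → τ.2.2 ≤ τ.1
  fn : ∀ a ξ j j' r, (s (a, ξ, j)).s r → (s (a, ξ, j')).s r → j = j'

structure Two (k : Cardinal.{u}) (Q K : Type u) [Preorder Q] [LinearOrder K] where
  q : Q
  f : Fn k Q K

variable {k : Cardinal.{u}} {Q K : Type u} [Preorder Q] [LinearOrder K]

instance : Preorder (Two k Q K) where
  le p' p := p'.q ≤ p.q ∧ ∀ τ r, r ≤ p'.q → (p.f.s τ).s r → (p'.f.s τ).s r
  le_refl _ := ⟨le_rfl, fun _ _ _ h => h⟩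
  le_trans _ _ _ h1 h2 := ⟨h1.1.trans h2.1, fun τ r h h' => h1.2 τ r h (h2.2 τ r (h.trans h1.1) h')⟩

def Fn.sub (f g : Fn k Q K) : Prop := ∀ τ r, (f.s τ).s r → (g.s τ).s r

theorem Two.mk_le {q q' : Q} {f f' : Fn k Q K} (h : q' ≤ q) (h' : f.sub f') :
    (⟨q', f'⟩ : Two k Q K) ≤ ⟨q, f⟩ := ⟨h, fun τ r _ => h' τ r⟩

theorem Two.cut {p : Two k Q K} {r : Q} (h : r ≤ p.q) : (⟨r, p.f⟩ : Two k Q K) ≤ p :=
  ⟨h, fun _ _ _ h => h⟩

theorem Two.proj : Proj (Two.q : Two k Q K → Q) :=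
  ⟨fun _ _ h => h.1, fun p z h => ⟨⟨z, p.f⟩, Two.cut h, le_rfl⟩⟩

theorem First.w (h : First k Q) : ℵ₀ < k := aleph0_lt_aleph_one.trans h.unc

theorem First.ct (h : First k Q) {α : Type u} {S : Set α} (hS : S.Countable) : #S < k :=
  (le_aleph0_iff_set_countable.2 hS).trans_lt h.w

theorem First.opt (h : First k Q) {ι : Type u} (hι : #ι < k) : #(Option ι) < k := by
  rw [mk_option]
  exact add_lt_of_lt h.reg.1 hι (one_lt_aleph0.trans h.w)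

theorem First.un (h : First k Q) {α : Type u} {S T : Set α} (h1 : #S < k) (h2 : #T < k) :
    #(S ∪ T : Set α) < k := (mk_union_le _ _).trans_lt (add_lt_of_lt h.reg.1 h1 h2)

variable [hF : Fact (First k Q)]

def Fn.bot : Fn k Q K :=
  ⟨fun _ => RO.bot, hF.out.ct (countable_empty.mono fun _ h => h.choose_spec), fun _ _ h => h.elim,
    fun _ _ _ _ _ h => h.elim⟩

instance [OrderTop Q] : OrderTop (Two k Q K) where
  top := ⟨⊤, Fn.bot⟩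
  le_top _ := ⟨le_top, fun _ _ _ h => h.elim⟩

theorem Fn.exists_un {ι : Type u} (hι : #ι < k) (c : ι → RO Q) (f : ι → Fn k Q K)
    (h : ∀ i i' a ξ j j' r, (c i).s r → (c i').s r → ((f i).s (a, ξ, j)).s r →
      ((f i').s (a, ξ, j')).s r → j = j') :
    ∃ g : Fn k Q K, ∀ τ, g.s τ = RO.ex fun i => (c i).and ((f i).s τ) := by
  refine ⟨⟨fun τ => RO.ex fun i => (c i).and ((f i).s τ), (mk_le_mk_of_subset ?_).trans_lt
    ((card_iUnion_lt_iff_forall_of_isRegular hF.out.reg hι).2 fun i => (f i).sm),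
    fun τ r h1 => ?_, fun a ξ j j' r h1 h2 => ?_⟩, fun _ => rfl⟩
  · rintro τ ⟨r, h1⟩
    obtain ⟨t, -, i, -, h2⟩ := h1 r le_rfl
    exact mem_iUnion.2 ⟨i, t, h2⟩
  · obtain ⟨t, -, i, -, h2⟩ := h1 r le_rfl
    exact (f i).le τ t h2
  · obtain ⟨t, ht, i, h3, h4⟩ := h1 r le_rfl
    obtain ⟨w, hw, i', h5, h6⟩ := h2 t ht
    exact h i i' a ξ j j' w (RO.mono h3 hw) h5 (RO.mono h4 hw) h6

theorem Fn.exists_ub {ι : Type u} (hι : #ι < k) (f0 : Fn k Q K) (f : ι → Fn k Q K)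
    (h0 : ∀ i, f0.sub (f i)) (h : ∀ i j, (f i).sub (f j) ∨ (f j).sub (f i)) :
    ∃ g : Fn k Q K, f0.sub g ∧ ∀ i, (f i).sub g := by
  obtain ⟨g, hg⟩ := Fn.exists_un (hF.out.opt hι) (fun _ => cst True)
    (fun i => i.elim f0 f) (by
      rintro (_ | i) (_ | i') a ξ j j' r - - h1 h2
      · exact f0.fn _ _ _ _ _ h1 h2
      · exact (f i').fn _ _ _ _ _ (h0 _ _ _ h1) h2
      · exact (f i).fn _ _ _ _ _ h1 (h0 _ _ _ h2)
      · exact (h i i').elim (fun h => (f i').fn _ _ _ _ _ (h _ _ h1) h2)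
          fun h => (f i).fn _ _ _ _ _ h1 (h _ _ h2))
  exact ⟨g, fun τ r h1 => hg τ ▸ RO.ex_intro none ⟨trivial, h1⟩,
    fun i τ r h1 => hg τ ▸ RO.ex_intro (some i) ⟨trivial, h1⟩⟩

theorem star1 {D : Two k Q K → Prop} (hm : ∀ p q, q ≤ p → D p → D q) (p : Two k Q K)
    (hd : ∀ q, q ≤ p → ∃ r, r ≤ q ∧ D r) :
    ∃ g, p.f.sub g ∧ ∀ r, r ≤ p.q → ∃ t, t ≤ r ∧ D ⟨t, g⟩ := by
  obtain ⟨S, h1, h2, h3⟩ := hF.out.pre (fun r => ∃ c, c ≤ p ∧ D c ∧ r ≤ c.q) p.q fun r hr => by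
    obtain ⟨c, h1, h2⟩ := hd _ (Two.cut hr)
    exact ⟨c.q, h1.1, c, h1.trans (Two.cut hr), h2, le_rfl⟩
  choose c h4 h5 h6 using fun d : S => (h2 d d.2).1
  obtain ⟨F, f1, f2, f3⟩ := exists_first fun d : S => bl d.1
  have key : ∀ i τ r, (F i).s r → (p.f.s τ).s r → ((c i).f.s τ).s r := fun i τ r h7 h8 =>
    RO.reg fun t ht => by
      obtain ⟨w, h9, h10⟩ := f1 i r h7 t ht
      exact ⟨w, h9, (h4 i).2 τ w (h10.trans (h6 i)) (RO.mono h8 (h9.trans ht))⟩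
  obtain ⟨g, hg⟩ := Fn.exists_un (hF.out.opt h1) (fun i => i.elim (cst True) F)
    (fun i => i.elim p.f fun d => (c d).f) (by
      rintro (_ | i) (_ | i') a ξ j j' r h7 h8 h9 h10
      · exact p.f.fn _ _ _ _ _ h9 h10
      · exact (c i').f.fn _ _ _ _ _ (key _ _ _ h8 h9) h10
      · exact (c i).f.fn _ _ _ _ _ h9 (key _ _ _ h7 h10)
      · obtain rfl := f2 i i' r h7 h8
        exact (c i).f.fn _ _ _ _ _ h9 h10)
  refine ⟨g, fun τ r h7 => hg τ ▸ RO.ex_intro none ⟨trivial, h7⟩, fun r hr => ?_⟩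
  obtain ⟨d, h7, t, h8, h9⟩ := h3 r hr
  obtain ⟨w, h10, j, h11⟩ := f3 ⟨d, h7⟩ t (bl_of_le h9)
  obtain ⟨w', h12, h13⟩ := of_bl (f1 _ _ h11)
  exact ⟨w', h12.trans (h10.trans h8), hm _ _ ⟨h13.trans (h6 j), fun τ x hx h =>
    hg τ ▸ RO.ex_intro (some j) ⟨RO.mono h11 (hx.trans h12), h⟩⟩ (h5 j)⟩

theorem star {ι : Type u} (hι : #ι < k) (D : ι → Two k Q K → Prop)
    (hm : ∀ i p q, q ≤ p → D i p → D i q) (p : Two k Q K)
    (hd : ∀ i q, q ≤ p → ∃ r, r ≤ q ∧ D i r) :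
    ∃ g, p.f.sub g ∧ ∀ i r, r ≤ p.q → ∃ t, t ≤ r ∧ D i ⟨t, g⟩ := by
  classical
  obtain ⟨_, _⟩ := exists_wellFoundedLT ι
  choose F h1 h2 using fun i (f : {f // p.f.sub f}) => star1 (hm i) ⟨p.q, f.1⟩
    fun q hq => hd i q (hq.trans (Two.mk_le le_rfl f.2))
  let U : ∀ i : ι, (∀ j, j < i → {f // p.f.sub f}) → {f // p.f.sub f} := fun i rec =>
    if h : ∃ g : {f // p.f.sub f}, ∀ j hj, (rec j hj).1.sub g.1 then h.choose
    else ⟨p.f, fun _ _ h => h⟩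
  let G : ι → {f // p.f.sub f} := WellFoundedLT.fix fun i rec =>
    ⟨F i (U i rec), fun τ r h => h1 _ _ τ r ((U i rec).2 τ r h)⟩
  have hG : ∀ i, (G i).1 = F i (U i fun j _ => G j) := fun i => by
    simp only [G]
    rw [WellFoundedLT.fix_eq]
  have tri : ∀ i j, (j < i → (G j).1.sub (G i).1) → (i < j → (G i).1.sub (G j).1) →
      (G i).1.sub (G j).1 ∨ (G j).1.sub (G i).1 := fun i j h3 h4 => by
    rcases lt_trichotomy i j with h | rfl | h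
    · exact Or.inl (h4 h)
    · exact Or.inl fun _ _ h => h
    · exact Or.inr (h3 h)
  have key : ∀ i j, j < i → (G j).1.sub (G i).1 := fun i => by
    induction i using WellFoundedLT.induction with
    | ind i ih =>
      obtain ⟨g, h3, h4⟩ := Fn.exists_ub ((mk_subtype_le _).trans_lt hι) p.f
        (fun j : {j // j < i} => (G j).1) (fun j => (G j).2)
        fun j j' => tri _ _ (ih _ j.2 _) (ih _ j'.2 _)
      have h5 : ∃ g : {f // p.f.sub f}, ∀ j (_ : j < i), (G j).1.sub g.1 :=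
        ⟨⟨g, h3⟩, fun j hj => h4 ⟨j, hj⟩⟩
      intro j hj τ r h
      rw [hG i]
      refine h1 _ _ τ r ?_
      simp only [U, dif_pos h5]
      exact h5.choose_spec j hj τ r h
  obtain ⟨g, h3, h4⟩ := Fn.exists_ub hι p.f (fun i => (G i).1) (fun j => (G j).2)
    fun i j => tri _ _ (key _ _) (key _ _)
  refine ⟨g, h3, fun i r hr => ?_⟩
  obtain ⟨t, h5, h6⟩ := h2 i (U i fun j _ => G j) r hr
  exact ⟨t, h5, hm _ _ _ (Two.mk_le le_rfl (hG i ▸ h4 i)) h6⟩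

instance : CovC (Two k Q K) := ⟨fun D hm p hd => by
  have := hF.out.cov
  obtain ⟨g, h1, h2⟩ := star (ι := ULift.{u} ℕ) (mk_le_aleph0.trans_lt hF.out.w) (fun n r => ∃ a, D n.down a r)
    (fun _ _ _ h ⟨a, ha⟩ => ⟨a, hm _ _ _ _ h ha⟩) p fun n => hd n.down
  obtain ⟨q, h3, S, h4, h5⟩ := CovC.out (fun n a r => D n a ⟨r, g⟩)
    (fun _ _ _ _ h => hm _ _ _ _ (Two.mk_le h fun _ _ h => h)) p.q fun n => h2 ⟨n⟩
  refine ⟨⟨q, g⟩, Two.mk_le h3 h1, S, h4, fun n c hc => ?_⟩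
  obtain ⟨t, h6, a, h7, h8⟩ := h5 n c.q hc.1
  exact ⟨_, Two.cut h6, a, h7, hm _ _ ⟨t, g⟩ _ ⟨le_rfl, fun τ r hr => hc.2 τ r (hr.trans h6)⟩ h8⟩⟩

/-- Small families of dense sets have, below a suitable condition, small predense subsets. -/
theorem star_pre {ι : Type u} (hι : #ι < k) (D : ι → Two k Q K → Prop)
    (hm : ∀ i p q, q ≤ p → D i p → D i q) (p : Two k Q K)
    (hd : ∀ i q, q ≤ p → ∃ r, r ≤ q ∧ D i r) : ∃ g, p.f.sub g ∧ ∃ S : ι → Set Q,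
      ∀ i, #(S i) < k ∧ (∀ d ∈ S i, D i ⟨d, g⟩ ∧ d ≤ p.q) ∧
        ∀ r, r ≤ p.q → ∃ d ∈ S i, ∃ t, t ≤ r ∧ t ≤ d := by
  obtain ⟨g, h1, h2⟩ := star hι D hm p hd
  choose S hS using fun i => hF.out.pre (fun r => D i ⟨r, g⟩) p.q (h2 i)
  exact ⟨g, h1, S, hS⟩

/-- The least time at which the coordinate `a` is not yet defined receives the value `j`. -/
theorem exists_add (p : Two k Q K) {a j : K} (hj : j ≤ a) : ∃ c, c ≤ p ∧ ∃ ξ,
    (c.f.s (a, ξ, j)).s c.q ∧ ∀ η, η < ξ → ∀ c', c' ≤ c → ∀ j', (c'.f.s (a, η, j')).s c'.q →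
      ∃ t, t ≤ c'.q ∧ (p.f.s (a, η, j')).s t := by
  obtain ⟨ξ0, h0⟩ : ∃ ξ, ξ ∉ (fun τ : K × Tm k × K => τ.2.1) '' {τ | ∃ r, (p.f.s τ).s r} := by
    by_contra hc
    push Not at hc
    have := (mk_image_le (f := fun τ : K × Tm k × K => τ.2.1)).trans_lt p.f.sm
    simp [eq_univ_of_forall hc] at this
  obtain ⟨ξ, ⟨r, h1, h2⟩, h3⟩ := WellFounded.has_min wellFounded_lt
    {ξ | ∃ r, r ≤ p.q ∧ ∀ j' t, t ≤ r → ¬ (p.f.s (a, ξ, j')).s t}
    ⟨ξ0, p.q, le_rfl, fun j' t _ h => h0 ⟨_, ⟨t, h⟩, rfl⟩⟩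
  let g : Fn k Q K := ⟨fun τ => (p.f.s τ).or ((cst (τ = (a, ξ, j))).and (bl r)),
    (mk_le_mk_of_subset (t := insert (a, ξ, j) {τ | ∃ r, (p.f.s τ).s r}) fun τ h => by
      obtain ⟨w, -, h | h⟩ := h.choose_spec _ le_rfl
      · exact Or.inr ⟨w, h⟩
      · exact Or.inl h.1).trans_lt (hF.out.un (hF.out.ct (countable_singleton _)) p.f.sm), fun τ t h => by
      obtain ⟨w, -, h | h⟩ := h t le_rfl
      · exact p.f.le τ w h
      · exact h.1 ▸ hj, fun b η i i' t h4 h5 => by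
      obtain ⟨w, h6, h7⟩ := h4 t le_rfl
      obtain ⟨w', h8, h9⟩ := h5 w h6
      rcases h7 with h7 | h7 <;> rcases h9 with h9 | h9
      · exact p.f.fn _ _ _ _ _ (RO.mono h7 h8) h9
      · obtain ⟨x, h10, h11⟩ := of_bl h9.2
        cases h9.1
        exact absurd (RO.mono h7 (h10.trans h8)) (h2 _ x h11)
      · obtain ⟨x, h10, h11⟩ := h7.2 w' h8
        cases h7.1
        exact absurd (RO.mono h9 h10) (h2 _ x h11)
      · cases h7.1; cases h9.1; rfl⟩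
  refine ⟨⟨r, g⟩, Two.mk_le h1 fun τ t h => RO.or_inl h, ξ, RO.or_inr ⟨rfl, bl_of_le le_rfl⟩,
    fun η hη c hc j' h4 => ?_⟩
  obtain ⟨i, t, h6, h7⟩ : ∃ i t, t ≤ c.q ∧ (p.f.s (a, η, i)).s t := by
    by_contra h5
    exact h3 η ⟨c.q, hc.1.trans h1, fun i t h6 h7 => h5 ⟨i, t, h6, h7⟩⟩ hη
  exact ⟨t, h6, c.f.fn _ _ _ _ t (hc.2 _ t h6 (RO.or_inl h7)) (RO.mono h4 h6) ▸ h7⟩

open Classical in
noncomputable def mix (X : Set K) (p : Two k Q K) (t : Fn k Q K) : Two k Q K :=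
  ⟨p.q, fun τ => if τ.1 ∈ X then p.f.s τ else t.s τ,
    (mk_le_mk_of_subset (t := {τ | ∃ r, (p.f.s τ).s r} ∪ {τ | ∃ r, (t.s τ).s r}) fun τ h => by
      obtain ⟨r, h⟩ := h
      split_ifs at h
      exacts [Or.inl ⟨r, h⟩, Or.inr ⟨r, h⟩]).trans_lt (hF.out.un p.f.sm t.sm), fun τ r h => by
      split_ifs at h
      exacts [p.f.le τ r h, t.le τ r h], fun a ξ j j' r h h' => by
      by_cases ha : a ∈ X <;> simp only [ha, if_true, if_false] at h h'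
      exacts [p.f.fn _ _ _ _ _ h h', t.fn _ _ _ _ _ h h']⟩

def leX (X : Set K) (p' p : Two k Q K) : Prop :=
  p'.q ≤ p.q ∧ ∀ τ r, τ.1 ∈ X → r ≤ p'.q → (p.f.s τ).s r → (p'.f.s τ).s r

def leT (X : Set K) (q : Q) (t' t : Fn k Q K) : Prop :=
  ∀ τ r, τ.1 ∉ X → r ≤ q → (t.s τ).s r → (t'.s τ).s r

def Supp (X : Set K) (p : Two k Q K) : Prop := ∀ τ r, (p.f.s τ).s r → τ.1 ∈ X

variable {X : Set K}

section

omit hF

theorem leX.trans {a b c : Two k Q K} (h1 : leX X a b) (h2 : leX X b c) : leX X a c :=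
  ⟨h1.1.trans h2.1, fun τ r h h' h3 => h1.2 τ r h h' (h2.2 τ r h (h'.trans h1.1) h3)⟩

theorem leX_of_le {a b : Two k Q K} (h : a ≤ b) : leX X a b := ⟨h.1, fun τ r _ => h.2 τ r⟩

theorem le_of_leX {a b : Two k Q K} (h : leX X a b) (hb : Supp X b) : a ≤ b :=
  ⟨h.1, fun τ r h1 h2 => h.2 τ r (hb τ r h2) h1 h2⟩

theorem leT.trans {q : Q} {a b c : Fn k Q K} (h1 : leT X q a b) (h2 : leT X q b c) :
    leT X q a c := fun τ r h h' h3 => h1 τ r h h' (h2 τ r h h' h3)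

theorem leT.mono {q q' : Q} {a b : Fn k Q K} (h1 : leT X q a b) (h : q' ≤ q) : leT X q' a b :=
  fun τ r h2 h3 => h1 τ r h2 (h3.trans h)

theorem leT_rfl {q : Q} {a : Fn k Q K} : leT X q a a := fun _ _ _ _ h => h

end

theorem le_mix {c p : Two k Q K} {t : Fn k Q K} :
    c ≤ mix X p t ↔ leX X c p ∧ leT X c.q c.f t := by
  constructor
  · exact fun h => ⟨⟨h.1, fun τ r h1 h2 h3 => h.2 τ r h2 (by simpa [mix, h1] using h3)⟩,
      fun τ r h1 h2 h3 => h.2 τ r h2 (by simpa [mix, h1] using h3)⟩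
  · refine fun h => ⟨h.1.1, fun τ r h1 h2 => ?_⟩
    by_cases h3 : τ.1 ∈ X
    · exact h.1.2 τ r h3 h1 (by simpa [mix, h3] using h2)
    · exact h.2 τ r h3 h1 (by simpa [mix, h3] using h2)

theorem mix_leX (p : Two k Q K) (t : Fn k Q K) : leX X (mix X p t) p := (le_mix.1 le_rfl).1

theorem mix_mono {p p' : Two k Q K} {t t' : Fn k Q K} (h1 : leX X p' p) (h2 : leT X p'.q t' t) :
    mix X p' t' ≤ mix X p t :=
  le_mix.2 ⟨(mix_leX _ _).trans h1, leT.trans (le_mix.1 le_rfl).2 h2⟩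

theorem mix_le_left {p : Two k Q K} (h : Supp X p) (t : Fn k Q K) : mix X p t ≤ p :=
  le_of_leX (mix_leX _ _) h

theorem mix_le_right {p c : Two k Q K} (h : leX X p c) : mix X p c.f ≤ c := by
  refine ⟨h.1, fun τ r h1 h2 => ?_⟩
  by_cases h3 : τ.1 ∈ X
  · exact (mix_leX p c.f).2 τ r h3 h1 (h.2 τ r h3 h1 h2)
  · exact (le_mix.1 le_rfl).2 τ r h3 h1 h2

/-- The supercompactness measure. -/
structure Ms (k : Cardinal.{u}) (K I : Type u) [LinearOrder K] where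
  Ω : Type u
  U : Ultrafilter Ω
  X : Ω → Set K
  Y : Ω → Set I
  a : Ω → K
  e : Ω → K → I × Bool
  κ : Cardinal.{u}
  lt : k < κ
  cc : CardinalInterFilter (U : Filter Ω) κ
  ic : ∀ a : K, #(Iic a) < κ
  fX : ∀ k, ∀ᶠ x in U, k ∈ X x
  fY : ∀ i, ∀ᶠ x in U, i ∈ Y x
  rX : Regr U X
  rY : Regr U Y
  aX : ∀ x, a x ∉ X x
  eY : ∀ᶠ x in U, ∀ j, (e x j).1 ∈ Y x
  eS : ∀ x, ∀ i ∈ Y x, ∀ b, ∃ j, j ≤ a x ∧ e x j = (i, b)

variable {I : Type u} (m : Ms k K I)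

omit hF in
theorem Ms.small {α : Type u} {T : m.Ω → Set α} (h : Regr m.U T) :
    Regr m.U fun x => {c : Set α | #c ≤ k ∧ c ⊆ T x} := by
  have := m.cc
  intro c hc
  have h1 : ∀ x, ∃ g : Tm k → Option α, #(c x) ≤ k → c x = {a | ∃ ξ, g ξ = some a} := fun x => by
    by_cases h : #(c x) ≤ k
    · obtain ⟨f⟩ : Nonempty (c x ↪ Tm k) := (Cardinal.le_def _ _).1 (by simpa using h)
      classical
      refine ⟨fun ξ => if h : ∃ a, f a = ξ then some h.choose.1 else none, fun _ => Set.ext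
        fun a => ⟨fun ha => ⟨f ⟨a, ha⟩, ?_⟩, fun ⟨ξ, h⟩ => ?_⟩⟩
      · have h : ∃ b, f b = f ⟨a, ha⟩ := ⟨_, rfl⟩
        simp only [dif_pos h, f.injective h.choose_spec]
      · beta_reduce at h
        split_ifs at h with h1
        exact Option.some.inj h ▸ h1.choose.2
    · exact ⟨fun _ => none, fun h1 => absurd h1 h⟩
  choose g hg using h1
  have h2 : ∀ ξ, ∃ o, ∀ᶠ x in m.U, g x ξ = o := fun ξ => by
    by_cases h0 : ∀ᶠ x in m.U, g x ξ = none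
    · exact ⟨_, h0⟩
    have h3 := Ultrafilter.eventually_not.2 h0
    obtain ⟨x0, h4⟩ := h3.exists
    obtain ⟨a0, -⟩ := Option.ne_none_iff_exists'.1 h4
    obtain ⟨a, ha⟩ := h (fun x => (g x ξ).getD a0) ((hc.and h3).mono fun x hx => by
      obtain ⟨a, ha⟩ := Option.ne_none_iff_exists'.1 hx.2
      exact hx.1.2 (by rw [hg x hx.1.1, ha]; exact ⟨ξ, ha⟩))
    refine ⟨some a, (ha.and h3).mono fun x hx => ?_⟩
    obtain ⟨b, hb⟩ := Option.ne_none_iff_exists'.1 hx.2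
    rw [hb, ← hx.1, hb]; rfl
  choose o ho using h2
  refine ⟨{a | ∃ ξ, o ξ = some a}, (hc.and ((eventually_cardinal_forall
    (by simpa using m.lt)).2 ho)).mono fun x hx => ?_⟩
  rw [hg x hx.1.1, funext hx.2]

omit hF in
theorem Ms.ball {α : Type u} {S : Set α} (hS : #S < k) {φ : m.Ω → α → Prop}
    (h : ∀ a ∈ S, ∀ᶠ x in m.U, φ x a) : ∀ᶠ x in m.U, ∀ a ∈ S, φ x a :=
  have := m.cc
  (eventually_cardinal_ball (hS.trans m.lt)).2 h

omit hF in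
theorem ae_supp (p : Two k Q K) : ∀ᶠ x in m.U, Supp (m.X x) p :=
  (m.ball p.f.sm fun τ _ => m.fX τ.1).mono fun _ h τ r h1 => h τ ⟨r, h1⟩

theorem ae_res (p : m.Ω → Two k Q K) :
    ∃ q : Two k Q K, ∀ᶠ x in m.U, leX (m.X x) q (p x) ∧ p x ≤ q := by
  have := m.cc
  have hF := hF.out
  have hQ : #(univ : Set Q) < m.κ := by simpa using hF.card.trans_lt m.lt
  obtain ⟨q, hq⟩ := ae_const (U := m.U) (fun x => (p x).q) hQ (Eventually.of_forall fun _ => trivial)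
  have h1 : Regr m.U fun x => {t : (K × Tm k × K) × Q | t.1.1 ∈ m.X x ∧ t.1.2.2 ≤ t.1.1} := by
    intro f hf
    obtain ⟨a, ha⟩ := m.rX (fun x => (f x).1.1) (hf.mono fun x hx => hx.1)
    obtain ⟨b, hb⟩ := ae_const (U := m.U) (κ := m.κ) (fun x => (f x).1.2.1) (S := univ) (by simpa using m.lt)
      (Eventually.of_forall fun _ => trivial)
    obtain ⟨c, hc⟩ := ae_const (fun x => (f x).1.2.2) (m.ic a)
      ((hf.and ha).mono fun x hx => hx.1.2.trans hx.2.le)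
    obtain ⟨d, hd⟩ := ae_const (U := m.U) (fun x => (f x).2) hQ (Eventually.of_forall fun _ => trivial)
    exact ⟨((a, b, c), d), (ha.and (hb.and (hc.and hd))).mono fun x hx =>
      Prod.ext (Prod.ext hx.1 (Prod.ext hx.2.1 hx.2.2.1)) hx.2.2.2⟩
  obtain ⟨S, hS⟩ := m.small h1 (fun x => {t | t.1.1 ∈ m.X x ∧ ((p x).f.s t.1).s t.2})
    (Eventually.of_forall fun x => ⟨(mk_le_mk_of_subset (t := {τ | ∃ r, ((p x).f.s τ).s r} ×ˢ
      Set.univ)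
      fun t h => ⟨⟨_, h.2⟩, trivial⟩).trans (by
        rw [mk_setProd, mk_univ]
        exact (mul_le_mul' (p x).f.sm.le hF.card).trans (mul_eq_self hF.reg.1).le),
      fun t h => ⟨h.1, (p x).f.le _ _ h.2⟩⟩)
  obtain ⟨x0, h2, h3⟩ := (hq.and hS).exists
  have h4 : ∀ τ r, ((mix (m.X x0) (p x0) Fn.bot).f.s τ).s r ↔ (τ, r) ∈ S := fun τ r => by
    rw [← h3]
    by_cases h : τ.1 ∈ m.X x0 <;> simp [mix, h, Fn.bot, RO.bot_s]
  refine ⟨mix (m.X x0) (p x0) Fn.bot, (hq.and hS).mono fun x hx => ⟨⟨(h2.trans hx.1.symm).le,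
    fun τ r h5 _ h6 => (h4 τ r).2 (hx.2 ▸ ⟨h5, h6⟩)⟩, (hx.1.trans h2.symm).le, fun τ r _ h => ?_⟩⟩
  rw [h4, ← hx.2] at h
  exact h.2

theorem ae_closure {α β : Type u} {A : m.Ω → Set α} (hA : Regr m.U A) {B : m.Ω → Set β}
    (G : β → Prop) (hB : ∀ b, G b → ∀ᶠ x in m.U, b ∈ B x) (Φ : α → β → Two k Q K → Prop)
    (hm : ∀ a b p q, q ≤ p → Φ a b p → Φ a b q) (p0 : Two k Q K)
    (hd : ∀ a p, p ≤ p0 → (∃ x, a ∈ A x) → ∃ q, q ≤ p ∧ ∃ b, G b ∧ Φ a b q) :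
    ∀ᶠ x in m.U, ∀ a ∈ A x, ∀ p, p ≤ p0 → ∃ q, leX (m.X x) q p ∧
      ∃ b ∈ B x, Φ a b (mix (m.X x) q p.f) := by
  by_contra hc
  have h1 := Ultrafilter.eventually_not.2 hc
  obtain ⟨x0, h0⟩ := h1.exists
  push Not at h0
  obtain ⟨a0, -⟩ := h0
  have h2 : ∀ x, ∃ a p, (¬ ∀ a ∈ A x, ∀ p, p ≤ p0 → ∃ q, leX (m.X x) q p ∧
      ∃ b ∈ B x, Φ a b (mix (m.X x) q p.f)) → a ∈ A x ∧ p ≤ p0 ∧
      ∀ q, leX (m.X x) q p → ∀ b ∈ B x, ¬ Φ a b (mix (m.X x) q p.f) := fun x => by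
    by_cases h : ∀ a ∈ A x, ∀ p, p ≤ p0 → ∃ q, leX (m.X x) q p ∧
      ∃ b ∈ B x, Φ a b (mix (m.X x) q p.f)
    · exact ⟨a0, p0, fun h1 => absurd h h1⟩
    · push Not at h
      obtain ⟨a, h1, p, h2⟩ := h
      exact ⟨a, p, fun _ => ⟨h1, h2⟩⟩
  choose a p h3 using h2
  have h4 := h1.mono h3
  obtain ⟨a', h5⟩ := hA a (h4.mono fun x hx => hx.1)
  obtain ⟨q, h6⟩ := ae_res m p
  obtain ⟨x1, h7, h8, h9, h10⟩ := (h4.and (h5.and (h6.and (ae_supp m p0)))).exists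
  obtain ⟨r, h11, b, h12, h13⟩ := hd a' q (le_of_leX (h9.1.trans (leX_of_le h7.2.1)) h10)
    ⟨x1, h8 ▸ h7.1⟩
  obtain ⟨x, h14, h15, h16, h17, h18⟩ := (h4.and (h5.and ((hB b h12).and
    (h6.and (ae_supp m r))))).exists
  exact h14.2.2 r ((leX_of_le h11).trans h17.1) b h16 (h15 ▸ hm _ _ _ _ (mix_le_left h18 _) h13)

end Pool.Agent.Lib.MP_0fa4a2_gt
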